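import Mathlib

set_option autoImplicit false

/-!
# Initial ordinals as linear orders, closure points
-/

namespace Pool.Agent.H645

open Cardinal Set

universe u

section

theorem card_iUnion_le {ι α : Type u} {lam : Cardinal.{u}} (h0 : ℵ₀ ≤ lam) (f : ι → Set α)
    (hι : #ι ≤ lam) (hf : ∀ i, #(f i) ≤ lam) : #(⋃ i, f i) ≤ lam := by
  have h1 : #(⋃ i, f i) ≤ sum fun i => #(f i) := mk_iUnion_le_sum_mk
  have h2 : (sum fun i => #(f i)) ≤ sum fun _ : ι => lam := sum_le_sum _ _ hf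
  have h3 : (sum fun _ : ι => lam) = #ι * lam := by rw [sum_const, lift_id, lift_id]
  exact h1.trans (h2.trans (h3.le.trans ((mul_le_mul' hι le_rfl).trans_eq (mul_eq_self h0))))

theorem card_le_of_init {W : Type u} [LinearOrder W] [WellFoundedLT W] {c : Cardinal.{u}}
    (h : ∀ x : W, #(Iio x) < c) : #W ≤ c := by
  by_contra hcon
  rw [not_le] at hcon
  have h1 : c.ord < Ordinal.type ((· < ·) : W → W → Prop) :=
    (ord_lt_ord.2 hcon).trans_le (ord_le_type _)
  have h2 := h (Ordinal.enum ((· < ·) : W → W → Prop) ⟨c.ord, h1⟩)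
  have h3 : (Ordinal.typein ((· < ·) : W → W → Prop)
      (Ordinal.enum ((· < ·) : W → W → Prop) ⟨c.ord, h1⟩)).card =
      #(Iio (Ordinal.enum ((· < ·) : W → W → Prop) ⟨c.ord, h1⟩)) := Ordinal.card_typein _
  rw [Ordinal.typein_enum, card_ord] at h3
  rw [← h3] at h2
  exact lt_irrefl _ h2

theorem toType_bdd {κ : Cardinal.{u}} (hκ : κ.IsRegular) (S : Set κ.ord.ToType) (hS : #S < κ) :
    ∃ b, ∀ a ∈ S, a < b := by
  by_contra hcon
  push Not at hcon
  have h1 : IsCofinal S := fun b => hcon b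
  have h2 := Order.cof_le h1
  rw [Ordinal.cof_toType, hκ.cof_ord] at h2
  exact absurd hS (not_lt.2 h2)

variable {K : Type u} [LinearOrder K]

/-- The set `S` contains a closure point of every function from `K` to itself. For an initial
ordinal `K` of uncountable cofinality this says that `S` is stationary in `K`. -/
def Stat (S : Set K) : Prop := ∀ F : K → K, ∃ δ ∈ S, (∃ a, a < δ) ∧ ∀ a < δ, F a < δ

theorem Stat.mono {S T : Set K} (h : Stat S) (hST : S ⊆ T) : Stat T := fun F => by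
  obtain ⟨δ, hδ, h1, h2⟩ := h F
  exact ⟨δ, hST hδ, h1, h2⟩

/-- `K` is (order isomorphic to) the successor of the infinite cardinal `lam` -/
structure IsSuccType (lam : Cardinal.{u}) (K : Type u) [LinearOrder K] : Prop where
  inf : ℵ₀ ≤ lam
  card : #K = Order.succ lam
  init : ∀ a : K, #(Iio a) ≤ lam

theorem IsSuccType.toType {lam : Cardinal.{u}} (h : ℵ₀ ≤ lam) :
    IsSuccType lam (Order.succ lam).ord.ToType where
  inf := h
  card := mk_ord_toType _
  init a := Order.lt_succ_iff.1 (mk_Iio_toType_ord_lt a)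

variable {lam : Cardinal.{u}}

theorem IsSuccType.lt (h : IsSuccType lam K) : lam < #K := by
  rw [h.card]
  exact Order.lt_succ lam

theorem IsSuccType.initc (h : IsSuccType lam K) (a : K) : #(Iic a) ≤ lam := by
  have : (Iic a : Set K) = insert a (Iio a) := by
    ext x; simp [le_iff_eq_or_lt]
  rw [this]
  exact (mk_insert_le).trans ((add_le_add (h.init a) (one_le_aleph0.trans h.inf)).trans_eq
    (add_eq_self h.inf))

theorem IsSuccType.bdd (h : IsSuccType lam K) (S : Set K) (hS : #S ≤ lam) :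
    ∃ b, ∀ a ∈ S, a < b := by
  by_contra hcon
  push Not at hcon
  have h1 : (univ : Set K) ⊆ ⋃ a : S, Iic a.1 := by
    intro b _
    obtain ⟨a, ha, hb⟩ := hcon b
    exact mem_iUnion.2 ⟨⟨a, ha⟩, hb⟩
  have h2 : #K ≤ lam := by
    rw [← mk_univ]
    exact (mk_le_mk_of_subset h1).trans
      (card_iUnion_le h.inf _ hS fun a => h.initc a.1)
  exact absurd h.lt (not_lt.2 h2)

theorem IsSuccType.bddF (h : IsSuccType lam K) {ι : Type u} (f : ι → K) (hι : #ι ≤ lam) :
    ∃ b, ∀ i, f i < b := by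
  obtain ⟨b, hb⟩ := h.bdd (range f) (mk_range_le.trans hι)
  exact ⟨b, fun i => hb _ ⟨i, rfl⟩⟩

theorem IsSuccType.bddN (h : IsSuccType lam K) (f : ℕ → K) :
    ∃ b, ∀ i, f i < b := by
  obtain ⟨b, hb⟩ := h.bddF (fun i : ULift.{u} ℕ => f i.down) (by
    rw [mk_uLift, mk_nat, lift_aleph0]; exact h.inf)
  exact ⟨b, fun i => hb ⟨i⟩⟩

theorem IsSuccType.nonempty (h : IsSuccType lam K) : Nonempty K := by
  rw [← mk_ne_zero_iff, h.card]
  exact (Order.succ_ne_bot lam)

theorem IsSuccType.exists_gt (h : IsSuccType lam K) (a : K) : ∃ b, a < b := by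
  obtain ⟨b, hb⟩ := h.bdd {a} (by rw [mk_singleton]; exact one_le_aleph0.trans h.inf)
  exact ⟨b, hb a rfl⟩

theorem IsSuccType.gt2 (h : IsSuccType lam K) (a b : K) : ∃ c, a < c ∧ b < c := by
  rcases le_total a b with hab | hab
  · obtain ⟨c, hc⟩ := h.exists_gt b
    exact ⟨c, hab.trans_lt hc, hc⟩
  · obtain ⟨c, hc⟩ := h.exists_gt a
    exact ⟨c, hc, hab.trans_lt hc⟩

/-- Closure points under functions of two variables -/
theorem Stat.two (h : IsSuccType lam K) {S : Set K} (hS : Stat S) (F : K → K → K) (a0 : K) :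
    ∃ δ ∈ S, a0 < δ ∧ ∀ a < δ, ∀ b < δ, F a b < δ := by
  classical
  have h1 : ∀ a : K, ∃ c, a < c ∧ a0 < c ∧ ∀ x ≤ a, ∀ y ≤ a, F x y < c := by
    intro a
    obtain ⟨c, hc⟩ := h.bddF (fun p : Iic a × Iic a => F p.1.1 p.2.1) (by
      rw [mk_prod, lift_id]
      exact (mul_le_mul' (h.initc a) (h.initc a)).trans_eq (mul_eq_self h.inf))
    obtain ⟨d, hd1, hd2⟩ := h.gt2 a a0
    obtain ⟨e, he1, he2⟩ := h.gt2 c d
    exact ⟨e, hd1.trans he2, hd2.trans he2, fun x hx y hy => (hc ⟨⟨x, hx⟩, ⟨y, hy⟩⟩).trans he1⟩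
  choose G hG1 hG2 hG3 using h1
  obtain ⟨δ, hδ, ⟨a1, ha1⟩, hδ2⟩ := hS G
  refine ⟨δ, hδ, (hG2 a1).trans (hδ2 a1 ha1), fun a ha b hb => ?_⟩
  exact (hG3 (max a b) a (le_max_left _ _) b (le_max_right _ _)).trans (hδ2 _ (max_lt ha hb))

end

end Pool.Agent.H645
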