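import Mathlib

set_option autoImplicit false

/-!
# The sentences of the forcing language, and normal measures: all definitions

A sentence about the generic extension by a preordered set `P` of conditions is represented by the
set of the conditions which force it. Negation, conjunction and universal quantification are the
primitive connectives, with their usual forcing clauses; the other connectives are defined from
them classically. A name for a subset of a ground model set `X` is a map `A : X → Set P`: the
element `x` belongs to the named set when the generic filter meets `A x`.
-/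

namespace Pool.Agent.H645

open Cardinal Set

/-- `W` is a normal measure on `P_κ(X)`: a `κ`-complete ultrafilter on the set of all subsets of
`X`, concentrating on the sets of size less than `κ`, fine (almost all sets contain a given
point) and normal (closed under diagonal intersections). -/
structure IsNormalMeasure (κ : Cardinal.{0}) (X : Type) (W : Ultrafilter (Set X)) : Prop where
  small : {x : Set X | #x < κ} ∈ W
  fine : ∀ a : X, {x : Set X | a ∈ x} ∈ W
  complete : ∀ (ι : Type) (A : ι → Set (Set X)), #ι < κ → (∀ i, A i ∈ W) → (⋂ i, A i) ∈ W
  normal : ∀ A : X → Set (Set X), (∀ a, A a ∈ W) → {x : Set X | ∀ a ∈ x, x ∈ A a} ∈ W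

/-- `κ^{+n}` -/
noncomputable def kap (κ : Cardinal.{0}) (n : ℕ) : Cardinal.{0} := Order.succ^[n] κ

/-- `κ^{+ω}` -/
noncomputable def lamOf (κ : Cardinal.{0}) : Cardinal.{0} := ⨆ n, kap κ (n + 1)

end Pool.Agent.H645

namespace Pool.Agent.H645.Q

open Cardinal Set

section

variable {P : Type} [Preorder P]

universe v w

/-- `p` forces `not φ` iff no `q ≤ p` forces `φ`. -/
def fnot (φ : Set P) : Set P := {p | ∀ q ≤ p, q ∉ φ}

/-- `p` forces `φ and ψ` iff it forces both. -/
def fand (φ ψ : Set P) : Set P := {p | p ∈ φ ∧ p ∈ ψ}

/-- `p` forces `for all i, φ i` iff it forces every `φ i`. -/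
def fall {ι : Sort v} (φ : ι → Set P) : Set P := {p | ∀ i, p ∈ φ i}

/-- `φ implies ψ` is `not (φ and not ψ)`. -/
def fimp (φ ψ : Set P) : Set P := fnot (fand φ (fnot ψ))

/-- `there is i with φ i` is `not for all i, not φ i`. -/
def fex {ι : Sort v} (φ : ι → Set P) : Set P := fnot (fall fun i => fnot (φ i))

/-- An absolute statement about ground model objects. -/
def fground (h : Prop) : Set P := {_p | h}

/-- `p` forces that the generic filter meets the set `N` of conditions:
the set of `r` lying below some member of `N` is dense below `p`. -/
def meets (N : Set P) : Set P := {p | ∀ q ≤ p, ∃ r ≤ q, ∃ s ∈ N, r ≤ s}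

/-- The relation named by `R` is a function from `X` to `Y`. -/
def IsFun {X : Type v} {Y : Type w} (R : X → Y → Set P) : Set P :=
  fand (fall fun x => fex fun y => meets (R x y))
    (fall fun x => fall fun y => fall fun y' =>
      fimp (fand (meets (R x y)) (meets (R x y'))) (fground (y = y')))

/-- The relation named by `R` takes each `y` in `Y` as a value. -/
def IsOnto {X : Type v} {Y : Type w} (R : X → Y → Set P) : Set P :=
  fall fun y => fex fun x => meets (R x y)

/-- The named subset `S` of `X` is contained in the named subset `T`. -/
def Sub {X : Type} (S T : X → Set P) : Set P := fall fun y => fimp (meets (S y)) (meets (T y))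

/-- The named subset `S` of `X` is countable: the range of some function from `ℕ` to `X`
covers it. -/
def IsCtbl {X : Type} (S : X → Set P) : Set P :=
  fex fun f : ℕ → X → Set P =>
    fand (IsFun f) (fall fun y => fimp (meets (S y)) (fex fun n => meets (f n y)))

/-- The named subset `A` of `X` has the same cardinality as `X`: for no cardinal `ν < |X|` there
is a function from `ν` to `X` whose range covers `A`. -/
def HasFullSize {X : Type} (A : X → Set P) : Set P :=
  fall fun ν : Cardinal.{0} => fall fun _ : ν < #X =>
    fnot (fex fun R : ν.out → X → Set P =>
      fand (IsFun R) (fall fun y => fimp (meets (A y)) (fex fun x => meets (R x y))))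

/-- The cardinal `κ` is regular in the extension: every function from a smaller cardinal to `κ`
is bounded. -/
def StaysRegular (P : Type) [Preorder P] (κ : Cardinal.{0}) : Set P :=
  fall fun ν : Cardinal.{0} => fall fun _ : ν < κ => fall fun R : ν.out → κ.ord.ToType → Set P =>
    fimp (IsFun R) (fex fun b : κ.ord.ToType => fall fun x => fall fun y =>
      fimp (meets (R x y)) (fground (y < b)))

/-- Every ground model cardinal below `κ` has cardinality at most `μ` in the extension: some
function from a subset of `μ` is onto it. -/
def CollapsedTo (P : Type) [Preorder P] (μ κ : Cardinal.{0}) : Set P :=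
  fall fun ν : Cardinal.{0} => fall fun _ : ν < κ =>
    fex fun R : μ.ord.ToType → ν.out → Set P =>
      fand (fall fun x => fall fun y => fall fun y' =>
        fimp (fand (meets (R x y)) (meets (R x y'))) (fground (y = y'))) (IsOnto R)

/-- In the extension there is a map from `μ` onto the set of all subsets of `ν`. -/
def PowOnto (P : Type) [Preorder P] (ν μ : Cardinal.{0}) : Set P :=
  fex fun F : μ.ord.ToType → ν.ord.ToType → Set P => fall fun X : ν.ord.ToType → Set P =>
    fex fun i => fand (Sub (F i) X) (Sub X (F i))

/-- The generalized continuum hypothesis in the extension: for each infinite cardinal `ν` (of the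
ground model) there is a cardinal `μ` such that there is a map from `μ` onto the power set of `ν`
and every cardinal below `μ` has cardinality at most `|ν|` in the extension. -/
def ForcesGCH (P : Type) [Preorder P] : Set P :=
  fall fun ν : Cardinal.{0} => fall fun _ : ℵ₀ ≤ ν => fex fun μ : Cardinal.{0} =>
    fand (PowOnto P ν μ) (CollapsedTo P ν μ)

/-- `μ` is the cardinal `ℵ_{ω+1}` of the extension: there are cardinals `ℵ₀ = k 0 < k 1 < ...`
with supremum `η` such that `μ` is the successor of `η` in the ground model, every `k (n + 1)` is
still regular and all cardinals below it are collapsed to `k n`, and `μ` is still regular. -/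
def IsAlephOmegaSucc (P : Type) [Preorder P] (μ : Cardinal.{0}) : Set P :=
  fex fun k : ℕ → Cardinal.{0} =>
    fand (fground (k 0 = ℵ₀ ∧ StrictMono k ∧ μ = Order.succ (⨆ n, k n)))
      (fand (fall fun n => fand (StaysRegular P (k (n + 1))) (CollapsedTo P (k n) (k (n + 1))))
        (StaysRegular P μ))

/-- The intersection of two named subsets of `U`. -/
def nCap {U : Type} (A B : U → Set P) : U → Set P := fun u => fand (meets (A u)) (meets (B u))

/-- The named subset `A` of `U` is finite: it is contained in a finite set of the ground model. -/
def IsFin {U : Type} (A : U → Set P) : Set P :=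
  fex fun F : Finset U => fall fun u => fimp (meets (A u)) (fground (u ∈ F))

/-- The named subset `A` of `U` has at least `n` elements. -/
def AtLeast {U : Type} (n : ℕ) (A : U → Set P) : Set P :=
  fex fun F : Finset U => fand (fground (n ≤ F.card)) (fall fun u => fall fun _ : u ∈ F =>
    meets (A u))

/-- The named sets `A j` (subsets of `U`, for `j` in `J`) all have the cardinality of `U`, any two
of them meet in a finite set, and there is no finite bound for the sizes of these intersections:
the degree of disjunction of the family is `ℵ₀`. -/
def IsFamily {J U : Type} (A : J → U → Set P) : Set P :=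
  fand (fall fun j => HasFullSize (A j))
    (fand (fall fun i => fall fun j => fall fun _ : i ≠ j => IsFin (nCap (A i) (A j)))
      (fall fun n : ℕ => fex fun i => fex fun j => fand (fground (i ≠ j))
        (AtLeast n (nCap (A i) (A j)))))

/-- `T` names an `ℵ₁`-transversal of the family `A`: a subset of `U` which meets each `A j` in a
nonempty countable set. -/
def IsTransversal {J U : Type} (A : J → U → Set P) (T : U → Set P) : Set P :=
  fall fun j => fand (fex fun u => nCap T (A j) u) (IsCtbl (nCap T (A j)))

/-- There is a family of `|K|` sets of size `|K|`, with degree of disjunction `ℵ₀`, which has no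
`ℵ₁`-transversal. -/
def HasBadFamily (P : Type) [Preorder P] (K : Type) : Set P :=
  fex fun A : K → K → Set P => fand (IsFamily A) (fnot (fex fun T : K → Set P =>
    IsTransversal A T))

end

end Pool.Agent.H645.Q
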