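import Mathlib
import Pool.Agent.H645.Base

set_option autoImplicit false

/-!
# Scales in products of increasing sequences of regular cardinals
-/

namespace Pool.Agent.H645

open Cardinal Set

universe u

section

/-- `L n` is a linear order in which all sets of size less than `k n` are bounded, and the
cardinals `k n` are strictly increasing. -/
structure IsLadder (k : ℕ → Cardinal.{u}) (L : ℕ → Type u) [∀ n, LinearOrder (L n)] : Prop where
  mono : StrictMono k
  bdd : ∀ n, ∀ S : Set (L n), #S < k n → ∃ b, ∀ a ∈ S, a < b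

variable {k : ℕ → Cardinal.{u}} {L : ℕ → Type u} [∀ n, LinearOrder (L n)]

/-- eventual domination -/
def EvLt (f g : ∀ n, L n) : Prop := ∃ m, ∀ n ≥ m, f n < g n

def EvLe (f g : ∀ n, L n) : Prop := ∃ m, ∀ n ≥ m, f n ≤ g n

theorem EvLt.trans {f g h : ∀ n, L n} (h1 : EvLt f g) (h2 : EvLt g h) : EvLt f h := by
  obtain ⟨m, hm⟩ := h1
  obtain ⟨m', hm'⟩ := h2
  exact ⟨max m m', fun n hn => (hm n (le_of_max_le_left hn)).trans (hm' n (le_of_max_le_right hn))⟩

/-- a set which is the union of sets `A n` of size at most `k n` -/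
theorem exists_pieces {k : ℕ → Cardinal.{u}} {A : Type u}
    (hm : StrictMono k) (hA : #A ≤ ⨆ n, k n) :
    ∃ r : A → ℕ, ∀ n, #{a | r a ≤ n} ≤ k n := by
  classical
  have h1 : #A ≤ #((⨆ n, k n).ord.ToType) := by rw [mk_ord_toType]; exact hA
  obtain ⟨e⟩ := h1
  have h2 : ∀ a : A, ∃ n, #(Iio (e a)) < k n := by
    intro a
    have h3 : #(Iio (e a)) < ⨆ n, k n := mk_Iio_toType_ord_lt (e a)
    exact exists_lt_of_lt_ciSup h3
  refine ⟨fun a => Nat.find (h2 a), fun n => ?_⟩
  let D : Set (⨆ n, k n).ord.ToType := {x | #(Iio x) < k n}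
  have h3 : ∀ a ∈ {a | Nat.find (h2 a) ≤ n}, e a ∈ D := fun a ha =>
    (Nat.find_spec (h2 a)).trans_le (hm.monotone ha)
  have h4 : #D ≤ k n := by
    refine card_le_of_init fun x => ?_
    refine lt_of_le_of_lt ?_ x.2
    exact mk_le_of_injective (f := fun y : Iio x => (⟨y.1.1, y.2⟩ : Iio x.1)) fun y z hyz =>
      Subtype.ext (Subtype.ext (congrArg (fun w : Iio x.1 => w.1) hyz))
  refine le_trans ?_ h4
  exact mk_le_of_injective (f := fun a : {a | Nat.find (h2 a) ≤ n} => (⟨e a.1, h3 _ a.2⟩ : D))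
    fun y z hyz => Subtype.ext (e.injective (congrArg Subtype.val hyz))

theorem IsLadder.nonempty (h : IsLadder k L) (n : ℕ) : Nonempty (L (n + 1)) := by
  obtain ⟨b, _⟩ := h.bdd (n + 1) ∅ (by
    rw [mk_eq_zero]
    exact (zero_le).trans_lt (h.mono (Nat.lt_succ_self n)))
  exact ⟨b⟩

/-- small families of functions are bounded modulo finite -/
theorem IsLadder.bound (h : IsLadder k L) (h0 : Nonempty (L 0)) (A : Set (∀ n, L n))
    (hA : #A ≤ ⨆ n, k n) : ∃ g : ∀ n, L n, ∀ f ∈ A, EvLt f g := by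
  classical
  obtain ⟨r, hr⟩ := exists_pieces h.mono hA
  have h1 : ∀ n, ∃ b : L (n + 1), ∀ f : A, r f ≤ n → f.1 (n + 1) < b := by
    intro n
    obtain ⟨b, hb⟩ := h.bdd (n + 1) ((fun f : A => f.1 (n + 1)) '' {f | r f ≤ n})
      (mk_image_le.trans_lt ((hr n).trans_lt (h.mono (Nat.lt_succ_self n))))
    exact ⟨b, fun f hf => hb _ ⟨f, hf, rfl⟩⟩
  choose b hb using h1
  refine ⟨fun n => Nat.casesOn n h0.some b, fun f hf => ⟨r ⟨f, hf⟩ + 1, fun n hn => ?_⟩⟩
  obtain ⟨m, rfl⟩ : ∃ m, n = m + 1 := ⟨n - 1, by omega⟩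
  exact hb m ⟨f, hf⟩ (by omega)

/-- existence of a scale -/
theorem IsLadder.scale (h : IsLadder k L) (h0 : Nonempty (L 0))
    {K : Type u} [LinearOrder K] [WellFoundedLT K] (hK : IsSuccType (⨆ n, k n) K)
    (hc : #(∀ n, L n) ≤ #K) :
    ∃ f : K → ∀ n, L n, (∀ a b, a < b → EvLt (f a) (f b)) ∧ ∀ g, ∃ a, EvLt g (f a) := by
  classical
  obtain ⟨e⟩ := hc
  haveI : Nonempty (∀ n, L n) := ⟨fun n => Nat.casesOn n h0.some fun n => (h.nonempty n).some⟩
  have hs : Function.Surjective (Function.invFun e) := Function.invFun_surjective e.injective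
  have hstep : ∀ (a : K) (ih : ∀ b, b < a → ∀ n, L n), ∃ g : ∀ n, L n,
      (∀ b (hb : b < a), EvLt (ih b hb) g) ∧ EvLt (Function.invFun e a) g := by
    intro a ih
    obtain ⟨g, hg⟩ := h.bound h0
      (insert (Function.invFun e a) (range fun b : Iio a => ih b.1 b.2)) (by
        refine (mk_insert_le).trans ?_
        refine (add_le_add (mk_range_le.trans (hK.init a)) (one_le_aleph0.trans hK.inf)).trans_eq
          (add_eq_self hK.inf))
    exact ⟨g, fun b hb => hg _ (mem_insert_of_mem _ ⟨⟨b, hb⟩, rfl⟩), hg _ (mem_insert _ _)⟩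
  choose st hst1 hst2 using hstep
  let f : K → ∀ n, L n := (wellFounded_lt (α := K)).fix st
  have hf : ∀ a, f a = st a fun b _ => f b := fun a => (wellFounded_lt (α := K)).fix_eq st a
  refine ⟨f, fun a b hab => ?_, fun g => ?_⟩
  · rw [hf b]
    exact hst1 b (fun c _ => f c) a hab
  · obtain ⟨a, rfl⟩ := hs g
    refine ⟨a, ?_⟩
    rw [hf a]
    exact hst2 a _

end

end Pool.Agent.H645
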