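import Mathlib
import Pool.Agent.H645.Scale
import Pool.Agent.H645.Defs

set_option autoImplicit false

/-!
# Normal measures on `P_κ(X)`
-/

namespace Pool.Agent.H645

open Cardinal Set

/-- `κ` is a supercompact cardinal: it is uncountable and there is a normal measure on `P_κ(X)`
for every set `X`. -/
def IsSupercompact (κ : Cardinal.{0}) : Prop :=
  ℵ₀ < κ ∧ ∀ X : Type, ∃ W : Ultrafilter (Set X), IsNormalMeasure κ X W

section

variable {κ : Cardinal.{0}} {X : Type} {W : Ultrafilter (Set X)}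

namespace IsNormalMeasure

theorem nonempty_of_mem {A : Set (Set X)} (h : A ∈ W) : A.Nonempty := by
  rcases A.eq_empty_or_nonempty with h0 | h0
  · rw [h0] at h
    exact absurd h (Filter.empty_notMem _)
  · exact h0

/-- pressing down -/
theorem press (hW : IsNormalMeasure κ X W) (f : Set X → X) (hf : {x | f x ∈ x} ∈ W) :
    ∃ a, {x | f x = a} ∈ W := by
  by_contra hcon
  push Not at hcon
  have h1 : ∀ a, {x | f x ≠ a} ∈ W := fun a => by
    have := (Ultrafilter.compl_mem_iff_notMem).2 (hcon a)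
    exact this
  obtain ⟨x, hx1, hx2⟩ := nonempty_of_mem (Filter.inter_mem hf (hW.normal _ h1))
  exact hx2 (f x) hx1 rfl

theorem closed1 (hW : IsNormalMeasure κ X W) (G : X → X) : {x : Set X | ∀ a ∈ x, G a ∈ x} ∈ W :=
  hW.normal (fun a => {x | G a ∈ x}) fun a => hW.fine (G a)

theorem closed2 (hW : IsNormalMeasure κ X W) (G : X → X → X) :
    {x : Set X | ∀ a ∈ x, ∀ b ∈ x, G a b ∈ x} ∈ W :=
  hW.normal (fun a => {x | ∀ b ∈ x, G a b ∈ x}) fun a => hW.closed1 (G a)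

theorem completeN (hW : IsNormalMeasure κ X W) (hκ : ℵ₀ < κ) (A : ℕ → Set (Set X))
    (hA : ∀ n, A n ∈ W) : {x | ∀ n, x ∈ A n} ∈ W := by
  have h1 := hW.complete ℕ A (by rw [mk_nat]; exact hκ) hA
  filter_upwards [h1] with x hx n
  exact mem_iInter.1 hx n

theorem contains (hW : IsNormalMeasure κ X W) (A : Set X) (hA : #A < κ) :
    {x : Set X | A ⊆ x} ∈ W := by
  have h1 := hW.complete A (fun a => {x | a.1 ∈ x}) hA fun a => hW.fine a.1
  filter_upwards [h1] with x hx a ha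
  exact mem_iInter.1 hx ⟨a, ha⟩

/-- closure under functions of infinite sequences -/
theorem closedN (hW : IsNormalMeasure κ X W) (hκ : ℵ₀ < κ) (G : (ℕ → X) → X) :
    {x : Set X | ∀ h : ℕ → X, (∀ n, h n ∈ x) → G h ∈ x} ∈ W := by
  classical
  by_contra hcon
  have h1 : {x : Set X | ∀ h : ℕ → X, (∀ n, h n ∈ x) → G h ∈ x}ᶜ ∈ W :=
    (Ultrafilter.compl_mem_iff_notMem).2 hcon
  have h2 : ∀ x : Set X, ∃ h : ℕ → X,
      x ∈ {x : Set X | ∀ h : ℕ → X, (∀ n, h n ∈ x) → G h ∈ x}ᶜ → (∀ n, h n ∈ x) ∧ G h ∉ x := by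
    intro x
    by_cases hx : x ∈ {x : Set X | ∀ h : ℕ → X, (∀ n, h n ∈ x) → G h ∈ x}ᶜ
    · have hx' := hx
      simp only [mem_compl_iff, mem_ofPred_eq, not_forall] at hx'
      obtain ⟨h, h3, h4⟩ := hx'
      exact ⟨h, fun _ => ⟨h3, h4⟩⟩
    · obtain ⟨x', hx'⟩ := nonempty_of_mem h1
      have hx'' := hx'
      simp only [mem_compl_iff, mem_ofPred_eq, not_forall] at hx''
      obtain ⟨h, _⟩ := hx''
      exact ⟨h, fun h' => absurd h' hx⟩
  choose h hh using h2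
  have h3 : ∀ n, ∃ a, {x | h x n = a} ∈ W := fun n => hW.press (fun x => h x n) (by
    filter_upwards [h1] with x hx
    exact (hh x hx).1 n)
  choose a ha using h3
  obtain ⟨x, ⟨hx1, hx2⟩, hx3⟩ := nonempty_of_mem (Filter.inter_mem
    (Filter.inter_mem h1 (hW.completeN hκ _ ha)) (hW.fine (G a)))
  have h4 : h x = a := funext fun n => hx2 n
  exact (hh x hx1).2 (h4 ▸ hx3)

/-- strict inequalities between cardinalities reflect -/
theorem card_lt (hW : IsNormalMeasure κ X W) (A A' : Set X) (hA : #A < #A') :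
    {x : Set X | #(x ∩ A : Set X) < #(x ∩ A' : Set X)} ∈ W := by
  classical
  by_contra hcon
  have h1 : {x : Set X | #(x ∩ A' : Set X) ≤ #(x ∩ A : Set X)} ∈ W := by
    have := (Ultrafilter.compl_mem_iff_notMem).2 hcon
    filter_upwards [this] with x hx
    exact not_lt.1 hx
  have h2 : ∀ x : Set X, ∃ φ : X → X, #(x ∩ A' : Set X) ≤ #(x ∩ A : Set X) →
      (∀ a ∈ x ∩ A', φ a ∈ x ∩ A) ∧ InjOn φ (x ∩ A') := by
    intro x
    by_cases hx : #(x ∩ A' : Set X) ≤ #(x ∩ A : Set X)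
    · obtain ⟨e⟩ := hx
      refine ⟨fun a => if ha : a ∈ x ∩ A' then (e ⟨a, ha⟩).1 else a, fun _ => ⟨?_, ?_⟩⟩
      · intro a ha
        simp only [dif_pos ha]
        exact (e ⟨a, ha⟩).2
      · intro a ha b hb hab
        simp only [dif_pos ha, dif_pos hb] at hab
        exact congrArg Subtype.val (e.injective (Subtype.ext hab))
    · exact ⟨id, fun h => absurd h hx⟩
  choose φ hφ using h2
  have h3 : ∀ a : A', ∃ b, {x | φ x a.1 = b} ∈ W := fun a => hW.press (fun x => φ x a.1) (by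
    filter_upwards [h1, hW.fine a.1] with x hx ha
    exact ((hφ x hx).1 a.1 ⟨ha, a.2⟩).1)
  choose ψ hψ using h3
  have h4 : ∀ a : A', ψ a ∈ A := by
    intro a
    obtain ⟨x, ⟨hx1, hx2⟩, hx3⟩ := nonempty_of_mem (Filter.inter_mem
      (Filter.inter_mem h1 (hψ a)) (hW.fine a.1))
    have h5 : φ x a.1 = ψ a := hx2
    rw [← h5]
    exact ((hφ x hx1).1 a.1 ⟨hx3, a.2⟩).2
  have h5 : Function.Injective fun a : A' => (⟨ψ a, h4 a⟩ : A) := by
    intro a b hab
    have hab' : ψ a = ψ b := congrArg Subtype.val hab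
    obtain ⟨x, ⟨⟨hx1, hx2⟩, hx3⟩, hx4, hx5⟩ := nonempty_of_mem (Filter.inter_mem
      (Filter.inter_mem (Filter.inter_mem h1 (hψ a)) (hψ b))
      (Filter.inter_mem (hW.fine a.1) (hW.fine b.1)))
    have h6 : φ x a.1 = ψ a := hx2
    have h7 : φ x b.1 = ψ b := hx3
    exact Subtype.ext ((hφ x hx1).2 ⟨hx4, a.2⟩ ⟨hx5, b.2⟩ (by rw [h6, h7, hab']))
  exact absurd (mk_le_of_injective h5) (not_le.2 hA)

/-- `κ` is regular -/
theorem regular (hW : IsNormalMeasure κ X W) (hκ : ℵ₀ < κ) (hX : κ ≤ #X) : κ.IsRegular := by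
  refine ⟨hκ.le, ?_⟩
  by_contra hcon
  rw [not_le] at hcon
  have h0 : κ.ord.cof = Order.cof κ.ord.ToType := by
    rw [Ordinal.cof_toType]
  rw [h0] at hcon
  obtain ⟨S, hS, hS2⟩ := Order.exists_cof_eq κ.ord.ToType
  have h1 : #(κ.ord.ToType) ≤ #X := by rw [mk_ord_toType]; exact hX
  obtain ⟨e⟩ := h1
  have h2 : ∀ s : S, {x : Set X | e '' Iic s.1 ⊆ x} ∈ W := fun s => hW.contains _ (by
    refine mk_image_le.trans_lt ?_
    have : (Iic s.1 : Set κ.ord.ToType) = insert s.1 (Iio s.1) := by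
      ext x; simp [le_iff_eq_or_lt]
    rw [this]
    exact (mk_insert_le).trans_lt (add_lt_of_lt hκ.le (mk_Iio_toType_ord_lt s.1)
      (one_lt_aleph0.trans hκ)))
  obtain ⟨x, hx1, hx2⟩ := nonempty_of_mem (Filter.inter_mem hW.small
    (hW.complete S _ (by rw [hS2]; exact hcon) h2))
  have h3 : range e ⊆ x := by
    rintro _ ⟨a, rfl⟩
    obtain ⟨s, hs, has⟩ := hS a
    exact mem_iInter.1 hx2 ⟨s, hs⟩ ⟨a, has, rfl⟩
  have h4 := mk_le_mk_of_subset h3
  rw [mk_range_eq _ e.injective, mk_ord_toType] at h4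
  exact absurd hx1 (not_lt.2 h4)

/-- `κ` is a limit cardinal -/
theorem succ_lt (hW : IsNormalMeasure κ X W) (hX : κ ≤ #X) {μ : Cardinal.{0}} (hμ : μ < κ) :
    Order.succ μ < κ := by
  refine lt_of_le_of_ne (Order.succ_le_of_lt hμ) fun he => ?_
  obtain ⟨A', hA'⟩ := le_mk_iff_exists_set.1 hX
  obtain ⟨A, hA⟩ := le_mk_iff_exists_set.1 (hμ.le.trans hX)
  obtain ⟨x, ⟨hx1, hx2⟩, hx3⟩ := nonempty_of_mem (Filter.inter_mem (Filter.inter_mem hW.small
    (hW.contains A (by rw [hA]; exact hμ))) (hW.card_lt A A' (by rw [hA, hA']; exact hμ)))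
  have h1 : (x ∩ A : Set X) = A := inter_eq_right.2 hx2
  have h2 : #(x ∩ A : Set X) < #(x ∩ A' : Set X) := hx3
  rw [h1, hA] at h2
  have h3 : #(x ∩ A' : Set X) ≤ #x := mk_le_mk_of_subset inter_subset_left
  have h4 : Order.succ μ ≤ #x := Order.succ_le_of_lt (h2.trans_le h3)
  rw [he] at h4
  exact absurd hx1 (not_lt.2 h4)

end IsNormalMeasure

end

end Pool.Agent.H645
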