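import Mathlib
import Pool.Agent.H645.Measure

set_option autoImplicit false

/-!
# Typical elements of `P_κ(κ^{+ω+1})`
-/

namespace Pool.Agent.H645

open Cardinal Set

theorem kap_succ (κ : Cardinal.{0}) (n : ℕ) : kap κ (n + 1) = Order.succ (kap κ n) :=
  Function.iterate_succ_apply' _ _ _

theorem kap_zero (κ : Cardinal.{0}) : kap κ 0 = κ := rfl

theorem kap_strictMono (κ : Cardinal.{0}) : StrictMono (kap κ) :=
  strictMono_nat_of_lt_succ fun n => by rw [kap_succ]; exact Order.lt_succ _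

theorem kap_lt_lamOf (κ : Cardinal.{0}) (n : ℕ) : kap κ n < lamOf κ :=
  (kap_strictMono κ (Nat.lt_succ_self n)).trans_le
    (le_ciSup (f := fun n => kap κ (n + 1)) (bddAbove_range _) n)

theorem le_kap (κ : Cardinal.{0}) (n : ℕ) : κ ≤ kap κ n :=
  (kap_strictMono κ).monotone (Nat.zero_le n)

theorem aleph0_le_kap {κ : Cardinal.{0}} (h : ℵ₀ ≤ κ) (n : ℕ) : ℵ₀ ≤ kap κ n :=
  h.trans (le_kap κ n)

theorem kap_regular {κ : Cardinal.{0}} (h : ℵ₀ ≤ κ) (n : ℕ) : (kap κ (n + 1)).IsRegular := by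
  rw [kap_succ]
  exact isRegular_succ (aleph0_le_kap h n)

theorem aleph0_le_lamOf {κ : Cardinal.{0}} (h : ℵ₀ ≤ κ) : ℵ₀ ≤ lamOf κ :=
  h.trans (kap_lt_lamOf κ 0).le

theorem lamOf_le {κ c : Cardinal.{0}} (h : ∀ n, kap κ n ≤ c) : lamOf κ ≤ c :=
  ciSup_le' fun n => h (n + 1)

/-- the initial ordinal `ν` as an element of `K` -/
theorem exists_initial {K : Type} [LinearOrder K] [WellFoundedLT K] {ν : Cardinal.{0}}
    (h : ν < #K) : ∃ c : K, #(Iio c) = ν ∧ ∀ b < c, #(Iio b) < ν := by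
  have h1 : {c : K | ν ≤ #(Iio c)}.Nonempty := by
    by_contra hcon
    rw [not_nonempty_iff_eq_empty] at hcon
    have h2 : #K ≤ ν := card_le_of_init fun x => by
      by_contra h3
      have : x ∈ ({c : K | ν ≤ #(Iio c)} : Set K) := not_lt.1 h3
      rw [hcon] at this
      exact this
    exact absurd h (not_lt.2 h2)
  obtain ⟨c, hc, hmin⟩ := (wellFounded_lt (α := K)).has_min _ h1
  have h2 : ∀ b < c, #(Iio b) < ν := fun b hb => by
    by_contra h3
    exact hmin b (not_lt.1 h3) hb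
  refine ⟨c, le_antisymm ?_ hc, h2⟩
  refine card_le_of_init fun x => ?_
  refine lt_of_le_of_lt ?_ (h2 x.1 x.2)
  exact mk_le_of_injective (f := fun y : Iio x => (⟨y.1.1, y.2⟩ : Iio x.1)) fun y z hyz =>
    Subtype.ext (Subtype.ext (congrArg (fun w : Iio x.1 => w.1) hyz))

/-- a well-ordered set of size `ν` all of whose proper initial segments are smaller is
isomorphic to `ν` -/
theorem exists_iso {Y : Type} [LinearOrder Y] [WellFoundedLT Y] {ν : Cardinal.{0}}
    (h : #Y = ν) (h2 : ∀ y : Y, #(Iio y) < ν) :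
    ∃ e : ν.ord.ToType → Y, StrictMono e ∧ Function.Surjective e := by
  have h3 : Ordinal.type ((· < ·) : Y → Y → Prop) = ν.ord := by
    refine le_antisymm ?_ ?_
    · by_contra hcon
      rw [not_le] at hcon
      have h4 := h2 (Ordinal.enum ((· < ·) : Y → Y → Prop) ⟨ν.ord, hcon⟩)
      have h5 : (Ordinal.typein ((· < ·) : Y → Y → Prop)
          (Ordinal.enum ((· < ·) : Y → Y → Prop) ⟨ν.ord, hcon⟩)).card =
          #(Iio (Ordinal.enum ((· < ·) : Y → Y → Prop) ⟨ν.ord, hcon⟩)) := Ordinal.card_typein _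
      rw [Ordinal.typein_enum, card_ord] at h5
      rw [← h5] at h4
      exact lt_irrefl _ h4
    · rw [← h]
      exact ord_le_type _
  have h4 : Ordinal.type ((· < ·) : ν.ord.ToType → ν.ord.ToType → Prop) =
      Ordinal.type ((· < ·) : Y → Y → Prop) := by
    rw [h3]
    exact Ordinal.type_toType _
  obtain ⟨f⟩ := Ordinal.type_eq.1 h4
  exact ⟨f, fun a b hab => f.map_rel_iff.2 hab, f.surjective⟩

section

variable {κ : Cardinal.{0}} {K : Type} [LinearOrder K] [WellFoundedLT K]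

/-- the properties of typical elements of `P_κ(K)` which are used below -/
structure Typ (κ : Cardinal.{0}) (c : ℕ → K) (f : K → ℕ → K) (G : (ℕ → K) → K) (x : Set K) :
    Prop where
  small : #x < κ
  inf : ℵ₀ ≤ #(x ∩ Iio (c 0) : Set K)
  card : ∀ n, #(x ∩ Iio (c (n + 1)) : Set K) = Order.succ #(x ∩ Iio (c n) : Set K)
  seg : ∀ n, ∀ b ∈ x, b < c (n + 1) → #(x ∩ Iio b : Set K) ≤ #(x ∩ Iio (c n) : Set K)
  big : ∀ n, #(x ∩ Iio (c n) : Set K) < #x
  top : Order.succ (⨆ n, #(x ∩ Iio (c (n + 1)) : Set K)) ≤ #x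
  fcl : ∀ a ∈ x, ∀ n, f a n ∈ x
  Gcl : ∀ h : ℕ → K, (∀ n, h n ∈ x) → G h ∈ x

theorem kap_card {c : ℕ → K} {x : Set K} {μ : Cardinal.{0}} (h0 : #(x ∩ Iio (c 0) : Set K) = μ)
    (h : ∀ n, #(x ∩ Iio (c (n + 1)) : Set K) = Order.succ #(x ∩ Iio (c n) : Set K)) (n : ℕ) :
    #(x ∩ Iio (c n) : Set K) = kap μ n := by
  induction n with
  | zero => exact h0
  | succ n ih => rw [h, ih, kap_succ]

variable {W : Ultrafilter (Set K)}

/-- almost all sets are typical -/
theorem typ_mem (hW : IsNormalMeasure κ K W) (hκ : ℵ₀ < κ) (hK : IsSuccType (lamOf κ) K)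
    {c : ℕ → K} (hc : ∀ n, #(Iio (c n)) = kap κ n) (hc2 : ∀ n, ∀ b < c n, #(Iio b) < kap κ n)
    (f : K → ℕ → K) (G : (ℕ → K) → K) : {x | Typ κ c f G x} ∈ W := by
  classical
  -- injections
  have he : ∀ (n : ℕ) (b : K), ∃ e : K → K, b < c (n + 1) →
      (∀ a < b, e a < c n) ∧ InjOn e (Iio b) := by
    intro n b
    by_cases hb : b < c (n + 1)
    · have h1 : #(Iio b) ≤ #(Iio (c n)) := by
        rw [hc n, ← Order.lt_succ_iff, ← kap_succ]
        exact hc2 (n + 1) b hb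
      obtain ⟨e⟩ := h1
      refine ⟨fun a => if ha : a ∈ Iio b then (e ⟨a, ha⟩).1 else a, fun _ => ⟨?_, ?_⟩⟩
      · intro a ha
        have ha' : a ∈ Iio b := ha
        simp only [dif_pos ha']
        exact (e ⟨a, ha'⟩).2
      · intro a ha a' ha' haa
        simp only [dif_pos ha, dif_pos ha'] at haa
        exact congrArg Subtype.val (e.injective (Subtype.ext haa))
    · exact ⟨id, fun h => absurd h hb⟩
  choose e he using he
  have hseg : {x : Set K | ∀ n, ∀ b ∈ x, b < c (n + 1) →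
      #(x ∩ Iio b : Set K) ≤ #(x ∩ Iio (c n) : Set K)} ∈ W := by
    have h1 := hW.completeN hκ _ fun n => hW.closed2 (e n)
    filter_upwards [h1] with x hx n b hb hbc
    obtain ⟨h2, h3⟩ := he n b hbc
    refine mk_le_of_injective (f := fun a : (x ∩ Iio b : Set K) =>
      (⟨e n b a.1, hx n b hb a.1 a.2.1, h2 a.1 a.2.2⟩ : (x ∩ Iio (c n) : Set K))) ?_
    intro a a' haa
    exact Subtype.ext (h3 a.2.2 a'.2.2 (congrArg Subtype.val haa))
  have hlt : {x : Set K | ∀ n, #(x ∩ Iio (c n) : Set K) < #(x ∩ Iio (c (n + 1)) : Set K)} ∈ W :=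
    hW.completeN hκ _ fun n => hW.card_lt _ _ (by
      rw [hc, hc]
      exact kap_strictMono κ (Nat.lt_succ_self n))
  obtain ⟨cl, hcl1, hcl2⟩ := exists_initial (K := K) (ν := lamOf κ) hK.lt
  have htop : {x : Set K | #(x ∩ Iio cl : Set K) < #(x ∩ univ : Set K)} ∈ W :=
    hW.card_lt _ _ (by rw [hcl1, mk_univ]; exact hK.lt)
  have hinf : {x : Set K | ℵ₀ ≤ #(x ∩ Iio (c 0) : Set K)} ∈ W := by
    have h1 : ℵ₀ ≤ #(Iio (c 0)) := by
      rw [hc 0, kap_zero]
      exact hκ.le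
    obtain ⟨g⟩ := h1
    have h2 : #(range fun n : ℕ => (g ⟨n⟩).1) < κ := (mk_range_le.trans mk_nat.le).trans_lt hκ
    filter_upwards [hW.contains _ h2] with x hx
    have h3 := mk_le_of_injective (f := fun n : ℕ => (⟨(g ⟨n⟩).1, hx ⟨n, rfl⟩, (g ⟨n⟩).2⟩ :
      (x ∩ Iio (c 0) : Set K))) fun m n hmn => by
        have h4 : (g ⟨m⟩).1 = (g ⟨n⟩).1 :=
          congrArg (fun w : (x ∩ Iio (c 0) : Set K) => w.1) hmn
        have h5 := g.injective (Subtype.ext h4)
        exact congrArg ULift.down h5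
    rwa [mk_nat] at h3
  filter_upwards [hW.small, hseg, hlt, htop, hinf, hW.closed2 (fun a b => a),
    hW.completeN hκ _ fun n => hW.closed1 (fun a => f a n), hW.closedN hκ G] with
    x h1 h2 h3 h4 h5 _ h7 h8
  have hcard : ∀ n, #(x ∩ Iio (c (n + 1)) : Set K) = Order.succ #(x ∩ Iio (c n) : Set K) := by
    intro n
    refine le_antisymm ?_ (Order.succ_le_of_lt (h3 n))
    refine card_le_of_init fun y => ?_
    rw [Order.lt_succ_iff]
    refine le_trans ?_ (h2 n y.1 y.2.1 y.2.2)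
    exact mk_le_of_injective (f := fun z : Iio y => (⟨z.1.1, z.1.2.1, z.2⟩ :
      (x ∩ Iio y.1 : Set K))) fun z z' hzz =>
      Subtype.ext (Subtype.ext (congrArg (fun w : (x ∩ Iio y.1 : Set K) => w.1) hzz))
  have h9 : #(x ∩ Iio cl : Set K) < #x := by
    have : #(x ∩ Iio cl : Set K) < #(x ∩ univ : Set K) := h4
    rwa [inter_univ] at this
  have hccl : ∀ n, c n ≤ cl := by
    intro n
    by_contra hcon
    rw [not_le] at hcon
    have := hc2 n cl hcon
    rw [hcl1] at this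
    exact absurd this (not_lt.2 (kap_lt_lamOf κ n).le)
  have h10 : ∀ n, #(x ∩ Iio (c n) : Set K) ≤ #(x ∩ Iio cl : Set K) := fun n =>
    mk_le_mk_of_subset (inter_subset_inter_right _ (Iio_subset_Iio (hccl n)))
  exact ⟨h1, h5, hcard, h2, fun n => (h10 n).trans_lt h9,
    Order.succ_le_of_lt ((ciSup_le' fun n => h10 (n + 1)).trans_lt h9), fun a ha n => h7 n a ha, h8⟩

end

end Pool.Agent.H645
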