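import Mathlib
import Pool.Agent.H645.Typical

set_option autoImplicit false

/-!
# The combinatorial core extracted from a normal measure
-/

namespace Pool.Agent.H645

open Cardinal Set

theorem card_pi_le {L : ℕ → Type} {lam : Cardinal.{0}} (h0 : ℵ₀ ≤ lam) (hL : ∀ n, #(L n) ≤ lam) :
    #(∀ n, L n) ≤ 2 ^ lam := by
  rw [mk_pi]
  refine (prod_le_prod _ (fun _ => lam) hL).trans ?_
  rw [prod_const, lift_id, lift_id, mk_nat]
  exact (power_le_power_left (aleph0_pos.trans_le h0).ne' h0).trans_eq (power_self_eq h0)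

theorem card_seq {K : Type} {lam : Cardinal.{0}} (h0 : ℵ₀ ≤ lam) (hK : #K ≤ 2 ^ lam) :
    #(ℕ → K) ≤ 2 ^ lam := by
  rw [← power_def, mk_nat]
  refine (power_le_power_right hK).trans ?_
  rw [← power_mul, mul_aleph0_eq h0]

theorem initial_bdd {K : Type} [LinearOrder K] {ν : Cardinal.{0}} (hν : ν.IsRegular)
    (hν2 : ℵ₀ ≤ ν) {c : K} (hc : #(Iio c) = ν) (hc2 : ∀ b < c, #(Iio b) < ν)
    (S : Set K) (hS : ∀ a ∈ S, a < c) (hS2 : #S < ν) : ∃ b < c, ∀ a ∈ S, a < b := by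
  by_contra hcon
  push Not at hcon
  have h1 : Iio c ⊆ ⋃ a : S, Iic a.1 := by
    intro b hb
    obtain ⟨a, ha, hab⟩ := hcon b hb
    exact mem_iUnion.2 ⟨⟨a, ha⟩, hab⟩
  have h2 : ∀ a : S, #(Iic a.1) < ν := by
    intro a
    have : (Iic a.1 : Set K) = insert a.1 (Iio a.1) := by
      ext x; simp [le_iff_eq_or_lt]
    rw [this]
    have h3 : (1 : Cardinal.{0}) < ν := one_lt_aleph0.trans_le hν2
    exact (mk_insert_le).trans_lt (add_lt_of_lt hν2 (hc2 _ (hS _ a.2)) h3)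
  have h3 : #(⋃ a : S, Iic a.1) < ν :=
    (card_iUnion_lt_iff_forall_of_isRegular hν hS2).2 h2
  have h4 := (mk_le_mk_of_subset h1).trans_lt h3
  rw [hc] at h4
  exact lt_irrefl _ h4

/-- the ladder of `ν.ord.ToType` -/
theorem ladder_toType {μ : Cardinal.{0}} (hμ : ℵ₀ ≤ μ) :
    IsLadder (fun n => kap μ (n + 1)) (fun n => (kap μ (n + 1)).ord.ToType) where
  mono := fun _ _ h => kap_strictMono μ (Nat.succ_lt_succ h)
  bdd n S hS := toType_bdd (kap_regular hμ n) S hS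

/-- `h` is a scale in the product of the `μ^{+n}`, `n ≥ 1` -/
structure IsScale {Θ : Type} [LinearOrder Θ] {V : ℕ → Type} [∀ n, LinearOrder (V n)]
    (h : Θ → ∀ n, V n) : Prop where
  mono : ∀ a b, a < b → EvLt (h a) (h b)
  cof : ∀ g, ∃ a, EvLt g (h a)

theorem exists_scale_toType {μ : Cardinal.{0}} (hμ : ℵ₀ ≤ μ)
    (hG : (2 : Cardinal.{0}) ^ lamOf μ = Order.succ (lamOf μ)) :
    ∃ h : (Order.succ (lamOf μ)).ord.ToType → ∀ n, (kap μ (n + 1)).ord.ToType, IsScale h := by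
  have h1 : Nonempty (kap μ (0 + 1)).ord.ToType := by
    rw [← mk_ne_zero_iff, mk_ord_toType]
    exact (kap_regular hμ 0).pos.ne'
  obtain ⟨f, hf1, hf2⟩ := (ladder_toType hμ).scale h1
    (IsSuccType.toType (aleph0_le_lamOf hμ)) (by
      rw [mk_ord_toType]
      show _ ≤ Order.succ (lamOf μ)
      rw [← hG]
      refine card_pi_le (aleph0_le_lamOf hμ) fun n => ?_
      rw [mk_ord_toType]
      exact (kap_lt_lamOf μ _).le)
  exact ⟨f, hf1, hf2⟩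

section

variable {κ : Cardinal.{0}} {K : Type} [LinearOrder K] [WellFoundedLT K]

theorem exists_scale_K (hκ : ℵ₀ ≤ κ) (hK : IsSuccType (lamOf κ) K)
    (hG : (2 : Cardinal.{0}) ^ lamOf κ = Order.succ (lamOf κ))
    {c : ℕ → K} (hc : ∀ n, #(Iio (c n)) = kap κ n) (hc2 : ∀ n, ∀ b < c n, #(Iio b) < kap κ n) :
    ∃ f : K → ∀ n, Iio (c (n + 1)), IsScale f := by
  have hl : IsLadder (fun n => kap κ (n + 1)) (fun n => Iio (c (n + 1))) := by
    refine ⟨fun m n h => kap_strictMono κ (Nat.succ_lt_succ h), fun n S hS => ?_⟩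
    obtain ⟨b, hb, hb2⟩ := initial_bdd (kap_regular hκ n) (aleph0_le_kap hκ _) (hc (n + 1))
      (hc2 (n + 1)) (Subtype.val '' S) (by rintro _ ⟨a, _, rfl⟩; exact a.2)
      (mk_image_le.trans_lt hS)
    exact ⟨⟨b, hb⟩, fun a ha => hb2 _ ⟨a, ha, rfl⟩⟩
  have h1 : Nonempty (Iio (c (0 + 1))) := by
    rw [← mk_ne_zero_iff, hc]
    exact (kap_regular hκ 0).pos.ne'
  obtain ⟨f, hf1, hf2⟩ := hl.scale h1 hK (by
      rw [hK.card, ← hG]
      refine card_pi_le (aleph0_le_lamOf hκ) fun n => ?_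
      rw [hc]
      exact (kap_lt_lamOf κ _).le)
  exact ⟨f, hf1, hf2⟩

/-- strict supremum -/
theorem exists_ssup (hK : IsSuccType (lamOf κ) K) :
    ∃ δ : Set K → K, ∀ x : Set K, #x < κ → (∀ a ∈ x, a < δ x) ∧ ∀ b < δ x, ∃ a ∈ x, b ≤ a := by
  classical
  have h1 : ∀ x : Set K, ∃ d : K, #x < κ → (∀ a ∈ x, a < d) ∧ ∀ b < d, ∃ a ∈ x, b ≤ a := by
    intro x
    by_cases hx : #x < κ
    · obtain ⟨b, hb⟩ := hK.bdd x (hx.le.trans (kap_lt_lamOf κ 0).le)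
      obtain ⟨d, hd, hmin⟩ := (wellFounded_lt (α := K)).has_min {b : K | ∀ a ∈ x, a < b} ⟨b, hb⟩
      refine ⟨d, fun _ => ⟨hd, fun b hb => ?_⟩⟩
      by_contra hcon
      push Not at hcon
      exact hmin b hcon hb
    · exact ⟨hK.nonempty.some, fun h => absurd h hx⟩
  choose δ hδ using h1
  exact ⟨δ, hδ⟩

end

/-- The combinatorial core: `μ` is a cardinal, `Θ = μ^{+ω+1}`, `h` is a scale in the product of
the cardinals `μ^{+n}`; `S` is a stationary set of points of uncountable cofinality; `y δ` is a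
sequence of length `Θ` of ordinals below `δ`. -/
structure IsCore {K Θ : Type} [LinearOrder K] {V : ℕ → Type} [∀ n, LinearOrder (V n)]
    (h : Θ → ∀ n, V n) (S : Set K) (y : K → Θ → K) : Prop where
  stat : Stat S
  cof : ∀ δ ∈ S, ∀ c : ℕ → K, (∀ n, c n < δ) → ∃ b < δ, ∀ n, c n < b
  lt : ∀ δ ∈ S, ∀ i, y δ i < δ
  inj : ∀ δ ∈ S, ∀ δ' ∈ S, ∀ i i', y δ i = y δ' i' → i = i'
  sep : ∀ δ ∈ S, ∀ δ' ∈ S, δ ≠ δ' → ∃ (b : ∀ n, V n) (m : ℕ), ∀ i, y δ i = y δ' i →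
    ∀ n ≥ m, h i n < b n

section

variable {κ : Cardinal.{0}} {K : Type} [LinearOrder K] [WellFoundedLT K] {W : Ultrafilter (Set K)}

theorem exists_core (hGCH : ∀ ν : Cardinal.{0}, ℵ₀ ≤ ν → 2 ^ ν = Order.succ ν)
    (hκ : ℵ₀ < κ) (hK : IsSuccType (lamOf κ) K) (hW : IsNormalMeasure κ K W) :
    ∃ μ : Cardinal.{0}, ℵ₀ ≤ μ ∧ Order.succ (lamOf μ) < κ ∧
      ∃ (h : (Order.succ (lamOf μ)).ord.ToType → ∀ n, (kap μ (n + 1)).ord.ToType)
        (S : Set K) (y : K → (Order.succ (lamOf μ)).ord.ToType → K),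
        IsScale h ∧ IsCore h S y := by
  classical
  have hlam := aleph0_le_lamOf hκ.le
  have hG := hGCH _ hlam
  -- initial ordinals
  have hc0 : ∀ n, ∃ c : K, #(Iio c) = kap κ n ∧ ∀ b < c, #(Iio b) < kap κ n := fun n =>
    exists_initial (by rw [hK.card]; exact (kap_lt_lamOf κ n).trans (Order.lt_succ _))
  choose c hc hc2 using hc0
  obtain ⟨f', hf'⟩ := exists_scale_K hκ.le hK hG hc hc2
  let f : K → ℕ → K := fun a n => (f' a n).1
  obtain ⟨δ, hδ⟩ := exists_ssup hK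
  -- the coding function
  let I0 := κ.ord.ToType
  have hI0 : #I0 = κ := mk_ord_toType κ
  have hκK : κ ≤ #K := by
    rw [hK.card]
    exact (kap_lt_lamOf κ 0).le.trans (Order.le_succ _)
  have hcode : #(I0 × (ℕ → K)) ≤ #K := by
    rw [mk_prod, lift_id, lift_id, hI0]
    have h1 : #(ℕ → K) ≤ #K := by
      have := card_seq (K := K) hlam (by rw [hK.card, hG])
      rwa [hG, ← hK.card] at this
    refine (mul_le_mul' hκK h1).trans_eq (mul_eq_self ?_)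
    exact hκ.le.trans hκK
  obtain ⟨code⟩ := hcode
  have hGex : ∀ h : ℕ → K, ∃ d : K, (∀ i : I0, code (i, h) < d) ∧ ∀ n, h n < d := by
    intro h
    obtain ⟨d1, hd1⟩ := hK.bddF (fun i : I0 => code (i, h)) (by
      rw [hI0]; exact (kap_lt_lamOf κ 0).le)
    obtain ⟨d2, hd2⟩ := hK.bddN h
    obtain ⟨d, h1, h2⟩ := hK.gt2 d1 d2
    exact ⟨d, fun i => (hd1 i).trans h1, fun n => (hd2 n).trans h2⟩
  choose G hG1 hG2 using hGex
  have hgex : ∀ h : ℕ → K, ∃ a : K, ∀ hh : ∀ n, h n < c (n + 1),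
      EvLt (fun n => (⟨h n, hh n⟩ : Iio (c (n + 1)))) (f' a) := by
    intro h
    by_cases hh : ∀ n, h n < c (n + 1)
    · obtain ⟨a, ha⟩ := hf'.cof fun n => (⟨h n, hh n⟩ : Iio (c (n + 1)))
      exact ⟨a, fun _ => ha⟩
    · exact ⟨hK.nonempty.some, fun h' => absurd h' hh⟩
  choose g hg using hgex
  let T : Set (Set K) := {x | Typ κ c f G x ∧ Typ κ c f g x}
  have hT : T ∈ W := by
    filter_upwards [typ_mem hW hκ hK hc hc2 f G, typ_mem hW hκ hK hc hc2 f g] with x h1 h2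
    exact ⟨h1, h2⟩
  -- find `μ`
  have hμ : ∃ μ : Cardinal.{0}, ℵ₀ ≤ μ ∧ Order.succ (lamOf μ) < κ ∧
      Stat {d | ∃ x ∈ T, #(x ∩ Iio (c 0) : Set K) = μ ∧ δ x = d} := by
    by_contra hcon
    push Not at hcon
    have h1 : ∀ i : I0, ∃ F : K → K, ℵ₀ ≤ #(Iio i) → Order.succ (lamOf #(Iio i)) < κ →
        ∀ d ∈ {d | ∃ x ∈ T, #(x ∩ Iio (c 0) : Set K) = #(Iio i) ∧ δ x = d},
          (∃ a, a < d) → ∃ a < d, d ≤ F a := by
      intro i
      by_cases hi : ℵ₀ ≤ #(Iio i) ∧ Order.succ (lamOf #(Iio i)) < κ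
      · have h2 := hcon _ hi.1 hi.2
        unfold Stat at h2
        push Not at h2
        obtain ⟨F, hF⟩ := h2
        exact ⟨F, fun _ _ => hF⟩
      · exact ⟨id, fun h1 h2 => absurd ⟨h1, h2⟩ hi⟩
    choose F hF using h1
    have h2 : ∀ a : K, ∃ d, ∀ (i : I0), ∀ a' ≤ a, F i a' < d := by
      intro a
      obtain ⟨d, hd⟩ := hK.bddF (fun p : I0 × Iic a => F p.1 p.2.1) (by
        rw [mk_prod, lift_id, lift_id, hI0]
        exact (mul_le_mul' (kap_lt_lamOf κ 0).le (hK.initc a)).trans_eq (mul_eq_self hlam))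
      exact ⟨d, fun i a' ha' => hd (i, ⟨a', ha'⟩)⟩
    choose F' hF' using h2
    obtain ⟨x, ⟨hx1, hx2⟩, hx3⟩ := IsNormalMeasure.nonempty_of_mem
      (Filter.inter_mem hT (hW.closed1 F'))
    obtain ⟨i, hi, _⟩ := exists_initial (K := I0) (ν := #(x ∩ Iio (c 0) : Set K)) (by
      rw [hI0]
      exact (mk_le_mk_of_subset inter_subset_left).trans_lt hx1.small)
    have h3 : ℵ₀ ≤ #(Iio i) := by rw [hi]; exact hx1.inf
    have h4 : lamOf #(Iio i) = ⨆ n, #(x ∩ Iio (c (n + 1)) : Set K) := by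
      unfold lamOf
      congr 1
      funext n
      rw [hi]
      exact (kap_card rfl hx1.card (n + 1)).symm
    have h5 : Order.succ (lamOf #(Iio i)) < κ := by
      rw [h4]
      exact hx1.top.trans_lt hx1.small
    obtain ⟨hd1, hd2⟩ := hδ x hx1.small
    have hne : x.Nonempty := by
      rw [← Set.nonempty_coe_sort, ← mk_ne_zero_iff]
      exact (aleph0_pos.trans_le (hx1.inf.trans (mk_le_mk_of_subset inter_subset_left))).ne'
    obtain ⟨a0, ha0⟩ := hne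
    obtain ⟨a, ha, ha2⟩ := hF i h3 h5 (δ x) ⟨x, ⟨hx1, hx2⟩, hi.symm, rfl⟩ ⟨a0, hd1 a0 ha0⟩
    obtain ⟨a', ha', haa'⟩ := hd2 a ha
    exact absurd ((hF' a' i a haa').trans (hd1 _ (hx3 a' ha'))) (not_lt.2 ha2)
  obtain ⟨μ, hμ0, hμκ, hS⟩ := hμ
  obtain ⟨h, hh⟩ := exists_scale_toType hμ0 (hGCH _ (aleph0_le_lamOf hμ0))
  set S : Set K := {d | ∃ x ∈ T, #(x ∩ Iio (c 0) : Set K) = μ ∧ δ x = d} with hSdef
  have hxs : ∀ d : K, ∃ x : Set K, d ∈ S → x ∈ T ∧ #(x ∩ Iio (c 0) : Set K) = μ ∧ δ x = d := by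
    intro d
    by_cases hd : d ∈ S
    · obtain ⟨x, hx1, hx2, hx3⟩ := hd
      exact ⟨x, fun _ => ⟨hx1, hx2, hx3⟩⟩
    · exact ⟨∅, fun h => absurd h hd⟩
  choose xs hxs using hxs
  have hcard : ∀ d ∈ S, ∀ n, #(xs d ∩ Iio (c n) : Set K) = kap μ n := fun d hd n =>
    kap_card (hxs d hd).2.1 (hxs d hd).1.1.card n
  have hiso : ∀ (d : K) (n : ℕ), ∃ e : (kap μ (n + 1)).ord.ToType → K, d ∈ S →
      StrictMono e ∧ (∀ ξ, e ξ ∈ xs d ∧ e ξ < c (n + 1)) ∧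
        ∀ y ∈ xs d, y < c (n + 1) → ∃ ξ, e ξ = y := by
    intro d n
    by_cases hd : d ∈ S
    · obtain ⟨e, he1, he2⟩ := exists_iso (Y := (xs d ∩ Iio (c (n + 1)) : Set K))
        (hcard d hd (n + 1)) (fun y => by
          rw [kap_succ, Order.lt_succ_iff, ← hcard d hd n]
          refine le_trans ?_ ((hxs d hd).1.1.seg n y.1 y.2.1 y.2.2)
          exact mk_le_of_injective (f := fun z : Iio y => (⟨z.1.1, z.1.2.1, z.2⟩ :
            (xs d ∩ Iio y.1 : Set K))) fun z z' hzz =>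
            Subtype.ext (Subtype.ext (congrArg (fun w : (xs d ∩ Iio y.1 : Set K) => w.1) hzz)))
      refine ⟨fun ξ => (e ξ).1, fun _ => ⟨fun a b hab => he1 hab, fun ξ => (e ξ).2, ?_⟩⟩
      intro y hy hyc
      obtain ⟨ξ, hξ⟩ := he2 ⟨y, hy, hyc⟩
      exact ⟨ξ, congrArg Subtype.val hξ⟩
    · exact ⟨fun _ => d, fun h => absurd h hd⟩
  choose e he using hiso
  have hemb : #((Order.succ (lamOf μ)).ord.ToType) ≤ #I0 := by
    rw [mk_ord_toType, hI0]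
    exact hμκ.le
  obtain ⟨emb⟩ := hemb
  -- separation of two points
  have key : ∀ d ∈ S, ∀ d' ∈ S, d < d' → ∃ m, ∀ n ≥ m, ∃ b, ∀ ξ, e d n ξ = e d' n ξ → ξ < b := by
    intro d hd d' hd' hdd
    obtain ⟨⟨hx1, hx2⟩, hx3, hx4⟩ := hxs d hd
    obtain ⟨⟨hx1', hx2'⟩, hx3', hx4'⟩ := hxs d' hd'
    obtain ⟨hd1, hd2⟩ := hδ (xs d) hx1.small
    obtain ⟨hd1', hd2'⟩ := hδ (xs d') hx1'.small
    rw [hx4] at hd1 hd2
    rw [hx4'] at hd1' hd2'
    have hi : ∃ m, ∀ n ≥ m, ∀ y ∈ xs d, y < c (n + 1) → y ≤ f d n := by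
      by_contra hcon
      push Not at hcon
      have hex : ∀ n, ∃ y ∈ xs d, y < c (n + 1) ∧
          ((∃ y ∈ xs d, y < c (n + 1) ∧ f d n < y) → f d n < y) := by
        intro n
        by_cases hn : ∃ y ∈ xs d, y < c (n + 1) ∧ f d n < y
        · obtain ⟨y, hy1, hy2, hy3⟩ := hn
          exact ⟨y, hy1, hy2, fun _ => hy3⟩
        · have h1 : (xs d ∩ Iio (c (n + 1))).Nonempty := by
            rw [← Set.nonempty_coe_sort, ← mk_ne_zero_iff, hcard d hd]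
            exact (kap_regular hμ0 n).pos.ne'
          obtain ⟨y, hy1, hy2⟩ := h1
          exact ⟨y, hy1, hy2, fun h => absurd h hn⟩
      choose h' hh1 hh2 hh3 using hex
      have ha := hx2.Gcl h' hh1
      have h6 := (hg h' hh2).trans (hf'.mono _ _ (hd1 _ ha))
      obtain ⟨m, hm⟩ := h6
      obtain ⟨n, hn, y, hy1, hy2, hy3⟩ := hcon m
      have h7 : h' n < f d n := hm n hn
      exact absurd (h7.trans (hh3 n ⟨y, hy1, hy2, hy3⟩)) (lt_irrefl _)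
    have hii : ∃ m, ∀ n ≥ m, ∃ y ∈ xs d', y < c (n + 1) ∧ f d n < y := by
      obtain ⟨a, ha, hda⟩ := hd2' d hdd
      have ha' := hx1'.Gcl (fun _ => a) fun _ => ha
      have haa : a < G fun _ => a := hG2 (fun _ => a) 0
      obtain ⟨m, hm⟩ := hf'.mono _ _ (hda.trans_lt haa)
      exact ⟨m, fun n hn => ⟨f (G fun _ => a) n, hx1'.fcl _ ha' n, (f' _ n).2, hm n hn⟩⟩
    obtain ⟨m1, hm1⟩ := hi
    obtain ⟨m2, hm2⟩ := hii
    refine ⟨max m1 m2, fun n hn => ?_⟩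
    obtain ⟨y, hy1, hy2, hy3⟩ := hm2 n (le_of_max_le_right hn)
    obtain ⟨η, hη⟩ := (he d' n hd').2.2 y hy1 hy2
    refine ⟨η, fun ξ hξ => ?_⟩
    by_contra hcon
    rw [not_lt] at hcon
    have h8 : y ≤ e d' n ξ := by
      rw [← hη]
      exact (he d' n hd').1.monotone hcon
    rw [← hξ] at h8
    have h9 := hm1 n (le_of_max_le_left hn) (e d n ξ) ((he d n hd).2.1 ξ).1 ((he d n hd).2.1 ξ).2
    exact absurd (hy3.trans_le (h8.trans h9)) (lt_irrefl _)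
  have key2 : ∀ d ∈ S, ∀ d' ∈ S, d ≠ d' →
      ∃ m, ∀ n ≥ m, ∃ b, ∀ ξ, e d n ξ = e d' n ξ → ξ < b := by
    intro d hd d' hd' hdd
    rcases lt_or_gt_of_ne hdd with h1 | h1
    · exact key d hd d' hd' h1
    · obtain ⟨m, hm⟩ := key d' hd' d hd h1
      refine ⟨m, fun n hn => ?_⟩
      obtain ⟨b, hb⟩ := hm n hn
      exact ⟨b, fun ξ hξ => hb ξ hξ.symm⟩
  refine ⟨μ, hμ0, hμκ, h, S, fun d i => code (emb i, fun n => e d n (h i n)), hh, hS, ?_, ?_, ?_, ?_⟩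
  · intro d hd c' hc'
    obtain ⟨⟨hx1, hx2⟩, hx3, hx4⟩ := hxs d hd
    obtain ⟨hd1, hd2⟩ := hδ (xs d) hx1.small
    rw [hx4] at hd1 hd2
    choose h' hh1 hh2 using fun n => hd2 (c' n) (hc' n)
    exact ⟨G h', hd1 _ (hx1.Gcl h' hh1), fun n => (hh2 n).trans_lt (hG2 h' n)⟩
  · intro d hd i
    obtain ⟨⟨hx1, hx2⟩, hx3, hx4⟩ := hxs d hd
    obtain ⟨hd1, hd2⟩ := hδ (xs d) hx1.small
    rw [hx4] at hd1 hd2
    exact (hG1 _ _).trans (hd1 _ (hx1.Gcl (fun n => e d n (h i n)) fun n => ((he d n hd).2.1 _).1))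
  · intro d _ d' _ i i' hii
    exact emb.injective (congrArg Prod.fst (code.injective hii))
  · intro d hd d' hd' hdd
    obtain ⟨m, hm⟩ := key2 d hd d' hd' hdd
    have hV : ∀ n, Nonempty (kap μ (n + 1)).ord.ToType := fun n => by
      rw [← mk_ne_zero_iff, mk_ord_toType]
      exact (kap_regular hμ0 n).pos.ne'
    have hb : ∀ n, ∃ b : (kap μ (n + 1)).ord.ToType, n ≥ m → ∀ ξ, e d n ξ = e d' n ξ → ξ < b := by
      intro n
      by_cases hn : n ≥ m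
      · obtain ⟨b, hb⟩ := hm n hn
        exact ⟨b, fun _ => hb⟩
      · exact ⟨(hV n).some, fun h => absurd h hn⟩
    choose b hb using hb
    refine ⟨b, m, fun i hi n hn => hb n hn _ ?_⟩
    have h1 := congrArg Prod.snd (code.injective hi)
    exact congrFun h1 n

end

end Pool.Agent.H645
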