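import Mathlib
import Pool.Agent.H645.Defs

set_option autoImplicit false

/-!
# Sentences about families of sets of arbitrary sizes: all definitions

See `Pool.Agent.H645.Defs` for the forcing language: a sentence about the generic extension by a
preordered set `P` of conditions is represented by the set of the conditions which force it, and a
name for a subset of a ground model set `U` is a map `A : U → Set P`.
-/

namespace Pool.Agent.H645.Q

open Cardinal Set

section

variable {P : Type} [Preorder P]

/-- The named subset `A` of `U` has cardinality at most `ν`: a function from a subset of `ν` to `U`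
covers it. -/
def CardLe {U : Type} (ν : Cardinal.{0}) (A : U → Set P) : Set P :=
  fex fun R : ν.out → U → Set P =>
    fand (fall fun x => fall fun y => fall fun y' =>
      fimp (fand (meets (R x y)) (meets (R x y'))) (fground (y = y')))
      (fall fun y => fimp (meets (A y)) (fex fun x => meets (R x y)))

/-- The named subset `A` of `U` has cardinality less than `κ`. -/
def CardLt {U : Type} (κ : Cardinal.{0}) (A : U → Set P) : Set P :=
  fex fun ν : Cardinal.{0} => fand (fground (ν < κ)) (CardLe ν A)

/-- The named subset `A` of `U` has cardinality `κ`. -/
def CardEq {U : Type} (κ : Cardinal.{0}) (A : U → Set P) : Set P :=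
  fand (CardLe κ A) (fnot (CardLt κ A))

/-- The named sets `A j` all have cardinality `κ`, and any two of them meet in a set of cardinality
less than `lam`. -/
def IsAD {J U : Type} (κ lam : Cardinal.{0}) (A : J → U → Set P) : Set P :=
  fand (fall fun j => CardEq κ (A j))
    (fall fun i => fall fun j => fall fun _ : i ≠ j => CardLt lam (nCap (A i) (A j)))

/-- `T` names a set which meets each `A j` in a nonempty set of cardinality at most `lam`: it is a
`lam⁺`-transversal. -/
def IsTrans {J U : Type} (lam : Cardinal.{0}) (A : J → U → Set P) (T : U → Set P) : Set P :=
  fall fun j => fand (fex fun u => nCap T (A j) u) (CardLe lam (nCap T (A j)))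

/-- For every cardinal `κ > lam`, every family of sets of cardinality `κ`, any two of which meet in
less than `lam` points, has a `lam⁺`-transversal. -/
def AllGood (P : Type) [Preorder P] (lam : Cardinal.{0}) : Set P :=
  fall fun κ : Cardinal.{0} => fall fun _ : lam < κ => fall fun J : Type => fall fun U : Type =>
    fall fun A : J → U → Set P => fimp (IsAD κ lam A) (fex fun T : U → Set P => IsTrans lam A T)

/-- The cardinal `κ` is still a cardinal in the extension. -/
def IsCard (P : Type) [Preorder P] (κ : Cardinal.{0}) : Set P :=
  fall fun ν : Cardinal.{0} => fall fun _ : ν < κ =>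
    fnot (CardLe ν fun _ : κ.ord.ToType => fground True)

/-- The degree of disjunction of the family `A` is at least `lam`. -/
def DegGe {J U : Type} (lam : Cardinal.{0}) (A : J → U → Set P) : Set P :=
  fall fun ν : Cardinal.{0} => fall fun _ : ν < lam => fex fun i => fex fun j =>
    fand (fground (i ≠ j)) (fnot (CardLt ν (nCap (A i) (A j))))

/-- There is a family of `ι` sets of cardinality `κ` with degree of disjunction `lam` which has no
`lam⁺`-transversal: `ι` is not good for `(κ, lam)`. -/
def NotGood (P : Type) [Preorder P] (ι κ lam : Cardinal.{0}) : Set P :=
  fex fun A : ι.ord.ToType → ι.ord.ToType → Set P => fand (IsAD κ lam A) (fand (DegGe lam A)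
    (fnot (fex fun T : ι.ord.ToType → Set P => IsTrans lam A T)))

/-- For every uncountable cardinal `κ ≤ c` of the extension, no `ι ≥ c` is good for `(κ, ℵ₀)`. -/
def ManyBad (P : Type) [Preorder P] (c : Cardinal.{0}) : Set P :=
  fall fun κ : Cardinal.{0} => fall fun _ : ℵ₀ < κ ∧ κ ≤ c => fimp (IsCard P κ)
    (fall fun ι : Cardinal.{0} => fall fun _ : c ≤ ι => NotGood P ι κ ℵ₀)

end

end Pool.Agent.H645.Q
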