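import Mathlib
import Pool.Agent.H645.Base

set_option autoImplicit false

/-!
# Diamond at the successor of a cardinal of countable cofinality (Shelah)

Let `lam` be a cardinal of cofinality `ω` with `2 ^ lam = lam⁺`, and `S` a stationary set of
points of uncountable cofinality below `lam⁺`. Then the diamond principle holds for `S`.
-/

namespace Pool.Agent.H645

open Cardinal Set

universe u

section

variable {K : Type u} [LinearOrder K] {lam : Cardinal.{u}}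

/-- A system of representations of the initial segments as countable increasing unions of
small sets. -/
structure IsFiltration (lam : Cardinal.{u}) (E : K → ℕ → Set K) : Prop where
  small : ∀ δ n, #(E δ n) < lam
  mono : ∀ δ m n, m ≤ n → E δ m ⊆ E δ n
  cover : ∀ δ, ∀ a < δ, ∃ n, a ∈ E δ n

/-- Enumeration of all bounded subsets of `L × K`. -/
theorem exists_enum (h : IsSuccType lam K) (h2 : (2 : Cardinal.{u}) ^ lam = Order.succ lam)
    {L : Type u} (hL : #L ≤ lam) :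
    ∃ X : K → L → K → Prop, ∀ (Z : L → K → Prop) (α : K), ∃ β, ∀ t, ∀ x < α, X β t x ↔ Z t x := by
  classical
  have hcard : #(Σ α : K, (L × Iio α → Prop)) ≤ #K := by
    rw [mk_sigma]
    have h1 : ∀ α : K, #(L × Iio α → Prop) ≤ Order.succ lam := by
      intro α
      have h3 : #(L × Iio α → Prop) = 2 ^ #(L × Iio α) := by
        simp
      rw [h3, ← h2]
      refine power_le_power_left two_ne_zero ?_
      rw [mk_prod, lift_id, lift_id]
      exact (mul_le_mul' hL (h.init α)).trans_eq (mul_eq_self h.inf)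
    refine (sum_le_sum _ _ h1).trans ?_
    rw [sum_const, lift_id, lift_id, h.card]
    exact (mul_eq_self (h.inf.trans (Order.le_succ lam))).le
  obtain ⟨e⟩ := hcard
  have : Nonempty (Σ α : K, (L × Iio α → Prop)) := ⟨⟨h.nonempty.some, fun _ => True⟩⟩
  have hs : Function.Surjective (Function.invFun e) := Function.invFun_surjective e.injective
  obtain ⟨D, hD⟩ : ∃ D : K → Σ α : K, (L × Iio α → Prop), Function.Surjective D := ⟨_, hs⟩
  refine ⟨fun β t x => ∃ hx : x ∈ Iio (D β).1, (D β).2 (t, ⟨x, hx⟩), fun Z α => ?_⟩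
  obtain ⟨β, hβ⟩ := hD ⟨α, fun p => Z p.1 p.2.1⟩
  refine ⟨β, fun t x hx => ?_⟩
  show (∃ hx : x ∈ Iio (D β).1, (D β).2 (t, ⟨x, hx⟩)) ↔ Z t x
  rw [hβ]
  exact ⟨fun ⟨_, h'⟩ => h', fun h' => ⟨hx, h'⟩⟩

/-- first step: for a given set, one level of the filtration suffices -/
theorem guess_level (h : IsSuccType lam K) {E : K → ℕ → Set K} (hE : IsFiltration lam E)
    {S : Set K} (hS : Stat S)
    (hcof : ∀ δ ∈ S, ∀ c : ℕ → K, (∀ n, c n < δ) → ∃ b < δ, ∀ n, c n < b)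
    {L : Type u} (X : K → L → K → Prop)
    (hX : ∀ (Z : L → K → Prop) (α : K), ∃ β, ∀ t, ∀ x < α, X β t x ↔ Z t x)
    (Z : L → K → Prop) :
    ∃ n, Stat {δ ∈ S | ∀ b < δ, ∃ α ∈ E δ n, b ≤ α ∧ α < δ ∧ ∃ β ∈ E δ n,
      ∀ t, ∀ x < α, X β t x ↔ Z t x} := by
  classical
  by_contra hcon
  push Not at hcon
  unfold Stat at hcon
  push Not at hcon
  choose F hF using hcon
  choose β hβ using hX Z
  have h1 : ∀ a : K, ∃ c, (∀ n, F n a < c) ∧ β a < c ∧ a < c := by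
    intro a
    obtain ⟨c1, hc1⟩ := h.bddN fun n => F n a
    obtain ⟨c2, hc2, hc3⟩ := h.gt2 c1 (β a)
    obtain ⟨c3, hc4, hc5⟩ := h.gt2 c2 a
    exact ⟨c3, fun n => (hc1 n).trans (hc2.trans hc4), hc3.trans hc4, hc5⟩
  choose G hG1 hG2 hG3 using h1
  obtain ⟨δ, hδ, ⟨a0, ha0⟩, hδ2⟩ := hS G
  have h2 : ∀ a < δ, ∃ n, a ∈ E δ n ∧ β a ∈ E δ n := by
    intro a ha
    obtain ⟨n, hn⟩ := hE.cover δ a ha
    obtain ⟨m, hm⟩ := hE.cover δ (β a) ((hG2 a).trans (hδ2 a ha))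
    exact ⟨max n m, hE.mono δ _ _ (le_max_left _ _) hn, hE.mono δ _ _ (le_max_right _ _) hm⟩
  have h3 : ∃ n, ∀ b < δ, ∃ a, b ≤ a ∧ a < δ ∧ a ∈ E δ n ∧ β a ∈ E δ n := by
    by_contra hcon2
    push Not at hcon2
    choose c hc1 hc2 using hcon2
    obtain ⟨b, hb, hb2⟩ := hcof δ hδ c hc1
    obtain ⟨n, hn1, hn2⟩ := h2 b hb
    exact hc2 n b (hb2 n).le hb hn1 hn2
  obtain ⟨n, hn⟩ := h3
  obtain ⟨a, ha, ha2⟩ := hF n δ ⟨hδ, fun b hb => by
    obtain ⟨a, hba, ha, hae, hbe⟩ := hn b hb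
    exact ⟨a, hae, hba, ha, β a, hbe, hβ a⟩⟩ ⟨a0, ha0⟩
  exact absurd ((hG1 a n).trans (hδ2 a ha)) (not_lt.2 ha2)

/-- second step: one level of the filtration suffices for all sets -/
theorem guess_uniform (h : IsSuccType lam K) (h2 : (2 : Cardinal.{u}) ^ lam = Order.succ lam)
    {E : K → ℕ → Set K} (hE : IsFiltration lam E)
    {S : Set K} (hS : Stat S)
    (hcof : ∀ δ ∈ S, ∀ c : ℕ → K, (∀ n, c n < δ) → ∃ b < δ, ∀ n, c n < b)
    {L : Type u} (hL : #L = lam) :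
    ∃ (n : ℕ) (Y : K → L → K → Prop), ∀ Z : L → K → Prop,
      Stat {δ ∈ S | ∀ b < δ, ∃ α ∈ E δ n, b ≤ α ∧ α < δ ∧ ∃ β ∈ E δ n,
        ∀ t, ∀ x < α, Y β t x ↔ Z t x} := by
  classical
  have hprod : #(ULift.{u} ℕ × L) = #L := by
    rw [mk_prod, lift_id, lift_id, mk_uLift, mk_nat, lift_aleph0, hL]
    exact aleph0_mul_eq h.inf
  obtain ⟨e⟩ := Cardinal.eq.1 hprod
  obtain ⟨X, hX⟩ := exists_enum h h2 hL.le
  by_contra hcon
  push Not at hcon
  choose Z hZ using fun n : ℕ => hcon n fun β t x => X β (e (⟨n⟩, t)) x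
  obtain ⟨n, hn⟩ := guess_level h hE hS hcof X hX
    fun t x => Z (e.symm t).1.down (e.symm t).2 x
  refine hZ n (hn.mono ?_)
  rintro δ ⟨hδ, hδ2⟩
  refine ⟨hδ, fun b hb => ?_⟩
  obtain ⟨α, hα, hbα, hαδ, β, hβ, h3⟩ := hδ2 b hb
  refine ⟨α, hα, hbα, hαδ, β, hβ, fun t x hx => ?_⟩
  have := h3 (e (⟨n⟩, t)) x hx
  simpa using this

/-- pairs which agree with the sets chosen so far -/
def Vv {L : Type u} [LT L] (Y : K → L → K → Prop) (E : K → Set K) (Zs : L → Set K) (t : L)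
    (δ : K) : Set (K × K) :=
  {p | p.1 ∈ E δ ∧ p.2 ∈ E δ ∧ p.1 < δ ∧ ∀ t' < t, ∀ x < p.1, Y p.2 t' x ↔ x ∈ Zs t'}

/-- the candidate for a diamond sequence -/
def Gg {L : Type u} [LT L] (Y : K → L → K → Prop) (E : K → Set K) (Zs : L → Set K) (t : L)
    (δ : K) : Set K :=
  {x | ∃ p ∈ Vv Y E Zs t δ, x < p.1 ∧ Y p.2 t x}

theorem Gg_congr {L : Type u} [LT L] (Y : K → L → K → Prop) (E : K → Set K) {Z Z' : L → Set K}
    {t : L} (h : ∀ t' < t, Z t' = Z' t') : Gg Y E Z t = Gg Y E Z' t := by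
  have h1 : Vv Y E Z t = Vv Y E Z' t := by
    funext δ
    ext p
    constructor
    · rintro ⟨h1, h2, h3, h4⟩
      exact ⟨h1, h2, h3, fun t' ht' => h t' ht' ▸ h4 t' ht'⟩
    · rintro ⟨h1, h2, h3, h4⟩
      exact ⟨h1, h2, h3, fun t' ht' => (h t' ht').symm ▸ h4 t' ht'⟩
  funext δ
  unfold Gg
  rw [h1]

/-- **Diamond** (Shelah). -/
theorem diamond (h : IsSuccType lam K) (h2 : (2 : Cardinal.{u}) ^ lam = Order.succ lam)
    {E : K → ℕ → Set K} (hE : IsFiltration lam E)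
    {S : Set K} (hS : Stat S)
    (hcof : ∀ δ ∈ S, ∀ c : ℕ → K, (∀ n, c n < δ) → ∃ b < δ, ∀ n, c n < b) :
    ∃ G : K → Set K, ∀ Z : Set K, Stat {δ ∈ S | ∀ x < δ, x ∈ G δ ↔ x ∈ Z} := by
  classical
  by_contra hcon
  push Not at hcon
  choose Zb hZb using hcon
  let L := lam.ord.ToType
  have hL : #L = lam := mk_ord_toType lam
  obtain ⟨n, Y, hY⟩ := guess_uniform h h2 hE hS hcof hL
  let E' : K → Set K := fun δ => E δ n
  let Zs : L → Set K := (wellFounded_lt (α := L)).fix fun t ih =>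
    Zb (Gg Y E' (fun t' => if h : t' < t then ih t' h else ∅) t)
  have hZs : ∀ t, Zs t = Zb (Gg Y E' Zs t) := by
    intro t
    have h3 : Zs t = Zb (Gg Y E' (fun t' => if _h : t' < t then Zs t' else ∅) t) :=
      (wellFounded_lt (α := L)).fix_eq _ t
    rw [h3]
    congr 1
    refine Gg_congr Y E' fun t' ht' => ?_
    exact dif_pos ht'
  unfold Stat at hZb
  push Not at hZb
  choose F hF using fun t : L => hZb (Gg Y E' Zs t)
  have h3 : ∀ a : K, ∃ c, (∀ t, F t a < c) ∧ a < c := by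
    intro a
    obtain ⟨c1, hc1⟩ := h.bddF (fun t => F t a) hL.le
    obtain ⟨c2, hc2, hc3⟩ := h.gt2 c1 a
    exact ⟨c2, fun t => (hc1 t).trans hc2, hc3⟩
  choose G hG1 hG2 using h3
  obtain ⟨δ, ⟨hδ, hδ1⟩, ⟨a0, ha0⟩, hδ2⟩ := hY (fun t x => x ∈ Zs t) G
  -- some stage is stable
  have h4 : ∃ t, ∀ p ∈ Vv Y E' Zs t δ, ∀ x < p.1, Y p.2 t x ↔ x ∈ Zs t := by
    by_contra hcon
    push Not at hcon
    choose v hv1 x hx1 hx2 using hcon
    have hinj : Function.Injective fun t => (⟨v t, (hv1 t).1, (hv1 t).2.1⟩ : E' δ ×ˢ E' δ) := by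
      have key : ∀ t t', t < t' → v t ≠ v t' := by
        intro t t' htt' he
        have h5 := (hv1 t').2.2.2 t htt' (x t) (he ▸ hx1 t)
        rw [← he] at h5
        rcases hx2 t with ⟨h6, h7⟩ | ⟨h6, h7⟩
        · exact h7 (h5.1 h6)
        · exact h6 (h5.2 h7)
      intro t t' he
      have he' : v t = v t' := congrArg Subtype.val he
      rcases lt_trichotomy t t' with h5 | h5 | h5
      · exact absurd he' (key t t' h5)
      · exact h5
      · exact absurd he'.symm (key t' t h5)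
    have h5 := mk_le_of_injective hinj
    rw [hL] at h5
    have h6 : #(E' δ ×ˢ E' δ : Set (K × K)) < lam := by
      rw [mk_setProd]
      exact mul_lt_of_lt h.inf (hE.small δ n) (hE.small δ n)
    exact absurd h5 (not_le.2 h6)
  obtain ⟨t, ht⟩ := h4
  obtain ⟨a, ha, ha2⟩ := hF t δ ⟨hδ, fun x hx => by
    rw [← hZs t]
    constructor
    · rintro ⟨p, hp, hxp, hy⟩
      exact (ht p hp x hxp).1 hy
    · intro hz
      obtain ⟨α, hα, hbα, hαδ, β, hβ, h5⟩ := hδ1 (G x) (hδ2 x hx)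
      have hxα : x < α := (hG2 x).trans_le hbα
      exact ⟨(α, β), ⟨hα, hβ, hαδ, fun t' _ => h5 t'⟩, hxα, (h5 t x hxα).2 hz⟩⟩ ⟨a0, ha0⟩
  exact absurd ((hG1 a t).trans (hδ2 a ha)) (not_lt.2 ha2)

end

end Pool.Agent.H645
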