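import Mathlib

set_option autoImplicit false

/-! Elementary collapses of families of finite sets of natural numbers. -/

namespace Pool.Agent.H645.Ev

/-- `CollN L K`: the family `L` collapses to `K` by removing free pairs `s, insert v s`. -/
inductive CollN : Set (Finset ℕ) → Set (Finset ℕ) → Prop
  | refl (L : Set (Finset ℕ)) : CollN L L
  | step (L K : Set (Finset ℕ)) (s : Finset ℕ) (v : ℕ) (hv : v ∉ s)
      (hne : s.Nonempty) (hs : s ∈ L) (ht : insert v s ∈ L)
      (hfree : ∀ t ∈ L, s ⊆ t → t ≠ s → t = insert v s) :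
      CollN (L \ {s, insert v s}) K → CollN L K

theorem CollN.trans {A B C : Set (Finset ℕ)} (h1 : CollN A B) (h2 : CollN B C) : CollN A C := by
  induction h1 with
  | refl L => exact h2
  | step L K s v hv hne hs ht hfree _ ih => exact CollN.step L C s v hv hne hs ht hfree (ih h2)

theorem CollN.sub {A B : Set (Finset ℕ)} (h1 : CollN A B) : B ⊆ A := by
  induction h1 with
  | refl L => exact subset_rfl
  | step L K s v hv hne hs ht hfree _ ih => exact fun x hx => (ih hx).1

/-- down-closed -/
def Dn (K : Set (Finset ℕ)) : Prop := ∀ s ∈ K, ∀ t, t ⊆ s → t ∈ K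

theorem dn_diff {L : Set (Finset ℕ)} (hL : Dn L) {s : Finset ℕ} {v : ℕ}
    (hfree : ∀ t ∈ L, s ⊆ t → t ≠ s → t = insert v s) : Dn (L \ {s, insert v s}) := by
  rintro a ⟨ha, hna⟩ t hta
  refine ⟨hL a ha t hta, ?_⟩
  simp only [Set.mem_insert_iff, Set.mem_singleton_iff, not_or] at hna ⊢
  have key : ¬ s ⊆ a := by
    intro hsa
    exact hna.2 (hfree a ha hsa hna.1)
  constructor
  · rintro rfl; exact key hta
  · rintro rfl; exact key ((Finset.subset_insert v s).trans hta)

theorem CollN.dn {A B : Set (Finset ℕ)} (h1 : CollN A B) : Dn A → Dn B := by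
  induction h1 with
  | refl L => exact id
  | step L K s v hv hne hs ht hfree _ ih => exact fun h => ih (dn_diff h hfree)

theorem coll_toggle_aux (f r : Finset ℕ → ℕ) (B : Set (Finset ℕ)) : ∀ (k : ℕ) (A : Set (Finset ℕ)),
    (A \ B).ncard = k → (A \ B).Finite → B ⊆ A → ∅ ∉ A \ B →
    (∀ s ∈ A \ B, ∀ t ∈ A, s ⊆ t → t ∉ B) →
    (∀ s ∈ A \ B, insert (f s) s ∈ A \ B) →
    (∀ s ∈ A \ B, s.erase (f s) ∈ A \ B) →
    (∀ s ∈ A \ B, f (insert (f s) s) = f s) →
    (∀ s ∈ A \ B, f (s.erase (f s)) = f s) →
    (∀ s ∈ A \ B, ∀ t ∈ A \ B, s ⊆ t → r s ≤ r t) →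
    (∀ s ∈ A \ B, ∀ t ∈ A \ B, s ⊆ t → r s = r t → f s = f t) →
    (∀ s ∈ A \ B, r (s.erase (f s)) = r s) → CollN A B := by
  intro k
  induction k using Nat.strong_induction_on with
  | _ k ih =>
  intro A hk hfin hBA hemp hup hins hera fins fera rmono feq rera
  by_cases hE : A \ B = ∅
  · have : A = B := by
      apply Set.Subset.antisymm _ hBA
      intro x hx
      by_contra hxB
      have : x ∈ A \ B := ⟨hx, hxB⟩
      rw [hE] at this
      exact this
    rw [this]
    exact CollN.refl _
  · obtain ⟨x, hx⟩ := Set.nonempty_iff_ne_empty.mpr hE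
    have h0 : {s | s ∈ A \ B ∧ f s ∉ s}.Nonempty := by
      refine ⟨x.erase (f x), hera x hx, ?_⟩
      rw [fera x hx]
      exact Finset.notMem_erase _ _
    have h1 : {s | s ∈ A \ B ∧ f s ∉ s}.Finite := hfin.subset (fun s hs => hs.1)
    obtain ⟨s, ⟨hs, hfs⟩, hmax⟩ := Set.exists_max_image _ (fun s => toLex (r s, s.card)) h1 h0
    have hs2 := hins s hs
    have hsup : ∀ t ∈ A, s ⊆ t → t ≠ s → t = insert (f s) s := by
      intro t ht hst hts
      by_contra hne
      have htE : t ∈ A \ B := ⟨ht, hup s hs t ht hst⟩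
      have h3 := hera t htE
      have h4 : f (t.erase (f t)) ∉ t.erase (f t) := by
        rw [fera t htE]; exact Finset.notMem_erase _ _
      have h5 := hmax (t.erase (f t)) ⟨h3, h4⟩
      rw [Prod.Lex.toLex_le_toLex] at h5
      simp only at h5
      have h6 := rmono s hs t htE hst
      rw [rera t htE] at h5
      rcases h5 with h5 | ⟨h5, h7⟩
      · omega
      · have h8 := feq s hs t htE hst h5.symm
        rw [← h8] at h7
        have h9 : s ⊆ t.erase (f s) := by
          intro y hy
          refine Finset.mem_erase.mpr ⟨?_, hst hy⟩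
          rintro rfl
          exact hfs hy
        have h10 := Finset.eq_of_subset_of_card_le h9 h7
        by_cases h11 : f s ∈ t
        · have h12 := Finset.insert_erase h11
          rw [← h10] at h12
          exact hne h12.symm
        · apply hts
          rw [Finset.erase_eq_of_notMem h11] at h10
          exact h10.symm
    have hne : s.Nonempty := by
      rw [Finset.nonempty_iff_ne_empty]
      rintro rfl
      exact hemp hs
    refine CollN.step A B s (f s) hfs hne hs.1 hs2.1 hsup ?_
    have hdiff : (A \ {s, insert (f s) s}) \ B = (A \ B) \ {s, insert (f s) s} := by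
      ext y
      simp only [Set.mem_sdiff]
      tauto
    have key : ∀ t ∈ (A \ {s, insert (f s) s}) \ B, t ∈ A \ B ∧ t ≠ s ∧ t ≠ insert (f s) s := by
      intro t ht
      rw [hdiff] at ht
      refine ⟨ht.1, ?_, ?_⟩
      · rintro rfl; exact ht.2 (Or.inl rfl)
      · intro h; exact ht.2 (Or.inr h)
    have hlt : ((A \ {s, insert (f s) s}) \ B).ncard < k := by
      rw [hdiff, ← hk]
      apply Set.ncard_lt_ncard _ hfin
      refine ⟨Set.sdiff_subset, fun h => ?_⟩
      exact (h hs).2 (Or.inl rfl)
    have hin : ∀ t ∈ (A \ {s, insert (f s) s}) \ B, insert (f t) t ∈ (A \ {s, insert (f s) s}) \ B := by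
      intro t ht
      obtain ⟨h2, h3, h4⟩ := key t ht
      rw [hdiff]
      refine ⟨hins t h2, ?_⟩
      rintro (h | h)
      · have h5 := fins t h2
        rw [h] at h5
        apply hfs
        rw [h5]
        have : f t ∈ insert (f t) t := Finset.mem_insert_self _ _
        rw [h] at this
        exact this
      · have h' : insert (f t) t = insert (f s) s := h
        have h5 := fins t h2
        rw [h', fins s hs] at h5
        rw [← h5] at h'
        by_cases h6 : f s ∈ t
        · rw [Finset.insert_eq_of_mem h6] at h'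
          exact h4 h'
        · apply h3
          have h12 : (insert (f s) t).erase (f s) = (insert (f s) s).erase (f s) := by rw [h']
          rwa [Finset.erase_insert h6, Finset.erase_insert hfs] at h12
    have her : ∀ t ∈ (A \ {s, insert (f s) s}) \ B, t.erase (f t) ∈ (A \ {s, insert (f s) s}) \ B := by
      intro t ht
      obtain ⟨h2, h3, h4⟩ := key t ht
      rw [hdiff]
      refine ⟨hera t h2, ?_⟩
      rintro (h | h)
      · have h' : t.erase (f t) = s := h
        have h5 := fera t h2
        rw [h'] at h5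
        rw [← h5] at h'
        by_cases h6 : f s ∈ t
        · have h12 := Finset.insert_erase h6
          rw [h'] at h12
          exact h4 h12.symm
        · rw [Finset.erase_eq_of_notMem h6] at h'
          exact h3 h'
      · have h' : t.erase (f t) = insert (f s) s := h
        have h5 := fera t h2
        rw [h', fins s hs] at h5
        have h6 : f s ∈ t.erase (f t) := by rw [h']; exact Finset.mem_insert_self _ _
        rw [← h5] at h6
        exact Finset.notMem_erase _ _ h6
    refine ih _ hlt _ rfl ?_ ?_ ?_ ?_ hin her ?_ ?_ ?_ ?_ ?_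
    · rw [hdiff]; exact hfin.subset Set.sdiff_subset
    · intro y hy
      refine ⟨hBA hy, ?_⟩
      rintro (h | h)
      · rw [h] at hy; exact hs.2 hy
      · rw [h] at hy; exact hs2.2 hy
    · intro h; rw [hdiff] at h; exact hemp h.1
    · intro a ha t ht hat
      exact hup a (key a ha).1 t ht.1 hat
    · intro t ht; exact fins t (key t ht).1
    · intro t ht; exact fera t (key t ht).1
    · intro a ha t ht; exact rmono a (key a ha).1 t (key t ht).1
    · intro a ha t ht; exact feq a (key a ha).1 t (key t ht).1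
    · intro t ht; exact rera t (key t ht).1

/-- The main tool: an acyclic matching given by toggling. -/
theorem coll_toggle (f r : Finset ℕ → ℕ) (A B : Set (Finset ℕ))
    (hfin : A.Finite) (hBA : B ⊆ A) (hemp : ∅ ∉ A \ B)
    (hup : ∀ s ∈ A \ B, ∀ t ∈ A, s ⊆ t → t ∉ B)
    (hins : ∀ s ∈ A \ B, insert (f s) s ∈ A \ B)
    (hera : ∀ s ∈ A \ B, s.erase (f s) ∈ A \ B)
    (fins : ∀ s ∈ A \ B, f (insert (f s) s) = f s)
    (fera : ∀ s ∈ A \ B, f (s.erase (f s)) = f s)
    (rmono : ∀ s ∈ A \ B, ∀ t ∈ A \ B, s ⊆ t → r s ≤ r t)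
    (feq : ∀ s ∈ A \ B, ∀ t ∈ A \ B, s ⊆ t → r s = r t → f s = f t)
    (rera : ∀ s ∈ A \ B, r (s.erase (f s)) = r s) : CollN A B :=
  coll_toggle_aux f r B _ A rfl (hfin.subset Set.sdiff_subset) hBA hemp hup hins hera fins fera rmono
    feq rera

/-- Toggling a constant vertex. -/
theorem coll_const (u : ℕ) (A B : Set (Finset ℕ))
    (hfin : A.Finite) (hBA : B ⊆ A) (hemp : ∅ ∉ A \ B)
    (hup : ∀ s ∈ A \ B, ∀ t ∈ A, s ⊆ t → t ∉ B)
    (hins : ∀ s ∈ A \ B, insert u s ∈ A \ B)
    (hera : ∀ s ∈ A \ B, s.erase u ∈ A \ B) : CollN A B :=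
  coll_toggle (fun _ => u) (fun _ => 0) A B hfin hBA hemp hup hins hera (fun _ _ => rfl)
    (fun _ _ => rfl) (fun _ _ _ _ _ => le_rfl) (fun _ _ _ _ _ _ => rfl) (fun _ _ => rfl)

/-- Excision. -/
theorem coll_union {L K : Set (Finset ℕ)} (h : CollN L K) (X : Set (Finset ℕ)) (hX : Dn X)
    (hXL : X ∩ L ⊆ K) : CollN (X ∪ L) (X ∪ K) := by
  induction h with
  | refl L => exact CollN.refl _
  | step L K s v hv hne hs ht hfree h ih =>
    have hsX : s ∉ X := by
      intro hsX
      exact (h.sub (hXL ⟨hsX, hs⟩)).2 (Or.inl rfl)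
    have htX : insert v s ∉ X := fun h' => hsX (hX _ h' _ (Finset.subset_insert v s))
    refine CollN.step _ _ s v hv hne (Or.inr hs) (Or.inr ht) ?_ ?_
    · rintro t (htt | htt) hst hts
      · exact absurd (hX _ htt _ hst) hsX
      · exact hfree t htt hst hts
    · have e : (X ∪ L) \ {s, insert v s} = X ∪ (L \ {s, insert v s}) := by
        ext y
        simp only [Set.mem_sdiff, Set.mem_union, Set.mem_insert_iff, Set.mem_singleton_iff, not_or]
        constructor
        · rintro ⟨h1 | h1, h2⟩
          · exact Or.inl h1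
          · exact Or.inr ⟨h1, h2⟩
        · rintro (h1 | ⟨h1, h2⟩)
          · refine ⟨Or.inl h1, ?_, ?_⟩
            · rintro rfl; exact hsX h1
            · rintro rfl; exact htX h1
          · exact ⟨Or.inr h1, h2⟩
      rw [e]
      exact ih (fun y hy => hXL ⟨hy.1, hy.2.1⟩)

/-- Transport along an injection of the vertices. -/
theorem coll_image {L K : Set (Finset ℕ)} (h : CollN L K) (e : ℕ ↪ ℕ) :
    CollN ((fun s : Finset ℕ => s.map e) '' L) ((fun s : Finset ℕ => s.map e) '' K) := by
  have hinj : Function.Injective (fun s : Finset ℕ => s.map e) := Finset.map_injective e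
  induction h with
  | refl L => exact CollN.refl _
  | step L K s v hv hne hs ht hfree h ih =>
    refine CollN.step _ _ (s.map e) (e v) ?_ ?_ ⟨s, hs, rfl⟩ ?_ ?_ ?_
    · rw [Finset.mem_map']; exact hv
    · exact hne.map
    · exact ⟨insert v s, ht, Finset.map_insert e v s⟩
    · rintro _ ⟨t, htt, rfl⟩ hst hts
      have h1 : s ⊆ t := Finset.map_subset_map.mp hst
      have h2 : t ≠ s := by rintro rfl; exact hts rfl
      show t.map e = _
      rw [hfree t htt h1 h2, Finset.map_insert]
    · have e2 : (fun s : Finset ℕ => s.map e) '' L \ {s.map e, insert (e v) (s.map e)} =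
          (fun s : Finset ℕ => s.map e) '' (L \ {s, insert v s}) := by
        rw [Set.image_sdiff hinj, Set.image_pair, Finset.map_insert]
      rw [e2]
      exact ih

end Pool.Agent.H645.Ev
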