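import Pool.Agent.H645.EA

set_option autoImplicit false

/-! Simple contractibility, by doubling. -/

namespace Pool.Agent.H645.Ev

/-- all sets of numbers below `N` -/
def PN (N : ℕ) : Set (Finset ℕ) := {s | s ⊆ Finset.range N}

theorem PN_fin (N : ℕ) : (PN N).Finite := by
  have : PN N = ↑((Finset.range N).powerset) := by
    ext s; simp only [PN, Set.mem_setOf_eq, Finset.mem_coe, Finset.mem_powerset]
  rw [this]
  exact Finset.finite_toSet _

theorem PN_dn (N : ℕ) : Dn (PN N) := fun _ hs _ ht => ht.trans hs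

theorem mem_PN {N : ℕ} {s : Finset ℕ} : s ∈ PN N ↔ ∀ x ∈ s, x < N := by
  constructor
  · intro h x hx; exact Finset.mem_range.mp (h hx)
  · intro h x hx; exact Finset.mem_range.mpr (h x hx)

/-- `SC n K`: some full simplex collapses to `K`. -/
def SC (n : ℕ) (K : Set (Finset ℕ)) : Prop := ∃ N, n ≤ N ∧ CollN (PN N) K

theorem SC.coll {n : ℕ} {L K : Set (Finset ℕ)} (h : SC n L) (h2 : CollN L K) : SC n K := by
  obtain ⟨N, hN, h1⟩ := h
  exact ⟨N, hN, h1.trans h2⟩

theorem SC.le {n m : ℕ} {K : Set (Finset ℕ)} (h : SC m K) (hnm : n ≤ m) : SC n K := by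
  obtain ⟨N, hN, h1⟩ := h
  exact ⟨N, hnm.trans hN, h1⟩

theorem PN_ext {N M : ℕ} (h1 : 1 ≤ N) (hNM : N ≤ M) : CollN (PN M) (PN N) := by
  refine coll_const 0 _ _ (PN_fin M) ?_ ?_ ?_ ?_ ?_
  · intro s hs
    rw [mem_PN] at hs ⊢
    exact fun x hx => (hs x hx).trans_le hNM
  · rintro ⟨-, h⟩
    exact h (by rw [mem_PN]; simp)
  · rintro s ⟨_, hs⟩ t _ hst ht
    exact hs (PN_dn N t ht s hst)
  · rintro s ⟨hs, hs2⟩
    constructor
    · rw [mem_PN] at hs ⊢
      intro x hx
      rcases Finset.mem_insert.mp hx with rfl | hx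
      · omega
      · exact hs x hx
    · intro h
      exact hs2 (PN_dn N _ h s (Finset.subset_insert _ _))
  · rintro s ⟨hs, hs2⟩
    refine ⟨PN_dn M s hs _ (Finset.erase_subset _ _), fun h => hs2 ?_⟩
    rw [mem_PN] at h ⊢
    intro x hx
    by_cases h0 : x = 0
    · omega
    · exact h x (Finset.mem_erase.mpr ⟨h0, hx⟩)

theorem SC.ge {n m : ℕ} (hn : 1 ≤ n) {K : Set (Finset ℕ)} (h : SC n K) : SC m K := by
  obtain ⟨N, hN, h1⟩ := h
  refine ⟨max N m, le_max_right _ _, ?_⟩
  exact (PN_ext (hn.trans hN) (le_max_left _ _)).trans h1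

def lo (n : ℕ) (s : Finset ℕ) : Finset ℕ := s.filter (fun x => x < n)
def up (n : ℕ) (s : Finset ℕ) : Finset ℕ := (s.filter (fun x => n ≤ x)).image (fun x => x - n)
def un (n : ℕ) (s : Finset ℕ) : Finset ℕ := lo n s ∪ up n s

theorem mem_lo {n : ℕ} {s : Finset ℕ} {v : ℕ} : v ∈ lo n s ↔ v ∈ s ∧ v < n := by
  simp [lo]

theorem mem_up {n : ℕ} {s : Finset ℕ} {v : ℕ} : v ∈ up n s ↔ v + n ∈ s := by
  unfold up
  rw [Finset.mem_image]
  constructor
  · rintro ⟨x, hx, rfl⟩
    rw [Finset.mem_filter] at hx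
    rw [Nat.sub_add_cancel hx.2]
    exact hx.1
  · intro h
    refine ⟨v + n, Finset.mem_filter.mpr ⟨h, by omega⟩, by omega⟩

theorem mem_un {n : ℕ} {s : Finset ℕ} {v : ℕ} : v ∈ un n s ↔ (v ∈ s ∧ v < n) ∨ v + n ∈ s := by
  unfold un
  rw [Finset.mem_union, mem_lo, mem_up]

theorem lo_mono {n : ℕ} {s t : Finset ℕ} (h : s ⊆ t) : lo n s ⊆ lo n t := by
  intro v hv; rw [mem_lo] at *; exact ⟨h hv.1, hv.2⟩

theorem up_mono {n : ℕ} {s t : Finset ℕ} (h : s ⊆ t) : up n s ⊆ up n t := by
  intro v hv; rw [mem_up] at *; exact h hv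

theorem un_mono {n : ℕ} {s t : Finset ℕ} (h : s ⊆ t) : un n s ⊆ un n t := by
  intro v hv; rw [mem_un] at *
  rcases hv with hv | hv
  · exact Or.inl ⟨h hv.1, hv.2⟩
  · exact Or.inr (h hv)

theorem lo_ins_up {n : ℕ} {s : Finset ℕ} {v : ℕ} : lo n (insert (v + n) s) = lo n s := by
  ext x; simp only [mem_lo, Finset.mem_insert]
  constructor
  · rintro ⟨rfl | h, h2⟩
    · omega
    · exact ⟨h, h2⟩
  · rintro ⟨h, h2⟩; exact ⟨Or.inr h, h2⟩

theorem lo_era_up {n : ℕ} {s : Finset ℕ} {v : ℕ} : lo n (s.erase (v + n)) = lo n s := by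
  ext x; simp only [mem_lo, Finset.mem_erase]
  constructor
  · rintro ⟨⟨_, h⟩, h2⟩; exact ⟨h, h2⟩
  · rintro ⟨h, h2⟩; exact ⟨⟨by omega, h⟩, h2⟩

theorem up_ins_lo {n : ℕ} {s : Finset ℕ} {v : ℕ} (hv : v < n) : up n (insert v s) = up n s := by
  ext x; simp only [mem_up, Finset.mem_insert]
  constructor
  · rintro (h | h)
    · omega
    · exact h
  · intro h; exact Or.inr h

theorem up_era_lo {n : ℕ} {s : Finset ℕ} {v : ℕ} (hv : v < n) : up n (s.erase v) = up n s := by
  ext x; simp only [mem_up, Finset.mem_erase]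
  constructor
  · rintro ⟨_, h⟩; exact h
  · intro h; exact ⟨by omega, h⟩

theorem un_ins_up {n : ℕ} {s : Finset ℕ} {v : ℕ} (hv : v ∈ lo n s) :
    un n (insert (v + n) s) = un n s := by
  rw [mem_lo] at hv
  ext x; simp only [mem_un, Finset.mem_insert]
  constructor
  · rintro (⟨h | h, h2⟩ | h | h)
    · omega
    · exact Or.inl ⟨h, h2⟩
    · have : x = v := by omega
      subst this; exact Or.inl hv
    · exact Or.inr h
  · rintro (⟨h, h2⟩ | h)
    · exact Or.inl ⟨Or.inr h, h2⟩
    · exact Or.inr (Or.inr h)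

theorem un_era_up {n : ℕ} {s : Finset ℕ} {v : ℕ} (hv : v ∈ lo n s) :
    un n (s.erase (v + n)) = un n s := by
  rw [mem_lo] at hv
  ext x; simp only [mem_un, Finset.mem_erase]
  constructor
  · rintro (⟨⟨_, h⟩, h2⟩ | ⟨_, h⟩)
    · exact Or.inl ⟨h, h2⟩
    · exact Or.inr h
  · rintro (⟨h, h2⟩ | h)
    · exact Or.inl ⟨⟨by omega, h⟩, h2⟩
    · by_cases hx : x = v
      · subst hx; exact Or.inl ⟨⟨by omega, hv.1⟩, hv.2⟩
      · exact Or.inr ⟨by omega, h⟩

theorem un_ins_lo {n : ℕ} {s : Finset ℕ} {v : ℕ} (hv : v ∈ up n s) (hvn : v < n) :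
    un n (insert v s) = un n s := by
  rw [mem_up] at hv
  ext x; simp only [mem_un, Finset.mem_insert]
  constructor
  · rintro (⟨h | h, h2⟩ | h | h)
    · subst h; exact Or.inr hv
    · exact Or.inl ⟨h, h2⟩
    · omega
    · exact Or.inr h
  · rintro (⟨h, h2⟩ | h)
    · exact Or.inl ⟨Or.inr h, h2⟩
    · exact Or.inr (Or.inr h)

theorem un_era_lo {n : ℕ} {s : Finset ℕ} {v : ℕ} (hv : v ∈ up n s) (hvn : v < n) :
    un n (s.erase v) = un n s := by
  rw [mem_up] at hv
  ext x; simp only [mem_un, Finset.mem_erase]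
  constructor
  · rintro (⟨⟨_, h⟩, h2⟩ | ⟨_, h⟩)
    · exact Or.inl ⟨h, h2⟩
    · exact Or.inr h
  · rintro (⟨h, h2⟩ | h)
    · by_cases hx : x = v
      · subst hx; exact Or.inr ⟨by omega, hv⟩
      · exact Or.inl ⟨⟨hx, h⟩, h2⟩
    · exact Or.inr ⟨by omega, h⟩

theorem coll_lo {n N : ℕ} (hn : n ≤ N) (A B X : Set (Finset ℕ)) (hA : A ⊆ PN (n + N))
    (hBA : B ⊆ A)
    (hE : ∀ s, s ∈ A \ B ↔ (s ∈ PN (n + N) ∧ (lo n s).Nonempty ∧ un n s ∈ X))
    (hup : ∀ s ∈ A \ B, ∀ t ∈ A, s ⊆ t → t ∉ B) : CollN A B := by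
  have hmem : ∀ s ∈ A \ B, sInf (↑(lo n s) : Set ℕ) ∈ lo n s := by
    intro s hs
    have := ((hE s).1 hs).2.1
    exact Nat.sInf_mem (s := (↑(lo n s) : Set ℕ)) (by exact_mod_cast this)
  refine coll_toggle (fun s => sInf (↑(lo n s) : Set ℕ) + n) (fun s => (lo n s).card) A B
    ((PN_fin _).subset hA) hBA ?_ hup ?_ ?_ ?_ ?_ ?_ ?_ ?_
  · intro h
    have := ((hE _).1 h).2.1
    obtain ⟨x, hx⟩ := this
    rw [mem_lo] at hx
    simp at hx
  · intro s hs
    have h1 := hmem s hs
    obtain ⟨h2, h3, h4⟩ := (hE s).1 hs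
    rw [hE]
    refine ⟨?_, ?_, ?_⟩
    · rw [mem_PN] at h2 ⊢
      intro x hx
      rcases Finset.mem_insert.mp hx with rfl | hx
      · have := (mem_lo.1 h1).2; omega
      · exact h2 x hx
    · rw [lo_ins_up]; exact h3
    · rw [un_ins_up h1]; exact h4
  · intro s hs
    have h1 := hmem s hs
    obtain ⟨h2, h3, h4⟩ := (hE s).1 hs
    rw [hE]
    refine ⟨PN_dn _ _ h2 _ (Finset.erase_subset _ _), ?_, ?_⟩
    · rw [lo_era_up]; exact h3
    · rw [un_era_up h1]; exact h4
  · intro s hs; simp only [lo_ins_up]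
  · intro s hs; simp only [lo_era_up]
  · intro s _ t _ hst; exact Finset.card_le_card (lo_mono hst)
  · intro s _ t _ hst hr
    have := Finset.eq_of_subset_of_card_le (lo_mono (n := n) hst) (le_of_eq hr.symm)
    simp only [this]
  · intro s hs; simp only [lo_era_up]

theorem coll_up {n N : ℕ} (A B X : Set (Finset ℕ)) (hA : A ⊆ PN (n + N))
    (hBA : B ⊆ A) (hX : X ⊆ PN n)
    (hE : ∀ s, s ∈ A \ B ↔ (s ∈ PN (n + N) ∧ (up n s).Nonempty ∧ un n s ∈ X))
    (hup : ∀ s ∈ A \ B, ∀ t ∈ A, s ⊆ t → t ∉ B) : CollN A B := by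
  have hmem : ∀ s ∈ A \ B, sInf (↑(up n s) : Set ℕ) ∈ up n s := by
    intro s hs
    have := ((hE s).1 hs).2.1
    exact Nat.sInf_mem (s := (↑(up n s) : Set ℕ)) (by exact_mod_cast this)
  have hlt : ∀ s ∈ A \ B, sInf (↑(up n s) : Set ℕ) < n := by
    intro s hs
    have h1 := hmem s hs
    have h2 := hX ((hE s).1 hs).2.2
    rw [mem_PN] at h2
    apply h2
    rw [mem_un]
    exact Or.inr (mem_up.1 h1)
  refine coll_toggle (fun s => sInf (↑(up n s) : Set ℕ)) (fun s => (up n s).card) A B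
    ((PN_fin _).subset hA) hBA ?_ hup ?_ ?_ ?_ ?_ ?_ ?_ ?_
  · intro h
    have := ((hE _).1 h).2.1
    obtain ⟨x, hx⟩ := this
    rw [mem_up] at hx
    simp at hx
  · intro s hs
    have h1 := hmem s hs
    have h5 := hlt s hs
    obtain ⟨h2, h3, h4⟩ := (hE s).1 hs
    rw [hE]
    refine ⟨?_, ?_, ?_⟩
    · rw [mem_PN] at h2 ⊢
      intro x hx
      rcases Finset.mem_insert.mp hx with rfl | hx
      · omega
      · exact h2 x hx
    · rw [up_ins_lo h5]; exact h3
    · rw [un_ins_lo h1 h5]; exact h4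
  · intro s hs
    have h1 := hmem s hs
    have h5 := hlt s hs
    obtain ⟨h2, h3, h4⟩ := (hE s).1 hs
    rw [hE]
    refine ⟨PN_dn _ _ h2 _ (Finset.erase_subset _ _), ?_, ?_⟩
    · rw [up_era_lo h5]; exact h3
    · rw [un_era_lo h1 h5]; exact h4
  · intro s hs; simp only [up_ins_lo (hlt s hs)]
  · intro s hs; simp only [up_era_lo (hlt s hs)]
  · intro s _ t _ hst; exact Finset.card_le_card (up_mono hst)
  · intro s _ t _ hst hr
    have := Finset.eq_of_subset_of_card_le (up_mono (n := n) hst) (le_of_eq hr.symm)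
    simp only [this]
  · intro s hs; simp only [up_era_lo (hlt s hs)]

theorem btw {A0 U : Finset ℕ} {w : ℕ} (h1 : A0 ⊆ U) (h2 : U ⊆ insert w A0) :
    U = A0 ∨ U = insert w A0 := by
  by_cases hw : w ∈ U
  · right
    apply Finset.Subset.antisymm h2
    intro x hx
    rcases Finset.mem_insert.mp hx with rfl | hx
    · exact hw
    · exact h1 hx
  · left
    apply Finset.Subset.antisymm _ h1
    intro x hx
    rcases Finset.mem_insert.mp (h2 hx) with rfl | hx'
    · exact absurd hx hw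
    · exact hx'

theorem coll_two {n N : ℕ} (hn : n ≤ N) (A B : Set (Finset ℕ)) (A0 : Finset ℕ) (w : ℕ)
    (hw : w ∉ A0) (hne : A0.Nonempty) (hwn : w < n) (hA : A ⊆ PN (n + N)) (hBA : B ⊆ A)
    (hE : ∀ s, s ∈ A \ B ↔ (s ∈ PN (n + N) ∧ (lo n s).Nonempty ∧ (up n s).Nonempty ∧
      (un n s = A0 ∨ un n s = insert w A0)))
    (hup : ∀ s ∈ A \ B, ∀ t ∈ A, s ⊆ t → t ∉ B) : CollN A B := by
  classical
  have hlow : ∀ s ∈ A \ B, lo n s ⊆ {w} → w ∈ lo n s := by
    intro s hs h
    obtain ⟨x, hx⟩ := ((hE s).1 hs).2.1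
    have := Finset.mem_singleton.mp (h hx)
    rw [← this]; exact hx
  refine coll_toggle (fun s => if lo n s ⊆ {w} then w + n else w)
    (fun s => if lo n s ⊆ {w} then 0 else 1) A B
    ((PN_fin _).subset hA) hBA ?_ hup ?_ ?_ ?_ ?_ ?_ ?_ ?_
  · intro h
    have := ((hE _).1 h).2.1
    obtain ⟨x, hx⟩ := this
    rw [mem_lo] at hx
    simp at hx
  · intro s hs
    obtain ⟨h2, h3, h4, h5⟩ := (hE s).1 hs
    rw [hE]
    by_cases h : lo n s ⊆ {w}
    · have h6 := hlow s hs h
      simp only [h, if_true]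
      refine ⟨?_, ?_, ?_, ?_⟩
      · rw [mem_PN] at h2 ⊢
        intro x hx
        rcases Finset.mem_insert.mp hx with rfl | hx
        · omega
        · exact h2 x hx
      · rw [lo_ins_up]; exact h3
      · exact h4.mono (up_mono (Finset.subset_insert _ _))
      · rw [un_ins_up h6]; exact h5
    · simp only [h, if_false]
      refine ⟨?_, ?_, ?_, ?_⟩
      · rw [mem_PN] at h2 ⊢
        intro x hx
        rcases Finset.mem_insert.mp hx with rfl | hx
        · omega
        · exact h2 x hx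
      · exact h3.mono (lo_mono (Finset.subset_insert _ _))
      · rw [up_ins_lo hwn]; exact h4
      · apply btw
        · have : A0 ⊆ un n s := by
            rcases h5 with h5 | h5 <;> rw [h5]
            exact Finset.subset_insert _ _
          exact this.trans (un_mono (Finset.subset_insert _ _))
        · intro x hx
          rw [mem_un] at hx
          have h7 : un n s ⊆ insert w A0 := by
            rcases h5 with h5 | h5 <;> rw [h5]
            exact Finset.subset_insert _ _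
          rcases hx with ⟨hx, hx2⟩ | hx
          · rcases Finset.mem_insert.mp hx with rfl | hx
            · exact Finset.mem_insert_self _ _
            · exact h7 (mem_un.2 (Or.inl ⟨hx, hx2⟩))
          · rcases Finset.mem_insert.mp hx with hx | hx
            · omega
            · exact h7 (mem_un.2 (Or.inr hx))
  · intro s hs
    obtain ⟨h2, h3, h4, h5⟩ := (hE s).1 hs
    rw [hE]
    by_cases h : lo n s ⊆ {w}
    · have h6 := hlow s hs h
      simp only [h, if_true]
      refine ⟨PN_dn _ _ h2 _ (Finset.erase_subset _ _), ?_, ?_, ?_⟩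
      · rw [lo_era_up]; exact h3
      · obtain ⟨a, ha⟩ := hne
        have haw : a ≠ w := by rintro rfl; exact hw ha
        refine ⟨a, ?_⟩
        have h8 : a ∈ un n s := by
          rcases h5 with h5 | h5 <;> rw [h5]
          · exact ha
          · exact Finset.mem_insert_of_mem ha
        rw [mem_un] at h8
        rw [mem_up, Finset.mem_erase]
        rcases h8 with h8 | h8
        · exact absurd (Finset.mem_singleton.mp (h (mem_lo.2 h8))) haw
        · exact ⟨by omega, h8⟩
      · rw [un_era_up h6]; exact h5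
    · simp only [h, if_false]
      have h9 : ∃ a ∈ lo n s, a ≠ w := by
        by_contra hcon
        push Not at hcon
        exact h (fun a ha => Finset.mem_singleton.mpr (hcon a ha))
      obtain ⟨a, ha, haw⟩ := h9
      refine ⟨PN_dn _ _ h2 _ (Finset.erase_subset _ _), ?_, ?_, ?_⟩
      · refine ⟨a, ?_⟩
        rw [mem_lo, Finset.mem_erase]
        exact ⟨⟨haw, (mem_lo.1 ha).1⟩, (mem_lo.1 ha).2⟩
      · rw [up_era_lo hwn]; exact h4
      · apply btw
        · intro x hx
          have hxw : x ≠ w := by rintro rfl; exact hw hx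
          have h8 : x ∈ un n s := by
            rcases h5 with h5 | h5 <;> rw [h5]
            · exact hx
            · exact Finset.mem_insert_of_mem hx
          rw [mem_un] at h8 ⊢
          simp only [Finset.mem_erase]
          rcases h8 with h8 | h8
          · exact Or.inl ⟨⟨hxw, h8.1⟩, h8.2⟩
          · exact Or.inr ⟨by omega, h8⟩
        · refine (un_mono (Finset.erase_subset _ _)).trans ?_
          rcases h5 with h5 | h5 <;> rw [h5]
          exact Finset.subset_insert _ _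
  · intro s hs
    by_cases h : lo n s ⊆ {w}
    · simp only [h, if_true, lo_ins_up]
    · have h7 : ¬ lo n (insert w s) ⊆ {w} := fun h8 => h ((lo_mono (Finset.subset_insert _ _)).trans h8)
      simp only [h, if_false, h7]
  · intro s hs
    by_cases h : lo n s ⊆ {w}
    · simp only [h, if_true, lo_era_up]
    · have h9 : ∃ a ∈ lo n s, a ≠ w := by
        by_contra hcon
        push Not at hcon
        exact h (fun a ha => Finset.mem_singleton.mpr (hcon a ha))
      obtain ⟨a, ha, haw⟩ := h9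
      have h7 : ¬ lo n (s.erase w) ⊆ {w} := by
        intro h8
        apply haw
        apply Finset.mem_singleton.mp
        apply h8
        rw [mem_lo, Finset.mem_erase]
        exact ⟨⟨haw, (mem_lo.1 ha).1⟩, (mem_lo.1 ha).2⟩
      simp only [h, if_false, h7]
  · intro s _ t _ hst
    by_cases h : lo n t ⊆ {w}
    · have h7 : lo n s ⊆ {w} := (lo_mono hst).trans h
      simp only [h, h7, if_true]; exact le_rfl
    · simp only [h, if_false]
      split_ifs <;> omega
  · intro s _ t _ hst hr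
    by_cases h : lo n t ⊆ {w}
    · have h7 : lo n s ⊆ {w} := (lo_mono hst).trans h
      simp only [h, h7, if_true]
    · by_cases h7 : lo n s ⊆ {w}
      · simp only [h, h7, if_true, if_false] at hr
        omega
      · simp only [h, h7, if_false]
  · intro s hs
    by_cases h : lo n s ⊆ {w}
    · simp only [h, if_true, lo_era_up]
    · have h9 : ∃ a ∈ lo n s, a ≠ w := by
        by_contra hcon
        push Not at hcon
        exact h (fun a ha => Finset.mem_singleton.mpr (hcon a ha))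
      obtain ⟨a, ha, haw⟩ := h9
      have h7 : ¬ lo n (s.erase w) ⊆ {w} := by
        intro h8
        apply haw
        apply Finset.mem_singleton.mp
        apply h8
        rw [mem_lo, Finset.mem_erase]
        exact ⟨⟨haw, (mem_lo.1 ha).1⟩, (mem_lo.1 ha).2⟩
      simp only [h, if_false, h7]

end Pool.Agent.H645.Ev
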