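import Pool.Agent.H645.EB

set_option autoImplicit false

/-! Invariance of simple contractibility. -/

namespace Pool.Agent.H645.Ev

/-- the double of a complex -/
def DD (n : ℕ) (K : Set (Finset ℕ)) : Set (Finset ℕ) := {s | un n s ∈ K}

/-- the sets of the upper copy -/
def PU (n N : ℕ) : Set (Finset ℕ) := {s | s ∈ PN (n + N) ∧ lo n s = ∅}

theorem un_of_lo {n : ℕ} {s : Finset ℕ} (h : s ∈ PN n) : un n s = s ∧ up n s = ∅ := by
  rw [mem_PN] at h
  have h2 : up n s = ∅ := by
    ext x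
    simp only [mem_up, Finset.notMem_empty, iff_false]
    intro hx
    have := h _ hx
    omega
  refine ⟨?_, h2⟩
  unfold un
  rw [h2, Finset.union_empty]
  ext x
  rw [mem_lo]
  exact ⟨fun h => h.1, fun hx => ⟨hx, h x hx⟩⟩

theorem lo_of_up_empty {n : ℕ} {s : Finset ℕ} (h : up n s = ∅) : un n s = s := by
  unfold un
  rw [h, Finset.union_empty]
  ext x
  rw [mem_lo]
  refine ⟨fun h => h.1, fun hx => ⟨hx, ?_⟩⟩
  by_contra hxn
  have : x - n ∈ up n s := by
    rw [mem_up, Nat.sub_add_cancel (by omega)]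
    exact hx
  rw [h] at this
  simp at this

theorem DD_sub {n N : ℕ} (hn : n ≤ N) {K : Set (Finset ℕ)} (hK : K ⊆ PN n) :
    DD n K ⊆ PN (n + N) := by
  intro s hs
  have h1 := hK hs
  rw [mem_PN] at h1 ⊢
  intro x hx
  by_cases hxn : x < n
  · omega
  · have : x - n ∈ un n s := by
      rw [mem_un]
      right
      rw [Nat.sub_add_cancel (by omega)]
      exact hx
    have := h1 _ this
    omega

theorem DD_dn {n : ℕ} {K : Set (Finset ℕ)} (hK : Dn K) : Dn (DD n K) := by
  intro s hs t ht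
  exact hK _ hs _ (un_mono ht)

theorem PN_le {n m : ℕ} (h : n ≤ m) : PN n ⊆ PN m := by
  intro s hs
  rw [mem_PN] at hs ⊢
  exact fun x hx => (hs x hx).trans_le h

theorem Dn.union {A B : Set (Finset ℕ)} (hA : Dn A) (hB : Dn B) : Dn (A ∪ B) := by
  rintro s (hs | hs) t ht
  · exact Or.inl (hA s hs t ht)
  · exact Or.inr (hB s hs t ht)

theorem PU_dn (n N : ℕ) : Dn (PU n N) := by
  rintro s ⟨h1, h2⟩ t ht
  refine ⟨PN_dn _ _ h1 _ ht, ?_⟩
  rw [Finset.eq_empty_iff_forall_notMem] at h2 ⊢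
  exact fun x hx => h2 x (lo_mono ht hx)

/-- the shift -/
def sh (n : ℕ) : ℕ ↪ ℕ := ⟨fun x => x + n, fun _ _ h => Nat.add_right_cancel h⟩

theorem map_up {n : ℕ} {s : Finset ℕ} (h : lo n s = ∅) : (up n s).map (sh n) = s := by
  ext x
  rw [Finset.mem_map]
  constructor
  · rintro ⟨v, hv, rfl⟩
    exact mem_up.1 hv
  · intro hx
    have hxn : n ≤ x := by
      by_contra hc
      have : x ∈ lo n s := mem_lo.2 ⟨hx, by omega⟩
      rw [h] at this
      simp at this
    refine ⟨x - n, ?_, Nat.sub_add_cancel hxn⟩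
    rw [mem_up, Nat.sub_add_cancel hxn]
    exact hx

theorem up_map {n : ℕ} (s : Finset ℕ) : up n (s.map (sh n)) = s ∧ lo n (s.map (sh n)) = ∅ := by
  constructor
  · ext x
    rw [mem_up, Finset.mem_map]
    constructor
    · rintro ⟨y, hy, hyx⟩
      have : y = x := Nat.add_right_cancel hyx
      rw [← this]; exact hy
    · intro hx; exact ⟨x, hx, rfl⟩
  · ext x
    simp only [mem_lo, Finset.mem_map, Finset.notMem_empty, iff_false, not_and]
    rintro ⟨y, hy, hyx⟩
    have : y + n = x := hyx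
    omega

theorem PU_eq (n N : ℕ) : (fun s : Finset ℕ => s.map (sh n)) '' PN N = PU n N := by
  ext s
  constructor
  · rintro ⟨t, ht, rfl⟩
    refine ⟨?_, (up_map t).2⟩
    rw [mem_PN] at ht ⊢
    intro x hx
    obtain ⟨y, hy, rfl⟩ := Finset.mem_map.mp hx
    have h1 := ht y hy
    have : (sh n) y = y + n := rfl
    omega
  · rintro ⟨h1, h2⟩
    refine ⟨up n s, ?_, map_up h2⟩
    rw [mem_PN] at h1 ⊢
    intro x hx
    have := h1 _ (mem_up.1 hx)
    omega

/-- Collapsing the cylinder. -/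
theorem coll_cyl {n N : ℕ} (hn : n ≤ N) {A B : Set (Finset ℕ)} (hBA : B ⊆ A) (hA : Dn A)
    (hB : Dn B) (hAn : A ⊆ PN n) (h0 : ∅ ∈ B) (hc : CollN (PN N) B) :
    CollN ((A ∪ DD n B) ∪ PU n N) A := by
  have hBn : B ⊆ PN n := hBA.trans hAn
  have h1 := coll_image hc (sh n)
  rw [PU_eq] at h1
  have hKd : (fun s : Finset ℕ => s.map (sh n)) '' B ⊆ DD n B := by
    rintro _ ⟨s, hs, rfl⟩
    show un n (s.map (sh n)) ∈ B
    unfold un
    rw [(up_map s).1, (up_map s).2, Finset.empty_union]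
    exact hs
  have h2 := coll_union h1 (A ∪ DD n B) (hA.union (DD_dn hB)) (by
    rintro s ⟨hs | hs, hs1, hs2⟩
    · have h3 := un_of_lo (hAn hs)
      have h4 : s = ∅ := by
        have h5 := map_up hs2
        rw [h3.2] at h5
        rw [← h5]; rfl
      refine ⟨∅, h0, ?_⟩
      rw [h4]; rfl
    · refine ⟨up n s, ?_, map_up hs2⟩
      have : un n s ∈ B := hs
      unfold un at this
      rw [hs2, Finset.empty_union] at this
      exact this)
  have h3 : (A ∪ DD n B) ∪ (fun s : Finset ℕ => s.map (sh n)) '' B = A ∪ DD n B := by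
    rw [Set.union_eq_left]
    exact hKd.trans Set.subset_union_right
  rw [h3] at h2
  refine h2.trans ?_
  have hE : ∀ s, s ∈ (A ∪ DD n B) \ A ↔ (s ∈ PN (n + N) ∧ (up n s).Nonempty ∧ un n s ∈ B) := by
    intro s
    constructor
    · rintro ⟨hs | hs, hsA⟩
      · exact absurd hs hsA
      · refine ⟨DD_sub hn hBn hs, ?_, hs⟩
        rw [Finset.nonempty_iff_ne_empty]
        intro h4
        apply hsA
        have := lo_of_up_empty h4
        rw [← this]
        exact hBA hs
    · rintro ⟨h4, h5, h6⟩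
      refine ⟨Or.inr h6, ?_⟩
      intro hs
      rw [(un_of_lo (hAn hs)).2] at h5
      simp at h5
  refine coll_up (N := N) _ _ B ?_ Set.subset_union_left hBn hE ?_
  · rintro s (hs | hs)
    · exact PN_le (by omega) (hAn hs)
    · exact DD_sub hn hBn hs
  · intro s hs t _ hst htA
    have h5 := ((hE s).1 hs).2.1
    obtain ⟨x, hx⟩ := h5
    have h6 := up_mono hst hx
    rw [(un_of_lo (hAn htA)).2] at h6
    simp at h6

theorem sc_step {n : ℕ} {L : Set (Finset ℕ)} (hL : Dn L) (hLn : L ⊆ PN n) (h0 : ∅ ∈ L)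
    {s : Finset ℕ} {v : ℕ} (hv : v ∉ s) (hne : s.Nonempty) (hs : s ∈ L) (ht : insert v s ∈ L)
    (hfree : ∀ t ∈ L, s ⊆ t → t ≠ s → t = insert v s)
    (h : SC n (L \ {s, insert v s})) : SC n L := by
  obtain ⟨N, hN, hc⟩ := h
  have hKd : Dn (L \ {s, insert v s}) := dn_diff hL hfree
  have hKL : L \ {s, insert v s} ⊆ L := Set.sdiff_subset
  have h0K : ∅ ∈ L \ {s, insert v s} := by
    refine ⟨h0, ?_⟩
    rintro (h | h)
    · rw [← h] at hne; simp at hne
    · exact absurd h.symm (Finset.insert_ne_empty _ _)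
  have hvn : v < n := by
    have := hLn ht
    rw [mem_PN] at this
    exact this v (Finset.mem_insert_self _ _)
  refine ⟨n + N, by omega, ?_⟩
  have c3 := coll_cyl hN hKL hL hKd hLn h0K hc
  have c2 : CollN (DD n L ∪ PU n N) ((L ∪ DD n (L \ {s, insert v s})) ∪ PU n N) := by
    have hE : ∀ t, t ∈ (DD n L ∪ PU n N) \ ((L ∪ DD n (L \ {s, insert v s})) ∪ PU n N) ↔
        (t ∈ PN (n + N) ∧ (lo n t).Nonempty ∧ (up n t).Nonempty ∧
          (un n t = s ∨ un n t = insert v s)) := by
      intro t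
      constructor
      · rintro ⟨h1 | h1, h2⟩
        · have h3 : t ∈ PN (n + N) := DD_sub hN hLn h1
          refine ⟨h3, ?_, ?_, ?_⟩
          · rw [Finset.nonempty_iff_ne_empty]
            exact fun h4 => h2 (Or.inr ⟨h3, h4⟩)
          · rw [Finset.nonempty_iff_ne_empty]
            intro h4
            apply h2
            left; left
            rw [← lo_of_up_empty h4]
            exact h1
          · by_contra h4
            apply h2
            left; right
            refine ⟨h1, ?_⟩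
            simpa using h4
        · exact absurd (Or.inr h1) h2
      · rintro ⟨h1, h2, h3, h4⟩
        refine ⟨Or.inl ?_, ?_⟩
        · show un n t ∈ L
          rcases h4 with h4 | h4 <;> rw [h4]
          · exact hs
          · exact ht
        · rintro ((h5 | h5) | h5)
          · rw [(un_of_lo (hLn h5)).2] at h3
            simp at h3
          · exact h5.2 h4
          · rw [h5.2] at h2; simp at h2
    refine coll_two hN _ _ s v hv hne hvn ?_ ?_ hE ?_
    · rintro t (h1 | h1)
      · exact DD_sub hN hLn h1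
      · exact h1.1
    · rintro t ((h1 | h1) | h1)
      · left
        show un n t ∈ L
        rw [(un_of_lo (hLn h1)).1]; exact h1
      · exact Or.inl h1.1
      · exact Or.inr h1
    · intro a ha t _ hat htB
      obtain ⟨_, h2, h3, h4⟩ := (hE a).1 ha
      rcases htB with (h5 | h5) | h5
      · obtain ⟨x, hx⟩ := h3
        have h6 := up_mono hat hx
        rw [(un_of_lo (hLn h5)).2] at h6
        simp at h6
      · have h6 := hKd _ h5 _ (un_mono hat)
        exact h6.2 h4
      · obtain ⟨x, hx⟩ := h2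
        have h6 := lo_mono hat hx
        rw [h5.2] at h6
        simp at h6
  have c1 : CollN (PN (n + N)) (DD n L ∪ PU n N) := by
    have hE : ∀ t, t ∈ PN (n + N) \ (DD n L ∪ PU n N) ↔
        (t ∈ PN (n + N) ∧ (lo n t).Nonempty ∧ un n t ∈ Lᶜ) := by
      intro t
      constructor
      · rintro ⟨h1, h2⟩
        refine ⟨h1, ?_, fun h3 => h2 (Or.inl h3)⟩
        rw [Finset.nonempty_iff_ne_empty]
        exact fun h4 => h2 (Or.inr ⟨h1, h4⟩)
      · rintro ⟨h1, h2, h3⟩
        refine ⟨h1, ?_⟩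
        rintro (h4 | h4)
        · exact h3 h4
        · rw [h4.2] at h2; simp at h2
    refine coll_lo hN _ _ Lᶜ subset_rfl ?_ hE ?_
    · rintro t (h1 | h1)
      · exact DD_sub hN hLn h1
      · exact h1.1
    · intro a ha t _ hat htB
      obtain ⟨_, h2, h3⟩ := (hE a).1 ha
      rcases htB with h5 | h5
      · exact h3 (hL _ h5 _ (un_mono hat))
      · obtain ⟨x, hx⟩ := h2
        have h6 := lo_mono hat hx
        rw [h5.2] at h6
        simp at h6
  exact (c1.trans c2).trans c3

theorem sc_coll {n : ℕ} {L K : Set (Finset ℕ)} (hc : CollN L K) : Dn L → L ⊆ PN n → ∅ ∈ L →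
    SC n K → SC n L := by
  induction hc with
  | refl L => exact fun _ _ _ h => h
  | step L K s v hv hne hs ht hfree _ ih =>
    intro hL hLn h0 h
    refine sc_step hL hLn h0 hv hne hs ht hfree (ih (dn_diff hL hfree)
      (Set.sdiff_subset.trans hLn) ⟨h0, ?_⟩ h)
    rintro (h | h)
    · rw [← h] at hne; simp at hne
    · exact absurd h.symm (Finset.insert_ne_empty _ _)

/-- the cone -/
def cone (u : ℕ) (C : Set (Finset ℕ)) : Set (Finset ℕ) := {s | s.erase u ∈ C}

theorem cone_dn {u : ℕ} {C : Set (Finset ℕ)} (hC : Dn C) : Dn (cone u C) := by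
  intro s hs t ht
  exact hC _ hs _ (Finset.erase_subset_erase u ht)

theorem sub_cone {u : ℕ} {C : Set (Finset ℕ)} (hC : Dn C) : C ⊆ cone u C := by
  intro s hs
  exact hC _ hs _ (Finset.erase_subset _ _)

theorem coll_cone {N u : ℕ} (hu : u < N) {C : Set (Finset ℕ)} (hC : Dn C) (h0 : ∅ ∈ C)
    (hCN : C ⊆ PN N) : CollN (PN N) (cone u C) := by
  refine coll_const u _ _ (PN_fin N) ?_ ?_ ?_ ?_ ?_
  · intro s hs
    have h1 : s.erase u ∈ PN N := hCN hs
    rw [mem_PN] at h1 ⊢
    intro x hx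
    by_cases hxu : x = u
    · rw [hxu]; exact hu
    · exact h1 x (Finset.mem_erase.mpr ⟨hxu, hx⟩)
  · rintro ⟨_, h⟩
    apply h
    show (∅ : Finset ℕ).erase u ∈ C
    rw [Finset.erase_empty]; exact h0
  · rintro s ⟨_, hs⟩ t _ hst ht
    exact hs (cone_dn hC _ ht _ hst)
  · rintro s ⟨h1, h2⟩
    constructor
    · rw [mem_PN] at h1 ⊢
      intro x hx
      rcases Finset.mem_insert.mp hx with rfl | hx
      · exact hu
      · exact h1 x hx
    · intro h
      apply h2
      show s.erase u ∈ C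
      have h' : (insert u s).erase u ∈ C := h
      rwa [Finset.erase_insert_eq_erase] at h'
  · rintro s ⟨h1, h2⟩
    refine ⟨PN_dn _ _ h1 _ (Finset.erase_subset _ _), fun h => h2 ?_⟩
    show s.erase u ∈ C
    have h' : (s.erase u).erase u ∈ C := h
    rwa [Finset.erase_idem] at h'

theorem sc_cone {n u : ℕ} (hu : u < n) {C : Set (Finset ℕ)} (hC : Dn C) (h0 : ∅ ∈ C)
    (hCn : C ⊆ PN n) : SC n (cone u C) := ⟨n, le_rfl, coll_cone hu hC h0 hCn⟩

/-- Adding the cone over a subcomplex `C` with `SC n C` changes nothing. -/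
theorem sc_glue {n u : ℕ} (hn : 1 ≤ n) (hu : u < n) {A C : Set (Finset ℕ)} (hA : Dn A) (hC : Dn C)
    (hCA : C ⊆ A) (hAn : A ⊆ PN n) (h0 : ∅ ∈ C) (huA : ∀ s ∈ A, u ∉ s) (h : SC n C) :
    SC n (A ∪ cone u C) ↔ SC n A := by
  obtain ⟨N, hN, hc⟩ := h
  have hCn : C ⊆ PN n := hCA.trans hAn
  have hBn : cone u C ⊆ PN n := (coll_cone hu hC h0 hCn).sub
  have hBN : CollN (PN N) (cone u C) := coll_cone (by omega) hC h0 (hCn.trans (PN_le hN))
  have hABn : A ∪ cone u C ⊆ PN n := Set.union_subset hAn hBn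
  have hABd : Dn (A ∪ cone u C) := hA.union (cone_dn hC)
  have h0B : ∅ ∈ cone u C := sub_cone hC h0
  have e1 : CollN (((A ∪ cone u C) ∪ DD n (cone u C)) ∪ PU n N) (A ∪ cone u C) :=
    coll_cyl hN Set.subset_union_right hABd (cone_dn hC) hABn h0B hBN
  have e2 : CollN ((A ∪ DD n C) ∪ PU n N) A := coll_cyl hN hCA hA hC hAn h0 hc
  have hAC : ∀ s ∈ A, s ∈ cone u C → s ∈ C := by
    intro s hs h1
    have h2 : s.erase u ∈ C := h1
    rwa [Finset.erase_eq_of_notMem (huA s hs)] at h2
  have e12 : CollN (((A ∪ cone u C) ∪ DD n (cone u C)) ∪ PU n N) ((A ∪ DD n C) ∪ PU n N) := by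
    have hE : ∀ s, s ∈ (((A ∪ cone u C) ∪ DD n (cone u C)) ∪ PU n N) \
        ((A ∪ DD n C) ∪ PU n N) ↔ (s ∈ PN (n + N) ∧ (lo n s).Nonempty ∧
          un n s ∈ cone u C \ C) := by
      intro s
      constructor
      · rintro ⟨h1, h2⟩
        have h3 : s ∈ DD n (cone u C) := by
          rcases h1 with ((h1 | h1) | h1) | h1
          · exact absurd (Or.inl (Or.inl h1)) h2
          · show un n s ∈ cone u C
            rw [(un_of_lo (hBn h1)).1]; exact h1
          · exact h1
          · exact absurd (Or.inr h1) h2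
        have h4 : s ∈ PN (n + N) := DD_sub hN hBn h3
        refine ⟨h4, ?_, h3, ?_⟩
        · rw [Finset.nonempty_iff_ne_empty]
          exact fun h5 => h2 (Or.inr ⟨h4, h5⟩)
        · exact fun h5 => h2 (Or.inl (Or.inr h5))
      · rintro ⟨h1, h2, h3, h4⟩
        refine ⟨Or.inl (Or.inr h3), ?_⟩
        rintro ((h5 | h5) | h5)
        · rw [(un_of_lo (hAn h5)).1] at h3 h4
          exact h4 (hAC s h5 h3)
        · exact h4 h5
        · rw [h5.2] at h2; simp at h2
    refine coll_lo hN _ _ (cone u C \ C) ?_ ?_ hE ?_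
    · rintro s ((h1 | h1) | h1)
      · exact PN_le (by omega) (hABn h1)
      · exact DD_sub hN hBn h1
      · exact h1.1
    · rintro s ((h1 | h1) | h1)
      · exact Or.inl (Or.inl (Or.inl h1))
      · exact Or.inl (Or.inr (sub_cone hC h1))
      · exact Or.inr h1
    · intro s hs t _ hst htB
      obtain ⟨_, h2, h3, h4⟩ := (hE s).1 hs
      rcases htB with (h5 | h5) | h5
      · have h6 : s ∈ A := hA _ h5 _ hst
        rw [(un_of_lo (hAn h6)).1] at h3 h4
        exact h4 (hAC s h6 h3)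
      · exact h4 (hC _ h5 _ (un_mono hst))
      · obtain ⟨x, hx⟩ := h2
        have h6 := lo_mono hst hx
        rw [h5.2] at h6
        simp at h6
  have hdE1 : Dn (((A ∪ cone u C) ∪ DD n (cone u C)) ∪ PU n N) :=
    (hABd.union (DD_dn (cone_dn hC))).union (PU_dn n N)
  have hE1n : ((A ∪ cone u C) ∪ DD n (cone u C)) ∪ PU n N ⊆ PN (n + N) := by
    rintro s ((h1 | h1) | h1)
    · exact PN_le (by omega) (hABn h1)
    · exact DD_sub hN hBn h1
    · exact h1.1
  have h0E1 : ∅ ∈ ((A ∪ cone u C) ∪ DD n (cone u C)) ∪ PU n N :=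
    Or.inl (Or.inl (Or.inl (hCA h0)))
  constructor
  · intro h1
    have h2 : SC (n + N) (A ∪ cone u C) := SC.ge hn h1
    have h3 := sc_coll e1 hdE1 hE1n h0E1 h2
    exact ((h3.coll e12).coll e2).le (by omega)
  · intro h1
    have h2 : SC (n + N) A := SC.ge hn h1
    have h3 : SC (n + N) ((A ∪ DD n C) ∪ PU n N) := by
      refine sc_coll e2 ((hA.union (DD_dn hC)).union (PU_dn n N)) ?_ ?_ h2
      · exact (e12.sub).trans hE1n
      · exact Or.inl (Or.inl (hCA h0))
    have h4 := sc_coll e12 hdE1 hE1n h0E1 h3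
    exact (h4.coll e1).le (by omega)

end Pool.Agent.H645.Ev
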