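import Pool.Agent.H645.EC

set_option autoImplicit false

/-! Products (joins) with a complex on the vertices from 14 on. -/

namespace Pool.Agent.H645.Ev

theorem lo_ins_lo {n : ℕ} {s : Finset ℕ} {v : ℕ} (hv : v < n) :
    lo n (insert v s) = insert v (lo n s) := by
  ext x; simp only [mem_lo, Finset.mem_insert]
  constructor
  · rintro ⟨h | h, h2⟩
    · left; omega
    · exact Or.inr ⟨h, h2⟩
  · rintro (h | h)
    · exact ⟨Or.inl h, by omega⟩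
    · exact ⟨Or.inr h.1, h.2⟩

theorem lo_era_lo {n : ℕ} {s : Finset ℕ} {v : ℕ} : lo n (s.erase v) = (lo n s).erase v := by
  ext x; simp only [mem_lo, Finset.mem_erase]
  tauto

/-- the join, `W` on the vertices below 14 and `Y` on the vertices from 14 on -/
def PR (Y W : Set (Finset ℕ)) : Set (Finset ℕ) := {s | lo 14 s ∈ W ∧ up 14 s ∈ Y}

theorem PR_dn {Y W : Set (Finset ℕ)} (hY : Dn Y) (hW : Dn W) : Dn (PR Y W) := by
  rintro s ⟨h1, h2⟩ t ht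
  exact ⟨hW _ h1 _ (lo_mono ht), hY _ h2 _ (up_mono ht)⟩

theorem PR_sub {Y W : Set (Finset ℕ)} (hY : Y ⊆ PN 6) :
    PR Y W ⊆ PN 20 := by
  rintro s ⟨h1, h2⟩
  have h3 := hY h2
  rw [mem_PN] at h3 ⊢
  intro x hx
  by_cases h6 : x < 14
  · omega
  · have : x - 14 ∈ up 14 s := by
      rw [mem_up, Nat.sub_add_cancel (by omega)]
      exact hx
    have := h3 _ this
    omega

theorem PR_zero {Y W : Set (Finset ℕ)} (hY : ∅ ∈ Y) (hW : ∅ ∈ W) : ∅ ∈ PR Y W := by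
  constructor
  · have : lo 14 ∅ = ∅ := rfl
    rw [this]; exact hW
  · have : up 14 ∅ = ∅ := rfl
    rw [this]; exact hY

theorem PR_coll {Y L : Set (Finset ℕ)} (hYn : Y ⊆ PN 6) (hLn : L ⊆ PN 14)
    {s : Finset ℕ} {v : ℕ} (hv : v ∉ s) (hne : s.Nonempty) (hs : s ∈ L) (ht : insert v s ∈ L)
    (hfree : ∀ t ∈ L, s ⊆ t → t ≠ s → t = insert v s) :
    CollN (PR Y L) (PR Y (L \ {s, insert v s})) := by
  have hv14 : v < 14 := by
    have := hLn ht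
    rw [mem_PN] at this
    exact this v (Finset.mem_insert_self _ _)
  have hE : ∀ t, t ∈ PR Y L \ PR Y (L \ {s, insert v s}) ↔
      (up 14 t ∈ Y ∧ (lo 14 t = s ∨ lo 14 t = insert v s)) := by
    intro t
    constructor
    · rintro ⟨⟨h1, h2⟩, h3⟩
      refine ⟨h2, ?_⟩
      by_contra h4
      exact h3 ⟨⟨h1, h4⟩, h2⟩
    · rintro ⟨h1, h2⟩
      refine ⟨⟨?_, h1⟩, fun h3 => h3.1.2 h2⟩
      rcases h2 with h2 | h2 <;> rw [h2]
      · exact hs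
      · exact ht
  refine coll_const v _ _ ((PN_fin _).subset (PR_sub hYn)) ?_ ?_ ?_ ?_ ?_
  · rintro t ⟨h1, h2⟩
    exact ⟨h1.1, h2⟩
  · intro h
    have h2 := ((hE _).1 h).2
    have h3 : lo 14 ∅ = ∅ := rfl
    rw [h3] at h2
    rcases h2 with h2 | h2
    · rw [← h2] at hne; simp at hne
    · exact absurd h2.symm (Finset.insert_ne_empty _ _)
  · intro a ha t htL hat htK
    have h2 := ((hE _).1 ha).2
    have h3 : s ⊆ lo 14 a := by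
      rcases h2 with h2 | h2 <;> rw [h2]
      exact Finset.subset_insert _ _
    have h4 : s ⊆ lo 14 t := h3.trans (lo_mono hat)
    have h5 := htK.1
    by_cases h6 : lo 14 t = s
    · exact h5.2 (Or.inl h6)
    · exact h5.2 (Or.inr (hfree _ h5.1 h4 h6))
  · intro a ha
    obtain ⟨h1, h2⟩ := (hE _).1 ha
    rw [hE, lo_ins_lo hv14, up_ins_lo hv14]
    refine ⟨h1, Or.inr ?_⟩
    rcases h2 with h2 | h2 <;> rw [h2]
    exact Finset.insert_idem _ _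
  · intro a ha
    obtain ⟨h1, h2⟩ := (hE _).1 ha
    rw [hE, lo_era_lo, up_era_lo hv14]
    refine ⟨h1, Or.inl ?_⟩
    rcases h2 with h2 | h2 <;> rw [h2]
    · exact Finset.erase_eq_of_notMem hv
    · exact Finset.erase_insert hv

theorem PR_cone {Y C : Set (Finset ℕ)} {u : ℕ} (hu : u < 14) :
    PR Y (cone u C) = cone u (PR Y C) := by
  ext s
  show ((lo 14 s).erase u ∈ C ∧ up 14 s ∈ Y) ↔ (lo 14 (s.erase u) ∈ C ∧ up 14 (s.erase u) ∈ Y)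
  rw [lo_era_lo, up_era_lo hu]

theorem PR_union {Y A C : Set (Finset ℕ)} : PR Y (A ∪ C) = PR Y A ∪ PR Y C := by
  ext s
  show ((lo 14 s ∈ A ∨ lo 14 s ∈ C) ∧ up 14 s ∈ Y) ↔
    ((lo 14 s ∈ A ∧ up 14 s ∈ Y) ∨ (lo 14 s ∈ C ∧ up 14 s ∈ Y))
  tauto

/-- `W` is `Y`-null. -/
def NY (Y W : Set (Finset ℕ)) : Prop := SC 20 (PR Y W)

theorem ny_down {Y : Set (Finset ℕ)} (hYn : Y ⊆ PN 6) {L : Set (Finset ℕ)} (hLn : L ⊆ PN 14)
    {s : Finset ℕ} {v : ℕ} (hv : v ∉ s) (hne : s.Nonempty) (hs : s ∈ L) (ht : insert v s ∈ L)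
    (hfree : ∀ t ∈ L, s ⊆ t → t ≠ s → t = insert v s) (h : NY Y L) :
    NY Y (L \ {s, insert v s}) := SC.coll h (PR_coll hYn hLn hv hne hs ht hfree)

theorem ny_up {Y : Set (Finset ℕ)} (hYn : Y ⊆ PN 6) (hY : Dn Y) (hY0 : ∅ ∈ Y)
    {L : Set (Finset ℕ)} (hL : Dn L) (hLn : L ⊆ PN 14)
    (h0 : ∅ ∈ L) {s : Finset ℕ} {v : ℕ} (hv : v ∉ s) (hne : s.Nonempty) (hs : s ∈ L)
    (ht : insert v s ∈ L) (hfree : ∀ t ∈ L, s ⊆ t → t ≠ s → t = insert v s)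
    (h : NY Y (L \ {s, insert v s})) : NY Y L :=
  sc_coll (PR_coll hYn hLn hv hne hs ht hfree) (PR_dn hY hL) (PR_sub hYn) (PR_zero hY0 h0) h

theorem ny_glue {Y : Set (Finset ℕ)} (hYn : Y ⊆ PN 6) (hY : Dn Y) (hY0 : ∅ ∈ Y) {u : ℕ}
    (hu : u < 14) {A C : Set (Finset ℕ)}
    (hA : Dn A) (hC : Dn C) (hCA : C ⊆ A) (h0 : ∅ ∈ C)
    (huA : ∀ s ∈ A, u ∉ s) (h : NY Y C) : NY Y (A ∪ cone u C) ↔ NY Y A := by
  unfold NY
  rw [PR_union, PR_cone hu]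
  refine sc_glue (by norm_num) (by omega) (PR_dn hY hA) (PR_dn hY hC) ?_ (PR_sub hYn)
    (PR_zero hY0 h0) ?_ h
  · rintro s ⟨h1, h2⟩; exact ⟨hCA h1, h2⟩
  · rintro s ⟨h2, _⟩ h3
    exact huA _ h2 (mem_lo.2 ⟨h3, hu⟩)

end Pool.Agent.H645.Ev
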