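import Pool.Agent.H645.ED

set_option autoImplicit false

/-! A checker for sequences of expansions and collapses. -/

namespace Pool.Agent.H645.Ev

/-- `m` codes `s` -/
def Cd (m : ℕ) (s : Finset ℕ) : Prop := ∀ i, i ∈ s ↔ m.testBit i = true

theorem Cd.inj {m k : ℕ} {s : Finset ℕ} (h1 : Cd m s) (h2 : Cd k s) : m = k := by
  apply Nat.eq_of_testBit_eq
  intro i
  have := (h1 i).symm.trans (h2 i)
  exact Bool.eq_iff_iff.mpr this

theorem Cd.injs {m : ℕ} {s t : Finset ℕ} (h1 : Cd m s) (h2 : Cd m t) : s = t := by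
  ext i; exact (h1 i).trans (h2 i).symm

theorem Cd.ins {m v : ℕ} {s : Finset ℕ} (h : Cd m s) : Cd (m ||| 2 ^ v) (insert v s) := by
  intro i
  rw [Nat.testBit_or, Nat.testBit_two_pow, Finset.mem_insert, h i, Bool.or_eq_true,
    decide_eq_true_eq]
  constructor
  · rintro (h | h)
    · exact Or.inr h.symm
    · exact Or.inl h
  · rintro (h | h)
    · exact Or.inr h
    · exact Or.inl h.symm

theorem Cd.era {m v : ℕ} {s : Finset ℕ} (h : Cd m s) (hv : v ∈ s) :
    Cd (m ^^^ 2 ^ v) (s.erase v) := by
  intro i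
  rw [Nat.testBit_xor, Nat.testBit_two_pow, Finset.mem_erase, h i]
  by_cases hvi : v = i
  · subst hvi
    have := (h v).1 hv
    simp [this]
  · have : ¬ i = v := fun h => hvi h.symm
    simp [hvi, this]

theorem Cd.zero : Cd 0 ∅ := by
  intro i; simp

theorem Cd.ex (s : Finset ℕ) : ∃ m, Cd m s := by
  induction s using Finset.induction_on with
  | empty => exact ⟨0, Cd.zero⟩
  | insert a s _ ih =>
    obtain ⟨m, hm⟩ := ih
    exact ⟨_, hm.ins⟩

theorem Cd.lt {m N : ℕ} {s : Finset ℕ} (h : Cd m s) (hs : s ∈ PN N) : m < 2 ^ N := by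
  apply Nat.lt_pow_two_of_testBit
  intro i hi
  rw [mem_PN] at hs
  by_contra hc
  have h1 : m.testBit i = true := by simpa using hc
  have := hs i ((h i).2 h1)
  omega

theorem Cd.pn {m N : ℕ} {s : Finset ℕ} (h : Cd m s) (hm : m < 2 ^ N) : s ∈ PN N := by
  rw [mem_PN]
  intro i hi
  by_contra hc
  have h1 := (h i).1 hi
  have h2 : m < 2 ^ i := hm.trans_le (Nat.pow_le_pow_right (by norm_num) (by omega))
  rw [Nat.testBit_lt_two_pow h2] at h1
  exact Bool.noConfusion h1

/-- the set coded by `m` -/
theorem Cd.exs (m : ℕ) : ∃ s, Cd m s := by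
  refine ⟨(Finset.range m).filter (fun i => m.testBit i = true), fun i => ?_⟩
  rw [Finset.mem_filter, Finset.mem_range]
  constructor
  · exact fun h => h.2
  · intro h
    refine ⟨?_, h⟩
    by_contra hc
    have h2 : m < 2 ^ i := (Nat.lt_two_pow_self).trans_le (Nat.pow_le_pow_right (by norm_num) (by omega))
    rw [Nat.testBit_lt_two_pow h2] at h
    exact Bool.noConfusion h

/-- the family coded by a number -/
def fam (S : ℕ) : Set (Finset ℕ) := {s | ∃ m, Cd m s ∧ S.testBit m = true}

theorem mem_fam {S m : ℕ} {s : Finset ℕ} (h : Cd m s) : s ∈ fam S ↔ S.testBit m = true := by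
  constructor
  · rintro ⟨k, h1, h2⟩
    rw [h.inj h1]; exact h2
  · intro h2; exact ⟨m, h, h2⟩

/-- fast bit test -/
def tb (D k : ℕ) : Bool := Nat.beq (Nat.land (Nat.shiftRight D k) 1) 1

theorem tb_eq (D k : ℕ) : tb D k = D.testBit k := by
  have h : (tb D k = true) ↔ (D.testBit k = true) := by
    unfold tb
    have h0 : ∀ a b : ℕ, (Nat.beq a b = true) ↔ a = b :=
      fun a b => ⟨Nat.eq_of_beq_eq_true, fun h => by rw [h]; exact Nat.beq_refl b⟩
    rw [h0, Nat.testBit]
    have h1 : Nat.land (Nat.shiftRight D k) 1 = 1 &&& (D >>> k) := by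
      show (D >>> k) &&& 1 = 1 &&& (D >>> k)
      exact Nat.land_comm _ _
    rw [h1]
    have h2 : 1 &&& (D >>> k) = (D >>> k) % 2 := by
      rw [Nat.land_comm]; exact Nat.and_one_is_mod _
    rw [h2]
    have h3 := Nat.mod_two_eq_zero_or_one (D >>> k)
    rcases h3 with h3 | h3 <;> rw [h3] <;> simp
  exact Bool.eq_iff_iff.mpr h

/-- test all numbers below `n` -/
def tall (f : ℕ → Bool) : ℕ → Bool
  | 0 => true
  | n + 1 => and (f n) (tall f n)

theorem tall_spec {f : ℕ → Bool} : ∀ {n : ℕ}, tall f n = true → ∀ i < n, f i = true := by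
  intro n
  induction n with
  | zero => intro _ i hi; omega
  | succ n ih =>
    intro h i hi
    rw [tall, Bool.and_eq_true] at h
    rcases Nat.lt_succ_iff_lt_or_eq.mp hi with h1 | h1
    · exact ih h.2 i h1
    · rw [h1]; exact h.1

/-- one expansion by the pair coded by `a` and `a + 2 ^ v` is possible -/
def okE (N S a v : ℕ) : Bool :=
  and (and (Nat.blt 0 a) (Nat.blt v N)) (and (and (Nat.blt a (2 ^ N)) (not (tb a v)))
    (and (not (tb S a)) (tall (fun i => or (not (tb a i)) (tb S (Nat.xor (Nat.lor a (2 ^ v)) (2 ^ i)))) N)))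

/-- one collapse of the pair coded by `a` and `a + 2 ^ v` is possible -/
def okC (N S a v : ℕ) : Bool :=
  and (and (Nat.blt 0 a) (Nat.blt v N)) (and (and (Nat.blt a (2 ^ N)) (not (tb a v)))
    (and (and (tb S a) (tb S (Nat.lor a (2 ^ v))))
      (tall (fun i => or (or (tb a i) (Nat.beq i v)) (not (tb S (Nat.lor a (2 ^ i))))) N)))

/-- one step; `x = dir + 2 (v + 32 a)` -/
def stp (N S x : ℕ) : Option ℕ :=
  match Nat.beq (x % 2) 0 with
  | true => match okE N S (x / 64) ((x / 2) % 32) with
    | true => some (Nat.lor (Nat.lor S (Nat.shiftLeft 1 (x / 64)))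
        (Nat.shiftLeft 1 (Nat.lor (x / 64) (2 ^ ((x / 2) % 32)))))
    | false => none
  | false => match okC N S (x / 64) ((x / 2) % 32) with
    | true => some (Nat.xor (Nat.xor S (Nat.shiftLeft 1 (x / 64)))
        (Nat.shiftLeft 1 (Nat.lor (x / 64) (2 ^ ((x / 2) % 32)))))
    | false => none

/-- a run; the steps are the digits of `D` in base `2 ^ 28` -/
def run (N : ℕ) : ℕ → ℕ → ℕ → Option ℕ
  | 0, _, S => some S
  | k + 1, D, S => match stp N S (D % 268435456) with
    | none => none
    | some S' => run N k (Nat.shiftRight D 28) S'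

/-- A property of families which is invariant under collapses. -/
structure Inv (N : ℕ) (Φ : Set (Finset ℕ) → Prop) : Prop where
  down : ∀ (L : Set (Finset ℕ)) (s : Finset ℕ) (v : ℕ), Dn L → L ⊆ PN N → ∅ ∈ L → v ∉ s →
    s.Nonempty → s ∈ L → insert v s ∈ L → (∀ t ∈ L, s ⊆ t → t ≠ s → t = insert v s) →
    Φ L → Φ (L \ {s, insert v s})
  up : ∀ (L : Set (Finset ℕ)) (s : Finset ℕ) (v : ℕ), Dn L → L ⊆ PN N → ∅ ∈ L → v ∉ s →
    s.Nonempty → s ∈ L → insert v s ∈ L → (∀ t ∈ L, s ⊆ t → t ≠ s → t = insert v s) →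
    Φ (L \ {s, insert v s}) → Φ L

/-- good states -/
structure Good (N S : ℕ) : Prop where
  dn : Dn (fam S)
  sub : fam S ⊆ PN N
  zero : ∅ ∈ fam S

theorem stpE {N S a v : ℕ} (h : Good N S) (hok : okE N S a v = true) (S' : ℕ)
    (hS' : ∀ m, S'.testBit m = (S.testBit m || decide (a = m) || decide (a ||| 2 ^ v = m))) :
    Good N S' ∧ ∀ Φ, Inv N Φ → Φ (fam S') → Φ (fam S) := by
  unfold okE at hok
  simp only [Bool.and_eq_true, Bool.not_eq_true', tb_eq] at hok
  obtain ⟨⟨h1, h2⟩, ⟨h3, h4⟩, h5, h6⟩ := hok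
  have h1' : 0 < a := by simpa [Nat.blt_eq] using h1
  have h2' : v < N := by simpa [Nat.blt_eq] using h2
  have h3' : a < 2 ^ N := by simpa [Nat.blt_eq] using h3
  obtain ⟨s, hs⟩ := Cd.exs a
  have hv : v ∉ s := by rw [hs v, h4]; simp
  have ht := hs.ins (v := v)
  have hne : s.Nonempty := by
    rw [Finset.nonempty_iff_ne_empty]
    rintro rfl
    have := hs.inj Cd.zero
    omega
  have hsS : s ∉ fam S := by rw [mem_fam hs, h5]; simp
  have htS : insert v s ∉ fam S := fun h' => hsS (h.dn _ h' _ (Finset.subset_insert _ _))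
  have hfac : ∀ i ∈ s, (insert v s).erase i ∈ fam S := by
    intro i hi
    have hiN : i < N := by
      have := hs.pn h3'
      rw [mem_PN] at this
      exact this i hi
    have h7 := tall_spec h6 i hiN
    have h8 := (hs i).1 hi
    simp only [tb_eq, h8, Bool.not_true, Bool.false_or] at h7
    have h9 := ht.era (v := i) (Finset.mem_insert_of_mem hi)
    rw [mem_fam h9]
    exact h7
  have hfam : ∀ t, t ∈ fam S' ↔ (t ∈ fam S ∨ t = s ∨ t = insert v s) := by
    intro t
    obtain ⟨m, hm⟩ := Cd.ex t
    rw [mem_fam hm, mem_fam hm, hS']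
    simp only [Bool.or_eq_true, decide_eq_true_eq]
    constructor
    · rintro ((h7 | h7) | h7)
      · exact Or.inl h7
      · right; left; rw [← h7] at hm; exact hm.injs hs
      · right; right; rw [← h7] at hm; exact hm.injs ht
    · rintro (h7 | h7 | h7)
      · exact Or.inl (Or.inl h7)
      · rw [h7] at hm; exact Or.inl (Or.inr (hs.inj hm))
      · rw [h7] at hm; exact Or.inr (ht.inj hm)
  have hprop : ∀ t, t ⊆ insert v s → t ≠ s → t ≠ insert v s → t ∈ fam S := by
    intro t h7 h8 h9
    have h10 : ∃ i ∈ s, i ∉ t := by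
      by_contra hc
      push Not at hc
      have hst : s ⊆ t := hc
      by_cases hvt : v ∈ t
      · apply h9
        apply Finset.Subset.antisymm h7
        intro x hx
        rcases Finset.mem_insert.mp hx with rfl | hx
        · exact hvt
        · exact hst hx
      · apply h8
        apply Finset.Subset.antisymm _ hst
        intro x hx
        rcases Finset.mem_insert.mp (h7 hx) with rfl | hx'
        · exact absurd hx hvt
        · exact hx'
    obtain ⟨i, hi, hit⟩ := h10
    refine h.dn _ (hfac i hi) _ ?_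
    intro x hx
    refine Finset.mem_erase.mpr ⟨?_, h7 hx⟩
    rintro rfl; exact hit hx
  have hG : Good N S' := by
    refine ⟨?_, ?_, ?_⟩
    · intro t ht' r hr
      rw [hfam] at ht' ⊢
      rcases ht' with h7 | h7 | h7
      · exact Or.inl (h.dn _ h7 _ hr)
      · by_cases h8 : r = s
        · exact Or.inr (Or.inl h8)
        · left
          refine hprop r (hr.trans (h7 ▸ Finset.subset_insert _ _)) h8 ?_
          rintro rfl
          rw [h7] at hr
          exact hv (hr (Finset.mem_insert_self _ _))
      · by_cases h8 : r = s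
        · exact Or.inr (Or.inl h8)
        · by_cases h9 : r = insert v s
          · exact Or.inr (Or.inr h9)
          · exact Or.inl (hprop r (h7 ▸ hr) h8 h9)
    · intro t ht'
      rw [hfam] at ht'
      have h10 := hs.pn h3'
      rcases ht' with h7 | h7 | h7
      · exact h.sub h7
      · rw [h7]; exact h10
      · rw [h7, mem_PN]
        rw [mem_PN] at h10
        intro x hx
        rcases Finset.mem_insert.mp hx with rfl | hx
        · exact h2'
        · exact h10 x hx
    · rw [hfam]; exact Or.inl h.zero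
  refine ⟨hG, ?_⟩
  intro Φ hΦ hS
  have h7 := hΦ.down (fam S') s v hG.dn hG.sub hG.zero hv hne ((hfam _).2 (Or.inr (Or.inl rfl)))
    ((hfam _).2 (Or.inr (Or.inr rfl))) ?_ hS
  · have h8 : fam S' \ {s, insert v s} = fam S := by
      ext t
      rw [Set.mem_sdiff, hfam]
      simp only [Set.mem_insert_iff, Set.mem_singleton_iff, not_or]
      constructor
      · rintro ⟨h9 | h9 | h9, h10, h11⟩
        · exact h9
        · exact absurd h9 h10
        · exact absurd h9 h11
      · intro h9
        refine ⟨Or.inl h9, ?_, ?_⟩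
        · rintro rfl; exact hsS h9
        · rintro rfl; exact htS h9
    rw [h8] at h7
    exact h7
  · intro t ht' hst hts
    rw [hfam] at ht'
    rcases ht' with h9 | h9 | h9
    · exact absurd (h.dn _ h9 _ hst) hsS
    · exact absurd h9 hts
    · exact h9

theorem stpC {N S a v : ℕ} (h : Good N S) (hok : okC N S a v = true) (S' : ℕ)
    (hS' : ∀ m, S'.testBit m = ((S.testBit m ^^ decide (a = m)) ^^ decide (a ||| 2 ^ v = m))) :
    Good N S' ∧ ∀ Φ, Inv N Φ → Φ (fam S') → Φ (fam S) := by
  unfold okC at hok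
  simp only [Bool.and_eq_true, Bool.not_eq_true', tb_eq] at hok
  obtain ⟨⟨h1, h2⟩, ⟨h3, h4⟩, ⟨h5, h5'⟩, h6⟩ := hok
  have h1' : 0 < a := by simpa [Nat.blt_eq] using h1
  have h2' : v < N := by simpa [Nat.blt_eq] using h2
  have h3' : a < 2 ^ N := by simpa [Nat.blt_eq] using h3
  obtain ⟨s, hs⟩ := Cd.exs a
  have hv : v ∉ s := by rw [hs v, h4]; simp
  have ht := hs.ins (v := v)
  have hne : s.Nonempty := by
    rw [Finset.nonempty_iff_ne_empty]
    rintro rfl
    have := hs.inj Cd.zero
    omega
  have hsS : s ∈ fam S := by rw [mem_fam hs, h5]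
  have htS : insert v s ∈ fam S := by rw [mem_fam ht]; exact h5'
  have hne2 : s ≠ insert v s := fun h' => hv (h' ▸ Finset.mem_insert_self _ _)
  have hfree : ∀ t ∈ fam S, s ⊆ t → t ≠ s → t = insert v s := by
    intro t htt hst hts
    by_contra hc
    have h10 : ∃ i ∈ t, i ∉ s ∧ i ≠ v := by
      by_contra hcc
      push Not at hcc
      by_cases hvt : v ∈ t
      · apply hc
        apply Finset.Subset.antisymm
        · intro x hx
          by_cases hxs : x ∈ s
          · exact Finset.mem_insert_of_mem hxs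
          · rw [hcc x hx hxs]; exact Finset.mem_insert_self _ _
        · intro x hx
          rcases Finset.mem_insert.mp hx with rfl | hx
          · exact hvt
          · exact hst hx
      · apply hts
        apply Finset.Subset.antisymm _ hst
        intro x hx
        by_contra hxs
        exact hvt (hcc x hx hxs ▸ hx)
    obtain ⟨i, hit, his, hiv⟩ := h10
    have hiN : i < N := by
      have := h.sub htt
      rw [mem_PN] at this
      exact this i hit
    have h7 := tall_spec h6 i hiN
    have h8 : a.testBit i = false := by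
      have := (hs i).not.1 his
      simpa using this
    have h9 : Nat.beq i v = false := by
      rw [Bool.eq_false_iff]
      exact fun h' => hiv (Nat.eq_of_beq_eq_true h')
    simp only [tb_eq, h8, h9, Bool.or_false, Bool.false_or, Bool.not_eq_true'] at h7
    have h11 : insert i s ∈ fam S := by
      refine h.dn _ htt _ ?_
      intro x hx
      rcases Finset.mem_insert.mp hx with rfl | hx
      · exact hit
      · exact hst hx
    rw [mem_fam (hs.ins (v := i))] at h11
    have h12 : S.testBit (a.lor (2 ^ i)) = true := h11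
    rw [h7] at h12
    exact Bool.noConfusion h12
  have hfam : fam S' = fam S \ {s, insert v s} := by
    ext t
    obtain ⟨m, hm⟩ := Cd.ex t
    rw [Set.mem_sdiff, mem_fam hm, mem_fam hm, hS']
    simp only [Set.mem_insert_iff, Set.mem_singleton_iff, not_or]
    by_cases h7 : t = s
    · subst h7
      have h8 := hs.inj hm
      have h9 : ¬ (a ||| 2 ^ v = m) := by
        rw [← h8]
        intro h10
        rw [h10] at ht
        exact hne2 (hs.injs ht)
      have h5a : S.testBit m = true := by rw [← h8]; exact h5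
      simp [h8, h5a]
      rw [← h8]
      intro h10
      exact h9 (by rw [h10, h8])
    · by_cases h8 : t = insert v s
      · subst h8
        have h9 := ht.inj hm
        have h10 : ¬ (a = m) := by
          rintro rfl
          exact hne2 (hs.injs hm)
        have h5a : S.testBit m = true := by rw [← h9]; exact h5'
        simp [h9, h10, h5a]
      · have h9 : ¬ (a = m) := by
          rintro rfl; exact h7 (hm.injs hs)
        have h10 : ¬ (a ||| 2 ^ v = m) := by
          intro h11; rw [← h11] at hm; exact h8 (hm.injs ht)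
        simp [h9, h10, h7, h8]
  have hG : Good N S' := by
    refine ⟨?_, ?_, ?_⟩
    · rw [hfam]; exact dn_diff h.dn hfree
    · rw [hfam]; exact Set.sdiff_subset.trans h.sub
    · rw [hfam]
      refine ⟨h.zero, ?_⟩
      rintro (h7 | h7)
      · rw [← h7] at hne; simp at hne
      · exact absurd h7.symm (Finset.insert_ne_empty _ _)
  refine ⟨hG, ?_⟩
  intro Φ hΦ hS
  rw [hfam] at hS
  exact hΦ.up (fam S) s v h.dn h.sub h.zero hv hne hsS htS hfree hS

theorem stp_spec {N S x S' : ℕ} (h : Good N S) (hst : stp N S x = some S') :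
    Good N S' ∧ ∀ Φ, Inv N Φ → Φ (fam S') → Φ (fam S) := by
  unfold stp at hst
  split at hst
  · split at hst
    · rename_i h1
      have h2 := Option.some.inj hst
      refine stpE h h1 S' fun m => ?_
      rw [← h2]
      show Nat.testBit (S ||| (1 <<< (x / 64)) ||| (1 <<< (x / 64 ||| 2 ^ (x / 2 % 32)))) m = _
      rw [Nat.testBit_or, Nat.testBit_or, Nat.one_shiftLeft, Nat.one_shiftLeft,
        Nat.testBit_two_pow, Nat.testBit_two_pow]
    · exact absurd hst (by simp)
  · split at hst
    · rename_i h1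
      have h2 := Option.some.inj hst
      refine stpC h h1 S' fun m => ?_
      rw [← h2]
      show Nat.testBit (S ^^^ (1 <<< (x / 64)) ^^^ (1 <<< (x / 64 ||| 2 ^ (x / 2 % 32)))) m = _
      rw [Nat.testBit_xor, Nat.testBit_xor, Nat.one_shiftLeft, Nat.one_shiftLeft,
        Nat.testBit_two_pow, Nat.testBit_two_pow]
    · exact absurd hst (by simp)

theorem run_spec {N : ℕ} : ∀ {k D S S' : ℕ}, Good N S → run N k D S = some S' →
    Good N S' ∧ ∀ Φ, Inv N Φ → Φ (fam S') → Φ (fam S) := by
  intro k
  induction k with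
  | zero =>
    intro D S S' h hr
    have : S = S' := Option.some.inj hr
    subst this
    exact ⟨h, fun _ _ h => h⟩
  | succ k ih =>
    intro D S S' h hr
    rw [run] at hr
    split at hr
    · exact absurd hr (by simp)
    · rename_i S1 h1
      obtain ⟨h2, h3⟩ := stp_spec h h1
      obtain ⟨h4, h5⟩ := ih h2 hr
      exact ⟨h4, fun Φ hΦ h6 => h3 Φ hΦ (h5 Φ hΦ h6)⟩

/-- Checking that a state is good. -/
def okG (N S : ℕ) : Bool :=
  and (and (tb S 0) (Nat.blt S (2 ^ (2 ^ N))))
    (tall (fun m => or (not (tb S m)) (tall (fun i => or (not (tb m i)) (tb S (Nat.xor m (2 ^ i)))) N))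
      (2 ^ N))

theorem okG_spec {N S : ℕ} (h : okG N S = true) : Good N S := by
  unfold okG at h
  simp only [Bool.and_eq_true, tb_eq] at h
  obtain ⟨⟨h1, h2⟩, h3⟩ := h
  have h2' : S < 2 ^ (2 ^ N) := by simpa [Nat.blt_eq] using h2
  have hlt : ∀ m, S.testBit m = true → m < 2 ^ N := by
    intro m hm
    by_contra hc
    have h4 : S < 2 ^ m := h2'.trans_le (Nat.pow_le_pow_right (by norm_num) (by omega))
    rw [Nat.testBit_lt_two_pow h4] at hm
    exact Bool.noConfusion hm
  have hsub : fam S ⊆ PN N := by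
    rintro s ⟨m, hm, hS⟩
    exact hm.pn (hlt m hS)
  have hera : ∀ s ∈ fam S, ∀ i ∈ s, s.erase i ∈ fam S := by
    rintro s ⟨m, hm, hS⟩ i hi
    have h4 := tall_spec h3 m (hlt m hS)
    simp only [tb_eq, hS, Bool.not_true, Bool.false_or] at h4
    have hiN : i < N := by
      have := hsub ⟨m, hm, hS⟩
      rw [mem_PN] at this
      exact this i hi
    have h5 := tall_spec h4 i hiN
    simp only [tb_eq, (hm i).1 hi, Bool.not_true, Bool.false_or] at h5
    rw [mem_fam (hm.era hi)]
    exact h5
  refine ⟨?_, hsub, ?_⟩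
  · intro s hs
    induction s using Finset.strongInduction with
    | H s ih =>
      intro t ht
      by_cases h4 : t = s
      · rw [h4]; exact hs
      · obtain ⟨i, hi, hit⟩ := Finset.exists_of_ssubset (Finset.ssubset_iff_subset_ne.2 ⟨ht, h4⟩)
        refine ih (s.erase i) (Finset.erase_ssubset hi) (hera s hs i hi) t ?_
        intro x hx
        refine Finset.mem_erase.mpr ⟨?_, ht hx⟩
        rintro rfl; exact hit hx
  · rw [mem_fam Cd.zero]; exact h1

end Pool.Agent.H645.Ev
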