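import Pool.Agent.H645.EE

set_option autoImplicit false

/-! Products, cones and end states on the level of codes. -/

namespace Pool.Agent.H645.Ev

theorem inv_ny {Y : Set (Finset ℕ)} (hYn : Y ⊆ PN 6) (hY : Dn Y) (hY0 : ∅ ∈ Y) :
    Inv 14 (NY Y) where
  down := fun _ _ _ _ hLn _ hv hne hs ht hfree h => ny_down hYn hLn hv hne hs ht hfree h
  up := fun _ _ _ hL hLn h0 hv hne hs ht hfree h =>
    ny_up hYn hY hY0 hL hLn h0 hv hne hs ht hfree h

theorem inv_sc : Inv 20 (SC 20) where
  down := fun L s v _ _ _ hv hne hs ht hfree h =>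
    SC.coll h (CollN.step L _ s v hv hne hs ht hfree (CollN.refl _))
  up := fun _ _ _ hL hLn h0 hv hne hs ht hfree h => sc_step hL hLn h0 hv hne hs ht hfree h

theorem Good.bit_lt {N S m : ℕ} (h : Good N S) (hm : S.testBit m = true) : m < 2 ^ N := by
  obtain ⟨s, hs⟩ := Cd.exs m
  exact hs.lt (h.sub ((mem_fam hs).2 hm))

theorem Good.lt {N S : ℕ} (h : Good N S) : S < 2 ^ (2 ^ N) := by
  apply Nat.lt_pow_two_of_testBit
  intro i hi
  by_contra hc
  have h1 : S.testBit i = true := by simpa using hc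
  have := h.bit_lt h1
  omega

/-- the code of the product family -/
def pst (S : ℕ) : ℕ → ℕ → ℕ
  | 0, _ => 0
  | k + 1, Y => match tb Y k with
    | true => Nat.lor (Nat.shiftLeft S (16384 * k)) (pst S k Y)
    | false => pst S k Y

theorem pst_bit (S Y n : ℕ) : ∀ k, (pst S k Y).testBit n = true ↔
    ∃ y < k, Y.testBit y = true ∧ 16384 * y ≤ n ∧ S.testBit (n - 16384 * y) = true := by
  intro k
  induction k with
  | zero =>
    rw [pst]
    simp
  | succ k ih =>
    rw [pst]
    split
    · rename_i h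
      rw [tb_eq] at h
      show Nat.testBit ((S <<< (16384 * k)) ||| pst S k Y) n = true ↔ _
      rw [Nat.testBit_or, Bool.or_eq_true, ih, Nat.testBit_shiftLeft, Bool.and_eq_true,
        decide_eq_true_eq]
      constructor
      · rintro (⟨h1, h2⟩ | ⟨y, h1, h2⟩)
        · exact ⟨k, Nat.lt_succ_self k, h, h1, h2⟩
        · exact ⟨y, by omega, h2⟩
      · rintro ⟨y, h1, h2, h3, h4⟩
        by_cases h5 : y = k
        · subst h5; exact Or.inl ⟨h3, h4⟩
        · exact Or.inr ⟨y, by omega, h2, h3, h4⟩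
    · rename_i h
      rw [tb_eq] at h
      rw [ih]
      constructor
      · rintro ⟨y, h1, h2⟩
        exact ⟨y, by omega, h2⟩
      · rintro ⟨y, h1, h2, h3, h4⟩
        by_cases h5 : y = k
        · subst h5; rw [h] at h2; exact Bool.noConfusion h2
        · exact ⟨y, by omega, h2, h3, h4⟩

theorem fam_pst {S Y : ℕ} (hS : S < 2 ^ 16384) (hY : Y < 2 ^ 64) :
    fam (pst S 64 Y) = PR (fam Y) (fam S) := by
  ext s
  obtain ⟨m, hm⟩ := Cd.ex s
  have hlo : Cd (m % 2 ^ 14) (lo 14 s) := by
    intro i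
    rw [mem_lo, hm i, Nat.testBit_mod_two_pow, Bool.and_eq_true, decide_eq_true_eq]
    exact and_comm
  have hup : Cd (m / 2 ^ 14) (up 14 s) := by
    intro i
    rw [mem_up, hm (i + 14), Nat.testBit_div_two_pow]
  show _ ↔ lo 14 s ∈ fam S ∧ up 14 s ∈ fam Y
  rw [mem_fam hm, mem_fam hlo, mem_fam hup, pst_bit]
  have hb : ∀ (A k : ℕ) (l : ℕ), A < 2 ^ k → A.testBit l = true → l < k := by
    intro A k l h1 h2
    by_contra hc
    have h3 : A < 2 ^ l := h1.trans_le (Nat.pow_le_pow_right (by norm_num) (by omega))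
    rw [Nat.testBit_lt_two_pow h3] at h2
    exact Bool.noConfusion h2
  constructor
  · rintro ⟨y, h1, h2, h3, h4⟩
    have h5 := hb _ _ _ hS h4
    have h6 : m % 2 ^ 14 = m - 16384 * y := by omega
    have h7 : m / 2 ^ 14 = y := by omega
    rw [h6, h7]
    exact ⟨h4, h2⟩
  · rintro ⟨h1, h2⟩
    have h3 := hb _ _ _ hY h2
    refine ⟨m / 2 ^ 14, h3, h2, by omega, ?_⟩
    have h4 : m - 16384 * (m / 2 ^ 14) = m % 2 ^ 14 := by omega
    rw [h4]; exact h1

theorem good_pst {S Y : ℕ} (hS : Good 14 S) (hY : Good 6 Y) : Good 20 (pst S 64 Y) := by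
  have h1 : S < 2 ^ 16384 := hS.lt
  have h2 : Y < 2 ^ 64 := hY.lt
  refine ⟨?_, ?_, ?_⟩
  · rw [fam_pst h1 h2]; exact PR_dn hY.dn hS.dn
  · rw [fam_pst h1 h2]; exact PR_sub hY.sub
  · rw [fam_pst h1 h2]; exact PR_zero hY.zero hS.zero

/-- closed under the vertex 19 -/
def cls19 (S : ℕ) : Bool := Nat.beq (S % 2 ^ 524288) (Nat.shiftRight S 524288)

theorem cls19_spec {S : ℕ} (h : cls19 S = true) (m : ℕ) (hm : m < 524288) :
    S.testBit (524288 + m) = S.testBit m := by
  have h1 : S % 2 ^ 524288 = S >>> 524288 := Nat.eq_of_beq_eq_true h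
  have h2 : (S % 2 ^ 524288).testBit m = (S >>> 524288).testBit m := by rw [h1]
  rw [Nat.testBit_mod_two_pow, Nat.testBit_shiftRight, decide_eq_true hm, Bool.true_and] at h2
  exact h2.symm

theorem leaf_coll {S : ℕ} (hG : Good 20 S) (h : cls19 S = true) : CollN (PN 20) (fam S) := by
  refine coll_const 19 (PN 20) (fam S) (PN_fin 20) hG.sub (fun h' => h'.2 hG.zero) ?_ ?_ ?_
  · intro s hs t _ hst ht
    exact hs.2 (hG.dn _ ht _ hst)
  · intro s hs
    refine ⟨?_, fun ht => hs.2 (hG.dn _ ht _ (Finset.subset_insert _ _))⟩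
    have h1 := hs.1
    rw [mem_PN] at h1 ⊢
    intro x hx
    rcases Finset.mem_insert.mp hx with rfl | hx
    · norm_num
    · exact h1 x hx
  · intro s hs
    refine ⟨PN_dn 20 _ hs.1 _ (Finset.erase_subset _ _), fun ht => hs.2 ?_⟩
    by_cases h19 : 19 ∈ s
    · obtain ⟨m, hm⟩ := Cd.ex (s.erase 19)
      have hlt : m < 2 ^ 19 := by
        refine hm.lt ?_
        have h1 := hs.1
        rw [mem_PN] at h1 ⊢
        intro x hx
        have h2 := h1 x (Finset.mem_of_mem_erase hx)
        have h3 := Finset.ne_of_mem_erase hx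
        omega
      have h1 := hm.ins (v := 19)
      rw [Finset.insert_erase h19] at h1
      have h2 : m ||| 2 ^ 19 = 524288 + m := by
        have h3 := Nat.two_pow_add_eq_or_of_lt hlt 1
        rw [Nat.or_comm]
        have h4 : 2 ^ 19 * 1 + m = 524288 + m := by norm_num
        rw [← h4, h3, mul_one]
      rw [mem_fam h1, h2, cls19_spec h m hlt]
      exact (mem_fam hm).1 ht
    · rwa [Finset.erase_eq_of_notMem h19] at ht

/-- the final check -/
def leafB (k D S : ℕ) : Bool := match run 20 k D S with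
  | none => false
  | some S1 => cls19 S1

theorem leafB_spec {k D S : ℕ} (hG : Good 20 S) (h : leafB k D S = true) : SC 20 (fam S) := by
  unfold leafB at h
  split at h
  · exact absurd h (by simp)
  · rename_i S1 h1
    obtain ⟨h2, h3⟩ := run_spec hG h1
    exact h3 _ inv_sc ⟨20, le_rfl, leaf_coll h2 h⟩

theorem leaf_ny {S Y k D : ℕ} (hS : Good 14 S) (hY : Good 6 Y)
    (h : leafB k D (pst S 64 Y) = true) : NY (fam Y) (fam S) := by
  have h1 := leafB_spec (good_pst hS hY) h
  rw [fam_pst hS.lt hY.lt] at h1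
  exact h1

/-- a run with the given end -/
def runB (k D S T : ℕ) : Bool := match run 14 k D S with
  | none => false
  | some S1 => Nat.beq S1 T

theorem runB_good {k D S T : ℕ} (hS : Good 14 S) (h : runB k D S T = true) : Good 14 T := by
  unfold runB at h
  split at h
  · exact absurd h (by simp)
  · rename_i S1 h1
    have h2 := Nat.eq_of_beq_eq_true h
    rw [← h2]
    exact (run_spec hS h1).1

theorem runB_ny {Y k D S T : ℕ} (hY : Good 6 Y) (hS : Good 14 S) (h : runB k D S T = true)
    (hT : NY (fam Y) (fam T)) : NY (fam Y) (fam S) := by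
  unfold runB at h
  split at h
  · exact absurd h (by simp)
  · rename_i S1 h1
    have h2 := Nat.eq_of_beq_eq_true h
    rw [← h2] at hT
    exact (run_spec hS h1).2 _ (inv_ny hY.sub hY.dn hY.zero) hT

/-- the check for a cone -/
def glueB (M W S1 : ℕ) : Bool :=
  and (Nat.blt M (2 ^ 8192)) (and (Nat.beq (Nat.lor M W) M)
    (Nat.beq S1 (Nat.lor M (Nat.shiftLeft W 8192))))

theorem glueB_spec {M W S1 : ℕ} (hM : Good 14 M) (hW : Good 14 W) (h : glueB M W S1 = true) :
    fam W ⊆ fam M ∧ (∀ s ∈ fam M, 13 ∉ s) ∧ fam S1 = fam M ∪ cone 13 (fam W) := by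
  unfold glueB at h
  simp only [Bool.and_eq_true] at h
  obtain ⟨h1, h2, h3⟩ := h
  have h1' : M < 2 ^ 8192 := by simpa [Nat.blt_eq] using h1
  have h2' : M ||| W = M := Nat.eq_of_beq_eq_true h2
  have h3' : S1 = M ||| (W <<< 8192) := Nat.eq_of_beq_eq_true h3
  have hWM : ∀ m, W.testBit m = true → M.testBit m = true := by
    intro m hm
    rw [← h2', Nat.testBit_or, hm, Bool.or_true]
  have hlt : ∀ m, M.testBit m = true → m < 8192 := by
    intro m hm
    by_contra hc
    have h4 : M < 2 ^ m := h1'.trans_le (Nat.pow_le_pow_right (by norm_num) (by omega))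
    rw [Nat.testBit_lt_two_pow h4] at hm
    exact Bool.noConfusion hm
  have h13 : ∀ s ∈ fam M, 13 ∉ s := by
    rintro s ⟨m, hm, hS⟩ h5
    have h6 := (hm 13).1 h5
    have h7 : m < 2 ^ 13 := hlt m hS
    rw [Nat.testBit_lt_two_pow h7] at h6
    exact Bool.noConfusion h6
  refine ⟨?_, h13, ?_⟩
  · rintro s ⟨m, hm, hS⟩
    exact ⟨m, hm, hWM m hS⟩
  · ext s
    obtain ⟨m, hm⟩ := Cd.ex s
    rw [mem_fam hm, h3', Nat.testBit_or, Bool.or_eq_true, Nat.testBit_shiftLeft, Bool.and_eq_true,
      decide_eq_true_eq]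
    show _ ↔ (s ∈ fam M ∨ s.erase 13 ∈ fam W)
    rw [mem_fam hm]
    constructor
    · rintro (h4 | ⟨h4, h5⟩)
      · exact Or.inl h4
      · right
        have h6 := hlt _ (hWM _ h5)
        have h7 : m = 8192 + (m - 8192) := by omega
        have h8 : m = (m - 8192) ||| 2 ^ 13 := by
          have h9 := Nat.two_pow_add_eq_or_of_lt (i := 13) (b := m - 8192) h6 1
          rw [Nat.or_comm, ← mul_one (2 ^ 13), ← h9]
          omega
        have hm2 : Cd (m - 8192) (s.erase 13) := by
          intro i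
          rw [Finset.mem_erase, hm i]
          have h10 : m.testBit i = ((m - 8192).testBit i || decide (13 = i)) := by
            conv_lhs => rw [h8]
            rw [Nat.testBit_or, Nat.testBit_two_pow]
          rw [h10, Bool.or_eq_true, decide_eq_true_eq]
          constructor
          · rintro ⟨h11, h12 | h12⟩
            · exact h12
            · exact absurd h12.symm h11
          · intro h11
            refine ⟨?_, Or.inl h11⟩
            rintro rfl
            rw [Nat.testBit_lt_two_pow h6] at h11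
            exact Bool.noConfusion h11
        rw [mem_fam hm2]
        exact h5
    · rintro (h4 | h4)
      · exact Or.inl h4
      · by_cases h5 : 13 ∈ s
        · right
          obtain ⟨k, hk⟩ := Cd.ex (s.erase 13)
          have h6 := (mem_fam hk).1 h4
          have h7 : k < 2 ^ 13 := hlt _ (hWM _ h6)
          have h8 := hk.ins (v := 13)
          rw [Finset.insert_erase h5] at h8
          have h9 := hm.inj h8
          have h10 := Nat.two_pow_add_eq_or_of_lt (i := 13) h7 1
          rw [Nat.or_comm, ← mul_one (2 ^ 13), ← h10] at h9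
          have h11 : m - 8192 = k := by omega
          rw [h11]
          exact ⟨by omega, h6⟩
        · left
          rw [Finset.erase_eq_of_notMem h5, mem_fam hm] at h4
          exact hWM _ h4

theorem glue_ny {Y M W S1 : ℕ} (hY : Good 6 Y) (hM : Good 14 M) (hW : Good 14 W)
    (h : glueB M W S1 = true) (h1 : NY (fam Y) (fam M)) (h2 : NY (fam Y) (fam W)) :
    NY (fam Y) (fam S1) := by
  obtain ⟨h3, h4, h5⟩ := glueB_spec hM hW h
  rw [h5]
  exact (ny_glue hY.sub hY.dn hY.zero (by norm_num) hM.dn hW.dn h3 hW.zero h4 h2).2 h1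

end Pool.Agent.H645.Ev
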