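import Pool.Agent.H645.EG

set_option autoImplicit false
set_option maxRecDepth 100000

/-! Runs. -/

namespace Pool.Agent.H645.Ev

theorem run_e0 : runB 620 e0 m0 q1 = true := by decide +kernel

theorem run_e1 : runB 620 e1 q1 q2 = true := by decide +kernel

theorem run_e2 : runB 620 e2 q2 q3 = true := by decide +kernel

theorem run_e3 : runB 620 e3 q3 q4 = true := by decide +kernel

theorem run_e4 : runB 620 e4 q4 q5 = true := by decide +kernel


end Pool.Agent.H645.Ev
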