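import Pool.Agent.H645.EG

set_option autoImplicit false
set_option maxRecDepth 100000

/-! Runs. -/

namespace Pool.Agent.H645.Ev

theorem run_e5 : runB 620 e5 q5 q6 = true := by decide +kernel

theorem run_e6 : runB 620 e6 q6 q7 = true := by decide +kernel

theorem run_e7 : runB 620 e7 q7 q8 = true := by decide +kernel

theorem run_e8 : runB 620 e8 q8 q9 = true := by decide +kernel

theorem run_e9 : runB 620 e9 q9 z0 = true := by decide +kernel


end Pool.Agent.H645.Ev
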