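import Pool.Agent.H645.EG

set_option autoImplicit false
set_option maxRecDepth 100000

/-! Runs. -/

namespace Pool.Agent.H645.Ev

theorem ok_y0 : okG 6 y0 = true := by decide +kernel

theorem ok_s0 : okG 14 s0 = true := by decide +kernel

theorem ok_m0 : okG 14 m0 = true := by decide +kernel

theorem ok_w1 : okG 14 w1 = true := by decide +kernel

theorem ok_zp : okG 14 zp = true := by decide +kernel

theorem ok_p0 : okG 14 p0 = true := by decide +kernel

theorem run_r1 : runB 183 r1 s0 s1 = true := by decide +kernel

theorem run_r3 : runB 2 r3 zp c1 = true := by decide +kernel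

theorem run_r4 : runB 58 r4 p0 c2 = true := by decide +kernel

theorem run_r5 : runB 83 r5 w1 a3 = true := by decide +kernel

theorem glue1 : glueB m0 w1 s1 = true := by decide +kernel

theorem glue2 : glueB z0 zp p0 = true := by decide +kernel


end Pool.Agent.H645.Ev
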