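import Pool.Agent.H645.EG

set_option autoImplicit false
set_option maxRecDepth 100000

/-! Leaves. -/

namespace Pool.Agent.H645.Ev

theorem leafA : leafB 1216 lA (pst a3 64 y0) = true := by decide +kernel

theorem leafBB : leafB 1632 lB (pst c1 64 y0) = true := by decide +kernel

theorem leafC : leafB 1856 lC (pst c2 64 y0) = true := by decide +kernel


end Pool.Agent.H645.Ev
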