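import Pool.Agent.H645.EH
import Pool.Agent.H645.EI
import Pool.Agent.H645.EJ
import Pool.Agent.H645.EK

set_option autoImplicit false
set_option maxRecDepth 100000

/-! The product is the end of a collapse of a simplex. -/

namespace Pool.Agent.H645.Ev

theorem glue_ny' {Y M W S1 : ℕ} (hY : Good 6 Y) (hM : Good 14 M) (hW : Good 14 W)
    (h : glueB M W S1 = true) (h1 : NY (fam Y) (fam S1)) (h2 : NY (fam Y) (fam W)) :
    NY (fam Y) (fam M) := by
  obtain ⟨h3, h4, h5⟩ := glueB_spec hM hW h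
  rw [h5] at h1
  exact (ny_glue hY.sub hY.dn hY.zero (by norm_num) hM.dn hW.dn h3 hW.zero h4 h2).1 h1

theorem gy0 : Good 6 y0 := okG_spec ok_y0
theorem gs0 : Good 14 s0 := okG_spec ok_s0
theorem gm0 : Good 14 m0 := okG_spec ok_m0
theorem gw1 : Good 14 w1 := okG_spec ok_w1
theorem gzp : Good 14 zp := okG_spec ok_zp
theorem gp0 : Good 14 p0 := okG_spec ok_p0
theorem gq1 : Good 14 q1 := runB_good gm0 run_e0
theorem gq2 : Good 14 q2 := runB_good gq1 run_e1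
theorem gq3 : Good 14 q3 := runB_good gq2 run_e2
theorem gq4 : Good 14 q4 := runB_good gq3 run_e3
theorem gq5 : Good 14 q5 := runB_good gq4 run_e4
theorem gq6 : Good 14 q6 := runB_good gq5 run_e5
theorem gq7 : Good 14 q7 := runB_good gq6 run_e6
theorem gq8 : Good 14 q8 := runB_good gq7 run_e7
theorem gq9 : Good 14 q9 := runB_good gq8 run_e8
theorem gz0 : Good 14 z0 := runB_good gq9 run_e9

theorem ny_zp : NY (fam y0) (fam zp) :=
  runB_ny gy0 gzp run_r3 (leaf_ny (runB_good gzp run_r3) gy0 leafBB)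

theorem ny_p0 : NY (fam y0) (fam p0) :=
  runB_ny gy0 gp0 run_r4 (leaf_ny (runB_good gp0 run_r4) gy0 leafC)

theorem ny_w1 : NY (fam y0) (fam w1) :=
  runB_ny gy0 gw1 run_r5 (leaf_ny (runB_good gw1 run_r5) gy0 leafA)

theorem ny_z0 : NY (fam y0) (fam z0) := glue_ny' gy0 gz0 gzp glue2 ny_p0 ny_zp

theorem ny_q9 : NY (fam y0) (fam q9) := runB_ny gy0 gq9 run_e9 ny_z0
theorem ny_q8 : NY (fam y0) (fam q8) := runB_ny gy0 gq8 run_e8 ny_q9
theorem ny_q7 : NY (fam y0) (fam q7) := runB_ny gy0 gq7 run_e7 ny_q8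
theorem ny_q6 : NY (fam y0) (fam q6) := runB_ny gy0 gq6 run_e6 ny_q7
theorem ny_q5 : NY (fam y0) (fam q5) := runB_ny gy0 gq5 run_e5 ny_q6
theorem ny_q4 : NY (fam y0) (fam q4) := runB_ny gy0 gq4 run_e4 ny_q5
theorem ny_q3 : NY (fam y0) (fam q3) := runB_ny gy0 gq3 run_e3 ny_q4
theorem ny_q2 : NY (fam y0) (fam q2) := runB_ny gy0 gq2 run_e2 ny_q3
theorem ny_q1 : NY (fam y0) (fam q1) := runB_ny gy0 gq1 run_e1 ny_q2
theorem ny_m0 : NY (fam y0) (fam m0) := runB_ny gy0 gm0 run_e0 ny_q1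

theorem ny_s0 : NY (fam y0) (fam s0) :=
  runB_ny gy0 gs0 run_r1 (glue_ny gy0 gm0 gw1 glue1 ny_m0 ny_w1)

end Pool.Agent.H645.Ev
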