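import Pool.Graph.R_seed8.R282.EV.Fin

set_option autoImplicit false

/-! The general construction of transitive functions from a complex `K` which is the end of a
collapse of a simplex and a group action on `K` without fixed nonempty faces. Generalization of the
modules `H571R3/Aut885`, `R282/EV/Grp` and `R282/EV/Main` of the library. -/

namespace Pool.Agent.H645.Gp

open Pool.Agent.H571R3
open Pool.Agent.R282.EV (Gst win_gst assemble card_word shallow_all map_mul' map_one'' bit bit_mul)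
open Pool.Agent.Y825.EV (Shallow)
open Pool.Agent.H128R2.Evas (DT)

variable {n : ℕ} {K : Set (Finset (Fin n))}

/-- The map of the glued complex induced by a permutation preserving `K`, possibly swapping the
two copies. -/
noncomputable def mapPP (g : Equiv.Perm (Fin n)) (fl : Bool)
    (hg : ∀ s : Finset (Fin n), s.map g.toEmbedding ∈ K ↔ s ∈ K) (p : PP K) : PP K :=
  open Classical in
  ⟨(if p.1.2 ∈ K then false else xor fl p.1.1, p.1.2.map g.toEmbedding), by
    refine ⟨p.2.1.map, ?_⟩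
    intro h
    have h' : p.1.2 ∈ K := (hg _).mp h
    simp only [h', if_true]⟩

theorem mapPP_snd (g : Equiv.Perm (Fin n)) (fl : Bool)
    (hg : ∀ s : Finset (Fin n), s.map g.toEmbedding ∈ K ↔ s ∈ K) (p : PP K) :
    (mapPP g fl hg p).1.2 = p.1.2.map g.toEmbedding := rfl

theorem mapPP_fst_of_mem (g : Equiv.Perm (Fin n)) (fl : Bool)
    (hg : ∀ s : Finset (Fin n), s.map g.toEmbedding ∈ K ↔ s ∈ K) (p : PP K)
    (h : p.1.2 ∈ K) : (mapPP g fl hg p).1.1 = false := by
  classical
  show (if p.1.2 ∈ K then false else xor fl p.1.1) = false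
  rw [if_pos h]

theorem mapPP_fst_of_not_mem (g : Equiv.Perm (Fin n)) (fl : Bool)
    (hg : ∀ s : Finset (Fin n), s.map g.toEmbedding ∈ K ↔ s ∈ K) (p : PP K)
    (h : p.1.2 ∉ K) : (mapPP g fl hg p).1.1 = xor fl p.1.1 := by
  classical
  show (if p.1.2 ∈ K then false else xor fl p.1.1) = _
  rw [if_neg h]

theorem hg_symm (g : Equiv.Perm (Fin n))
    (hg : ∀ s : Finset (Fin n), s.map g.toEmbedding ∈ K ↔ s ∈ K) :
    ∀ s : Finset (Fin n), s.map g.symm.toEmbedding ∈ K ↔ s ∈ K := by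
  intro s
  have h := hg (s.map g.symm.toEmbedding)
  have e : (s.map g.symm.toEmbedding).map g.toEmbedding = s := by
    ext x
    simp [Finset.mem_map]
  rw [e] at h
  exact h.symm

theorem map_symm_map (g : Equiv.Perm (Fin n)) (s : Finset (Fin n)) :
    (s.map g.toEmbedding).map g.symm.toEmbedding = s := by
  ext x
  simp [Finset.mem_map]

theorem map_map_symm (g : Equiv.Perm (Fin n)) (s : Finset (Fin n)) :
    (s.map g.symm.toEmbedding).map g.toEmbedding = s := by
  ext x
  simp [Finset.mem_map]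

theorem mapPP_left (g : Equiv.Perm (Fin n)) (fl : Bool)
    (hg : ∀ s : Finset (Fin n), s.map g.toEmbedding ∈ K ↔ s ∈ K) (p : PP K) :
    mapPP g.symm fl (hg_symm g hg) (mapPP g fl hg p) = p := by
  have h2 : (mapPP g.symm fl (hg_symm g hg) (mapPP g fl hg p)).1.2 = p.1.2 := by
    rw [mapPP_snd, mapPP_snd, map_symm_map]
  apply Subtype.ext
  apply Prod.ext
  · by_cases h : p.1.2 ∈ K
    · have h' : (mapPP g fl hg p).1.2 ∈ K := by rw [mapPP_snd]; exact (hg _).mpr h
      rw [mapPP_fst_of_mem _ _ _ _ h', p.2.2 h]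
    · have h' : (mapPP g fl hg p).1.2 ∉ K := by
        rw [mapPP_snd]; exact fun h'' => h ((hg _).mp h'')
      rw [mapPP_fst_of_not_mem _ _ _ _ h', mapPP_fst_of_not_mem _ _ _ _ h]
      cases fl <;> cases p.1.1 <;> rfl
  · exact h2

theorem mapPP_right (g : Equiv.Perm (Fin n)) (fl : Bool)
    (hg : ∀ s : Finset (Fin n), s.map g.toEmbedding ∈ K ↔ s ∈ K) (p : PP K) :
    mapPP g fl hg (mapPP g.symm fl (hg_symm g hg) p) = p := by
  have h2 : (mapPP g fl hg (mapPP g.symm fl (hg_symm g hg) p)).1.2 = p.1.2 := by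
    rw [mapPP_snd, mapPP_snd, map_map_symm]
  apply Subtype.ext
  apply Prod.ext
  · by_cases h : p.1.2 ∈ K
    · have h' : (mapPP g.symm fl (hg_symm g hg) p).1.2 ∈ K := by
        rw [mapPP_snd]; exact (hg_symm g hg _).mpr h
      rw [mapPP_fst_of_mem _ _ _ _ h', p.2.2 h]
    · have h' : (mapPP g.symm fl (hg_symm g hg) p).1.2 ∉ K := by
        rw [mapPP_snd]; exact fun h'' => h ((hg_symm g hg _).mp h'')
      rw [mapPP_fst_of_not_mem _ _ _ _ h', mapPP_fst_of_not_mem _ _ _ _ h]
      cases fl <;> cases p.1.1 <;> rfl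
  · exact h2

/-- The induced permutation of the glued complex. -/
noncomputable def permPP (g : Equiv.Perm (Fin n)) (fl : Bool)
    (hg : ∀ s : Finset (Fin n), s.map g.toEmbedding ∈ K ↔ s ∈ K) : Equiv.Perm (PP K) where
  toFun := mapPP g fl hg
  invFun := mapPP g.symm fl (hg_symm g hg)
  left_inv := mapPP_left g fl hg
  right_inv := mapPP_right g fl hg

theorem permPP_cc (g : Equiv.Perm (Fin n)) (fl : Bool)
    (hg : ∀ s : Finset (Fin n), s.map g.toEmbedding ∈ K ↔ s ∈ K) (p q : PP K) :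
    cc K (permPP g fl hg p) (permPP g fl hg q) ↔ cc K p q := by
  show cc K (mapPP g fl hg p) (mapPP g fl hg q) ↔ cc K p q
  unfold cc
  rw [mapPP_snd, mapPP_snd, Finset.map_subset_map, Finset.map_subset_map, hg, hg]
  by_cases hp : p.1.2 ∈ K
  · simp only [hp, true_or, or_true, and_true]
  · by_cases hq : q.1.2 ∈ K
    · simp only [hq, or_true, and_true]
    · rw [mapPP_fst_of_not_mem _ _ _ _ hp, mapPP_fst_of_not_mem _ _ _ _ hq]
      have : ((xor fl p.1.1) = (xor fl q.1.1)) ↔ (p.1.1 = q.1.1) := by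
        cases fl <;> cases p.1.1 <;> cases q.1.1 <;> decide
      rw [this]


/-- A group acting on `Fin n` and preserving `K`. -/
structure Act (K : Set (Finset (Fin n))) where
  Γ : Type
  [grp : Group Γ]
  [fin : Finite Γ]
  ρ : Γ →* Equiv.Perm (Fin n)
  inv : ∀ g s, s.map (ρ g).toEmbedding ∈ K ↔ s ∈ K

attribute [instance] Act.grp Act.fin

theorem mapm (g h : Equiv.Perm (Fin n)) (s : Finset (Fin n)) :
    s.map (g * h).toEmbedding = (s.map h.toEmbedding).map g.toEmbedding := by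
  rw [Finset.map_map]
  rfl

/-- The action on the glued poset. -/
noncomputable def Psi (A : Act K) : A.Γ × Multiplicative (ZMod 2) →* Equiv.Perm (PP K) :=
  MonoidHom.mk' (fun x => permPP (A.ρ x.1) (bit x.2) (A.inv x.1)) (by
    rintro ⟨x, z⟩ ⟨y, w⟩
    apply Equiv.ext
    intro p
    show mapPP (A.ρ (x * y)) (bit (z * w)) (A.inv (x * y)) p =
      mapPP (A.ρ x) (bit z) (A.inv x) (mapPP (A.ρ y) (bit w) (A.inv y) p)
    have h2 : (mapPP (A.ρ (x * y)) (bit (z * w)) (A.inv (x * y)) p).1.2 =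
        (mapPP (A.ρ x) (bit z) (A.inv x) (mapPP (A.ρ y) (bit w) (A.inv y) p)).1.2 := by
      rw [mapPP_snd, mapPP_snd, mapPP_snd, ← mapm, ← map_mul]
    apply Subtype.ext
    apply Prod.ext
    · by_cases h : p.1.2 ∈ K
      · have h' : (mapPP (A.ρ y) (bit w) (A.inv y) p).1.2 ∈ K := by
          rw [mapPP_snd]; exact (A.inv y _).mpr h
        rw [mapPP_fst_of_mem _ _ _ _ h, mapPP_fst_of_mem _ _ _ _ h']
      · have h' : (mapPP (A.ρ y) (bit w) (A.inv y) p).1.2 ∉ K := by
          rw [mapPP_snd]; exact fun h'' => h ((A.inv y _).mp h'')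
        rw [mapPP_fst_of_not_mem _ _ _ _ h, mapPP_fst_of_not_mem _ _ _ _ h',
          mapPP_fst_of_not_mem _ _ _ _ h, bit_mul]
        cases bit z <;> cases bit w <;> cases p.1.1 <;> rfl
    · exact h2)

/-- The symmetry group. -/
noncomputable def H (A : Act K) : Subgroup (Equiv.Perm (PP K)) := (Psi A).range

theorem card_H (A : Act K) : Nat.card (H A) ∣ Nat.card A.Γ * 2 := by
  have h1 : Nat.card (H A) ∣ Nat.card (A.Γ × Multiplicative (ZMod 2)) :=
    Subgroup.card_range_dvd (Psi A)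
  rwa [Nat.card_prod, show Nat.card (Multiplicative (ZMod 2)) = 2 from by
    simp [Nat.card_eq_fintype_card]] at h1

theorem H_cc (A : Act K) (g : Equiv.Perm (PP K)) (hg : g ∈ H A) (p q : PP K) :
    cc K (g p) (g q) ↔ cc K p q := by
  obtain ⟨x, rfl⟩ := hg
  exact permPP_cc (A.ρ x.1) (bit x.2) (A.inv x.1) p q

/-- No nonempty face is fixed. -/
def NoFix (A : Act K) : Prop :=
  ∀ s ∈ K, s.Nonempty → ∃ g : A.Γ, s.map (A.ρ g).toEmbedding ≠ s

theorem pp_auto' (A : Act K) (hA : NoFix A) (x : PP K) :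
    ∃ g ∈ H A, g x ≠ x ∧ ¬ cc K (g x) x := by
  by_cases hx : x.1.2 ∈ K
  · obtain ⟨g, hne⟩ := hA x.1.2 hx x.2.1
    refine ⟨Psi A (g, 1), ⟨(g, 1), rfl⟩, ?_, ?_⟩
    · intro h
      apply hne
      have := congrArg (fun p : PP K => p.1.2) h
      exact this
    · rintro ⟨h, -⟩
      have h' : x.1.2.map (A.ρ g).toEmbedding ⊆ x.1.2 ∨ x.1.2 ⊆ x.1.2.map (A.ρ g).toEmbedding := h
      have hc : (x.1.2.map (A.ρ g).toEmbedding).card = x.1.2.card := Finset.card_map _
      rcases h' with h | h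
      · exact hne (Finset.eq_of_subset_of_card_le h (le_of_eq hc.symm))
      · exact hne (Finset.eq_of_subset_of_card_le h (le_of_eq hc)).symm
  · have hbt : bit (Multiplicative.ofAdd (1 : ZMod 2)) = true := by decide
    have hb : (Psi A (1, Multiplicative.ofAdd (1 : ZMod 2)) x).1.1 = !x.1.1 := by
      show (mapPP (A.ρ 1) (bit (Multiplicative.ofAdd (1 : ZMod 2))) (A.inv 1) x).1.1 = _
      rw [mapPP_fst_of_not_mem _ _ _ _ hx, hbt]
      cases x.1.1 <;> rfl
    have hs : (Psi A (1, Multiplicative.ofAdd (1 : ZMod 2)) x).1.2 =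
        x.1.2.map (A.ρ 1).toEmbedding := rfl
    refine ⟨Psi A (1, Multiplicative.ofAdd (1 : ZMod 2)), ⟨_, rfl⟩, ?_, ?_⟩
    · intro h
      rw [h] at hb
      cases hc : x.1.1 <;> rw [hc] at hb <;> exact Bool.noConfusion hb
    · rintro ⟨-, h⟩
      rcases h with h | h | h
      · rw [hb] at h
        cases hc : x.1.1 <;> rw [hc] at h <;> exact Bool.noConfusion h
      · rw [hs] at h
        exact hx ((A.inv 1 _).mp h)
      · exact hx h

theorem orbit_dvd (A : Act K) (x : PP K) :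
    (MulAction.orbit (H A) x).ncard ∣ Nat.card A.Γ * 2 := by
  rw [← MulAction.index_stabilizer]
  exact (Subgroup.index_dvd_card _).trans (card_H A)

instance finPP : Finite (PP K) :=
  inferInstanceAs (Finite {p : Bool × Finset (Fin n) // p.2.Nonempty ∧ (p.2 ∈ K → p.1 = false)})

/-- The orbits. -/
abbrev Q (A : Act K) : Type := MulAction.orbitRel.Quotient (H A) (PP K)

theorem mk_eq_iff (A : Act K) (u v : PP K) : (Quotient.mk'' u : Q A) = Quotient.mk'' v ↔
    ∃ g : Equiv.Perm (PP K), g ∈ H A ∧ g v = u := by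
  constructor
  · intro h
    have h' : (MulAction.orbitRel (H A) (PP K)) u v := Quotient.eq''.mp h
    rw [MulAction.orbitRel_apply] at h'
    obtain ⟨g, hg⟩ := h'
    exact ⟨g.1, g.2, hg⟩
  · rintro ⟨g, hg, hgv⟩
    apply Quotient.eq''.mpr
    show (MulAction.orbitRel (H A) (PP K)) u v
    rw [MulAction.orbitRel_apply]
    exact ⟨⟨g, hg⟩, hgv⟩

theorem pairwise_image (B : Act K) (g : Equiv.Perm (PP K)) (hg : g ∈ H B) (A : Set (PP K)) :
    (g '' A).Pairwise (cc K) ↔ A.Pairwise (cc K) := by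
  have hg' := H_cc B g hg
  constructor
  · intro h a ha b hb hab
    exact (hg' a b).mp (h (Set.mem_image_of_mem g ha) (Set.mem_image_of_mem g hb)
      (fun h' => hab (g.injective h')))
  · rintro h _ ⟨a, ha, rfl⟩ _ ⟨b, hb, rfl⟩ hab
    exact (hg' a b).mpr (h ha hb (fun h' => hab (by rw [h'])))

/-- The main construction: for every number `k` of types not less than the number of orbits. -/
theorem construct (hn : 0 < n) (hdn : ∀ s ∈ K, ∀ t, t ⊆ s → t ∈ K)
    (hcoll : Coll Set.univ K) (B : Act K) (hB : NoFix B) (k : ℕ) [NeZero k]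
    (hK : Nat.card (Q B) ≤ k) :
    ∃ (W : Type) (_ : Fintype W) (f : (W → Bool) → Bool) (T : DT W),
    (∃ s : ZMod k → ℕ, (∀ i, s i ∣ Nat.card B.Γ * 2) ∧ Fintype.card W = k * ∏ i, (2 * s i)) ∧ Monotone f ∧
    (∃ x y, f x ≠ f y) ∧
    (∀ i j : W, ∃ σ : Equiv.Perm W, σ i = j ∧ ∀ x : W → Bool, f (x ∘ σ) = f x) ∧
    (∀ x, T.eval x = f x) ∧ T.depth + 1 ≤ Fintype.card W := by
  classical
  haveI : Finite (Q B) := Quotient.finite _
  have hcard : Nat.card (Q B ⊕ Fin (k - Nat.card (Q B))) = Nat.card (ZMod k) := by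
    rw [Nat.card_sum, Nat.card_fin, Nat.card_zmod]
    omega
  haveI : Finite (ZMod k) := inferInstance
  obtain ⟨ε⟩ : Nonempty (Q B ⊕ Fin (k - Nat.card (Q B)) ≃ ZMod k) := Finite.card_eq.1 hcard
  let mq : PP K → Q B := fun x => Quotient.mk'' x
  let typ : PP K ⊕ Fin (k - Nat.card (Q B)) → ZMod k := Sum.elim (fun x => ε (Sum.inl (mq x)))
    (fun j => ε (Sum.inr j))
  let S : Set (PP K ⊕ Fin (k - Nat.card (Q B))) → Prop := Gst (fun A => A.Pairwise (cc K))
  have hsurj : Function.Surjective typ := by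
    intro i
    rcases hi : ε.symm i with q | j
    · obtain ⟨x, hx⟩ := Quotient.exists_rep q
      refine ⟨Sum.inl x, ?_⟩
      show ε (Sum.inl (mq x)) = i
      have : mq x = q := hx
      rw [this, ← hi, Equiv.apply_symm_apply]
    · refine ⟨Sum.inr j, ?_⟩
      show ε (Sum.inr j) = i
      rw [← hi, Equiv.apply_symm_apply]
  have hdown : ∀ A B : Set (PP K ⊕ Fin (k - Nat.card (Q B))), A ⊆ B → S B → S A := fun A B hAB hB =>
    ⟨hB.1.mono (Set.preimage_mono hAB), fun j hj => hB.2 j (hAB hj)⟩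
  have hempty : S ∅ := ⟨by simp, fun j hj => hj⟩
  have hfib : ∀ i, ¬ S {v | typ v = i} := by
    intro i hi
    obtain ⟨v, hv⟩ := hsurj i
    rcases v with x | j
    · obtain ⟨g, hg, hne, hnc⟩ := pp_auto' B hB x
      have h1 : typ (Sum.inl (g x)) = i := by
        rw [← hv]
        exact congrArg (fun q => ε (Sum.inl q)) ((mk_eq_iff B (g x) x).2 ⟨g, hg, rfl⟩)
      exact hnc (hi.1 (show g x ∈ Sum.inl ⁻¹' {v | typ v = i} from h1)
        (show x ∈ Sum.inl ⁻¹' {v | typ v = i} from hv) hne)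
    · exact hi.2 j hv
  have htr : ∀ u v, typ u = typ v → ∃ g : Equiv.Perm (PP K ⊕ Fin (k - Nat.card (Q B))), g u = v ∧
      (∀ x, typ (g x) = typ x) ∧ ∀ A, S (g '' A) ↔ S A := by
    intro u v huv
    rcases u with x | j <;> rcases v with y | j'
    · have h1 : mq y = mq x := (Sum.inl_injective (ε.injective huv)).symm
      obtain ⟨g, hg, hgx⟩ := (mk_eq_iff B y x).1 h1
      refine ⟨Equiv.sumCongr g (Equiv.refl _), ?_, ?_, ?_⟩
      · simp [hgx]
      · rintro (z | j)
        · exact congrArg (fun q => ε (Sum.inl q)) ((mk_eq_iff B (g z) z).2 ⟨g, hg, rfl⟩)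
        · rfl
      · intro A
        have e1 : Sum.inl ⁻¹' ((Equiv.sumCongr g (Equiv.refl (Fin (k - Nat.card (Q B))))) '' A) =
            g '' (Sum.inl ⁻¹' A) := by
          ext z
          constructor
          · rintro ⟨w, hw, hwz⟩
            rcases w with w | w
            · exact ⟨w, hw, Sum.inl_injective hwz⟩
            · exact absurd hwz (by simp)
          · rintro ⟨w, hw, rfl⟩
            exact ⟨Sum.inl w, hw, rfl⟩
        have e2 : ∀ j : Fin (k - Nat.card (Q B)), (Sum.inr j ∈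
            (Equiv.sumCongr g (Equiv.refl (Fin (k - Nat.card (Q B))))) '' A) ↔ Sum.inr j ∈ A := by
          intro j
          constructor
          · rintro ⟨w, hw, hwz⟩
            rcases w with w | w
            · exact absurd hwz (by simp)
            · have : w = j := Sum.inr_injective hwz
              exact this ▸ hw
          · intro hj
            exact ⟨Sum.inr j, hj, rfl⟩
        have e3 := pairwise_image B g hg (Sum.inl ⁻¹' A)
        rw [← e1] at e3
        exact and_congr e3 (forall_congr' fun j => not_congr (e2 j))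
    · exact absurd (ε.injective huv) (by simp)
    · exact absurd (ε.injective huv) (by simp)
    · have h1 : j = j' := Sum.inr_injective (ε.injective huv)
      subst h1
      exact ⟨Equiv.refl _, rfl, fun _ => rfl, fun A => by simp⟩
  have hwin : Win S ∅ ∅ := by
    have h1 : Win (fun A : Set (PP K) => A.Pairwise (cc K)) ∅ ∅ :=
      nep_win (cc K) (Asm.cc_symm K) (nep_glued hn K hdn hcoll)
    have h2 := win_gst (D := Fin (k - Nat.card (Q B))) h1
    rwa [Set.image_empty] at h2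
  obtain ⟨W, hW, f, T, hc, h1, h2, h3, h4, h5⟩ :=
    assemble typ S hsurj hdown hempty hfib htr hwin
  refine ⟨W, hW, f, T, ⟨fun i => Nat.card {v // typ v = i}, fun i => ?_, ?_⟩, h1, h2, h3, h4, h5⟩
  · obtain ⟨v, hv⟩ := hsurj i
    show Nat.card {v // typ v = i} ∣ Nat.card B.Γ * 2
    rcases v with x | j
    · have e : Nat.card {v // typ v = i} = (MulAction.orbit (H B) x).ncard := by
        rw [← Nat.card_coe_set_eq]
        refine (Nat.card_congr (Equiv.ofBijective (fun y : MulAction.orbit (H B) x =>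
          (⟨Sum.inl y.1, ?_⟩ : {v // typ v = i})) ⟨?_, ?_⟩)).symm
        · obtain ⟨y, ⟨g, hg⟩⟩ := y
          rw [← hv]
          exact congrArg (fun q => ε (Sum.inl q)) ((mk_eq_iff B y x).2 ⟨g.1, g.2, hg⟩)
        · intro y z hyz
          have := congrArg Subtype.val hyz
          exact Subtype.ext (Sum.inl_injective this)
        · rintro ⟨v, hv'⟩
          rcases v with y | j
          · have h6 : mq y = mq x := Sum.inl_injective (ε.injective (hv'.trans hv.symm))
            obtain ⟨g, hg, hgx⟩ := (mk_eq_iff B y x).1 h6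
            exact ⟨⟨y, ⟨⟨g, hg⟩, hgx⟩⟩, rfl⟩
          · exact absurd (ε.injective (hv'.trans hv.symm)) (by simp)
      rw [e]
      exact orbit_dvd B x
    · have e : Nat.card {v // typ v = i} = 1 := by
        rw [Nat.card_eq_one_iff_unique]
        refine ⟨⟨?_⟩, ⟨⟨Sum.inr j, hv⟩⟩⟩
        rintro ⟨v, hv1⟩ ⟨w, hw1⟩
        have hx : ∀ v, typ v = i → v = Sum.inr j := by
          intro v hv1
          rcases v with y | j'
          · exact absurd (ε.injective (hv1.trans hv.symm)) (by simp)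
          · have : j' = j := Sum.inr_injective (ε.injective (hv1.trans hv.symm))
            rw [this]
        exact Subtype.ext ((hx v hv1).trans (hx w hw1).symm)
      rw [e]
      exact one_dvd _
  · rw [hc, card_word]


/-- The numbers `m`. -/
theorem exists_m (hn : 0 < n) (hdn : ∀ s ∈ K, ∀ t, t ⊆ s → t ∈ K)
    (hcoll : Coll Set.univ K) (B : Act K) (hB : NoFix B) (b : ℕ) (hb : Nat.card B.Γ ∣ 6 ^ b) :
    ∃ m A : ℕ, 2 ≤ m ∧ 1 ≤ A ∧ m ∣ 6 ^ A ∧
    ∀ r j : ℕ, 1 ≤ r → Shallow (r * m ^ j) (r * (m - 1) ^ j) := by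
  obtain ⟨a, ha⟩ : ∃ a : ℕ, Nat.card (Q B) ≤ 2 ^ a :=
    ⟨Nat.card (Q B), Nat.lt_two_pow_self.le⟩
  haveI : NeZero (2 ^ a) := ⟨by positivity⟩
  obtain ⟨W, hW, f, T, ⟨s, hs, hc⟩, h1, h2, h3, h4, h5⟩ := construct hn hdn hcoll B hB (2 ^ a) ha
  obtain ⟨h6, h7⟩ := shallow_all W f T h1 h2 h3 h4 h5
  refine ⟨Fintype.card W, (a + (b + 2) * 2 ^ a) + 1, h6, by omega, ?_, h7⟩
  refine Dvd.dvd.trans ?_ (pow_dvd_pow 6 (Nat.le_succ _))
  rw [hc, pow_add]
  refine Nat.mul_dvd_mul (pow_dvd_pow_of_dvd (by norm_num) a) ?_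
  have h8 : ∏ i : ZMod (2 ^ a), (2 * s i) ∣ ∏ _i : ZMod (2 ^ a), 6 ^ (b + 2) := by
    refine Finset.prod_dvd_prod_of_dvd _ _ fun i _ => ?_
    have h9 : s i ∣ 6 ^ b * 6 := (hs i).trans (Nat.mul_dvd_mul hb (by norm_num))
    have h10 : 2 * s i ∣ 6 * (6 ^ b * 6) := Nat.mul_dvd_mul (by norm_num) h9
    have h11 : 6 * (6 ^ b * 6) = 6 ^ (b + 2) := by ring
    rwa [h11] at h10
  rwa [Finset.prod_const, Finset.card_univ, ZMod.card, ← pow_mul] at h8

end Pool.Agent.H645.Gp
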