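import Mathlib

set_option autoImplicit false

/-! Permutations preserving a block system with few small blocks: only the primes 2 and 3. -/

namespace Pool.Agent.H645.Gp

theorem dvd_six_pow {m : ℕ} (hm : 0 < m) (h : ∀ p, p.Prime → p ∣ m → p = 2 ∨ p = 3) :
    m ∣ 6 ^ m := by
  rw [← Nat.factorization_prime_le_iff_dvd hm.ne' (by positivity)]
  intro p hp
  by_cases h1 : p ∣ m
  · have h2 : m.factorization p < m := Nat.factorization_lt p hm.ne'
    have h4 : p ∣ 6 := by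
      rcases h p hp h1 with h3 | h3
      · rw [h3]; norm_num
      · rw [h3]; norm_num
    have h3 : 1 ≤ (6 : ℕ).factorization p :=
      (hp.dvd_iff_one_le_factorization (by norm_num)).1 h4
    rw [Nat.factorization_pow]
    show m.factorization p ≤ m * (6 : ℕ).factorization p
    nlinarith
  · rw [Nat.factorization_eq_zero_of_not_dvd h1]
    exact Nat.zero_le _

theorem card_smooth {G : Type*} [Group G] [Finite G] (h : ∀ g : G, g ^ 72 = 1) :
    ∃ b, Nat.card G ∣ 6 ^ b := by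
  refine ⟨Nat.card G, dvd_six_pow Nat.card_pos fun p hp hd => ?_⟩
  haveI := Fact.mk hp
  obtain ⟨g, hg⟩ := exists_prime_orderOf_dvd_card' p hd
  have h1 : p ∣ 72 := by
    rw [← hg]; exact orderOf_dvd_of_pow_eq_one (h g)
  have h2 : p ∣ 2 ^ 3 * 3 ^ 2 := by
    have : (2 ^ 3 * 3 ^ 2 : ℕ) = 72 := by norm_num
    rw [this]; exact h1
  rcases (hp.dvd_mul).1 h2 with h3 | h3
  · left
    exact (Nat.prime_dvd_prime_iff_eq hp Nat.prime_two).1 (hp.dvd_of_dvd_pow h3)
  · right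
    exact (Nat.prime_dvd_prime_iff_eq hp Nat.prime_three).1 (hp.dvd_of_dvd_pow h3)

theorem php {β : Type*} [DecidableEq β] (u : ℕ → β) (S : Finset β) (k : ℕ) (hS : S.card ≤ k)
    (hu : ∀ i, u i ∈ S) : ∃ i j, i < j ∧ j ≤ k ∧ u i = u j := by
  have hc : S.card < (Finset.range (k + 1)).card := by
    rw [Finset.card_range]; omega
  obtain ⟨i, hi, j, hj, hij, he⟩ := Finset.exists_ne_map_eq_of_card_lt_of_maps_to hc
    (fun i _ => hu i)
  rw [Finset.mem_range] at hi hj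
  rcases lt_or_gt_of_ne hij with h | h
  · exact ⟨i, j, h, by omega, he⟩
  · exact ⟨j, i, h, by omega, he.symm⟩

/-- the blocks -/
def cl (x : Fin 20) : ℕ := [0, 0, 0, 1, 1, 1, 2, 2, 2, 3, 3, 3, 4, 4, 5, 6, 7, 7, 6, 5].getD x.val 0

/-- the parts -/
def pt (x : Fin 20) : ℕ := [0, 0, 0, 0, 0, 0, 0, 0, 0, 0, 0, 0, 1, 1, 2, 2, 2, 2, 2, 2].getD x.val 0

theorem card_cl : ∀ x : Fin 20, (Finset.univ.filter (fun y => cl y = cl x)).card ≤ 3 := by
  decide

theorem card_pt : ∀ x : Fin 20,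
    ((Finset.univ.filter (fun y => pt y = pt x)).image cl).card ≤ 4 := by
  decide

variable {g : Equiv.Perm (Fin 20)}

theorem cl_pow (h1 : ∀ x y, cl (g x) = cl (g y) ↔ cl x = cl y) (i : ℕ) (x y : Fin 20) :
    cl ((g ^ i) x) = cl ((g ^ i) y) ↔ cl x = cl y := by
  induction i with
  | zero => rfl
  | succ i ih =>
    rw [pow_succ', Equiv.Perm.mul_apply, Equiv.Perm.mul_apply, h1, ih]

theorem pt_pow (h2 : ∀ x, pt (g x) = pt x) (i : ℕ) (x : Fin 20) : pt ((g ^ i) x) = pt x := by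
  induction i with
  | zero => rfl
  | succ i ih => rw [pow_succ', Equiv.Perm.mul_apply, h2, ih]

theorem cl12 (h1 : ∀ x y, cl (g x) = cl (g y) ↔ cl x = cl y) (h2 : ∀ x, pt (g x) = pt x)
    (x : Fin 20) : cl ((g ^ 12) x) = cl x := by
  obtain ⟨i, j, hij, hj, he⟩ := php (fun i => cl ((g ^ i) x)) _ 4 (card_pt x) (fun i => by
    refine Finset.mem_image_of_mem _ ?_
    rw [Finset.mem_filter]
    exact ⟨Finset.mem_univ _, pt_pow h2 i x⟩)
  obtain ⟨d, rfl⟩ : ∃ d, j = i + d := ⟨j - i, by omega⟩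
  have he' : cl ((g ^ i) x) = cl ((g ^ (i + d)) x) := he
  rw [pow_add, Equiv.Perm.mul_apply, cl_pow h1] at he'
  have h3 : ∀ k : ℕ, cl ((g ^ (d * k)) x) = cl x := by
    intro k
    induction k with
    | zero => rfl
    | succ k ih =>
      rw [Nat.mul_succ, pow_add, Equiv.Perm.mul_apply]
      rw [← ih, cl_pow h1]
      exact he'.symm
  have h4 : d = 1 ∨ d = 2 ∨ d = 3 ∨ d = 4 := by omega
  rcases h4 with rfl | rfl | rfl | rfl
  · exact h3 12
  · exact h3 6
  · exact h3 4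
  · exact h3 3

theorem pow72 (h1 : ∀ x y, cl (g x) = cl (g y) ↔ cl x = cl y) (h2 : ∀ x, pt (g x) = pt x) :
    g ^ 72 = 1 := by
  apply Equiv.ext
  intro x
  set h := g ^ 12 with hh
  have hc : ∀ i : ℕ, cl ((h ^ i) x) = cl x := by
    intro i
    induction i with
    | zero => rfl
    | succ i ih =>
      rw [pow_succ', Equiv.Perm.mul_apply, hh, cl12 h1 h2, ← hh, ih]
  obtain ⟨i, j, hij, hj, he⟩ := php (fun i => (h ^ i) x) _ 3 (card_cl x) (fun i => by
    rw [Finset.mem_filter]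
    exact ⟨Finset.mem_univ _, hc i⟩)
  obtain ⟨d, rfl⟩ : ∃ d, j = i + d := ⟨j - i, by omega⟩
  have he' : (h ^ i) x = (h ^ (i + d)) x := he
  rw [pow_add, Equiv.Perm.mul_apply] at he'
  have he2 : (h ^ d) x = x := ((h ^ i).injective he').symm
  have h3 : ∀ k : ℕ, (h ^ (d * k)) x = x := by
    intro k
    induction k with
    | zero => rfl
    | succ k ih => rw [Nat.mul_succ, pow_add, Equiv.Perm.mul_apply, he2, ih]
  have h5 : g ^ 72 = h ^ 6 := by rw [hh, ← pow_mul]
  rw [h5]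
  have h4 : d = 1 ∨ d = 2 ∨ d = 3 := by omega
  rcases h4 with rfl | rfl | rfl
  · exact h3 6
  · exact h3 3
  · exact h3 2

end Pool.Agent.H645.Gp
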