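import Pool.Agent.H645.EG
import Pool.Agent.H645.FB
import Pool.Graph.R_seed8.R282.EV.Orbs

set_option autoImplicit false
set_option maxRecDepth 100000

/-! Symmetries of the complex. -/

namespace Pool.Agent.H645.Ev

open Pool.Agent.R282.EV (actL actL_testBit)
open Pool.Agent.H645.Gp (cl pt)

/-- the complex -/
def K0 : Set (Finset ℕ) := PR (fam y0) (fam s0)

/-- the image under a list -/
theorem cd_act {m : ℕ} {s : Finset ℕ} (l : List ℕ) (f : ℕ → ℕ) (h : Cd m s)
    (hl : ∀ x ∈ s, l[x]? = some (f x)) : Cd (actL l m) (s.image f) := by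
  intro j
  rw [actL_testBit, Finset.mem_image]
  constructor
  · rintro ⟨x, hx, rfl⟩
    exact ⟨x, hl x hx, (h x).1 hx⟩
  · rintro ⟨i, hi, hm⟩
    have h1 := (h i).2 hm
    refine ⟨i, h1, ?_⟩
    rw [hl i h1] at hi
    exact Option.some.inj hi

/-- a symmetry check -/
def symB (S n : ℕ) (l : List ℕ) : Bool := tall (fun m => or (not (tb S m)) (tb S (actL l m))) n

/-- a check for faces fixed by two symmetries -/
def fixB (S n : ℕ) (l l' : List ℕ) : Bool :=
  tall (fun m => or (not (tb S m)) (or (Nat.beq m 0)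
    (or (not (Nat.beq (actL l m) m)) (not (Nat.beq (actL l' m) m))))) n

theorem symB_spec {N S : ℕ} {l : List ℕ} (hG : Good N S) (h : symB S (2 ^ N) l = true)
    {f : ℕ → ℕ} (hl : ∀ x < N, l[x]? = some (f x)) {s : Finset ℕ} (hs : s ∈ fam S) :
    s.image f ∈ fam S := by
  obtain ⟨m, hm⟩ := Cd.ex s
  have h1 := (mem_fam hm).1 hs
  have h2 := tall_spec h m (hG.bit_lt h1)
  simp only [tb_eq, h1, Bool.not_true, Bool.false_or] at h2
  have h3 := hG.sub hs
  rw [mem_PN] at h3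
  rw [mem_fam (cd_act l f hm fun x hx => hl x (h3 x hx))]
  exact h2

theorem fixB_spec {N S : ℕ} {l l' : List ℕ} (hG : Good N S) (h : fixB S (2 ^ N) l l' = true)
    {f f' : ℕ → ℕ} (hl : ∀ x < N, l[x]? = some (f x)) (hl' : ∀ x < N, l'[x]? = some (f' x))
    {s : Finset ℕ} (hs : s ∈ fam S) (hne : s.Nonempty) : s.image f ≠ s ∨ s.image f' ≠ s := by
  obtain ⟨m, hm⟩ := Cd.ex s
  have h1 := (mem_fam hm).1 hs
  have h2 := tall_spec h m (hG.bit_lt h1)
  have h0 : Nat.beq m 0 = false := by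
    rw [Bool.eq_false_iff]
    intro h'
    have h4 := Nat.eq_of_beq_eq_true h'
    rw [h4] at hm
    have := hm.injs Cd.zero
    rw [this] at hne
    simp at hne
  simp only [tb_eq, h1, h0, Bool.not_true, Bool.false_or, Bool.or_eq_true, Bool.not_eq_true'] at h2
  have h3 := hG.sub hs
  rw [mem_PN] at h3
  have h5 := cd_act l f hm fun x hx => hl x (h3 x hx)
  have h6 := cd_act l' f' hm fun x hx => hl' x (h3 x hx)
  rcases h2 with h2 | h2
  · left
    intro h'
    rw [h'] at h5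
    rw [h5.inj hm, Nat.beq_refl] at h2
    exact Bool.noConfusion h2
  · right
    intro h'
    rw [h'] at h6
    rw [h6.inj hm, Nat.beq_refl] at h2
    exact Bool.noConfusion h2

/-- compatible maps -/
structure Cp (f fw fy : ℕ → ℕ) : Prop where
  lo : ∀ x < 14, f x = fw x ∧ fw x < 14
  up : ∀ x < 6, f (x + 14) = fy x + 14

theorem lo_image {f fw fy : ℕ → ℕ} (h : Cp f fw fy) {s : Finset ℕ} (hs : s ∈ PN 20) :
    lo 14 (s.image f) = (lo 14 s).image fw := by
  rw [mem_PN] at hs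
  ext j
  rw [mem_lo, Finset.mem_image, Finset.mem_image]
  constructor
  · rintro ⟨⟨x, hx, rfl⟩, hj⟩
    by_cases hx14 : x < 14
    · exact ⟨x, mem_lo.2 ⟨hx, hx14⟩, (h.lo x hx14).1.symm⟩
    · obtain ⟨z, rfl⟩ : ∃ z, x = z + 14 := ⟨x - 14, by omega⟩
      have := hs _ hx
      have h2 := h.up z (by omega)
      omega
  · rintro ⟨x, hx, rfl⟩
    rw [mem_lo] at hx
    exact ⟨⟨x, hx.1, (h.lo x hx.2).1⟩, (h.lo x hx.2).2⟩

theorem up_image {f fw fy : ℕ → ℕ} (h : Cp f fw fy) {s : Finset ℕ} (hs : s ∈ PN 20) :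
    up 14 (s.image f) = (up 14 s).image fy := by
  rw [mem_PN] at hs
  ext j
  rw [mem_up, Finset.mem_image, Finset.mem_image]
  constructor
  · rintro ⟨x, hx, hxj⟩
    by_cases hx14 : x < 14
    · have h2 := h.lo x hx14
      omega
    · obtain ⟨z, rfl⟩ : ∃ z, x = z + 14 := ⟨x - 14, by omega⟩
      have := hs _ hx
      have h2 := h.up z (by omega)
      exact ⟨z, mem_up.2 hx, by omega⟩
  · rintro ⟨z, hz, rfl⟩
    rw [mem_up] at hz
    have := hs _ hz
    exact ⟨z + 14, hz, h.up z (by omega)⟩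

end Pool.Agent.H645.Ev
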