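import Pool.Agent.H645.FC
import Pool.Agent.H645.FA
import Pool.Agent.H645.EL

set_option autoImplicit false
set_option maxRecDepth 100000

/-! The group. -/

namespace Pool.Agent.H645.Ev

open Pool.Agent.H645.Gp (cl pt pow72 card_smooth)

def lA1 : List ℕ := [3, 4, 5, 6, 8, 7, 9, 11, 10, 0, 2, 1, 13, 12]
def lA2 : List ℕ := [0, 4, 3, 2, 1, 5]
def kA1 : List ℕ := [9, 11, 10, 0, 1, 2, 3, 5, 4, 6, 8, 7, 13, 12]
def kA2 : List ℕ := [0, 4, 3, 2, 1, 5]
def lB1 : List ℕ := [1, 2, 0, 4, 5, 3, 6, 7, 8, 10, 11, 9, 12, 13]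
def lB2 : List ℕ := [1, 2, 0, 5, 3, 4]
def kB1 : List ℕ := [2, 0, 1, 5, 3, 4, 6, 7, 8, 11, 9, 10, 12, 13]
def kB2 : List ℕ := [2, 0, 1, 4, 5, 3]

def pA : Equiv.Perm (Fin 20) where
  toFun := ![3, 4, 5, 6, 8, 7, 9, 11, 10, 0, 2, 1, 13, 12, 14, 18, 17, 16, 15, 19]
  invFun := ![9, 11, 10, 0, 1, 2, 3, 5, 4, 6, 8, 7, 13, 12, 14, 18, 17, 16, 15, 19]
  left_inv := by decide
  right_inv := by decide

def pB : Equiv.Perm (Fin 20) where
  toFun := ![1, 2, 0, 4, 5, 3, 6, 7, 8, 10, 11, 9, 12, 13, 15, 16, 14, 19, 17, 18]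
  invFun := ![2, 0, 1, 5, 3, 4, 6, 7, 8, 11, 9, 10, 12, 13, 16, 14, 15, 18, 19, 17]
  left_inv := by decide
  right_inv := by decide

/-- the value of a list -/
def vl (l : List ℕ) (x : ℕ) : ℕ := l.getD x 0

/-- the joint map -/
def vj (l l' : List ℕ) (x : ℕ) : ℕ := if x < 14 then l.getD x 0 else l'.getD (x - 14) 0 + 14

theorem cp_vj {l l' : List ℕ} (h : ∀ x < 14, vl l x < 14) : Cp (vj l l') (vl l) (vl l') where
  lo := fun x hx => ⟨if_pos hx, h x hx⟩
  up := fun x _ => by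
    have h1 : ¬ (x + 14 < 14) := by omega
    show (if x + 14 < 14 then l.getD (x + 14) 0 else l'.getD (x + 14 - 14) 0 + 14) = _
    rw [if_neg h1, Nat.add_sub_cancel]
    rfl

theorem vl_some {l : List ℕ} {n : ℕ} (hl : l.length = n) : ∀ x < n, l[x]? = some (vl l x) := by
  intro x hx
  have h1 : x < l.length := by omega
  unfold vl
  rw [List.getD_eq_getElem?_getD, List.getElem?_eq_getElem h1]
  rfl

theorem K0_sub : K0 ⊆ PN 20 := PR_sub gy0.sub

theorem K0_dn : Dn K0 := PR_dn gy0.dn gs0.dn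

theorem K0_img {l l' : List ℕ} (hl : l.length = 14) (hl' : l'.length = 6)
    (h14 : ∀ x < 14, vl l x < 14) (h1 : symB s0 (2 ^ 14) l = true)
    (h2 : symB y0 (2 ^ 6) l' = true) {s : Finset ℕ} (hs : s ∈ K0) : s.image (vj l l') ∈ K0 := by
  have h3 := K0_sub hs
  show lo 14 _ ∈ fam s0 ∧ up 14 _ ∈ fam y0
  rw [lo_image (cp_vj h14) h3, up_image (cp_vj h14) h3]
  exact ⟨symB_spec gs0 h1 (vl_some hl) hs.1, symB_spec gy0 h2 (vl_some hl') hs.2⟩

theorem sA1 : symB s0 (2 ^ 14) lA1 = true := by decide +kernel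
theorem sA2 : symB y0 (2 ^ 6) lA2 = true := by decide +kernel
theorem tA1 : symB s0 (2 ^ 14) kA1 = true := by decide +kernel
theorem tA2 : symB y0 (2 ^ 6) kA2 = true := by decide +kernel
theorem sB1 : symB s0 (2 ^ 14) lB1 = true := by decide +kernel
theorem sB2 : symB y0 (2 ^ 6) lB2 = true := by decide +kernel
theorem tB1 : symB s0 (2 ^ 14) kB1 = true := by decide +kernel
theorem tB2 : symB y0 (2 ^ 6) kB2 = true := by decide +kernel
theorem fix1 : fixB s0 (2 ^ 14) lA1 lB1 = true := by decide +kernel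
theorem fix2 : fixB y0 (2 ^ 6) lA2 lB2 = true := by decide +kernel

theorem K0_nofix {s : Finset ℕ} (hs : s ∈ K0) (hne : s.Nonempty) :
    s.image (vj lA1 lA2) ≠ s ∨ s.image (vj lB1 lB2) ≠ s := by
  have h3 := K0_sub hs
  have cA : Cp (vj lA1 lA2) (vl lA1) (vl lA2) := cp_vj (by decide)
  have cB : Cp (vj lB1 lB2) (vl lB1) (vl lB2) := cp_vj (by decide)
  by_cases h : (lo 14 s).Nonempty
  · rcases fixB_spec gs0 fix1 (vl_some (n := 14) rfl) (vl_some (n := 14) rfl) hs.1 h with h4 | h4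
    · left
      intro h5
      apply h4
      rw [← lo_image cA h3, h5]
    · right
      intro h5
      apply h4
      rw [← lo_image cB h3, h5]
  · have h6 : (up 14 s).Nonempty := by
      obtain ⟨x, hx⟩ := hne
      have h7 : ¬ x < 14 := fun h8 => h ⟨x, mem_lo.2 ⟨hx, h8⟩⟩
      refine ⟨x - 14, mem_up.2 ?_⟩
      have : x - 14 + 14 = x := by omega
      rw [this]; exact hx
    rcases fixB_spec gy0 fix2 (vl_some (n := 6) rfl) (vl_some (n := 6) rfl) hs.2 h6 with h4 | h4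
    · left
      intro h5
      apply h4
      rw [← up_image cA h3, h5]
    · right
      intro h5
      apply h4
      rw [← up_image cB h3, h5]

/-- the complex on `Fin N` -/
def KN (N : ℕ) : Set (Finset (Fin N)) := {s | s.map Fin.valEmbedding ∈ K0}

theorem map_val_img (g : Equiv.Perm (Fin 20)) (f : ℕ → ℕ) (hf : ∀ x, (g x).val = f x.val)
    (s : Finset (Fin 20)) :
    (s.map g.toEmbedding).map Fin.valEmbedding = (s.map Fin.valEmbedding).image f := by
  ext j
  rw [Finset.mem_map, Finset.mem_image]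
  constructor
  · rintro ⟨x, hx, rfl⟩
    rw [Finset.mem_map] at hx
    obtain ⟨y, hy, rfl⟩ := hx
    exact ⟨y.val, Finset.mem_map.2 ⟨y, hy, rfl⟩, (hf y).symm⟩
  · rintro ⟨x, hx, rfl⟩
    rw [Finset.mem_map] at hx
    obtain ⟨y, hy, rfl⟩ := hx
    exact ⟨g y, Finset.mem_map.2 ⟨y, hy, rfl⟩, hf y⟩

theorem iff_of {g : Equiv.Perm (Fin 20)}
    (h : ∀ s ∈ KN 20, s.map g.toEmbedding ∈ KN 20)
    (h' : ∀ s ∈ KN 20, s.map g.symm.toEmbedding ∈ KN 20) (s : Finset (Fin 20)) :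
    s.map g.toEmbedding ∈ KN 20 ↔ s ∈ KN 20 := by
  constructor
  · intro h1
    have h2 := h' _ h1
    have e : (s.map g.toEmbedding).map g.symm.toEmbedding = s := by
      ext x
      simp
    rwa [e] at h2
  · exact h s

theorem map_one20 (s : Finset (Fin 20)) :
    s.map (1 : Equiv.Perm (Fin 20)).toEmbedding = s := by
  rw [show (1 : Equiv.Perm (Fin 20)).toEmbedding = Function.Embedding.refl _ from rfl,
    Finset.map_refl]

/-- the group -/
def GG : Subgroup (Equiv.Perm (Fin 20)) where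
  carrier := {g | (∀ s : Finset (Fin 20), s.map g.toEmbedding ∈ KN 20 ↔ s ∈ KN 20) ∧
    (∀ x y, cl (g x) = cl (g y) ↔ cl x = cl y) ∧ ∀ x, pt (g x) = pt x}
  mul_mem' := by
    rintro a b ⟨ha, ha2, ha3⟩ ⟨hb, hb2, hb3⟩
    refine ⟨fun s => ?_, fun x y => ?_, fun x => ?_⟩
    · rw [Pool.Agent.H645.Gp.mapm, ha, hb]
    · rw [Equiv.Perm.mul_apply, Equiv.Perm.mul_apply, ha2, hb2]
    · rw [Equiv.Perm.mul_apply, ha3, hb3]
  one_mem' := by
    refine ⟨fun s => ?_, fun x y => Iff.rfl, fun x => rfl⟩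
    rw [map_one20]
  inv_mem' := by
    rintro a ⟨ha, ha2, ha3⟩
    refine ⟨fun s => ?_, fun x y => ?_, fun x => ?_⟩
    · have e : (s.map (a⁻¹).toEmbedding).map a.toEmbedding = s := by
        rw [← Pool.Agent.H645.Gp.mapm, mul_inv_cancel, map_one20]
      have h2 := ha (s.map (a⁻¹).toEmbedding)
      rw [e] at h2
      exact h2.symm
    · have h2 := ha2 (a⁻¹ x) (a⁻¹ y)
      have e : ∀ z, a (a⁻¹ z) = z := fun z => Equiv.apply_symm_apply a z
      rw [e, e] at h2
      exact h2.symm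
    · have h2 := ha3 (a⁻¹ x)
      have e : a (a⁻¹ x) = x := Equiv.apply_symm_apply a x
      rw [e] at h2
      exact h2.symm

theorem vA : ∀ x, (pA x).val = vj lA1 lA2 x.val := by decide
theorem vB : ∀ x, (pB x).val = vj lB1 lB2 x.val := by decide
theorem wA : ∀ x, (pA.symm x).val = vj kA1 kA2 x.val := by decide
theorem wB : ∀ x, (pB.symm x).val = vj kB1 kB2 x.val := by decide

theorem pA_mem : pA ∈ GG := by
  refine ⟨iff_of ?_ ?_, by decide +kernel, by decide +kernel⟩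
  · intro s hs
    show (s.map pA.toEmbedding).map Fin.valEmbedding ∈ K0
    rw [map_val_img pA _ vA]
    exact K0_img rfl rfl (by decide) sA1 sA2 hs
  · intro s hs
    show (s.map pA.symm.toEmbedding).map Fin.valEmbedding ∈ K0
    rw [map_val_img pA.symm _ wA]
    exact K0_img rfl rfl (by decide) tA1 tA2 hs

theorem pB_mem : pB ∈ GG := by
  refine ⟨iff_of ?_ ?_, by decide +kernel, by decide +kernel⟩
  · intro s hs
    show (s.map pB.toEmbedding).map Fin.valEmbedding ∈ K0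
    rw [map_val_img pB _ vB]
    exact K0_img rfl rfl (by decide) sB1 sB2 hs
  · intro s hs
    show (s.map pB.symm.toEmbedding).map Fin.valEmbedding ∈ K0
    rw [map_val_img pB.symm _ wB]
    exact K0_img rfl rfl (by decide) tB1 tB2 hs

theorem GG_smooth : ∃ b, Nat.card GG ∣ 6 ^ b := by
  refine card_smooth fun g => ?_
  apply Subtype.ext
  have h := g.2
  show (g.1) ^ 72 = 1
  exact pow72 h.2.1 h.2.2

end Pool.Agent.H645.Ev
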