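import Pool.Agent.H645.FD

set_option autoImplicit false

/-! The transitive functions. -/

namespace Pool.Agent.H645.Ev

open Pool.Agent.H571R3 (Coll)
open Pool.Agent.H645.Gp (Act NoFix exists_m)
open Pool.Agent.Y825.EV (Shallow)

variable {N : ℕ}

theorem pull_ex {s : Finset ℕ} (h : ∀ x ∈ s, x < N) :
    ∃ s' : Finset (Fin N), s'.map Fin.valEmbedding = s := by
  refine ⟨Finset.univ.filter (fun x => x.val ∈ s), ?_⟩
  ext j
  rw [Finset.mem_map]
  constructor
  · rintro ⟨x, hx, rfl⟩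
    exact (Finset.mem_filter.1 hx).2
  · intro hj
    exact ⟨⟨j, h j hj⟩, Finset.mem_filter.2 ⟨Finset.mem_univ _, hj⟩, rfl⟩

theorem coll_pull {L K : Set (Finset ℕ)} (h : CollN L K) : L ⊆ PN N →
    Coll {s : Finset (Fin N) | s.map Fin.valEmbedding ∈ L}
      {s : Finset (Fin N) | s.map Fin.valEmbedding ∈ K} := by
  induction h with
  | refl L => intro _; exact Coll.refl _
  | step L K s v hv hne hs ht hfree _ ih =>
    intro hL
    have hsN : ∀ x ∈ s, x < N := mem_PN.1 (hL hs)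
    have hvN : v < N := mem_PN.1 (hL ht) v (Finset.mem_insert_self _ _)
    obtain ⟨s', rfl⟩ : ∃ s' : Finset (Fin N), s'.map Fin.valEmbedding = s := pull_ex hsN
    have hinj : Function.Injective (fun s : Finset (Fin N) => s.map Fin.valEmbedding) :=
      Finset.map_injective _
    have hins : (insert (⟨v, hvN⟩ : Fin N) s').map Fin.valEmbedding =
        insert v (s'.map Fin.valEmbedding) := by
      rw [Finset.map_insert]; rfl
    have hset : {t : Finset (Fin N) | t.map Fin.valEmbedding ∈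
        L \ {s'.map Fin.valEmbedding, insert v (s'.map Fin.valEmbedding)}} =
        {t : Finset (Fin N) | t.map Fin.valEmbedding ∈ L} \ {s', insert ⟨v, hvN⟩ s'} := by
      ext t
      simp only [Set.mem_setOf_eq, Set.mem_sdiff, Set.mem_insert_iff, Set.mem_singleton_iff,
        not_or]
      rw [← hins]
      refine and_congr_right fun _ => and_congr ?_ ?_
      · exact not_congr ⟨fun h => hinj h, fun h => by rw [h]⟩
      · exact not_congr ⟨fun h => hinj h, fun h => by rw [h]⟩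
    have h2 := ih (Set.sdiff_subset.trans hL)
    rw [hset] at h2
    refine Coll.step _ _ s' ⟨v, hvN⟩ ?_ ?_ hs ?_ ?_ h2
    · intro h
      exact hv (Finset.mem_map.2 ⟨_, h, rfl⟩)
    · exact Finset.map_nonempty.1 hne
    · show (insert (⟨v, hvN⟩ : Fin N) s').map Fin.valEmbedding ∈ L
      rw [hins]; exact ht
    · intro t ht1 ht2 ht3
      have h3 := hfree _ ht1 (Finset.map_subset_map.2 ht2) (fun h => ht3 (hinj h))
      rw [← hins] at h3
      exact hinj h3

theorem pull20 (hN : 20 ≤ N) {s : Finset (Fin N)} (hs : s ∈ KN N) :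
    ∃ s' : Finset (Fin 20), s'.map (Fin.castLEEmb hN) = s ∧ s' ∈ KN 20 := by
  have h1 : s.map Fin.valEmbedding ∈ K0 := hs
  obtain ⟨s', hs'⟩ := pull_ex (N := 20) (mem_PN.1 (K0_sub h1))
  refine ⟨s', ?_, ?_⟩
  · apply Finset.map_injective Fin.valEmbedding
    rw [Finset.map_map, ← hs']
    rfl
  · show s'.map Fin.valEmbedding ∈ K0
    rw [hs']; exact h1

/-- the homomorphism -/
noncomputable def rho (hN : 20 ≤ N) : GG →* Equiv.Perm (Fin N) :=
  (Equiv.Perm.viaEmbeddingHom (Fin.castLEEmb hN)).comp GG.subtype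

theorem rho_map (hN : 20 ≤ N) (g : GG) (s' : Finset (Fin 20)) :
    (s'.map (Fin.castLEEmb hN)).map (rho hN g).toEmbedding =
      (s'.map g.1.toEmbedding).map (Fin.castLEEmb hN) := by
  rw [Finset.map_map, Finset.map_map]
  congr 1
  ext x
  show ((Equiv.Perm.viaEmbedding g.1 (Fin.castLEEmb hN)) (Fin.castLEEmb hN x)).val = _
  rw [Equiv.Perm.viaEmbedding_apply]
  rfl

theorem fwd (hN : 20 ≤ N) (g : GG) {s : Finset (Fin N)} (hs : s ∈ KN N) :
    s.map (rho hN g).toEmbedding ∈ KN N := by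
  obtain ⟨s', rfl, h2⟩ := pull20 hN hs
  rw [rho_map]
  have h3 : s'.map g.1.toEmbedding ∈ KN 20 := (g.2.1 s').2 h2
  show ((s'.map g.1.toEmbedding).map (Fin.castLEEmb hN)).map Fin.valEmbedding ∈ K0
  rw [Finset.map_map]
  exact h3

/-- the action -/
noncomputable def actN (hN : 20 ≤ N) : Act (KN N) where
  Γ := GG
  ρ := rho hN
  inv := by
    intro g s
    constructor
    · intro h
      have h2 := fwd hN g⁻¹ h
      rw [← Pool.Agent.H645.Gp.mapm, ← map_mul, inv_mul_cancel, map_one] at h2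
      have e : s.map (1 : Equiv.Perm (Fin N)).toEmbedding = s := by
        rw [show (1 : Equiv.Perm (Fin N)).toEmbedding = Function.Embedding.refl _ from rfl,
          Finset.map_refl]
      rwa [e] at h2
    · exact fwd hN g

theorem nofixN (hN : 20 ≤ N) : NoFix (actN hN) := by
  intro s hs hne
  obtain ⟨s', rfl, h2⟩ := pull20 hN hs
  have h3 : (s'.map Fin.valEmbedding).Nonempty :=
    Finset.map_nonempty.2 (Finset.map_nonempty.1 hne)
  rcases K0_nofix h2 h3 with h4 | h4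
  · refine ⟨⟨pA, pA_mem⟩, fun h5 => h4 ?_⟩
    have h6 : (s'.map (Fin.castLEEmb hN)).map (rho hN ⟨pA, pA_mem⟩).toEmbedding =
      s'.map (Fin.castLEEmb hN) := h5
    rw [rho_map] at h6
    have h7 : s'.map pA.toEmbedding = s' := Finset.map_injective _ h6
    rw [← map_val_img pA _ vA, h7]
  · refine ⟨⟨pB, pB_mem⟩, fun h5 => h4 ?_⟩
    have h6 : (s'.map (Fin.castLEEmb hN)).map (rho hN ⟨pB, pB_mem⟩).toEmbedding =
      s'.map (Fin.castLEEmb hN) := h5
    rw [rho_map] at h6
    have h7 : s'.map pB.toEmbedding = s' := Finset.map_injective _ h6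
    rw [← map_val_img pB _ vB, h7]

/-- The number `m`. -/
theorem main_m : ∃ m A : ℕ, 2 ≤ m ∧ 1 ≤ A ∧ m ∣ 6 ^ A ∧
    ∀ r j : ℕ, 1 ≤ r → Shallow (r * m ^ j) (r * (m - 1) ^ j) := by
  obtain ⟨N, hN, hc⟩ := ny_s0
  obtain ⟨b, hb⟩ := GG_smooth
  have hcoll : Coll Set.univ (KN N) := by
    have h1 := coll_pull (N := N) hc (le_refl _)
    have h2 : {s : Finset (Fin N) | s.map Fin.valEmbedding ∈ PN N} = Set.univ := by
      ext s
      simp only [Set.mem_setOf_eq, Set.mem_univ, iff_true]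
      rw [mem_PN]
      intro x hx
      rw [Finset.mem_map] at hx
      obtain ⟨y, _, rfl⟩ := hx
      exact y.2
    rw [h2] at h1
    exact h1
  have hdn : ∀ s ∈ KN N, ∀ t, t ⊆ s → t ∈ KN N := by
    intro s hs t ht
    exact K0_dn _ hs _ (Finset.map_subset_map.2 ht)
  exact exists_m (by omega) hdn hcoll (actN hN) (nofixN hN) b hb

theorem log6 : Real.log 6 ≤ 2 := by
  rw [Real.log_le_iff_le_exp (by norm_num)]
  have h1 : (2.7 : ℝ) ≤ Real.exp 1 := by linarith [Real.exp_one_gt_d9]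
  have h2 : (2.7 : ℝ) ^ 2 ≤ Real.exp 1 ^ 2 := pow_le_pow_left₀ (by norm_num) h1 2
  rw [← Real.exp_nat_mul] at h2
  norm_num at h2 ⊢
  linarith

theorem weak (m A : ℕ) (hm : 2 ≤ m) (hA : 1 ≤ A) (hmA : m ∣ 6 ^ A)
    (h : ∀ r j : ℕ, 1 ≤ r → Shallow (r * m ^ j) (r * (m - 1) ^ j)) (C n j : ℕ) (hC : 1 ≤ C)
    (hn : 1 ≤ n) (hj : A ≤ j) (hd : 6 ^ j ∣ n) (hnC : n ≤ 6 ^ (C * j)) :
    ∃ k : ℕ, Shallow n k ∧ (k : ℝ) < (n : ℝ) ^ (1 - 1 / (8 * A * C * 6 ^ A : ℝ)) := by
  set i := j / A with hi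
  have hij : A * i ≤ j := Nat.mul_div_le j A
  have hi1 : 1 ≤ i := (Nat.one_le_div_iff (by omega)).2 hj
  have hji : j ≤ 2 * A * i := by
    have h1 : j < A * (i + 1) := by
      have := Nat.lt_mul_div_succ j (show 0 < A by omega)
      simpa [hi] using this
    nlinarith
  have hmi : m ^ i ∣ n := by
    refine (pow_dvd_pow_of_dvd hmA i).trans ?_
    rw [← pow_mul]
    exact (pow_dvd_pow 6 hij).trans hd
  obtain ⟨r, hr⟩ := hmi
  have hr1 : 1 ≤ r := Nat.pos_of_ne_zero fun h0 => by simp [h0] at hr; omega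
  have hS := h r i hr1
  rw [mul_comm r (m ^ i), ← hr] at hS
  refine ⟨r * (m - 1) ^ i, hS, ?_⟩
  have hmR : (2 : ℝ) ≤ m := by exact_mod_cast hm
  have hm0 : (0 : ℝ) < m := by linarith
  have hAR : (1 : ℝ) ≤ A := by exact_mod_cast hA
  have hCR : (1 : ℝ) ≤ C := by exact_mod_cast hC
  have hB : (0 : ℝ) < 6 ^ A := by positivity
  have hmB : (m : ℝ) ≤ 6 ^ A := by exact_mod_cast Nat.le_of_dvd (by positivity) hmA
  have hn2 : 6 ≤ n := by
    have h1 : 6 ^ 1 ∣ n := (pow_dvd_pow 6 (by omega)).trans hd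
    rw [pow_one] at h1
    exact Nat.le_of_dvd (by omega) h1
  have hnR : (6 : ℝ) ≤ n := by exact_mod_cast hn2
  have hn0 : (0 : ℝ) < n := by linarith
  have hlogn : 0 < Real.log n := Real.log_pos (by linarith)
  set ε : ℝ := 1 / (8 * A * C * 6 ^ A : ℝ) with hε
  have hε0 : 0 < ε := by positivity
  -- the logarithm of `n`
  have hlog : Real.log n ≤ 2 * (C * j) := by
    have h1 : (n : ℝ) ≤ 6 ^ (C * j) := by exact_mod_cast hnC
    have h2 := Real.log_le_log hn0 h1
    rw [Real.log_pow] at h2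
    push_cast at h2
    have h3 : (0 : ℝ) ≤ (C : ℝ) * j := by positivity
    nlinarith [log6]
  have hjR : (j : ℝ) ≤ 2 * A * i := by exact_mod_cast hji
  have hkey : 2 * ε * Real.log n ≤ i / m := by
    have h1 : Real.log n ≤ 4 * C * A * i := by
      have h2 : (C : ℝ) * j ≤ C * (2 * A * i) := mul_le_mul_of_nonneg_left hjR (by linarith)
      linarith
    have h3 : 2 * ε * Real.log n ≤ 2 * ε * (4 * C * A * i) :=
      mul_le_mul_of_nonneg_left h1 (by positivity)
    have h4 : 2 * ε * (4 * C * A * i) = i / 6 ^ A := by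
      rw [hε]
      field_simp
      ring
    rw [h4] at h3
    refine h3.trans ?_
    gcongr
  -- the number of queries
  have hcast : ((r * (m - 1) ^ i : ℕ) : ℝ) = n * (1 - 1 / m) ^ i := by
    rw [Nat.cast_mul, Nat.cast_pow, Nat.cast_sub (by omega), Nat.cast_one, hr]
    push_cast
    have e : (1 - 1 / (m : ℝ)) = (m - 1) / m := by field_simp
    rw [e, div_pow]
    field_simp
  rw [hcast]
  have hexp : (1 - 1 / (m : ℝ)) ^ i ≤ Real.exp (-(i / m)) := by
    have h1 : 1 - 1 / (m : ℝ) ≤ Real.exp (-(1 / m)) := by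
      have := Real.add_one_le_exp (-(1 / (m : ℝ)))
      linarith
    have h0 : 0 ≤ 1 - 1 / (m : ℝ) := by
      rw [sub_nonneg, div_le_one hm0]
      linarith
    have h2 := pow_le_pow_left₀ h0 h1 i
    rw [← Real.exp_nat_mul] at h2
    refine h2.trans (le_of_eq ?_)
    congr 1
    ring
  calc (n : ℝ) * (1 - 1 / m) ^ i ≤ n * Real.exp (-(i / m)) :=
        mul_le_mul_of_nonneg_left hexp hn0.le
    _ ≤ n * Real.exp (-(2 * ε * Real.log n)) := by
        refine mul_le_mul_of_nonneg_left (Real.exp_le_exp.2 ?_) hn0.le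
        linarith
    _ = (n : ℝ) ^ (1 - 2 * ε) := by
        rw [Real.rpow_def_of_pos hn0, mul_sub, mul_one, sub_eq_add_neg, Real.exp_add,
          Real.exp_log hn0]
        congr 2
        ring
    _ < (n : ℝ) ^ (1 - ε) := by
        apply Real.rpow_lt_rpow_of_exponent_lt (by linarith)
        linarith

end Pool.Agent.H645.Ev
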