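import Pool.Agent.H645.FA

set_option autoImplicit false

/-! Solvable groups acting on words. -/

namespace Pool.Agent.H645.Gp

open Group (isSolvable_of_ker_le_range isSolvable_of_comm isSolvable_of_surjective)

/-- Powers of solvable groups are solvable. -/
theorem pi_solv {ι P : Type} [Group P] [Group.IsSolvable P] : Group.IsSolvable (ι → P) := by
  obtain ⟨n, hn⟩ := (inferInstance : Group.IsSolvable P).solvable
  refine ⟨⟨n, ?_⟩⟩
  have key : ∀ m, derivedSeries (ι → P) m ≤ Subgroup.pi Set.univ (fun _ => derivedSeries P m) := by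
    intro m
    induction m with
    | zero =>
      intro x _
      rw [Subgroup.mem_pi]
      intro i _
      exact Subgroup.mem_top _
    | succ m ih =>
      rw [derivedSeries_succ, Subgroup.commutator_le]
      intro a ha b hb
      have ha' := ih ha
      have hb' := ih hb
      rw [Subgroup.mem_pi] at ha' hb' ⊢
      intro i hi
      rw [derivedSeries_succ]
      exact Subgroup.commutator_mem_commutator (ha' i hi) (hb' i hi)
  rw [eq_bot_iff]
  intro x hx
  have h0 := key n hx
  rw [Subgroup.mem_pi] at h0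
  rw [Subgroup.mem_bot]
  funext i
  have h1 := h0 i (Set.mem_univ i)
  rw [hn] at h1
  exact Subgroup.mem_bot.1 h1

section wr

variable (k : ℕ) (P : Type) [Group P]

/-- shift of a function -/
def shf (s : Multiplicative (ZMod k)) : (ZMod k → P) ≃* (ZMod k → P) where
  toFun g := fun c => g (c + Multiplicative.toAdd s)
  invFun g := fun c => g (c - Multiplicative.toAdd s)
  left_inv g := by
    funext c
    show g (c - Multiplicative.toAdd s + Multiplicative.toAdd s) = g c
    rw [sub_add_cancel]
  right_inv g := by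
    funext c
    show g (c + Multiplicative.toAdd s - Multiplicative.toAdd s) = g c
    rw [add_sub_cancel_right]
  map_mul' _ _ := rfl

/-- the shift action -/
def shfHom : Multiplicative (ZMod k) →* MulAut (ZMod k → P) :=
  MonoidHom.mk' (shf k P) (by
    intro s t
    apply MulEquiv.ext
    intro g
    funext c
    show g (c + Multiplicative.toAdd (s * t)) =
      g (c + Multiplicative.toAdd s + Multiplicative.toAdd t)
    rw [toAdd_mul, add_assoc])

/-- the wreath product with a cyclic group -/
abbrev Wr : Type := (ZMod k → P) ⋊[shfHom k P] Multiplicative (ZMod k)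

instance wr_solv [Group.IsSolvable P] : Group.IsSolvable (Wr k P) := by
  have : Group.IsSolvable (ZMod k → P) := pi_solv
  exact isSolvable_of_ker_le_range (SemidirectProduct.inl (φ := shfHom k P))
    (SemidirectProduct.rightHom (φ := shfHom k P))
    (le_of_eq SemidirectProduct.range_inl_eq_ker_rightHom.symm)

end wr

section word

open Pool.Agent.H571R3 Pool.Agent.H571R3.SYM128
open Pool.Agent.R282.EV (bit bit_mul)

variable {V : Type} {k : ℕ} {typ : V → ZMod k} {A : Type} [Group A]

/-- the letters' group -/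
abbrev LG (A : Type) : Type := A × Multiplicative (ZMod 2)

/-- the action on words, coordinatewise -/
def actH (ρ : A →* Equiv.Perm V) (hρ : ∀ a x, typ (ρ a x) = typ x) :
    (ZMod k → LG A) →* Equiv.Perm (Word typ) :=
  MonoidHom.mk' (fun g => act (fun c => ρ (g c).1) (fun c x => hρ _ x) (fun c => bit (g c).2)) (by
    intro g h
    apply Equiv.ext
    intro w
    apply Subtype.ext
    funext c
    show (ρ (g c * h c).1 (w.1 c).1, xor (w.1 c).2 (bit (g c * h c).2)) =
      (ρ (g c).1 (ρ (h c).1 (w.1 c).1), xor (xor (w.1 c).2 (bit (h c).2)) (bit (g c).2))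
    apply Prod.ext
    · show ρ ((g c).1 * (h c).1) (w.1 c).1 = _
      rw [map_mul]
      rfl
    · show xor (w.1 c).2 (bit ((g c).2 * (h c).2)) = xor (xor (w.1 c).2 (bit (h c).2)) (bit (g c).2)
      rw [bit_mul]
      cases (w.1 c).2 <;> cases bit (g c).2 <;> cases bit (h c).2 <;> rfl)

/-- the rotations of words -/
def rotH : Multiplicative (ZMod k) →* Equiv.Perm (Word typ) :=
  MonoidHom.mk' (fun s => rot (Multiplicative.toAdd s)) (by
    intro s t
    apply Equiv.ext
    intro w
    apply Subtype.ext
    funext c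
    show w.1 (c + Multiplicative.toAdd (s * t)) =
      w.1 (c + Multiplicative.toAdd s + Multiplicative.toAdd t)
    rw [toAdd_mul, add_assoc])

theorem wr_compat (ρ : A →* Equiv.Perm V) (hρ : ∀ a x, typ (ρ a x) = typ x)
    (s : Multiplicative (ZMod k)) :
    (actH ρ hρ).comp (shfHom k (LG A) s).toMonoidHom =
      (MulAut.conj (rotH (typ := typ) s)).toMonoidHom.comp (actH ρ hρ) := by
  apply MonoidHom.ext
  intro g
  apply Equiv.ext
  intro w
  apply Subtype.ext
  funext c
  show (ρ (g (c + Multiplicative.toAdd s)).1 (w.1 c).1,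
      xor (w.1 c).2 (bit (g (c + Multiplicative.toAdd s)).2)) =
    (ρ (g (c + Multiplicative.toAdd s)).1
        (w.1 (c + Multiplicative.toAdd s - Multiplicative.toAdd s)).1,
      xor (w.1 (c + Multiplicative.toAdd s - Multiplicative.toAdd s)).2
        (bit (g (c + Multiplicative.toAdd s)).2))
  rw [add_sub_cancel_right]

/-- the action of the wreath product on words -/
def wrH (ρ : A →* Equiv.Perm V) (hρ : ∀ a x, typ (ρ a x) = typ x) :
    Wr k (LG A) →* Equiv.Perm (Word typ) :=
  SemidirectProduct.lift (actH ρ hρ) rotH (wr_compat ρ hρ)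

theorem wrH_apply (ρ : A →* Equiv.Perm V) (hρ : ∀ a x, typ (ρ a x) = typ x) (x : Wr k (LG A)) :
    wrH ρ hρ x = act (fun c => ρ (x.left c).1) (fun c y => hρ _ y) (fun c => bit (x.left c).2) *
      rot (Multiplicative.toAdd x.right) := rfl

theorem wr_inv (ρ : A →* Equiv.Perm V) (hρ : ∀ a x, typ (ρ a x) = typ x) (S : Set V → Prop)
    (hS : ∀ a (X : Set V), S (ρ a '' X) ↔ S X) (x : Wr k (LG A)) (X : Set (Word typ)) :
    BigF typ S (wrH ρ hρ x '' X) ↔ BigF typ S X := by
  rw [wrH_apply]
  have hX : ((act (fun c => ρ (x.left c).1) (fun c y => hρ _ y) (fun c => bit (x.left c).2) *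
      rot (Multiplicative.toAdd x.right) : Equiv.Perm (Word typ))) '' X =
      act (fun c => ρ (x.left c).1) (fun c y => hρ _ y) (fun c => bit (x.left c).2) ''
        (rot (Multiplicative.toAdd x.right) '' X) := by
    rw [Set.image_image]
    rfl
  rw [hX]
  constructor
  · rintro ⟨c, hc⟩
    rw [missing_act, hS, missing_rot] at hc
    exact ⟨_, hc⟩
  · rintro ⟨c, hc⟩
    refine ⟨c - Multiplicative.toAdd x.right, ?_⟩
    rw [missing_act, hS, missing_rot]
    simpa using hc

theorem bit_ex (b : Bool) : ∃ z : Multiplicative (ZMod 2), bit z = b := by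
  cases b
  · exact ⟨Multiplicative.ofAdd 0, by decide⟩
  · exact ⟨Multiplicative.ofAdd 1, by decide⟩

theorem wr_trans (ρ : A →* Equiv.Perm V) (hρ : ∀ a x, typ (ρ a x) = typ x)
    (htr : ∀ u v, typ u = typ v → ∃ a, ρ a u = v) (w w' : Word typ) :
    ∃ x : Wr k (LG A), wrH ρ hρ x w = w' := by
  let s : ZMod k := typ (w'.1 0).1 - typ (w.1 0).1
  have hty : ∀ c, typ ((rot s w).1 c).1 = typ (w'.1 c).1 := by
    intro c
    show typ (w.1 (c + s)).1 = _
    rw [w.2, w'.2]
    simp only [s]
    ring
  choose g hg using fun c => htr ((rot s w).1 c).1 (w'.1 c).1 (hty c)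
  choose z hz using fun c : ZMod k => bit_ex (xor ((rot s w).1 c).2 (w'.1 c).2)
  refine ⟨⟨fun c => (g c, z c), Multiplicative.ofAdd s⟩, ?_⟩
  rw [wrH_apply]
  apply Subtype.ext
  funext c
  show (ρ (g c) ((rot s w).1 c).1, xor ((rot s w).1 c).2 (bit (z c))) = w'.1 c
  apply Prod.ext
  · exact hg c
  · show xor ((rot s w).1 c).2 (bit (z c)) = (w'.1 c).2
    rw [hz]
    cases ((rot s w).1 c).2 <;> cases (w'.1 c).2 <;> rfl

end word

end Pool.Agent.H645.Gp
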