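import Pool.Graph.R_seed8.Y825.EV.Many

set_option autoImplicit false

/-! Definition: shallow monotone functions invariant under transitive solvable groups of derived
length at most 3.
(`DT`, `DT.eval`, `DT.depth`: the decision trees of the library, `H128R2/Evas/Win.lean`.) -/

namespace Pool.Agent.H645.Gp

open Pool.Agent.H128R2.Evas (DT)

/-- There is a non-constant monotone Boolean function `f` of `n` variables which is invariant under
a transitive group `Γ` of permutations of the variables, solvable of derived length at most three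
(`Γ''' = 1`), and which is computed by a deterministic decision tree of depth at most `k`, i.e.
`D(f) ≤ k`. -/
def SShallow (n k : ℕ) : Prop :=
  ∃ f : (Fin n → Bool) → Bool, Monotone f ∧ (∃ x y, f x ≠ f y) ∧
    (∃ Γ : Subgroup (Equiv.Perm (Fin n)), derivedSeries Γ 3 = ⊥ ∧
      (∀ i j : Fin n, ∃ σ ∈ Γ, σ i = j) ∧ ∀ σ ∈ Γ, ∀ x : Fin n → Bool, f (x ∘ σ) = f x) ∧
    ∃ T : DT (Fin n), (∀ x, T.eval x = f x) ∧ T.depth ≤ k

end Pool.Agent.H645.Gp
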