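import Pool.Agent.H645.FK
import Pool.Agent.H645.SDef

set_option autoImplicit false

/-! Monotone functions invariant under transitive solvable groups. -/

namespace Pool.Agent.H645.Gp

open Pool.Agent.H571R3
open Pool.Agent.R282.EV (Gst win_gst card_word)
open Pool.Agent.Y825.EV (orTree eval_orTree depth_orTree orF orF_iff)
open Pool.Agent.H128R2.Evas (DT PV pow pow_mono pow_const pow_tree card_PV)

/-- A solvable group of derived length at most 3 acts transitively on the variables of `f` and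
preserves `f`. -/
def STr (V : Type) (f : (V → Bool) → Bool) : Prop :=
  ∃ (Γ : Type) (_ : Group Γ) (_ : derivedSeries Γ 3 = ⊥) (ρ : Γ →* Equiv.Perm V),
    (∀ i j, ∃ g, ρ g i = j) ∧ ∀ g x, f (x ∘ ρ g) = f x

theorem STr.pow {V : Type} {f : (V → Bool) → Bool} (h : STr V f) :
    ∀ k, STr (PV V k) (pow f k)
  | 0 => by
    refine ⟨Unit, inferInstance, dl_mono (dl_comm fun a b => rfl) (by norm_num), 1,
      fun i j => ⟨1, rfl⟩, fun g x => rfl⟩
  | k + 1 => by
    obtain ⟨Γ, i1, i2, ρ, h1, h2⟩ := h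
    obtain ⟨Γ', j1, j2, ρ', h1', h2'⟩ := STr.pow ⟨Γ, i1, i2, ρ, h1, h2⟩ k
    refine ⟨Γ × Γ', inferInstance, dl_prod i2 j2, MonoidHom.mk' (fun g =>
      (Equiv.prodCongr (ρ g.1) (ρ' g.2) : Equiv.Perm (V × PV V k))) ?_, ?_, ?_⟩
    · intro g g'
      apply Equiv.ext
      intro x
      show (ρ (g.1 * g'.1) x.1, ρ' (g.2 * g'.2) x.2) = (ρ g.1 (ρ g'.1 x.1), ρ' g.2 (ρ' g'.2 x.2))
      rw [map_mul, map_mul]
      rfl
    · intro i j
      obtain ⟨g, hg⟩ := h1 i.1 j.1
      obtain ⟨g', hg'⟩ := h1' i.2 j.2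
      refine ⟨(g, g'), ?_⟩
      show (ρ g i.1, ρ' g' i.2) = j
      rw [hg, hg']
      rfl
    · rintro ⟨g, g'⟩ x
      show f (fun v => Pool.Agent.H128R2.Evas.pow f k (fun w => x (PV.cons (ρ g v) (ρ' g' w)))) =
        f (fun v => Pool.Agent.H128R2.Evas.pow f k (fun w => x (PV.cons v w)))
      have e : (fun v => Pool.Agent.H128R2.Evas.pow f k (fun w => x (PV.cons (ρ g v) (ρ' g' w)))) =
          (fun v => Pool.Agent.H128R2.Evas.pow f k (fun w => x (PV.cons v w))) ∘ ρ g := by
        funext v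
        exact h2' g' (fun w => x (PV.cons (ρ g v) w))
      rw [e, h2]

/-- the cyclic group acting on `Fin r` -/
def cyc (r : ℕ) : Multiplicative (Fin (r + 1)) →* Equiv.Perm (Fin (r + 1)) :=
  MonoidHom.mk' (fun s => Equiv.addLeft (Multiplicative.toAdd s)) (by
    intro s t
    apply Equiv.ext
    intro x
    show Multiplicative.toAdd (s * t) + x = Multiplicative.toAdd s + (Multiplicative.toAdd t + x)
    rw [toAdd_mul, add_assoc])

theorem STr.or {V : Type} {f : (V → Bool) → Bool} (h : STr V f) (r : ℕ) :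
    STr (Fin (r + 1) × V) (orF (r + 1) f) := by
  obtain ⟨Γ, i1, i2, ρ, h1, h2⟩ := h
  refine ⟨Multiplicative (Fin (r + 1)) × Γ, inferInstance,
      dl_prod (dl_mono (dl_comm fun a b => mul_comm a b) (by norm_num)) i2, MonoidHom.mk' (fun g =>
      (Equiv.prodCongr (cyc r g.1) (ρ g.2) : Equiv.Perm (Fin (r + 1) × V))) ?_, ?_, ?_⟩
  · intro g g'
    apply Equiv.ext
    intro x
    show (cyc r (g.1 * g'.1) x.1, ρ (g.2 * g'.2) x.2) =
      (cyc r g.1 (cyc r g'.1 x.1), ρ g.2 (ρ g'.2 x.2))
    rw [map_mul, map_mul]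
    rfl
  · intro i j
    obtain ⟨g, hg⟩ := h1 i.2 j.2
    refine ⟨(Multiplicative.ofAdd (j.1 - i.1), g), ?_⟩
    show (j.1 - i.1 + i.1, ρ g i.2) = j
    rw [hg, sub_add_cancel]
  · rintro ⟨s, g⟩ x
    rw [Bool.eq_iff_iff, orF_iff, orF_iff]
    constructor
    · rintro ⟨l, hl⟩
      refine ⟨cyc r s l, ?_⟩
      rw [← h2 g (fun w => x (cyc r s l, w)), ← hl]
      rfl
    · rintro ⟨l, hl⟩
      refine ⟨(cyc r s).symm l, ?_⟩
      rw [← h2 g (fun w => x (l, w))] at hl
      rw [← hl]
      have e : ∀ w, (x ∘ (Equiv.prodCongr (cyc r s) (ρ g))) ((cyc r s).symm l, w) = x (l, ρ g w) := by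
        intro w
        show x (cyc r s ((cyc r s).symm l), ρ g w) = _
        rw [Equiv.apply_symm_apply]
      exact congrArg f (funext e)

/-- Transport along a bijection. -/
theorem sshallow_of_type {W : Type} [Fintype W] {n k : ℕ} (hn : Fintype.card W = n)
    (f : (W → Bool) → Bool) (hm : Monotone f) (hnc : ∃ x y, f x ≠ f y)
    (htr : STr W f)
    (T : DT W) (hT : ∀ x, T.eval x = f x) (hd : T.depth ≤ k) : SShallow n k := by
  let e : W ≃ Fin n := Fintype.equivFinOfCardEq hn
  refine ⟨fun x => f (fun w => x (e w)), fun x y h => hm (fun w => h (e w)), ?_, ?_,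
    DT.map e T, fun x => ?_, ?_⟩
  · obtain ⟨x, y, h⟩ := hnc
    exact ⟨fun i => x (e.symm i), fun i => y (e.symm i), by simpa using h⟩
  · obtain ⟨Γ, i1, i2, ρ, h1, h2⟩ := htr
    let τ : Γ →* Equiv.Perm (Fin n) := (e.permCongrHom.toMonoidHom).comp ρ
    have hτ : ∀ g w, τ g (e w) = e (ρ g w) := by
      intro g w
      show e (ρ g (e.symm (e w))) = _
      rw [Equiv.symm_apply_apply]
    refine ⟨τ.range, dl_surj τ.rangeRestrict τ.rangeRestrict_surjective i2, ?_, ?_⟩
    · intro i j
      obtain ⟨g, hg⟩ := h1 (e.symm i) (e.symm j)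
      refine ⟨τ g, ⟨g, rfl⟩, ?_⟩
      have := hτ g (e.symm i)
      rw [Equiv.apply_symm_apply, hg, Equiv.apply_symm_apply] at this
      exact this
    · rintro _ ⟨g, rfl⟩ x
      have h3 := h2 g (fun w => x (e w))
      refine Eq.trans ?_ h3
      have h4 : (fun w => (x ∘ τ g) (e w)) = (fun w => x (e w)) ∘ ρ g := by
        funext w
        show x (τ g (e w)) = x (e (ρ g w))
        rw [hτ]
      exact congrArg f h4
  · rw [DT.eval_map, hT]
  · rw [DT.depth_map]
    exact hd

/-- The disjunction of `r` copies. -/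
theorem sshallow_or {W : Type} [Fintype W] (r : ℕ) (hr : 1 ≤ r) {k : ℕ}
    (f : (W → Bool) → Bool) (hm : Monotone f)
    (h0 : f (fun _ => false) = false) (h1 : f (fun _ => true) = true)
    (htr : STr W f)
    (T : DT W) (hT : ∀ x, T.eval x = f x) (hd : T.depth ≤ k) :
    SShallow (r * Fintype.card W) (r * k) := by
  classical
  obtain ⟨r, rfl⟩ : ∃ q, r = q + 1 := ⟨r - 1, by omega⟩
  have hg := orF_iff (W := W) (r + 1) f
  refine sshallow_of_type (W := Fin (r + 1) × W) (by rw [Fintype.card_prod, Fintype.card_fin])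
    (orF (r + 1) f) ?_ ?_ (htr.or r)
    (DT.subst (fun i => DT.map (fun w => (i, w)) T) (orTree (List.finRange (r + 1)))) ?_ ?_
  · intro x y hxy
    rw [Bool.le_iff_imp]
    intro h
    obtain ⟨i, hi⟩ := (hg x).1 h
    refine (hg y).2 ⟨i, ?_⟩
    have h2 := hm (show (fun w => x (i, w)) ≤ (fun w => y (i, w)) from fun w => hxy (i, w))
    rw [hi] at h2
    exact top_le_iff.mp h2
  · refine ⟨fun _ => false, fun _ => true, ?_⟩
    intro h
    obtain ⟨i, hi⟩ := (hg (fun _ => false)).1 (h.trans ((hg (fun _ => true)).2 ⟨⟨0, by omega⟩, h1⟩))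
    rw [h0] at hi
    exact Bool.false_ne_true hi
  · intro x
    rw [DT.eval_subst, eval_orTree]
    show (List.finRange (r + 1)).any _ = (List.finRange (r + 1)).any _
    congr 1
    funext i
    rw [DT.eval_map, hT]
  · refine (DT.depth_subst _ k ?_ _).trans ?_
    · intro i
      rw [DT.depth_map]
      exact hd
    · rw [depth_orTree, List.length_finRange]

/-- From one nonevasive function to all the functions needed. -/
theorem sshallow_all (W : Type) [Fintype W] (f : (W → Bool) → Bool) (T : DT W) (hm : Monotone f)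
    (hnc : ∃ x y, f x ≠ f y) (htr : STr W f)
    (hT : ∀ x, T.eval x = f x) (hd : T.depth + 1 ≤ Fintype.card W) :
    2 ≤ Fintype.card W ∧
      ∀ r j : ℕ, 1 ≤ r → SShallow (r * Fintype.card W ^ j) (r * (Fintype.card W - 1) ^ j) := by
  have hdep : 1 ≤ T.depth := by
    obtain ⟨x, y, hxy⟩ := hnc
    cases T with
    | leaf b => exact absurd ((hT x).symm.trans (hT y)) hxy
    | node v t0 t1 => simp [DT.depth]
  have hf0 : f (fun _ => false) = false := by
    by_contra h
    have h' : f (fun _ => false) = true := by simpa using h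
    have hall : ∀ x, f x = true := fun x => by
      have h2 := hm (show (fun _ => false) ≤ x from fun _ => Bool.false_le _)
      rw [h'] at h2
      exact top_le_iff.mp h2
    obtain ⟨x, y, hxy⟩ := hnc
    exact hxy ((hall x).trans (hall y).symm)
  have hf1 : f (fun _ => true) = true := by
    by_contra h
    have h' : f (fun _ => true) = false := by simpa using h
    have hall : ∀ x, f x = false := fun x => by
      have h2 := hm (show x ≤ (fun _ => true) from fun _ => Bool.le_true _)
      rw [h'] at h2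
      exact le_bot_iff.mp h2
    obtain ⟨x, y, hxy⟩ := hnc
    exact hxy ((hall x).trans (hall y).symm)
  refine ⟨by omega, fun r j hr => ?_⟩
  obtain ⟨t, ht, htd⟩ := pow_tree f T hT j
  have := sshallow_or (W := PV W j) r hr (k := (Fintype.card W - 1) ^ j) (pow f j) (pow_mono f hm j)
    (pow_const f false hf0 j) (pow_const f true hf1 j) (htr.pow j) t ht
    (htd.trans (Nat.pow_le_pow_left (by omega) _))
  rwa [card_PV] at this

end Pool.Agent.H645.Gp
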