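import Pool.Agent.H645.FG

set_option autoImplicit false

/-! The main construction with solvable groups. -/

namespace Pool.Agent.H645.Gp

open Pool.Agent.H571R3
open Pool.Agent.R282.EV (Gst win_gst card_word)
open Pool.Agent.H128R2.Evas (DT)

/-- Assembly: a nonevasive complex with transitive types gives a transitive function. -/
theorem assembleS {V A : Type} [Group A] (hA : derivedSeries A 2 = ⊥) [Finite V] {k : ℕ} [NeZero k] (typ : V → ZMod k) (S : Set V → Prop)
    (hsurj : Function.Surjective typ) (hdown : ∀ A B : Set V, A ⊆ B → S B → S A)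
    (hempty : S ∅) (hfib : ∀ i, ¬ S {v | typ v = i})
    (ρ : A →* Equiv.Perm V) (hρ : ∀ a x, typ (ρ a x) = typ x)
    (hS : ∀ a (X : Set V), S (ρ a '' X) ↔ S X) (htr : ∀ u v, typ u = typ v → ∃ a, ρ a u = v)
    (hwin : Win S ∅ ∅) : ∃ (W : Type) (_ : Fintype W) (f : (W → Bool) → Bool)
    (T : Pool.Agent.H128R2.Evas.DT W), Fintype.card W = Nat.card (Word typ) ∧ Monotone f ∧
    (∃ x y, f x ≠ f y) ∧
    STr W f ∧
    (∀ x, T.eval x = f x) ∧ T.depth + 1 ≤ Fintype.card W := by
  classical
  have hred := reduction typ S hsurj hdown hfib hwin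
  haveI : Finite (Word typ) := by unfold Word; infer_instance
  haveI : Fintype (Word typ) := Fintype.ofFinite _
  obtain ⟨t, ht, hdep⟩ := win_tree (BigF typ S) hred
  refine ⟨Word typ, inferInstance, fun x => decide (BigF typ S {w | x w = true}),
    t, (Nat.card_eq_fintype_card).symm, ?_, ?_, ?_, ?_, hdep⟩
  · intro x y hxy
    by_cases h : BigF typ S {w | x w = true}
    · have h2 : BigF typ S {w | y w = true} := by
        refine bigF_mono typ _ hdown ?_ h
        intro w hw
        have h3 := hxy w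
        have hw' : x w = true := hw
        rw [hw'] at h3
        exact top_le_iff.mp h3
      simp only [h, h2, decide_true, le_refl]
    · simp only [h, decide_false]
      exact bot_le
  · refine ⟨fun _ => true, fun _ => false, ?_⟩
    have h1 : BigF typ S {w | (fun _ : Word typ => true) w = true} := by
      have : {w : Word typ | (fun _ : Word typ => true) w = true} = Set.univ := by
        ext w; simp
      rw [this]
      exact bigF_univ typ _ hsurj hempty
    have h2 : ¬ BigF typ S {w | (fun _ : Word typ => false) w = true} := by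
      have : {w : Word typ | (fun _ : Word typ => false) w = true} = ∅ := by
        ext w; simp
      rw [this]
      exact bigF_empty typ _ hdown hfib
    intro h3
    have h4 := (decide_eq_true h1).symm.trans (h3.trans (decide_eq_false h2))
    exact Bool.noConfusion h4
  · refine ⟨Wr k (LG A), inferInstance,
      dl_wr k (dl_prod hA (dl_mono (dl_comm fun a b => mul_comm a b) (by norm_num))), wrH ρ hρ,
      wr_trans ρ hρ htr, fun y x => ?_⟩
    have himg : wrH ρ hρ y '' {u | (x ∘ wrH ρ hρ y) u = true} = {u | x u = true} := by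
      ext u
      constructor
      · rintro ⟨v, hv, rfl⟩
        exact hv
      · intro hu
        refine ⟨(wrH ρ hρ y).symm u, ?_, (wrH ρ hρ y).apply_symm_apply u⟩
        show x (wrH ρ hρ y ((wrH ρ hρ y).symm u)) = true
        rw [(wrH ρ hρ y).apply_symm_apply]
        exact hu
    have h3 := wr_inv ρ hρ S hS y {u | (x ∘ wrH ρ hρ y) u = true}
    rw [himg] at h3
    exact (decide_eq_decide.mpr h3.symm)
  · intro x
    have h1 := ht x
    by_cases h : BigF typ S {w | x w = true}
    · rw [h1.mpr h]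
      exact (decide_eq_true h).symm
    · cases h4 : t.eval x with
      | false => exact (decide_eq_false h).symm
      | true => exact absurd (h1.mp h4) h


variable {n : ℕ} {K : Set (Finset (Fin n))}

/-- The main construction: for every number `k` of types not less than the number of orbits. -/
theorem constructS (hn : 0 < n) (hdn : ∀ s ∈ K, ∀ t, t ⊆ s → t ∈ K)
    (hcoll : Coll Set.univ K) (B : Act K) (hB : NoFix B) (hsol : derivedSeries B.Γ 2 = ⊥) (k : ℕ)
    [NeZero k]
    (hK : Nat.card (Q B) ≤ k) :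
    ∃ (W : Type) (_ : Fintype W) (f : (W → Bool) → Bool) (T : DT W),
    (∃ s : ZMod k → ℕ, (∀ i, s i ∣ Nat.card B.Γ * 2) ∧ Fintype.card W = k * ∏ i, (2 * s i)) ∧ Monotone f ∧
    (∃ x y, f x ≠ f y) ∧
    STr W f ∧
    (∀ x, T.eval x = f x) ∧ T.depth + 1 ≤ Fintype.card W := by
  classical
  haveI : Finite (Q B) := Quotient.finite _
  have hcard : Nat.card (Q B ⊕ Fin (k - Nat.card (Q B))) = Nat.card (ZMod k) := by
    rw [Nat.card_sum, Nat.card_fin, Nat.card_zmod]
    omega
  haveI : Finite (ZMod k) := inferInstance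
  obtain ⟨ε⟩ : Nonempty (Q B ⊕ Fin (k - Nat.card (Q B)) ≃ ZMod k) := Finite.card_eq.1 hcard
  let mq : PP K → Q B := fun x => Quotient.mk'' x
  let typ : PP K ⊕ Fin (k - Nat.card (Q B)) → ZMod k := Sum.elim (fun x => ε (Sum.inl (mq x)))
    (fun j => ε (Sum.inr j))
  let S : Set (PP K ⊕ Fin (k - Nat.card (Q B))) → Prop := Gst (fun A => A.Pairwise (cc K))
  have hsurj : Function.Surjective typ := by
    intro i
    rcases hi : ε.symm i with q | j
    · obtain ⟨x, hx⟩ := Quotient.exists_rep q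
      refine ⟨Sum.inl x, ?_⟩
      show ε (Sum.inl (mq x)) = i
      have : mq x = q := hx
      rw [this, ← hi, Equiv.apply_symm_apply]
    · refine ⟨Sum.inr j, ?_⟩
      show ε (Sum.inr j) = i
      rw [← hi, Equiv.apply_symm_apply]
  have hdown : ∀ A B : Set (PP K ⊕ Fin (k - Nat.card (Q B))), A ⊆ B → S B → S A := fun A B hAB hB =>
    ⟨hB.1.mono (Set.preimage_mono hAB), fun j hj => hB.2 j (hAB hj)⟩
  have hempty : S ∅ := ⟨by simp, fun j hj => hj⟩
  have hfib : ∀ i, ¬ S {v | typ v = i} := by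
    intro i hi
    obtain ⟨v, hv⟩ := hsurj i
    rcases v with x | j
    · obtain ⟨g, hg, hne, hnc⟩ := pp_auto' B hB x
      have h1 : typ (Sum.inl (g x)) = i := by
        rw [← hv]
        exact congrArg (fun q => ε (Sum.inl q)) ((mk_eq_iff B (g x) x).2 ⟨g, hg, rfl⟩)
      exact hnc (hi.1 (show g x ∈ Sum.inl ⁻¹' {v | typ v = i} from h1)
        (show x ∈ Sum.inl ⁻¹' {v | typ v = i} from hv) hne)
    · exact hi.2 j hv
  have hHB : derivedSeries (H B) 2 = ⊥ :=
    dl_surj (Psi B).rangeRestrict (Psi B).rangeRestrict_surjective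
      (dl_prod hsol (dl_mono (dl_comm fun a b => mul_comm a b) (by norm_num)))
  let ρ : H B →* Equiv.Perm (PP K ⊕ Fin (k - Nat.card (Q B))) :=
    MonoidHom.mk' (fun g => Equiv.sumCongr g.1 (Equiv.refl _)) (by
      intro g h
      apply Equiv.ext
      rintro (z | j)
      · rfl
      · rfl)
  have hρ : ∀ a x, typ (ρ a x) = typ x := by
    rintro a (z | j)
    · exact congrArg (fun q => ε (Sum.inl q)) ((mk_eq_iff B (a.1 z) z).2 ⟨a.1, a.2, rfl⟩)
    · rfl
  have hS : ∀ a (X : Set (PP K ⊕ Fin (k - Nat.card (Q B)))), S (ρ a '' X) ↔ S X := by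
    intro a A
    have e1 : Sum.inl ⁻¹' ((ρ a) '' A) = a.1 '' (Sum.inl ⁻¹' A) := by
      ext z
      constructor
      · rintro ⟨w, hw, hwz⟩
        rcases w with w | w
        · exact ⟨w, hw, Sum.inl_injective hwz⟩
        · exact absurd hwz (by simp [ρ])
      · rintro ⟨w, hw, rfl⟩
        exact ⟨Sum.inl w, hw, rfl⟩
    have e2 : ∀ j : Fin (k - Nat.card (Q B)), (Sum.inr j ∈ (ρ a) '' A) ↔ Sum.inr j ∈ A := by
      intro j
      constructor
      · rintro ⟨w, hw, hwz⟩
        rcases w with w | w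
        · exact absurd hwz (by simp [ρ])
        · have : w = j := Sum.inr_injective hwz
          exact this ▸ hw
      · intro hj
        exact ⟨Sum.inr j, hj, rfl⟩
    have e3 := pairwise_image B a.1 a.2 (Sum.inl ⁻¹' A)
    rw [← e1] at e3
    exact and_congr e3 (forall_congr' fun j => not_congr (e2 j))
  have htr : ∀ u v, typ u = typ v → ∃ a, ρ a u = v := by
    intro u v huv
    rcases u with x | j <;> rcases v with y | j'
    · have h1 : mq y = mq x := (Sum.inl_injective (ε.injective huv)).symm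
      obtain ⟨g, hg, hgx⟩ := (mk_eq_iff B y x).1 h1
      exact ⟨⟨g, hg⟩, congrArg Sum.inl hgx⟩
    · exact absurd (ε.injective huv) (by simp)
    · exact absurd (ε.injective huv) (by simp)
    · have h1 : j = j' := Sum.inr_injective (ε.injective huv)
      subst h1
      exact ⟨1, rfl⟩
  have hwin : Win S ∅ ∅ := by
    have h1 : Win (fun A : Set (PP K) => A.Pairwise (cc K)) ∅ ∅ :=
      nep_win (cc K) (Asm.cc_symm K) (nep_glued hn K hdn hcoll)
    have h2 := win_gst (D := Fin (k - Nat.card (Q B))) h1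
    rwa [Set.image_empty] at h2
  obtain ⟨W, hW, f, T, hc, h1, h2, h3, h4, h5⟩ :=
    assembleS hHB typ S hsurj hdown hempty hfib ρ hρ hS htr hwin
  refine ⟨W, hW, f, T, ⟨fun i => Nat.card {v // typ v = i}, fun i => ?_, ?_⟩, h1, h2, h3, h4, h5⟩
  · obtain ⟨v, hv⟩ := hsurj i
    show Nat.card {v // typ v = i} ∣ Nat.card B.Γ * 2
    rcases v with x | j
    · have e : Nat.card {v // typ v = i} = (MulAction.orbit (H B) x).ncard := by
        rw [← Nat.card_coe_set_eq]
        refine (Nat.card_congr (Equiv.ofBijective (fun y : MulAction.orbit (H B) x =>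
          (⟨Sum.inl y.1, ?_⟩ : {v // typ v = i})) ⟨?_, ?_⟩)).symm
        · obtain ⟨y, ⟨g, hg⟩⟩ := y
          rw [← hv]
          exact congrArg (fun q => ε (Sum.inl q)) ((mk_eq_iff B y x).2 ⟨g.1, g.2, hg⟩)
        · intro y z hyz
          have := congrArg Subtype.val hyz
          exact Subtype.ext (Sum.inl_injective this)
        · rintro ⟨v, hv'⟩
          rcases v with y | j
          · have h6 : mq y = mq x := Sum.inl_injective (ε.injective (hv'.trans hv.symm))
            obtain ⟨g, hg, hgx⟩ := (mk_eq_iff B y x).1 h6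
            exact ⟨⟨y, ⟨⟨g, hg⟩, hgx⟩⟩, rfl⟩
          · exact absurd (ε.injective (hv'.trans hv.symm)) (by simp)
      rw [e]
      exact orbit_dvd B x
    · have e : Nat.card {v // typ v = i} = 1 := by
        rw [Nat.card_eq_one_iff_unique]
        refine ⟨⟨?_⟩, ⟨⟨Sum.inr j, hv⟩⟩⟩
        rintro ⟨v, hv1⟩ ⟨w, hw1⟩
        have hx : ∀ v, typ v = i → v = Sum.inr j := by
          intro v hv1
          rcases v with y | j'
          · exact absurd (ε.injective (hv1.trans hv.symm)) (by simp)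
          · have : j' = j := Sum.inr_injective (ε.injective (hv1.trans hv.symm))
            rw [this]
        exact Subtype.ext ((hx v hv1).trans (hx w hw1).symm)
      rw [e]
      exact one_dvd _
  · rw [hc, card_word]



/-- The numbers `m`. -/
theorem exists_mS {n : ℕ} {K : Set (Finset (Fin n))} (hn : 0 < n)
    (hdn : ∀ s ∈ K, ∀ t, t ⊆ s → t ∈ K)
    (hcoll : Coll Set.univ K) (B : Act K) (hB : NoFix B) (hsol : derivedSeries B.Γ 2 = ⊥) (b : ℕ)
    (hb : Nat.card B.Γ ∣ 6 ^ b) :
    ∃ m A : ℕ, 2 ≤ m ∧ 1 ≤ A ∧ m ∣ 6 ^ A ∧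
    ∀ r j : ℕ, 1 ≤ r → SShallow (r * m ^ j) (r * (m - 1) ^ j) := by
  obtain ⟨a, ha⟩ : ∃ a : ℕ, Nat.card (Q B) ≤ 2 ^ a :=
    ⟨Nat.card (Q B), Nat.lt_two_pow_self.le⟩
  haveI : NeZero (2 ^ a) := ⟨by positivity⟩
  obtain ⟨W, hW, f, T, ⟨s, hs, hc⟩, h1, h2, h3, h4, h5⟩ :=
    constructS hn hdn hcoll B hB hsol (2 ^ a) ha
  obtain ⟨h6, h7⟩ := sshallow_all W f T h1 h2 h3 h4 h5
  refine ⟨Fintype.card W, (a + (b + 2) * 2 ^ a) + 1, h6, by omega, ?_, h7⟩
  refine Dvd.dvd.trans ?_ (pow_dvd_pow 6 (Nat.le_succ _))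
  rw [hc, pow_add]
  refine Nat.mul_dvd_mul (pow_dvd_pow_of_dvd (by norm_num) a) ?_
  have h8 : ∏ i : ZMod (2 ^ a), (2 * s i) ∣ ∏ _i : ZMod (2 ^ a), 6 ^ (b + 2) := by
    refine Finset.prod_dvd_prod_of_dvd _ _ fun i _ => ?_
    have h9 : s i ∣ 6 ^ b * 6 := (hs i).trans (Nat.mul_dvd_mul hb (by norm_num))
    have h10 : 2 * s i ∣ 6 * (6 ^ b * 6) := Nat.mul_dvd_mul (by norm_num) h9
    have h11 : 6 * (6 ^ b * 6) = 6 ^ (b + 2) := by ring
    rwa [h11] at h10
  rwa [Finset.prod_const, Finset.card_univ, ZMod.card, ← pow_mul] at h8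

end Pool.Agent.H645.Gp
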