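import Pool.Agent.H645.FH
import Pool.Agent.H645.FE

set_option autoImplicit false
set_option maxRecDepth 100000

/-! A metabelian group of symmetries. -/

namespace Pool.Agent.H645.Gp

section wrp

variable (k : ℕ) {P X : Type} [Group P] (τ : P →* Equiv.Perm X)

/-- coordinatewise action on pairs -/
def wr1 : (ZMod k → P) →* Equiv.Perm (ZMod k × X) :=
  MonoidHom.mk' (fun g =>
    { toFun := fun x => (x.1, τ (g x.1) x.2)
      invFun := fun x => (x.1, (τ (g x.1)).symm x.2)
      left_inv := fun x => by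
        show (x.1, (τ (g x.1)).symm (τ (g x.1) x.2)) = x
        rw [Equiv.symm_apply_apply]
      right_inv := fun x => by
        show (x.1, (τ (g x.1)) ((τ (g x.1)).symm x.2)) = x
        rw [Equiv.apply_symm_apply] }) (by
    intro g h
    apply Equiv.ext
    intro x
    show (x.1, τ (g x.1 * h x.1) x.2) = (x.1, τ (g x.1) (τ (h x.1) x.2))
    rw [map_mul]
    rfl)

/-- rotation of pairs -/
def wr2 : Multiplicative (ZMod k) →* Equiv.Perm (ZMod k × X) :=
  MonoidHom.mk' (fun s =>
    { toFun := fun x => (x.1 - Multiplicative.toAdd s, x.2)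
      invFun := fun x => (x.1 + Multiplicative.toAdd s, x.2)
      left_inv := fun x => by
        show (x.1 - Multiplicative.toAdd s + Multiplicative.toAdd s, x.2) = x
        rw [sub_add_cancel]
      right_inv := fun x => by
        show (x.1 + Multiplicative.toAdd s - Multiplicative.toAdd s, x.2) = x
        rw [add_sub_cancel_right] }) (by
    intro s t
    apply Equiv.ext
    intro x
    show (x.1 - Multiplicative.toAdd (s * t), x.2) =
      (x.1 - Multiplicative.toAdd t - Multiplicative.toAdd s, x.2)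
    rw [toAdd_mul, sub_sub, add_comm (Multiplicative.toAdd t)])

/-- the wreath product acting on pairs -/
def wrP : Wr k P →* Equiv.Perm (ZMod k × X) :=
  SemidirectProduct.lift (wr1 k τ) (wr2 k (X := X)) (by
    intro s
    apply MonoidHom.ext
    intro g
    apply Equiv.ext
    intro x
    show (x.1, τ (g (x.1 + Multiplicative.toAdd s)) x.2) =
      (x.1 + Multiplicative.toAdd s - Multiplicative.toAdd s,
        τ (g (x.1 + Multiplicative.toAdd s)) x.2)
    rw [add_sub_cancel_right])

end wrp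

/-- Twenty points as pairs of a block and a position. -/
def e20 : (ZMod 4 × Fin 3) ⊕ (Bool ⊕ (ZMod 3 × Bool)) ≃ Fin 20 where
  toFun := fun x => match x with
    | Sum.inl (i, c) => Fin.ofNat 20 (3 * i.val + c.val)
    | Sum.inr (Sum.inl b) => if b then 13 else 12
    | Sum.inr (Sum.inr (i, b)) =>
      if b then Fin.ofNat 20 (19 - i.val) else Fin.ofNat 20 (14 + i.val)
  invFun := ![Sum.inl (0, 0), Sum.inl (0, 1), Sum.inl (0, 2), Sum.inl (1, 0), Sum.inl (1, 1),
    Sum.inl (1, 2), Sum.inl (2, 0), Sum.inl (2, 1), Sum.inl (2, 2), Sum.inl (3, 0), Sum.inl (3, 1),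
    Sum.inl (3, 2), Sum.inr (Sum.inl false), Sum.inr (Sum.inl true),
    Sum.inr (Sum.inr (0, false)), Sum.inr (Sum.inr (1, false)), Sum.inr (Sum.inr (2, false)),
    Sum.inr (Sum.inr (2, true)), Sum.inr (Sum.inr (1, true)), Sum.inr (Sum.inr (0, true))]
  left_inv := by decide
  right_inv := by decide

/-- the big solvable group -/
abbrev BG : Type :=
  Wr 4 (Equiv.Perm (Fin 3)) × (Equiv.Perm Bool × Wr 3 (Equiv.Perm Bool))

/-- its action on twenty points -/
def JJ : BG →* Equiv.Perm (Fin 20) :=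
  (e20.permCongrHom.toMonoidHom).comp
    ((Equiv.Perm.sumCongrHom (ZMod 4 × Fin 3) (Bool ⊕ (ZMod 3 × Bool))).comp
      ((wrP 4 (MonoidHom.id (Equiv.Perm (Fin 3)))).prodMap
        ((Equiv.Perm.sumCongrHom Bool (ZMod 3 × Bool)).comp
          ((MonoidHom.id (Equiv.Perm Bool)).prodMap
            (wrP 3 (MonoidHom.id (Equiv.Perm Bool)))))))

/-- the action of `pA` on the lines -/
def xL : Wr 4 (Equiv.Perm (Fin 3)) :=
  ⟨![Equiv.swap 1 2, 1, Equiv.swap 1 2, Equiv.swap 1 2], Multiplicative.ofAdd 3⟩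

/-- the action of `pB` on the lines -/
def xM : Wr 4 (Equiv.Perm (Fin 3)) :=
  ⟨![finRotate 3, finRotate 3, 1, finRotate 3], Multiplicative.ofAdd 0⟩

/-- the element for `pA` -/
def xA : BG :=
  (xL, (Equiv.swap false true,
      ⟨![1, Equiv.swap false true, Equiv.swap false true], Multiplicative.ofAdd 0⟩))

/-- the element for `pB` -/
def xB : BG :=
  (xM, (1, ⟨![1, 1, 1], Multiplicative.ofAdd 2⟩))

theorem JA : JJ xA = Pool.Agent.H645.Ev.pA := by
  apply Equiv.ext
  decide +kernel

theorem JB : JJ xB = Pool.Agent.H645.Ev.pB := by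
  apply Equiv.ext
  decide +kernel

/-- the signs -/
def sgW : Wr 4 (Equiv.Perm (Fin 3)) →* Wr 4 ℤˣ :=
  SemidirectProduct.map ((Equiv.Perm.sign (α := Fin 3)).compLeft (ZMod 4)) (MonoidHom.id _) (by
    intro s
    apply MonoidHom.ext
    intro g
    rfl)

/-- the metabelian group of the lines -/
def RL : Subgroup (Wr 4 (Equiv.Perm (Fin 3))) := (Subgroup.zpowers (sgW xL)).comap sgW

theorem sgM : sgW xM = 1 := by
  apply SemidirectProduct.ext
  · funext c
    revert c
    show ∀ c : ZMod 4, Equiv.Perm.sign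
      ((![finRotate 3, finRotate 3, 1, finRotate 3] : ZMod 4 → Equiv.Perm (Fin 3)) c) = 1
    decide
  · rfl

theorem xL_mem : xL ∈ RL := Subgroup.mem_zpowers _

theorem xM_mem : xM ∈ RL := by
  show sgW xM ∈ Subgroup.zpowers (sgW xL)
  rw [sgM]
  exact Subgroup.one_mem _

/-- translations -/
def tr : (ZMod 4 → alternatingGroup (Fin 3)) →* RL :=
  MonoidHom.mk' (fun t => ⟨SemidirectProduct.inl (fun c => (t c).1), by
    show sgW _ ∈ Subgroup.zpowers (sgW xL)
    have h : sgW (SemidirectProduct.inl (fun c => (t c).1)) = 1 := by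
      apply SemidirectProduct.ext
      · funext c
        exact Equiv.Perm.mem_alternatingGroup.1 (t c).2
      · rfl
    rw [h]
    exact Subgroup.one_mem _⟩) (by
    intro t u
    apply Subtype.ext
    show SemidirectProduct.inl (fun c => (t c).1 * (u c).1) =
      SemidirectProduct.inl (φ := shfHom 4 (Equiv.Perm (Fin 3))) (fun c => (t c).1) *
        SemidirectProduct.inl (fun c => (u c).1)
    rw [← map_mul]
    rfl)

theorem dl_RL : derivedSeries RL 2 = ⊥ := by
  refine dl_ext (d := 1) tr ((sgW.comp RL.subtype).codRestrict (Subgroup.zpowers (sgW xL))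
    (fun x => x.2)) ?_ (dl_pi (dl_comm (by decide))) (dl_comm ?_)
  · intro x hx
    have h1 : sgW x.1 = 1 := congrArg Subtype.val (MonoidHom.mem_ker.1 hx)
    have hr : x.1.right = 1 := congrArg SemidirectProduct.right h1
    have hl : ∀ c, Equiv.Perm.sign (x.1.left c) = 1 := fun c =>
      congrFun (congrArg SemidirectProduct.left h1) c
    refine ⟨fun c => ⟨x.1.left c, Equiv.Perm.mem_alternatingGroup.2 (hl c)⟩, ?_⟩
    apply Subtype.ext
    apply SemidirectProduct.ext
    · rfl
    · exact hr.symm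
  · rintro ⟨_, ⟨i, rfl⟩⟩ ⟨_, ⟨j, rfl⟩⟩
    apply Subtype.ext
    exact ((Commute.refl (sgW xL)).zpow_zpow i j)

/-- the metabelian group -/
abbrev BR : Type := RL × (Equiv.Perm Bool × Wr 3 (Equiv.Perm Bool))

theorem dl_BR : derivedSeries BR 2 = ⊥ :=
  dl_prod dl_RL (dl_prod (dl_mono (dl_comm (by decide)) (by norm_num))
    (dl_wr 3 (dl_comm (by decide))))

/-- its action -/
def JR : BR →* Equiv.Perm (Fin 20) := JJ.comp (RL.subtype.prodMap (MonoidHom.id _))

theorem JA' : Pool.Agent.H645.Ev.pA ∈ JR.range := ⟨(⟨xL, xL_mem⟩, xA.2), JA⟩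

theorem JB' : Pool.Agent.H645.Ev.pB ∈ JR.range := ⟨(⟨xM, xM_mem⟩, xB.2), JB⟩

end Pool.Agent.H645.Gp
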