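import Pool.Agent.H645.FI

set_option autoImplicit false

/-! The transitive functions with solvable groups. -/

namespace Pool.Agent.H645.Ev

open Pool.Agent.H571R3 (Coll)
open Pool.Agent.H645.Gp (Act NoFix exists_mS SShallow JR JA' JB' dl_BR dl_inj dl_surj pow72 card_smooth)

variable {N : ℕ}

/-- the metabelian group -/
def GS : Subgroup (Equiv.Perm (Fin 20)) := GG ⊓ JR.range

theorem GS_dl : derivedSeries GS 2 = ⊥ :=
  dl_inj (Subgroup.inclusion (inf_le_right : GS ≤ JR.range)) (Subgroup.inclusion_injective _)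
    (dl_surj JR.rangeRestrict JR.rangeRestrict_surjective dl_BR)

theorem GS_smooth : ∃ b, Nat.card GS ∣ 6 ^ b := by
  refine card_smooth fun g => ?_
  apply Subtype.ext
  have h := g.2.1
  show (g.1) ^ 72 = 1
  exact pow72 h.2.1 h.2.2

theorem pA_memS : pA ∈ GS := ⟨pA_mem, JA'⟩

theorem pB_memS : pB ∈ GS := ⟨pB_mem, JB'⟩

/-- the homomorphism -/
noncomputable def rhoS (hN : 20 ≤ N) : GS →* Equiv.Perm (Fin N) :=
  (Equiv.Perm.viaEmbeddingHom (Fin.castLEEmb hN)).comp GS.subtype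

theorem rhoS_map (hN : 20 ≤ N) (g : GS) (s' : Finset (Fin 20)) :
    (s'.map (Fin.castLEEmb hN)).map (rhoS hN g).toEmbedding =
      (s'.map g.1.toEmbedding).map (Fin.castLEEmb hN) := by
  rw [Finset.map_map, Finset.map_map]
  congr 1
  ext x
  show ((Equiv.Perm.viaEmbedding g.1 (Fin.castLEEmb hN)) (Fin.castLEEmb hN x)).val = _
  rw [Equiv.Perm.viaEmbedding_apply]
  rfl

theorem fwdS (hN : 20 ≤ N) (g : GS) {s : Finset (Fin N)} (hs : s ∈ KN N) :
    s.map (rhoS hN g).toEmbedding ∈ KN N := by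
  obtain ⟨s', rfl, h2⟩ := pull20 hN hs
  rw [rhoS_map]
  have h3 : s'.map g.1.toEmbedding ∈ KN 20 := (g.2.1.1 s').2 h2
  show ((s'.map g.1.toEmbedding).map (Fin.castLEEmb hN)).map Fin.valEmbedding ∈ K0
  rw [Finset.map_map]
  exact h3

/-- the action -/
noncomputable def actS (hN : 20 ≤ N) : Act (KN N) where
  Γ := GS
  ρ := rhoS hN
  inv := by
    intro g s
    constructor
    · intro h
      have h2 := fwdS hN g⁻¹ h
      rw [← Pool.Agent.H645.Gp.mapm, ← map_mul, inv_mul_cancel, map_one] at h2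
      have e : s.map (1 : Equiv.Perm (Fin N)).toEmbedding = s := by
        rw [show (1 : Equiv.Perm (Fin N)).toEmbedding = Function.Embedding.refl _ from rfl,
          Finset.map_refl]
      rwa [e] at h2
    · exact fwdS hN g

theorem nofixS (hN : 20 ≤ N) : NoFix (actS hN) := by
  intro s hs hne
  obtain ⟨s', rfl, h2⟩ := pull20 hN hs
  have h3 : (s'.map Fin.valEmbedding).Nonempty :=
    Finset.map_nonempty.2 (Finset.map_nonempty.1 hne)
  rcases K0_nofix h2 h3 with h4 | h4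
  · refine ⟨⟨pA, pA_memS⟩, fun h5 => h4 ?_⟩
    have h6 : (s'.map (Fin.castLEEmb hN)).map (rhoS hN ⟨pA, pA_memS⟩).toEmbedding =
      s'.map (Fin.castLEEmb hN) := h5
    rw [rhoS_map] at h6
    have h7 : s'.map pA.toEmbedding = s' := Finset.map_injective _ h6
    rw [← map_val_img pA _ vA, h7]
  · refine ⟨⟨pB, pB_memS⟩, fun h5 => h4 ?_⟩
    have h6 : (s'.map (Fin.castLEEmb hN)).map (rhoS hN ⟨pB, pB_memS⟩).toEmbedding =
      s'.map (Fin.castLEEmb hN) := h5
    rw [rhoS_map] at h6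
    have h7 : s'.map pB.toEmbedding = s' := Finset.map_injective _ h6
    rw [← map_val_img pB _ vB, h7]

/-- The number `m`. -/
theorem main_mS : ∃ m A : ℕ, 2 ≤ m ∧ 1 ≤ A ∧ m ∣ 6 ^ A ∧
    ∀ r j : ℕ, 1 ≤ r → SShallow (r * m ^ j) (r * (m - 1) ^ j) := by
  obtain ⟨N, hN, hc⟩ := ny_s0
  obtain ⟨b, hb⟩ := GS_smooth
  have hcoll : Coll Set.univ (KN N) := by
    have h1 := coll_pull (N := N) hc (le_refl _)
    have h2 : {s : Finset (Fin N) | s.map Fin.valEmbedding ∈ PN N} = Set.univ := by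
      ext s
      simp only [Set.mem_setOf_eq, Set.mem_univ, iff_true]
      rw [mem_PN]
      intro x hx
      rw [Finset.mem_map] at hx
      obtain ⟨y, _, rfl⟩ := hx
      exact y.2
    rw [h2] at h1
    exact h1
  have hdn : ∀ s ∈ KN N, ∀ t, t ⊆ s → t ∈ KN N := by
    intro s hs t ht
    exact K0_dn _ hs _ (Finset.map_subset_map.2 ht)
  exact exists_mS (by omega) hdn hcoll (actS hN) (nofixS hN) GS_dl b hb

theorem sshallow_mono {n k k' : ℕ} (h : SShallow n k) (hk : k ≤ k') : SShallow n k' := by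
  obtain ⟨f, f1, f2, f3, T, T1, T2⟩ := h
  exact ⟨f, f1, f2, f3, T, T1, T2.trans hk⟩

theorem gapS (m B n : ℕ) (hm : 2 ≤ m) (hB : m ∣ B) (hB0 : 0 < B)
    (h : ∀ r j : ℕ, 1 ≤ r → SShallow (r * m ^ j) (r * (m - 1) ^ j)) (hn : 1 ≤ n) (hd : B ∣ n) :
    SShallow n (n - n / B) := by
  obtain ⟨t, rfl⟩ := hd
  obtain ⟨c, rfl⟩ := hB
  have hc : 0 < c := Nat.pos_of_ne_zero fun h0 => by simp [h0] at hB0
  have ht : 0 < t := Nat.pos_of_ne_zero fun h0 => by simp [h0] at hn
  have h1 := h (c * t) 1 (Nat.mul_pos hc ht)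
  rw [pow_one, pow_one] at h1
  rw [Nat.mul_div_cancel_left t hB0]
  have e : c * t * m = m * c * t := by ring
  rw [e] at h1
  refine sshallow_mono h1 ?_
  obtain ⟨l, rfl⟩ : ∃ l, m = l + 1 := ⟨m - 1, by omega⟩
  rw [Nat.add_sub_cancel]
  have h2 : t ≤ c * t := Nat.le_mul_of_pos_left t hc
  have h3 : (l + 1) * c * t = c * t * l + c * t := by ring
  omega

theorem weakS (m A : ℕ) (hm : 2 ≤ m) (hA : 1 ≤ A) (hmA : m ∣ 6 ^ A)
    (h : ∀ r j : ℕ, 1 ≤ r → SShallow (r * m ^ j) (r * (m - 1) ^ j)) (C n j : ℕ) (hC : 1 ≤ C)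
    (hn : 1 ≤ n) (hj : A ≤ j) (hd : 6 ^ j ∣ n) (hnC : n ≤ 6 ^ (C * j)) :
    ∃ k : ℕ, SShallow n k ∧ (k : ℝ) < (n : ℝ) ^ (1 - 1 / (8 * A * C * 6 ^ A : ℝ)) := by
  set i := j / A with hi
  have hij : A * i ≤ j := Nat.mul_div_le j A
  have hi1 : 1 ≤ i := (Nat.one_le_div_iff (by omega)).2 hj
  have hji : j ≤ 2 * A * i := by
    have h1 : j < A * (i + 1) := by
      have := Nat.lt_mul_div_succ j (show 0 < A by omega)
      simpa [hi] using this
    nlinarith
  have hmi : m ^ i ∣ n := by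
    refine (pow_dvd_pow_of_dvd hmA i).trans ?_
    rw [← pow_mul]
    exact (pow_dvd_pow 6 hij).trans hd
  obtain ⟨r, hr⟩ := hmi
  have hr1 : 1 ≤ r := Nat.pos_of_ne_zero fun h0 => by simp [h0] at hr; omega
  have hS := h r i hr1
  rw [mul_comm r (m ^ i), ← hr] at hS
  refine ⟨r * (m - 1) ^ i, hS, ?_⟩
  have hmR : (2 : ℝ) ≤ m := by exact_mod_cast hm
  have hm0 : (0 : ℝ) < m := by linarith
  have hAR : (1 : ℝ) ≤ A := by exact_mod_cast hA
  have hCR : (1 : ℝ) ≤ C := by exact_mod_cast hC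
  have hB : (0 : ℝ) < 6 ^ A := by positivity
  have hmB : (m : ℝ) ≤ 6 ^ A := by exact_mod_cast Nat.le_of_dvd (by positivity) hmA
  have hn2 : 6 ≤ n := by
    have h1 : 6 ^ 1 ∣ n := (pow_dvd_pow 6 (by omega)).trans hd
    rw [pow_one] at h1
    exact Nat.le_of_dvd (by omega) h1
  have hnR : (6 : ℝ) ≤ n := by exact_mod_cast hn2
  have hn0 : (0 : ℝ) < n := by linarith
  have hlogn : 0 < Real.log n := Real.log_pos (by linarith)
  set ε : ℝ := 1 / (8 * A * C * 6 ^ A : ℝ) with hε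
  have hε0 : 0 < ε := by positivity
  -- the logarithm of `n`
  have hlog : Real.log n ≤ 2 * (C * j) := by
    have h1 : (n : ℝ) ≤ 6 ^ (C * j) := by exact_mod_cast hnC
    have h2 := Real.log_le_log hn0 h1
    rw [Real.log_pow] at h2
    push_cast at h2
    have h3 : (0 : ℝ) ≤ (C : ℝ) * j := by positivity
    nlinarith [log6]
  have hjR : (j : ℝ) ≤ 2 * A * i := by exact_mod_cast hji
  have hkey : 2 * ε * Real.log n ≤ i / m := by
    have h1 : Real.log n ≤ 4 * C * A * i := by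
      have h2 : (C : ℝ) * j ≤ C * (2 * A * i) := mul_le_mul_of_nonneg_left hjR (by linarith)
      linarith
    have h3 : 2 * ε * Real.log n ≤ 2 * ε * (4 * C * A * i) :=
      mul_le_mul_of_nonneg_left h1 (by positivity)
    have h4 : 2 * ε * (4 * C * A * i) = i / 6 ^ A := by
      rw [hε]
      field_simp
      ring
    rw [h4] at h3
    refine h3.trans ?_
    gcongr
  -- the number of queries
  have hcast : ((r * (m - 1) ^ i : ℕ) : ℝ) = n * (1 - 1 / m) ^ i := by
    rw [Nat.cast_mul, Nat.cast_pow, Nat.cast_sub (by omega), Nat.cast_one, hr]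
    push_cast
    have e : (1 - 1 / (m : ℝ)) = (m - 1) / m := by field_simp
    rw [e, div_pow]
    field_simp
  rw [hcast]
  have hexp : (1 - 1 / (m : ℝ)) ^ i ≤ Real.exp (-(i / m)) := by
    have h1 : 1 - 1 / (m : ℝ) ≤ Real.exp (-(1 / m)) := by
      have := Real.add_one_le_exp (-(1 / (m : ℝ)))
      linarith
    have h0 : 0 ≤ 1 - 1 / (m : ℝ) := by
      rw [sub_nonneg, div_le_one hm0]
      linarith
    have h2 := pow_le_pow_left₀ h0 h1 i
    rw [← Real.exp_nat_mul] at h2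
    refine h2.trans (le_of_eq ?_)
    congr 1
    ring
  calc (n : ℝ) * (1 - 1 / m) ^ i ≤ n * Real.exp (-(i / m)) :=
        mul_le_mul_of_nonneg_left hexp hn0.le
    _ ≤ n * Real.exp (-(2 * ε * Real.log n)) := by
        refine mul_le_mul_of_nonneg_left (Real.exp_le_exp.2 ?_) hn0.le
        linarith
    _ = (n : ℝ) ^ (1 - 2 * ε) := by
        rw [Real.rpow_def_of_pos hn0, mul_sub, mul_one, sub_eq_add_neg, Real.exp_add,
          Real.exp_log hn0]
        congr 2
        ring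
    _ < (n : ℝ) ^ (1 - ε) := by
        apply Real.rpow_lt_rpow_of_exponent_lt (by linarith)
        linarith

end Pool.Agent.H645.Ev
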