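import Pool.Agent.H645.FF

set_option autoImplicit false

/-! Bounds for the derived length. -/

namespace Pool.Agent.H645.Gp

theorem dl_comm {G : Type*} [Group G] (h : ∀ a b : G, a * b = b * a) :
    derivedSeries G 1 = ⊥ := by
  rw [eq_bot_iff, derivedSeries_succ, Subgroup.commutator_le]
  intro a _ b _
  rw [Subgroup.mem_bot]
  exact commutatorElement_eq_one_iff_mul_comm.2 (h a b)

theorem dl_mono {G : Type*} [Group G] {d e : ℕ} (h : derivedSeries G d = ⊥) (hd : d ≤ e) :
    derivedSeries G e = ⊥ := by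
  rw [eq_bot_iff, ← h]
  exact derivedSeries_antitone G hd

theorem dl_inj {G G' : Type*} [Group G] [Group G'] {d : ℕ} (f : G →* G')
    (hf : Function.Injective f) (h : derivedSeries G' d = ⊥) : derivedSeries G d = ⊥ := by
  rw [eq_bot_iff]
  intro x hx
  have h1 : f x ∈ derivedSeries G' d :=
    map_derivedSeries_le_derivedSeries f d (Subgroup.mem_map_of_mem f hx)
  rw [h, Subgroup.mem_bot] at h1
  rw [Subgroup.mem_bot]
  exact hf (h1.trans f.map_one.symm)

theorem dl_surj {G G' : Type*} [Group G] [Group G'] {d : ℕ} (f : G →* G')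
    (hf : Function.Surjective f) (h : derivedSeries G d = ⊥) : derivedSeries G' d = ⊥ := by
  rw [← map_derivedSeries_eq hf d, h, Subgroup.map_bot]

theorem dl_prod {G G' : Type*} [Group G] [Group G'] {d : ℕ} (h : derivedSeries G d = ⊥)
    (h' : derivedSeries G' d = ⊥) : derivedSeries (G × G') d = ⊥ := by
  rw [eq_bot_iff]
  intro x hx
  have h1 : (MonoidHom.fst G G') x ∈ derivedSeries G d :=
    map_derivedSeries_le_derivedSeries _ d (Subgroup.mem_map_of_mem _ hx)
  have h2 : (MonoidHom.snd G G') x ∈ derivedSeries G' d :=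
    map_derivedSeries_le_derivedSeries _ d (Subgroup.mem_map_of_mem _ hx)
  rw [h, Subgroup.mem_bot] at h1
  rw [h', Subgroup.mem_bot] at h2
  rw [Subgroup.mem_bot]
  exact Prod.ext h1 h2

theorem dl_pi {ι P : Type} [Group P] {d : ℕ} (hn : derivedSeries P d = ⊥) :
    derivedSeries (ι → P) d = ⊥ := by
  rw [eq_bot_iff]
  intro x hx
  rw [Subgroup.mem_bot]
  funext i
  have h1 : (Pi.evalMonoidHom (fun _ : ι => P) i) x ∈ derivedSeries P d :=
    map_derivedSeries_le_derivedSeries _ d (Subgroup.mem_map_of_mem _ hx)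
  rw [hn, Subgroup.mem_bot] at h1
  exact h1

theorem dl_ext {N G Q : Type*} [Group N] [Group G] [Group Q] {d : ℕ} (f : N →* G) (g : G →* Q)
    (hfg : g.ker ≤ f.range) (hN : derivedSeries N d = ⊥) (hQ : derivedSeries Q 1 = ⊥) :
    derivedSeries G (d + 1) = ⊥ := by
  have key : ∀ m, derivedSeries G (m + 1) ≤ (derivedSeries N m).map f := by
    intro m
    induction m with
    | zero =>
      intro x hx
      have h1 : g x ∈ derivedSeries Q 1 :=
        map_derivedSeries_le_derivedSeries g 1 (Subgroup.mem_map_of_mem g hx)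
      rw [hQ, Subgroup.mem_bot] at h1
      obtain ⟨y, rfl⟩ := hfg h1
      exact ⟨y, Subgroup.mem_top _, rfl⟩
    | succ m ih =>
      rw [derivedSeries_succ, derivedSeries_succ N m]
      exact Subgroup.commutator_le_map_commutator ih ih
  rw [eq_bot_iff]
  refine (key d).trans ?_
  rw [hN, Subgroup.map_bot]

theorem dl_wr (k : ℕ) {P : Type} [Group P] {d : ℕ} (h : derivedSeries P d = ⊥) :
    derivedSeries (Wr k P) (d + 1) = ⊥ :=
  dl_ext (SemidirectProduct.inl (φ := shfHom k P)) (SemidirectProduct.rightHom (φ := shfHom k P))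
    (le_of_eq SemidirectProduct.range_inl_eq_ker_rightHom.symm) (dl_pi h)
    (dl_comm fun a b => mul_comm a b)

end Pool.Agent.H645.Gp
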