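import Mathlib
import Pool.Agent.H645.Base

set_option autoImplicit false

/-!
# Transversals of almost disjoint families: small families, gluing
-/

namespace Pool.Agent.H645.T

open Cardinal Set

universe u

/-- there is a set which meets every `A j` in at least one and at most `lam` points -/
def HasTr {J X : Type u} (lam : Cardinal.{u}) (A : J → Set X) : Prop :=
  ∃ T : Set X, ∀ j, (T ∩ A j).Nonempty ∧ #(T ∩ A j : Set X) ≤ lam

/-- any two sets of the family meet in less than `lam` points -/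
def AD {J X : Type u} (lam : Cardinal.{u}) (A : J → Set X) : Prop :=
  ∀ i j, i ≠ j → #(A i ∩ A j : Set X) < lam

section

variable {J X : Type u} {lam κ : Cardinal.{u}}

theorem card_Iio_toType {c : Cardinal.{u}} (i : c.ord.ToType) : #(Iio i) < c := by
  have h := mk_Iio_lt i (by rw [Ordinal.type_toType, mk_ord_toType])
  rwa [mk_ord_toType] at h

/-- an increasing union of sets of size less than `lam` has size at most `lam` -/
theorem chain_union {Y W : Type u} [LinearOrder W] [WellFoundedLT W] (hl : ℵ₀ ≤ lam) (r : Y → W)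
    (h : ∀ y, #{y' | r y' ≤ r y} < lam) : #Y ≤ lam := by
  have h1 : #(range r) ≤ lam := by
    refine card_le_of_init fun w => ?_
    obtain ⟨w, y, rfl⟩ := w
    refine lt_of_le_of_lt ?_ (h y)
    choose s hs using fun z : Iio (⟨r y, ⟨y, rfl⟩⟩ : range r) => z.1.2
    refine mk_le_of_injective (f := fun z => (⟨s z, ?_⟩ : {y' | r y' ≤ r y})) ?_
    · show r (s z) ≤ r y
      rw [hs z]
      exact le_of_lt z.2
    · intro z z' hzz
      have h2 : s z = s z' := congrArg (fun t : {y' | r y' ≤ r y} => t.1) hzz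
      have h3 : z.1.1 = z'.1.1 := by rw [← hs z, ← hs z', h2]
      exact Subtype.ext (Subtype.ext h3)
  have h2 : (univ : Set Y) = ⋃ w : range r, {y | r y = w.1} := by
    ext y
    simp only [mem_univ, mem_iUnion, true_iff]
    exact ⟨⟨r y, ⟨y, rfl⟩⟩, rfl⟩
  rw [← mk_univ, h2]
  refine card_iUnion_le hl _ h1 ?_
  rintro ⟨_, y, rfl⟩
  exact (mk_le_mk_of_subset (fun y' (hy' : r y' = r y) => hy'.le)).trans (h y).le

/-- the size of a union, strictly -/
theorem card_biUnion_lt (hκ : ℵ₀ ≤ κ) (hlk : lam < κ) {I : Type u} (B : I → Set X)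
    (hI : #I < κ) (hB : ∀ i, #(B i) ≤ lam) : #(⋃ i, B i) < κ := by
  have h1 : #(⋃ i, B i) ≤ #I * lam := by
    refine mk_iUnion_le_sum_mk.trans ((sum_le_sum _ (fun _ => lam) hB).trans ?_)
    rw [sum_const, lift_id, lift_id]
  exact h1.trans_lt (mul_lt_of_lt hκ hI hlk)

/-- few members of the family have a large intersection with a given set -/
theorem few_sets {A : J → Set X} (hA : AD lam A) (Y : Set X) :
    #{i | lam ≤ #(A i ∩ Y : Set X)} ≤ #Y ^ lam := by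
  have h1 : ∀ i : {i | lam ≤ #(A i ∩ Y : Set X)}, ∃ f : lam.ord.ToType → Y,
      Function.Injective f ∧ ∀ t, (f t).1 ∈ A i.1 := by
    rintro ⟨i, hi⟩
    have h2 : #(lam.ord.ToType) ≤ #(A i ∩ Y : Set X) := by rw [mk_ord_toType]; exact hi
    obtain ⟨e⟩ := h2
    exact ⟨fun t => ⟨(e t).1, (e t).2.2⟩, fun t t' h => e.injective (Subtype.ext
      (congrArg (fun z : Y => z.1) h)), fun t => (e t).2.1⟩
  choose f hf1 hf2 using h1
  have h3 : #(lam.ord.ToType → Y) = #Y ^ lam := by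
    rw [← power_def, mk_ord_toType]
  rw [← h3]
  refine mk_le_of_injective (f := f) fun i i' hii => ?_
  by_contra hne
  have h4 := hA i.1 i'.1 fun h => hne (Subtype.ext h)
  have h5 : lam ≤ #(A i.1 ∩ A i'.1 : Set X) := by
    refine (mk_ord_toType lam).symm.le.trans ?_
    refine mk_le_of_injective (f := fun t => (⟨(f i t).1, hf2 i t, ?_⟩ :
      (A i.1 ∩ A i'.1 : Set X))) ?_
    · have := hf2 i' t
      rw [← hii] at this
      exact this
    · intro t t' htt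
      exact hf1 i (Subtype.ext (congrArg (fun z : (A i.1 ∩ A i'.1 : Set X) => z.1) htt))
  exact absurd h4 (not_lt.2 h5)

theorem card_union_lt (hκ : ℵ₀ ≤ κ) {A B : Set X} (hA : #A < κ) (hB : #B < κ) :
    #(A ∪ B : Set X) < κ := (mk_union_le A B).trans_lt (add_lt_of_lt hκ hA hB)

theorem exists_mem_diff {A B : Set X} (h : #B < #A) : ∃ x ∈ A, x ∉ B := by
  by_contra hcon
  push Not at hcon
  exact absurd (mk_le_mk_of_subset (show A ⊆ B from hcon)) (not_le.2 h)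

/-- fewer than `κ` sets of size `κ` -/
theorem base_small (hl : ℵ₀ ≤ lam) (hlk : lam < κ) (hJ : #J < κ) {A : J → Set X}
    (hA : ∀ j, κ ≤ #(A j)) (had : AD lam A) : HasTr lam A := by
  have hκ : ℵ₀ ≤ κ := hl.trans hlk.le
  have h1 : ∀ j, ∃ x ∈ A j, x ∉ ⋃ i : {i // i ≠ j}, A j ∩ A i.1 := by
    intro j
    refine exists_mem_diff (lt_of_lt_of_le ?_ (hA j))
    exact card_biUnion_lt hκ hlk _ ((mk_subtype_le _).trans_lt hJ)
      fun i => (had _ _ (Ne.symm i.2)).le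
  choose f hf1 hf2 using h1
  have h2 : ∀ i j, f i ∈ A j → i = j := by
    intro i j hij
    by_contra hne
    exact hf2 i (mem_iUnion.2 ⟨⟨j, Ne.symm hne⟩, hf1 i, hij⟩)
  refine ⟨range f, fun j => ⟨⟨f j, ⟨j, rfl⟩, hf1 j⟩, ?_⟩⟩
  have h3 : (range f ∩ A j : Set X) ⊆ {f j} := by
    rintro _ ⟨⟨i, rfl⟩, hi⟩
    rw [h2 i j hi]
    exact mem_singleton _
  exact (mk_le_mk_of_subset h3).trans (by rw [mk_singleton]; exact one_le_aleph0.trans hl)

/-- a family of at most `lam⁺` sets of size at least `lam⁺` -/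
theorem base_succ (hl : ℵ₀ ≤ lam) (hJ : #J ≤ Order.succ lam) {A : J → Set X}
    (hA : ∀ j, Order.succ lam ≤ #(A j)) (had : AD lam A) : HasTr lam A := by
  have hJ' : #J ≤ #((Order.succ lam).ord.ToType) := by rw [mk_ord_toType]; exact hJ
  obtain ⟨e⟩ := hJ'
  have hsmall : ∀ j, #{i | e i ≤ e j} ≤ lam := by
    intro j
    refine le_trans ?_ ((IsSuccType.toType hl).initc (e j))
    exact mk_le_of_injective (f := fun i : {i | e i ≤ e j} => (⟨e i.1, i.2⟩ : Iic (e j)))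
      fun i i' h => Subtype.ext (e.injective (congrArg Subtype.val h))
  have h1 : ∀ j, ∃ x ∈ A j, ∀ i, e i < e j → x ∉ A i := by
    intro j
    obtain ⟨x, hx, hx2⟩ := exists_mem_diff (A := A j)
      (B := ⋃ i : {i // e i < e j}, A j ∩ A i.1) (lt_of_lt_of_le (lt_of_le_of_lt
        (card_iUnion_le hl _ ((mk_le_mk_of_subset (fun i (hi : e i < e j) => hi.le)).trans
          (hsmall j)) fun i => (had _ _ (fun h => absurd (congrArg e h) i.2.ne')).le)
            (Order.lt_succ lam)) (hA j))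
    exact ⟨x, hx, fun i hi hxi => hx2 (mem_iUnion.2 ⟨⟨i, hi⟩, hx, hxi⟩)⟩
  choose f hf1 hf2 using h1
  refine ⟨range f, fun j => ⟨⟨f j, ⟨j, rfl⟩, hf1 j⟩, ?_⟩⟩
  have h3 : (range f ∩ A j : Set X) ⊆ f '' {i | e i ≤ e j} := by
    rintro _ ⟨⟨i, rfl⟩, hi⟩
    refine ⟨i, ?_, rfl⟩
    by_contra hlt
    exact hf2 i j (not_le.1 hlt) hi
  exact (mk_le_mk_of_subset h3).trans (mk_image_le.trans (hsmall j))

/-- a family of at most `κ` sets of size at least `κ`, when all powers `ν ^ lam` are small -/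
theorem base_rec (hl : ℵ₀ ≤ lam) (hlk : lam < κ) (hpow : ∀ ν < κ, ν ^ lam < κ) (hJ : #J ≤ κ)
    {A : J → Set X} (hA : ∀ j, κ ≤ #(A j)) (had : AD lam A) : HasTr lam A := by
  classical
  have hκ : ℵ₀ ≤ κ := hl.trans hlk.le
  have hJ' : #J ≤ #(κ.ord.ToType) := by rw [mk_ord_toType]; exact hJ
  obtain ⟨e⟩ := hJ'
  have hX : Nonempty J → Nonempty X := by
    rintro ⟨j⟩
    have h1 : #(A j) ≠ 0 := ((aleph0_pos.trans_le hκ).trans_le (hA j)).ne'
    obtain ⟨x⟩ := mk_ne_zero_iff.1 h1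
    exact ⟨x.1⟩
  have hwf : WellFounded fun i j : J => e i < e j := InvImage.wf e wellFounded_lt
  have hinit : ∀ j, #{i | e i < e j} < κ := by
    intro j
    refine lt_of_le_of_lt ?_ (card_Iio_toType (e j))
    exact mk_le_of_injective (f := fun i : {i | e i < e j} => (⟨e i.1, i.2⟩ : Iio (e j)))
      fun i i' h => Subtype.ext (e.injective (congrArg Subtype.val h))
  have hstep : ∀ (j : J) (ih : ∀ i, e i < e j → X), ∃ x ∈ A j, ∀ i, i ≠ j →
      lam ≤ #(A i ∩ {y | ∃ k, ∃ h : e k < e j, y = ih k h} : Set X) → x ∉ A i := by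
    intro j ih
    set Y : Set X := {y | ∃ k, ∃ h : e k < e j, y = ih k h} with hY
    have hYc : #Y < κ := by
      have h1 : Y ⊆ range fun k : {k | e k < e j} => ih k.1 k.2 := by
        rintro _ ⟨k, h, rfl⟩
        exact ⟨⟨k, h⟩, rfl⟩
      exact ((mk_le_mk_of_subset h1).trans mk_range_le).trans_lt (hinit j)
    obtain ⟨x, hx, hx2⟩ := exists_mem_diff (A := A j)
      (B := ⋃ i : {i // i ≠ j ∧ lam ≤ #(A i ∩ Y : Set X)}, A j ∩ A i.1)
      (lt_of_lt_of_le (card_biUnion_lt hκ hlk _ ((mk_le_mk_of_subset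
        (t := {i | lam ≤ #(A i ∩ Y : Set X)}) (fun i hi => hi.2)).trans_lt
        ((few_sets had Y).trans_lt (hpow _ hYc))) fun i => (had _ _ (Ne.symm i.2.1)).le) (hA j))
    exact ⟨x, hx, fun i hij hi hxi => hx2 (mem_iUnion.2 ⟨⟨i, hij, hi⟩, hx, hxi⟩)⟩
  choose st hst1 hst2 using hstep
  let f : J → X := hwf.fix st
  have hf : ∀ j, f j = st j fun i _ => f i := fun j => hwf.fix_eq st j
  have hf1 : ∀ j, f j ∈ A j := fun j => by rw [hf j]; exact hst1 _ _
  have hf2 : ∀ i j, i ≠ j → lam ≤ #(A i ∩ {y | ∃ k, e k < e j ∧ y = f k} : Set X) →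
      f j ∉ A i := by
    intro i j hij h
    rw [hf j]
    refine hst2 j (fun i _ => f i) i hij ?_
    convert h using 7
    simp
  refine ⟨range f, fun i => ⟨⟨f i, ⟨i, rfl⟩, hf1 i⟩, ?_⟩⟩
  -- the first index at which a point is chosen
  have hr : ∀ x : {x // x ∈ range f ∩ A i ∧ x ≠ f i}, ∃ k, f k = x.1 ∧ ∀ k', e k' < e k →
      f k' ≠ x.1 := by
    rintro ⟨x, ⟨⟨k, hk⟩, hx⟩, hxi⟩
    obtain ⟨m, hm, hmin⟩ := hwf.has_min {k | f k = x} ⟨k, hk⟩
    exact ⟨m, hm, fun k' hk' h => hmin k' h hk'⟩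
  choose r hr1 hr2 using hr
  have h4 : #{x // x ∈ range f ∩ A i ∧ x ≠ f i} ≤ lam := by
    refine chain_union hl (fun x => e (r x)) fun x => ?_
    have h5 : ¬ lam ≤ #(A i ∩ {y | ∃ k, e k < e (r x) ∧ y = f k} : Set X) := by
      intro h5
      refine hf2 i (r x) (fun h => x.2.2 ?_) h5 ?_
      · rw [← hr1 x, ← h]
      · rw [hr1 x]
        exact x.2.1.2
    have h6 : #{x' | e (r x') ≤ e (r x)} ≤
        #({x.1} ∪ (A i ∩ {y | ∃ k, e k < e (r x) ∧ y = f k}) : Set X) := by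
      refine mk_le_of_injective (f := fun x' : {x' | e (r x') ≤ e (r x)} => (⟨x'.1.1, ?_⟩ :
        ({x.1} ∪ (A i ∩ {y | ∃ k, e k < e (r x) ∧ y = f k}) : Set X))) ?_
      · have h8 : e (r x'.1) ≤ e (r x) := x'.2
        rcases h8.eq_or_lt with h | h
        · left
          have h7 := e.injective h
          rw [mem_singleton_iff, ← hr1 x'.1, h7, hr1 x]
        · exact Or.inr ⟨x'.1.2.1.2, r x'.1, h, (hr1 x'.1).symm⟩
      · intro a b hab
        have h9 : a.1.1 = b.1.1 := congrArg (fun z : ({x.1} ∪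
          (A i ∩ {y | ∃ k, e k < e (r x) ∧ y = f k}) : Set X) => z.1) hab
        exact Subtype.ext (Subtype.ext h9)
    refine h6.trans_lt (card_union_lt hl ?_ (not_le.1 h5))
    rw [mk_singleton]
    exact one_lt_aleph0.trans_le hl
  have h5 : (range f ∩ A i : Set X) ⊆ insert (f i) {x | x ∈ range f ∩ A i ∧ x ≠ f i} := by
    intro x hx
    by_cases h : x = f i
    · exact Or.inl h
    · exact Or.inr ⟨hx, h⟩
  exact (mk_le_mk_of_subset h5).trans (mk_insert_le.trans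
    ((add_le_add h4 (one_le_aleph0.trans hl)).trans_eq (add_eq_self hl)))

/-- gluing transversals of blocks -/
theorem glue {W : Type u} [LinearOrder W] (hl : ℵ₀ ≤ lam) {A : J → Set X} (ρ : J → W) (σ : X → W)
    (h1 : ∀ j, #{x | x ∈ A j ∧ σ x < ρ j} ≤ lam) (T : W → Set X)
    (h2 : ∀ j, (T (ρ j) ∩ {x | x ∈ A j ∧ σ x = ρ j ∧ ∀ i, ρ i < ρ j → x ∉ A i}).Nonempty ∧
      #(T (ρ j) ∩ {x | x ∈ A j ∧ σ x = ρ j ∧ ∀ i, ρ i < ρ j → x ∉ A i} : Set X) ≤ lam) :
    HasTr lam A := by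
  refine ⟨{x | x ∈ T (σ x) ∧ ∀ i, ρ i < σ x → x ∉ A i}, fun j => ⟨?_, ?_⟩⟩
  · obtain ⟨x, hx, hxA, hσ, hi⟩ := (h2 j).1
    refine ⟨x, ⟨?_, ?_⟩, hxA⟩
    · rw [hσ]
      exact hx
    · rw [hσ]
      exact hi
  · have h3 : ({x | x ∈ T (σ x) ∧ ∀ i, ρ i < σ x → x ∉ A i} ∩ A j : Set X) ⊆
        {x | x ∈ A j ∧ σ x < ρ j} ∪
        (T (ρ j) ∩ {x | x ∈ A j ∧ σ x = ρ j ∧ ∀ i, ρ i < ρ j → x ∉ A i}) := by
      rintro x ⟨⟨hx1, hx2⟩, hxA⟩
      rcases lt_trichotomy (σ x) (ρ j) with h | h | h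
      · exact Or.inl ⟨hxA, h⟩
      · rw [h] at hx1 hx2
        exact Or.inr ⟨hx1, hxA, h, hx2⟩
      · exact absurd hxA (hx2 j h)
    exact (mk_le_mk_of_subset h3).trans ((mk_union_le _ _).trans
      ((add_le_add (h1 j) (h2 j).2).trans_eq (add_eq_self hl)))

/-- change of the underlying sets -/
theorem HasTr.transfer {J' X' : Type u} (f : J ≃ J') {A : J → Set X} (g : X → X')
    (hg : InjOn g (⋃ j, A j)) (h : HasTr lam fun j' => g '' A (f.symm j')) : HasTr lam A := by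
  obtain ⟨T, hT⟩ := h
  refine ⟨g ⁻¹' T ∩ ⋃ j, A j, fun j => ?_⟩
  obtain ⟨h1, h2⟩ := hT (f j)
  simp only [Equiv.symm_apply_apply] at h1 h2
  obtain ⟨_, hx, x, hxA, rfl⟩ := h1
  refine ⟨⟨x, ⟨hx, mem_iUnion.2 ⟨j, hxA⟩⟩, hxA⟩, le_trans ?_ h2⟩
  refine mk_le_of_injective (f := fun x : (g ⁻¹' T ∩ (⋃ j, A j) ∩ A j : Set X) =>
    (⟨g x.1, x.2.1.1, x.1, x.2.2, rfl⟩ : (T ∩ g '' A j : Set X'))) fun a b hab => ?_
  exact Subtype.ext (hg a.2.1.2 b.2.1.2 (congrArg Subtype.val hab))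

theorem AD.image {J' X' : Type u} {A : J → Set X} (hA : AD lam A) (f : J' → J)
    (hf : Function.Injective f) (g : X → X') (hg : InjOn g (⋃ j, A j)) :
    AD lam fun j' => g '' A (f j') := by
  intro i j hij
  refine lt_of_le_of_lt ?_ (hA (f i) (f j) fun h => hij (hf h))
  have h1 : (g '' A (f i) ∩ g '' A (f j) : Set X') ⊆ g '' (A (f i) ∩ A (f j)) := by
    rintro _ ⟨⟨x, hx, rfl⟩, y, hy, hxy⟩
    have h2 : y = x := hg (mem_iUnion.2 ⟨_, hy⟩) (mem_iUnion.2 ⟨_, hx⟩) hxy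
    exact ⟨x, ⟨hx, h2 ▸ hy⟩, rfl⟩
  exact (mk_le_mk_of_subset h1).trans mk_image_le

end

end Pool.Agent.H645.T
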