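import Mathlib
import Pool.Agent.H645.TA

set_option autoImplicit false

/-!
# Transversals of almost disjoint families: the induction
-/

namespace Pool.Agent.H645.T

open Cardinal Set

universe u

/-- There are a stationary subset `S` of `η⁺` and sets `G δ ⊆ δ` of size `lam⁺`, for `δ ∈ S`, any two
of which meet in less than `lam` points. -/
def Bad (η lam : Cardinal.{u}) : Prop :=
  ∃ (S : Set (Order.succ η).ord.ToType)
    (G : (Order.succ η).ord.ToType → Set (Order.succ η).ord.ToType),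
    IsStationary S ∧ (∀ δ ∈ S, G δ ⊆ Iio δ ∧ #(G δ) = Order.succ lam) ∧
      ∀ δ ∈ S, ∀ δ' ∈ S, δ ≠ δ' → #(G δ ∩ G δ' : Set (Order.succ η).ord.ToType) < lam

/-! ### Closure points -/

section

variable {K : Type u} [LinearOrder K] [WellFoundedLT K] {η : Cardinal.{u}}

/-- `α` is closed under `F` -/
def Cl (F : K → K) (α : K) : Prop := ∀ a < α, F a < α

theorem exists_closed (h : IsSuccType η K) (F : K → K) (a0 : K) : ∃ δ > a0, Cl F δ := by
  have h1 : ∀ a : K, ∃ c, a < c ∧ ∀ x ≤ a, F x < c := by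
    intro a
    obtain ⟨c, hc⟩ := h.bddF (fun p : Iic a => F p.1) (h.initc a)
    obtain ⟨d, hd1, hd2⟩ := h.gt2 c a
    exact ⟨d, hd2, fun x hx => (hc ⟨x, hx⟩).trans hd1⟩
  choose G hG1 hG2 using h1
  let s : ℕ → K := fun n => Nat.rec a0 (fun _ x => G x) n
  have hs : ∀ n, s (n + 1) = G (s n) := fun n => rfl
  obtain ⟨b, hb⟩ := h.bddN s
  obtain ⟨δ, hδ, hmin⟩ := (wellFounded_lt (α := K)).has_min {δ | ∀ n, s n < δ} ⟨b, hb⟩
  refine ⟨δ, hδ 0, fun a ha => ?_⟩
  have h2 : ∃ n, a ≤ s n := by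
    by_contra hcon
    push Not at hcon
    exact hmin a hcon ha
  obtain ⟨n, hn⟩ := h2
  exact (hG2 (s n) a hn).trans (by rw [← hs n]; exact hδ (n + 1))

theorem stat_iff (h : IsSuccType η K) {S : Set K} : Stat S ↔ IsStationary S := by
  constructor
  · intro hS C hC
    have h1 : ∀ a : K, ∃ c ∈ C, a < c := by
      intro a
      obtain ⟨b, hb⟩ := h.exists_gt a
      obtain ⟨c, hc, hbc⟩ := hC.isCofinal b
      exact ⟨c, hc, hb.trans_le hbc⟩
    choose F hF1 hF2 using h1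
    obtain ⟨δ, hδS, ⟨a0, ha0⟩, hδ⟩ := hS F
    refine ⟨δ, hδS, hC.isLUB_mem (t := F '' Iio δ) ?_ ⟨F a0, a0, ha0, rfl⟩ ⟨?_, ?_⟩⟩
    · rintro _ ⟨a, _, rfl⟩
      exact hF1 a
    · rintro _ ⟨a, ha, rfl⟩
      exact (hδ a ha).le
    · intro b hb
      by_contra hlt
      rw [not_le] at hlt
      exact absurd (hb ⟨b, hlt, rfl⟩) (not_le.2 (hF2 b))
  · intro hS F
    have hC : IsClub {δ : K | (∃ a, a < δ) ∧ ∀ a < δ, F a < δ} := by
      refine ⟨?_, fun a => ?_⟩
      · intro d hd hne _ a ha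
        obtain ⟨x, hx⟩ := hne
        obtain ⟨y, hy⟩ := (hd hx).1
        refine ⟨⟨y, hy.trans_le (ha.1 hx)⟩, fun b hb => ?_⟩
        obtain ⟨z, hz, hbz⟩ : ∃ z ∈ d, b < z := by
          by_contra hcon
          push Not at hcon
          exact absurd (ha.2 hcon) (not_le.2 hb)
        exact ((hd hz).2 b hbz).trans_le (ha.1 hz)
      · obtain ⟨δ, hδ, hcl⟩ := exists_closed h F a
        exact ⟨δ, ⟨⟨a, hδ⟩, hcl⟩, hδ.le⟩
    obtain ⟨δ, hδ1, hδ2⟩ := hS hC
    exact ⟨δ, hδ1, hδ2⟩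

omit [WellFoundedLT K] in
theorem Stat.inter_cl {S : Set K} (hS : Stat S) (F : K → K) :
    Stat {δ ∈ S | Cl F δ} := by
  intro F'
  obtain ⟨δ, hδ, h1, h2⟩ := hS fun a => max (F a) (F' a)
  exact ⟨δ, ⟨hδ, fun a ha => (le_max_left _ _).trans_lt (h2 a ha)⟩, h1,
    fun a ha => (le_max_right _ _).trans_lt (h2 a ha)⟩

/-- the greatest closure point of `F` below `k` -/
noncomputable def fl (F : K → K) (k : K) : K :=
  (wellFounded_lt (α := K)).min {γ | ∀ α, Cl F α → α ≤ k → α ≤ γ} ⟨k, fun _ _ h => h⟩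

theorem le_fl {F : K → K} {k α : K} (hα : Cl F α) (h : α ≤ k) : α ≤ fl F k :=
  (wellFounded_lt (α := K)).min_mem {γ | ∀ α, Cl F α → α ≤ k → α ≤ γ} ⟨k, fun _ _ h => h⟩ α hα h

theorem fl_le (F : K → K) (k : K) : fl F k ≤ k :=
  not_lt.1 ((wellFounded_lt (α := K)).not_lt_min {γ | ∀ α, Cl F α → α ≤ k → α ≤ γ}
    (fun _ _ h => h))

theorem cl_fl (F : K → K) (k : K) : Cl F (fl F k) := by
  intro a ha
  have h1 : ¬ ∀ α, Cl F α → α ≤ k → α ≤ a := fun h =>
    (wellFounded_lt (α := K)).not_lt_min {γ | ∀ α, Cl F α → α ≤ k → α ≤ γ} h ha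
  push Not at h1
  obtain ⟨α, hα, hαk, haα⟩ := h1
  exact (hα a haα).trans_le (le_fl hα hαk)

theorem lt_of_fl_lt {F : K → K} {k α : K} (hα : Cl F α) (h : fl F k < α) : k < α := by
  by_contra hcon
  exact absurd (le_fl hα (not_lt.1 hcon)) (not_le.2 h)

/-- the blocks between closure points are small -/
theorem card_block (h : IsSuccType η K) (F : K → K) (w : K) : #{j // fl F j = w} ≤ η := by
  obtain ⟨δ, hδ, hcl⟩ := exists_closed h F w
  refine le_trans ?_ (h.init δ)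
  refine mk_le_of_injective (f := fun j : {j // fl F j = w} => (⟨j.1, ?_⟩ : Iio δ)) ?_
  · exact lt_of_fl_lt hcl (by rw [j.2]; exact hδ)
  · intro i j hij
    exact Subtype.ext (congrArg (fun z : Iio δ => z.1) hij)

end

/-! ### Decompositions -/

section

variable {J X : Type u} {lam κ : Cardinal.{u}}

theorem rank_step {W : Type u} [LinearOrder W] [WellFoundedLT W] (hl : ℵ₀ ≤ lam) (hlk : lam < κ)
    {A : J → Set X} (hA : ∀ j, #(A j) = κ) (had : AD lam A) (ρ : J → W)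
    (hblock : ∀ w, ∀ B : {j // ρ j = w} → Set X, (∀ j, #(B j) = κ) → AD lam B → HasTr lam B)
    (hb : ∀ j, #{x | x ∈ A j ∧ ∃ i, ρ i < ρ j ∧ x ∈ A i} ≤ lam) : HasTr lam A := by
  classical
  rcases isEmpty_or_nonempty J with hJ | ⟨⟨j0⟩⟩
  · exact ⟨∅, fun j => (hJ.false j).elim⟩
  have hs : ∀ x : X, ∃ w : W, (∀ i, x ∈ A i → w ≤ ρ i) ∧
      ((∃ i, x ∈ A i) → ∃ i, ρ i = w ∧ x ∈ A i) := by
    intro x
    by_cases h : ∃ i, x ∈ A i
    · obtain ⟨i, hi⟩ := h
      obtain ⟨w, ⟨i', hi', hx⟩, hmin⟩ := (wellFounded_lt (α := W)).has_min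
        {w | ∃ i, ρ i = w ∧ x ∈ A i} ⟨ρ i, i, rfl, hi⟩
      exact ⟨w, fun k hk => not_lt.1 (hmin (ρ k) ⟨k, rfl, hk⟩), fun _ => ⟨i', hi', hx⟩⟩
    · exact ⟨ρ j0, fun i hi => absurd ⟨i, hi⟩ h, fun h' => absurd h' h⟩
  choose σ hσ1 hσ2 using hs
  have hlt : ∀ j x, x ∈ A j → σ x < ρ j → ∃ i, ρ i < ρ j ∧ x ∈ A i := by
    intro j x hx h
    obtain ⟨i, hi, hxi⟩ := hσ2 x ⟨j, hx⟩
    exact ⟨i, hi ▸ h, hxi⟩
  let B : J → Set X := fun j => {x | x ∈ A j ∧ σ x = ρ j ∧ ∀ i, ρ i < ρ j → x ∉ A i}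
  have hB : ∀ j, #(B j) = κ := by
    intro j
    apply le_antisymm
    · rw [← hA j]
      exact mk_le_mk_of_subset fun x hx => hx.1
    · by_contra hcon
      rw [not_le] at hcon
      have h1 : A j ⊆ B j ∪ {x | x ∈ A j ∧ ∃ i, ρ i < ρ j ∧ x ∈ A i} := by
        intro x hx
        by_cases h : ∃ i, ρ i < ρ j ∧ x ∈ A i
        · exact Or.inr ⟨hx, h⟩
        · refine Or.inl ⟨hx, ?_, ?_⟩
          · refine (hσ1 x j hx).antisymm (not_lt.1 fun h2 => h (hlt j x hx h2))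
          · intro i hi hxi
            exact h ⟨i, hi, hxi⟩
      have h2 := (mk_le_mk_of_subset h1).trans_lt (card_union_lt (hl.trans hlk.le) hcon
        ((hb j).trans_lt hlk))
      rw [hA j] at h2
      exact lt_irrefl _ h2
  have hT : ∀ w, HasTr lam fun j : {j // ρ j = w} => B j.1 := fun w =>
    hblock w _ (fun j => hB j.1) fun i j hij => lt_of_le_of_lt
      (mk_le_mk_of_subset (show (B i.1 ∩ B j.1 : Set X) ⊆ A i.1 ∩ A j.1 from
        fun x hx => ⟨hx.1.1, hx.2.1⟩)) (had i.1 j.1 fun h => hij (Subtype.ext h))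
  choose T hT using hT
  have h1 : ∀ j, {x | x ∈ A j ∧ σ x < ρ j} ⊆ {x | x ∈ A j ∧ ∃ i, ρ i < ρ j ∧ x ∈ A i} :=
    fun j x hx => ⟨hx.1, hlt j x hx.1 hx.2⟩
  exact glue hl ρ σ (fun j => (mk_le_mk_of_subset (h1 j)).trans (hb j)) T
    fun j => hT (ρ j) ⟨j, rfl⟩

/-- closure under: a set of the family which meets the union in `lam` points belongs to it -/
def ClosedF (lam : Cardinal.{u}) (A : J → Set X) (U : Set J) : Prop :=
  ∀ j, lam ≤ #(A j ∩ ⋃ i ∈ U, A i : Set X) → j ∈ U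

theorem gch_pow (hGCH : ∀ ν : Cardinal.{u}, ℵ₀ ≤ ν → 2 ^ ν = Order.succ ν) {ν σ lam : Cardinal.{u}}
    (hσ : ℵ₀ ≤ σ) (hν : ν ≤ Order.succ σ) (hl : lam ≤ σ) : ν ^ lam ≤ Order.succ σ := by
  rw [← hGCH σ hσ] at hν ⊢
  refine (power_le_power_right hν).trans ?_
  rw [← power_mul]
  exact power_le_power_left two_ne_zero ((mul_le_mul' le_rfl hl).trans_eq (mul_eq_self hσ))

theorem exists_closedF (hGCH : ∀ ν : Cardinal.{u}, ℵ₀ ≤ ν → 2 ^ ν = Order.succ ν)
    (hl : ℵ₀ ≤ lam) (hlk : lam < κ) {A : J → Set X} (hA : ∀ j, #(A j) ≤ κ) (had : AD lam A)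
    {σ : Cardinal.{u}} (hκσ : κ ≤ σ) (Z : Set J) (hZ : #Z ≤ Order.succ σ) :
    ∃ U, Z ⊆ U ∧ ClosedF lam A U ∧ #U ≤ Order.succ σ := by
  classical
  have hσ : ℵ₀ ≤ σ := (hl.trans hlk.le).trans hκσ
  have hσ' : ℵ₀ ≤ Order.succ σ := hσ.trans (Order.le_succ σ)
  let St : Set J → Set J := fun Y => {j | lam ≤ #(A j ∩ ⋃ i ∈ Y, A i : Set X)}
  have hSt : ∀ Y : Set J, #Y ≤ Order.succ σ → #(St Y) ≤ Order.succ σ := by
    intro Y hY
    refine (few_sets had _).trans (gch_pow hGCH hσ ?_ (hlk.le.trans hκσ))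
    rw [biUnion_eq_iUnion]
    exact card_iUnion_le hσ' _ hY fun i => (hA i.1).trans (hκσ.trans (Order.le_succ σ))
  let L := (Order.succ lam).ord.ToType
  have hL : IsSuccType lam L := IsSuccType.toType hl
  let Zs : L → Set J := (wellFounded_lt (α := L)).fix fun s ih =>
    Z ∪ ⋃ t : Iio s, St (ih t.1 t.2)
  have hZs : ∀ s, Zs s = Z ∪ ⋃ t : Iio s, St (Zs t.1) := fun s =>
    (wellFounded_lt (α := L)).fix_eq _ s
  have hcard : ∀ s, #(Zs s) ≤ Order.succ σ := by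
    intro s
    induction s using WellFoundedLT.induction with
    | _ s ih =>
      rw [hZs s]
      refine (mk_union_le _ _).trans ((add_le_add hZ (card_iUnion_le hσ' _
        ((hL.init s).trans (hlk.le.trans (hκσ.trans (Order.le_succ σ))))
        fun t => hSt _ (ih t.1 t.2))).trans_eq (add_eq_self hσ'))
  have hmono : ∀ s t, s < t → St (Zs s) ⊆ Zs t := by
    intro s t hst
    rw [hZs t]
    exact subset_union_of_subset_right (subset_iUnion (fun t' : Iio t => St (Zs t'.1)) ⟨s, hst⟩) _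
  have hmono2 : ∀ s t, s ≤ t → Zs s ⊆ Zs t := by
    intro s t hst
    rcases hst.eq_or_lt with rfl | hst
    · exact subset_rfl
    · intro j hj
      rw [hZs s] at hj
      rcases hj with hj | hj
      · rw [hZs t]
        exact Or.inl hj
      · obtain ⟨r, hr⟩ := mem_iUnion.1 hj
        exact hmono r.1 t (lt_trans r.2 hst) hr
  refine ⟨⋃ s, Zs s, ?_, ?_, ?_⟩
  · obtain ⟨s⟩ := hL.nonempty
    intro j hj
    refine mem_iUnion.2 ⟨s, ?_⟩
    rw [hZs s]
    exact Or.inl hj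
  · intro j hj
    have h1 : #(lam.ord.ToType) ≤ #(A j ∩ ⋃ i ∈ ⋃ s, Zs s, A i : Set X) := by
      rw [mk_ord_toType]; exact hj
    obtain ⟨e⟩ := h1
    have h2 : ∀ t, ∃ s, (e t).1 ∈ ⋃ i ∈ Zs s, A i := by
      intro t
      obtain ⟨i, hi, hx⟩ := mem_iUnion₂.1 (e t).2.2
      obtain ⟨s, hs⟩ := mem_iUnion.1 hi
      exact ⟨s, mem_iUnion₂.2 ⟨i, hs, hx⟩⟩
    choose s hs using h2
    obtain ⟨b, hb⟩ := hL.bddF s (by rw [mk_ord_toType])
    obtain ⟨b', hb'⟩ := hL.exists_gt b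
    refine mem_iUnion.2 ⟨b', hmono b b' hb' ?_⟩
    show lam ≤ #(A j ∩ ⋃ i ∈ Zs b, A i : Set X)
    refine (mk_ord_toType lam).symm.le.trans ?_
    refine mk_le_of_injective (f := fun t => (⟨(e t).1, (e t).2.1, ?_⟩ :
      (A j ∩ ⋃ i ∈ Zs b, A i : Set X))) ?_
    · obtain ⟨i, hi, hx⟩ := mem_iUnion₂.1 (hs t)
      exact mem_iUnion₂.2 ⟨i, hmono2 _ _ (hb t).le hi, hx⟩
    · intro t t' htt
      exact e.injective (Subtype.ext (congrArg (fun z : (A j ∩ ⋃ i ∈ Zs b, A i : Set X) => z.1)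
        htt))
  · refine card_iUnion_le hσ' _ ?_ hcard
    rw [hL.card]
    exact (Order.succ_le_of_lt hlk).trans (hκσ.trans (Order.le_succ σ))

/-- the step for limit cardinals -/
theorem limit_step (hGCH : ∀ ν : Cardinal.{u}, ℵ₀ ≤ ν → 2 ^ ν = Order.succ ν)
    (hl : ℵ₀ ≤ lam) (hlk : lam < κ) {c : Cardinal.{u}} (hκc : κ < c)
    (hlim : ∀ ν < c, Order.succ ν < c) (hJ : #J = c) {A : J → Set X} (hA : ∀ j, #(A j) = κ)
    (had : AD lam A) (IH : ∀ J' : Type u, #J' < c → ∀ B : J' → Set X, (∀ j, #(B j) = κ) →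
      AD lam B → HasTr lam B) : HasTr lam A := by
  classical
  have hc : ℵ₀ ≤ c := (hl.trans hlk.le).trans hκc.le
  obtain ⟨e⟩ : Nonempty (J ≃ c.ord.ToType) := by
    rw [← Cardinal.eq, hJ, mk_ord_toType]
  let C : c.ord.ToType → Set J := fun w => ⋂₀ {U | ClosedF lam A U ∧ e ⁻¹' Iic w ⊆ U}
  have hCmono : ∀ w w', w ≤ w' → C w ⊆ C w' := by
    intro w w' h
    refine sInter_subset_sInter fun U hU => ⟨hU.1, ?_⟩
    exact (preimage_mono (Iic_subset_Iic.2 h)).trans hU.2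
  have hCcl : ∀ w, ClosedF lam A (C w) := by
    intro w j hj U hU
    refine hU.1 j (hj.trans (mk_le_mk_of_subset (inter_subset_inter_right _ ?_)))
    exact biUnion_subset_biUnion_left (sInter_subset_of_mem hU)
  have hCself : ∀ j, j ∈ C (e j) := by
    intro j U hU
    exact hU.2 (le_refl (e j))
  have hCcard : ∀ w, #(C w) < c := by
    intro w
    have h1 : #(e ⁻¹' Iic w) < c := by
      have h2 : #(e ⁻¹' Iic w) ≤ #(Iic w) := mk_le_of_injective
        (f := fun j : (e ⁻¹' Iic w : Set J) => (⟨e j.1, j.2⟩ : (Iic w : Set c.ord.ToType)))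
        fun i j hij => Subtype.ext (e.injective
          (congrArg (fun z : (Iic w : Set c.ord.ToType) => z.1) hij))
      refine h2.trans_lt ?_
      have : (Iic w : Set c.ord.ToType) = insert w (Iio w) := by
        ext x; simp [le_iff_eq_or_lt]
      rw [this]
      exact mk_insert_le.trans_lt (add_lt_of_lt hc (card_Iio_toType w) (one_lt_aleph0.trans_le hc))
    obtain ⟨U, hU1, hU2, hU3⟩ := exists_closedF hGCH hl hlk (fun j => (hA j).le) had
      (σ := max κ #(e ⁻¹' Iic w)) (le_max_left _ _) (e ⁻¹' Iic w)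
      ((le_max_right _ _).trans (Order.le_succ _))
    have h3 : C w ⊆ U := fun j hj => hj U ⟨hU2, hU1⟩
    exact ((mk_le_mk_of_subset h3).trans hU3).trans_lt (hlim _ (max_lt hκc h1))
  have hρ : ∀ j, ∃ w, j ∈ C w ∧ ∀ w' < w, j ∉ C w' := by
    intro j
    obtain ⟨w, hw, hmin⟩ := (wellFounded_lt (α := c.ord.ToType)).has_min {w | j ∈ C w}
      ⟨e j, hCself j⟩
    exact ⟨w, hw, fun w' hw' h => hmin w' h hw'⟩
  choose ρ hρ1 hρ2 using hρ
  refine rank_step hl hlk hA had ρ (fun w B hB1 hB2 => IH _ ?_ B hB1 hB2) fun j => ?_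
  · refine lt_of_le_of_lt ?_ (hCcard w)
    have h1 : ∀ j : {j // ρ j = w}, j.1 ∈ C w := by
      intro j
      have := hρ1 j.1
      rwa [j.2] at this
    exact mk_le_of_injective (f := fun j : {j // ρ j = w} => (⟨j.1, h1 j⟩ : C w))
      fun i j hij => Subtype.ext (congrArg (fun z : C w => z.1) hij)
  · choose i hi1 hi2 using fun x : {x | x ∈ A j ∧ ∃ i, ρ i < ρ j ∧ x ∈ A i} => x.2.2
    refine chain_union hl (fun x => ρ (i x)) fun x => ?_
    have h1 : ¬ lam ≤ #(A j ∩ ⋃ k ∈ C (ρ (i x)), A k : Set X) := fun h =>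
      hρ2 j _ (hi1 x) (hCcl _ j h)
    refine lt_of_le_of_lt ?_ (not_le.1 h1)
    refine mk_le_of_injective (f := fun x' : {x' | ρ (i x') ≤ ρ (i x)} => (⟨x'.1.1, x'.1.2.1,
      mem_iUnion₂.2 ⟨i x'.1, hCmono _ _ x'.2 (hρ1 _), hi2 x'.1⟩⟩ :
      (A j ∩ ⋃ k ∈ C (ρ (i x)), A k : Set X))) fun a b hab => ?_
    exact Subtype.ext (Subtype.ext (congrArg
      (fun z : (A j ∩ ⋃ k ∈ C (ρ (i x)), A k : Set X) => z.1) hab))

end

/-! ### Successor cardinals -/

section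

variable {lam κ η : Cardinal.{u}}

/-- without a bad stationary set, the sets of the family meet the initial segments in few points -/
theorem succ_bad (hl : ℵ₀ ≤ lam) (hη : lam ≤ η) (hB : ¬ Bad η lam)
    {A : (Order.succ η).ord.ToType → Set (Order.succ η).ord.ToType} (had : AD lam A) :
    ∃ F : (Order.succ η).ord.ToType → (Order.succ η).ord.ToType, ∀ α, Cl F α → ∀ j, α ≤ j →
      #(A j ∩ Iio α : Set (Order.succ η).ord.ToType) ≤ lam := by
  classical
  have hK : IsSuccType η (Order.succ η).ord.ToType := IsSuccType.toType (hl.trans hη)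
  let S : Set (Order.succ η).ord.ToType := {α | ∃ j, α ≤ j ∧
    lam < #(A j ∩ Iio α : Set (Order.succ η).ord.ToType)}
  by_cases hS : Stat S
  · exfalso
    apply hB
    have h1 : ∀ α, ∃ j, α ≤ j ∧ (α ∈ S → lam < #(A j ∩ Iio α : Set (Order.succ η).ord.ToType)) := by
      intro α
      by_cases h : α ∈ S
      · obtain ⟨j, hj, hj2⟩ := h
        exact ⟨j, hj, fun _ => hj2⟩
      · exact ⟨α, le_rfl, fun h' => absurd h' h⟩
    choose jj hj1 hj2 using h1
    have h2 : ∀ α, ∃ G : Set (Order.succ η).ord.ToType, α ∈ S → G ⊆ A (jj α) ∩ Iio α ∧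
        #G = Order.succ lam := by
      intro α
      by_cases h : α ∈ S
      · obtain ⟨G, hG1, hG2⟩ := le_mk_iff_exists_subset.1 (Order.succ_le_of_lt (hj2 α h))
        exact ⟨G, fun _ => ⟨hG1, hG2⟩⟩
      · exact ⟨∅, fun h' => absurd h' h⟩
    choose G hG using h2
    refine ⟨{α ∈ S | Cl jj α}, G, (stat_iff hK).1 (Stat.inter_cl hS jj), ?_, ?_⟩
    · rintro δ ⟨hδ, _⟩
      exact ⟨fun x hx => ((hG δ hδ).1 hx).2, (hG δ hδ).2⟩
    · rintro δ ⟨hδ, hc⟩ δ' ⟨hδ', hc'⟩ hne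
      have h3 : jj δ ≠ jj δ' := by
        rcases lt_or_gt_of_ne hne with h | h
        · exact ((hc' δ h).trans_le (hj1 δ')).ne
        · exact ((hc δ' h).trans_le (hj1 δ)).ne'
      exact lt_of_le_of_lt (mk_le_mk_of_subset (show (G δ ∩ G δ' : Set _) ⊆
        A (jj δ) ∩ A (jj δ') from fun x hx => ⟨((hG δ hδ).1 hx.1).1, ((hG δ' hδ').1 hx.2).1⟩))
        (had _ _ h3)
  · unfold Stat at hS
    push Not at hS
    obtain ⟨F, hF⟩ := hS
    refine ⟨F, fun α hα j hj => ?_⟩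
    by_contra hcon
    rw [not_le] at hcon
    have h1 : ∃ a, a < α := by
      obtain ⟨x⟩ := mk_ne_zero_iff.1 (zero_le.trans_lt hcon).ne'
      exact ⟨x.1, x.2.2⟩
    obtain ⟨a, ha, ha2⟩ := hF α ⟨j, hj, hcon⟩ h1
    exact absurd (hα a ha) (not_lt.2 ha2)

/-- the step for successor cardinals -/
theorem succ_step (hl : ℵ₀ ≤ lam) (hlk : lam < κ) (hκη : κ ≤ η) (hB : ¬ Bad η lam)
    {A : (Order.succ η).ord.ToType → Set (Order.succ η).ord.ToType} (hA : ∀ j, #(A j) = κ)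
    (had : AD lam A) (IH : ∀ J' : Type u, #J' ≤ η → ∀ B : J' → Set (Order.succ η).ord.ToType,
      (∀ j, #(B j) = κ) → AD lam B → HasTr lam B) : HasTr lam A := by
  have hK : IsSuccType η (Order.succ η).ord.ToType :=
    IsSuccType.toType (hl.trans (hlk.le.trans hκη))
  obtain ⟨F, hF⟩ := succ_bad hl (hlk.le.trans hκη) hB had
  have h1 : ∀ a, ∃ b, F a < b ∧ ∀ x ∈ A a, x < b := by
    intro a
    obtain ⟨b, hb⟩ := hK.bdd (A a) ((hA a).le.trans hκη)
    obtain ⟨c, hc1, hc2⟩ := hK.gt2 (F a) b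
    exact ⟨c, hc1, fun x hx => (hb x hx).trans hc2⟩
  choose F' hF1 hF2 using h1
  refine rank_step hl hlk hA had (fl F') (fun w B hB1 hB2 => IH _ (card_block hK F' w) B hB1 hB2)
    fun j => ?_
  refine le_trans (mk_le_mk_of_subset ?_) (hF (fl F' j) (fun a ha =>
    (hF1 a).trans (cl_fl F' j a ha)) j (fl_le F' j))
  rintro x ⟨hx, i, hi, hxi⟩
  exact ⟨hx, (hF2 i x hxi).trans (cl_fl F' j i (lt_of_fl_lt (cl_fl F' j) hi))⟩

/-- `η⁺` many sets of size `η⁺`, where `η` is a limit cardinal -/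
theorem base_sing (hGCH : ∀ ν : Cardinal.{u}, ℵ₀ ≤ ν → 2 ^ ν = Order.succ ν)
    (hl : ℵ₀ ≤ lam) (hlη : lam < η) (hlim : ∀ ν < η, Order.succ ν < η) (hB : ¬ Bad η lam)
    {A : (Order.succ η).ord.ToType → Set (Order.succ η).ord.ToType}
    (hA : ∀ j, #(A j) = Order.succ η) (had : AD lam A) : HasTr lam A := by
  classical
  have hη : ℵ₀ ≤ η := hl.trans hlη.le
  have hK : IsSuccType η (Order.succ η).ord.ToType := IsSuccType.toType hη
  obtain ⟨F, hF⟩ := succ_bad hl hlη.le hB had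
  -- many new elements in a bounded part
  have h1 : ∀ j γ, ∃ b, η ≤ #{x | x ∈ A j ∧ γ ≤ x ∧ x < b ∧ ∀ i < j, x ∉ A i} := by
    intro j γ
    have h2 : Order.succ η ≤ #{x | x ∈ A j ∧ γ ≤ x ∧ ∀ i < j, x ∉ A i} := by
      by_contra hcon
      rw [not_le] at hcon
      have h3 : A j ⊆ {x | x ∈ A j ∧ γ ≤ x ∧ ∀ i < j, x ∉ A i} ∪
          (Iio γ ∪ ⋃ i : Iio j, A j ∩ A i.1) := by
        intro x hx
        by_cases h4 : x < γ
        · exact Or.inr (Or.inl h4)
        · by_cases h5 : ∃ i < j, x ∈ A i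
          · obtain ⟨i, hi, hxi⟩ := h5
            exact Or.inr (Or.inr (mem_iUnion.2 ⟨⟨i, hi⟩, hx, hxi⟩))
          · push Not at h5
            exact Or.inl ⟨hx, not_lt.1 h4, h5⟩
      have h4 : #(⋃ i : Iio j, A j ∩ A i.1) ≤ η :=
        card_iUnion_le hη _ (hK.init j) fun i => ((had _ _ i.2.ne').trans hlη).le
      have h5 : #(Iio γ ∪ ⋃ i : Iio j, A j ∩ A i.1 : Set (Order.succ η).ord.ToType) ≤ η :=
        (mk_union_le _ _).trans ((add_le_add (hK.init γ) h4).trans_eq (add_eq_self hη))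
      have h6 := (mk_le_mk_of_subset h3).trans_lt (card_union_lt
        (hη.trans (Order.le_succ η)) hcon (h5.trans_lt (Order.lt_succ η)))
      rw [hA j] at h6
      exact lt_irrefl _ h6
    obtain ⟨Y, hY1, hY2⟩ := le_mk_iff_exists_subset.1 ((Order.le_succ η).trans h2)
    obtain ⟨b, hb⟩ := hK.bdd Y hY2.le
    refine ⟨b, hY2.symm.le.trans (mk_le_mk_of_subset fun x hx => ?_)⟩
    obtain ⟨h3, h4, h5⟩ := hY1 hx
    exact ⟨h3, h4, hb x hx, h5⟩
  choose F1 hF1 using h1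
  have h2 : ∀ a, ∃ b, F a < b ∧ ∀ j ≤ a, ∀ γ ≤ a, F1 j γ < b := by
    intro a
    obtain ⟨b, hb⟩ := hK.bddF (fun p : Iic a × Iic a => F1 p.1.1 p.2.1) (by
      rw [mk_prod, lift_id]
      exact (mul_le_mul' (hK.initc a) (hK.initc a)).trans_eq (mul_eq_self hη))
    obtain ⟨c, hc1, hc2⟩ := hK.gt2 (F a) b
    exact ⟨c, hc1, fun j hj γ hγ => (hb (⟨j, hj⟩, ⟨γ, hγ⟩)).trans hc2⟩
  choose F' hF2 hF3 using h2
  have hF' : ∀ α, Cl F' α → ∀ j, α ≤ j → #(A j ∩ Iio α : Set (Order.succ η).ord.ToType) ≤ lam :=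
    fun α hα j hj => hF α (fun a ha => (hF2 a).trans (hα a ha)) j hj
  let B : (Order.succ η).ord.ToType → Set (Order.succ η).ord.ToType := fun j =>
    {x | x ∈ A j ∧ fl F' x = fl F' j ∧ ∀ i, fl F' i < fl F' j → x ∉ A i}
  have hBc : ∀ j, η ≤ #(B j) := by
    intro j
    refine (hF1 j (fl F' j)).trans (mk_le_mk_of_subset ?_)
    rintro x ⟨hx, hx1, hx2, hx3⟩
    refine ⟨hx, le_antisymm ?_ (le_fl (cl_fl F' j) hx1), fun i hi => hx3 i
      ((lt_of_fl_lt (cl_fl F' j) hi).trans_le (fl_le F' j))⟩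
    by_contra hcon
    rw [not_le] at hcon
    have h3 : j < fl F' x := lt_of_fl_lt (cl_fl F' x) hcon
    have h4 : F1 j (fl F' j) < fl F' x :=
      (hF3 (max j (fl F' j)) j (le_max_left _ _) _ (le_max_right _ _)).trans
        (cl_fl F' x _ (max_lt h3 hcon))
    exact absurd (hx2.trans (h4.trans_le (fl_le F' x))) (lt_irrefl _)
  have hT : ∀ w, HasTr lam fun j : {j // fl F' j = w} => B j.1 := fun w =>
    base_rec hl hlη (fun ν hν => by
      refine (gch_pow hGCH (hl.trans (le_max_right ν lam)) ((le_max_left ν lam).trans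
        (Order.le_succ _)) (le_max_right ν lam)).trans_lt (hlim _ (max_lt hν hlη)))
      (card_block hK F' w) (fun j => hBc j.1) fun i j hij => lt_of_le_of_lt
      (mk_le_mk_of_subset (show (B i.1 ∩ B j.1 : Set _) ⊆ A i.1 ∩ A j.1 from
        fun x hx => ⟨hx.1.1, hx.2.1⟩)) (had i.1 j.1 fun h => hij (Subtype.ext h))
  choose T hT using hT
  refine glue hl (fl F') (fl F') (fun j => ?_) T fun j => hT (fl F' j) ⟨j, rfl⟩
  refine le_trans (mk_le_mk_of_subset ?_) (hF' (fl F' j) (cl_fl F' j) j (fl_le F' j))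
  rintro x ⟨hx, hlt⟩
  exact ⟨hx, lt_of_fl_lt (cl_fl F' j) hlt⟩

/-- reduction to families of subsets of `η⁺` indexed by `η⁺` -/
theorem exists_code (hη : ℵ₀ ≤ η) {J X : Type u} (hJ : #J = Order.succ η) {A : J → Set X}
    (hA : ∀ j, #(A j) ≤ Order.succ η) : ∃ (_ : J ≃ (Order.succ η).ord.ToType)
      (g : X → (Order.succ η).ord.ToType), InjOn g (⋃ j, A j) := by
  classical
  have hη' : ℵ₀ ≤ Order.succ η := hη.trans (Order.le_succ η)
  obtain ⟨f⟩ : Nonempty (J ≃ (Order.succ η).ord.ToType) := by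
    rw [← Cardinal.eq, hJ, mk_ord_toType]
  have h1 : #(⋃ j, A j) ≤ #((Order.succ η).ord.ToType) := by
    rw [mk_ord_toType]
    exact card_iUnion_le hη' _ hJ.le hA
  obtain ⟨e⟩ := h1
  have hne : Nonempty (Order.succ η).ord.ToType := (IsSuccType.toType hη).nonempty
  refine ⟨f, fun x => if h : x ∈ ⋃ j, A j then e ⟨x, h⟩ else hne.some, ?_⟩
  intro x hx y hy hxy
  simp only [dif_pos hx, dif_pos hy] at hxy
  exact congrArg Subtype.val (e.injective hxy)

theorem succ_or_limit (c : Cardinal.{u}) : (∃ η, c = Order.succ η) ∨ ∀ ν < c, Order.succ ν < c := by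
  by_cases h : ∀ ν < c, Order.succ ν < c
  · exact Or.inr h
  · push Not at h
    obtain ⟨ν, hν, hc⟩ := h
    exact Or.inl ⟨ν, le_antisymm hc (Order.succ_le_of_lt hν)⟩

/-- **The positive part.** -/
theorem main_pos (hGCH : ∀ ν : Cardinal.{u}, ℵ₀ ≤ ν → 2 ^ ν = Order.succ ν)
    (hl : ℵ₀ ≤ lam) (hlk : lam < κ) (c : Cardinal.{u}) :
    (∀ η : Cardinal.{u}, lam < η → κ ≤ Order.succ η → Order.succ η ≤ c → ¬ Bad η lam) →
    ∀ (J X : Type u), #J = c → ∀ A : J → Set X, (∀ j, #(A j) = κ) → AD lam A → HasTr lam A := by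
  induction c using WellFoundedLT.induction with
  | _ c ih =>
  intro hB J X hJ A hA had
  have hκ : ℵ₀ ≤ κ := hl.trans hlk.le
  have IH : ∀ J' : Type u, #J' < c → ∀ (X' : Type u) (B : J' → Set X'), (∀ j, #(B j) = κ) →
      AD lam B → HasTr lam B := fun J' hJ' X' B hB1 hB2 =>
    ih _ hJ' (fun η h1 h2 h3 => hB η h1 h2 (h3.trans hJ'.le)) J' X' rfl B hB1 hB2
  rcases lt_trichotomy c κ with hc | hc | hc
  · exact base_small hl hlk (hJ ▸ hc) (fun j => (hA j).ge) had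
  · rcases succ_or_limit κ with ⟨η, hη⟩ | hlim
    · have hlη : lam ≤ η := Order.lt_succ_iff.1 (hη ▸ hlk)
      rcases hlη.eq_or_lt with h1 | h1
      · subst h1
        exact base_succ hl (by rw [hJ, hc, hη]) (fun j => by rw [hA j, hη]) had
      · rcases succ_or_limit η with ⟨η', hη'⟩ | hlim
        · have h2 : lam ≤ η' := Order.lt_succ_iff.1 (hη' ▸ h1)
          refine base_rec hl hlk (fun ν hν => ?_) (by rw [hJ, hc]) (fun j => (hA j).ge) had
          rw [hη, Order.lt_succ_iff] at hν ⊢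
          rw [hη'] at hν ⊢
          exact gch_pow hGCH (hl.trans h2) hν h2
        · obtain ⟨f, g, hg⟩ := exists_code (A := A) (hl.trans hlη) (by rw [hJ, hc, hη])
            (fun j => by rw [hA j, hη])
          refine HasTr.transfer f g hg (base_sing hGCH hl h1 hlim
            (hB η h1 hη.le (by rw [← hη, hc])) (fun j => ?_)
            (had.image f.symm f.symm.injective g hg))
          rw [mk_image_eq_of_injOn _ _ (hg.mono (subset_iUnion A _)), hA, hη]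
    · refine base_rec hl hlk (fun ν hν => ?_) (by rw [hJ, hc]) (fun j => (hA j).ge) had
      exact (gch_pow hGCH (hl.trans (le_max_right ν lam)) ((le_max_left ν lam).trans
        (Order.le_succ _)) (le_max_right ν lam)).trans_lt (hlim _ (max_lt hν hlk))
  · rcases succ_or_limit c with ⟨η, hη⟩ | hlim
    · have h1 : κ ≤ η := Order.lt_succ_iff.1 (hη ▸ hc)
      obtain ⟨f, g, hg⟩ := exists_code (A := A) (hκ.trans h1) (by rw [hJ, hη])
        (fun j => by rw [hA j]; exact h1.trans (Order.le_succ η))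
      refine HasTr.transfer f g hg (succ_step hl hlk h1
        (hB η (hlk.trans_le h1) (h1.trans (Order.le_succ η)) hη.ge) (fun j => ?_)
        (had.image f.symm f.symm.injective g hg) fun J' hJ' B hB1 hB2 => ?_)
      · rw [mk_image_eq_of_injOn _ _ (hg.mono (subset_iUnion A _)), hA]
      · exact IH J' (by rw [hη]; exact Order.lt_succ_iff.2 hJ') _ B hB1 hB2
    · exact limit_step hGCH hl hlk hc hlim hJ hA had fun J' hJ' B => IH J' hJ' X B

end

end Pool.Agent.H645.T
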