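import Mathlib
import Pool.Agent.H645.TB

set_option autoImplicit false

/-!
# The principle `Bad`: cofinalities
-/

namespace Pool.Agent.H645.T

open Cardinal Set

universe u

section

variable {lam η : Cardinal.{u}}

/-- a well order of size at least `lam` with all initial segments smaller than `lam` -/
theorem type_eq_of_init {W : Type u} [LinearOrder W] [WellFoundedLT W]
    (h1 : ∀ b : W, #(Iio b) < lam) (h2 : lam ≤ #W) :
    Ordinal.type ((· < ·) : W → W → Prop) = lam.ord := by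
  apply le_antisymm
  · by_contra hcon
    rw [not_le] at hcon
    have h3 := h1 (Ordinal.enum ((· < ·) : W → W → Prop) ⟨lam.ord, hcon⟩)
    have h4 : (Ordinal.typein ((· < ·) : W → W → Prop)
        (Ordinal.enum ((· < ·) : W → W → Prop) ⟨lam.ord, hcon⟩)).card =
        #(Iio (Ordinal.enum ((· < ·) : W → W → Prop) ⟨lam.ord, hcon⟩)) := Ordinal.card_typein _
    rw [Ordinal.typein_enum, card_ord] at h4
    rw [← h4] at h3
    exact lt_irrefl _ h3
  · exact (ord_le_ord.2 h2).trans (ord_le_type _)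

/-- a subset of a well order of type `η.ord` of size at least `lam` all of whose initial segments
are smaller than `lam` -/
theorem cof_eq_of_init (H : Set η.ord.ToType)
    (h1 : ∀ b : η.ord.ToType, #(H ∩ Iic b : Set η.ord.ToType) < lam) (h2 : lam ≤ #H) :
    η.ord.cof = lam.ord.cof := by
  classical
  have hcof : IsCofinal H := by
    intro b
    by_contra hcon
    push Not at hcon
    have h3 : H ⊆ H ∩ Iic b := fun x hx => ⟨hx, (hcon x hx).le⟩
    exact absurd ((h2.trans (mk_le_mk_of_subset h3)).trans_lt (h1 b)) (lt_irrefl _)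
  have h3 : Ordinal.type ((· < ·) : H → H → Prop) = lam.ord := by
    refine type_eq_of_init (fun x => ?_) h2
    refine lt_of_le_of_lt ?_ (h1 x.1)
    exact mk_le_of_injective (f := fun y : (Iio x : Set H) => (⟨y.1.1, y.1.2, (show y.1 < x from
      y.2).le⟩ : (H ∩ Iic x.1 : Set η.ord.ToType))) fun a b hab => Subtype.ext (Subtype.ext
        (congrArg (fun z : (H ∩ Iic x.1 : Set η.ord.ToType) => z.1) hab))
  rw [← h3, Ordinal.cof_type, Order.cof_eq_of_isCofinal hcof, Ordinal.cof_toType]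

theorem pow_small (hGCH : ∀ ν : Cardinal.{u}, ℵ₀ ≤ ν → 2 ^ ν = Order.succ ν) (hl : ℵ₀ ≤ lam)
    (hlη : lam < η) {ν : Cardinal.{u}} (hν : ν < η) : ν ^ lam ≤ η :=
  (gch_pow hGCH (hl.trans (le_max_right ν lam)) ((le_max_left ν lam).trans
    (Order.le_succ _)) (le_max_right ν lam)).trans (Order.succ_le_of_lt (max_lt hν hlη))

/-- the traces of the sets `G δ` on smaller ordinals have size at most `lam`, and less than `lam` if
the cofinalities are different -/
theorem trace_small (hGCH : ∀ ν : Cardinal.{u}, ℵ₀ ≤ ν → 2 ^ ν = Order.succ ν) (hl : ℵ₀ ≤ lam)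
    (hlη : lam < η) {S : Set (Order.succ η).ord.ToType}
    {G : (Order.succ η).ord.ToType → Set (Order.succ η).ord.ToType}
    (hG : ∀ δ ∈ S, ∀ δ' ∈ S, δ ≠ δ' → #(G δ ∩ G δ' : Set (Order.succ η).ord.ToType) < lam) :
    ∃ F : (Order.succ η).ord.ToType → (Order.succ η).ord.ToType, ∀ α, Cl F α → ∀ δ ∈ S, α ≤ δ →
      ∀ y < α, #(G δ ∩ Iic y : Set (Order.succ η).ord.ToType) ≤ lam ∧
      (η.ord.cof ≠ lam.ord.cof → #(G δ ∩ Iic y : Set (Order.succ η).ord.ToType) < lam) := by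
  classical
  have hη : ℵ₀ ≤ η := hl.trans hlη.le
  have hK : IsSuccType η (Order.succ η).ord.ToType := IsSuccType.toType hη
  have he : ∀ y : (Order.succ η).ord.ToType, ∃ e : Iic y → η.ord.ToType, Function.Injective e := by
    intro y
    have h1 : #(Iic y) ≤ #(η.ord.ToType) := by
      rw [mk_ord_toType]
      exact hK.initc y
    obtain ⟨e⟩ := h1
    exact ⟨e, e.injective⟩
  choose e he using he
  -- few sets have a large trace
  let Y : (y : (Order.succ η).ord.ToType) → η.ord.ToType → Set (Order.succ η).ord.ToType :=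
    fun y b => {a | ∃ h : a ≤ y, e y ⟨a, h⟩ ≤ b}
  have hY : ∀ y b, #(Y y b) < η := by
    intro y b
    have h1 : #(Y y b) ≤ #(Iic b) := by
      refine mk_le_of_injective (f := fun a : Y y b => (⟨e y ⟨a.1, a.2.1⟩, a.2.2⟩ :
        (Iic b : Set η.ord.ToType))) fun a a' h => ?_
      have h2 := he y (congrArg (fun z : (Iic b : Set η.ord.ToType) => z.1) h)
      exact Subtype.ext (congrArg (fun z : Iic y => z.1) h2)
    refine h1.trans_lt ?_
    have : (Iic b : Set η.ord.ToType) = insert b (Iio b) := by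
      ext x; simp [le_iff_eq_or_lt]
    rw [this]
    exact mk_insert_le.trans_lt (add_lt_of_lt hη (card_Iio_toType b) (one_lt_aleph0.trans_le hη))
  have hD : ∀ y b, #{δ | δ ∈ S ∧ lam ≤ #(G δ ∩ Y y b : Set (Order.succ η).ord.ToType)} ≤ η := by
    intro y b
    have hAD : AD lam fun δ : S => G δ.1 := fun i j hij => hG i.1 i.2 j.1 j.2
      fun h => hij (Subtype.ext h)
    refine le_trans ?_ ((few_sets hAD (Y y b)).trans (pow_small hGCH hl hlη (hY y b)))
    exact mk_le_of_injective (f := fun δ : {δ | δ ∈ S ∧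
      lam ≤ #(G δ ∩ Y y b : Set (Order.succ η).ord.ToType)} =>
      (⟨⟨δ.1, δ.2.1⟩, δ.2.2⟩ : {i : S | lam ≤ #(G i.1 ∩ Y y b : Set (Order.succ η).ord.ToType)}))
      fun a a' h => Subtype.ext (congrArg (fun z : {i : S | lam ≤
        #(G i.1 ∩ Y y b : Set (Order.succ η).ord.ToType)} => z.1.1) h)
  have hF : ∀ y, ∃ c, ∀ b, ∀ δ ∈ S, lam ≤ #(G δ ∩ Y y b : Set (Order.succ η).ord.ToType) →
      δ < c := by
    intro y
    obtain ⟨c, hc⟩ := hK.bdd (⋃ b, {δ | δ ∈ S ∧
      lam ≤ #(G δ ∩ Y y b : Set (Order.succ η).ord.ToType)})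
      (card_iUnion_le hη _ (mk_ord_toType η).le (hD y))
    exact ⟨c, fun b δ hδ h => hc δ (mem_iUnion.2 ⟨b, hδ, h⟩)⟩
  choose F hF using hF
  refine ⟨F, fun α hα δ hδ hαδ y hy => ?_⟩
  have hsmall : ∀ b, #(G δ ∩ Y y b : Set (Order.succ η).ord.ToType) < lam := by
    intro b
    by_contra hcon
    exact absurd ((hF y b δ hδ (not_lt.1 hcon)).trans (hα y hy)) (not_lt.2 hαδ)
  constructor
  · refine chain_union hl (fun a : (G δ ∩ Iic y : Set (Order.succ η).ord.ToType) =>
      e y ⟨a.1, a.2.2⟩) fun a => ?_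
    refine lt_of_le_of_lt ?_ (hsmall (e y ⟨a.1, a.2.2⟩))
    exact mk_le_of_injective (f := fun a' : {a' : (G δ ∩ Iic y : Set
      (Order.succ η).ord.ToType) | e y ⟨a'.1, a'.2.2⟩ ≤ e y ⟨a.1, a.2.2⟩} =>
      (⟨a'.1.1, a'.1.2.1, a'.1.2.2, a'.2⟩ :
        (G δ ∩ Y y (e y ⟨a.1, a.2.2⟩) : Set (Order.succ η).ord.ToType)))
      fun a b hab => Subtype.ext (Subtype.ext (congrArg (fun z : (G δ ∩ Y y (e y ⟨_, _⟩) : Set
        (Order.succ η).ord.ToType) => z.1) hab))
  · intro hne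
    by_contra hcon
    rw [not_lt] at hcon
    let H : Set η.ord.ToType := range fun a : (G δ ∩ Iic y : Set (Order.succ η).ord.ToType) =>
      e y ⟨a.1, a.2.2⟩
    refine hne (cof_eq_of_init H (fun b => ?_) ?_)
    · refine lt_of_le_of_lt ?_ (hsmall b)
      choose g hg using fun x : (H ∩ Iic b : Set η.ord.ToType) => x.2.1
      refine mk_le_of_injective (f := fun x => (⟨(g x).1, (g x).2.1, (g x).2.2, ?_⟩ :
        (G δ ∩ Y y b : Set (Order.succ η).ord.ToType))) fun x x' h => ?_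
      · exact (hg x).trans_le x.2.2
      · have h1 : (g x).1 = (g x').1 := congrArg (fun z : (G δ ∩ Y y b : Set
          (Order.succ η).ord.ToType) => z.1) h
        have h2 : g x = g x' := Subtype.ext h1
        exact Subtype.ext (by rw [← hg x, ← hg x', h2])
    · refine hcon.trans_eq ?_
      refine (mk_range_eq _ fun a a' h => ?_).symm
      exact Subtype.ext (congrArg (fun z : Iic y => z.1) (he y h))

/-- the principle `Bad` fails when the cofinalities are different -/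
theorem not_bad_of_cof_ne (hGCH : ∀ ν : Cardinal.{u}, ℵ₀ ≤ ν → 2 ^ ν = Order.succ ν)
    (hl : ℵ₀ ≤ lam) (hlη : lam < η) (hne : η.ord.cof ≠ lam.ord.cof) : ¬ Bad η lam := by
  rintro ⟨S, G, hS, hG1, hG2⟩
  have hη : ℵ₀ ≤ η := hl.trans hlη.le
  have hK : IsSuccType η (Order.succ η).ord.ToType := IsSuccType.toType hη
  obtain ⟨F, hF⟩ := trace_small hGCH hl hlη hG2
  obtain ⟨δ, hδ, _, hcl⟩ := (stat_iff hK).2 hS F
  have h1 : #(G δ) ≤ lam := by
    refine chain_union hl (fun a : G δ => a.1) fun a => ?_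
    refine lt_of_le_of_lt ?_ ((hF δ hcl δ hδ le_rfl a.1 ((hG1 δ hδ).1 a.2)).2 hne)
    exact mk_le_of_injective (f := fun a' : {a' : G δ | a'.1 ≤ a.1} => (⟨a'.1.1, a'.1.2, a'.2⟩ :
      (G δ ∩ Iic a.1 : Set (Order.succ η).ord.ToType))) fun b b' h => Subtype.ext (Subtype.ext
        (congrArg (fun z : (G δ ∩ Iic a.1 : Set (Order.succ η).ord.ToType) => z.1) h))
  rw [(hG1 δ hδ).2] at h1
  exact absurd h1 (not_le.2 (Order.lt_succ lam))

/-- a bad family restricted to a stationary set of points of cofinality greater than `lam` -/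
theorem bad_restrict (hGCH : ∀ ν : Cardinal.{u}, ℵ₀ ≤ ν → 2 ^ ν = Order.succ ν)
    (hl : ℵ₀ ≤ lam) (hlη : lam < η) {S : Set (Order.succ η).ord.ToType}
    {G : (Order.succ η).ord.ToType → Set (Order.succ η).ord.ToType} (hS : Stat S)
    (hG1 : ∀ δ ∈ S, G δ ⊆ Iio δ ∧ #(G δ) = Order.succ lam)
    (hG2 : ∀ δ ∈ S, ∀ δ' ∈ S, δ ≠ δ' → #(G δ ∩ G δ' : Set (Order.succ η).ord.ToType) < lam) :
    ∃ S' ⊆ S, Stat S' ∧ ∀ δ ∈ S', ∀ M : Type u, #M ≤ lam → ∀ c : M → (Order.succ η).ord.ToType,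
      (∀ m, c m < δ) → ∃ b < δ, ∀ m, c m < b := by
  obtain ⟨F, hF⟩ := trace_small hGCH hl hlη hG2
  refine ⟨{δ ∈ S | Cl F δ}, fun δ hδ => hδ.1, Stat.inter_cl hS F, ?_⟩
  rintro δ ⟨hδ, hcl⟩ M hM c hc
  by_contra hcon
  push Not at hcon
  have h1 : G δ ⊆ ⋃ m, G δ ∩ Iic (c m) := by
    intro x hx
    obtain ⟨m, hm⟩ := hcon x ((hG1 δ hδ).1 hx)
    exact mem_iUnion.2 ⟨m, hx, hm⟩
  have h2 : #(⋃ m, G δ ∩ Iic (c m) : Set (Order.succ η).ord.ToType) ≤ lam :=
    card_iUnion_le hl _ hM fun m => (hF δ hcl δ hδ le_rfl (c m) (hc m)).1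
  have h3 := (mk_le_mk_of_subset h1).trans h2
  rw [(hG1 δ hδ).2] at h3
  exact absurd h3 (not_le.2 (Order.lt_succ lam))

end

end Pool.Agent.H645.T
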