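import Mathlib
import Pool.Agent.H645.TC

set_option autoImplicit false

/-!
# Named families of sets: definitions, small families, gluing
-/

namespace Pool.Agent.H645.N

open Cardinal Set Pool.Agent.H645.T

universe u

section

variable {P : Type u} [Preorder P]

/-- compatible conditions -/
def Comp (p q : P) : Prop := ∃ r, r ≤ p ∧ r ≤ q

theorem Comp.symm {p q : P} (h : Comp p q) : Comp q p := by
  obtain ⟨r, h1, h2⟩ := h
  exact ⟨r, h2, h1⟩

theorem Comp.rfl' {p : P} : Comp p p := ⟨p, le_rfl, le_rfl⟩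

theorem Comp.mono {p p' q : P} (h : Comp p' q) (hp : p' ≤ p) : Comp p q := by
  obtain ⟨r, h1, h2⟩ := h
  exact ⟨r, h1.trans hp, h2⟩

variable {J X : Type u}

/-- conditions forcing different sets of the family to be almost disjoint -/
def NAD (lam : Cardinal.{u}) (A : J → P → Set X) : Prop :=
  ∀ i j, i ≠ j → ∀ p q, Comp p q → #(A i p ∩ A j q : Set X) < lam

/-- stronger conditions know more elements -/
def Mono (A : J → P → Set X) : Prop := ∀ j p q, q ≤ p → A j p ⊆ A j q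

/-- many elements are known to some conditions -/
def Big (κ : Cardinal.{u}) (A : J → P → Set X) : Prop :=
  ∀ j, ∀ ν < κ, ∀ p, ∃ q ≤ p, ν < #(A j q)

/-- there is a name for a transversal -/
def NTr (rho : Cardinal.{u}) (A : J → P → Set X) : Prop :=
  ∃ T : P → Set X, (∀ j p, ∃ q ≤ p, (T q ∩ A j q).Nonempty) ∧
    ∀ j q, #{x | x ∈ A j q ∧ ∃ p, Comp p q ∧ x ∈ T p} ≤ rho

theorem NAD.ad {lam : Cardinal.{u}} {A : J → P → Set X} (hA : NAD lam A) (q : P) :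
    AD lam fun j => A j q := fun i j hij => hA i j hij q q Comp.rfl'

variable {lam rho κ : Cardinal.{u}}

theorem card_prod_le {Y Z : Type u} {c : Cardinal.{u}} (hc : ℵ₀ ≤ c) (hY : #Y ≤ c) (hZ : #Z ≤ c) :
    #(Y × Z) ≤ c := by
  rw [mk_prod, lift_id, lift_id]
  exact (mul_le_mul' hY hZ).trans_eq (mul_eq_self hc)

theorem few_setsP (hP : #P ≤ rho) {A : J → P → Set X} (hA : NAD lam A) (Y : Set X) :
    #{z : J × P | lam ≤ #(A z.1 z.2 ∩ Y : Set X)} ≤ rho * #Y ^ lam := by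
  have h1 : #{z : J × P | lam ≤ #(A z.1 z.2 ∩ Y : Set X)} ≤
      #(Σ q : P, {i : J | lam ≤ #(A i q ∩ Y : Set X)}) :=
    mk_le_of_injective (f := fun z => ⟨z.1.2, ⟨z.1.1, z.2⟩⟩) (by
      rintro ⟨⟨i, p⟩, hz⟩ ⟨⟨j, q⟩, hw⟩ h
      simp only [Sigma.mk.injEq] at h
      obtain ⟨rfl, h2⟩ := h
      have h3 := congrArg Subtype.val (eq_of_heq h2)
      have h4 : i = j := h3
      subst h4
      rfl)
  refine h1.trans ?_
  rw [mk_sigma]
  refine (sum_le_sum _ (fun _ => #Y ^ lam) fun q => few_sets (hA.ad q) Y).trans ?_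
  rw [sum_const, lift_id, lift_id]
  exact mul_le_mul' hP le_rfl

/-- fewer than `κ` sets -/
theorem base_small (hl : ℵ₀ ≤ lam) (hlr : lam ≤ rho) (hrk : rho < κ) (hP : #P ≤ rho)
    (hJ : #J < κ) {A : J → P → Set X} (had : NAD lam A) (hbig : Big κ A) : NTr rho A := by
  classical
  have hr : ℵ₀ ≤ rho := hl.trans hlr
  set B := max #J rho with hB
  have hBκ : B < κ := max_lt hJ hrk
  have hB0 : ℵ₀ ≤ B := hr.trans (le_max_right _ _)
  have h1 : ∀ j p, ∃ x, B < #(A j p) → x ∈ A j p ∧ ∀ i ≠ j, ∀ r, Comp r p → x ∉ A i r := by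
    intro j p
    by_cases h : B < #(A j p)
    · obtain ⟨x, hx, hx2⟩ := exists_mem_diff (A := A j p)
        (B := ⋃ z : {z : J × P // z.1 ≠ j ∧ Comp z.2 p}, A j p ∩ A z.1.1 z.1.2)
        (lt_of_le_of_lt (card_iUnion_le hB0 _ ((mk_subtype_le _).trans
          (card_prod_le hB0 (le_max_left _ _) (hP.trans (le_max_right _ _))))
          fun z => ((had _ _ (Ne.symm z.2.1) _ _ z.2.2.symm).le.trans hlr).trans
            (le_max_right _ _)) h)
      exact ⟨x, fun _ => ⟨hx, fun i hi r hr hxi => hx2 (mem_iUnion.2 ⟨⟨(i, r), hi, hr⟩, hx, hxi⟩)⟩⟩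
    · have hX : Nonempty X := by
        obtain ⟨q, _, hq⟩ := hbig j 0 (zero_le.trans_lt hrk) p
        obtain ⟨x⟩ := mk_ne_zero_iff.1 hq.ne'
        exact ⟨x.1⟩
      exact ⟨hX.some, fun h' => absurd h' h⟩
  choose f hf using h1
  refine ⟨fun p => {x | ∃ j, B < #(A j p) ∧ x = f j p}, fun j p => ?_, fun j q => ?_⟩
  · obtain ⟨q, hq, hq2⟩ := hbig j B hBκ p
    exact ⟨q, hq, f j q, ⟨j, hq2, rfl⟩, (hf j q hq2).1⟩
  · refine le_trans (mk_le_mk_of_subset (t := range (f j)) ?_) (mk_range_le.trans hP)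
    rintro x ⟨hx, p, hpq, i, hi, rfl⟩
    by_cases hij : i = j
    · subst hij
      exact ⟨p, rfl⟩
    · exact absurd hx ((hf i p hi).2 j (Ne.symm hij) q hpq.symm)

/-- a family of at most `rho⁺` sets of size `rho⁺` -/
theorem base_succ (hl : ℵ₀ ≤ lam) (hlr : lam ≤ rho) (hP : #P ≤ rho)
    (hJ : #J ≤ Order.succ rho) {A : J → P → Set X} (had : NAD lam A)
    (hbig : Big (Order.succ rho) A) : NTr rho A := by
  classical
  have hr : ℵ₀ ≤ rho := hl.trans hlr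
  have hJ' : #J ≤ #((Order.succ rho).ord.ToType) := by rw [mk_ord_toType]; exact hJ
  obtain ⟨e⟩ := hJ'
  have hsmall : ∀ j, #{i | e i ≤ e j} ≤ rho := by
    intro j
    refine le_trans ?_ ((IsSuccType.toType hr).initc (e j))
    exact mk_le_of_injective (f := fun i : {i | e i ≤ e j} => (⟨e i.1, i.2⟩ : Iic (e j)))
      fun i i' h => Subtype.ext (e.injective (congrArg Subtype.val h))
  have h1 : ∀ j p, ∃ x, rho < #(A j p) → x ∈ A j p ∧ ∀ i, e i < e j → ∀ r, Comp r p →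
      x ∉ A i r := by
    intro j p
    by_cases h : rho < #(A j p)
    · obtain ⟨x, hx, hx2⟩ := exists_mem_diff (A := A j p)
        (B := ⋃ z : {z : {i | e i ≤ e j} × P // e z.1.1 < e j ∧ Comp z.2 p},
          A j p ∩ A z.1.1.1 z.1.2)
        (lt_of_le_of_lt (card_iUnion_le hr _ ((mk_subtype_le _).trans
          (card_prod_le hr (hsmall j) hP))
          fun z => ((had _ _ (fun h => absurd (congrArg e h) z.2.1.ne') _ _ z.2.2.symm).le.trans
            hlr)) h)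
      exact ⟨x, fun _ => ⟨hx, fun i hi r hr hxi => hx2 (mem_iUnion.2
        ⟨⟨(⟨i, hi.le⟩, r), hi, hr⟩, hx, hxi⟩)⟩⟩
    · have hX : Nonempty X := by
        obtain ⟨q, _, hq⟩ := hbig j 0 (zero_le.trans_lt (Order.lt_succ rho)) p
        obtain ⟨x⟩ := mk_ne_zero_iff.1 hq.ne'
        exact ⟨x.1⟩
      exact ⟨hX.some, fun h' => absurd h' h⟩
  choose f hf using h1
  refine ⟨fun p => {x | ∃ j, rho < #(A j p) ∧ x = f j p}, fun j p => ?_, fun j q => ?_⟩
  · obtain ⟨q, hq, hq2⟩ := hbig j rho (Order.lt_succ rho) p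
    exact ⟨q, hq, f j q, ⟨j, hq2, rfl⟩, (hf j q hq2).1⟩
  · refine le_trans (mk_le_mk_of_subset (t := range fun z : {i | e i ≤ e j} × P => f z.1.1 z.2) ?_)
      (mk_range_le.trans (card_prod_le hr (hsmall j) hP))
    rintro x ⟨hx, p, hpq, i, hi, rfl⟩
    refine ⟨(⟨i, ?_⟩, p), rfl⟩
    show e i ≤ e j
    by_contra hlt
    exact (hf i p hi).2 j (not_le.1 hlt) q hpq.symm hx

/-- a family of at most `κ` sets of size at least `κ`, when all powers `ν ^ lam` are small -/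
theorem base_rec (hl : ℵ₀ ≤ lam) (hlr : lam ≤ rho) (hrk : rho < κ) (hP : #P ≤ rho)
    (hpow : ∀ ν < κ, ν ^ lam < κ) (hJ : #J ≤ κ) {A : J → P → Set X} (had : NAD lam A)
    (hbig : Big κ A) : NTr rho A := by
  classical
  have hr : ℵ₀ ≤ rho := hl.trans hlr
  have hκ : ℵ₀ ≤ κ := hr.trans hrk.le
  have hlam0 : lam ≠ 0 := (aleph0_pos.trans_le hl).ne'
  have hJ' : #J ≤ #(κ.ord.ToType) := by rw [mk_ord_toType]; exact hJ
  obtain ⟨e⟩ := hJ'
  rcases isEmpty_or_nonempty P with hP0 | ⟨⟨p0⟩⟩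
  · exact ⟨fun _ => ∅, fun j p => (hP0.false p).elim, fun j q => (hP0.false q).elim⟩
  rcases isEmpty_or_nonempty J with hJ0 | ⟨⟨j0⟩⟩
  · exact ⟨fun _ => ∅, fun j p => (hJ0.false j).elim, fun j q => (hJ0.false j).elim⟩
  have hX : Nonempty X := by
    obtain ⟨q, _, hq⟩ := hbig j0 0 (zero_le.trans_lt hrk) p0
    obtain ⟨x⟩ := mk_ne_zero_iff.1 hq.ne'
    exact ⟨x.1⟩
  have hwf : WellFounded fun i j : J => e i < e j := InvImage.wf e wellFounded_lt
  have hinit : ∀ j, #{i | e i < e j} < κ := by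
    intro j
    refine lt_of_le_of_lt ?_ (card_Iio_toType (e j))
    exact mk_le_of_injective (f := fun i : {i | e i < e j} => (⟨e i.1, i.2⟩ : Iio (e j)))
      fun i i' h => Subtype.ext (e.injective (congrArg Subtype.val h))
  -- the threshold
  let y : J → Cardinal.{u} := fun j => #{i | e i < e j} * rho
  have hy : ∀ j, y j < κ := fun j => mul_lt_of_lt hκ (hinit j) hrk
  let B : J → Cardinal.{u} := fun j => max rho (y j ^ lam)
  have hBκ : ∀ j, B j < κ := fun j => max_lt hrk (hpow _ (hy j))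
  have hB0 : ∀ j, ℵ₀ ≤ B j := fun j => hr.trans (le_max_left _ _)
  have hyB : ∀ j, y j ≤ B j := fun j =>
    (self_le_power (y j) (one_le_aleph0.trans hl)).trans (le_max_right _ _)
  have hstep : ∀ (j : J) (ih : ∀ i, e i < e j → P → X) (p : P), ∃ x, B j < #(A j p) →
      x ∈ A j p ∧ x ∉ {y | ∃ k, ∃ h : e k < e j, ∃ p', y = ih k h p'} ∧ ∀ i r, i ≠ j → Comp r p →
      lam ≤ #(A i r ∩ {y | ∃ k, ∃ h : e k < e j, ∃ p', y = ih k h p'} : Set X) → x ∉ A i r := by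
    intro j ih p
    by_cases hb : B j < #(A j p)
    · set Y : Set X := {y | ∃ k, ∃ h : e k < e j, ∃ p', y = ih k h p'} with hY
      have hYc : #Y ≤ y j := by
        have h1 : Y ⊆ range fun k : {k | e k < e j} × P => ih k.1.1 k.1.2 k.2 := by
          rintro _ ⟨k, h, p', rfl⟩
          exact ⟨(⟨k, h⟩, p'), rfl⟩
        refine ((mk_le_mk_of_subset h1).trans mk_range_le).trans ?_
        rw [mk_prod, lift_id, lift_id]
        exact mul_le_mul' le_rfl hP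
      have h2 : #(Y ∪ ⋃ z : {z : J × P // z.1 ≠ j ∧ Comp z.2 p ∧
          lam ≤ #(A z.1 z.2 ∩ Y : Set X)}, A j p ∩ A z.1.1 z.1.2 : Set X) ≤ B j := by
        refine (mk_union_le _ _).trans ((add_le_add (hYc.trans (hyB j)) (card_iUnion_le (hB0 j) _
          ?_ fun z => ((had _ _ (Ne.symm z.2.1) _ _ z.2.2.1.symm).le.trans hlr).trans
            (le_max_left _ _))).trans_eq (add_eq_self (hB0 j)))
        refine (mk_le_mk_of_subset (t := {z : J × P | lam ≤ #(A z.1 z.2 ∩ Y : Set X)})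
          fun z hz => hz.2.2).trans ((few_setsP hP had Y).trans ?_)
        refine (mul_le_mul' (le_max_left _ _) ((power_le_power_right hYc).trans
          (le_max_right rho _))).trans_eq (mul_eq_self (hB0 j))
      obtain ⟨x, hx, hx2⟩ := exists_mem_diff (h2.trans_lt hb)
      exact ⟨x, fun _ => ⟨hx, fun h => hx2 (Or.inl h), fun i r hij hrp hi hxi =>
        hx2 (Or.inr (mem_iUnion.2 ⟨⟨(i, r), hij, hrp, hi⟩, hx, hxi⟩))⟩⟩
    · exact ⟨hX.some, fun h => absurd h hb⟩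
  choose st hst using hstep
  let f : J → P → X := hwf.fix st
  have hf : ∀ j, f j = st j fun i _ => f i := fun j => hwf.fix_eq st j
  have hf0 : ∀ j, {y | ∃ k, ∃ _ : e k < e j, ∃ p', y = f k p'} =
      {y | ∃ k, e k < e j ∧ ∃ p', y = f k p'} := by
    intro j
    ext y
    simp
  have hf1 : ∀ j p, B j < #(A j p) → f j p ∈ A j p := fun j p h => by
    rw [hf j]; exact (hst j _ p h).1
  have hf2 : ∀ j p, B j < #(A j p) → f j p ∉ {y | ∃ k, e k < e j ∧ ∃ p', y = f k p'} := by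
    intro j p h
    have h1 := (hst j (fun i _ => f i) p h).2.1
    rw [hf0 j, ← hf j] at h1
    exact h1
  have hf3 : ∀ j p, B j < #(A j p) → ∀ i r, i ≠ j → Comp r p →
      lam ≤ #(A i r ∩ {y | ∃ k, e k < e j ∧ ∃ p', y = f k p'} : Set X) → f j p ∉ A i r := by
    intro j p h i r hij hrp h2
    have h1 := (hst j (fun i _ => f i) p h).2.2 i r hij hrp
    rw [hf0 j, ← hf j] at h1
    exact h1 h2
  refine ⟨fun p => {x | ∃ j, B j < #(A j p) ∧ x = f j p}, fun j p => ?_, fun j q => ?_⟩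
  · obtain ⟨q, hq, hq2⟩ := hbig j (B j) (hBκ j) p
    exact ⟨q, hq, f j q, ⟨j, hq2, rfl⟩, hf1 j q hq2⟩
  · let H : Set J := {k | k ≠ j ∧ ∃ p, Comp p q ∧ B k < #(A k p) ∧ f k p ∈ A j q}
    have hH : #H ≤ lam := by
      refine chain_union hl (fun k : H => e k.1) fun k => ?_
      obtain ⟨hkj, p, hpq, hkp, hk⟩ := k.2
      have h1 : ¬ lam ≤ #(A j q ∩ {y | ∃ k', e k' < e k.1 ∧ ∃ p', y = f k' p'} : Set X) :=
        fun h => hf3 k.1 p hkp j q (Ne.symm hkj) hpq.symm h hk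
      choose pp hpp1 hpp2 hpp3 using fun k' : H => k'.2.2
      have h2 : #{k' : H | e k'.1 ≤ e k.1} ≤ #({f k.1 (pp k)} ∪ (A j q ∩
          {y | ∃ k', e k' < e k.1 ∧ ∃ p', y = f k' p'}) : Set X) := by
        refine mk_le_of_injective (f := fun k' : {k' : H | e k'.1 ≤ e k.1} =>
          (⟨f k'.1.1 (pp k'.1), ?_⟩ : ({f k.1 (pp k)} ∪ (A j q ∩
          {y | ∃ k', e k' < e k.1 ∧ ∃ p', y = f k' p'}) : Set X))) ?_
        · have h8 : e k'.1.1 ≤ e k.1 := k'.2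
          rcases h8.eq_or_lt with h | h
          · left
            have h9 : k'.1 = k := Subtype.ext (e.injective h)
            rw [h9]
            exact mem_singleton _
          · exact Or.inr ⟨hpp3 k'.1, k'.1.1, h, _, rfl⟩
        · intro a b hab
          have h9 : f a.1.1 (pp a.1) = f b.1.1 (pp b.1) := congrArg (fun z : ({f k.1 (pp k)} ∪
            (A j q ∩ {y | ∃ k', e k' < e k.1 ∧ ∃ p', y = f k' p'}) : Set X) => z.1) hab
          rcases lt_trichotomy (e a.1.1) (e b.1.1) with h | h | h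
          · exact absurd ⟨a.1.1, h, _, h9.symm⟩ (hf2 b.1.1 _ (hpp2 b.1))
          · exact Subtype.ext (Subtype.ext (e.injective h))
          · exact absurd ⟨b.1.1, h, _, h9⟩ (hf2 a.1.1 _ (hpp2 a.1))
      refine h2.trans_lt (card_union_lt hl ?_ (not_le.1 h1))
      rw [mk_singleton]
      exact one_lt_aleph0.trans_le hl
    refine le_trans (mk_le_mk_of_subset (t := range (f j) ∪ range fun z : H × P => f z.1.1 z.2)
      ?_) ((mk_union_le _ _).trans ((add_le_add (mk_range_le.trans hP) (mk_range_le.trans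
        (card_prod_le hr (hH.trans hlr) hP))).trans_eq (add_eq_self hr)))
    rintro x ⟨hx, p, hpq, i, hi, rfl⟩
    by_cases hij : i = j
    · subst hij
      exact Or.inl ⟨p, rfl⟩
    · exact Or.inr ⟨(⟨i, hij, p, hpq, hi, hx⟩, p), rfl⟩

/-- gluing names of transversals of blocks -/
theorem glueP {W : Type u} [LinearOrder W] (hr : ℵ₀ ≤ rho) (hP : #P ≤ rho) {A B : J → P → Set X}
    (ρ : J → W) (ha : ∀ j p, B j p ⊆ A j p)
    (hb : ∀ j k p q x, ρ j < ρ k → Comp p q → x ∈ B k p → x ∉ A j q)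
    (hc : ∀ j k p q s x, ρ j = ρ k → s ≤ p → s ≤ q → x ∈ B k p → x ∈ A j q → x ∈ B j s)
    (hd : ∀ j q, #{x | x ∈ A j q ∧ ∃ k p, ρ k < ρ j ∧ Comp p q ∧ x ∈ B k p} ≤ rho)
    (he : ∀ w, NTr rho fun (j : {j // ρ j = w}) => B j.1) : NTr rho A := by
  classical
  choose T hT1 hT2 using he
  refine ⟨fun p => {x | ∃ w, x ∈ T w p ∧ ∃ k, ρ k = w ∧ x ∈ B k p}, fun j p => ?_, fun j q => ?_⟩
  · obtain ⟨q, hq, x, hx1, hx2⟩ := hT1 (ρ j) ⟨j, rfl⟩ p
    exact ⟨q, hq, x, ⟨ρ j, hx1, j, rfl, hx2⟩, ha _ _ hx2⟩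
  · refine le_trans (mk_le_mk_of_subset (t := {x | x ∈ A j q ∧ ∃ k p, ρ k < ρ j ∧ Comp p q ∧
      x ∈ B k p} ∪ ⋃ s : P, {x | x ∈ B j s ∧ ∃ p, Comp p s ∧ x ∈ T (ρ j) p}) ?_)
      ((mk_union_le _ _).trans ((add_le_add (hd j q) (card_iUnion_le hr _ hP
        fun s => hT2 (ρ j) ⟨j, rfl⟩ s)).trans_eq (add_eq_self hr)))
    rintro x ⟨hx, p, hpq, w, hxT, k, hk, hxB⟩
    rcases lt_trichotomy (ρ j) (ρ k) with h | h | h
    · exact absurd hx (hb j k p q x h hpq hxB)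
    · obtain ⟨s, hs1, hs2⟩ := hpq
      refine Or.inr (mem_iUnion.2 ⟨s, hc j k p q s x h hs1 hs2 hxB hx, p, ⟨s, hs1, le_rfl⟩, ?_⟩)
      rw [h, hk]
      exact hxT
    · exact Or.inl ⟨hx, k, p, h, hpq, hxB⟩

/-- change of the underlying sets -/
theorem NTr.transfer {J' X' : Type u} (f : J ≃ J') {A : J → P → Set X} (g : X → X')
    (hg : InjOn g (⋃ j, ⋃ p, A j p)) (h : NTr rho fun j' p => g '' A (f.symm j') p) :
    NTr rho A := by
  obtain ⟨T, hT1, hT2⟩ := h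
  refine ⟨fun p => g ⁻¹' T p ∩ ⋃ j, ⋃ p, A j p, fun j p => ?_, fun j q => ?_⟩
  · obtain ⟨q, hq, _, hx, x, hxA, rfl⟩ := hT1 (f j) p
    rw [Equiv.symm_apply_apply] at hxA
    exact ⟨q, hq, x, ⟨hx, mem_iUnion.2 ⟨j, mem_iUnion.2 ⟨q, hxA⟩⟩⟩, hxA⟩
  · have h2 := hT2 (f j) q
    simp only [Equiv.symm_apply_apply] at h2
    refine le_trans ?_ h2
    refine mk_le_of_injective (f := fun x : {x | x ∈ A j q ∧ ∃ p, Comp p q ∧
      x ∈ g ⁻¹' T p ∩ ⋃ j, ⋃ p, A j p} => (⟨g x.1, ⟨x.1, x.2.1, rfl⟩, ?_⟩ :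
      {x | x ∈ g '' A j q ∧ ∃ p, Comp p q ∧ x ∈ T p})) fun a b hab => ?_
    · obtain ⟨_, p, hpq, hx, _⟩ := x.2
      exact ⟨p, hpq, hx⟩
    · have h3 : ∀ z : {x | x ∈ A j q ∧ ∃ p, Comp p q ∧ x ∈ g ⁻¹' T p ∩ ⋃ j, ⋃ p, A j p},
          z.1 ∈ ⋃ j, ⋃ p, A j p := fun z => mem_iUnion.2 ⟨j, mem_iUnion.2 ⟨q, z.2.1⟩⟩
      exact Subtype.ext (hg (h3 a) (h3 b) (congrArg Subtype.val hab))

theorem NAD.image {J' X' : Type u} {A : J → P → Set X} (hA : NAD lam A) (f : J' → J)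
    (hf : Function.Injective f) (g : X → X') (hg : InjOn g (⋃ j, ⋃ p, A j p)) :
    NAD lam fun j' p => g '' A (f j') p := by
  intro i j hij p q hpq
  refine lt_of_le_of_lt ?_ (hA (f i) (f j) (fun h => hij (hf h)) p q hpq)
  have h1 : (g '' A (f i) p ∩ g '' A (f j) q : Set X') ⊆ g '' (A (f i) p ∩ A (f j) q) := by
    rintro _ ⟨⟨x, hx, rfl⟩, y, hy, hxy⟩
    have h2 : y = x := hg (mem_iUnion.2 ⟨_, mem_iUnion.2 ⟨_, hy⟩⟩)
      (mem_iUnion.2 ⟨_, mem_iUnion.2 ⟨_, hx⟩⟩) hxy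
    exact ⟨x, ⟨hx, h2 ▸ hy⟩, rfl⟩
  exact (mk_le_mk_of_subset h1).trans mk_image_le

theorem Mono.image {J' X' : Type u} {A : J → P → Set X} (hA : Mono A) (f : J' → J) (g : X → X') :
    Mono fun j' p => g '' A (f j') p := fun j p q hqp => image_mono (hA (f j) p q hqp)

omit [Preorder P] in
theorem card_imageP {J' X' : Type u} {A : J → P → Set X} (f : J' → J) (g : X → X')
    (hg : InjOn g (⋃ j, ⋃ p, A j p)) (j : J') (p : P) : #(g '' A (f j) p) = #(A (f j) p) :=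
  mk_image_eq_of_injOn _ _ (hg.mono (show A (f j) p ⊆ ⋃ j, ⋃ p, A j p from
    fun _ hx => mem_iUnion.2 ⟨f j, mem_iUnion.2 ⟨p, hx⟩⟩))

theorem Big.image {J' X' : Type u} {A : J → P → Set X} (hA : Big κ A) (f : J' → J) (g : X → X')
    (hg : InjOn g (⋃ j, ⋃ p, A j p)) : Big κ fun j' p => g '' A (f j') p := by
  intro j ν hν p
  obtain ⟨q, hq, h⟩ := hA (f j) ν hν p
  exact ⟨q, hq, by rw [card_imageP f g hg]; exact h⟩

end

end Pool.Agent.H645.N
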