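import Mathlib
import Pool.Agent.H645.PA

set_option autoImplicit false

/-!
# Named families of sets: the induction
-/

namespace Pool.Agent.H645.N

open Cardinal Set Pool.Agent.H645.T

universe u

/-- There are a stationary subset `S` of `η⁺` and sets `G δ ⊆ δ` of size `rho⁺`, for `δ ∈ S`, any two
of which meet in less than `lam` points. -/
def Bad3 (η lam rho : Cardinal.{u}) : Prop :=
  ∃ (S : Set (Order.succ η).ord.ToType)
    (G : (Order.succ η).ord.ToType → Set (Order.succ η).ord.ToType),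
    Stat S ∧ (∀ δ ∈ S, G δ ⊆ Iio δ ∧ #(G δ) = Order.succ rho) ∧
      ∀ δ ∈ S, ∀ δ' ∈ S, δ ≠ δ' → #(G δ ∩ G δ' : Set (Order.succ η).ord.ToType) < lam

/-- sets of size greater than `lam⁺` do not occur -/
theorem not_bad3 (hGCH : ∀ ν : Cardinal.{u}, ℵ₀ ≤ ν → 2 ^ ν = Order.succ ν)
    {η lam rho : Cardinal.{u}} (hl : ℵ₀ ≤ lam) (hlr : lam < rho) (hη : lam < η) :
    ¬ Bad3 η lam rho := by
  rintro ⟨S, G, hS, hG1, hG2⟩
  obtain ⟨F, hF⟩ := trace_small hGCH hl hη hG2
  obtain ⟨δ, hδ, _, hcl⟩ := hS F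
  have h1 : #(G δ) ≤ Order.succ lam := by
    refine card_le_of_init (W := G δ) fun x => ?_
    rw [Order.lt_succ_iff]
    refine le_trans ?_ (hF δ hcl δ hδ le_rfl x.1 ((hG1 δ hδ).1 x.2)).1
    exact mk_le_of_injective (f := fun a' : (Iio x : Set (G δ)) => (⟨a'.1.1, a'.1.2,
      (show a'.1 < x from a'.2).le⟩ : (G δ ∩ Iic x.1 : Set (Order.succ η).ord.ToType)))
      fun b b' h => Subtype.ext (Subtype.ext
        (congrArg (fun z : (G δ ∩ Iic x.1 : Set (Order.succ η).ord.ToType) => z.1) h))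
  rw [(hG1 δ hδ).2] at h1
  exact absurd h1 (not_le.2 (Order.lt_succ_iff.2 (Order.succ_le_of_lt hlr)))

section

variable {P : Type u} [Preorder P] {J X : Type u} {lam rho κ : Cardinal.{u}}

/-- all elements which may belong to a set of the family -/
def All (A : J → P → Set X) (j : J) : Set X := ⋃ p, A j p

omit [Preorder P] in
theorem card_All (hP : #P ≤ rho) (hr : ℵ₀ ≤ rho) (hrk : rho < κ) {A : J → P → Set X} {j : J}
    (hA : ∀ p, #(A j p) ≤ κ) : #(All A j) ≤ κ :=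
  card_iUnion_le (hr.trans hrk.le) _ (hP.trans hrk.le) hA

/-- removing the elements of earlier blocks -/
def Rem {W : Type u} [LinearOrder W] (ρ : J → W) (A : J → P → Set X) (j : J) (p : P) : Set X :=
  {x | x ∈ A j p ∧ ∀ i r, ρ i < ρ j → Comp r p → x ∉ A i r}

theorem big_of_diff (hr : ℵ₀ ≤ rho) (hrk : rho < κ) {A B : J → P → Set X} (hA : Big κ A)
    (h : ∀ j p, #(A j p \ B j p : Set X) ≤ rho) : Big κ B := by
  intro j ν hν p
  obtain ⟨q, hq, h1⟩ := hA j (max ν rho) (max_lt hν hrk) p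
  refine ⟨q, hq, ?_⟩
  by_contra hcon
  rw [not_lt] at hcon
  have h2 : A j q ⊆ B j q ∪ (A j q \ B j q) := by
    intro x hx
    by_cases h3 : x ∈ B j q
    · exact Or.inl h3
    · exact Or.inr ⟨hx, h3⟩
  have h3 := (mk_le_mk_of_subset h2).trans ((mk_union_le _ _).trans
    (add_le_add (hcon.trans (le_max_left ν rho)) ((h j q).trans (le_max_right ν rho))))
  rw [add_eq_self (hr.trans (le_max_right _ _))] at h3
  exact absurd h1 (not_lt.2 h3)

theorem rank_stepP {W : Type u} [LinearOrder W] (hl : ℵ₀ ≤ lam) (hlr : lam ≤ rho) (hrk : rho < κ)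
    (hP : #P ≤ rho) {A : J → P → Set X} (hA : ∀ j p, #(A j p) ≤ κ) (hmono : Mono A)
    (had : NAD lam A) (hbig : Big κ A) (ρ : J → W)
    (hblock : ∀ w, ∀ B : {j // ρ j = w} → P → Set X, (∀ j p, #(B j p) ≤ κ) → Mono B → NAD lam B →
      Big κ B → NTr rho B)
    (hb : ∀ j q, #{x | x ∈ A j q ∧ ∃ k p, ρ k < ρ j ∧ Comp p q ∧ x ∈ A k p} ≤ rho) :
    NTr rho A := by
  classical
  have hr := hl.trans hlr
  have hsub : ∀ j p, Rem ρ A j p ⊆ A j p := fun j p x hx => hx.1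
  have hRmono : Mono (Rem ρ A) := fun j p q hqp x hx =>
    ⟨hmono j p q hqp hx.1, fun i r hi hrq => hx.2 i r hi (hrq.symm.mono hqp).symm⟩
  have hRad : NAD lam (Rem ρ A) := fun i j hij p q hpq => lt_of_le_of_lt
    (mk_le_mk_of_subset (inter_subset_inter (hsub i p) (hsub j q))) (had i j hij p q hpq)
  have hRbig : Big κ (Rem ρ A) := by
    refine big_of_diff hr hrk hbig fun j p => (mk_le_mk_of_subset ?_).trans (hb j p)
    rintro x ⟨hx, hx2⟩
    refine ⟨hx, ?_⟩
    by_contra hcon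
    exact hx2 ⟨hx, fun i r hi hrp hxi => hcon ⟨i, r, hi, hrp, hxi⟩⟩
  refine glueP hr hP (B := Rem ρ A) ρ hsub ?_ ?_ ?_ fun w => hblock w _
    (fun j p => (mk_le_mk_of_subset (hsub _ _)).trans (hA _ _)) (fun j p q h => hRmono _ p q h)
    (fun i j hij p q hpq => hRad _ _ (fun h => hij (Subtype.ext h)) p q hpq)
    (fun j ν hν p => hRbig _ ν hν p)
  · intro j k p q x hjk hpq hx hxj
    exact hx.2 j q hjk hpq.symm hxj
  · intro j k p q s x hjk hsp hsq hxk hxj
    have h1 := hRmono k p s hsp hxk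
    exact ⟨hmono j q s hsq hxj, fun i r hi hrs => h1.2 i r (hjk ▸ hi) hrs⟩
  · intro j q
    refine (mk_le_mk_of_subset ?_).trans (hb j q)
    rintro x ⟨hx, k, p, hk, hpq, hxk⟩
    exact ⟨hx, k, p, hk, hpq, hxk.1⟩

/-- closure under: a set of the family which meets the union in `lam` points belongs to it -/
def ClosedP (lam : Cardinal.{u}) (A : J → P → Set X) (U : Set J) : Prop :=
  ∀ j q, lam ≤ #(A j q ∩ ⋃ i ∈ U, All A i : Set X) → j ∈ U

theorem exists_closedP (hGCH : ∀ ν : Cardinal.{u}, ℵ₀ ≤ ν → 2 ^ ν = Order.succ ν)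
    (hl : ℵ₀ ≤ lam) (hlr : lam ≤ rho) (hrk : rho < κ) (hP : #P ≤ rho) {A : J → P → Set X}
    (hA : ∀ j p, #(A j p) ≤ κ) (had : NAD lam A)
    {σ : Cardinal.{u}} (hκσ : κ ≤ σ) (Z : Set J) (hZ : #Z ≤ Order.succ σ) :
    ∃ U, Z ⊆ U ∧ ClosedP lam A U ∧ #U ≤ Order.succ σ := by
  classical
  have hr := hl.trans hlr
  have hlk := hlr.trans_lt hrk
  have hσ : ℵ₀ ≤ σ := (hl.trans hlk.le).trans hκσ
  have hσ' : ℵ₀ ≤ Order.succ σ := hσ.trans (Order.le_succ σ)
  let St : Set J → Set J := fun Y => {j | ∃ q, lam ≤ #(A j q ∩ ⋃ i ∈ Y, All A i : Set X)}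
  have hSt : ∀ Y : Set J, #Y ≤ Order.succ σ → #(St Y) ≤ Order.succ σ := by
    intro Y hY
    have h1 : #(St Y) ≤ #{z : J × P | lam ≤ #(A z.1 z.2 ∩ ⋃ i ∈ Y, All A i : Set X)} := by
      choose q hq using fun j : St Y => j.2
      exact mk_le_of_injective (f := fun j => ⟨(j.1, q j), hq j⟩) fun i j h =>
        Subtype.ext (congrArg (fun z : {z : J × P | lam ≤
          #(A z.1 z.2 ∩ ⋃ i ∈ Y, All A i : Set X)} => z.1.1) h)
    refine h1.trans ((few_setsP hP had _).trans ?_)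
    refine (mul_le_mul' (hrk.le.trans (hκσ.trans (Order.le_succ σ)))
      (gch_pow hGCH hσ ?_ (hlk.le.trans hκσ))).trans_eq (mul_eq_self hσ')
    rw [biUnion_eq_iUnion]
    exact card_iUnion_le hσ' _ hY fun i => (card_All hP hr hrk (hA i.1)).trans
      (hκσ.trans (Order.le_succ σ))
  let L := (Order.succ lam).ord.ToType
  have hL : IsSuccType lam L := IsSuccType.toType hl
  let Zs : L → Set J := (wellFounded_lt (α := L)).fix fun s ih =>
    Z ∪ ⋃ t : Iio s, St (ih t.1 t.2)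
  have hZs : ∀ s, Zs s = Z ∪ ⋃ t : Iio s, St (Zs t.1) := fun s =>
    (wellFounded_lt (α := L)).fix_eq _ s
  have hcard : ∀ s, #(Zs s) ≤ Order.succ σ := by
    intro s
    induction s using WellFoundedLT.induction with
    | _ s ih =>
      rw [hZs s]
      refine (mk_union_le _ _).trans ((add_le_add hZ (card_iUnion_le hσ' _
        ((hL.init s).trans (hlk.le.trans (hκσ.trans (Order.le_succ σ))))
        fun t => hSt _ (ih t.1 t.2))).trans_eq (add_eq_self hσ'))
  have hmono : ∀ s t, s < t → St (Zs s) ⊆ Zs t := by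
    intro s t hst
    rw [hZs t]
    exact subset_union_of_subset_right (subset_iUnion (fun t' : Iio t => St (Zs t'.1)) ⟨s, hst⟩) _
  have hmono2 : ∀ s t, s ≤ t → Zs s ⊆ Zs t := by
    intro s t hst
    rcases hst.eq_or_lt with rfl | hst
    · exact subset_rfl
    · intro j hj
      rw [hZs s] at hj
      rcases hj with hj | hj
      · rw [hZs t]
        exact Or.inl hj
      · obtain ⟨r, hr⟩ := mem_iUnion.1 hj
        exact hmono r.1 t (lt_trans r.2 hst) hr
  refine ⟨⋃ s, Zs s, ?_, ?_, ?_⟩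
  · obtain ⟨s⟩ := hL.nonempty
    intro j hj
    refine mem_iUnion.2 ⟨s, ?_⟩
    rw [hZs s]
    exact Or.inl hj
  · intro j q hj
    have h1 : #(lam.ord.ToType) ≤ #(A j q ∩ ⋃ i ∈ ⋃ s, Zs s, All A i : Set X) := by
      rw [mk_ord_toType]; exact hj
    obtain ⟨e⟩ := h1
    have h2 : ∀ t, ∃ s, (e t).1 ∈ ⋃ i ∈ Zs s, All A i := by
      intro t
      obtain ⟨i, hi, hx⟩ := mem_iUnion₂.1 (e t).2.2
      obtain ⟨s, hs⟩ := mem_iUnion.1 hi
      exact ⟨s, mem_iUnion₂.2 ⟨i, hs, hx⟩⟩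
    choose s hs using h2
    obtain ⟨b, hb⟩ := hL.bddF s (by rw [mk_ord_toType])
    obtain ⟨b', hb'⟩ := hL.exists_gt b
    refine mem_iUnion.2 ⟨b', hmono b b' hb' ⟨q, ?_⟩⟩
    show lam ≤ #(A j q ∩ ⋃ i ∈ Zs b, All A i : Set X)
    refine (mk_ord_toType lam).symm.le.trans ?_
    refine mk_le_of_injective (f := fun t => (⟨(e t).1, (e t).2.1, ?_⟩ :
      (A j q ∩ ⋃ i ∈ Zs b, All A i : Set X))) ?_
    · obtain ⟨i, hi, hx⟩ := mem_iUnion₂.1 (hs t)
      exact mem_iUnion₂.2 ⟨i, hmono2 _ _ (hb t).le hi, hx⟩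
    · intro t t' htt
      exact e.injective (Subtype.ext (congrArg
        (fun z : (A j q ∩ ⋃ i ∈ Zs b, All A i : Set X) => z.1) htt))
  · refine card_iUnion_le hσ' _ ?_ hcard
    rw [hL.card]
    exact (Order.succ_le_of_lt hlk).trans (hκσ.trans (Order.le_succ σ))

/-- the step for limit cardinals -/
theorem limit_stepP (hGCH : ∀ ν : Cardinal.{u}, ℵ₀ ≤ ν → 2 ^ ν = Order.succ ν)
    (hl : ℵ₀ ≤ lam) (hlr : lam ≤ rho) (hrk : rho < κ) (hP : #P ≤ rho) {c : Cardinal.{u}}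
    (hκc : κ < c) (hlim : ∀ ν < c, Order.succ ν < c) (hJ : #J = c) {A : J → P → Set X}
    (hA : ∀ j p, #(A j p) ≤ κ) (hmono : Mono A) (had : NAD lam A) (hbig : Big κ A)
    (IH : ∀ J' : Type u, #J' < c → ∀ B : J' → P → Set X, (∀ j p, #(B j p) ≤ κ) → Mono B →
      NAD lam B → Big κ B → NTr rho B) : NTr rho A := by
  classical
  have hr := hl.trans hlr
  have hlk := hlr.trans_lt hrk
  have hc : ℵ₀ ≤ c := (hl.trans hlk.le).trans hκc.le
  obtain ⟨e⟩ : Nonempty (J ≃ c.ord.ToType) := by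
    rw [← Cardinal.eq, hJ, mk_ord_toType]
  let C : c.ord.ToType → Set J := fun w => ⋂₀ {U | ClosedP lam A U ∧ e ⁻¹' Iic w ⊆ U}
  have hCmono : ∀ w w', w ≤ w' → C w ⊆ C w' := by
    intro w w' h
    refine sInter_subset_sInter fun U hU => ⟨hU.1, ?_⟩
    exact (preimage_mono (Iic_subset_Iic.2 h)).trans hU.2
  have hCcl : ∀ w, ClosedP lam A (C w) := by
    intro w j q hj U hU
    refine hU.1 j q (hj.trans (mk_le_mk_of_subset (inter_subset_inter_right _ ?_)))
    exact biUnion_subset_biUnion_left (sInter_subset_of_mem hU)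
  have hCself : ∀ j, j ∈ C (e j) := by
    intro j U hU
    exact hU.2 (le_refl (e j))
  have hCcard : ∀ w, #(C w) < c := by
    intro w
    have h1 : #(e ⁻¹' Iic w) < c := by
      have h2 : #(e ⁻¹' Iic w) ≤ #(Iic w) := mk_le_of_injective
        (f := fun j : (e ⁻¹' Iic w : Set J) => (⟨e j.1, j.2⟩ : (Iic w : Set c.ord.ToType)))
        fun i j hij => Subtype.ext (e.injective
          (congrArg (fun z : (Iic w : Set c.ord.ToType) => z.1) hij))
      refine h2.trans_lt ?_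
      have : (Iic w : Set c.ord.ToType) = insert w (Iio w) := by
        ext x; simp [le_iff_eq_or_lt]
      rw [this]
      exact mk_insert_le.trans_lt (add_lt_of_lt hc (card_Iio_toType w) (one_lt_aleph0.trans_le hc))
    obtain ⟨U, hU1, hU2, hU3⟩ := exists_closedP hGCH hl hlr hrk hP hA had
      (σ := max κ #(e ⁻¹' Iic w)) (le_max_left _ _) (e ⁻¹' Iic w)
      ((le_max_right _ _).trans (Order.le_succ _))
    have h3 : C w ⊆ U := fun j hj => hj U ⟨hU2, hU1⟩
    exact ((mk_le_mk_of_subset h3).trans hU3).trans_lt (hlim _ (max_lt hκc h1))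
  have hρ : ∀ j, ∃ w, j ∈ C w ∧ ∀ w' < w, j ∉ C w' := by
    intro j
    obtain ⟨w, hw, hmin⟩ := (wellFounded_lt (α := c.ord.ToType)).has_min {w | j ∈ C w}
      ⟨e j, hCself j⟩
    exact ⟨w, hw, fun w' hw' h => hmin w' h hw'⟩
  choose ρ hρ1 hρ2 using hρ
  refine rank_stepP hl hlr hrk hP hA hmono had hbig ρ (fun w B h1 h2 h3 h4 =>
    IH _ ?_ B h1 h2 h3 h4) fun j q => ?_
  · refine lt_of_le_of_lt ?_ (hCcard w)
    have h1 : ∀ j : {j // ρ j = w}, j.1 ∈ C w := by
      intro j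
      have := hρ1 j.1
      rwa [j.2] at this
    exact mk_le_of_injective (f := fun j : {j // ρ j = w} => (⟨j.1, h1 j⟩ : C w))
      fun i j hij => Subtype.ext (congrArg (fun z : C w => z.1) hij)
  · refine le_trans ?_ hlr
    choose i p hi1 hi2 hi3 using
      fun x : {x | x ∈ A j q ∧ ∃ k p, ρ k < ρ j ∧ Comp p q ∧ x ∈ A k p} => x.2.2
    refine chain_union hl (fun x => ρ (i x)) fun x => ?_
    have h1 : ¬ lam ≤ #(A j q ∩ ⋃ k ∈ C (ρ (i x)), All A k : Set X) := fun h =>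
      hρ2 j _ (hi1 x) (hCcl _ j q h)
    refine lt_of_le_of_lt ?_ (not_le.1 h1)
    refine mk_le_of_injective (f := fun x' : {x' | ρ (i x') ≤ ρ (i x)} => (⟨x'.1.1, x'.1.2.1,
      mem_iUnion₂.2 ⟨i x'.1, hCmono _ _ x'.2 (hρ1 _), mem_iUnion.2 ⟨p x'.1, hi3 x'.1⟩⟩⟩ :
      (A j q ∩ ⋃ k ∈ C (ρ (i x)), All A k : Set X))) fun a b hab => ?_
    exact Subtype.ext (Subtype.ext (congrArg
      (fun z : (A j q ∩ ⋃ k ∈ C (ρ (i x)), All A k : Set X) => z.1) hab))

end

/-! ### Successor cardinals -/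

section

variable {P : Type u} [Preorder P] {lam rho κ η : Cardinal.{u}}

theorem Stat.fiber {K : Type u} [LinearOrder K] (hK : IsSuccType η K) {S : Set K} (hS : Stat S)
    {Q : Type u} (hQ : #Q ≤ η) (f : K → Q) : ∃ q, Stat {α ∈ S | f α = q} := by
  by_contra hcon
  push Not at hcon
  unfold Stat at hcon
  push Not at hcon
  choose F hF using hcon
  have h1 : ∀ a : K, ∃ c, ∀ q, F q a < c := fun a => hK.bddF (fun q => F q a) hQ
  choose F' hF' using h1
  obtain ⟨δ, hδ, h2, h3⟩ := hS F'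
  obtain ⟨a, ha, ha2⟩ := hF (f δ) δ ⟨hδ, rfl⟩ h2
  exact absurd ((hF' a (f δ)).trans (h3 a ha)) (not_lt.2 ha2)

/-- without a bad stationary set, the sets of the family meet the initial segments in few points -/
theorem succ_badP (hl : ℵ₀ ≤ lam) (hlr : lam ≤ rho) (hη : rho ≤ η) (hP : #P ≤ rho)
    (hB : ¬ Bad3 η lam rho)
    {A : (Order.succ η).ord.ToType → P → Set (Order.succ η).ord.ToType} (had : NAD lam A) :
    ∃ F : (Order.succ η).ord.ToType → (Order.succ η).ord.ToType, ∀ α, Cl F α → ∀ j, α ≤ j →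
      ∀ q, #(A j q ∩ Iio α : Set (Order.succ η).ord.ToType) ≤ rho := by
  classical
  have hK : IsSuccType η (Order.succ η).ord.ToType := IsSuccType.toType (hl.trans (hlr.trans hη))
  let S : Set (Order.succ η).ord.ToType := {α | ∃ j, α ≤ j ∧ ∃ q,
    rho < #(A j q ∩ Iio α : Set (Order.succ η).ord.ToType)}
  by_cases hS : Stat S
  · exfalso
    have hP0 : Nonempty P := by
      obtain ⟨α, ⟨_, _, q, _⟩, _⟩ := hS id
      exact ⟨q⟩
    have h1 : ∀ α, ∃ j q, α ≤ j ∧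
        (α ∈ S → rho < #(A j q ∩ Iio α : Set (Order.succ η).ord.ToType)) := by
      intro α
      by_cases h : α ∈ S
      · obtain ⟨j, hj, q, hj2⟩ := h
        exact ⟨j, q, hj, fun _ => hj2⟩
      · exact ⟨α, hP0.some, le_rfl, fun h' => absurd h' h⟩
    choose jj qq hj1 hj2 using h1
    have h2 : ∀ α, ∃ G : Set (Order.succ η).ord.ToType, α ∈ S → G ⊆ A (jj α) (qq α) ∩ Iio α ∧
        #G = Order.succ rho := by
      intro α
      by_cases h : α ∈ S
      · obtain ⟨G, hG1, hG2⟩ := le_mk_iff_exists_subset.1 (Order.succ_le_of_lt (hj2 α h))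
        exact ⟨G, fun _ => ⟨hG1, hG2⟩⟩
      · exact ⟨∅, fun h' => absurd h' h⟩
    choose G hG using h2
    obtain ⟨q, hq⟩ := Stat.fiber hK hS (hP.trans hη) qq
    apply hB
    refine ⟨{α ∈ {α ∈ S | qq α = q} | Cl jj α}, G, Stat.inter_cl hq jj, ?_, ?_⟩
    · rintro δ ⟨⟨hδ, _⟩, _⟩
      exact ⟨fun x hx => ((hG δ hδ).1 hx).2, (hG δ hδ).2⟩
    · rintro δ ⟨⟨hδ, hδq⟩, hc⟩ δ' ⟨⟨hδ', hδq'⟩, hc'⟩ hne
      have h3 : jj δ ≠ jj δ' := by
        rcases lt_or_gt_of_ne hne with h | h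
        · exact ((hc' δ h).trans_le (hj1 δ')).ne
        · exact ((hc δ' h).trans_le (hj1 δ)).ne'
      refine lt_of_le_of_lt (mk_le_mk_of_subset (show (G δ ∩ G δ' : Set _) ⊆
        A (jj δ) q ∩ A (jj δ') q from fun x hx => ⟨?_, ?_⟩)) (had _ _ h3 q q Comp.rfl')
      · have := ((hG δ hδ).1 hx.1).1
        rwa [hδq] at this
      · have := ((hG δ' hδ').1 hx.2).1
        rwa [hδq'] at this
  · unfold Stat at hS
    push Not at hS
    obtain ⟨F, hF⟩ := hS
    refine ⟨F, fun α hα j hj q => ?_⟩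
    by_contra hcon
    rw [not_le] at hcon
    have h1 : ∃ a, a < α := by
      obtain ⟨x⟩ := mk_ne_zero_iff.1 (zero_le.trans_lt hcon).ne'
      exact ⟨x.1, x.2.2⟩
    obtain ⟨a, ha, ha2⟩ := hF α ⟨j, hj, q, hcon⟩ h1
    exact absurd (hα a ha) (not_lt.2 ha2)

/-- the step for successor cardinals -/
theorem succ_stepP (hl : ℵ₀ ≤ lam) (hlr : lam ≤ rho) (hrk : rho < κ) (hP : #P ≤ rho)
    (hκη : κ ≤ η) (hB : ¬ Bad3 η lam rho)
    {A : (Order.succ η).ord.ToType → P → Set (Order.succ η).ord.ToType}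
    (hA : ∀ j p, #(A j p) ≤ κ) (hmono : Mono A) (had : NAD lam A) (hbig : Big κ A)
    (IH : ∀ J' : Type u, #J' ≤ η → ∀ B : J' → P → Set (Order.succ η).ord.ToType,
      (∀ j p, #(B j p) ≤ κ) → Mono B → NAD lam B → Big κ B → NTr rho B) : NTr rho A := by
  have hr := hl.trans hlr
  have hK : IsSuccType η (Order.succ η).ord.ToType :=
    IsSuccType.toType (hr.trans (hrk.le.trans hκη))
  obtain ⟨F, hF⟩ := succ_badP hl hlr (hrk.le.trans hκη) hP hB had
  have h1 : ∀ a, ∃ b, F a < b ∧ ∀ x ∈ All A a, x < b := by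
    intro a
    obtain ⟨b, hb⟩ := hK.bdd (All A a) ((card_All hP hr hrk (hA a)).trans hκη)
    obtain ⟨c, hc1, hc2⟩ := hK.gt2 (F a) b
    exact ⟨c, hc1, fun x hx => (hb x hx).trans hc2⟩
  choose F' hF1 hF2 using h1
  refine rank_stepP hl hlr hrk hP hA hmono had hbig (fl F') (fun w B h1 h2 h3 h4 =>
    IH _ (card_block hK F' w) B h1 h2 h3 h4) fun j q => ?_
  refine le_trans (mk_le_mk_of_subset ?_) (hF (fl F' j) (fun a ha =>
    (hF1 a).trans (cl_fl F' j a ha)) j (fl_le F' j) q)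
  rintro x ⟨hx, i, p, hi, _, hxi⟩
  exact ⟨hx, (hF2 i x (mem_iUnion.2 ⟨p, hxi⟩)).trans
    (cl_fl F' j i (lt_of_fl_lt (cl_fl F' j) hi))⟩

/-- `η⁺` many sets of size `η⁺`, where `η` is a limit cardinal -/
theorem base_singP (hGCH : ∀ ν : Cardinal.{u}, ℵ₀ ≤ ν → 2 ^ ν = Order.succ ν)
    (hl : ℵ₀ ≤ lam) (hlr : lam ≤ rho) (hrη : rho < η) (hP : #P ≤ rho)
    (hlim : ∀ ν < η, Order.succ ν < η) (hB : ¬ Bad3 η lam rho)
    {A : (Order.succ η).ord.ToType → P → Set (Order.succ η).ord.ToType}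
    (hmono : Mono A) (had : NAD lam A)
    (hbig : Big (Order.succ η) A) : NTr rho A := by
  classical
  have hr := hl.trans hlr
  have hη : ℵ₀ ≤ η := hr.trans hrη.le
  have hK : IsSuccType η (Order.succ η).ord.ToType := IsSuccType.toType hη
  obtain ⟨F, hF⟩ := succ_badP hl hlr hrη.le hP hB had
  -- many new elements in a bounded part
  have h1 : ∀ j γ p, ∃ b, η < #(A j p) →
      η ≤ #{x | x ∈ A j p ∧ γ ≤ x ∧ x < b ∧ ∀ i < j, ∀ r, Comp r p → x ∉ A i r} := by
    intro j γ p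
    by_cases hjp : η < #(A j p)
    · have h2 : Order.succ η ≤ #{x | x ∈ A j p ∧ γ ≤ x ∧ ∀ i < j, ∀ r, Comp r p → x ∉ A i r} := by
        by_contra hcon
        rw [not_le, Order.lt_succ_iff] at hcon
        have h3 : A j p ⊆ {x | x ∈ A j p ∧ γ ≤ x ∧ ∀ i < j, ∀ r, Comp r p → x ∉ A i r} ∪
            (Iio γ ∪ ⋃ z : {z : Iio j × P // Comp z.2 p}, A j p ∩ A z.1.1.1 z.1.2) := by
          intro x hx
          by_cases h4 : x < γ
          · exact Or.inr (Or.inl h4)
          · by_cases h5 : ∃ i < j, ∃ r, Comp r p ∧ x ∈ A i r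
            · obtain ⟨i, hi, r, hrp, hxi⟩ := h5
              exact Or.inr (Or.inr (mem_iUnion.2 ⟨⟨(⟨i, hi⟩, r), hrp⟩, hx, hxi⟩))
            · push Not at h5
              exact Or.inl ⟨hx, not_lt.1 h4, h5⟩
        have h4 : #(⋃ z : {z : Iio j × P // Comp z.2 p}, A j p ∩ A z.1.1.1 z.1.2) ≤ η :=
          card_iUnion_le hη _ ((mk_subtype_le _).trans
            (card_prod_le hη (hK.init j) (hP.trans hrη.le))) fun z =>
            ((had _ _ (show z.1.1.1 < j from z.1.1.2).ne' _ _ z.2.symm).le.trans hlr).trans hrη.le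
        have h5 := (mk_le_mk_of_subset h3).trans ((mk_union_le _ _).trans
          ((add_le_add hcon ((mk_union_le _ _).trans ((add_le_add (hK.init γ) h4).trans_eq
            (add_eq_self hη)))).trans_eq (add_eq_self hη)))
        exact absurd hjp (not_lt.2 h5)
      obtain ⟨Y, hY1, hY2⟩ := le_mk_iff_exists_subset.1 ((Order.le_succ η).trans h2)
      obtain ⟨b, hb⟩ := hK.bdd Y hY2.le
      refine ⟨b, fun _ => hY2.symm.le.trans (mk_le_mk_of_subset fun x hx => ?_)⟩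
      obtain ⟨h3, h4, h5⟩ := hY1 hx
      exact ⟨h3, h4, hb x hx, h5⟩
    · exact ⟨j, fun h => absurd h hjp⟩
  choose F1 hF1 using h1
  have h2 : ∀ a, ∃ b, F a < b ∧ ∀ j ≤ a, ∀ γ ≤ a, ∀ p, F1 j γ p < b := by
    intro a
    obtain ⟨b, hb⟩ := hK.bddF (fun z : (Iic a × Iic a) × P => F1 z.1.1.1 z.1.2.1 z.2)
      (card_prod_le hη (card_prod_le hη (hK.initc a) (hK.initc a)) (hP.trans hrη.le))
    obtain ⟨c, hc1, hc2⟩ := hK.gt2 (F a) b
    exact ⟨c, hc1, fun j hj γ hγ p => (hb ((⟨j, hj⟩, ⟨γ, hγ⟩), p)).trans hc2⟩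
  choose F' hF2 hF3 using h2
  have hF' : ∀ α, Cl F' α → ∀ j, α ≤ j → ∀ q,
      #(A j q ∩ Iio α : Set (Order.succ η).ord.ToType) ≤ rho :=
    fun α hα j hj q => hF α (fun a ha => (hF2 a).trans (hα a ha)) j hj q
  let B : (Order.succ η).ord.ToType → P → Set (Order.succ η).ord.ToType := fun j p =>
    {x | x ∈ A j p ∧ fl F' x = fl F' j ∧ ∀ i r, fl F' i < fl F' j → Comp r p → x ∉ A i r}
  have hBmono : Mono B := fun j p q hqp x hx => ⟨hmono j p q hqp hx.1, hx.2.1,
    fun i r hi hrq => hx.2.2 i r hi (hrq.symm.mono hqp).symm⟩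
  have hBc : ∀ j p, η < #(A j p) → η ≤ #(B j p) := by
    intro j p hjp
    refine (hF1 j (fl F' j) p hjp).trans (mk_le_mk_of_subset ?_)
    rintro x ⟨hx, hx1, hx2, hx3⟩
    refine ⟨hx, le_antisymm ?_ (le_fl (cl_fl F' j) hx1), fun i r hi hrp => hx3 i
      ((lt_of_fl_lt (cl_fl F' j) hi).trans_le (fl_le F' j)) r hrp⟩
    by_contra hcon
    rw [not_le] at hcon
    have h3 : j < fl F' x := lt_of_fl_lt (cl_fl F' x) hcon
    have h4 : F1 j (fl F' j) p < fl F' x :=
      (hF3 (max j (fl F' j)) j (le_max_left _ _) _ (le_max_right _ _) p).trans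
        (cl_fl F' x _ (max_lt h3 hcon))
    exact absurd (hx2.trans (h4.trans_le (fl_le F' x))) (lt_irrefl _)
  refine glueP hr hP (B := B) (fl F') (fun j p x hx => hx.1) ?_ ?_ ?_ fun w => ?_
  · intro j k p q x hjk hpq hx hxj
    exact hx.2.2 j q hjk hpq.symm hxj
  · intro j k p q s x hjk hsp hsq hxk hxj
    have h1 := hBmono k p s hsp hxk
    exact ⟨hmono j q s hsq hxj, h1.2.1.trans hjk.symm, fun i r hi hrs =>
      h1.2.2 i r (hjk ▸ hi) hrs⟩
  · intro j q
    refine le_trans (mk_le_mk_of_subset ?_) (hF' (fl F' j) (cl_fl F' j) j (fl_le F' j) q)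
    rintro x ⟨hx, k, p, hk, _, hxk⟩
    refine ⟨hx, lt_of_fl_lt (cl_fl F' j) ?_⟩
    rw [hxk.2.1]
    exact hk
  · refine base_rec hl hlr hrη hP (fun ν hν => ?_) (card_block hK F' w) (fun i j hij p q hpq =>
      lt_of_le_of_lt (mk_le_mk_of_subset (show (B i.1 p ∩ B j.1 q : Set _) ⊆ A i.1 p ∩ A j.1 q from
        fun x hx => ⟨hx.1.1, hx.2.1⟩)) (had i.1 j.1 (fun h => hij (Subtype.ext h)) p q hpq)) ?_
    · have hlη := hlr.trans_lt hrη
      exact (gch_pow hGCH (hl.trans (le_max_right ν lam)) ((le_max_left ν lam).trans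
        (Order.le_succ _)) (le_max_right ν lam)).trans_lt (hlim _ (max_lt hν hlη))
    · intro j ν hν p
      obtain ⟨q, hq, hq2⟩ := hbig j.1 η (Order.lt_succ η) p
      exact ⟨q, hq, hν.trans_le (hBc j.1 q hq2)⟩

omit [Preorder P] in
/-- reduction to families of subsets of `η⁺` indexed by `η⁺` -/
theorem exists_codeP (hη : ℵ₀ ≤ η) (hP : #P ≤ Order.succ η) {J X : Type u}
    (hJ : #J = Order.succ η) {A : J → P → Set X}
    (hA : ∀ j p, #(A j p) ≤ Order.succ η) : ∃ (_ : J ≃ (Order.succ η).ord.ToType)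
      (g : X → (Order.succ η).ord.ToType), InjOn g (⋃ j, ⋃ p, A j p) := by
  classical
  have hη' : ℵ₀ ≤ Order.succ η := hη.trans (Order.le_succ η)
  obtain ⟨f⟩ : Nonempty (J ≃ (Order.succ η).ord.ToType) := by
    rw [← Cardinal.eq, hJ, mk_ord_toType]
  have h1 : #(⋃ j, ⋃ p, A j p) ≤ #((Order.succ η).ord.ToType) := by
    rw [mk_ord_toType]
    exact card_iUnion_le hη' _ hJ.le fun j => card_iUnion_le hη' _ hP (hA j)
  obtain ⟨e⟩ := h1
  have hne : Nonempty (Order.succ η).ord.ToType := (IsSuccType.toType hη).nonempty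
  refine ⟨f, fun x => if h : x ∈ ⋃ j, ⋃ p, A j p then e ⟨x, h⟩ else hne.some, ?_⟩
  intro x hx y hy hxy
  simp only [dif_pos hx, dif_pos hy] at hxy
  exact congrArg Subtype.val (e.injective hxy)

/-- **The positive part for named families.** -/
theorem main_posP (hGCH : ∀ ν : Cardinal.{u}, ℵ₀ ≤ ν → 2 ^ ν = Order.succ ν)
    (hl : ℵ₀ ≤ lam) (hlr : lam ≤ rho) (hrk : rho < κ) (hP : #P ≤ rho) (c : Cardinal.{u}) :
    (∀ η : Cardinal.{u}, rho < η → κ ≤ Order.succ η → Order.succ η ≤ c → ¬ Bad3 η lam rho) →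
    ∀ (J X : Type u), #J = c → ∀ A : J → P → Set X, (∀ j p, #(A j p) ≤ κ) → Mono A → NAD lam A →
      Big κ A → NTr rho A := by
  induction c using WellFoundedLT.induction with
  | _ c ih =>
  intro hB J X hJ A hA hmono had hbig
  have hr := hl.trans hlr
  have hlk := hlr.trans_lt hrk
  have hκ : ℵ₀ ≤ κ := hl.trans hlk.le
  have IH : ∀ J' : Type u, #J' < c → ∀ (X' : Type u) (B : J' → P → Set X'),
      (∀ j p, #(B j p) ≤ κ) → Mono B → NAD lam B → Big κ B → NTr rho B :=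
    fun J' hJ' X' B h1 h2 h3 h4 =>
    ih _ hJ' (fun η h1 h2 h3 => hB η h1 h2 (h3.trans hJ'.le)) J' X' rfl B h1 h2 h3 h4
  rcases lt_trichotomy c κ with hc | hc | hc
  · exact base_small hl hlr hrk hP (hJ ▸ hc) had hbig
  · rcases succ_or_limit κ with ⟨η, hη⟩ | hlim
    · have hrη : rho ≤ η := Order.lt_succ_iff.1 (hη ▸ hrk)
      rcases hrη.eq_or_lt with h1 | h1
      · subst h1
        exact base_succ hl hlr hP (by rw [hJ, hc, hη]) had (by rw [← hη]; exact hbig)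
      · rcases succ_or_limit η with ⟨η', hη'⟩ | hlim
        · have h2 : lam ≤ η' := Order.lt_succ_iff.1 (hη' ▸ (hlr.trans_lt h1))
          refine base_rec hl hlr hrk hP (fun ν hν => ?_) (by rw [hJ, hc]) had hbig
          rw [hη, Order.lt_succ_iff] at hν ⊢
          rw [hη'] at hν ⊢
          exact gch_pow hGCH (hl.trans h2) hν h2
        · have hbig' : Big (Order.succ η) A := by
            rw [← hη]
            exact hbig
          obtain ⟨f, g, hg⟩ := exists_codeP (A := A) (hr.trans hrη)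
            (hP.trans (hrη.trans (Order.le_succ η))) (by rw [hJ, hc, hη])
            (fun j p => (hA j p).trans_eq hη)
          refine NTr.transfer f g hg (base_singP hGCH hl hlr h1 hP hlim
            (hB η h1 hη.le (by rw [← hη, hc])) (hmono.image f.symm g)
            (had.image f.symm f.symm.injective g hg) (hbig'.image f.symm g hg))
    · refine base_rec hl hlr hrk hP (fun ν hν => ?_) (by rw [hJ, hc]) had hbig
      exact (gch_pow hGCH (hl.trans (le_max_right ν lam)) ((le_max_left ν lam).trans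
        (Order.le_succ _)) (le_max_right ν lam)).trans_lt (hlim _ (max_lt hν hlk))
  · rcases succ_or_limit c with ⟨η, hη⟩ | hlim
    · have h1 : κ ≤ η := Order.lt_succ_iff.1 (hη ▸ hc)
      obtain ⟨f, g, hg⟩ := exists_codeP (A := A) (hκ.trans h1)
        (hP.trans (hrk.le.trans (h1.trans (Order.le_succ η)))) (by rw [hJ, hη])
        (fun j p => (hA j p).trans (h1.trans (Order.le_succ η)))
      refine NTr.transfer f g hg (succ_stepP hl hlr hrk hP h1
        (hB η (hrk.trans_le h1) (h1.trans (Order.le_succ η)) hη.ge) (fun j p => ?_)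
        (hmono.image f.symm g) (had.image f.symm f.symm.injective g hg)
        (hbig.image f.symm g hg) fun J' hJ' B h1 h2 h3 h4 => ?_)
      · rw [card_imageP f.symm g hg]
        exact hA _ _
      · exact IH J' (by rw [hη]; exact Order.lt_succ_iff.2 hJ') _ B h1 h2 h3 h4
    · exact limit_stepP hGCH hl hlr hrk hP hc hlim hJ hA hmono had hbig
        fun J' hJ' B => IH J' hJ' X B

/-- **All families have transversals of size `lam⁺`**. -/
theorem main_posP' (hGCH : ∀ ν : Cardinal.{u}, ℵ₀ ≤ ν → 2 ^ ν = Order.succ ν)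
    (hl : ℵ₀ ≤ lam) (hlr : lam < rho) (hrk : rho < κ) (hP : #P ≤ rho) {J X : Type u}
    {A : J → P → Set X} (hA : ∀ j p, #(A j p) ≤ κ) (hmono : Mono A) (had : NAD lam A)
    (hbig : Big κ A) : NTr rho A :=
  main_posP hGCH hl hlr.le hrk hP #J (fun _ h1 _ _ => not_bad3 hGCH hl hlr (hlr.trans h1)) J X rfl A
    hA hmono had hbig

end

end Pool.Agent.H645.N
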