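import Mathlib
import Pool.Graph.R_seed8.Helper669.VFinal

set_option autoImplicit false

/-!
# Families of sets and transversals, in the language of forcing
-/

namespace Pool.Agent.H645

open Cardinal
open Pool.Agent.Helper669.Forcing Pool.Agent.Helper669.K Pool.Agent.Helper669.U
  Pool.Agent.Helper669.V

section

variable {P : Type} [Preorder P]

/-- The intersection of two named subsets of `U`. -/
def nCap {U : Type} (A B : U → Set P) : U → Set P := fun u => fand (meets (A u)) (meets (B u))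

/-- The named subset `A` of `U` is finite: it is contained in a finite set of the ground model. -/
def IsFin {U : Type} (A : U → Set P) : Set P :=
  fex fun F : Finset U => fall fun u => fimp (meets (A u)) (fground (u ∈ F))

/-- The named subset `A` of `U` has at least `n` elements. -/
def AtLeast {U : Type} (n : ℕ) (A : U → Set P) : Set P :=
  fex fun F : Finset U => fand (fground (n ≤ F.card)) (fall fun u => fall fun _ : u ∈ F =>
    meets (A u))

/-- The named sets `A j` (subsets of `U`, for `j` in `J`) all have the cardinality of `U`, any two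
of them meet in a finite set, and there is no finite bound for the sizes of these intersections:
the degree of disjunction of the family is `ℵ₀`. -/
def IsFamily {J U : Type} (A : J → U → Set P) : Set P :=
  fand (fall fun j => HasFullSize (A j))
    (fand (fall fun i => fall fun j => fall fun _ : i ≠ j => IsFin (nCap (A i) (A j)))
      (fall fun n : ℕ => fex fun i => fex fun j => fand (fground (i ≠ j))
        (AtLeast n (nCap (A i) (A j)))))

/-- `T` names an `ℵ₁`-transversal of the family `A`: a subset of `U` which meets each `A j` in a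
nonempty countable set. -/
def IsTransversal {J U : Type} (A : J → U → Set P) (T : U → Set P) : Set P :=
  fall fun j => fand (fex fun u => nCap T (A j) u) (IsCtbl (nCap T (A j)))

/-- There is a family of `|K|` sets of size `|K|`, with degree of disjunction `ℵ₀`, which has no
`ℵ₁`-transversal. -/
def HasBadFamily (P : Type) [Preorder P] (K : Type) : Set P :=
  fex fun A : K → K → Set P => fand (IsFamily A) (fnot (fex fun T : K → Set P =>
    IsTransversal A T))

/-- `μ` is the cardinal `ℵ_{ω+1}` of the extension: there are cardinals `ℵ₀ = k 0 < k 1 < ...`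
with supremum `η` such that `μ` is the successor of `η` in the ground model, every `k (n + 1)` is
still regular and all cardinals below it are collapsed to `k n`, and `μ` is still regular. -/
def IsAlephOmegaSucc (P : Type) [Preorder P] (μ : Cardinal.{0}) : Set P :=
  fex fun k : ℕ → Cardinal.{0} =>
    fand (fground (k 0 = ℵ₀ ∧ StrictMono k ∧ μ = Order.succ (⨆ n, k n)))
      (fand (fall fun n => fand (StaysRegular P (k (n + 1))) (CollapsedTo P (k n) (k (n + 1))))
        (StaysRegular P μ))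

end

/-! ### General facts -/

section

variable {P : Type} [Preorder P]

theorem down_nCap {U : Type} (A B : U → Set P) (u : U) : Down (nCap A B u) :=
  down_fand (down_meets _) (down_meets _)

theorem down_IsFin {U : Type} (A : U → Set P) : Down (IsFin A) := down_fex _

theorem down_AtLeast {U : Type} (n : ℕ) (A : U → Set P) : Down (AtLeast n A) := down_fex _

theorem down_IsFamily {J U : Type} (A : J → U → Set P) : Down (IsFamily A) :=
  down_fand (down_fall fun _ => down_full _) (down_fand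
    (down_fall fun _ => down_fall fun _ => down_fall fun _ => down_fex _)
    (down_fall fun _ => down_fex _))

theorem down_staysRegular (κ : Cardinal.{0}) : Down (StaysRegular P κ) :=
  down_fall fun _ => down_fall fun _ => down_fall fun _ => down_fimp _ _

theorem down_IsCtbl {U : Type} (A : U → Set P) : Down (IsCtbl A) := down_fex _

theorem down_IsTransversal {J U : Type} (A : J → U → Set P) (T : U → Set P) :
    Down (IsTransversal A T) :=
  down_fall fun _ => down_fand (down_fex _) (down_fex _)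

/-- for statements closed downwards -/
theorem meets_nCap {U : Type} {A B : U → Set P} {u : U} {p : P} :
    p ∈ meets (nCap A B u) ↔ p ∈ nCap A B u := by
  refine ⟨fun h => ⟨fun q hq => ?_, fun q hq => ?_⟩, meets_of_mem⟩
  · obtain ⟨r, hr, s, hs, hrs⟩ := h q hq
    obtain ⟨t, ht, a, ha, hta⟩ := hs.1 r hrs
    exact ⟨t, ht.trans hr, a, ha, hta⟩
  · obtain ⟨r, hr, s, hs, hrs⟩ := h q hq
    obtain ⟨t, ht, a, ha, hta⟩ := hs.2 r hrs
    exact ⟨t, ht.trans hr, a, ha, hta⟩

theorem isFin_of {U : Type} {A : U → Set P} {p : P}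
    (h : ∀ q ≤ p, ∃ r ≤ q, ∃ F : Finset U, ∀ u, ∀ s ≤ r, s ∈ meets (A u) → u ∈ F) :
    p ∈ IsFin A := by
  refine mem_fex.2 fun q hq => ?_
  obtain ⟨r, hr, F, hF⟩ := h q hq
  exact ⟨r, hr, F, fun u => mem_fimp.2 fun s hs hsm => ⟨s, le_rfl, hF u s hs hsm⟩⟩

theorem isFin_iff {U : Type} {A : U → Set P} {p : P} : p ∈ IsFin A ↔
    ∀ q ≤ p, ∃ r ≤ q, ∃ F : Finset U, ∀ u, ∀ s ≤ r, s ∈ meets (A u) → u ∈ F := by
  refine ⟨fun h q hq => ?_, isFin_of⟩
  obtain ⟨r, hr, F, hF⟩ := mem_fex.1 h q hq
  refine ⟨r, hr, F, fun u s hs hsm => ?_⟩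
  obtain ⟨t, _, ht⟩ := mem_fimp.1 (hF u) s hs hsm
  exact ht

theorem isFin_comm {U : Type} {A B : U → Set P} {p : P} (h : p ∈ IsFin (nCap A B)) :
    p ∈ IsFin (nCap B A) := by
  rw [isFin_iff] at h ⊢
  intro q hq
  obtain ⟨r, hr, F, hF⟩ := h q hq
  refine ⟨r, hr, F, fun u s hs hsm => hF u s hs ?_⟩
  rw [meets_nCap] at hsm ⊢
  exact ⟨hsm.2, hsm.1⟩

theorem of_meets_fground {h : Prop} {p : P} (hp : p ∈ meets (fground h)) : h := by
  obtain ⟨_, _, _, hs, _⟩ := hp p le_rfl
  exact hs

theorem not_meets_empty {p : P} : p ∉ meets (∅ : Set P) := by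
  intro h
  obtain ⟨_, _, s, hs, _⟩ := h p le_rfl
  exact hs

/-- a function from a small set into a cardinal which stays regular is bounded -/
theorem bounded_of_fun {μ : Cardinal.{0}} (hreg : ∀ p : P, p ∈ StaysRegular P μ)
    {ν : Cardinal.{0}} (hν : ν < μ) {U : Type} {R : ν.out → U → Set P} {q : P}
    (hR : q ∈ IsFun R) (φ : U → μ.ord.ToType) :
    ∃ r ≤ q, ∃ b, ∀ x u, ∀ s ≤ r, s ∈ meets (R x u) → φ u < b := by
  have h1 : q ∈ IsFun fun (x : ν.out) (β : μ.ord.ToType) =>
      {p : P | ∃ u, φ u = β ∧ p ∈ meets (R x u)} := by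
    refine ⟨fun x => mem_fex.2 fun q' hq' => ?_, fun x β β' => mem_fimp.2 ?_⟩
    · obtain ⟨r, hr, u, hu⟩ := mem_fex.1 (hR.1 x) q' hq'
      exact ⟨r, hr, φ u, meets_of_mem ⟨u, rfl, hu⟩⟩
    · rintro q' hq' ⟨h1, h2⟩
      refine ⟨q', le_rfl, ?_⟩
      obtain ⟨r, hr, s, ⟨u, hu, hsu⟩, hrs⟩ := h1 q' le_rfl
      obtain ⟨r', hr', s', ⟨u', hu', hsu'⟩, hrs'⟩ := h2 r hr
      have h3 : u = u' := IsFun.unique (down_IsFun R _ hR _ (hr'.trans (hr.trans hq')))
        (down_meets _ _ hsu _ (hr'.trans hrs)) (down_meets _ _ hsu' _ hrs')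
      show β = β'
      rw [← hu, ← hu', h3]
  obtain ⟨r, hr, hr'⟩ := mem_fimp.1 (hreg q ν hν _) q le_rfl h1
  obtain ⟨r2, hr2, b, hb⟩ := mem_fex.1 hr' r le_rfl
  refine ⟨r2, hr2.trans hr, b, fun x u s hs hsm => ?_⟩
  obtain ⟨t, _, ht⟩ := mem_fimp.1 (hb x (φ u)) s hs (meets_of_mem ⟨u, rfl, hsm⟩)
  exact ht

/-- a set which contains a copy of the universe has full size -/
theorem fullSize_of_inj {μ : Cardinal.{0}} (hreg : ∀ p : P, p ∈ StaysRegular P μ)
    {U : Type} (hU : #U = μ) (e : μ.ord.ToType → U)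
    (he : Function.Injective e) (A : U → Set P) (hA : ∀ x, ∀ p, p ∈ meets (A (e x))) (p : P) :
    p ∈ HasFullSize A := by
  classical
  intro ν hν q _ hex
  rw [hU] at hν
  obtain ⟨r, hr, R, hR, hcov⟩ := mem_fex.1 hex q le_rfl
  have hne : Nonempty μ.ord.ToType := by
    rw [← mk_ne_zero_iff, mk_ord_toType]
    exact (zero_le.trans_lt hν).ne'
  obtain ⟨r1, hr1, b, hb⟩ := bounded_of_fun hreg hν hR (Function.invFun e)
  obtain ⟨r2, hr2, h2⟩ := mem_fimp.1 (hcov (e b)) r1 hr1 (hA b r1)
  obtain ⟨r3, hr3, x, hx⟩ := mem_fex.1 h2 r2 le_rfl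
  have h3 := hb x (e b) r3 (hr3.trans hr2) hx
  rw [Function.leftInverse_invFun he b] at h3
  exact lt_irrefl _ h3

/-- finitely many dense sets -/
theorem exists_forall_fin {ι : Type} (s : Finset ι) (D : ι → Set P) (hD : ∀ i, Down (D i))
    (hd : ∀ i ∈ s, ∀ q : P, ∃ r ≤ q, r ∈ D i) (q : P) : ∃ r ≤ q, ∀ i ∈ s, r ∈ D i := by
  classical
  induction s using Finset.induction_on generalizing q with
  | empty => exact ⟨q, le_rfl, by simp⟩
  | insert a s _ ih =>
    obtain ⟨r, hr, h1⟩ := ih (fun i hi => hd i (Finset.mem_insert_of_mem hi)) q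
    obtain ⟨r', hr', h2⟩ := hd a (Finset.mem_insert_self _ _) r
    refine ⟨r', hr'.trans hr, fun i hi => ?_⟩
    rcases Finset.mem_insert.1 hi with rfl | hi
    · exact h2
    · exact hD i _ (h1 i hi) _ hr'

end

/-! ### Changing the index sets -/

section

variable {P : Type} [Preorder P] {J U J' U' : Type}

theorem isFun_equiv {X : Type} (e : U' ≃ U) {R : X → U → Set P} {p : P} (h : p ∈ IsFun R) :
    p ∈ IsFun fun x u => R x (e u) := by
  refine ⟨fun x => mem_fex.2 fun q hq => ?_, fun x y y' => mem_fimp.2 fun q hq hqq => ?_⟩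
  · obtain ⟨r, hr, u, hu⟩ := mem_fex.1 (h.1 x) q hq
    refine ⟨r, hr, e.symm u, ?_⟩
    show r ∈ meets (R x (e (e.symm u)))
    rw [Equiv.apply_symm_apply]
    exact hu
  · obtain ⟨r, hr, hr'⟩ := mem_fimp.1 (h.2 x (e y) (e y')) q hq hqq
    exact ⟨r, hr, e.injective hr'⟩

theorem fullSize_equiv (e : U' ≃ U) {A : U → Set P} {p : P} (h : p ∈ HasFullSize A) :
    p ∈ HasFullSize fun u => A (e u) := by
  intro ν hν q hq hex
  have hν' : ν < #U := by rwa [← e.cardinal_eq]
  obtain ⟨r, hr, R, hR, hcov⟩ := mem_fex.1 hex q le_rfl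
  refine down_fnot _ _ (h ν hν') r (hr.trans hq) r le_rfl (mem_fex_of_mem
    (fun x u => R x (e.symm u)) (down_fand (down_IsFun _) (down_fall fun _ => down_fimp _ _))
    ⟨isFun_equiv e.symm hR, fun u => mem_fimp.2 fun s hs hsm => ?_⟩)
  have h1 : s ∈ meets (A (e (e.symm u))) := by
    rw [Equiv.apply_symm_apply]
    exact hsm
  exact mem_fimp.1 (hcov (e.symm u)) s hs h1

theorem isFin_equiv (e : U' ≃ U) {A : U → Set P} {p : P} (h : p ∈ IsFin A) :
    p ∈ IsFin fun u => A (e u) := by
  rw [isFin_iff] at h ⊢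
  intro q hq
  obtain ⟨r, hr, F, hF⟩ := h q hq
  refine ⟨r, hr, F.map e.symm.toEmbedding, fun u s hs hsm => ?_⟩
  simp only [Finset.mem_map_equiv, Equiv.symm_symm]
  exact hF (e u) s hs hsm

theorem atLeast_equiv (e : U' ≃ U) {n : ℕ} {A : U → Set P} {p : P} (h : p ∈ AtLeast n A) :
    p ∈ AtLeast n fun u => A (e u) := by
  refine mem_fex.2 fun q hq => ?_
  obtain ⟨r, hr, F, hF1, hF2⟩ := mem_fex.1 h q hq
  refine ⟨r, hr, F.map e.symm.toEmbedding, ?_, fun u hu => ?_⟩
  · show n ≤ _
    rw [Finset.card_map]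
    exact hF1
  · simp only [Finset.mem_map_equiv, Equiv.symm_symm] at hu
    exact hF2 (e u) hu

theorem isCtbl_equiv (e : U' ≃ U) {A : U → Set P} {p : P} (h : p ∈ IsCtbl A) :
    p ∈ IsCtbl fun u => A (e u) := by
  refine mem_fex.2 fun q hq => ?_
  obtain ⟨r, hr, R, hR, hcov⟩ := mem_fex.1 h q hq
  refine ⟨r, hr, fun x u => R x (e u), isFun_equiv e hR, fun u => ?_⟩
  exact hcov (e u)

theorem isFamily_equiv (f : J' ≃ J) (e : U' ≃ U) {A : J → U → Set P} {p : P}
    (h : p ∈ IsFamily A) : p ∈ IsFamily fun j u => A (f j) (e u) := by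
  refine ⟨fun j => fullSize_equiv (A := A (f j)) e (h.1 (f j)), fun i j hij => ?_, fun n => ?_⟩
  · have h1 : p ∈ IsFin (nCap (A (f i)) (A (f j))) :=
      h.2.1 (f i) (f j) (fun h => hij (f.injective h))
    exact isFin_equiv (A := nCap (A (f i)) (A (f j))) e h1
  · refine mem_fex.2 fun q hq => ?_
    obtain ⟨r, hr, i, hi⟩ := mem_fex.1 (h.2.2 n) q hq
    obtain ⟨r', hr', j, hj1, hj2⟩ := mem_fex.1 hi r le_rfl
    refine ⟨r', hr'.trans hr, f.symm i, mem_fex_of_mem (f.symm j) (down_fand (down_fground _)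
      (down_fex _)) ⟨fun h => hj1 (f.symm.injective h), ?_⟩⟩
    have h1 := atLeast_equiv (A := nCap (A i) (A j)) e hj2
    have h2 : (nCap (fun u => A (f (f.symm i)) (e u)) fun u => A (f (f.symm j)) (e u)) =
      fun u => nCap (A i) (A j) (e u) := by
      funext u
      simp only [nCap, Equiv.apply_symm_apply]
    show r' ∈ AtLeast n (nCap (fun u => A (f (f.symm i)) (e u)) fun u => A (f (f.symm j)) (e u))
    rw [h2]
    exact h1

theorem isTransversal_equiv (f : J' ≃ J) (e : U' ≃ U) {A : J → U → Set P} {T : U → Set P} {p : P}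
    (h : p ∈ IsTransversal A T) :
    p ∈ IsTransversal (fun j u => A (f j) (e u)) fun u => T (e u) := by
  intro j
  refine ⟨mem_fex.2 fun q hq => ?_, ?_⟩
  · obtain ⟨r, hr, u, hu⟩ := mem_fex.1 (h (f j)).1 q hq
    refine ⟨r, hr, e.symm u, ?_⟩
    show r ∈ nCap T (A (f j)) (e (e.symm u))
    rw [Equiv.apply_symm_apply]
    exact hu
  · have h1 : p ∈ IsCtbl (nCap T (A (f j))) := (h (f j)).2
    exact isCtbl_equiv (A := nCap T (A (f j))) e h1

theorem hasBadFamily_of {K : Type} (f : K ≃ J) (e : K ≃ U) {A : J → U → Set P}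
    (hA : ∀ p, p ∈ IsFamily A) (hT : ∀ T : U → Set P, ∀ p, p ∉ IsTransversal A T) (p : P) :
    p ∈ HasBadFamily P K := by
  refine mem_fex_of_mem (fun j u => A (f j) (e u)) (down_fand (down_IsFamily _) (down_fnot _))
    ⟨isFamily_equiv f e (hA p), fun q _ hex => ?_⟩
  obtain ⟨r, _, T, hr⟩ := mem_fex.1 hex q le_rfl
  have h1 := isTransversal_equiv f.symm e.symm hr
  have h2 : (fun (j : J) (u : U) => A (f (f.symm j)) (e (e.symm u))) = A := by
    funext j u
    rw [Equiv.apply_symm_apply, Equiv.apply_symm_apply]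
  rw [h2] at h1
  exact hT _ _ h1

end

end Pool.Agent.H645
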