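import Mathlib
import Pool.Agent.H645.PB
import Pool.Agent.H645.Sentences

set_option autoImplicit false

/-!
# Small forcings which collapse `lam⁺` to `lam`
-/

namespace Pool.Agent.H645.N

open Cardinal Set Pool.Agent.H645.T
open Pool.Agent.Helper669.Forcing Pool.Agent.Helper669.K Pool.Agent.Helper669.U
  Pool.Agent.Helper669.V
open Pool.Agent.H645 (nCap meets_nCap of_meets_fground)

section

variable {P : Type} [Preorder P]

/-- The named subset `A` of `U` has cardinality at most `ν`: a function from a subset of `ν` to `U`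
covers it. -/
def CardLe {U : Type} (ν : Cardinal.{0}) (A : U → Set P) : Set P :=
  fex fun R : ν.out → U → Set P =>
    fand (fall fun x => fall fun y => fall fun y' =>
      fimp (fand (meets (R x y)) (meets (R x y'))) (fground (y = y')))
      (fall fun y => fimp (meets (A y)) (fex fun x => meets (R x y)))

/-- The named subset `A` of `U` has cardinality less than `κ`. -/
def CardLt {U : Type} (κ : Cardinal.{0}) (A : U → Set P) : Set P :=
  fex fun ν : Cardinal.{0} => fand (fground (ν < κ)) (CardLe ν A)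

/-- The named subset `A` of `U` has cardinality `κ`. -/
def CardEq {U : Type} (κ : Cardinal.{0}) (A : U → Set P) : Set P :=
  fand (CardLe κ A) (fnot (CardLt κ A))

/-- The named sets `A j` all have cardinality `κ`, and any two of them meet in a set of cardinality
less than `lam`. -/
def IsAD {J U : Type} (κ lam : Cardinal.{0}) (A : J → U → Set P) : Set P :=
  fand (fall fun j => CardEq κ (A j))
    (fall fun i => fall fun j => fall fun _ : i ≠ j => CardLt lam (nCap (A i) (A j)))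

/-- `T` names a set which meets each `A j` in a nonempty set of cardinality at most `lam`. -/
def IsTrans {J U : Type} (lam : Cardinal.{0}) (A : J → U → Set P) (T : U → Set P) : Set P :=
  fall fun j => fand (fex fun u => nCap T (A j) u) (CardLe lam (nCap T (A j)))

/-- For every cardinal `κ > lam`, every family of sets of cardinality `κ`, any two of which meet in
less than `lam` points, has a `lam⁺`-transversal. -/
def AllGood (P : Type) [Preorder P] (lam : Cardinal.{0}) : Set P :=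
  fall fun κ : Cardinal.{0} => fall fun _ : lam < κ => fall fun J : Type => fall fun U : Type =>
    fall fun A : J → U → Set P => fimp (IsAD κ lam A) (fex fun T : U → Set P => IsTrans lam A T)

variable {U : Type} {lam rho κ : Cardinal.{0}}

theorem down_CardLe (ν : Cardinal.{0}) (A : U → Set P) : Down (CardLe ν A) := down_fex _

theorem down_CardLt (ν : Cardinal.{0}) (A : U → Set P) : Down (CardLt ν A) := down_fex _

theorem down_IsTrans {J : Type} (A : J → U → Set P) (T : U → Set P) : Down (IsTrans lam A T) :=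
  down_fall fun _ => down_fand (down_fex _) (down_fex _)

/-- ground model sets covered by a function from a cardinal below the closure of the forcing -/
theorem small_of_cardLe (hlam : ℵ₀ ≤ lam) (hcl : DirClosed lam P) {ν : Cardinal.{0}}
    (hν : ν < lam) {A : U → Set P} {B : Set U} {p : P} (hp : p ∈ CardLe ν A)
    (hB : ∀ u ∈ B, p ∈ meets (A u)) : #B ≤ ν := by
  classical
  obtain ⟨r, hr, R, hR1, hR2⟩ := mem_fex.1 hp p le_rfl
  obtain ⟨q, hq, hD⟩ := exists_forall_mem hlam hcl (N := ν.out) (by rw [mk_out]; exact hν)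
    (fun x => {q | (∃ y, q ∈ meets (R x y)) ∨ ∀ y, q ∈ fnot (meets (R x y))})
    (by
      rintro x q (⟨y, hy⟩ | h) q' hq'
      · exact Or.inl ⟨y, down_meets _ _ hy _ hq'⟩
      · exact Or.inr fun y => down_fnot _ _ (h y) _ hq')
    (by
      intro x q
      by_cases h : ∃ s ≤ q, ∃ y, s ∈ meets (R x y)
      · obtain ⟨s, hs, y, hy⟩ := h
        exact ⟨s, hs, Or.inl ⟨y, hy⟩⟩
      · exact ⟨q, le_rfl, Or.inr fun y s hs hsy => h ⟨s, hs, y, hsy⟩⟩) r
  have h1 : ∀ u : B, ∃ x, q ∈ meets (R x u.1) := by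
    intro u
    obtain ⟨s, hs, hs'⟩ := mem_fimp.1 (hR2 u.1) q hq (down_meets _ _ (hB u.1 u.2) _ (hq.trans hr))
    obtain ⟨t, ht, x, hx⟩ := mem_fex.1 hs' s le_rfl
    rcases hD x with ⟨y, hy⟩ | h
    · refine ⟨x, ?_⟩
      obtain ⟨t', _, ht'⟩ := mem_fimp.1 (hR1 x u.1 y) t (ht.trans (hs.trans hq))
        ⟨hx, down_meets _ _ hy _ (ht.trans hs)⟩
      have h2 : u.1 = y := ht'
      rw [h2]
      exact hy
    · exact absurd hx (h u.1 t (ht.trans hs))
  choose x hx using h1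
  rw [← mk_out ν]
  refine mk_le_of_injective (f := x) fun u u' huu => Subtype.ext ?_
  obtain ⟨t', _, ht'⟩ := mem_fimp.1 (hR1 (x u) u.1 u'.1) q hq ⟨hx u, by rw [huu]; exact hx u'⟩
  exact ht'

/-- the elements forced into a named set of size at most `κ` -/
theorem forced_le (hκ : ℵ₀ ≤ κ) (hP : #P ≤ κ) {A : U → Set P} {p : P} (hp : p ∈ CardLe κ A) :
    #{u | p ∈ meets (A u)} ≤ κ := by
  classical
  obtain ⟨r, hr, R, hR1, hR2⟩ := mem_fex.1 hp p le_rfl
  have h1 : ∀ u : {u | p ∈ meets (A u)}, ∃ x : κ.out, ∃ t ≤ r, t ∈ meets (R x u.1) := by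
    intro u
    obtain ⟨s, hs, hs'⟩ := mem_fimp.1 (hR2 u.1) r le_rfl (down_meets _ _ u.2 _ hr)
    obtain ⟨t, ht, x, hx⟩ := mem_fex.1 hs' s le_rfl
    exact ⟨x, t, ht.trans hs, hx⟩
  choose x t ht htx using h1
  have h2 : #(κ.out × P) ≤ κ := by
    rw [mk_prod, lift_id, lift_id, mk_out]
    exact (mul_le_mul' le_rfl hP).trans_eq (mul_eq_self hκ)
  refine (mk_le_of_injective (f := fun u => (x u, t u)) fun u u' huu => ?_).trans h2
  simp only [Prod.mk.injEq] at huu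
  obtain ⟨t', _, ht'⟩ := mem_fimp.1 (hR1 (x u) u.1 u'.1) (t u) (ht u) ⟨htx u, by
    rw [huu.1, huu.2]; exact htx u'⟩
  exact Subtype.ext ht'

/-- a named subset of a ground model set -/
theorem cardLe_of_sub {ν : Cardinal.{0}} {A : U → Set P} {B : Set U} (hB : #B ≤ ν) {p : P}
    (h : ∀ u, ∀ q ≤ p, q ∈ meets (A u) → u ∈ B) : p ∈ CardLe ν A := by
  classical
  have h3 : #B ≤ #ν.out := by rw [mk_out]; exact hB
  obtain ⟨e⟩ := h3
  refine mem_fex_of_mem (fun x u => fground (∃ hu : u ∈ B, e ⟨u, hu⟩ = x)) (down_fand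
    (down_fall fun _ => down_fall fun _ => down_fall fun _ => down_fimp _ _)
    (down_fall fun _ => down_fimp _ _)) ⟨fun x y y' => ?_, fun u => ?_⟩
  · refine mem_fimp.2 ?_
    rintro q _ ⟨h1, h2⟩
    obtain ⟨hy, hy'⟩ := of_meets_fground h1
    obtain ⟨hz, hz'⟩ := of_meets_fground h2
    exact ⟨q, le_rfl, congrArg Subtype.val (e.injective (hy'.trans hz'.symm))⟩
  · refine mem_fimp.2 fun q hq hqu => ⟨q, le_rfl, ?_⟩
    exact mem_fex_of_mem (e ⟨u, h u q hq hqu⟩) (down_meets _) (meets_of_mem ⟨_, rfl⟩)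

theorem cardLe_mono {ν ν' : Cardinal.{0}} (h : ν ≤ ν') {A : U → Set P} {p : P}
    (hp : p ∈ CardLe ν A) : p ∈ CardLe ν' A := by
  classical
  have h3 : #ν.out ≤ #ν'.out := by rw [mk_out, mk_out]; exact h
  obtain ⟨e⟩ := h3
  refine mem_fex.2 fun q hq => ?_
  obtain ⟨r, hr, R, hR1, hR2⟩ := mem_fex.1 hp q hq
  refine ⟨r, hr, fun x u => {s | ∃ z, e z = x ∧ s ∈ meets (R z u)}, fun x y y' => ?_, fun u => ?_⟩
  · refine mem_fimp.2 ?_
    rintro s hs ⟨h1, h2⟩
    obtain ⟨t, ht, a, ⟨z, hz, ha⟩, hta⟩ := h1 s le_rfl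
    obtain ⟨t', ht', a', ⟨z', hz', ha'⟩, hta'⟩ := h2 t ht
    have h4 : z = z' := e.injective (hz.trans hz'.symm)
    subst h4
    obtain ⟨t2, ht2, ht3⟩ := mem_fimp.1 (hR1 z y y') t' (ht'.trans (ht.trans hs))
      ⟨down_meets _ _ ha _ (ht'.trans hta), down_meets _ _ ha' _ hta'⟩
    exact ⟨t2, ht2.trans (ht'.trans ht), ht3⟩
  · refine mem_fimp.2 fun s hs hsu => ?_
    obtain ⟨t, ht, ht'⟩ := mem_fimp.1 (hR2 u) s hs hsu
    obtain ⟨t2, ht2, z, hz⟩ := mem_fex.1 ht' t le_rfl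
    exact ⟨t2, ht2.trans ht, mem_fex_of_mem (e z) (down_meets _) (meets_of_mem ⟨z, rfl, hz⟩)⟩

/-- sets of a collapsed size -/
theorem cardLe_collapse {μ ν χ : Cardinal.{0}} (hcol : ∀ p : P, p ∈ CollapsedTo P μ χ)
    (hν : ν < χ) {A : U → Set P} {p : P} (hp : p ∈ CardLe ν A) : p ∈ CardLe μ A := by
  classical
  obtain ⟨e⟩ : Nonempty (μ.out ≃ μ.ord.ToType) := by
    rw [← Cardinal.eq, mk_out, mk_ord_toType]
  refine mem_fex.2 fun q hq => ?_
  obtain ⟨r, hr, R, hR1, hR2⟩ := mem_fex.1 hp q hq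
  obtain ⟨r', hr', C, hC1, hC2⟩ := mem_fex.1 (hcol r ν hν) r le_rfl
  refine ⟨r', hr'.trans hr, fun x u => {s | ∃ z, s ∈ meets (C (e x) z) ∧ s ∈ meets (R z u)},
    fun x y y' => ?_, fun u => ?_⟩
  · refine mem_fimp.2 ?_
    rintro s hs ⟨h1, h2⟩
    obtain ⟨t, ht, a, ⟨z, hz, ha⟩, hta⟩ := h1 s le_rfl
    obtain ⟨t', ht', a', ⟨z', hz', ha'⟩, hta'⟩ := h2 t ht
    have hle : t' ≤ r' := ht'.trans (ht.trans hs)
    obtain ⟨t2, ht2, h3⟩ := mem_fimp.1 (hC1 (e x) z z') t' hle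
      ⟨down_meets _ _ hz _ (ht'.trans hta), down_meets _ _ hz' _ hta'⟩
    have h4 : z = z' := h3
    subst h4
    obtain ⟨t3, ht3, h5⟩ := mem_fimp.1 (hR1 z y y') t2 (ht2.trans (hle.trans hr'))
      ⟨down_meets _ _ ha _ (ht2.trans (ht'.trans hta)), down_meets _ _ ha' _ (ht2.trans hta')⟩
    exact ⟨t3, ht3.trans (ht2.trans (ht'.trans ht)), h5⟩
  · refine mem_fimp.2 fun s hs hsu => ?_
    obtain ⟨t, ht, ht'⟩ := mem_fimp.1 (hR2 u) s (hs.trans hr') hsu
    obtain ⟨t2, ht2, z, hz⟩ := mem_fex.1 ht' t le_rfl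
    obtain ⟨t3, ht3, x, hx⟩ := mem_fex.1 (hC2 z) t2 (ht2.trans (ht.trans hs))
    refine ⟨t3, ht3.trans (ht2.trans ht), mem_fex_of_mem (e.symm x) (down_meets _)
      (meets_of_mem ⟨z, ?_, down_meets _ _ hz _ ht3⟩)⟩
    rw [Equiv.apply_symm_apply]
    exact hx

/-- **All families have transversals.** -/
theorem allGood_of (hGCH : ∀ ν : Cardinal.{0}, ℵ₀ ≤ ν → 2 ^ ν = Order.succ ν) (hlam : ℵ₀ ≤ lam)
    (hcl : DirClosed lam P) (hP : #P ≤ Order.succ lam)
    (hcol : ∀ p : P, p ∈ CollapsedTo P lam (Order.succ (Order.succ lam))) (p : P) :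
    p ∈ AllGood P lam := by
  classical
  intro κ hκ J U A
  refine mem_fimp.2 fun p0 _ hA => ⟨p0, le_rfl, ?_⟩
  have hρ : ℵ₀ ≤ Order.succ lam := hlam.trans (Order.le_succ _)
  rcases isEmpty_or_nonempty J with hJ | ⟨⟨j0⟩⟩
  · exact mem_fex_of_mem (fun _ => ∅) (down_IsTrans _ _) fun j => (hJ.false j).elim
  -- `κ` is greater than `lam⁺`
  have hκ2 : Order.succ lam < κ := by
    by_contra hcon
    rw [not_lt] at hcon
    refine (hA.1 j0).2 p0 le_rfl (mem_fex_of_mem lam (down_fand (down_fground _) (down_fex _))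
      ⟨hκ, cardLe_collapse hcol (ν := κ) (Order.lt_succ_iff.2 hcon) (hA.1 j0).1⟩)
  let P0 := {q : P // q ≤ p0}
  have hP0 : #P0 ≤ Order.succ lam := (mk_subtype_le _).trans hP
  let B : J → P0 → Set U := fun j q => {u | q.1 ∈ meets (A j u)}
  have hBle : ∀ j q, #(B j q) ≤ κ := fun j q =>
    forced_le (hρ.trans hκ2.le) (hP.trans hκ2.le) (down_CardLe _ _ _ (hA.1 j).1 _ q.2)
  have hBmono : Mono B := fun j q r hrq u hu => down_meets _ _ hu _ hrq
  have hBad : NAD lam B := by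
    rintro i j hij q r ⟨s, hsq, hsr⟩
    obtain ⟨t, ht, ν, hν, htν⟩ := mem_fex.1 (hA.2 i j hij) s.1 s.2
    refine lt_of_le_of_lt (small_of_cardLe hlam hcl hν htν ?_) hν
    rintro u ⟨hu1, hu2⟩
    refine meets_nCap.2 ⟨down_meets _ _ hu1 _ (ht.trans hsq), down_meets _ _ hu2 _ (ht.trans hsr)⟩
  have hBbig : Big κ B := by
    intro j ν hν q
    by_contra hcon
    push Not at hcon
    have hmax : max ν (Order.succ lam) < κ := max_lt hν hκ2
    refine down_fnot _ _ (hA.1 j).2 _ q.2 q.1 le_rfl (mem_fex_of_mem (max ν (Order.succ lam))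
      (down_fand (down_fground _) (down_fex _)) ⟨hmax, ?_⟩)
    refine cardLe_of_sub (B := ⋃ r : {r : P0 // r ≤ q}, B j r.1)
      (card_iUnion_le (hρ.trans (le_max_right _ _)) _
        ((mk_subtype_le _).trans (hP0.trans (le_max_right _ _)))
        fun r => (hcon r.1 r.2).trans (le_max_left _ _)) ?_
    intro u r hr hu
    exact mem_iUnion.2 ⟨⟨⟨r, hr.trans q.2⟩, hr⟩, hu⟩
  obtain ⟨T, hT1, hT2⟩ := main_posP' hGCH hlam (Order.lt_succ lam) hκ2 hP0 hBle hBmono hBad hBbig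
  refine mem_fex_of_mem (fun u => {q | ∃ h : q ≤ p0, u ∈ T ⟨q, h⟩}) (down_IsTrans _ _)
    fun j => ⟨?_, ?_⟩
  · refine mem_fex.2 fun q hq => ?_
    obtain ⟨r, hr, u, hu1, hu2⟩ := hT1 j ⟨q, hq⟩
    exact ⟨r.1, hr, u, meets_of_mem ⟨r.2, hu1⟩, hu2⟩
  · refine cardLe_collapse hcol (ν := Order.succ lam) (Order.lt_succ _) (cardLe_of_sub
      (B := ⋃ q : P0, {u | u ∈ B j q ∧ ∃ r, Comp r q ∧ u ∈ T r})
      (card_iUnion_le hρ _ hP0 fun q => hT2 j q) ?_)
    intro u s hs hsu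
    rw [meets_nCap] at hsu
    obtain ⟨r, hr, q, ⟨hq, huq⟩, hrq⟩ := hsu.1 s le_rfl
    refine mem_iUnion.2 ⟨⟨r, hr.trans hs⟩, down_meets _ _ hsu.2 _ hr, ⟨q, hq⟩,
      ⟨⟨r, hr.trans hs⟩, hrq, le_rfl⟩, huq⟩

end

end Pool.Agent.H645.N
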