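import Mathlib
import Pool.Agent.H645.Data
import Pool.Graph.R_seed8.Helper669.VFinal

set_option autoImplicit false

/-!
# A forcing which adds an uncountable set almost disjoint from the bounded parts of a scale
-/

namespace Pool.Agent.H645

open Cardinal Set
open Pool.Agent.Helper669.Forcing Pool.Agent.Helper669.K Pool.Agent.Helper669.U
  Pool.Agent.Helper669.V

section

variable {Θ : Type} [LinearOrder Θ] {V : ℕ → Type} [∀ n, LinearOrder (V n)]

/-- the set of all `i` such that `h i` is below `b` from `m` on -/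
def DD (h : Θ → ∀ n, V n) (b : ∀ n, V n) (m : ℕ) : Set Θ := {i | ∀ n ≥ m, h i n < b n}

/-- The conditions: a finite set `s` of elements of the generic set, and the promise to add no
further element of `DD h b m` -/
structure RC (h : Θ → ∀ n, V n) where
  s : Finset Θ
  b : ∀ n, V n
  m : ℕ

variable {h : Θ → ∀ n, V n}

theorem DD_mono {b b' : ∀ n, V n} {m m' : ℕ} (hb : ∀ n, b n ≤ b' n) (hm : m ≤ m') :
    DD h b m ⊆ DD h b' m' := fun _ hi n hn => (hi n (hm.trans hn)).trans_le (hb n)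

instance (h : Θ → ∀ n, V n) : Preorder (RC h) where
  le p' p := p.s ⊆ p'.s ∧ p.m ≤ p'.m ∧ (∀ n, p.b n ≤ p'.b n) ∧
    ∀ i ∈ p'.s, i ∈ DD h p.b p.m → i ∈ p.s
  le_refl p := ⟨subset_rfl, le_rfl, fun _ => le_rfl, fun _ hi _ => hi⟩
  le_trans a b c h1 h2 := ⟨h2.1.trans h1.1, h2.2.1.trans h1.2.1,
    fun n => (h2.2.2.1 n).trans (h1.2.2.1 n), fun i hi hd =>
      h2.2.2.2 i (h1.2.2.2 i hi (DD_mono h2.2.2.1 h2.2.1 hd)) hd⟩

theorem RC.le_iff {p' p : RC h} : p' ≤ p ↔ p.s ⊆ p'.s ∧ p.m ≤ p'.m ∧ (∀ n, p.b n ≤ p'.b n) ∧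
    ∀ i ∈ p'.s, i ∈ DD h p.b p.m → i ∈ p.s := Iff.rfl

/-- the sets `DD h b m` are bounded -/
theorem DD_bdd (hh : IsScale h) (b : ∀ n, V n) : ∃ β : Θ, ∀ i ≥ β, ∀ m, i ∉ DD h b m := by
  obtain ⟨a, m1, ha⟩ := hh.cof b
  refine ⟨a, fun i hi m hd => ?_⟩
  rcases hi.eq_or_lt with rfl | hlt
  · exact absurd ((hd (max m m1) (le_max_left _ _)).trans (ha (max m m1) (le_max_right _ _)))
      (lt_irrefl _)
  · obtain ⟨m2, h2⟩ := hh.mono a i hlt
    have h3 := hd (max m (max m1 m2)) (le_max_left _ _)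
    have h4 := ha (max m (max m1 m2)) ((le_max_left _ _).trans (le_max_right _ _))
    have h5 := h2 (max m (max m1 m2)) ((le_max_right _ _).trans (le_max_right _ _))
    exact absurd (h3.trans (h4.trans h5)) (lt_irrefl _)

/-- adding an element -/
theorem RC.add (p : RC h) (i : Θ) (hi : i ∉ DD h p.b p.m) : ∃ q ≤ p, i ∈ q.s := by
  classical
  refine ⟨⟨insert i p.s, p.b, p.m⟩, ⟨Finset.subset_insert _ _, le_rfl, fun _ => le_rfl, ?_⟩,
    Finset.mem_insert_self _ _⟩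
  intro j hj hd
  rcases Finset.mem_insert.1 hj with rfl | hj
  · exact absurd hd hi
  · exact hj

/-- adding a promise -/
theorem RC.promise (p : RC h) (b : ∀ n, V n) (m : ℕ) :
    ∃ q ≤ p, m ≤ q.m ∧ ∀ n, b n ≤ q.b n := by
  refine ⟨⟨p.s, fun n => max (p.b n) (b n), max p.m m⟩, ⟨subset_rfl, le_max_left _ _,
    fun _ => le_max_left _ _, fun _ hi _ => hi⟩, le_max_right _ _, fun _ => le_max_right _ _⟩

theorem RC.unbounded (hh : IsScale h) (hΘ : ∀ β : Θ, ∃ γ, β < γ) (p : RC h) (β : Θ) :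
    ∃ q ≤ p, ∃ i ∈ q.s, β < i := by
  obtain ⟨γ, hγ⟩ := DD_bdd hh p.b
  obtain ⟨i, hi⟩ := hΘ (max β γ)
  obtain ⟨q, hq, hiq⟩ := p.add i (hγ i ((le_max_right β γ).trans hi.le) p.m)
  exact ⟨q, hq, i, hiq, (le_max_left β γ).trans_lt hi⟩

end

section

variable {lam : Cardinal.{0}} {Θ : Type} [LinearOrder Θ] {V : ℕ → Type}
  [∀ n, LinearOrder (V n)] {h : Θ → ∀ n, V n}

theorem exists_fiber' {ι Y : Type} {c : Cardinal.{0}} (hc : ℵ₀ ≤ c) (T : Set ι) (hT : c < #T)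
    (hY : #Y ≤ c) (f : ι → Y) : ∃ y, c < #{i | i ∈ T ∧ f i = y} := by
  obtain ⟨y, hy⟩ := exists_fiber hc hT hY fun i : T => f i.1
  refine ⟨y, hy.trans_le ?_⟩
  exact mk_le_of_injective (f := fun i : {i : T | f i.1 = y} =>
    (⟨i.1.1, i.1.2, i.2⟩ : {i | i ∈ T ∧ f i = y})) fun i j hij =>
    Subtype.ext (Subtype.ext (congrArg (fun z : {i | i ∈ T ∧ f i = y} => z.1) hij))

/-- the Delta-system lemma for finite sets -/
theorem delta_fin {ι K : Type} {c : Cardinal.{0}} (hc : ℵ₀ ≤ c) (hι : c < #ι) (s : ι → Finset K) :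
    ∃ (T : Set ι) (r : Finset K), c < #T ∧ ∀ i ∈ T, r ⊆ s i ∧
      ∀ j ∈ T, i ≠ j → ∀ x ∈ s i, x ∈ s j → x ∈ r := by
  classical
  obtain ⟨T, R, hT, hR, hTR⟩ := Pool.Agent.Helper669.KDelta.weak_delta hc (not_le.2 hι)
    (fun i => (s i : Set K)) (fun i => (s i).finite_toSet.lt_aleph0.trans_le hc)
  rw [not_le] at hT
  have h1 : ∀ i, ∃ t : Finset R, ∀ x : R, x ∈ t ↔ x.1 ∈ s i := by
    intro i
    have hf : {x : R | x.1 ∈ s i}.Finite :=
      Finite.preimage (Subtype.val_injective.injOn) (s i).finite_toSet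
    exact ⟨hf.toFinset, fun x => by simp⟩
  choose t ht using h1
  have h2 : #(Finset R) ≤ c := by
    rcases finite_or_infinite R with hf | hf
    · exact (lt_aleph0_of_finite _).le.trans hc
    · rw [mk_finset_of_infinite]
      exact hR
  obtain ⟨y, hy⟩ := exists_fiber' hc T hT h2 t
  refine ⟨_, y.map (Function.Embedding.subtype _), hy, ?_⟩
  rintro i ⟨hi, hiy⟩
  refine ⟨fun x hx => ?_, ?_⟩
  · simp only [Finset.mem_map, Function.Embedding.coe_subtype] at hx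
    obtain ⟨z, hz, rfl⟩ := hx
    rw [← hiy] at hz
    exact (ht i z).1 hz
  · rintro j ⟨hj, hjy⟩ hij x hxi hxj
    have hxR : x ∈ R := hTR i hi j hj hij ⟨hxi, hxj⟩
    simp only [Finset.mem_map, Function.Embedding.coe_subtype]
    refine ⟨⟨x, hxR⟩, ?_, rfl⟩
    rw [← hiy]
    exact (ht i ⟨x, hxR⟩).2 hxi

/-- the chain condition -/
theorem RC.cc (hΘ : IsSuccType lam Θ) (hV : ∀ n, #(V n) ≤ lam) (hne : ∀ n, Nonempty (V n))
    (hh : IsScale h) (ι : Type) (f : ι → RC h) (hι : Order.succ lam ≤ #ι) :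
    ∃ i j, i ≠ j ∧ ∃ r, r ≤ f i ∧ r ≤ f j := by
  classical
  have hlam := hΘ.inf
  obtain ⟨T0, r, hT0, hr⟩ := delta_fin hlam (Order.succ_le_iff.1 hι) fun i => (f i).s
  obtain ⟨m, hT⟩ := exists_fiber' hlam T0 hT0 (Y := ℕ) (by rw [mk_nat]; exact hlam)
    fun i => (f i).m
  set T : Set ι := {i | i ∈ T0 ∧ (f i).m = m} with hTdef
  -- most of the sets are above a given point
  have hmost : ∀ β : Θ, #{i | i ∈ T ∧ ∃ x ∈ (f i).s, x ∉ r ∧ x < β} ≤ lam := by
    intro β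
    have h1 : ∀ i : {i | i ∈ T ∧ ∃ x ∈ (f i).s, x ∉ r ∧ x < β}, ∃ x ∈ (f i.1).s, x ∉ r ∧ x < β :=
      fun i => i.2.2
    choose x hx1 hx2 hx3 using h1
    refine (mk_le_of_injective (f := fun i => (⟨x i, hx3 i⟩ : Iio β)) fun i j hij => ?_).trans
      (hΘ.init β)
    by_contra hne'
    have hxx : x i = x j := congrArg (fun z : Iio β => z.1) hij
    exact hx2 i ((hr i.1 i.2.1.1).2 j.1 j.2.1.1 (fun e => hne' (Subtype.ext e)) (x i) (hx1 i)
      (hxx ▸ hx1 j))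
  have hpick : ∀ (β : Θ) (B : Set ι), #B ≤ lam → ∃ i ∈ T, i ∉ B ∧ ∀ x ∈ (f i).s, x ∉ r → β ≤ x := by
    intro β B hB
    by_contra hcon
    push Not at hcon
    have h1 : T ⊆ B ∪ {i | i ∈ T ∧ ∃ x ∈ (f i).s, x ∉ r ∧ x < β} := by
      intro i hi
      by_cases hiB : i ∈ B
      · exact Or.inl hiB
      · exact Or.inr ⟨hi, hcon i hi hiB⟩
    have h2 := (mk_le_mk_of_subset h1).trans
      ((mk_union_le _ _).trans ((add_le_add hB (hmost β)).trans_eq (add_eq_self hlam)))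
    exact absurd hT (not_lt.2 h2)
  -- a coordinate where the sets are unbounded
  have hcoord : ∃ n ≥ m, ∀ v : V n, ∃ i ∈ T, ∀ x ∈ (f i).s, x ∉ r → v ≤ h x n := by
    by_contra hcon
    push Not at hcon
    have h1 : ∀ n, ∃ v : V n, n ≥ m → ∀ i ∈ T, ∃ x ∈ (f i).s, x ∉ r ∧ h x n < v := by
      intro n
      by_cases hn : n ≥ m
      · obtain ⟨v, hv⟩ := hcon n hn
        exact ⟨v, fun _ => hv⟩
      · exact ⟨(hne n).some, fun h => absurd h hn⟩
    choose c hc using h1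
    obtain ⟨a, ha⟩ := hh.cof c
    obtain ⟨i, hi, _, hi2⟩ := hpick a ∅ (by simp)
    have h2 : ∀ x ∈ (f i).s, ∃ mx, x ∉ r → ∀ n ≥ mx, c n ≤ h x n := by
      intro x hx
      by_cases hxr : x ∈ r
      · exact ⟨0, fun h => absurd hxr h⟩
      · rcases (hi2 x hx hxr).eq_or_lt with rfl | hlt
        · obtain ⟨m1, h1⟩ := ha
          exact ⟨m1, fun _ n hn => (h1 n hn).le⟩
        · obtain ⟨m1, h1⟩ := ha.trans (hh.mono a x hlt)
          exact ⟨m1, fun _ n hn => (h1 n hn).le⟩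
    choose! mx hmx using h2
    let n := max m ((f i).s.sup mx)
    obtain ⟨x, hx, hxr, hlt⟩ := hc n (le_max_left _ _) i hi
    have h3 := hmx x hx hxr n ((Finset.le_sup (f := mx) hx).trans (le_max_right _ _))
    exact absurd hlt (not_lt.2 h3)
  obtain ⟨n, hn, hv⟩ := hcoord
  choose iv hiv1 hiv2 using hv
  choose β hβ using fun v => DD_bdd hh (f (iv v)).b
  obtain ⟨γ, hγ⟩ := hΘ.bddF β (hV n)
  obtain ⟨j, hj, hjB, hj2⟩ := hpick γ (range iv) (mk_range_le.trans (hV n))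
  let v := (f j).b n
  have hij : iv v ≠ j := fun e => hjB ⟨v, e⟩
  refine ⟨iv v, j, hij, ⟨(f (iv v)).s ∪ (f j).s, fun k => max ((f (iv v)).b k) ((f j).b k), m⟩,
    ⟨Finset.subset_union_left, (hiv1 v).2.le, fun _ => le_max_left _ _, ?_⟩,
    ⟨Finset.subset_union_right, hj.2.le, fun _ => le_max_right _ _, ?_⟩⟩
  · intro x hx hd
    rcases Finset.mem_union.1 hx with hx | hx
    · exact hx
    · by_cases hxr : x ∈ r
      · exact (hr (iv v) (hiv1 v).1).1 hxr
      · exact absurd hd (hβ v x ((hγ v).le.trans (hj2 x hx hxr)) _)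
  · intro x hx hd
    rcases Finset.mem_union.1 hx with hx | hx
    · by_cases hxr : x ∈ r
      · exact (hr j hj.1).1 hxr
      · have h4 := hiv2 v x hx hxr
        have h5 := hd n (by rw [hj.2]; exact hn)
        exact absurd h5 (not_lt.2 h4)
    · exact hx

theorem RC.card_le (hΘ : IsSuccType lam Θ) (hV : ∀ n, #(V n) ≤ lam)
    (hG : (2 : Cardinal.{0}) ^ lam = Order.succ lam) : #(RC h) ≤ Order.succ lam := by
  have h1 : #(RC h) ≤ #(Finset Θ × (∀ n, V n) × ℕ) :=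
    mk_le_of_injective (f := fun p => (p.s, p.b, p.m)) fun p q hpq => by
      cases p; cases q
      simp only [Prod.mk.injEq] at hpq
      obtain ⟨rfl, rfl, rfl⟩ := hpq
      rfl
  have hle : ℵ₀ ≤ Order.succ lam := hΘ.inf.trans (Order.le_succ _)
  have h2 : #(Finset Θ) ≤ Order.succ lam := by
    have : Infinite Θ := by
      rw [infinite_iff, hΘ.card]
      exact hle
    rw [mk_finset_of_infinite, hΘ.card]
  have h3 : #(∀ n, V n) ≤ Order.succ lam := by
    rw [← hG]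
    exact card_pi_le hΘ.inf hV
  refine h1.trans ?_
  rw [mk_prod, mk_prod, lift_id, lift_id, lift_id, lift_id, mk_nat]
  calc #(Finset Θ) * (#(∀ n, V n) * ℵ₀) ≤ Order.succ lam * (Order.succ lam * Order.succ lam) :=
        mul_le_mul' h2 (mul_le_mul' h3 hle)
    _ = Order.succ lam := by rw [mul_eq_self hle, mul_eq_self hle]

/-- a colouring for which every colour is met above the scale -/
theorem exists_col (hΘ : IsSuccType lam Θ) (hV : ∀ n, #(V n) ≤ lam)
    (hne : ∀ n, Nonempty (V n)) (hh : IsScale h) {L : Type} (hL : #L = lam) :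
    ∃ (col : Θ → L) (β : Θ), ∀ x b m, ∃ i < β, col i = x ∧ i ∉ DD h b m := by
  classical
  have hinf := hΘ.inf
  obtain ⟨col, hcol⟩ : ∃ col : Θ → L, ∀ x β, ∃ i, β < i ∧ col i = x := by
    have h0 : #(Θ × L) ≤ #Θ := by
      rw [mk_prod, lift_id, lift_id, hL, hΘ.card]
      refine (mul_le_mul' le_rfl (Order.le_succ _)).trans_eq (mul_eq_self ?_)
      exact hinf.trans (Order.le_succ _)
    obtain ⟨e⟩ := h0
    have hE : Nonempty L := by
      rw [← mk_ne_zero_iff, hL]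
      exact (aleph0_pos.trans_le hinf).ne'
    refine ⟨fun i => if hi : ∃ z, e z = i then hi.choose.2 else hE.some, fun x β => ?_⟩
    by_contra hcon
    push Not at hcon
    have h1 : ∀ γ : Θ, e (γ, x) ≤ β := by
      intro γ
      by_contra h2
      have h3 : ∃ z, e z = e (γ, x) := ⟨_, rfl⟩
      refine hcon _ (not_le.1 h2) ?_
      rw [dif_pos h3]
      have h4 := e.injective h3.choose_spec
      rw [h4]
    have h2 : #Θ ≤ #(Iic β) := mk_le_of_injective (f := fun γ => (⟨e (γ, x), h1 γ⟩ : Iic β))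
      fun a b hab => by
        have h3 : e (a, x) = e (b, x) := congrArg (fun z : Iic β => z.1) hab
        exact congrArg Prod.fst (e.injective h3)
    exact absurd (h2.trans (hΘ.initc β)) (not_le.2 hΘ.lt)
  have h1 : ∀ (x : L) (m : ℕ), ∃ n ≥ m, ∀ v : V n, ∃ i, col i = x ∧ v ≤ h i n := by
    intro x m
    by_contra hcon
    push Not at hcon
    have h2 : ∀ n, ∃ v : V n, n ≥ m → ∀ i, col i = x → h i n < v := by
      intro n
      by_cases hn : n ≥ m
      · obtain ⟨v, hv⟩ := hcon n hn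
        exact ⟨v, fun _ => hv⟩
      · exact ⟨(hne n).some, fun h => absurd h hn⟩
    choose c hc using h2
    obtain ⟨a, ha⟩ := hh.cof c
    obtain ⟨i, hi, hix⟩ := hcol x a
    obtain ⟨m1, hm1⟩ := ha.trans (hh.mono a i hi)
    exact absurd ((hc (max m m1) (le_max_left _ _) i hix).trans (hm1 _ (le_max_right _ _)))
      (lt_irrefl _)
  choose n hn i hi1 hi2 using h1
  obtain ⟨β, hβ⟩ := hΘ.bddF (fun z : Σ p : L × ℕ, V (n p.1 p.2) => i z.1.1 z.1.2 z.2) (by
    rw [mk_sigma]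
    refine (sum_le_sum _ (fun _ => lam) fun p => hV _).trans ?_
    rw [sum_const, lift_id, lift_id, mk_prod, lift_id, lift_id, mk_nat, hL]
    exact ((mul_le_mul' (mul_le_mul' le_rfl hinf) le_rfl).trans_eq
      (by rw [mul_eq_self hinf, mul_eq_self hinf])))
  refine ⟨col, β, fun x b m => ⟨i x m (b (n x m)), hβ ⟨(x, m), _⟩, hi1 _ _ _, fun hd => ?_⟩⟩
  exact absurd (hd _ (hn x m)) (not_lt.2 (hi2 x m _))

/-- the part of the generic set in `DD h (h β) m` is decided -/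
theorem RC.filter_eq {p q : RC h} (hpq : q ≤ p) {b : ∀ n, V n} {m : ℕ} (hb : ∀ n, b n ≤ p.b n)
    (hm : m ≤ p.m) (i : Θ) (hi : i ∈ DD h b m) : i ∈ q.s ↔ i ∈ p.s :=
  ⟨fun h1 => hpq.2.2.2 i h1 (DD_mono hb hm hi), fun h1 => hpq.1 h1⟩

/-- `Order.succ lam` becomes the first uncountable cardinal -/
theorem RC.collapsed (hΘ : IsSuccType lam Θ) (hV : ∀ n, #(V n) ≤ lam)
    (hne : ∀ n, Nonempty (V n)) (hh : IsScale h) (p : RC h) :
    p ∈ CollapsedTo (RC h) ℵ₀ (Order.succ lam) := by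
  classical
  intro ν hν
  have hν' : ν ≤ lam := Order.lt_succ_iff.1 hν
  obtain ⟨col, β, hcol⟩ := exists_col hΘ hV hne hh (mk_ord_toType lam)
  have h0 : #ν.out ≤ #(lam.ord.ToType) := by
    rw [mk_out, mk_ord_toType]
    exact hν'
  obtain ⟨e⟩ := h0
  obtain ⟨g⟩ : Nonempty ((ℵ₀ : Cardinal.{0}).ord.ToType ≃ ℕ × ℕ) := by
    rw [← Cardinal.eq, mk_ord_toType, mk_prod, lift_id, mk_nat, aleph0_mul_aleph0]
  let F : RC h → ℕ → Finset Θ := fun p m => p.s.filter fun i => i ∈ DD h (h β) m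
  let N : (ℵ₀ : Cardinal.{0}).ord.ToType → ν.out → Set (RC h) := fun z x =>
    {p | (∀ n, h β n ≤ p.b n) ∧ (g z).1 ≤ p.m ∧
      ∃ i, (F p (g z).1).toList[(g z).2]? = some i ∧ col i = e x}
  refine mem_fex_of_mem N (down_fand (down_fall fun _ => down_fall fun _ => down_fall fun _ =>
    down_fimp _ _) (down_IsOnto _)) ⟨?_, ?_⟩
  · intro z x x'
    refine mem_fimp.2 ?_
    rintro q _ ⟨h1, h2⟩
    refine ⟨q, le_rfl, ?_⟩
    obtain ⟨r, hr, s, ⟨hs1, hs2, i, hs3, hs4⟩, hrs⟩ := h1 q le_rfl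
    obtain ⟨r', hr', s', ⟨hs1', hs2', i', hs3', hs4'⟩, hrs'⟩ := h2 r hr
    have h3 : F s (g z).1 = F s' (g z).1 := by
      ext j
      simp only [F, Finset.mem_filter]
      refine and_congr_left fun hj => ?_
      rw [← RC.filter_eq (hr'.trans hrs) hs1 hs2 j hj, ← RC.filter_eq hrs' hs1' hs2' j hj]
    rw [h3, hs3'] at hs3
    have h4 : i' = i := Option.some.inj hs3
    exact e.injective (hs4.symm.trans (h4 ▸ hs4'))
  · intro x
    refine mem_fex.2 fun q _ => ?_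
    obtain ⟨q1, hq1, _, hb1⟩ := q.promise (h β) 0
    obtain ⟨i, hiβ, hix, hid⟩ := hcol (e x) q1.b q1.m
    obtain ⟨q2, hq2, hi2⟩ := q1.add i hid
    obtain ⟨m, hm⟩ := hh.mono i β hiβ
    obtain ⟨q3, hq3, hm3, hb3⟩ := q2.promise (h β) m
    have h5 : i ∈ F q3 m := Finset.mem_filter.2 ⟨hq3.1 hi2, hm⟩
    have h6 : i ∈ (F q3 m).toList := Finset.mem_toList.2 h5
    obtain ⟨k, hk⟩ := List.mem_iff_getElem?.1 h6
    refine ⟨q3, hq3.trans (hq2.trans hq1), g.symm (m, k), meets_of_mem ⟨hb3, ?_, i, ?_, hix⟩⟩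
    · rw [Equiv.apply_symm_apply]
      exact hm3
    · rw [Equiv.apply_symm_apply]
      exact hk

end

end Pool.Agent.H645
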