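import Mathlib
import Pool.Agent.H645.RForcing

set_option autoImplicit false

/-!
# Products of forcings; the collapse of `κ` to `θ`
-/

namespace Pool.Agent.H645

open Cardinal Set
open Pool.Agent.Helper669.Forcing Pool.Agent.Helper669.K Pool.Agent.Helper669.U
  Pool.Agent.Helper669.V

/-! ### Projections -/

section

variable {P Q : Type} [Preorder P] [Preorder Q]

/-- `π` is a projection from `P` to `Q` -/
structure IsProj (π : P → Q) : Prop where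
  mono : ∀ a b, a ≤ b → π a ≤ π b
  lift : ∀ a q, q ≤ π a → ∃ b ≤ a, π b ≤ q

/-- the `P`-name given by a `Q`-name -/
def up (π : P → Q) (N : Set Q) : Set P := {u | ∃ s ∈ N, π u ≤ s}

variable {π : P → Q}

theorem IsProj.meets_up (hπ : IsProj π) (N : Set Q) (a : P) :
    a ∈ meets (up π N) ↔ π a ∈ meets N := by
  constructor
  · intro h q hq
    obtain ⟨b, hb, hbq⟩ := hπ.lift a q hq
    obtain ⟨r, hr, s, ⟨s', hs', hs2⟩, hrs⟩ := h b hb
    exact ⟨π r, (hπ.mono _ _ hr).trans hbq, s', hs', (hπ.mono _ _ hrs).trans hs2⟩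
  · intro h b hb
    obtain ⟨r, hr, s, hs, hrs⟩ := h (π b) (hπ.mono _ _ hb)
    obtain ⟨c, hc, hcr⟩ := hπ.lift b r hr
    exact ⟨c, hc, c, ⟨s, hs, hcr.trans hrs⟩, le_rfl⟩

theorem IsProj.collapsed (hπ : IsProj π) {μ κ : Cardinal.{0}} (a : P)
    (h : π a ∈ CollapsedTo Q μ κ) : a ∈ CollapsedTo P μ κ := by
  intro ν hν
  refine mem_fex.2 fun a' ha' => ?_
  obtain ⟨q, hq, R, hR1, hR2⟩ := mem_fex.1 (h ν hν) (π a') (hπ.mono _ _ ha')
  obtain ⟨b, hb, hbq⟩ := hπ.lift a' q hq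
  refine ⟨b, hb, fun x y => up π (R x y), fun x y y' => ?_, fun y => ?_⟩
  · refine mem_fimp.2 fun c hc hcc => ⟨c, le_rfl, ?_⟩
    obtain ⟨r, hr, hr'⟩ := mem_fimp.1 (hR1 x y y') (π c) ((hπ.mono _ _ hc).trans hbq)
      ⟨(hπ.meets_up _ _).1 hcc.1, (hπ.meets_up _ _).1 hcc.2⟩
    exact hr'
  · refine mem_fex.2 fun c hc => ?_
    obtain ⟨r, hr, x, hx⟩ := mem_fex.1 (hR2 y) (π c) ((hπ.mono _ _ hc).trans hbq)
    obtain ⟨d, hd, hdr⟩ := hπ.lift c r hr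
    exact ⟨d, hd, x, (hπ.meets_up _ _).2 (down_meets _ _ hx _ hdr)⟩

theorem isProj_fst : IsProj (Prod.fst : P × Q → P) where
  mono _ _ h := h.1
  lift a q h := ⟨(q, a.2), ⟨h, le_rfl⟩, le_rfl⟩

theorem isProj_snd : IsProj (Prod.snd : P × Q → Q) where
  mono _ _ h := h.2
  lift a q h := ⟨(a.1, q), ⟨le_rfl, h⟩, le_rfl⟩

/-- conditions are compatible as soon as they are equal -/
theorem cc_of_card {c : Cardinal.{0}} (hP : #P < c) (ι : Type) (f : ι → P) (hι : c ≤ #ι) :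
    ∃ i j, i ≠ j ∧ ∃ r, r ≤ f i ∧ r ≤ f j := by
  by_contra hcon
  push Not at hcon
  have h1 : Function.Injective f := fun i j hij => by
    by_contra hne
    exact hcon i j hne (f i) le_rfl hij.le
  exact absurd (hι.trans (mk_le_of_injective h1)) (not_le.2 hP)

end

/-! ### The collapse of `κ` to `θ` -/

section

/-- partial functions from `Θ` to `X` of size at most `lam` -/
structure CC (lam : Cardinal.{0}) (Θ X : Type) where
  g : Set (Θ × X)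
  card : #g ≤ lam
  fn : ∀ x y y', (x, y) ∈ g → (x, y') ∈ g → y = y'

variable {lam : Cardinal.{0}} {Θ X : Type}

instance : Preorder (CC lam Θ X) where
  le p' p := p.g ⊆ p'.g
  le_refl _ := subset_rfl
  le_trans _ _ _ h1 h2 := h2.trans h1

theorem CC.dirClosed (hlam : ℵ₀ ≤ lam) : DirClosed (Order.succ lam) (CC lam Θ X) := by
  intro D hD _ hdir
  refine ⟨⟨⋃ p : D, p.1.g, card_iUnion_le hlam _ (Order.lt_succ_iff.1 hD) fun p => p.1.card,
    fun x y y' hy hy' => ?_⟩, fun a ha => ?_⟩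
  · obtain ⟨p, hp⟩ := mem_iUnion.1 hy
    obtain ⟨q, hq⟩ := mem_iUnion.1 hy'
    obtain ⟨r, _, hr1, hr2⟩ := hdir p.1 p.2 q.1 q.2
    exact r.fn x y y' (hr1 hp) (hr2 hq)
  · exact subset_iUnion (fun p : D => p.1.g) ⟨a, ha⟩

/-- adding a value -/
theorem CC.add (hlam : ℵ₀ ≤ lam) (hΘ : lam < #Θ) (p : CC lam Θ X) (y : X) :
    ∃ q ≤ p, ∃ x, (x, y) ∈ q.g := by
  have h1 : ∃ x, ∀ y', (x, y') ∉ p.g := by
    by_contra hcon
    push Not at hcon
    choose F hF using hcon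
    have h2 : #Θ ≤ #p.g := mk_le_of_injective (f := fun x => (⟨(x, F x), hF x⟩ : p.g))
      fun a b hab => congrArg (fun z : p.g => z.1.1) hab
    exact absurd (h2.trans p.card) (not_le.2 hΘ)
  obtain ⟨x, hx⟩ := h1
  refine ⟨⟨insert (x, y) p.g, (mk_insert_le).trans ((add_le_add p.card
    (one_le_aleph0.trans hlam)).trans_eq (add_eq_self hlam)), ?_⟩, subset_insert _ _, x,
    mem_insert _ _⟩
  rintro x' y1 y2 (h1 | h1) (h2 | h2)
  · rw [Prod.mk.injEq] at h1 h2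
    rw [h1.2, h2.2]
  · rw [Prod.mk.injEq] at h1
    rw [h1.1] at h2
    exact absurd h2 (hx _)
  · rw [Prod.mk.injEq] at h2
    rw [h2.1] at h1
    exact absurd h1 (hx _)
  · exact p.fn _ _ _ h1 h2

theorem CC.card_le {κ : Cardinal.{0}} (hκ : κ.IsRegular) (hκ2 : ∀ μ < κ, 2 ^ μ < κ)
    (hlam : lam < κ) (hΘ : #Θ ≤ κ) (hX : #X ≤ κ) : #(CC lam Θ X) ≤ κ := by
  have h1 : #(Θ × X) ≤ κ := by
    rw [mk_prod, lift_id, lift_id]
    exact (mul_le_mul' hΘ hX).trans_eq (mul_eq_self hκ.aleph0_le)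
  refine (mk_le_of_injective (f := fun p : CC lam Θ X =>
    (⟨p.g, p.card.trans_lt hlam⟩ : {A : Set (Θ × X) // #A < κ})) fun p q hpq => ?_).trans
    (card_small_subsets hκ hκ2 h1)
  have h2 : p.g = q.g := congrArg (fun z : {A : Set (Θ × X) // #A < κ} => z.1) hpq
  cases p; cases q
  simp only at h2
  subst h2
  rfl

theorem CC.collapsed (hlam : ℵ₀ ≤ lam) (hΘ : #Θ = Order.succ lam) {κ : Cardinal.{0}}
    (hX : #X = κ) (p : CC lam Θ X) :
    p ∈ CollapsedTo (CC lam Θ X) (Order.succ lam) (Order.succ κ) := by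
  intro ν hν
  have h0 : #ν.out ≤ #X := by
    rw [mk_out, hX]
    exact Order.lt_succ_iff.1 hν
  obtain ⟨e⟩ := h0
  obtain ⟨g⟩ : Nonempty ((Order.succ lam).ord.ToType ≃ Θ) := by
    rw [← Cardinal.eq, mk_ord_toType, hΘ]
  refine mem_fex_of_mem (fun z x => {p : CC lam Θ X | (g z, e x) ∈ p.g})
    (down_fand (down_fall fun _ => down_fall fun _ => down_fall fun _ =>
    down_fimp _ _) (down_IsOnto _)) ⟨?_, ?_⟩
  · intro z x x'
    refine mem_fimp.2 ?_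
    rintro q _ ⟨h1, h2⟩
    refine ⟨q, le_rfl, ?_⟩
    obtain ⟨r, hr, s, hs, hrs⟩ := h1 q le_rfl
    obtain ⟨r', hr', s', hs', hrs'⟩ := h2 r hr
    have h3 : s.g ⊆ r.g := hrs
    have h4 : r.g ⊆ r'.g := hr'
    have h5 : s'.g ⊆ r'.g := hrs'
    exact e.injective (r'.fn _ _ _ (h4 (h3 hs)) (h5 hs'))
  · intro x
    refine mem_fex.2 fun q _ => ?_
    obtain ⟨r, hr, y, hy⟩ := q.add hlam (by rw [hΘ]; exact Order.lt_succ _) (e x)
    refine ⟨r, hr, g.symm y, meets_of_mem ?_⟩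
    show (g (g.symm y), e x) ∈ r.g
    rw [Equiv.apply_symm_apply]
    exact hy

end

/-! ### The product -/

section

open Pool.Agent.Helper669.GBase (Compat)

variable {B T : Type} [Preorder B] [Preorder T] {θ : Cardinal.{0}}

theorem easton_cc (hcc : ∀ (ι : Type) (f : ι → B), θ ≤ #ι → ∃ i j, i ≠ j ∧ ∃ r, r ≤ f i ∧ r ≤ f j)
    (A : Set B) (hA : ∀ a ∈ A, ∀ b ∈ A, Compat a b → a = b) : #A < θ := by
  by_contra hcon
  obtain ⟨i, j, hij, r, h1, h2⟩ := hcc A Subtype.val (not_lt.1 hcon)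
  exact hij (Subtype.ext (hA _ i.2 _ j.2 ⟨r, h1, h2⟩))

theorem easton_closed (hT : DirClosed θ T) (S : Set T) (hS : ∀ s ∈ S, ∀ t ∈ S, s ≤ t ∨ t ≤ s)
    (hc : #S < θ) (hne : S.Nonempty) : ∃ t, ∀ s ∈ S, t ≤ s := by
  refine hT S hc hne ?_
  intro a ha b hb
  rcases hS a ha b hb with h1 | h1
  · exact ⟨a, ha, le_rfl, h1⟩
  · exact ⟨b, hb, h1, le_rfl⟩

/-- the chain condition of the first factor and the closure of the second one keep `θ` regular -/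
theorem staysRegular_prod (hθ : θ.IsRegular)
    (hcc : ∀ (ι : Type) (f : ι → B), θ ≤ #ι → ∃ i j, i ≠ j ∧ ∃ r, r ≤ f i ∧ r ≤ f j)
    (hT : DirClosed θ T) (p : B × T) : p ∈ StaysRegular (B × T) θ := by
  classical
  intro ν hν R
  refine mem_fimp.2 fun q _ hR => ?_
  obtain ⟨t', ht', hD⟩ := easton' hθ (easton_cc hcc) (easton_closed hT) (Λ := ν.out)
    (by rw [mk_out]; exact hν)
    (fun x b t => (∃ y, (b, t) ∈ meets (R x y)) ∨ ∀ u ≤ (b, t), ¬ u ≤ q)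
    (by
      rintro x b t (⟨y, hy⟩ | h1) b' hb' t' ht'
      · exact Or.inl ⟨y, down_meets _ _ hy _ ⟨hb', ht'⟩⟩
      · exact Or.inr fun u hu => h1 u (hu.trans ⟨hb', ht'⟩))
    (by
      intro x b t
      by_cases h1 : ∀ u ≤ (b, t), ¬ u ≤ q
      · exact ⟨b, le_rfl, t, le_rfl, Or.inr h1⟩
      · push Not at h1
        obtain ⟨u, hu, huq⟩ := h1
        obtain ⟨v, hv, y, hy⟩ := IsFun.total (down_IsFun R _ hR _ huq) x
        exact ⟨v.1, (hv.trans hu).1, v.2, (hv.trans hu).2, Or.inl ⟨y, hy⟩⟩) q.2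
  have hqt : (q.1, t') ≤ q := ⟨le_rfl, ht'⟩
  have hfew : ∀ x : ν.out, #{y : θ.ord.ToType | ∃ b ≤ q.1, (b, t') ∈ meets (R x y)} < θ := by
    intro x
    by_contra hcon
    push Not at hcon
    choose f hf1 hf2 using fun y : {y : θ.ord.ToType | ∃ b ≤ q.1, (b, t') ∈ meets (R x y)} => y.2
    obtain ⟨i, j, hij, r, hri, hrj⟩ := hcc _ f hcon
    apply hij
    have hr' : (r, t') ∈ IsFun R := down_IsFun R _ hR _ ⟨hri.trans (hf1 i), ht'⟩
    exact Subtype.ext (IsFun.unique hr' (down_meets _ _ (hf2 i) _ ⟨hri, le_rfl⟩)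
      (down_meets _ _ (hf2 j) _ ⟨hrj, le_rfl⟩))
  obtain ⟨β, hβ⟩ := toType_bdd hθ (⋃ x : ν.out, {y : θ.ord.ToType | ∃ b ≤ q.1,
    (b, t') ∈ meets (R x y)}) ((card_iUnion_lt_iff_forall_of_isRegular hθ
      (by rw [mk_out]; exact hν)).2 hfew)
  refine ⟨(q.1, t'), hqt, mem_fex_of_mem β (down_fall fun _ => down_fall fun _ => down_fimp _ _)
    fun x y => mem_fimp.2 fun s hs hsy => ⟨s, le_rfl, ?_⟩⟩
  obtain ⟨b', hb', hD'⟩ := hD x s.1
  have hle : (b', s.2) ≤ s := ⟨hb', le_rfl⟩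
  have hle2 : (b', s.2) ≤ (b', t') := ⟨le_rfl, hs.2⟩
  rcases hD' with ⟨y', hy'⟩ | h1
  · have h2 : y = y' := IsFun.unique (down_IsFun R _ hR _ ((hle.trans hs).trans hqt))
      (down_meets _ _ hsy _ hle) (down_meets _ _ hy' _ hle2)
    exact hβ y (mem_iUnion.2 ⟨x, b', hb'.trans hs.1, h2 ▸ hy'⟩)
  · exact absurd ((hle.trans hs).trans hqt) (h1 _ hle2)

/-- names for subsets of small sets come from the first factor -/
theorem reduce_prod (hθ : θ.IsRegular)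
    (hcc : ∀ (ι : Type) (f : ι → B), θ ≤ #ι → ∃ i j, i ≠ j ∧ ∃ r, r ≤ f i ∧ r ≤ f j)
    (hT : DirClosed θ T) {M : Type} (hM : #M < θ) (X : M → Set (B × T)) (q : B × T) :
    ∃ q' ≤ q, ∃ Y : M → Set B, q' ∈ fand (Sub (fun i => up Prod.fst (Y i)) X)
      (Sub X (fun i => up Prod.fst (Y i))) := by
  obtain ⟨t', ht', hD⟩ := easton' hθ (easton_cc hcc) (easton_closed hT) (Λ := M) hM
    (fun x b t => (b, t) ∈ meets (X x) ∨ (b, t) ∈ fnot (meets (X x)))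
    (by
      rintro x b t (h1 | h1) b' hb' t' ht'
      · exact Or.inl (down_meets _ _ h1 _ ⟨hb', ht'⟩)
      · exact Or.inr (down_fnot _ _ h1 _ ⟨hb', ht'⟩))
    (by
      intro x b t
      by_cases h1 : (b, t) ∈ fnot (meets (X x))
      · exact ⟨b, le_rfl, t, le_rfl, Or.inr h1⟩
      · have h2 : ∃ s ≤ (b, t), s ∈ meets (X x) := by
          by_contra hcon
          push Not at hcon
          exact h1 hcon
        obtain ⟨s, hs, hs'⟩ := h2
        exact ⟨s.1, hs.1, s.2, hs.2, Or.inl hs'⟩) q.2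
  refine ⟨(q.1, t'), ⟨le_rfl, ht'⟩, fun x => {b | (b, t') ∈ meets (X x)}, fun x => ?_,
    fun x => ?_⟩
  · refine mem_fimp.2 fun s hs hsm => ?_
    have h1 := (isProj_fst.meets_up _ _).1 hsm
    obtain ⟨b, hb, b2, hb2, hbb⟩ := h1 s.1 le_rfl
    exact ⟨(b, s.2), ⟨hb, le_rfl⟩, down_meets _ _ hb2 _ ⟨hbb, hs.2⟩⟩
  · refine mem_fimp.2 fun s hs hsm => ?_
    obtain ⟨b, hb, hb'⟩ := hD x s.1
    have hle : (b, s.2) ≤ s := ⟨hb, le_rfl⟩
    have hle2 : (b, s.2) ≤ (b, t') := ⟨le_rfl, hs.2⟩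
    refine ⟨(b, s.2), hle, (isProj_fst.meets_up _ _).2 ?_⟩
    rcases hb' with h3 | h3
    · exact meets_of_mem h3
    · exact absurd (down_meets _ _ hsm _ hle) (h3 _ hle2)

theorem powOnto_prod (hθ : θ.IsRegular)
    (hcc : ∀ (ι : Type) (f : ι → B), θ ≤ #ι → ∃ i j, i ≠ j ∧ ∃ r, r ≤ f i ∧ r ≤ f j)
    (hT : DirClosed θ T) {ν μ : Cardinal.{0}} (hν : ν < θ)
    (F : μ.ord.ToType → ν.ord.ToType → Set B)
    (hF : ∀ X : ν.ord.ToType → Set B, ∃ i, ∀ q, q ∈ fand (Sub (F i) X) (Sub X (F i)))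
    (r : B × T) : r ∈ PowOnto (B × T) ν μ := by
  refine mem_fex.2 fun r0 _ => ⟨r0, le_rfl, fun i x => up Prod.fst (F i x), ?_⟩
  intro X
  refine mem_fex.2 fun r1 _ => ?_
  obtain ⟨r2, hr2, Y, hY⟩ := reduce_prod hθ hcc hT (by rw [mk_ord_toType]; exact hν) X r1
  obtain ⟨i, hi⟩ := hF Y
  refine ⟨r2, hr2, i, ?_, ?_⟩
  · intro y
    refine mem_fimp.2 fun s hs hsm => ?_
    have h1 : s.1 ∈ meets (F i y) := (isProj_fst.meets_up _ _).1 hsm
    obtain ⟨b, hb, hbm⟩ := mem_fimp.1 ((hi s.1).1 y) s.1 le_rfl h1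
    have hle : (b, s.2) ≤ s := ⟨hb, le_rfl⟩
    obtain ⟨t, ht, htm⟩ := mem_fimp.1 (hY.1 y) _ (hle.trans hs)
      ((isProj_fst.meets_up _ (b, s.2)).2 hbm)
    exact ⟨t, ht.trans hle, htm⟩
  · intro y
    refine mem_fimp.2 fun s hs hsm => ?_
    obtain ⟨t, ht, htm⟩ := mem_fimp.1 (hY.2 y) s hs hsm
    have h1 : t.1 ∈ meets (Y y) := (isProj_fst.meets_up _ _).1 htm
    obtain ⟨b, hb, hbm⟩ := mem_fimp.1 ((hi t.1).2 y) t.1 le_rfl h1
    have hle : (b, t.2) ≤ t := ⟨hb, le_rfl⟩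
    exact ⟨(b, t.2), hle.trans ht, (isProj_fst.meets_up _ (b, t.2)).2 hbm⟩

end

end Pool.Agent.H645
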