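import Mathlib
import Pool.Agent.H645.Product
import Pool.Agent.H645.PC
import Pool.Agent.H645.Diamond

set_option autoImplicit false

/-!
# Families of almost disjoint sets of a given size without an `ℵ₁`-transversal
-/

namespace Pool.Agent.H645.NG

open Cardinal Set Pool.Agent.H645.N
open Pool.Agent.Helper669.Forcing Pool.Agent.Helper669.K Pool.Agent.Helper669.U
  Pool.Agent.Helper669.V
open Pool.Agent.H645 (nCap meets_nCap of_meets_fground IsFin isFin_of isFin_comm RC DD
  exists_forall_fin IsCore not_meets_empty Stat IsSuccType IsScale)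

/-- the points -/
inductive Pt (K Q I : Type) : Type
  | pair (a : K) (b : Q) : Pt K Q I
  | pad (a : K) (b : Q) : Pt K Q I
  | fpad (n : ℕ) (b : Q) : Pt K Q I
  | fin (n : ℕ) : Pt K Q I
  | ipad (i : I) (b : Q) : Pt K Q I

/-- the indices -/
inductive Ix (K I : Type) : Type
  | line (a : K) : Ix K I
  | cross (d : K) : Ix K I
  | num (n : ℕ) : Ix K I
  | idx (i : I) : Ix K I

section

variable {P : Type} [Preorder P] {K Q : Type} [LinearOrder Q]

/-- `γ` is the least element of `{γ | (α, γ) ∈ T}` -/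
def MinT (T : K → Q → Set P) (α : K) (γ : Q) : Set P :=
  fand (meets (T α γ)) (fall fun γ' => fall fun _ : γ' < γ => fnot (meets (T α γ')))

theorem down_MinT (T : K → Q → Set P) (α : K) (γ : Q) : Down (MinT T α γ) :=
  down_fand (down_meets _) (down_fall fun _ => down_fall fun _ => down_fnot _)

theorem MinT_unique {T : K → Q → Set P} {α : K} {γ γ' : Q} {p : P} (h : p ∈ MinT T α γ)
    (h' : p ∈ MinT T α γ') : γ = γ' := by
  rcases lt_trichotomy γ γ' with h1 | h1 | h1
  · exact absurd h.1 (h'.2 γ h1 p le_rfl)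
  · exact h1
  · exact absurd h'.1 (h.2 γ' h1 p le_rfl)

/-- if some `γ` is in the section, then there is a least one -/
theorem exists_MinT [WellFoundedLT Q] {T : K → Q → Set P} {α : K} {γ : Q} {p : P}
    (h : ∃ q ≤ p, q ∈ meets (T α γ)) : ∃ q ≤ p, ∃ γ' ≤ γ, q ∈ MinT T α γ' := by
  obtain ⟨γ', ⟨q, hq, hqm⟩, hmin⟩ := (wellFounded_lt (α := Q)).has_min
    {γ | ∃ q ≤ p, q ∈ meets (T α γ)} ⟨γ, h⟩
  refine ⟨q, hq, γ', not_lt.1 fun hlt => hmin γ h hlt, hqm, fun γ2 hγ2 r hr hrm => ?_⟩
  exact hmin γ2 ⟨r, hr.trans hq, hrm⟩ hγ2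

/-- finite directed sets have lower bounds -/
theorem dirClosed_aleph0 (P : Type) [Preorder P] : DirClosed ℵ₀ P := by
  classical
  intro D hD hne hdir
  have hf : D.Finite := lt_aleph0_iff_set_finite.1 hD
  obtain ⟨d0, hd0⟩ := hne
  have key : ∀ F : Finset P, (∀ a ∈ F, a ∈ D) → ∃ q ∈ D, ∀ a ∈ F, q ≤ a := by
    intro F
    induction F using Finset.induction_on with
    | empty => exact fun _ => ⟨d0, hd0, fun a ha => absurd ha (Finset.notMem_empty a)⟩
    | insert a s _ ih =>
      intro h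
      obtain ⟨q, hq, hqs⟩ := ih fun b hb => h b (Finset.mem_insert_of_mem hb)
      obtain ⟨c, hc, hca, hcq⟩ := hdir a (h a (Finset.mem_insert_self _ _)) q hq
      refine ⟨c, hc, fun b hb => ?_⟩
      rcases Finset.mem_insert.1 hb with rfl | hb
      · exact hca
      · exact hcq.trans (hqs b hb)
  obtain ⟨q, _, hq⟩ := key hf.toFinset fun a ha => hf.mem_toFinset.1 ha
  exact ⟨q, fun a ha => hq a (hf.mem_toFinset.2 ha)⟩

theorem cardLt_of_isFin {U : Type} {A : U → Set P} {p : P} (h : p ∈ IsFin A) :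
    p ∈ CardLt ℵ₀ A := by
  refine mem_fex.2 fun q hq => ?_
  obtain ⟨r, hr, F, hF⟩ := mem_fex.1 h q hq
  refine ⟨r, hr, #F, ?_, cardLe_of_sub (B := (F : Set U)) le_rfl fun u s hs hu => ?_⟩
  · show #F < ℵ₀
    exact F.finite_toSet.lt_aleph0
  · obtain ⟨t, _, ht⟩ := mem_fimp.1 (hF u) s hs hu
    exact ht

/-- a partial function from a small set into a cardinal which stays regular is bounded -/
theorem bounded_of_cover {μ : Cardinal.{0}} (hreg : ∀ p : P, p ∈ StaysRegular P μ)
    {ν : Cardinal.{0}} (hν : ν < μ) {U : Type} {R : ν.out → U → Set P} {q : P}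
    (hR : q ∈ (fall fun x => fall fun y => fall fun y' =>
      fimp (fand (meets (R x y)) (meets (R x y'))) (fground (y = y')) : Set P))
    (φ : U → μ.ord.ToType) :
    ∃ r ≤ q, ∃ b, ∀ x u, ∀ s ≤ r, s ∈ meets (R x u) → φ u < b := by
  classical
  have hne : Nonempty μ.ord.ToType := by
    rw [← mk_ne_zero_iff, mk_ord_toType]
    exact (zero_le.trans_lt hν).ne'
  obtain ⟨b0⟩ := hne
  let R2 : ν.out → μ.ord.ToType → Set P := fun x β =>
    {p : P | (∃ u, φ u = β ∧ p ∈ meets (R x u)) ∨ (β = b0 ∧ ∀ u, p ∈ fnot (meets (R x u)))}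
  have hdown : ∀ x β, Down (R2 x β) := by
    rintro x β p (⟨u, hu, hp⟩ | ⟨hβ, hp⟩) p' hp'
    · exact Or.inl ⟨u, hu, down_meets _ _ hp _ hp'⟩
    · exact Or.inr ⟨hβ, fun u => down_fnot _ _ (hp u) _ hp'⟩
  have h1 : q ∈ IsFun R2 := by
    refine ⟨fun x => mem_fex.2 fun q' hq' => ?_, fun x β β' => mem_fimp.2 ?_⟩
    · by_cases h : ∃ s ≤ q', ∃ u, s ∈ meets (R x u)
      · obtain ⟨s, hs, u, hu⟩ := h
        exact ⟨s, hs, φ u, meets_of_mem (Or.inl ⟨u, rfl, hu⟩)⟩
      · exact ⟨q', le_rfl, b0, meets_of_mem (Or.inr ⟨rfl, fun u s hs hsu => h ⟨s, hs, u, hsu⟩⟩)⟩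
    · rintro q' hq' ⟨h1, h2⟩
      refine ⟨q', le_rfl, ?_⟩
      obtain ⟨r, hr, h3⟩ := exists_of_meets (hdown x β) h1
      obtain ⟨r', hr', h4⟩ := exists_of_meets (hdown x β') (down_meets _ _ h2 _ hr)
      have h3' := hdown x β r h3 r' hr'
      show β = β'
      rcases h3' with ⟨u, hu, hsu⟩ | ⟨hβ, hs⟩
      · rcases h4 with ⟨u', hu', hsu'⟩ | ⟨hβ', hs'⟩
        · obtain ⟨t, _, ht⟩ := mem_fimp.1 (hR x u u') r' (hr'.trans (hr.trans hq')) ⟨hsu, hsu'⟩
          have h5 : u = u' := ht
          rw [← hu, ← hu', h5]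
        · exact absurd hsu (hs' u r' le_rfl)
      · rcases h4 with ⟨u', hu', hsu'⟩ | ⟨hβ', hs'⟩
        · exact absurd hsu' (hs u' r' le_rfl)
        · rw [hβ, hβ']
  obtain ⟨r, hr, hr'⟩ := mem_fimp.1 (hreg q ν hν _) q le_rfl h1
  obtain ⟨r2, hr2, b, hb⟩ := mem_fex.1 hr' r le_rfl
  refine ⟨r2, hr2.trans hr, b, fun x u s hs hsm => ?_⟩
  obtain ⟨t, _, ht⟩ := mem_fimp.1 (hb x (φ u)) s hs (meets_of_mem (Or.inl ⟨u, rfl, hsm⟩))
  exact ht

end

section

variable {K Q I Θ T : Type} [LinearOrder K] [LinearOrder Q] [LinearOrder Θ] {V : ℕ → Type}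
  [∀ n, LinearOrder (V n)] {h : Θ → ∀ n, V n} [Preorder T]

/-- the name guessed by the diamond sequence -/
def Tg {P : Type} (code : K × Q × P → K) (G : K → Set K) (δ α : K) (γ : Q) : Set P :=
  {p | code (α, γ, p) < δ ∧ code (α, γ, p) ∈ G δ}

/-- the part of the set with index `δ` which meets the lines -/
def Bn (S : Set K) (y : K → Θ → K) (code : K × Q × (RC h × T) → K) (G : K → Set K)
    (δ α : K) (γ : Q) : Set (RC h × T) :=
  {p | δ ∈ S ∧ (∃ i ∈ p.1.s, y δ i = α) ∧ p ∈ MinT (Tg code G δ) α γ}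

/-- the family -/
def Fam (S : Set K) (y : K → Θ → K) (code : K × Q × (RC h × T) → K) (G : K → Set K) :
    Ix K I → Pt K Q I → Set (RC h × T)
  | .line a, .pair a' _ => fground (a' = a)
  | .cross d, .pair a c => Bn S y code G d a c
  | .cross d, .pad d' _ => fground (d' = d)
  | .num n, .fpad n' _ => fground (n' = n)
  | .num n, .fin m => fground (m < n)
  | .idx i, .ipad i' _ => fground (i' = i)
  | _, _ => ∅

variable {S : Set K} {y : K → Θ → K} {code : K × Q × (RC h × T) → K} {G : K → Set K}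

theorem down_Bn (δ α : K) (γ : Q) : Down (Bn S y code G δ α γ) := by
  rintro p ⟨h1, ⟨i, hi, hiy⟩, h3⟩ q hq
  exact ⟨h1, ⟨i, hq.1.1 hi, hiy⟩, down_MinT _ _ _ _ h3 _ hq⟩

theorem Bn_of_meets {δ α : K} {γ : Q} {p : RC h × T} (hp : p ∈ meets (Bn S y code G δ α γ)) :
    ∃ q ≤ p, q ∈ Bn S y code G δ α γ := exists_of_meets (down_Bn _ _ _) hp

/-- the elements of the family are almost disjoint -/
theorem fam_line_line {a a' : K} (haa : a ≠ a') (p : RC h × T) :
    p ∈ IsFin (nCap (Fam (I := I) S y code G (.line a)) (Fam S y code G (.line a'))) := by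
  refine isFin_of fun q _ => ⟨q, le_rfl, ∅, fun u s _ hs => ?_⟩
  rw [meets_nCap] at hs
  cases u with
  | pair c d => exact absurd ((of_meets_fground hs.1).symm.trans (of_meets_fground hs.2)) haa
  | _ => exact absurd hs.1 not_meets_empty

theorem fam_line_cross {a d : K} (p : RC h × T) :
    p ∈ IsFin (nCap (Fam (I := I) S y code G (.line a)) (Fam S y code G (.cross d))) := by
  classical
  refine isFin_of fun q _ => ?_
  by_cases h1 : ∃ r ≤ q, ∃ c, r ∈ Bn S y code G d a c
  · obtain ⟨r, hr, c, hc⟩ := h1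
    refine ⟨r, hr, {.pair a c}, fun u s hsr hs => ?_⟩
    rw [meets_nCap] at hs
    cases u with
    | pair c1 c2 =>
      have h2 : c1 = a := of_meets_fground hs.1
      obtain ⟨t, ht, htB⟩ := Bn_of_meets (show s ∈ meets (Bn S y code G d c1 c2) from hs.2)
      have h3 : c2 = c := by
        have h4 := htB.2.2
        rw [h2] at h4
        exact MinT_unique h4 (down_MinT _ _ _ _ hc.2.2 _ (ht.trans hsr))
      rw [h2, h3]
      exact Finset.mem_singleton_self _
    | _ => exact absurd hs.1 not_meets_empty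
  · refine ⟨q, le_rfl, ∅, fun u s hsr hs => ?_⟩
    rw [meets_nCap] at hs
    cases u with
    | pair c1 c2 =>
      have h2 : c1 = a := of_meets_fground hs.1
      obtain ⟨t, ht, htB⟩ := Bn_of_meets (show s ∈ meets (Bn S y code G d c1 c2) from hs.2)
      rw [h2] at htB
      exact absurd ⟨t, ht.trans hsr, c2, htB⟩ h1
    | _ => exact absurd hs.1 not_meets_empty

theorem fam_line_num {a : K} {n : ℕ} (p : RC h × T) :
    p ∈ IsFin (nCap (Fam (I := I) S y code G (.line a)) (Fam S y code G (.num n))) := by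
  refine isFin_of fun q _ => ⟨q, le_rfl, ∅, fun u s _ hs => ?_⟩
  rw [meets_nCap] at hs
  cases u with
  | pair c d => exact absurd hs.2 not_meets_empty
  | _ => exact absurd hs.1 not_meets_empty

theorem fam_cross_num {d : K} {n : ℕ} (p : RC h × T) :
    p ∈ IsFin (nCap (Fam (I := I) S y code G (.cross d)) (Fam S y code G (.num n))) := by
  refine isFin_of fun q _ => ⟨q, le_rfl, ∅, fun u s _ hs => ?_⟩
  rw [meets_nCap] at hs
  cases u with
  | pair c d => exact absurd hs.2 not_meets_empty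
  | pad _ _ => exact absurd hs.2 not_meets_empty
  | _ => exact absurd hs.1 not_meets_empty

theorem fam_num_num {m n : ℕ} (hmn : m ≠ n) (p : RC h × T) :
    p ∈ IsFin (nCap (Fam (I := I) S y code G (.num m)) (Fam S y code G (.num n))) := by
  classical
  refine isFin_of fun q _ => ⟨q, le_rfl, (Finset.range m).image Pt.fin, fun u s _ hs => ?_⟩
  rw [meets_nCap] at hs
  cases u with
  | fpad c d => exact absurd ((of_meets_fground hs.1).symm.trans (of_meets_fground hs.2)) hmn
  | fin k =>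
    exact Finset.mem_image.2 ⟨k, Finset.mem_range.2 (of_meets_fground hs.1), rfl⟩
  | _ => exact absurd hs.1 not_meets_empty

theorem fam_idx {i : I} {j : Ix K I} (hj : Ix.idx i ≠ j) (p : RC h × T) :
    p ∈ IsFin (nCap (Fam S y code G (.idx i)) (Fam S y code G j)) := by
  refine isFin_of fun q _ => ⟨q, le_rfl, ∅, fun u s _ hs => ?_⟩
  rw [meets_nCap] at hs
  cases u with
  | ipad i' b =>
    have h1 : i' = i := of_meets_fground hs.1
    cases j with
    | idx j' =>
      have h2 : i' = j' := of_meets_fground hs.2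
      exact absurd (by rw [← h1, h2]) hj
    | _ => exact absurd hs.2 not_meets_empty
  | _ => exact absurd hs.1 not_meets_empty

theorem fam_cross_cross (hcore : IsCore h S y) {d d' : K} (hdd : d ≠ d')
    (p : RC h × T) :
    p ∈ IsFin (nCap (Fam (I := I) S y code G (.cross d)) (Fam S y code G (.cross d'))) := by
  classical
  refine isFin_of fun q _ => ?_
  by_cases hS : d ∈ S ∧ d' ∈ S
  · obtain ⟨hd, hd'⟩ := hS
    obtain ⟨b, m, hb⟩ := hcore.sep d hd d' hd' hdd
    obtain ⟨q1, hq1, hm1, hb1⟩ := q.1.promise b m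
    have hle1 : (q1, q.2) ≤ q := ⟨hq1, le_rfl⟩
    -- decide the points on finitely many lines
    obtain ⟨r, hr, hF⟩ := exists_forall_fin (P := RC h × T) q1.s
      (fun i => {r | ∃ F : Finset (Pt K Q I), ∀ c, ∀ s ≤ r, s ∈ Bn S y code G d (y d i) c →
        Pt.pair (y d i) c ∈ F})
      (by
        rintro i r ⟨F, hF⟩ r' hr'
        exact ⟨F, fun c s hs => hF c s (hs.trans hr')⟩)
      (by
        intro i _ r
        by_cases h1 : ∃ s ≤ r, ∃ c, s ∈ Bn S y code G d (y d i) c
        · obtain ⟨s, hs, c, hc⟩ := h1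
          refine ⟨s, hs, {.pair (y d i) c}, fun c' t ht htB => ?_⟩
          rw [MinT_unique htB.2.2 (down_MinT _ _ _ _ hc.2.2 _ ht)]
          exact Finset.mem_singleton_self _
        · refine ⟨r, le_rfl, ∅, fun c s hs hsB => absurd ⟨s, hs, c, hsB⟩ h1⟩) (q1, q.2)
    choose! F hF using hF
    refine ⟨r, hr.trans hle1, q1.s.biUnion F, fun u s hsr hs => ?_⟩
    rw [meets_nCap] at hs
    cases u with
    | pair c1 c2 =>
      obtain ⟨t, ht, htB⟩ := Bn_of_meets (show s ∈ meets (Bn S y code G d c1 c2) from hs.1)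
      have h2 : t ∈ meets (Bn S y code G d' c1 c2) := down_meets _ _ hs.2 _ ht
      obtain ⟨t', ht', htB'⟩ := Bn_of_meets h2
      obtain ⟨_, ⟨i, hi, hiy⟩, h3⟩ := htB
      obtain ⟨_, ⟨i', hi', hiy'⟩, h3'⟩ := htB'
      have h4 : i = i' := hcore.inj d hd d' hd' i i' (hiy.trans hiy'.symm)
      have h5 : i ∈ DD h b m := hb i (by rw [hiy, h4, hiy'])
      have hle : t.1 ≤ q1 := ((ht.trans hsr).trans hr).1
      have h6 : i ∈ q1.s := (RC.filter_eq hle hb1 hm1 i h5).1 hi
      refine Finset.mem_biUnion.2 ⟨i, h6, ?_⟩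
      rw [← hiy]
      rw [← hiy] at h3
      exact hF i h6 c2 t (ht.trans hsr) ⟨hd, ⟨i, hi, rfl⟩, h3⟩
    | pad c1 c2 => exact absurd ((of_meets_fground hs.1).symm.trans (of_meets_fground hs.2)) hdd
    | _ => exact absurd hs.1 not_meets_empty
  · refine ⟨q, le_rfl, ∅, fun u s hsr hs => ?_⟩
    rw [meets_nCap] at hs
    cases u with
    | pair c1 c2 =>
      obtain ⟨t, ht, htB⟩ := Bn_of_meets (show s ∈ meets (Bn S y code G d c1 c2) from hs.1)
      obtain ⟨t', ht', htB'⟩ := Bn_of_meets (show s ∈ meets (Bn S y code G d' c1 c2) from hs.2)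
      exact absurd ⟨htB.1, htB'.1⟩ hS
    | pad c1 c2 => exact absurd ((of_meets_fground hs.1).symm.trans (of_meets_fground hs.2)) hdd
    | _ => exact absurd hs.1 not_meets_empty

theorem fam_isFin (hcore : IsCore h S y) {i j : Ix K I} (hij : i ≠ j) (p : RC h × T) :
    p ∈ IsFin (nCap (Fam S y code G i) (Fam S y code G j)) := by
  cases i with
  | line a =>
    cases j with
    | line a' => exact fam_line_line (fun h => hij (by rw [h])) p
    | cross d => exact fam_line_cross p
    | num n => exact fam_line_num p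
    | idx i => exact isFin_comm (fam_idx hij.symm p)
  | cross d =>
    cases j with
    | line a' => exact isFin_comm (fam_line_cross p)
    | cross d' => exact fam_cross_cross hcore (fun h => hij (by rw [h])) p
    | num n => exact fam_cross_num p
    | idx i => exact isFin_comm (fam_idx hij.symm p)
  | num n =>
    cases j with
    | line a' => exact isFin_comm (fam_line_num p)
    | cross d' => exact isFin_comm (fam_cross_num p)
    | num n' => exact fam_num_num (fun h => hij (by rw [h])) p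
    | idx i => exact isFin_comm (fam_idx hij.symm p)
  | idx i => exact fam_idx hij p

end

end Pool.Agent.H645.NG
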