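import Mathlib
import Pool.Agent.H645.FamG

set_option autoImplicit false

/-!
# The sizes of the sets, and the absence of transversals
-/

namespace Pool.Agent.H645.NG

open Cardinal Set Pool.Agent.H645.N
open Pool.Agent.Helper669.Forcing Pool.Agent.Helper669.K Pool.Agent.Helper669.U
  Pool.Agent.Helper669.V
open Pool.Agent.H645 (nCap meets_nCap of_meets_fground IsFin isFin_of isFin_comm RC DD
  exists_forall_fin IsCore not_meets_empty Stat IsSuccType IsScale)

section

variable {P : Type} [Preorder P]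

/-- The cardinal `κ` is still a cardinal in the extension. -/
def IsCard (P : Type) [Preorder P] (κ : Cardinal.{0}) : Set P :=
  fall fun ν : Cardinal.{0} => fall fun _ : ν < κ =>
    fnot (CardLe ν fun _ : κ.ord.ToType => fground True)

/-- The degree of disjunction of the family `A` is at least `lam`. -/
def DegGe {J U : Type} (lam : Cardinal.{0}) (A : J → U → Set P) : Set P :=
  fall fun ν : Cardinal.{0} => fall fun _ : ν < lam => fex fun i => fex fun j =>
    fand (fground (i ≠ j)) (fnot (CardLt ν (nCap (A i) (A j))))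

/-- There is a family of `ι` sets of cardinality `κ` with degree of disjunction `lam` which has no
`lam⁺`-transversal. -/
def NotGood (P : Type) [Preorder P] (ι κ lam : Cardinal.{0}) : Set P :=
  fex fun A : ι.ord.ToType → ι.ord.ToType → Set P => fand (IsAD κ lam A) (fand (DegGe lam A)
    (fnot (fex fun T : ι.ord.ToType → Set P => IsTrans lam A T)))

variable {U U' J J' : Type} {lam κ ν : Cardinal.{0}}

theorem cardLe_pull {X : Type} (e : X → U) (he : Function.Injective e) {A : U → Set P}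
    {B : X → Set P} {p : P} (hB : ∀ x, ∀ q ≤ p, q ∈ meets (B x) → q ∈ meets (A (e x)))
    (h : p ∈ CardLe ν A) : p ∈ CardLe ν B := by
  refine mem_fex.2 fun q hq => ?_
  obtain ⟨r, hr, R, hR1, hR2⟩ := mem_fex.1 h q hq
  refine ⟨r, hr, fun x z => R x (e z), fun x y y' => ?_, fun z => ?_⟩
  · refine mem_fimp.2 fun s hs hss => ?_
    obtain ⟨t, ht, ht'⟩ := mem_fimp.1 (hR1 x (e y) (e y')) s hs hss
    exact ⟨t, ht, he ht'⟩
  · refine mem_fimp.2 fun s hs hsz => ?_
    exact mem_fimp.1 (hR2 (e z)) s hs (hB z s ((hs.trans hr).trans hq) hsz)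

theorem cardLe_equiv (e : U' ≃ U) {A : U → Set P} {p : P} :
    (p ∈ CardLe ν fun u => A (e u)) ↔ p ∈ CardLe ν A := by
  constructor
  · intro h
    refine cardLe_pull e.symm e.symm.injective (fun x q _ hx => ?_) h
    show q ∈ meets (A (e (e.symm x)))
    rw [Equiv.apply_symm_apply]
    exact hx
  · intro h
    exact cardLe_pull e e.injective (fun x q _ hx => hx) h

theorem cardLt_equiv (e : U' ≃ U) {A : U → Set P} {p : P} :
    (p ∈ CardLt ν fun u => A (e u)) ↔ p ∈ CardLt ν A := by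
  constructor
  · intro h
    refine mem_fex.2 fun q hq => ?_
    obtain ⟨r, hr, μ, h1, h2⟩ := mem_fex.1 h q hq
    exact ⟨r, hr, μ, h1, (cardLe_equiv e).1 h2⟩
  · intro h
    refine mem_fex.2 fun q hq => ?_
    obtain ⟨r, hr, μ, h1, h2⟩ := mem_fex.1 h q hq
    exact ⟨r, hr, μ, h1, (cardLe_equiv e).2 h2⟩

theorem isAD_equiv (f : J' ≃ J) (e : U' ≃ U) {A : J → U → Set P} {p : P}
    (h : p ∈ IsAD κ lam A) : p ∈ IsAD κ lam fun j u => A (f j) (e u) := by
  refine ⟨fun j => ⟨(cardLe_equiv e).2 (h.1 (f j)).1, fun q hq hq' => ?_⟩, fun i j hij => ?_⟩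
  · exact (h.1 (f j)).2 q hq ((cardLt_equiv e).1 hq')
  · have h1 := h.2 (f i) (f j) fun h' => hij (f.injective h')
    exact (cardLt_equiv e (A := nCap (A (f i)) (A (f j)))).2 h1

theorem degGe_equiv (f : J' ≃ J) (e : U' ≃ U) {A : J → U → Set P} {p : P}
    (h : p ∈ DegGe lam A) : p ∈ DegGe lam fun j u => A (f j) (e u) := by
  intro ν hν
  refine mem_fex.2 fun q hq => ?_
  obtain ⟨r, hr, i, hi⟩ := mem_fex.1 (h ν hν) q hq
  obtain ⟨r', hr', j, hj1, hj2⟩ := mem_fex.1 hi r le_rfl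
  refine ⟨r', hr'.trans hr, f.symm i, mem_fex_of_mem (f.symm j) (down_fand (down_fground _)
    (down_fnot _)) ⟨fun h => hj1 (f.symm.injective h), fun s hs hs' => hj2 s hs ?_⟩⟩
  have h2 : (nCap (fun u => A (f (f.symm i)) (e u)) fun u => A (f (f.symm j)) (e u)) =
      fun u => nCap (A i) (A j) (e u) := by
    funext u
    simp only [nCap, Equiv.apply_symm_apply]
  rw [h2] at hs'
  exact (cardLt_equiv e).1 hs'

theorem isTrans_equiv (f : J' ≃ J) (e : U' ≃ U) {A : J → U → Set P} {T : U' → Set P} {p : P}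
    (h : p ∈ IsTrans lam (fun j u => A (f j) (e u)) T) :
    p ∈ IsTrans lam A fun u => T (e.symm u) := by
  intro j
  have h1 := h (f.symm j)
  have h2 : (nCap T fun u => A (f (f.symm j)) (e u)) =
      fun u => nCap (fun u => T (e.symm u)) (A j) (e u) := by
    funext u
    simp only [nCap, Equiv.apply_symm_apply, Equiv.symm_apply_apply]
  have h3 : p ∈ fand (fex fun u => nCap T (fun u => A (f (f.symm j)) (e u)) u)
      (CardLe lam (nCap T fun u => A (f (f.symm j)) (e u))) := h1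
  rw [h2] at h3
  refine ⟨mem_fex.2 fun q hq => ?_, (cardLe_equiv e).1 h3.2⟩
  obtain ⟨r, hr, u, hu⟩ := mem_fex.1 h3.1 q hq
  exact ⟨r, hr, e u, hu⟩

theorem notGood_of {ι : Cardinal.{0}} (f : ι.ord.ToType ≃ J) (e : ι.ord.ToType ≃ U)
    {A : J → U → Set P} {p : P} (h1 : p ∈ IsAD κ lam A) (h2 : p ∈ DegGe lam A)
    (h3 : ∀ T : U → Set P, ∀ q, q ∉ IsTrans lam A T) : p ∈ NotGood P ι κ lam := by
  refine mem_fex_of_mem (fun j u => A (f j) (e u)) (down_fand (down_fand (down_fall fun _ =>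
    down_fand (down_fex _) (down_fnot _)) (down_fall fun _ => down_fall fun _ =>
    down_fall fun _ => down_fex _)) (down_fand (down_fall fun _ => down_fall fun _ =>
    down_fex _) (down_fnot _))) ⟨isAD_equiv f e h1, degGe_equiv f e h2, fun q _ hex => ?_⟩
  obtain ⟨r, _, T, hr⟩ := mem_fex.1 hex q le_rfl
  exact h3 _ _ (isTrans_equiv f e hr)

end

section

variable {K I Θ T : Type} [LinearOrder K] [LinearOrder Θ] {V : ℕ → Type} {κ : Cardinal.{0}}
  [∀ n, LinearOrder (V n)] {h : Θ → ∀ n, V n} [Preorder T]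
  {S : Set K} {y : K → Θ → K} {code : K × κ.ord.ToType × (RC h × T) → K} {G : K → Set K}

/-- the sets have size `κ` -/
theorem cardEq_fam (hκ : ℵ₀ ≤ κ) (hΘ : #Θ ≤ κ) {p : RC h × T} (hp : p ∈ IsCard (RC h × T) κ)
    (j : Ix K I) : p ∈ CardEq κ (Fam S y code G j) := by
  classical
  have hQ : #(κ.ord.ToType) = κ := mk_ord_toType κ
  -- a copy of `κ` is contained in each set
  have key : ∀ (e : κ.ord.ToType → Pt K κ.ord.ToType I), Function.Injective e →
      (∀ x, ∀ q : RC h × T, q ∈ meets (Fam S y code G j (e x))) →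
      p ∈ fnot (CardLt κ (Fam S y code G j)) := by
    intro e he he2 q hq hq'
    obtain ⟨r, hr, ν, hν, hrν⟩ := mem_fex.1 hq' q le_rfl
    exact hp ν hν r (hr.trans hq) (cardLe_pull e he (fun x s _ _ => he2 x s) hrν)
  have hcov : ∀ (Y : Type) (g : Y → Pt K κ.ord.ToType I), #Y ≤ κ →
      (∀ u, ∀ q : RC h × T, q ∈ meets (Fam S y code G j u) → u ∈ range g) →
      p ∈ CardLe κ (Fam S y code G j) := fun Y g hY hg =>
    cardLe_of_sub (B := range g) (mk_range_le.trans hY) fun u q _ hq => hg u q hq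
  cases j with
  | line a =>
    refine ⟨hcov _ (fun b : κ.ord.ToType => Pt.pair a b) hQ.le fun u q hq => ?_,
      key (fun x => Pt.pair a x) (fun x x' hxx => by simpa using hxx)
        fun x q => meets_of_mem rfl⟩
    cases u with
    | pair a' b =>
      have h1 : a' = a := of_meets_fground hq
      exact ⟨b, by rw [h1]⟩
    | _ => exact absurd hq not_meets_empty
  | cross d =>
    refine ⟨hcov _ (fun z : (Θ × κ.ord.ToType) ⊕ κ.ord.ToType => Sum.elim
      (fun z => Pt.pair (y d z.1) z.2) (fun b => Pt.pad d b) z) ?_ fun u q hq => ?_,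
      key (fun x => Pt.pad d x) (fun x x' hxx => by simpa using hxx)
        fun x q => meets_of_mem rfl⟩
    · rw [mk_sum, lift_id, lift_id, mk_prod, lift_id, lift_id, hQ]
      exact (add_le_add ((mul_le_mul' hΘ le_rfl).trans_eq (mul_eq_self hκ)) le_rfl).trans_eq
        (add_eq_self hκ)
    · cases u with
      | pair a b =>
        obtain ⟨t, _, _, ⟨i, _, hi⟩, _⟩ :=
          Bn_of_meets (show q ∈ meets (Bn S y code G d a b) from hq)
        exact ⟨Sum.inl (i, b), by simp [hi]⟩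
      | pad d' b =>
        have h1 : d' = d := of_meets_fground hq
        exact ⟨Sum.inr b, by simp [h1]⟩
      | _ => exact absurd hq not_meets_empty
  | num n =>
    refine ⟨hcov _ (fun z : κ.ord.ToType ⊕ ℕ => Sum.elim
      (fun b => Pt.fpad n b) (fun m => Pt.fin m) z) ?_ fun u q hq => ?_,
      key (fun x => Pt.fpad n x) (fun x x' hxx => by simpa using hxx)
        fun x q => meets_of_mem rfl⟩
    · rw [mk_sum, lift_id, lift_id, hQ, mk_nat]
      exact (add_le_add le_rfl hκ).trans_eq (add_eq_self hκ)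
    · cases u with
      | fpad n' b =>
        have h1 : n' = n := of_meets_fground hq
        exact ⟨Sum.inl b, by simp [h1]⟩
      | fin m => exact ⟨Sum.inr m, by simp⟩
      | _ => exact absurd hq not_meets_empty
  | idx i =>
    refine ⟨hcov _ (fun b : κ.ord.ToType => Pt.ipad i b) hQ.le fun u q hq => ?_,
      key (fun x => Pt.ipad i x) (fun x x' hxx => by simpa using hxx)
        fun x q => meets_of_mem rfl⟩
    cases u with
    | ipad i' b =>
      have h1 : i' = i := of_meets_fground hq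
      exact ⟨b, by rw [h1]⟩
    | _ => exact absurd hq not_meets_empty

theorem isAD_fam (hcore : IsCore h S y) (hκ : ℵ₀ ≤ κ) (hΘ : #Θ ≤ κ) {p : RC h × T}
    (hp : p ∈ IsCard (RC h × T) κ) :
    p ∈ IsAD κ ℵ₀ (Fam (I := I) S y code G) :=
  ⟨fun j => cardEq_fam hκ hΘ hp j, fun _ _ hij => cardLt_of_isFin (fam_isFin hcore hij p)⟩

theorem degGe_fam (p : RC h × T) : p ∈ DegGe ℵ₀ (Fam (I := I) S y code G) := by
  classical
  intro ν hν
  obtain ⟨m, rfl⟩ := lt_aleph0.1 hν
  refine mem_fex_of_mem (Ix.num m) (down_fex _) (mem_fex_of_mem (Ix.num (m + 1))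
    (down_fand (down_fground _) (down_fnot _)) ⟨?_, ?_⟩)
  · show Ix.num m ≠ Ix.num (m + 1)
    intro h
    injection h with h
    omega
  · intro q _ hq
    obtain ⟨r, hr, μ, hμ, hrμ⟩ := mem_fex.1 hq q le_rfl
    have h1 : #(range fun k : Fin m => (Pt.fin k.1 : Pt K κ.ord.ToType I)) ≤ μ := by
      refine small_of_cardLe le_rfl (dirClosed_aleph0 _) (hμ.trans (natCast_lt_aleph0 (n := m)))
        hrμ ?_
      rintro _ ⟨k, rfl⟩
      rw [meets_nCap]
      exact ⟨meets_of_mem (show k.1 < m from k.2), meets_of_mem (show k.1 < m + 1 by omega)⟩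
    rw [mk_range_eq _ (fun a b hab => Fin.ext (by simpa using hab)), mk_fin] at h1
    exact absurd hμ (not_lt.2 h1)

end

section

variable {K Q I T : Type} [LinearOrder K] [LinearOrder Q] {V : ℕ → Type}
  [∀ n, LinearOrder (V n)] [Preorder T] {S : Set K} {G : K → Set K}

/-- there is no transversal -/
theorem no_transversal [WellFoundedLT Q] {lam lam0 : Cardinal.{0}} (hK : IsSuccType lam K)
    {h : (Order.succ lam0).ord.ToType → ∀ n, V n} {y : K → (Order.succ lam0).ord.ToType → K}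
    {code : K × Q × (RC h × T) → K}
    (hlam0 : ℵ₀ ≤ lam0) (hh : IsScale h) (hcore : IsCore h S y) (hQ : Nonempty Q)
    (hP : #(RC h × T) ≤ lam) (hcode : Function.Injective code)
    (hG : ∀ Z : Set K, Stat {δ ∈ S | ∀ x < δ, x ∈ G δ ↔ x ∈ Z})
    (hreg : ∀ p : RC h × T, p ∈ StaysRegular (RC h × T) (Order.succ lam0))
    (Tn : Pt K Q I → Set (RC h × T)) (p : RC h × T) :
    p ∉ IsTrans ℵ₀ (Fam S y code G) Tn := by
  classical
  intro hp
  have hne := hK.nonempty
  let Z : Set K := {x | ∃ z : K × Q × (RC h × T), code z = x ∧ z.2.2 ∈ meets (Tn (.pair z.1 z.2.1))}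
  have hF : ∀ a : K, ∃ c, ∀ q : RC h × T,
      (∃ r ≤ q, ∃ g, r ∈ meets (Tn (.pair a g))) → ∃ r ≤ q, ∃ g, (∀ p, code (a, g, p) < c) ∧
      r ∈ meets (Tn (.pair a g)) := by
    intro a
    have h1 : ∀ q : RC h × T, ∃ g, (∃ r ≤ q, ∃ g, r ∈ meets (Tn (.pair a g))) →
        ∃ r ≤ q, r ∈ meets (Tn (.pair a g)) := by
      intro q
      by_cases h2 : ∃ r ≤ q, ∃ g, r ∈ meets (Tn (.pair a g))
      · obtain ⟨r, hr, g, hg⟩ := h2
        exact ⟨g, fun _ => ⟨r, hr, hg⟩⟩
      · exact ⟨hQ.some, fun h => absurd h h2⟩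
    choose g hg using h1
    obtain ⟨c, hc⟩ := hK.bddF (fun z : (RC h × T) × (RC h × T) => code (a, g z.1, z.2)) (by
      rw [mk_prod, lift_id]
      exact (mul_le_mul' hP hP).trans_eq (mul_eq_self hK.inf))
    refine ⟨c, fun q hq => ?_⟩
    obtain ⟨r, hr, hr'⟩ := hg q hq
    exact ⟨r, hr, g q, fun p => hc (q, p), hr'⟩
  choose F hF using hF
  obtain ⟨δ, ⟨hδS, hδ⟩, _, hcl⟩ := hG Z F
  have hTg1 : ∀ a g r, r ∈ meets (Tg code G δ a g) → r ∈ meets (Tn (.pair a g)) := by
    intro a g r hr q hq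
    obtain ⟨s, hs, t, ⟨ht1, ht2⟩, hst⟩ := hr q hq
    obtain ⟨z, hz, hz2⟩ := (hδ _ ht1).1 ht2
    have h4 := hcode hz
    rw [h4] at hz2
    obtain ⟨s', hs', t', ht', hst'⟩ := hz2 s hst
    exact ⟨s', hs'.trans hs, t', ht', hst'⟩
  have hTg2 : ∀ a g r, (∀ p, code (a, g, p) < δ) → r ∈ meets (Tn (.pair a g)) →
      r ∈ meets (Tg code G δ a g) := by
    intro a g r hd hr
    exact meets_of_mem ⟨hd r, (hδ _ (hd r)).2 ⟨(a, g, r), rfl, hr⟩⟩
  have h1 := (hp (.cross δ)).2
  obtain ⟨q, hq, f, hf, hcov⟩ := mem_fex.1 h1 p le_rfl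
  have hΘ : IsSuccType lam0 (Order.succ lam0).ord.ToType := IsSuccType.toType hlam0
  have hΘne := hΘ.nonempty
  let φ : Pt K Q I → (Order.succ lam0).ord.ToType
    | .pair a _ => Function.invFun (y δ) a
    | _ => hΘne.some
  have hyinj : Function.Injective (y δ) := fun i i' hii => hcore.inj δ hδS δ hδS i i' hii
  obtain ⟨r, hr, b, hb⟩ := bounded_of_cover hreg (ν := ℵ₀)
    (Order.lt_succ_iff.2 hlam0) hf φ
  obtain ⟨r1, hr1, i, hi, hbi⟩ := RC.unbounded hh (fun β => hΘ.exists_gt β) r.1 b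
  have hle1 : (r1, r.2) ≤ r := ⟨hr1, le_rfl⟩
  have hyδ := hcore.lt δ hδS i
  -- the line meets the transversal below `δ`
  have h2 : ∃ s ≤ (r1, r.2), ∃ g, s ∈ meets (Tn (.pair (y δ i) g)) := by
    obtain ⟨s, hs, u, hu1, hu2⟩ := mem_fex.1 (hp (.line (y δ i))).1 (r1, r.2)
      ((hle1.trans hr).trans hq)
    refine ⟨s, hs, ?_⟩
    cases u with
    | pair a g =>
      have h3 : a = y δ i := of_meets_fground hu2
      rw [h3] at hu1
      exact ⟨g, hu1⟩
    | _ => exact absurd hu2 not_meets_empty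
  obtain ⟨s, hs, g, hg, hsm⟩ := hF (y δ i) _ h2
  have hgδ : ∀ p, code (y δ i, g, p) < δ := fun p => (hg p).trans (hcl _ hyδ)
  obtain ⟨s1, hs1, g1, hg1, hmin⟩ := exists_MinT (T := Tg code G δ) (p := (r1, r.2))
    (α := y δ i) (γ := g) ⟨s, hs, hTg2 _ _ _ hgδ hsm⟩
  have hB : s1 ∈ Bn S y code G δ (y δ i) g1 := ⟨hδS, ⟨i, hs1.1.1 hi, rfl⟩, hmin⟩
  have hcap : s1 ∈ meets (nCap Tn (Fam S y code G (.cross δ)) (.pair (y δ i) g1)) := by
    rw [meets_nCap]
    exact ⟨hTg1 _ _ _ hmin.1, meets_of_mem hB⟩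
  obtain ⟨s2, hs2, h3⟩ := mem_fimp.1 (hcov (.pair (y δ i) g1)) s1
    (hs1.trans (hle1.trans hr)) hcap
  obtain ⟨s3, hs3, n, hn⟩ := mem_fex.1 h3 s2 le_rfl
  have h4 := hb n (.pair (y δ i) g1) s3 (hs3.trans (hs2.trans (hs1.trans hle1))) hn
  have h5 : φ (.pair (y δ i) g1) = i := Function.leftInverse_invFun hyinj i
  rw [h5] at h4
  exact absurd (h4.trans hbi) (lt_irrefl _)

end

end Pool.Agent.H645.NG
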