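import Mathlib
import Pool.Agent.H645.Product
import Pool.Agent.H645.Sentences
import Pool.Agent.H645.Diamond

set_option autoImplicit false

/-!
# A family of almost disjoint sets without an `ℵ₁`-transversal
-/

namespace Pool.Agent.H645

open Cardinal Set
open Pool.Agent.Helper669.Forcing Pool.Agent.Helper669.K Pool.Agent.Helper669.U
  Pool.Agent.Helper669.V

/-- the points -/
inductive Pt (K : Type) : Type
  | pair (a b : K) : Pt K
  | pad (a b : K) : Pt K
  | fpad (n : ℕ) (b : K) : Pt K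
  | fin (n : ℕ) : Pt K

/-- the indices -/
inductive Ix (K : Type) : Type
  | line (a : K) : Ix K
  | cross (d : K) : Ix K
  | num (n : ℕ) : Ix K

section

variable {P : Type} [Preorder P] {K : Type} [LinearOrder K]

/-- `γ` is the least element of `{γ | (α, γ) ∈ T}` -/
def MinT (T : K → K → Set P) (α γ : K) : Set P :=
  fand (meets (T α γ)) (fall fun γ' => fall fun _ : γ' < γ => fnot (meets (T α γ')))

theorem down_MinT (T : K → K → Set P) (α γ : K) : Down (MinT T α γ) :=
  down_fand (down_meets _) (down_fall fun _ => down_fall fun _ => down_fnot _)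

theorem MinT_unique {T : K → K → Set P} {α γ γ' : K} {p : P} (h : p ∈ MinT T α γ)
    (h' : p ∈ MinT T α γ') : γ = γ' := by
  rcases lt_trichotomy γ γ' with h1 | h1 | h1
  · exact absurd h.1 (h'.2 γ h1 p le_rfl)
  · exact h1
  · exact absurd h'.1 (h.2 γ' h1 p le_rfl)

/-- if some `γ` is in the section, then there is a least one -/
theorem exists_MinT [WellFoundedLT K] {T : K → K → Set P} {α γ : K} {p : P}
    (h : ∃ q ≤ p, q ∈ meets (T α γ)) : ∃ q ≤ p, ∃ γ' ≤ γ, q ∈ MinT T α γ' := by
  obtain ⟨γ', ⟨q, hq, hqm⟩, hmin⟩ := (wellFounded_lt (α := K)).has_min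
    {γ | ∃ q ≤ p, q ∈ meets (T α γ)} ⟨γ, h⟩
  refine ⟨q, hq, γ', not_lt.1 fun hlt => hmin γ h hlt, hqm, fun γ2 hγ2 r hr hrm => ?_⟩
  exact hmin γ2 ⟨r, hr.trans hq, hrm⟩ hγ2

end

section

variable {K Θ B T : Type} [LinearOrder K] [LinearOrder Θ] {V : ℕ → Type}
  [∀ n, LinearOrder (V n)] {h : Θ → ∀ n, V n} [Preorder T]

/-- the name guessed by the diamond sequence -/
def Tg {P : Type} (code : K × K × P → K) (G : K → Set K) (δ α γ : K) : Set P :=
  {p | α < δ ∧ γ < δ ∧ code (α, γ, p) ∈ G δ}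

/-- the part of the set with index `δ` which meets the lines -/
def Bn (S : Set K) (y : K → Θ → K) (code : K × K × (RC h × T) → K) (G : K → Set K)
    (δ α γ : K) : Set (RC h × T) :=
  {p | δ ∈ S ∧ (∃ i ∈ p.1.s, y δ i = α) ∧ p ∈ MinT (Tg code G δ) α γ}

/-- the family -/
def Fam (S : Set K) (y : K → Θ → K) (code : K × K × (RC h × T) → K) (G : K → Set K) :
    Ix K → Pt K → Set (RC h × T)
  | .line a, .pair a' _ => fground (a' = a)
  | .cross d, .pair a c => Bn S y code G d a c
  | .cross d, .pad d' _ => fground (d' = d)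
  | .num n, .fpad n' _ => fground (n' = n)
  | .num n, .fin m => fground (m < n)
  | _, _ => ∅

variable {S : Set K} {y : K → Θ → K} {code : K × K × (RC h × T) → K} {G : K → Set K}

theorem down_Bn (δ α γ : K) : Down (Bn S y code G δ α γ) := by
  rintro p ⟨h1, ⟨i, hi, hiy⟩, h3⟩ q hq
  exact ⟨h1, ⟨i, hq.1.1 hi, hiy⟩, down_MinT _ _ _ _ h3 _ hq⟩

theorem Bn_of_meets {δ α γ : K} {p : RC h × T} (hp : p ∈ meets (Bn S y code G δ α γ)) :
    ∃ q ≤ p, q ∈ Bn S y code G δ α γ := exists_of_meets (down_Bn _ _ _) hp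

/-- the elements of the family are almost disjoint -/
theorem fam_line_line {a a' : K} (haa : a ≠ a') (p : RC h × T) :
    p ∈ IsFin (nCap (Fam S y code G (.line a)) (Fam S y code G (.line a'))) := by
  refine isFin_of fun q _ => ⟨q, le_rfl, ∅, fun u s _ hs => ?_⟩
  rw [meets_nCap] at hs
  cases u with
  | pair c d => exact absurd ((of_meets_fground hs.1).symm.trans (of_meets_fground hs.2)) haa
  | pad _ _ => exact absurd hs.1 not_meets_empty
  | fpad _ _ => exact absurd hs.1 not_meets_empty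
  | fin _ => exact absurd hs.1 not_meets_empty

theorem fam_line_cross {a d : K} (p : RC h × T) :
    p ∈ IsFin (nCap (Fam S y code G (.line a)) (Fam S y code G (.cross d))) := by
  classical
  refine isFin_of fun q _ => ?_
  by_cases h1 : ∃ r ≤ q, ∃ c, r ∈ Bn S y code G d a c
  · obtain ⟨r, hr, c, hc⟩ := h1
    refine ⟨r, hr, {.pair a c}, fun u s hsr hs => ?_⟩
    rw [meets_nCap] at hs
    cases u with
    | pair c1 c2 =>
      have h2 : c1 = a := of_meets_fground hs.1
      obtain ⟨t, ht, htB⟩ := Bn_of_meets (show s ∈ meets (Bn S y code G d c1 c2) from hs.2)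
      have h3 : c2 = c := by
        have h4 := htB.2.2
        rw [h2] at h4
        exact MinT_unique h4 (down_MinT _ _ _ _ hc.2.2 _ (ht.trans hsr))
      rw [h2, h3]
      exact Finset.mem_singleton_self _
    | pad _ _ => exact absurd hs.1 not_meets_empty
    | fpad _ _ => exact absurd hs.1 not_meets_empty
    | fin _ => exact absurd hs.1 not_meets_empty
  · refine ⟨q, le_rfl, ∅, fun u s hsr hs => ?_⟩
    rw [meets_nCap] at hs
    cases u with
    | pair c1 c2 =>
      have h2 : c1 = a := of_meets_fground hs.1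
      obtain ⟨t, ht, htB⟩ := Bn_of_meets (show s ∈ meets (Bn S y code G d c1 c2) from hs.2)
      rw [h2] at htB
      exact absurd ⟨t, ht.trans hsr, c2, htB⟩ h1
    | pad _ _ => exact absurd hs.1 not_meets_empty
    | fpad _ _ => exact absurd hs.1 not_meets_empty
    | fin _ => exact absurd hs.1 not_meets_empty

theorem fam_line_num {a : K} {n : ℕ} (p : RC h × T) :
    p ∈ IsFin (nCap (Fam S y code G (.line a)) (Fam S y code G (.num n))) := by
  refine isFin_of fun q _ => ⟨q, le_rfl, ∅, fun u s _ hs => ?_⟩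
  rw [meets_nCap] at hs
  cases u with
  | pair c d => exact absurd hs.2 not_meets_empty
  | pad _ _ => exact absurd hs.1 not_meets_empty
  | fpad _ _ => exact absurd hs.1 not_meets_empty
  | fin _ => exact absurd hs.1 not_meets_empty

theorem fam_cross_num {d : K} {n : ℕ} (p : RC h × T) :
    p ∈ IsFin (nCap (Fam S y code G (.cross d)) (Fam S y code G (.num n))) := by
  refine isFin_of fun q _ => ⟨q, le_rfl, ∅, fun u s _ hs => ?_⟩
  rw [meets_nCap] at hs
  cases u with
  | pair c d => exact absurd hs.2 not_meets_empty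
  | pad _ _ => exact absurd hs.2 not_meets_empty
  | fpad _ _ => exact absurd hs.1 not_meets_empty
  | fin _ => exact absurd hs.1 not_meets_empty

theorem fam_num_num {m n : ℕ} (hmn : m ≠ n) (p : RC h × T) :
    p ∈ IsFin (nCap (Fam S y code G (.num m)) (Fam S y code G (.num n))) := by
  classical
  refine isFin_of fun q _ => ⟨q, le_rfl, (Finset.range m).image Pt.fin, fun u s _ hs => ?_⟩
  rw [meets_nCap] at hs
  cases u with
  | pair c d => exact absurd hs.1 not_meets_empty
  | pad _ _ => exact absurd hs.1 not_meets_empty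
  | fpad c d => exact absurd ((of_meets_fground hs.1).symm.trans (of_meets_fground hs.2)) hmn
  | fin k =>
    exact Finset.mem_image.2 ⟨k, Finset.mem_range.2 (of_meets_fground hs.1), rfl⟩

theorem fam_cross_cross [WellFoundedLT K] (hcore : IsCore h S y) {d d' : K} (hdd : d ≠ d')
    (p : RC h × T) :
    p ∈ IsFin (nCap (Fam S y code G (.cross d)) (Fam S y code G (.cross d'))) := by
  classical
  refine isFin_of fun q _ => ?_
  by_cases hS : d ∈ S ∧ d' ∈ S
  · obtain ⟨hd, hd'⟩ := hS
    obtain ⟨b, m, hb⟩ := hcore.sep d hd d' hd' hdd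
    obtain ⟨q1, hq1, hm1, hb1⟩ := q.1.promise b m
    have hle1 : (q1, q.2) ≤ q := ⟨hq1, le_rfl⟩
    -- decide the points on finitely many lines
    obtain ⟨r, hr, hF⟩ := exists_forall_fin (P := RC h × T) q1.s
      (fun i => {r | ∃ F : Finset (Pt K), ∀ c, ∀ s ≤ r, s ∈ Bn S y code G d (y d i) c →
        Pt.pair (y d i) c ∈ F})
      (by
        rintro i r ⟨F, hF⟩ r' hr'
        exact ⟨F, fun c s hs => hF c s (hs.trans hr')⟩)
      (by
        intro i _ r
        by_cases h1 : ∃ s ≤ r, ∃ c, s ∈ Bn S y code G d (y d i) c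
        · obtain ⟨s, hs, c, hc⟩ := h1
          refine ⟨s, hs, {.pair (y d i) c}, fun c' t ht htB => ?_⟩
          rw [MinT_unique htB.2.2 (down_MinT _ _ _ _ hc.2.2 _ ht)]
          exact Finset.mem_singleton_self _
        · refine ⟨r, le_rfl, ∅, fun c s hs hsB => absurd ⟨s, hs, c, hsB⟩ h1⟩) (q1, q.2)
    choose! F hF using hF
    refine ⟨r, hr.trans hle1, q1.s.biUnion F, fun u s hsr hs => ?_⟩
    rw [meets_nCap] at hs
    cases u with
    | pair c1 c2 =>
      obtain ⟨t, ht, htB⟩ := Bn_of_meets (show s ∈ meets (Bn S y code G d c1 c2) from hs.1)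
      have h2 : t ∈ meets (Bn S y code G d' c1 c2) := down_meets _ _ hs.2 _ ht
      obtain ⟨t', ht', htB'⟩ := Bn_of_meets h2
      obtain ⟨_, ⟨i, hi, hiy⟩, h3⟩ := htB
      obtain ⟨_, ⟨i', hi', hiy'⟩, h3'⟩ := htB'
      have h4 : i = i' := hcore.inj d hd d' hd' i i' (hiy.trans hiy'.symm)
      have h5 : i ∈ DD h b m := hb i (by rw [hiy, h4, hiy'])
      have hle : t.1 ≤ q1 := ((ht.trans hsr).trans hr).1
      have h6 : i ∈ q1.s := (RC.filter_eq hle hb1 hm1 i h5).1 hi
      refine Finset.mem_biUnion.2 ⟨i, h6, ?_⟩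
      rw [← hiy]
      rw [← hiy] at h3
      exact hF i h6 c2 t (ht.trans hsr) ⟨hd, ⟨i, hi, rfl⟩, h3⟩
    | pad c1 c2 => exact absurd ((of_meets_fground hs.1).symm.trans (of_meets_fground hs.2)) hdd
    | fpad _ _ => exact absurd hs.1 not_meets_empty
    | fin _ => exact absurd hs.1 not_meets_empty
  · refine ⟨q, le_rfl, ∅, fun u s hsr hs => ?_⟩
    rw [meets_nCap] at hs
    cases u with
    | pair c1 c2 =>
      obtain ⟨t, ht, htB⟩ := Bn_of_meets (show s ∈ meets (Bn S y code G d c1 c2) from hs.1)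
      obtain ⟨t', ht', htB'⟩ := Bn_of_meets (show s ∈ meets (Bn S y code G d' c1 c2) from hs.2)
      exact absurd ⟨htB.1, htB'.1⟩ hS
    | pad c1 c2 => exact absurd ((of_meets_fground hs.1).symm.trans (of_meets_fground hs.2)) hdd
    | fpad _ _ => exact absurd hs.1 not_meets_empty
    | fin _ => exact absurd hs.1 not_meets_empty

/-- it is a family as in the question -/
theorem isFamily_fam [WellFoundedLT K] {lam : Cardinal.{0}} (hcore : IsCore h S y)
    (hU : #(Pt K) = Order.succ lam)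
    (e : (Order.succ lam).ord.ToType ≃ K)
    (hreg : ∀ p : RC h × T, p ∈ StaysRegular (RC h × T) (Order.succ lam)) (p : RC h × T) :
    p ∈ IsFamily (Fam S y code G) := by
  classical
  refine ⟨fun j => ?_, fun i j hij => ?_, fun n => ?_⟩
  · cases j with
    | line a =>
      exact fullSize_of_inj hreg hU (fun x => Pt.pair a (e x)) (fun x x' hxx => by
        simpa using hxx) _ (fun x p => meets_of_mem rfl) p
    | cross d =>
      exact fullSize_of_inj hreg hU (fun x => Pt.pad d (e x)) (fun x x' hxx => by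
        simpa using hxx) _ (fun x p => meets_of_mem rfl) p
    | num n =>
      exact fullSize_of_inj hreg hU (fun x => Pt.fpad n (e x)) (fun x x' hxx => by
        simpa using hxx) _ (fun x p => meets_of_mem rfl) p
  · cases i with
    | line a =>
      cases j with
      | line a' => exact fam_line_line (fun h => hij (by rw [h])) p
      | cross d => exact fam_line_cross p
      | num n => exact fam_line_num p
    | cross d =>
      cases j with
      | line a' => exact isFin_comm (fam_line_cross p)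
      | cross d' => exact fam_cross_cross hcore (fun h => hij (by rw [h])) p
      | num n => exact fam_cross_num p
    | num n =>
      cases j with
      | line a' => exact isFin_comm (fam_line_num p)
      | cross d' => exact isFin_comm (fam_cross_num p)
      | num n' => exact fam_num_num (fun h => hij (by rw [h])) p
  · refine mem_fex_of_mem (Ix.num n) (down_fex _) (mem_fex_of_mem (Ix.num (n + 1))
      (down_fand (down_fground _) (down_fex _)) ⟨?_, ?_⟩)
    · show Ix.num n ≠ Ix.num (n + 1)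
      intro h
      injection h with h
      omega
    · refine mem_fex_of_mem ((Finset.range n).map ⟨Pt.fin, fun a b hab => by
        injection hab⟩) (down_fand (down_fground _) (down_fall fun _ => down_fall fun _ =>
        down_meets _)) ⟨?_, ?_⟩
      · show n ≤ _
        rw [Finset.card_map, Finset.card_range]
      · intro u hu
        obtain ⟨k, hk, rfl⟩ := Finset.mem_map.1 hu
        rw [Finset.mem_range] at hk
        rw [meets_nCap]
        exact ⟨meets_of_mem (show k < n from hk), meets_of_mem (show k < n + 1 by omega)⟩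

/-- there is no transversal -/
theorem no_transversal [WellFoundedLT K] {lam lam0 : Cardinal.{0}} (hK : IsSuccType lam K)
    {h : (Order.succ lam0).ord.ToType → ∀ n, V n} {y : K → (Order.succ lam0).ord.ToType → K}
    {code : K × K × (RC h × T) → K}
    (hlam0 : ℵ₀ ≤ lam0) (hh : IsScale h) (hcore : IsCore h S y)
    (hP : #(RC h × T) ≤ lam) (hcode : Function.Injective code)
    (hG : ∀ Z : Set K, Stat {δ ∈ S | ∀ x < δ, x ∈ G δ ↔ x ∈ Z})
    (hreg : ∀ p : RC h × T, p ∈ StaysRegular (RC h × T) (Order.succ lam0))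
    (Tn : Pt K → Set (RC h × T)) (p : RC h × T) :
    p ∉ IsTransversal (Fam S y code G) Tn := by
  classical
  intro hp
  have hne := hK.nonempty
  let Z : Set K := {x | ∃ z : K × K × (RC h × T), code z = x ∧ z.2.2 ∈ meets (Tn (.pair z.1 z.2.1))}
  have hF : ∀ a b : K, ∃ c, (∀ p, code (a, b, p) < c) ∧ ∀ q : RC h × T,
      (∃ r ≤ q, ∃ g, r ∈ meets (Tn (.pair a g))) → ∃ r ≤ q, ∃ g < c,
      r ∈ meets (Tn (.pair a g)) := by
    intro a b
    obtain ⟨c1, hc1⟩ := hK.bddF (fun p => code (a, b, p)) hP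
    have h1 : ∀ q : RC h × T, ∃ g, (∃ r ≤ q, ∃ g, r ∈ meets (Tn (.pair a g))) →
        ∃ r ≤ q, r ∈ meets (Tn (.pair a g)) := by
      intro q
      by_cases h2 : ∃ r ≤ q, ∃ g, r ∈ meets (Tn (.pair a g))
      · obtain ⟨r, hr, g, hg⟩ := h2
        exact ⟨g, fun _ => ⟨r, hr, hg⟩⟩
      · exact ⟨hne.some, fun h => absurd h h2⟩
    choose g hg using h1
    obtain ⟨c2, hc2⟩ := hK.bddF g hP
    obtain ⟨c, h1, h2⟩ := hK.gt2 c1 c2
    refine ⟨c, fun p => (hc1 p).trans h1, fun q hq => ?_⟩
    obtain ⟨r, hr, hr'⟩ := hg q hq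
    exact ⟨r, hr, g q, (hc2 q).trans h2, hr'⟩
  choose F hF1 hF2 using hF
  obtain ⟨δ, ⟨hδS, hδ⟩, _, hcl⟩ := (hG Z).two hK F hne.some
  have hTg : ∀ a < δ, ∀ g < δ, ∀ r, r ∈ meets (Tg code G δ a g) ↔
      r ∈ meets (Tn (.pair a g)) := by
    intro a ha g hg r
    have h1 : ∀ r, r ∈ Tg code G δ a g ↔ r ∈ meets (Tn (.pair a g)) := by
      intro r
      have h2 : code (a, g, r) < δ := (hF1 a g r).trans (hcl a ha g hg)
      constructor
      · rintro ⟨_, _, h3⟩
        obtain ⟨z, hz, hz2⟩ := (hδ _ h2).1 h3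
        have h4 := hcode hz
        rw [h4] at hz2
        exact hz2
      · intro h3
        exact ⟨ha, hg, (hδ _ h2).2 ⟨(a, g, r), rfl, h3⟩⟩
    constructor
    · intro hr q hq
      obtain ⟨s, hs, t, ht, hst⟩ := hr q hq
      obtain ⟨s', hs', t', ht', hst'⟩ := (h1 t).1 ht s hst
      exact ⟨s', hs'.trans hs, t', ht', hst'⟩
    · intro hr
      exact meets_of_mem ((h1 r).2 hr)
  have h1 := (hp (.cross δ)).2
  obtain ⟨q, hq, f, hf, hcov⟩ := mem_fex.1 h1 p le_rfl
  obtain ⟨eN⟩ : Nonempty ((ℵ₀ : Cardinal.{0}).out ≃ ℕ) := by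
    rw [← Cardinal.eq, mk_out, mk_nat]
  have hΘ : IsSuccType lam0 (Order.succ lam0).ord.ToType := IsSuccType.toType hlam0
  have hΘne := hΘ.nonempty
  let φ : Pt K → (Order.succ lam0).ord.ToType
    | .pair a _ => Function.invFun (y δ) a
    | _ => hΘne.some
  have hyinj : Function.Injective (y δ) := fun i i' hii => hcore.inj δ hδS δ hδS i i' hii
  obtain ⟨r, hr, b, hb⟩ := bounded_of_fun hreg (ν := ℵ₀)
    (Order.lt_succ_iff.2 hlam0) (R := fun x u => f (eN x) u) (q := q)
    ⟨fun x => hf.1 (eN x), fun x y y' => hf.2 (eN x) y y'⟩ φ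
  obtain ⟨r1, hr1, i, hi, hbi⟩ := RC.unbounded hh (fun β => hΘ.exists_gt β) r.1 b
  have hle1 : (r1, r.2) ≤ r := ⟨hr1, le_rfl⟩
  have hyδ := hcore.lt δ hδS i
  -- the line meets the transversal below `δ`
  have h2 : ∃ s ≤ (r1, r.2), ∃ g, s ∈ meets (Tn (.pair (y δ i) g)) := by
    obtain ⟨s, hs, u, hu1, hu2⟩ := mem_fex.1 (hp (.line (y δ i))).1 (r1, r.2)
      ((hle1.trans hr).trans hq)
    refine ⟨s, hs, ?_⟩
    cases u with
    | pair a g =>
      have h3 : a = y δ i := of_meets_fground hu2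
      rw [h3] at hu1
      exact ⟨g, hu1⟩
    | pad _ _ => exact absurd hu2 not_meets_empty
    | fpad _ _ => exact absurd hu2 not_meets_empty
    | fin _ => exact absurd hu2 not_meets_empty
  obtain ⟨s, hs, g, hg, hsm⟩ := hF2 (y δ i) (y δ i) _ h2
  have hgδ : g < δ := hg.trans (hcl _ hyδ _ hyδ)
  obtain ⟨s1, hs1, g1, hg1, hmin⟩ := exists_MinT (T := Tg code G δ) (p := (r1, r.2))
    (α := y δ i) (γ := g) ⟨s, hs, (hTg _ hyδ _ hgδ s).2 hsm⟩
  have hg1δ : g1 < δ := hg1.trans_lt hgδ
  have hB : s1 ∈ Bn S y code G δ (y δ i) g1 := ⟨hδS, ⟨i, hs1.1.1 hi, rfl⟩, hmin⟩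
  have hcap : s1 ∈ meets (nCap Tn (Fam S y code G (.cross δ)) (.pair (y δ i) g1)) := by
    rw [meets_nCap]
    exact ⟨(hTg _ hyδ _ hg1δ s1).1 hmin.1, meets_of_mem hB⟩
  obtain ⟨s2, hs2, h3⟩ := mem_fimp.1 (hcov (.pair (y δ i) g1)) s1
    (hs1.trans (hle1.trans hr)) hcap
  obtain ⟨s3, hs3, n, hn⟩ := mem_fex.1 h3 s2 le_rfl
  have h4 := hb (eN.symm n) (.pair (y δ i) g1) s3
    (hs3.trans (hs2.trans (hs1.trans hle1))) (by
      show s3 ∈ meets (f (eN (eN.symm n)) _)
      rw [Equiv.apply_symm_apply]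
      exact hn)
  have h5 : φ (.pair (y δ i) g1) = i := Function.leftInverse_invFun hyinj i
  rw [h5] at h4
  exact absurd (h4.trans hbi) (lt_irrefl _)

end

end Pool.Agent.H645
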