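import Mathlib
import Pool.Agent.H645.Family

set_option autoImplicit false

/-!
# A model of GCH with a bad family
-/

namespace Pool.Agent.H645

open Cardinal Set
open Pool.Agent.Helper669.Forcing Pool.Agent.Helper669.K Pool.Agent.Helper669.U
  Pool.Agent.Helper669.V

theorem exists_filtration {K : Type} [LinearOrder K] {k : ℕ → Cardinal.{0}} (hk : StrictMono k)
    (hK : ∀ a : K, #(Iio a) ≤ ⨆ n, k n) : ∃ E : K → ℕ → Set K, IsFiltration (⨆ n, k n) E := by
  classical
  have h1 : ∀ δ : K, ∃ r : Iio δ → ℕ, ∀ n, #{a | r a ≤ n} ≤ k n := fun δ =>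
    exists_pieces hk (hK δ)
  choose r hr using h1
  refine ⟨fun δ n => {a | ∃ h : a < δ, r δ ⟨a, h⟩ ≤ n}, ?_, ?_, ?_⟩
  · intro δ n
    have h2 : #{a | ∃ h : a < δ, r δ ⟨a, h⟩ ≤ n} ≤ #{a | r δ a ≤ n} :=
      mk_le_of_injective (f := fun a : {a | ∃ h : a < δ, r δ ⟨a, h⟩ ≤ n} =>
        (⟨⟨a.1, a.2.choose⟩, a.2.choose_spec⟩ : {a | r δ a ≤ n})) fun a b hab =>
        Subtype.ext (congrArg (fun z : {a | r δ a ≤ n} => z.1.1) hab)
    exact (h2.trans (hr δ n)).trans_lt ((hk (Nat.lt_succ_self n)).trans_le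
      (le_ciSup bddAbove_of_small (n + 1)))
  · rintro δ m n hmn a ⟨h1, h2⟩
    exact ⟨h1, h2.trans hmn⟩
  · intro δ a ha
    exact ⟨r δ ⟨a, ha⟩, ha, le_rfl⟩

theorem card_Pt {K : Type} {c : Cardinal.{0}} (hc : ℵ₀ ≤ c) (hK : #K = c) : #(Pt K) = c := by
  apply le_antisymm
  · have hne : Nonempty K := by
      rw [← mk_ne_zero_iff, hK]
      exact (aleph0_pos.trans_le hc).ne'
    obtain ⟨k0⟩ := hne
    have h1 : #(Pt K) ≤ #(ℕ × K × K) := mk_le_of_injective (f := fun u => match u with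
      | .pair a b => (0, a, b)
      | .pad a b => (1, a, b)
      | .fpad n b => (2 * n + 2, b, b)
      | .fin n => (2 * n + 3, k0, k0)) (by
        intro u v huv
        cases u <;> cases v <;> simp only [Prod.mk.injEq] at huv <;> first
          | (obtain ⟨h1, h2, h3⟩ := huv; subst h2; subst h3; rfl)
          | (exfalso; omega)
          | (obtain ⟨h1, h2, h3⟩ := huv; congr 1; omega)
          | (obtain ⟨h1, h2, h3⟩ := huv; subst h2; congr 1; omega))
    simp only [mk_prod, lift_id, mk_nat, hK] at h1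
    rw [mul_eq_self hc] at h1
    exact h1.trans ((mul_le_mul' hc le_rfl).trans_eq (mul_eq_self hc))
  · rw [← hK]
    exact mk_le_of_injective (f := fun a => Pt.pair a a) fun a b hab => by
      injection hab

theorem card_Ix {K : Type} {c : Cardinal.{0}} (hc : ℵ₀ ≤ c) (hK : #K = c) : #(Ix K) = c := by
  apply le_antisymm
  · have hne : Nonempty K := by
      rw [← mk_ne_zero_iff, hK]
      exact (aleph0_pos.trans_le hc).ne'
    obtain ⟨k0⟩ := hne
    have h1 : #(Ix K) ≤ #(ℕ × K) := mk_le_of_injective (f := fun u => match u with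
      | .line a => (0, a)
      | .cross a => (1, a)
      | .num n => (n + 2, k0)) (by
        intro u v huv
        cases u <;> cases v <;> simp only [Prod.mk.injEq] at huv <;> first
          | (obtain ⟨h1, h2⟩ := huv; subst h2; rfl)
          | (exfalso; omega)
          | (obtain ⟨h1, h2⟩ := huv; congr 1; omega))
    rw [mk_prod, lift_id, lift_id, mk_nat, hK] at h1
    exact h1.trans ((mul_le_mul' hc le_rfl).trans_eq (mul_eq_self hc))
  · rw [← hK]
    exact mk_le_of_injective (f := fun a => Ix.line a) fun a b hab => by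
      injection hab

theorem pow_lt_of_gch (hGCH : ∀ ν : Cardinal.{0}, ℵ₀ ≤ ν → 2 ^ ν = Order.succ ν) {κ : Cardinal.{0}}
    (hκ : ℵ₀ < κ) (hs : ∀ μ < κ, Order.succ μ < κ) (μ : Cardinal.{0}) (hμ : μ < κ) : 2 ^ μ < κ := by
  rcases lt_or_ge μ ℵ₀ with h | h
  · exact (power_lt_aleph0 (natCast_lt_aleph0 (n := 2)) h).trans hκ
  · rw [hGCH μ h]
    exact hs μ hμ

section

variable {κ μ : Cardinal.{0}}

/-- the forcing -/
abbrev FP (κ μ : Cardinal.{0})
    (h : (Order.succ (lamOf μ)).ord.ToType → ∀ n, (kap μ (n + 1)).ord.ToType) : Type :=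
  RC h × CC (lamOf μ) (Order.succ (lamOf μ)).ord.ToType κ.ord.ToType

/-- the sequence of the first cardinals of the extension -/
noncomputable def kseq (κ μ : Cardinal.{0}) : ℕ → Cardinal.{0}
  | 0 => ℵ₀
  | 1 => Order.succ (lamOf μ)
  | (n + 2) => kap κ (n + 1)

theorem kseq_mono (hμ : ℵ₀ ≤ μ) (hκ : Order.succ (lamOf μ) < κ) : StrictMono (kseq κ μ) := by
  refine strictMono_nat_of_lt_succ fun n => ?_
  match n with
  | 0 => exact Order.lt_succ_iff.2 (aleph0_le_lamOf hμ)
  | 1 => exact hκ.trans_le (le_kap κ 1)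
  | (n + 2) => exact kap_strictMono κ (Nat.lt_succ_self (n + 1))

theorem iSup_kseq (hμ : ℵ₀ ≤ μ) (hκ : Order.succ (lamOf μ) < κ) :
    (⨆ n, kseq κ μ n) = lamOf κ := by
  apply le_antisymm
  · refine ciSup_le' fun n => ?_
    refine ((kseq_mono hμ hκ).monotone (show n ≤ n + 2 by omega)).trans ?_
    exact (kap_lt_lamOf κ (n + 1)).le
  · refine ciSup_le' fun n => ?_
    exact le_ciSup (f := kseq κ μ) bddAbove_of_small (n + 2)

/-- A bad family of sets in a generic extension which satisfies GCH. -/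
theorem negative (hGCH : ∀ ν : Cardinal.{0}, ℵ₀ ≤ ν → 2 ^ ν = Order.succ ν)
    (hκ : ℵ₀ < κ) {W : Ultrafilter (Set (Order.succ (lamOf κ)).ord.ToType)}
    (hW : IsNormalMeasure κ (Order.succ (lamOf κ)).ord.ToType W) :
    ∃ (P : Type) (_ : Preorder P), Nonempty P ∧ ∃ c : Cardinal.{0}, ∀ p : P,
      p ∈ ForcesGCH P ∧ p ∈ IsAlephOmegaSucc P c ∧ p ∈ HasBadFamily P c.ord.ToType := by
  classical
  set K := (Order.succ (lamOf κ)).ord.ToType with hKdef
  have hlam := aleph0_le_lamOf hκ.le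
  have hK : IsSuccType (lamOf κ) K := IsSuccType.toType hlam
  obtain ⟨μ, hμ, hμκ, h, S, y, hh, hcore⟩ := exists_core hGCH hκ hK hW
  have hlam0 := aleph0_le_lamOf hμ
  have hκK : κ ≤ #K := by
    rw [hK.card]
    exact (kap_lt_lamOf κ 0).le.trans (Order.le_succ _)
  have hκreg : κ.IsRegular := hW.regular hκ hκK
  have hκs : ∀ μ < κ, Order.succ μ < κ := fun μ hμ => hW.succ_lt hκK hμ
  have hκstrong := pow_lt_of_gch hGCH hκ hκs
  have hΘ : IsSuccType (lamOf μ) (Order.succ (lamOf μ)).ord.ToType := IsSuccType.toType hlam0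
  have hVle : ∀ n, #((kap μ (n + 1)).ord.ToType) ≤ lamOf μ := fun n => by
    rw [mk_ord_toType]
    exact (kap_lt_lamOf μ _).le
  have hVne : ∀ n, Nonempty (kap μ (n + 1)).ord.ToType := fun n => by
    rw [← mk_ne_zero_iff, mk_ord_toType]
    exact (kap_regular hμ n).pos.ne'
  have hRcc := RC.cc hΘ hVle hVne hh
  have hRcard : #(RC h) ≤ Order.succ (lamOf μ) := RC.card_le hΘ hVle (hGCH _ hlam0)
  have hCcl : DirClosed (Order.succ (lamOf μ))
      (CC (lamOf μ) (Order.succ (lamOf μ)).ord.ToType κ.ord.ToType) := CC.dirClosed hlam0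
  have hCcard : #(CC (lamOf μ) (Order.succ (lamOf μ)).ord.ToType κ.ord.ToType) ≤ κ :=
    CC.card_le hκreg hκstrong ((Order.lt_succ _).trans hμκ)
      (by rw [mk_ord_toType]; exact hμκ.le) (by rw [mk_ord_toType])
  have hθreg : (Order.succ (lamOf μ)).IsRegular := isRegular_succ hlam0
  have hPcard : #(FP κ μ h) ≤ κ := by
    rw [mk_prod, lift_id, lift_id]
    exact (mul_le_mul' (hRcard.trans hμκ.le) hCcard).trans_eq (mul_eq_self hκ.le)
  have hPcc : ∀ (ι : Type) (f : ι → FP κ μ h), Order.succ κ ≤ #ι →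
      ∃ i j, i ≠ j ∧ ∃ r, r ≤ f i ∧ r ≤ f j := cc_of_card (Order.lt_succ_iff.2 hPcard)
  have hregθ : ∀ p : FP κ μ h, p ∈ StaysRegular (FP κ μ h) (Order.succ (lamOf μ)) :=
    staysRegular_prod hθreg hRcc hCcl
  have hregbig : ∀ ν : Cardinal.{0}, ν.IsRegular → κ < ν → ∀ p : FP κ μ h,
      p ∈ StaysRegular (FP κ μ h) ν := fun ν hν hκν p =>
    staysRegular_of_cc' hν (fun ι f hf => hPcc ι f ((Order.succ_le_of_lt hκν).trans hf)) p
  have hcol1 : ∀ p : FP κ μ h, p ∈ CollapsedTo (FP κ μ h) ℵ₀ (Order.succ (lamOf μ)) := fun p =>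
    isProj_fst.collapsed p (RC.collapsed hΘ hVle hVne hh p.1)
  have hcol2 : ∀ p : FP κ μ h, p ∈ CollapsedTo (FP κ μ h) (Order.succ (lamOf μ))
      (Order.succ κ) := fun p =>
    isProj_snd.collapsed p (CC.collapsed hlam0 (mk_ord_toType _) (mk_ord_toType _) p.2)
  have hregK := hregbig (Order.succ (lamOf κ)) (isRegular_succ hlam)
    ((kap_lt_lamOf κ 0).trans (Order.lt_succ _))
  have hRne : Nonempty (RC h) := ⟨⟨∅, fun n => (hVne n).some, 0⟩⟩
  have hCne : Nonempty (CC (lamOf μ) (Order.succ (lamOf μ)).ord.ToType κ.ord.ToType) :=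
    ⟨⟨∅, by simp, by simp⟩⟩
  refine ⟨FP κ μ h, inferInstance, inferInstance, Order.succ (lamOf κ), fun p => ⟨?_, ?_, ?_⟩⟩
  · -- GCH
    intro ν hν
    have key : ∀ c : Cardinal.{0}, p ∈ PowOnto (FP κ μ h) ν c →
        p ∈ CollapsedTo (FP κ μ h) ν c → p ∈ fex fun c : Cardinal.{0} =>
          fand (PowOnto (FP κ μ h) ν c) (CollapsedTo (FP κ μ h) ν c) :=
      fun c ha hb => mem_fex_of_mem c (down_fand (down_fex _) (gch_down_coll _ _)) ⟨ha, hb⟩
    rcases lt_or_ge ν (Order.succ (lamOf μ)) with c1 | c1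
    · have hνle : ν ≤ lamOf μ := Order.lt_succ_iff.1 c1
      refine key (Order.succ (lamOf μ)) ?_ (gch_mono hν (hcol1 p))
      have hcard : #(ν.ord.ToType → {A : Set (RC h) // #A < Order.succ (lamOf μ)}) ≤
          Order.succ (lamOf μ) := by
        have h1 := card_nice' (Q := RC h) (χ := Order.succ (lamOf μ)) (ν := lamOf μ) hlam0 (by
          rw [hGCH _ hlam0]; exact hRcard) le_rfl
        rw [hGCH _ hlam0] at h1
        refine le_trans ?_ h1
        have h2 : Nonempty {A : Set (RC h) // #A < Order.succ (lamOf μ)} :=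
          ⟨⟨∅, by rw [mk_eq_zero]; exact hθreg.pos⟩⟩
        rw [← power_def, ← power_def, mk_ord_toType, mk_ord_toType]
        exact power_le_power_left (mk_ne_zero _) hνle
      obtain ⟨F, hF⟩ := exists_nice_enum (Q := RC h) (χ := Order.succ (lamOf μ)) (ν := ν)
        (μ := Order.succ (lamOf μ)) hRcc hcard hθreg.pos.ne'
      exact powOnto_prod hθreg hRcc hCcl c1 F hF p
    · rcases lt_or_ge ν (Order.succ κ) with c2 | c2
      · have hνle : ν ≤ κ := Order.lt_succ_iff.1 c2
        refine key (Order.succ κ) ?_ (gch_mono c1 (hcol2 p))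
        have hcard : #(ν.ord.ToType → {A : Set (FP κ μ h) // #A < Order.succ κ}) ≤
            Order.succ κ := by
          have h1 := card_nice' (Q := FP κ μ h) (χ := Order.succ κ) (ν := κ) hκ.le
            (hPcard.trans (cantor κ).le) le_rfl
          rw [hGCH _ hκ.le] at h1
          refine le_trans ?_ h1
          have h2 : Nonempty {A : Set (FP κ μ h) // #A < Order.succ κ} :=
            ⟨⟨∅, by rw [mk_eq_zero]; exact (zero_le).trans_lt (Order.lt_succ κ)⟩⟩
          rw [← power_def, ← power_def, mk_ord_toType, mk_ord_toType]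
          exact power_le_power_left (mk_ne_zero _) hνle
        obtain ⟨F, hF⟩ := exists_nice_enum (Q := FP κ μ h) (χ := Order.succ κ) (ν := ν)
          (μ := Order.succ κ) hPcc hcard (Order.succ_ne_bot κ)
        exact powOnto_of_enum hF p
      · refine key (Order.succ ν) ?_ (gch_ground _ _ (fun ρ hρ => Order.lt_succ_iff.1 hρ) p)
        obtain ⟨F, hF⟩ := exists_nice_enum (Q := FP κ μ h) (χ := Order.succ κ) (ν := ν)
          (μ := Order.succ ν) hPcc (by
            rw [← hGCH ν hν]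
            exact card_nice' hν (hPcard.trans (((Order.le_succ κ).trans c2).trans (cantor ν).le))
              (c2.trans (Order.le_succ ν))) (Order.succ_ne_bot ν)
        exact powOnto_of_enum hF p
  · -- the cardinals
    refine mem_fex_of_mem (kseq κ μ) (down_fand (down_fground _) (down_fand
      (down_fall fun _ => down_fand (down_staysRegular _) (gch_down_coll _ _))
      (down_staysRegular _))) ⟨⟨rfl, kseq_mono hμ hμκ, ?_⟩, fun n => ?_, hregK p⟩
    · rw [iSup_kseq hμ hμκ]
    · match n with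
      | 0 => exact ⟨hregθ p, hcol1 p⟩
      | 1 =>
        refine ⟨hregbig _ (kap_regular hκ.le 0) (kap_strictMono κ (Nat.lt_succ_self 0)) p, ?_⟩
        exact hcol2 p
      | (n + 2) =>
        refine ⟨hregbig _ (kap_regular hκ.le (n + 1)) (kap_strictMono κ (Nat.succ_pos (n + 1))) p,
          gch_ground _ _ (fun ρ hρ => ?_) p⟩
        have h1 : ρ < kap κ (n + 2) := hρ
        rw [kap_succ] at h1
        exact Order.lt_succ_iff.1 h1
  · -- the family
    have hPlam : #(FP κ μ h) ≤ lamOf κ := hPcard.trans (kap_lt_lamOf κ 0).le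
    have hcK : ℵ₀ ≤ Order.succ (lamOf κ) := hlam.trans (Order.le_succ _)
    have hcode : #(K × K × FP κ μ h) ≤ #K := by
      rw [mk_prod, mk_prod (α := K) (β := FP κ μ h)]
      simp only [lift_id]
      rw [hK.card]
      refine (mul_le_mul' le_rfl (mul_le_mul' le_rfl (hPlam.trans (Order.le_succ _)))).trans_eq ?_
      rw [mul_eq_self hcK, mul_eq_self hcK]
    obtain ⟨code⟩ := hcode
    obtain ⟨E, hE⟩ := exists_filtration (K := K) (k := fun n => kap κ (n + 1))
      (fun m n hmn => kap_strictMono κ (Nat.succ_lt_succ hmn)) hK.init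
    obtain ⟨G, hG⟩ := diamond hK (hGCH _ hlam) hE hcore.stat hcore.cof
    obtain ⟨e1⟩ : Nonempty (K ≃ Ix K) := by
      rw [← Cardinal.eq, card_Ix hcK hK.card, hK.card]
    obtain ⟨e2⟩ : Nonempty (K ≃ Pt K) := by
      rw [← Cardinal.eq, card_Pt hcK hK.card, hK.card]
    exact hasBadFamily_of e1 e2 (A := Fam S y code G)
      (fun q => isFamily_fam hcore (card_Pt hcK hK.card) (Equiv.refl _) hregK q)
      (fun Tn q => no_transversal hK hlam0 hh hcore hPlam code.injective hG hregθ Tn q) p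

end

end Pool.Agent.H645
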