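import Mathlib
import Pool.Agent.H645.FamH
import Pool.Agent.H645.Negative

set_option autoImplicit false

/-!
# A model of GCH with families of all sizes without transversals
-/

namespace Pool.Agent.H645.NG

open Cardinal Set Pool.Agent.H645.N
open Pool.Agent.Helper669.Forcing Pool.Agent.Helper669.K Pool.Agent.Helper669.U
  Pool.Agent.Helper669.V
open Pool.Agent.H645 hiding Fam Pt Ix isFamily_fam no_transversal Tg Bn MinT MinT_unique down_MinT
  exists_MinT down_Bn Bn_of_meets fam_line_line fam_line_cross fam_line_num fam_cross_num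
  fam_num_num fam_cross_cross

/-- For every uncountable cardinal `κ ≤ c` of the extension and every `ι ≥ c` there is a family of
`ι` sets of cardinality `κ` with degree of disjunction `ℵ₀` which has no `ℵ₁`-transversal. -/
def ManyBad (P : Type) [Preorder P] (c : Cardinal.{0}) : Set P :=
  fall fun κ : Cardinal.{0} => fall fun _ : ℵ₀ < κ ∧ κ ≤ c => fimp (IsCard P κ)
    (fall fun ι : Cardinal.{0} => fall fun _ : c ≤ ι => NotGood P ι κ ℵ₀)

theorem card_Pt {K Q I : Type} {c : Cardinal.{0}} (hc : ℵ₀ ≤ c) (hK : #K ≤ c) (hQ : #Q ≤ c)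
    (hQ0 : Nonempty Q) (hI : #I = c) : #(Pt K Q I) = c := by
  apply le_antisymm
  · have h1 : #(Pt K Q I) ≤ #(((K × Q) ⊕ (K × Q)) ⊕ ((ℕ × Q) ⊕ (ℕ ⊕ (I × Q)))) :=
      mk_le_of_injective (f := fun u => match u with
      | .pair a b => Sum.inl (Sum.inl (a, b))
      | .pad a b => Sum.inl (Sum.inr (a, b))
      | .fpad n b => Sum.inr (Sum.inl (n, b))
      | .fin n => Sum.inr (Sum.inr (Sum.inl n))
      | .ipad i b => Sum.inr (Sum.inr (Sum.inr (i, b)))) (by
        intro u v huv
        cases u <;> cases v <;> simp at huv <;> simp [huv])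
    refine h1.trans ?_
    simp only [mk_sum, mk_prod, lift_id, mk_nat]
    calc #K * #Q + #K * #Q + (ℵ₀ * #Q + (ℵ₀ + #I * #Q)) ≤ c * c + c * c + (c * c + (c + c * c)) := by
          gcongr
          exact hI.le
      _ = c := by simp only [mul_eq_self hc, add_eq_self hc]
  · obtain ⟨q⟩ := hQ0
    rw [← hI]
    exact mk_le_of_injective (f := fun a => Pt.ipad a q) fun a b hab => by
      injection hab

theorem card_Ix {K I : Type} {c : Cardinal.{0}} (hc : ℵ₀ ≤ c) (hK : #K ≤ c) (hI : #I = c) :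
    #(Ix K I) = c := by
  apply le_antisymm
  · have h1 : #(Ix K I) ≤ #((K ⊕ K) ⊕ (ℕ ⊕ I)) :=
      mk_le_of_injective (f := fun u => match u with
      | .line a => Sum.inl (Sum.inl a)
      | .cross a => Sum.inl (Sum.inr a)
      | .num n => Sum.inr (Sum.inl n)
      | .idx i => Sum.inr (Sum.inr i)) (by
        intro u v huv
        cases u <;> cases v <;> simp at huv <;> simp [huv])
    refine h1.trans ?_
    simp only [mk_sum, lift_id, mk_nat]
    calc #K + #K + (ℵ₀ + #I) ≤ c + c + (c + c) := by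
          gcongr
          exact hI.le
      _ = c := by simp only [add_eq_self hc]
  · rw [← hI]
    exact mk_le_of_injective (f := fun a => Ix.idx a) fun a b hab => by
      injection hab

section

variable {κ μ : Cardinal.{0}}

/-- Families without transversals of all sizes in a generic extension which satisfies GCH. -/
theorem negative_all (hGCH : ∀ ν : Cardinal.{0}, ℵ₀ ≤ ν → 2 ^ ν = Order.succ ν)
    (hκ : ℵ₀ < κ) {W : Ultrafilter (Set (Order.succ (lamOf κ)).ord.ToType)}
    (hW : IsNormalMeasure κ (Order.succ (lamOf κ)).ord.ToType W) :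
    ∃ (P : Type) (_ : Preorder P), Nonempty P ∧ ∃ c : Cardinal.{0}, ∀ p : P,
      p ∈ ForcesGCH P ∧ p ∈ IsAlephOmegaSucc P c ∧ p ∈ ManyBad P c := by
  classical
  set K := (Order.succ (lamOf κ)).ord.ToType with hKdef
  have hlam := aleph0_le_lamOf hκ.le
  have hK : IsSuccType (lamOf κ) K := IsSuccType.toType hlam
  obtain ⟨μ, hμ, hμκ, h, S, y, hh, hcore⟩ := exists_core hGCH hκ hK hW
  have hlam0 := aleph0_le_lamOf hμ
  have hκK : κ ≤ #K := by
    rw [hK.card]
    exact (kap_lt_lamOf κ 0).le.trans (Order.le_succ _)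
  have hκreg : κ.IsRegular := hW.regular hκ hκK
  have hκs : ∀ μ < κ, Order.succ μ < κ := fun μ hμ => hW.succ_lt hκK hμ
  have hκstrong := pow_lt_of_gch hGCH hκ hκs
  have hΘ : IsSuccType (lamOf μ) (Order.succ (lamOf μ)).ord.ToType := IsSuccType.toType hlam0
  have hVle : ∀ n, #((kap μ (n + 1)).ord.ToType) ≤ lamOf μ := fun n => by
    rw [mk_ord_toType]
    exact (kap_lt_lamOf μ _).le
  have hVne : ∀ n, Nonempty (kap μ (n + 1)).ord.ToType := fun n => by
    rw [← mk_ne_zero_iff, mk_ord_toType]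
    exact (kap_regular hμ n).pos.ne'
  have hRcc := RC.cc hΘ hVle hVne hh
  have hRcard : #(RC h) ≤ Order.succ (lamOf μ) := RC.card_le hΘ hVle (hGCH _ hlam0)
  have hCcl : DirClosed (Order.succ (lamOf μ))
      (CC (lamOf μ) (Order.succ (lamOf μ)).ord.ToType κ.ord.ToType) := CC.dirClosed hlam0
  have hCcard : #(CC (lamOf μ) (Order.succ (lamOf μ)).ord.ToType κ.ord.ToType) ≤ κ :=
    CC.card_le hκreg hκstrong ((Order.lt_succ _).trans hμκ)
      (by rw [mk_ord_toType]; exact hμκ.le) (by rw [mk_ord_toType])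
  have hθreg : (Order.succ (lamOf μ)).IsRegular := isRegular_succ hlam0
  have hPcard : #(FP κ μ h) ≤ κ := by
    rw [mk_prod, lift_id, lift_id]
    exact (mul_le_mul' (hRcard.trans hμκ.le) hCcard).trans_eq (mul_eq_self hκ.le)
  have hPcc : ∀ (ι : Type) (f : ι → FP κ μ h), Order.succ κ ≤ #ι →
      ∃ i j, i ≠ j ∧ ∃ r, r ≤ f i ∧ r ≤ f j := cc_of_card (Order.lt_succ_iff.2 hPcard)
  have hregθ : ∀ p : FP κ μ h, p ∈ StaysRegular (FP κ μ h) (Order.succ (lamOf μ)) :=
    staysRegular_prod hθreg hRcc hCcl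
  have hregbig : ∀ ν : Cardinal.{0}, ν.IsRegular → κ < ν → ∀ p : FP κ μ h,
      p ∈ StaysRegular (FP κ μ h) ν := fun ν hν hκν p =>
    staysRegular_of_cc' hν (fun ι f hf => hPcc ι f ((Order.succ_le_of_lt hκν).trans hf)) p
  have hcol1 : ∀ p : FP κ μ h, p ∈ CollapsedTo (FP κ μ h) ℵ₀ (Order.succ (lamOf μ)) := fun p =>
    isProj_fst.collapsed p (RC.collapsed hΘ hVle hVne hh p.1)
  have hcol2 : ∀ p : FP κ μ h, p ∈ CollapsedTo (FP κ μ h) (Order.succ (lamOf μ))
      (Order.succ κ) := fun p =>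
    isProj_snd.collapsed p (CC.collapsed hlam0 (mk_ord_toType _) (mk_ord_toType _) p.2)
  have hregK := hregbig (Order.succ (lamOf κ)) (isRegular_succ hlam)
    ((kap_lt_lamOf κ 0).trans (Order.lt_succ _))
  have hRne : Nonempty (RC h) := ⟨⟨∅, fun n => (hVne n).some, 0⟩⟩
  have hCne : Nonempty (CC (lamOf μ) (Order.succ (lamOf μ)).ord.ToType κ.ord.ToType) :=
    ⟨⟨∅, by simp, by simp⟩⟩
  refine ⟨FP κ μ h, inferInstance, inferInstance, Order.succ (lamOf κ), fun p => ⟨?_, ?_, ?_⟩⟩
  · -- GCH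
    intro ν hν
    have key : ∀ c : Cardinal.{0}, p ∈ PowOnto (FP κ μ h) ν c →
        p ∈ CollapsedTo (FP κ μ h) ν c → p ∈ fex fun c : Cardinal.{0} =>
          fand (PowOnto (FP κ μ h) ν c) (CollapsedTo (FP κ μ h) ν c) :=
      fun c ha hb => mem_fex_of_mem c (down_fand (down_fex _) (gch_down_coll _ _)) ⟨ha, hb⟩
    rcases lt_or_ge ν (Order.succ (lamOf μ)) with c1 | c1
    · have hνle : ν ≤ lamOf μ := Order.lt_succ_iff.1 c1
      refine key (Order.succ (lamOf μ)) ?_ (gch_mono hν (hcol1 p))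
      have hcard : #(ν.ord.ToType → {A : Set (RC h) // #A < Order.succ (lamOf μ)}) ≤
          Order.succ (lamOf μ) := by
        have h1 := card_nice' (Q := RC h) (χ := Order.succ (lamOf μ)) (ν := lamOf μ) hlam0 (by
          rw [hGCH _ hlam0]; exact hRcard) le_rfl
        rw [hGCH _ hlam0] at h1
        refine le_trans ?_ h1
        have h2 : Nonempty {A : Set (RC h) // #A < Order.succ (lamOf μ)} :=
          ⟨⟨∅, by rw [mk_eq_zero]; exact hθreg.pos⟩⟩
        rw [← power_def, ← power_def, mk_ord_toType, mk_ord_toType]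
        exact power_le_power_left (mk_ne_zero _) hνle
      obtain ⟨F, hF⟩ := exists_nice_enum (Q := RC h) (χ := Order.succ (lamOf μ)) (ν := ν)
        (μ := Order.succ (lamOf μ)) hRcc hcard hθreg.pos.ne'
      exact powOnto_prod hθreg hRcc hCcl c1 F hF p
    · rcases lt_or_ge ν (Order.succ κ) with c2 | c2
      · have hνle : ν ≤ κ := Order.lt_succ_iff.1 c2
        refine key (Order.succ κ) ?_ (gch_mono c1 (hcol2 p))
        have hcard : #(ν.ord.ToType → {A : Set (FP κ μ h) // #A < Order.succ κ}) ≤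
            Order.succ κ := by
          have h1 := card_nice' (Q := FP κ μ h) (χ := Order.succ κ) (ν := κ) hκ.le
            (hPcard.trans (cantor κ).le) le_rfl
          rw [hGCH _ hκ.le] at h1
          refine le_trans ?_ h1
          have h2 : Nonempty {A : Set (FP κ μ h) // #A < Order.succ κ} :=
            ⟨⟨∅, by rw [mk_eq_zero]; exact (zero_le).trans_lt (Order.lt_succ κ)⟩⟩
          rw [← power_def, ← power_def, mk_ord_toType, mk_ord_toType]
          exact power_le_power_left (mk_ne_zero _) hνle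
        obtain ⟨F, hF⟩ := exists_nice_enum (Q := FP κ μ h) (χ := Order.succ κ) (ν := ν)
          (μ := Order.succ κ) hPcc hcard (Order.succ_ne_bot κ)
        exact powOnto_of_enum hF p
      · refine key (Order.succ ν) ?_ (gch_ground _ _ (fun ρ hρ => Order.lt_succ_iff.1 hρ) p)
        obtain ⟨F, hF⟩ := exists_nice_enum (Q := FP κ μ h) (χ := Order.succ κ) (ν := ν)
          (μ := Order.succ ν) hPcc (by
            rw [← hGCH ν hν]
            exact card_nice' hν (hPcard.trans (((Order.le_succ κ).trans c2).trans (cantor ν).le))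
              (c2.trans (Order.le_succ ν))) (Order.succ_ne_bot ν)
        exact powOnto_of_enum hF p
  · -- the cardinals
    refine mem_fex_of_mem (kseq κ μ) (down_fand (down_fground _) (down_fand
      (down_fall fun _ => down_fand (down_staysRegular _) (gch_down_coll _ _))
      (down_staysRegular _))) ⟨⟨rfl, kseq_mono hμ hμκ, ?_⟩, fun n => ?_, hregK p⟩
    · rw [iSup_kseq hμ hμκ]
    · match n with
      | 0 => exact ⟨hregθ p, hcol1 p⟩
      | 1 =>
        refine ⟨hregbig _ (kap_regular hκ.le 0) (kap_strictMono κ (Nat.lt_succ_self 0)) p, ?_⟩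
        exact hcol2 p
      | (n + 2) =>
        refine ⟨hregbig _ (kap_regular hκ.le (n + 1)) (kap_strictMono κ (Nat.succ_pos (n + 1))) p,
          gch_ground _ _ (fun ρ hρ => ?_) p⟩
        have h1 : ρ < kap κ (n + 2) := hρ
        rw [kap_succ] at h1
        exact Order.lt_succ_iff.1 h1
  · -- the families
    intro κ' hκ'
    refine mem_fimp.2 fun q _ hcard => ⟨q, le_rfl, fun ι hι => ?_⟩
    have hθκ' : Order.succ (lamOf μ) ≤ κ' := by
      by_contra hcon
      exact hcard ℵ₀ hκ'.1 q le_rfl (cardLe_collapse hcol1 (not_le.1 hcon)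
        (cardLe_of_sub (B := Set.univ) (by rw [mk_univ, mk_ord_toType]) fun _ _ _ _ => mem_univ _))
    have hκ'0 : ℵ₀ ≤ κ' := hκ'.1.le
    have hPlam : #(FP κ μ h) ≤ lamOf κ := hPcard.trans (kap_lt_lamOf κ 0).le
    have hcK : ℵ₀ ≤ Order.succ (lamOf κ) := hlam.trans (Order.le_succ _)
    have hcode : #(K × κ'.ord.ToType × FP κ μ h) ≤ #K := by
      rw [mk_prod, mk_prod (α := κ'.ord.ToType) (β := FP κ μ h)]
      simp only [lift_id]
      rw [hK.card, mk_ord_toType]
      refine (mul_le_mul' le_rfl (mul_le_mul' hκ'.2 (hPlam.trans (Order.le_succ _)))).trans_eq ?_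
      rw [mul_eq_self hcK, mul_eq_self hcK]
    obtain ⟨code⟩ := hcode
    obtain ⟨E, hE⟩ := exists_filtration (K := K) (k := fun n => kap κ (n + 1))
      (fun m n hmn => kap_strictMono κ (Nat.succ_lt_succ hmn)) hK.init
    obtain ⟨G, hG⟩ := diamond hK (hGCH _ hlam) hE hcore.stat hcore.cof
    have hι0 : ℵ₀ ≤ ι := hcK.trans hι
    have hQ0 : Nonempty κ'.ord.ToType := by
      rw [← mk_ne_zero_iff, mk_ord_toType]
      exact (aleph0_pos.trans_le hκ'0).ne'
    obtain ⟨e1⟩ : Nonempty (ι.ord.ToType ≃ Ix K ι.ord.ToType) := by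
      rw [← Cardinal.eq, card_Ix hι0 (hK.card.le.trans hι) (mk_ord_toType _), mk_ord_toType]
    obtain ⟨e2⟩ : Nonempty (ι.ord.ToType ≃ Pt K κ'.ord.ToType ι.ord.ToType) := by
      rw [← Cardinal.eq, card_Pt hι0 (hK.card.le.trans hι)
        ((mk_ord_toType κ').le.trans (hκ'.2.trans hι)) hQ0 (mk_ord_toType _), mk_ord_toType]
    exact notGood_of e1 e2 (A := Fam S y code G)
      (isAD_fam hcore hκ'0 (by rw [mk_ord_toType]; exact hθκ') hcard) (degGe_fam q)
      (fun Tn r => no_transversal hK hlam0 hh hcore hQ0 hPlam code.injective hG hregθ Tn r)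

end

end Pool.Agent.H645.NG
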