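import Mathlib
import Pool.Agent.H645.Sentences
import Pool.Agent.H645.Typical

set_option autoImplicit false

/-!
# Transversals in the extension by a small forcing which makes `ℵ₁` countable
-/

namespace Pool.Agent.H645

open Cardinal Set
open Pool.Agent.Helper669.Forcing Pool.Agent.Helper669.K Pool.Agent.Helper669.U
  Pool.Agent.Helper669.V

section

variable {P : Type} [Preorder P] {K : Type} [LinearOrder K]

/-- the elements which `p` forces into the set `A i` -/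
def FF (A : K → K → Set P) (i : K) (p : P) : Set K := {u | p ∈ meets (A i u)}

/-- compatible conditions below `p0` -/
def Cp (p0 p q : P) : Prop := p ≤ p0 ∧ q ≤ p0 ∧ ∃ r, r ≤ p ∧ r ≤ q

theorem Cp.symm {p0 p q : P} (h : Cp p0 p q) : Cp p0 q p := by
  obtain ⟨h1, h2, r, h3, h4⟩ := h
  exact ⟨h2, h1, r, h4, h3⟩

theorem FF_mono {A : K → K → Set P} {i : K} {p q : P} (h : q ≤ p) : FF A i p ⊆ FF A i q :=
  fun _ hu => down_meets _ _ hu _ h

theorem FF_fin {A : K → K → Set P} {p0 : P} (hA : p0 ∈ IsFamily A) {i j : K} (hij : i ≠ j)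
    {p q : P} (hpq : Cp p0 p q) : (FF A i p ∩ FF A j q).Finite := by
  obtain ⟨h1, h2, r, h3, h4⟩ := hpq
  have h5 := isFin_iff.1 (hA.2.1 i j hij) r (h3.trans h1)
  obtain ⟨r', hr', F, hF⟩ := h5
  refine F.finite_toSet.subset ?_
  rintro u ⟨hu1, hu2⟩
  refine hF u r' le_rfl ?_
  rw [meets_nCap]
  exact ⟨down_meets _ _ hu1 _ (hr'.trans h3), down_meets _ _ hu2 _ (hr'.trans h4)⟩

variable {lam : Cardinal.{0}}

/-- densely many conditions force many elements into `A j` -/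
theorem FF_big (hK : IsSuccType lam K) (hP : #P ≤ lam) {A : K → K → Set P} {p0 : P}
    (hA : p0 ∈ IsFamily A) (j : K) (q : P) (hq : q ≤ p0) : ∃ r ≤ q, lam < #(FF A j r) := by
  classical
  by_contra hcon
  push Not at hcon
  have hne := hK.nonempty
  have h1 : #(⋃ r : {r : P // r ≤ q}, FF A j r.1) ≤ lam :=
    card_iUnion_le hK.inf _ ((mk_subtype_le _).trans hP) fun r => hcon r.1 r.2
  set B : Set K := ⋃ r : {r : P // r ≤ q}, FF A j r.1 with hB
  have h2 : ∃ g : lam.out → K, B ⊆ range g := by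
    have h3 : #B ≤ #(lam.out) := by rw [mk_out]; exact h1
    obtain ⟨e⟩ := h3
    refine ⟨fun z => if h : ∃ b, e b = z then h.choose.1 else hne.some, fun b hb => ?_⟩
    refine ⟨e ⟨b, hb⟩, ?_⟩
    have h4 : ∃ b', e b' = e ⟨b, hb⟩ := ⟨_, rfl⟩
    simp only [dif_pos h4]
    rw [e.injective h4.choose_spec]
  obtain ⟨g, hg⟩ := h2
  have h3 := hA.1 j lam hK.lt q hq
  refine h3 (mem_fex_of_mem (fun z u => fground (g z = u)) (down_fand (down_IsFun _)
    (down_fall fun _ => down_fimp _ _)) ⟨⟨fun z => ?_, fun z u u' => ?_⟩, fun u => ?_⟩)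
  · exact mem_fex_of_mem (g z) (down_meets _) (meets_of_mem rfl)
  · refine mem_fimp.2 ?_
    rintro r _ ⟨h4, h5⟩
    exact ⟨r, le_rfl, (of_meets_fground h4).symm.trans (of_meets_fground h5)⟩
  · refine mem_fimp.2 fun r hr hru => ⟨r, le_rfl, ?_⟩
    obtain ⟨z, hz⟩ := hg (mem_iUnion.2 ⟨⟨r, hr⟩, hru⟩)
    exact mem_fex_of_mem z (down_meets _) (meets_of_mem hz)

/-- the elements chosen at the stages `i` in `E` -/
def TT (E : Set K) (f : K → P → K) : Set K := {u | ∃ i ∈ E, ∃ p, u = f i p}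

/-- `u` is excluded at the stage `j` -/
def Excl (A : K → K → Set P) (p0 : P) (E : K → ℕ → Set K) (f : K → P → K) (j : K) (p : P)
    (u : K) : Prop :=
  (∃ i < j, ∃ p', u = f i p') ∨
    ∃ i ≠ j, ∃ q, Cp p0 p q ∧ u ∈ FF A i q ∧ ∃ n, (FF A i q ∩ TT (E j n) f).Infinite

theorem Excl_congr {A : K → K → Set P} {p0 : P} {E : K → ℕ → Set K} {j : K}
    (hE : ∀ n, E j n ⊆ Iio j) {f g : K → P → K} (h : ∀ i < j, f i = g i) {p : P} {u : K} :
    Excl A p0 E f j p u ↔ Excl A p0 E g j p u := by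
  have h1 : ∀ n, TT (E j n) f = TT (E j n) g := by
    intro n
    ext v
    constructor
    · rintro ⟨i, hi, p, hp⟩
      exact ⟨i, hi, p, by rw [hp, h i (hE n hi)]⟩
    · rintro ⟨i, hi, p, hp⟩
      exact ⟨i, hi, p, by rw [hp, h i (hE n hi)]⟩
  unfold Excl
  simp only [h1]
  refine or_congr_left ⟨?_, ?_⟩
  · rintro ⟨i, hi, p', hp'⟩
    exact ⟨i, hi, p', by rw [hp', h i hi]⟩
  · rintro ⟨i, hi, p', hp'⟩
    exact ⟨i, hi, p', by rw [hp', h i hi]⟩

/-- few elements are excluded -/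
theorem Excl_few (hK : IsSuccType lam K) (hP : #P ≤ lam) {A : K → K → Set P} {p0 : P}
    (hA : p0 ∈ IsFamily A) {E : K → ℕ → Set K} (hE : ∀ j n, #(E j n × P) ^ (ℵ₀ : Cardinal.{0}) ≤ lam)
    (f : K → P → K) (j : K) (p : P) : #{u | u ∈ FF A j p ∧ Excl A p0 E f j p u} ≤ lam := by
  classical
  have hlam := hK.inf
  -- few indices
  have h1 : ∀ (n : ℕ) (q : P), q ≤ p0 → #{i | (FF A i q ∩ TT (E j n) f).Infinite} ≤ lam := by
    intro n q hq
    refine le_trans ?_ (hE j n)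
    have h2 : ∀ i : {i | (FF A i q ∩ TT (E j n) f).Infinite}, ∃ c : ℕ → E j n × P,
        (∀ m, f (c m).1.1 (c m).2 ∈ FF A i.1 q) ∧
          (range fun m => f (c m).1.1 (c m).2).Infinite := by
      rintro ⟨i, hi⟩
      let g := Set.Infinite.natEmbedding _ hi
      have h3 : ∀ m, ∃ z : E j n × P, (g m).1 = f z.1.1 z.2 := by
        intro m
        obtain ⟨i', hi', p', hp'⟩ := (g m).2.2
        exact ⟨(⟨i', hi'⟩, p'), hp'⟩
      choose c hc using h3
      refine ⟨c, fun m => ?_, ?_⟩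
      · rw [← hc m]
        exact (g m).2.1
      · have h4 : (fun m => f (c m).1.1 (c m).2) = fun m => (g m).1 := by
          funext m
          exact (hc m).symm
        rw [h4]
        exact Set.infinite_range_of_injective (Subtype.val_injective.comp g.injective)
    choose c hc1 hc2 using h2
    rw [← mk_nat, power_def]
    refine mk_le_of_injective (f := c) fun i i' hii => ?_
    by_contra hne
    have h3 : i.1 ≠ i'.1 := fun h => hne (Subtype.ext h)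
    have h4 := FF_fin hA h3 (show Cp p0 q q from ⟨hq, hq, q, le_rfl, le_rfl⟩)
    refine hc2 i (h4.subset ?_)
    rintro _ ⟨m, rfl⟩
    refine ⟨hc1 i m, ?_⟩
    have h5 := hc1 i' m
    rw [← hii] at h5
    exact h5
  -- the first kind
  have h2 : #(⋃ z : Iio j × P, ({f z.1.1 z.2} : Set K)) ≤ lam :=
    card_iUnion_le hlam _ (by
      rw [mk_prod, lift_id, lift_id]
      exact (mul_le_mul' (hK.init j) hP).trans_eq (mul_eq_self hlam)) fun z => by
      rw [mk_singleton]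
      exact one_le_aleph0.trans hlam
  -- the second kind
  let J := Σ z : ℕ × P, {i | (FF A i z.2 ∩ TT (E j z.1) f).Infinite ∧ i ≠ j ∧ Cp p0 p z.2}
  have h3 : #J ≤ lam := by
    rw [mk_sigma]
    refine (sum_le_sum _ (fun _ => lam) fun z => ?_).trans ?_
    · by_cases hz : z.2 ≤ p0
      · exact (mk_le_mk_of_subset (fun i hi => hi.1)).trans (h1 z.1 z.2 hz)
      · have h4 : {i | (FF A i z.2 ∩ TT (E j z.1) f).Infinite ∧ i ≠ j ∧ Cp p0 p z.2} = ∅ := by
          ext i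
          simp only [mem_ofPred_eq, mem_empty_iff_false, iff_false]
          rintro ⟨_, _, h5⟩
          exact hz h5.2.1
        rw [h4, mk_eq_zero]
        exact zero_le
    · rw [sum_const, lift_id, lift_id, mk_prod, lift_id, lift_id, mk_nat]
      exact (mul_le_mul' (mul_le_mul' hlam hP) le_rfl).trans_eq
        (by rw [mul_eq_self hlam, mul_eq_self hlam])
  have h4 : #(⋃ z : J, FF A j p ∩ FF A z.2.1 z.1.2) ≤ lam :=
    card_iUnion_le hlam _ h3 fun z => by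
      have h5 := FF_fin hA (Ne.symm z.2.2.2.1) z.2.2.2.2
      exact (lt_aleph0_iff_set_finite.2 h5).le.trans hlam
  refine (mk_le_mk_of_subset (t := (⋃ z : Iio j × P, ({f z.1.1 z.2} : Set K)) ∪
    ⋃ z : J, FF A j p ∩ FF A z.2.1 z.1.2) ?_).trans ((mk_union_le _ _).trans
    ((add_le_add h2 h4).trans_eq (add_eq_self hlam)))
  rintro u ⟨hu, ⟨i, hi, p', hp'⟩ | ⟨i, hij, q, hpq, huq, n, hn⟩⟩
  · exact Or.inl (mem_iUnion.2 ⟨(⟨i, hi⟩, p'), hp'⟩)
  · exact Or.inr (mem_iUnion.2 ⟨⟨(n, q), ⟨i, hn, hij, hpq⟩⟩, hu, huq⟩)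

/-- the recursive choice of the elements -/
theorem exists_choice [WellFoundedLT K] (hK : IsSuccType lam K) (hP : #P ≤ lam)
    {A : K → K → Set P} {p0 : P} (hA : p0 ∈ IsFamily A) {E : K → ℕ → Set K}
    (hE : ∀ j n, #(E j n × P) ^ (ℵ₀ : Cardinal.{0}) ≤ lam) (hE2 : ∀ j n, E j n ⊆ Iio j) :
    ∃ f : K → P → K, ∀ j p, lam < #(FF A j p) → f j p ∈ FF A j p ∧ ¬ Excl A p0 E f j p (f j p) := by
  classical
  have hne := hK.nonempty
  have hstep : ∀ (j : K) (ih : ∀ i, i < j → P → K), ∃ g : P → K, ∀ p, lam < #(FF A j p) →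
      g p ∈ FF A j p ∧ ¬ Excl A p0 E (fun i => if h : i < j then ih i h else fun _ => hne.some)
        j p (g p) := by
    intro j ih
    have h1 : ∀ p, ∃ u, lam < #(FF A j p) → u ∈ FF A j p ∧
        ¬ Excl A p0 E (fun i => if h : i < j then ih i h else fun _ => hne.some) j p u := by
      intro p
      by_cases hp : lam < #(FF A j p)
      · by_contra hcon
        push Not at hcon
        have h2 : FF A j p ⊆ {u | u ∈ FF A j p ∧ Excl A p0 E
            (fun i => if h : i < j then ih i h else fun _ => hne.some) j p u} := by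
          intro u hu
          exact ⟨hu, (hcon u).2 hu⟩
        exact absurd ((mk_le_mk_of_subset h2).trans (Excl_few hK hP hA hE _ j p)) (not_le.2 hp)
      · exact ⟨hne.some, fun h => absurd h hp⟩
    choose g hg using h1
    exact ⟨g, hg⟩
  choose st hst using hstep
  let f : K → P → K := (wellFounded_lt (α := K)).fix st
  have hf : ∀ j, f j = st j fun i _ => f i := fun j => (wellFounded_lt (α := K)).fix_eq st j
  refine ⟨f, fun j p hp => ?_⟩
  have h1 := hst j (fun i _ => f i) p hp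
  rw [← hf j] at h1
  refine ⟨h1.1, fun hex => h1.2 ?_⟩
  refine (Excl_congr (hE2 j) (fun i hi => ?_)).1 hex
  rw [dif_pos hi]

/-- each set of the family contains few of the chosen elements -/
theorem few_chosen [WellFoundedLT K] {A : K → K → Set P} {p0 : P} {E : K → ℕ → Set K}
    (hE3 : ∀ j, ∀ i < j, ∃ n, i ∈ E j n) {f : K → P → K}
    (hf : ∀ j p, lam < #(FF A j p) → f j p ∈ FF A j p ∧ ¬ Excl A p0 E f j p (f j p))
    (j : K) (q : P) :
    #{i | ∃ p, lam < #(FF A i p) ∧ Cp p0 p q ∧ f i p ∈ FF A j q} ≤ ℵ₁ := by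
  classical
  set H : Set K := {i | ∃ p, lam < #(FF A i p) ∧ Cp p0 p q ∧ f i p ∈ FF A j q} with hH
  -- the chosen elements are different
  have hinj : ∀ i i' p p', lam < #(FF A i p) → lam < #(FF A i' p') → f i p = f i' p' → i = i' := by
    intro i i' p p' h1 h2 h3
    rcases lt_trichotomy i i' with h4 | h4 | h4
    · exact absurd (Or.inl ⟨i, h4, p, h3.symm⟩) (hf i' p' h2).2
    · exact h4
    · exact absurd (Or.inl ⟨i', h4, p', h3⟩) (hf i p h1).2
  have hseg : ∀ x : {i // i ∈ H ∧ i ≠ j}, #(Iio x) < ℵ₁ := by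
    rintro ⟨i, hi, hij⟩
    obtain ⟨p, hp1, hp2, hp3⟩ := hi
    have h1 : ∀ n, (FF A j q ∩ TT (E i n) f).Finite := by
      intro n
      by_contra hinf
      exact (hf i p hp1).2 (Or.inr ⟨j, hij.symm, q, hp2, hp3, n, hinf⟩)
    have h2 : (⋃ n, FF A j q ∩ TT (E i n) f).Countable :=
      countable_iUnion fun n => (h1 n).countable
    have h3 : ∀ x : Iio (⟨i, ⟨p, hp1, hp2, hp3⟩, hij⟩ : {i // i ∈ H ∧ i ≠ j}),
        ∃ p', lam < #(FF A x.1.1 p') ∧ f x.1.1 p' ∈ ⋃ n, FF A j q ∩ TT (E i n) f := by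
      rintro ⟨⟨i', ⟨p', hp1', hp2', hp3'⟩, hij'⟩, hlt⟩
      obtain ⟨n, hn⟩ := hE3 i i' hlt
      exact ⟨p', hp1', mem_iUnion.2 ⟨n, hp3', i', hn, p', rfl⟩⟩
    choose p' hp1' hp2' using h3
    have h4 : #(Iio (⟨i, ⟨p, hp1, hp2, hp3⟩, hij⟩ : {i // i ∈ H ∧ i ≠ j})) ≤
        #(⋃ n, FF A j q ∩ TT (E i n) f : Set K) :=
      mk_le_of_injective (f := fun x => (⟨f x.1.1 (p' x), hp2' x⟩ :
        (⋃ n, FF A j q ∩ TT (E i n) f : Set K))) fun x y hxy =>
        Subtype.ext (Subtype.ext (hinj _ _ _ _ (hp1' x) (hp1' y)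
          (congrArg (fun z : (⋃ n, FF A j q ∩ TT (E i n) f : Set K) => z.1) hxy)))
    exact h4.trans_lt ((h2.le_aleph0).trans_lt aleph0_lt_aleph_one)
  have h5 : #{i // i ∈ H ∧ i ≠ j} ≤ ℵ₁ := card_le_of_init hseg
  have h6 : H ⊆ insert j {i | i ∈ H ∧ i ≠ j} := by
    intro i hi
    by_cases hij : i = j
    · exact Or.inl hij
    · exact Or.inr ⟨hi, hij⟩
  refine (mk_le_mk_of_subset h6).trans (mk_insert_le.trans ?_)
  exact (add_le_add h5 (one_le_aleph0.trans (aleph0_le_aleph 1))).trans_eq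
    (add_eq_self (aleph0_le_aleph 1))

/-- ground model sets of size `ℵ₁` become countable -/
theorem ctbl_of_aleph_one (hne : Nonempty K)
    (hcol : ∀ p : P, p ∈ CollapsedTo P ℵ₀ (Order.succ ℵ₁)) {B : Set K} (hB : #B ≤ ℵ₁)
    {C : K → Set P} {p : P} (hC : ∀ u, ∀ q ≤ p, q ∈ meets (C u) → u ∈ B) : p ∈ IsCtbl C := by
  classical
  obtain ⟨u0⟩ := hne
  refine mem_fex.2 fun q hq => ?_
  obtain ⟨r, hr, R, hR1, hR2⟩ := mem_fex.1 (hcol q ℵ₁ (Order.lt_succ _)) q le_rfl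
  obtain ⟨g, hg⟩ : ∃ g : (ℵ₁ : Cardinal.{0}).out → K, B ⊆ range g := by
    have h3 : #B ≤ #(ℵ₁ : Cardinal.{0}).out := by rw [mk_out]; exact hB
    obtain ⟨e⟩ := h3
    refine ⟨fun z => if h : ∃ b, e b = z then h.choose.1 else u0, fun b hb => ?_⟩
    refine ⟨e ⟨b, hb⟩, ?_⟩
    have h4 : ∃ b', e b' = e ⟨b, hb⟩ := ⟨_, rfl⟩
    simp only [dif_pos h4]
    rw [e.injective h4.choose_spec]
  obtain ⟨eN⟩ : Nonempty (ℕ ≃ (ℵ₀ : Cardinal.{0}).ord.ToType) := by
    rw [← Cardinal.eq, mk_ord_toType, mk_nat]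
  let f : ℕ → K → Set P := fun n u => {s | (∃ y, g y = u ∧ s ∈ meets (R (eN n) y)) ∨
    (u = u0 ∧ ∀ y, s ∈ fnot (meets (R (eN n) y)))}
  have huniq : ∀ n, ∀ s ≤ r, ∀ y y', s ∈ meets (R (eN n) y) → s ∈ meets (R (eN n) y') → y = y' := by
    intro n s hs y y' h1 h2
    obtain ⟨t, _, ht⟩ := mem_fimp.1 (hR1 (eN n) y y') s hs ⟨h1, h2⟩
    exact ht
  have hfdown : ∀ n u, Down (f n u) := by
    rintro n u s (⟨y, hy, hs⟩ | ⟨hu, hs⟩) t ht
    · exact Or.inl ⟨y, hy, down_meets _ _ hs _ ht⟩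
    · exact Or.inr ⟨hu, fun y => down_fnot _ _ (hs y) _ ht⟩
  refine ⟨r, hr, f, ⟨fun n => ?_, fun n u u' => ?_⟩, fun u => ?_⟩
  · refine mem_fex.2 fun s hs => ?_
    by_cases h1 : ∃ t ≤ s, ∃ y, t ∈ meets (R (eN n) y)
    · obtain ⟨t, ht, y, hy⟩ := h1
      exact ⟨t, ht, g y, meets_of_mem (Or.inl ⟨y, rfl, hy⟩)⟩
    · exact ⟨s, le_rfl, u0, meets_of_mem (Or.inr ⟨rfl, fun y t ht hty => h1 ⟨t, ht, y, hty⟩⟩)⟩
  · refine mem_fimp.2 ?_
    rintro s hs ⟨h1, h2⟩
    refine ⟨s, le_rfl, ?_⟩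
    obtain ⟨t, ht, htf⟩ := exists_of_meets (hfdown n u) h1
    obtain ⟨t', ht', htf'⟩ := exists_of_meets (hfdown n u') (down_meets _ _ h2 _ ht)
    have htf2 := hfdown n u t htf t' ht'
    have hle : t' ≤ r := (ht'.trans ht).trans hs
    show u = u'
    rcases htf2 with ⟨y, hy, hty⟩ | ⟨hu, hnot⟩
    · rcases htf' with ⟨y', hy', hty'⟩ | ⟨hu', hnot'⟩
      · rw [← hy, ← hy', huniq n t' hle y y' hty hty']
      · exact absurd hty (hnot' y t' le_rfl)
    · rcases htf' with ⟨y', hy', hty'⟩ | ⟨hu', hnot'⟩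
      · exact absurd hty' (hnot y' t' le_rfl)
      · rw [hu, hu']
  · refine mem_fimp.2 fun s hs hsu => ?_
    obtain ⟨y, hy⟩ := hg (hC u s ((hs.trans hr).trans hq) hsu)
    obtain ⟨t, ht, z, hz⟩ := mem_fex.1 (hR2 y) s hs
    refine ⟨t, ht, mem_fex_of_mem (eN.symm z) (down_meets _) (meets_of_mem (Or.inl ⟨y, hy, ?_⟩))⟩
    rw [Equiv.apply_symm_apply]
    exact hz

/-- there is a transversal -/
theorem exists_transversal [WellFoundedLT K] (hK : IsSuccType lam K) (hP : #P ≤ ℵ₁)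
    (hlam : ℵ₁ ≤ lam)
    {A : K → K → Set P} {p0 : P} (hA : p0 ∈ IsFamily A) {E : K → ℕ → Set K}
    (hE : ∀ j n, #(E j n × P) ^ (ℵ₀ : Cardinal.{0}) ≤ lam) (hE2 : ∀ j n, E j n ⊆ Iio j)
    (hE3 : ∀ j, ∀ i < j, ∃ n, i ∈ E j n)
    (hcol : ∀ p : P, p ∈ CollapsedTo P ℵ₀ (Order.succ ℵ₁)) :
    ∃ T : K → Set P, p0 ∈ IsTransversal A T := by
  classical
  obtain ⟨f, hf⟩ := exists_choice hK (hP.trans hlam) hA hE hE2
  refine ⟨fun u => {p | p ≤ p0 ∧ ∃ i, lam < #(FF A i p) ∧ f i p = u}, fun j => ⟨?_, ?_⟩⟩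
  · refine mem_fex.2 fun q hq => ?_
    obtain ⟨r, hr, hr2⟩ := FF_big hK (hP.trans hlam) hA j q hq
    exact ⟨r, hr, f j r, meets_of_mem ⟨hr.trans hq, j, hr2, rfl⟩, (hf j r hr2).1⟩
  · let H : P → Set K := fun q => {i | ∃ p, lam < #(FF A i p) ∧ Cp p0 p q ∧ f i p ∈ FF A j q}
    have hH : ∀ q, #(H q) ≤ ℵ₁ := fun q => few_chosen hE3 hf j q
    refine ctbl_of_aleph_one hK.nonempty hcol (B := ⋃ q : P, ⋃ z : H q × P, {f z.1.1 z.2})
      (card_iUnion_le (aleph0_le_aleph 1) _ hP fun q => card_iUnion_le (aleph0_le_aleph 1) _ (by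
        rw [mk_prod, lift_id, lift_id]
        exact (mul_le_mul' (hH q) hP).trans_eq (mul_eq_self (aleph0_le_aleph 1))) fun z => by
        rw [mk_singleton]
        exact one_le_aleph0.trans (aleph0_le_aleph 1)) ?_
    intro u s hs hsu
    rw [meets_nCap] at hsu
    obtain ⟨r, hr, p, ⟨hp, i, hi, hiu⟩, hrp⟩ := hsu.1 s le_rfl
    have h1 : f i p ∈ FF A j r := by
      rw [hiu]
      exact down_meets _ _ hsu.2 _ hr
    exact mem_iUnion.2 ⟨r, mem_iUnion.2 ⟨(⟨i, p, hi, ⟨hp, hr.trans hs, r, hrp, le_rfl⟩, h1⟩, p),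
      hiu.symm⟩⟩

end

/-! ### The collapse of `ℵ₁` -/

section

/-- finite partial functions from `ℕ` to `X` -/
structure FC (X : Type) where
  g : Finset (ℕ × X)
  fn : ∀ n x x', (n, x) ∈ g → (n, x') ∈ g → x = x'

variable {X : Type}

instance : Preorder (FC X) where
  le p' p := p.g ⊆ p'.g
  le_refl _ := subset_rfl
  le_trans _ _ _ h1 h2 := h2.trans h1

theorem FC.card_le [Infinite X] : #(FC X) ≤ #X := by
  have h1 : #(FC X) ≤ #(Finset (ℕ × X)) := mk_le_of_injective (f := FC.g) fun p q hpq => by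
    cases p; cases q
    simp only at hpq
    subst hpq
    rfl
  refine h1.trans ?_
  rw [mk_finset_of_infinite, mk_prod, lift_id, lift_id, mk_nat, aleph0_mul_eq (infinite_iff.1 ‹_›)]

theorem FC.add (p : FC X) (x : X) : ∃ q ≤ p, ∃ n, (n, x) ∈ q.g := by
  classical
  obtain ⟨n, hn⟩ := Infinite.exists_notMem_finset (p.g.image Prod.fst)
  have hn' : ∀ y, (n, y) ∉ p.g := fun y hy => hn (Finset.mem_image.2 ⟨(n, y), hy, rfl⟩)
  refine ⟨⟨insert (n, x) p.g, ?_⟩, Finset.subset_insert _ _, n, Finset.mem_insert_self _ _⟩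
  intro m y y' h1 h2
  rcases Finset.mem_insert.1 h1 with h1 | h1
  · rcases Finset.mem_insert.1 h2 with h2 | h2
    · rw [Prod.mk.injEq] at h1 h2
      rw [h1.2, h2.2]
    · rw [Prod.mk.injEq] at h1
      rw [h1.1] at h2
      exact absurd h2 (hn' _)
  · rcases Finset.mem_insert.1 h2 with h2 | h2
    · rw [Prod.mk.injEq] at h2
      rw [h2.1] at h1
      exact absurd h1 (hn' _)
    · exact p.fn _ _ _ h1 h2

theorem FC.collapsed (p : FC X) : p ∈ CollapsedTo (FC X) ℵ₀ (Order.succ #X) := by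
  intro ν hν
  have h0 : #ν.out ≤ #X := by
    rw [mk_out]
    exact Order.lt_succ_iff.1 hν
  obtain ⟨e⟩ := h0
  obtain ⟨g⟩ : Nonempty ((ℵ₀ : Cardinal.{0}).ord.ToType ≃ ℕ) := by
    rw [← Cardinal.eq, mk_ord_toType, mk_nat]
  refine mem_fex_of_mem (fun z x => {p : FC X | (g z, e x) ∈ p.g})
    (down_fand (down_fall fun _ => down_fall fun _ => down_fall fun _ =>
    down_fimp _ _) (down_IsOnto _)) ⟨?_, ?_⟩
  · intro z x x'
    refine mem_fimp.2 ?_
    rintro q _ ⟨h1, h2⟩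
    refine ⟨q, le_rfl, ?_⟩
    obtain ⟨r, hr, s, hs, hrs⟩ := h1 q le_rfl
    obtain ⟨r', hr', s', hs', hrs'⟩ := h2 r hr
    have h3 : s.g ⊆ r.g := hrs
    have h4 : r.g ⊆ r'.g := hr'
    have h5 : s'.g ⊆ r'.g := hrs'
    exact e.injective (r'.fn _ _ _ (h4 (h3 hs)) (h5 hs'))
  · intro x
    refine mem_fex.2 fun q _ => ?_
    obtain ⟨r, hr, n, hn⟩ := q.add (e x)
    refine ⟨r, hr, g.symm n, meets_of_mem ?_⟩
    show (g (g.symm n), e x) ∈ r.g
    rw [Equiv.apply_symm_apply]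
    exact hn

end

end Pool.Agent.H645
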