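import Mathlib
import Pool.Agent.H645.Positive
import Pool.Agent.H645.Product

set_option autoImplicit false

/-!
# A model of GCH without bad families
-/

namespace Pool.Agent.H645

open Cardinal Set
open Pool.Agent.Helper669.Forcing Pool.Agent.Helper669.K Pool.Agent.Helper669.U
  Pool.Agent.Helper669.V

section

variable {P : Type} [Preorder P]

theorem powOnto_small (hGCH : ∀ ν : Cardinal.{0}, ℵ₀ ≤ ν → 2 ^ ν = Order.succ ν)
    {κ ν : Cardinal.{0}} (hκ : ℵ₀ ≤ κ) (hP : #P ≤ κ) (hν : ν ≤ κ) (p : P) :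
    p ∈ PowOnto P ν (Order.succ κ) := by
  have hcard : #(ν.ord.ToType → {A : Set P // #A < Order.succ κ}) ≤ Order.succ κ := by
    have h1 := card_nice' (Q := P) (χ := Order.succ κ) (ν := κ) hκ
      (hP.trans (cantor κ).le) le_rfl
    rw [hGCH _ hκ] at h1
    refine le_trans ?_ h1
    have h2 : Nonempty {A : Set P // #A < Order.succ κ} :=
      ⟨⟨∅, by rw [mk_eq_zero]; exact (zero_le).trans_lt (Order.lt_succ κ)⟩⟩
    rw [← power_def, ← power_def, mk_ord_toType, mk_ord_toType]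
    exact power_le_power_left (mk_ne_zero _) hν
  obtain ⟨F, hF⟩ := exists_nice_enum (Q := P) (χ := Order.succ κ) (ν := ν)
    (μ := Order.succ κ) (cc_of_card (Order.lt_succ_iff.2 hP)) hcard (Order.succ_ne_bot κ)
  exact powOnto_of_enum hF p

theorem powOnto_large (hGCH : ∀ ν : Cardinal.{0}, ℵ₀ ≤ ν → 2 ^ ν = Order.succ ν)
    {κ ν : Cardinal.{0}} (hν : ℵ₀ ≤ ν) (hP : #P ≤ κ) (hκν : κ ≤ ν) (p : P) :
    p ∈ PowOnto P ν (Order.succ ν) := by
  obtain ⟨F, hF⟩ := exists_nice_enum (Q := P) (χ := Order.succ κ) (ν := ν)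
    (μ := Order.succ ν) (cc_of_card (Order.lt_succ_iff.2 hP)) (by
      rw [← hGCH ν hν]
      exact card_nice' hν ((hP.trans hκν).trans (cantor ν).le)
        (Order.succ_le_succ hκν)) (Order.succ_ne_bot ν)
  exact powOnto_of_enum hF p

end

/-- the sequence of the first cardinals of the extension -/
noncomputable def kseq' : ℕ → Cardinal.{0}
  | 0 => ℵ₀
  | (n + 1) => kap ℵ₁ (n + 1)

theorem kseq'_mono : StrictMono kseq' := by
  refine strictMono_nat_of_lt_succ fun n => ?_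
  match n with
  | 0 => exact aleph0_lt_aleph_one.trans_le (le_kap ℵ₁ 1)
  | (n + 1) => exact kap_strictMono ℵ₁ (Nat.lt_succ_self (n + 1))

theorem iSup_kseq' : (⨆ n, kseq' n) = lamOf ℵ₁ := by
  apply le_antisymm
  · refine ciSup_le' fun n => ?_
    refine (kseq'_mono.monotone (Nat.le_succ n)).trans ?_
    exact (kap_lt_lamOf ℵ₁ (n + 1)).le
  · refine ciSup_le' fun n => ?_
    exact le_ciSup (f := kseq') bddAbove_of_small (n + 1)

theorem exists_filtration' {K : Type} [LinearOrder K] {k : ℕ → Cardinal.{0}} (hk : StrictMono k)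
    (hK : ∀ a : K, #(Iio a) ≤ ⨆ n, k n) : ∃ E : K → ℕ → Set K,
      (∀ j n, #(E j n) ≤ k n) ∧ (∀ j n, E j n ⊆ Iio j) ∧ ∀ j, ∀ i < j, ∃ n, i ∈ E j n := by
  classical
  have h1 : ∀ δ : K, ∃ r : Iio δ → ℕ, ∀ n, #{a | r a ≤ n} ≤ k n := fun δ =>
    exists_pieces hk (hK δ)
  choose r hr using h1
  refine ⟨fun δ n => {a | ∃ h : a < δ, r δ ⟨a, h⟩ ≤ n}, ?_, ?_, ?_⟩
  · intro δ n
    have h2 : #{a | ∃ h : a < δ, r δ ⟨a, h⟩ ≤ n} ≤ #{a | r δ a ≤ n} :=
      mk_le_of_injective (f := fun a : {a | ∃ h : a < δ, r δ ⟨a, h⟩ ≤ n} =>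
        (⟨⟨a.1, a.2.choose⟩, a.2.choose_spec⟩ : {a | r δ a ≤ n})) fun a b hab =>
        Subtype.ext (congrArg (fun z : {a | r δ a ≤ n} => z.1.1) hab)
    exact h2.trans (hr δ n)
  · rintro δ n a ⟨h1, h2⟩
    exact h1
  · intro δ a ha
    exact ⟨r δ ⟨a, ha⟩, ha, le_rfl⟩

/-- Some forcing preserves GCH and makes all the families of the question have transversals. -/
theorem positive (hGCH : ∀ ν : Cardinal.{0}, ℵ₀ ≤ ν → 2 ^ ν = Order.succ ν) :
    ∃ (P : Type) (_ : Preorder P), Nonempty P ∧ ∃ c : Cardinal.{0}, ∀ p : P,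
      p ∈ ForcesGCH P ∧ p ∈ IsAlephOmegaSucc P c ∧ p ∈ fnot (HasBadFamily P c.ord.ToType) := by
  classical
  have h01 : ℵ₀ ≤ (ℵ₁ : Cardinal.{0}) := aleph0_le_aleph 1
  have hlam := aleph0_le_lamOf h01
  have hXinf : Infinite (ℵ₁ : Cardinal.{0}).ord.ToType := by
    rw [infinite_iff, mk_ord_toType]
    exact h01
  have hP : #(FC (ℵ₁ : Cardinal.{0}).ord.ToType) ≤ ℵ₁ := by
    have h1 := FC.card_le (X := (ℵ₁ : Cardinal.{0}).ord.ToType)
    rwa [mk_ord_toType] at h1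
  have hcol : ∀ p : FC (ℵ₁ : Cardinal.{0}).ord.ToType,
      p ∈ CollapsedTo (FC (ℵ₁ : Cardinal.{0}).ord.ToType) ℵ₀ (Order.succ ℵ₁) := by
    intro p
    have h1 := FC.collapsed p
    rwa [mk_ord_toType] at h1
  have hPcc := cc_of_card (P := FC (ℵ₁ : Cardinal.{0}).ord.ToType) (Order.lt_succ_iff.2 hP)
  have hreg : ∀ ν : Cardinal.{0}, ν.IsRegular → ℵ₁ < ν →
      ∀ p : FC (ℵ₁ : Cardinal.{0}).ord.ToType, p ∈ StaysRegular _ ν := fun ν hν h1 p =>
    staysRegular_of_cc' hν (fun ι f hf => hPcc ι f ((Order.succ_le_of_lt h1).trans hf)) p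
  refine ⟨FC (ℵ₁ : Cardinal.{0}).ord.ToType, inferInstance, ⟨⟨∅, by simp⟩⟩,
    Order.succ (lamOf ℵ₁), fun p => ⟨?_, ?_, ?_⟩⟩
  · intro ν hν
    have key : ∀ c : Cardinal.{0}, p ∈ PowOnto (FC (ℵ₁ : Cardinal.{0}).ord.ToType) ν c →
        p ∈ CollapsedTo (FC (ℵ₁ : Cardinal.{0}).ord.ToType) ν c → p ∈ fex fun c : Cardinal.{0} =>
          fand (PowOnto (FC (ℵ₁ : Cardinal.{0}).ord.ToType) ν c)
            (CollapsedTo (FC (ℵ₁ : Cardinal.{0}).ord.ToType) ν c) :=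
      fun c ha hb => mem_fex_of_mem c (down_fand (down_fex _) (gch_down_coll _ _)) ⟨ha, hb⟩
    rcases lt_or_ge ν (Order.succ ℵ₁) with c1 | c1
    · exact key _ (powOnto_small hGCH h01 hP (Order.lt_succ_iff.1 c1) p) (gch_mono hν (hcol p))
    · exact key _ (powOnto_large hGCH hν hP ((Order.le_succ _).trans c1) p)
        (gch_ground _ _ (fun ρ hρ => Order.lt_succ_iff.1 hρ) p)
  · refine mem_fex_of_mem kseq' (down_fand (down_fground _) (down_fand
      (down_fall fun _ => down_fand (down_staysRegular _) (gch_down_coll _ _))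
      (down_staysRegular _))) ⟨⟨rfl, kseq'_mono, ?_⟩, fun n => ?_,
        hreg _ (isRegular_succ hlam) ((kap_lt_lamOf ℵ₁ 0).trans (Order.lt_succ _)) p⟩
    · rw [iSup_kseq']
    · match n with
      | 0 =>
        refine ⟨hreg _ (kap_regular h01 0) (kap_strictMono ℵ₁ (Nat.lt_succ_self 0)) p, ?_⟩
        exact hcol p
      | (n + 1) =>
        refine ⟨hreg _ (kap_regular h01 (n + 1)) (kap_strictMono ℵ₁ (Nat.succ_pos (n + 1))) p,
          gch_ground _ _ (fun ρ hρ => ?_) p⟩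
        have h1 : ρ < kap ℵ₁ (n + 2) := hρ
        rw [kap_succ] at h1
        exact Order.lt_succ_iff.1 h1
  · intro q _ hq
    obtain ⟨r, _, A, hA, hno⟩ := mem_fex.1 hq q le_rfl
    have hK : IsSuccType (lamOf ℵ₁) (Order.succ (lamOf ℵ₁)).ord.ToType := IsSuccType.toType hlam
    obtain ⟨E, hE1, hE2, hE3⟩ := exists_filtration' (K := (Order.succ (lamOf ℵ₁)).ord.ToType)
      (k := fun n => kap ℵ₁ (n + 1))
      (fun m n hmn => kap_strictMono ℵ₁ (Nat.succ_lt_succ hmn)) hK.init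
    obtain ⟨T, hT⟩ := exists_transversal hK hP ((kap_lt_lamOf ℵ₁ 0).le) hA (E := E)
      (fun j n => by
        have h2 : ℵ₀ ≤ kap ℵ₁ (n + 1) := aleph0_le_kap h01 _
        have h3 : #(E j n × FC (ℵ₁ : Cardinal.{0}).ord.ToType) ≤ kap ℵ₁ (n + 1) := by
          rw [mk_prod, lift_id, lift_id]
          exact (mul_le_mul' (hE1 j n) (hP.trans (le_kap ℵ₁ _))).trans_eq (mul_eq_self h2)
        calc #(E j n × FC (ℵ₁ : Cardinal.{0}).ord.ToType) ^ (ℵ₀ : Cardinal.{0})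
            ≤ kap ℵ₁ (n + 1) ^ (ℵ₀ : Cardinal.{0}) := power_le_power_right h3
          _ ≤ kap ℵ₁ (n + 1) ^ kap ℵ₁ (n + 1) :=
              power_le_power_left (aleph0_pos.trans_le h2).ne' h2
          _ = 2 ^ kap ℵ₁ (n + 1) := power_self_eq h2
          _ = kap ℵ₁ (n + 2) := by rw [hGCH _ h2, kap_succ ℵ₁ (n + 1)]
          _ ≤ lamOf ℵ₁ := (kap_lt_lamOf ℵ₁ _).le) hE2 hE3 hcol
    exact hno r le_rfl (mem_fex_of_mem T (down_IsTransversal _ _) hT)

end Pool.Agent.H645
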