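import Mathlib
import Pool.Agent.H645.PC
import Pool.Agent.H645.PosFinal

set_option autoImplicit false

/-!
# The collapse of `lam⁺` to a regular cardinal `lam`
-/

namespace Pool.Agent.H645.N

open Cardinal Set
open Pool.Agent.Helper669.Forcing Pool.Agent.Helper669.K Pool.Agent.Helper669.U
  Pool.Agent.Helper669.V
open Pool.Agent.H645 (powOnto_small powOnto_large cc_of_card)

/-- partial functions from `lam` to `X` of size less than `lam` -/
structure CL (lam : Cardinal.{0}) (X : Type) where
  f : lam.ord.ToType → Option X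
  small : #{n | f n ≠ none} < lam

section

variable {lam : Cardinal.{0}} {X : Type}

instance : Preorder (CL lam X) where
  le p' p := ∀ n x, p.f n = some x → p'.f n = some x
  le_refl _ := fun _ _ h => h
  le_trans _ _ _ h1 h2 := fun n x h => h1 n x (h2 n x h)

theorem CL.dirClosed (hlam : lam.IsRegular) : DirClosed lam (CL lam X) := by
  classical
  intro D hD _ hdir
  let F : lam.ord.ToType → Option X := fun n =>
    if h : ∃ p ∈ D, ∃ x, p.f n = some x then some h.choose_spec.2.choose else none
  have hF : ∀ p ∈ D, ∀ n x, p.f n = some x → F n = some x := by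
    intro p hp n x hx
    have h : ∃ p ∈ D, ∃ x, p.f n = some x := ⟨p, hp, x, hx⟩
    have h1 : F n = some h.choose_spec.2.choose := dif_pos h
    rw [h1]
    have h2 := h.choose_spec.2.choose_spec
    obtain ⟨r, _, hr1, hr2⟩ := hdir p hp h.choose h.choose_spec.1
    have h3 := hr1 n x hx
    have h4 := hr2 n _ h2
    rw [h3] at h4
    exact h4.symm
  refine ⟨⟨F, ?_⟩, fun a ha => hF a ha⟩
  have h1 : {n | F n ≠ none} ⊆ ⋃ p : D, {n | p.1.f n ≠ none} := by
    intro n hn
    have h2 : ∃ p ∈ D, ∃ x, p.f n = some x := by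
      by_contra hcon
      exact hn (dif_neg hcon)
    obtain ⟨p, hp, x, hx⟩ := h2
    refine mem_iUnion.2 ⟨⟨p, hp⟩, ?_⟩
    show p.f n ≠ none
    rw [hx]
    exact Option.some_ne_none x
  exact (mk_le_mk_of_subset h1).trans_lt ((card_iUnion_lt_iff_forall_of_isRegular hlam hD).2
    fun p => p.1.small)

theorem CL.add (hlam : ℵ₀ ≤ lam) (p : CL lam X) (x : X) : ∃ q ≤ p, ∃ n, q.f n = some x := by
  classical
  have h1 : ∃ n, p.f n = none := by
    by_contra hcon
    push Not at hcon
    have h2 : ({n | p.f n ≠ none} : Set lam.ord.ToType) = Set.univ := eq_univ_of_forall hcon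
    have h3 := p.small
    rw [h2, mk_univ, mk_ord_toType] at h3
    exact lt_irrefl _ h3
  obtain ⟨n, hn⟩ := h1
  refine ⟨⟨Function.update p.f n (some x), ?_⟩, ?_, n, Function.update_self _ _ _⟩
  · have h2 : {m | Function.update p.f n (some x) m ≠ none} ⊆ insert n {m | p.f m ≠ none} := by
      intro m hm
      by_cases h : m = n
      · exact Or.inl h
      · have h3 : Function.update p.f n (some x) m ≠ none := hm
        rw [Function.update_of_ne h] at h3
        exact Or.inr h3
    exact (mk_le_mk_of_subset h2).trans_lt (mk_insert_le.trans_lt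
      (add_lt_of_lt hlam p.small (one_lt_aleph0.trans_le hlam)))
  · intro m y hy
    show Function.update p.f n (some x) m = some y
    rw [Function.update_of_ne]
    · exact hy
    · rintro rfl
      rw [hn] at hy
      exact Option.some_ne_none y hy.symm

theorem CL.card_le (hGCH : ∀ ν : Cardinal.{0}, ℵ₀ ≤ ν → 2 ^ ν = Order.succ ν) (hlam : ℵ₀ ≤ lam)
    (hX : #X ≤ Order.succ lam) : #(CL lam X) ≤ Order.succ lam := by
  have h1 : #(CL lam X) ≤ #(lam.ord.ToType → Option X) := mk_le_of_injective (f := CL.f)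
    fun p q hpq => by
      cases p; cases q
      simp only at hpq
      subst hpq
      rfl
  refine h1.trans ?_
  have h2 : #(Option X) ≤ 2 ^ lam := by
    rw [mk_option, hGCH lam hlam]
    exact (add_le_add hX (one_le_aleph0.trans (hlam.trans (Order.le_succ _)))).trans_eq
      (add_eq_self (hlam.trans (Order.le_succ _)))
  rw [← power_def, mk_ord_toType, ← hGCH lam hlam]
  refine (power_le_power_right h2).trans ?_
  rw [← power_mul, mul_eq_self hlam]

theorem CL.collapsed (hlam : ℵ₀ ≤ lam) (p : CL lam X) :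
    p ∈ CollapsedTo (CL lam X) lam (Order.succ #X) := by
  intro ν hν
  have h0 : #ν.out ≤ #X := by
    rw [mk_out]
    exact Order.lt_succ_iff.1 hν
  obtain ⟨e⟩ := h0
  refine mem_fex_of_mem (fun z x => {p : CL lam X | p.f z = some (e x)})
    (down_fand (down_fall fun _ => down_fall fun _ => down_fall fun _ =>
    down_fimp _ _) (down_IsOnto _)) ⟨?_, ?_⟩
  · intro z x x'
    refine mem_fimp.2 ?_
    rintro q _ ⟨h1, h2⟩
    refine ⟨q, le_rfl, ?_⟩
    obtain ⟨r, hr, s, hs, hrs⟩ := h1 q le_rfl
    obtain ⟨r', hr', s', hs', hrs'⟩ := h2 r hr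
    have h3 : r'.f z = some (e x) := hr' _ _ (hrs _ _ hs)
    have h4 : r'.f z = some (e x') := hrs' _ _ hs'
    rw [h3] at h4
    exact e.injective (Option.some_injective _ h4)
  · intro x
    refine mem_fex.2 fun q _ => ?_
    obtain ⟨r, hr, n, hn⟩ := q.add hlam (e x)
    exact ⟨r, hr, n, meets_of_mem hn⟩

end

section

variable {P : Type} [Preorder P] {lam : Cardinal.{0}}

/-- closure keeps `lam` regular -/
theorem staysRegular_closed (hlam : lam.IsRegular) (hcl : DirClosed lam P) (p : P) :
    p ∈ StaysRegular P lam := by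
  classical
  intro ν hν R
  refine mem_fimp.2 fun q _ hR => ?_
  obtain ⟨r, hr, hD⟩ := exists_forall_mem hlam.aleph0_le hcl (N := ν.out)
    (by rw [mk_out]; exact hν) (fun x => {s | (∃ y, s ∈ meets (R x y)) ∨ ∀ u ≤ s, ¬ u ≤ q})
    (by
      rintro x s (⟨y, hy⟩ | h) t ht
      · exact Or.inl ⟨y, down_meets _ _ hy _ ht⟩
      · exact Or.inr fun u hu => h u (hu.trans ht))
    (by
      intro x s
      by_cases h : ∀ u ≤ s, ¬ u ≤ q
      · exact ⟨s, le_rfl, Or.inr h⟩
      · push Not at h
        obtain ⟨u, hu, huq⟩ := h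
        obtain ⟨v, hv, y, hy⟩ := IsFun.total (down_IsFun R _ hR _ huq) x
        exact ⟨v, hv.trans hu, Or.inl ⟨y, hy⟩⟩) q
  have h1 : ∀ x, ∃ y, r ∈ meets (R x y) := by
    intro x
    rcases hD x with h | h
    · exact h
    · exact absurd hr (h r le_rfl)
  choose y hy using h1
  obtain ⟨b, hb⟩ := toType_bdd hlam (range y) (mk_range_le.trans_lt (by rw [mk_out]; exact hν))
  refine ⟨r, hr, mem_fex_of_mem b (down_fall fun _ => down_fall fun _ => down_fimp _ _)
    fun x z => mem_fimp.2 fun s hs hsz => ⟨s, le_rfl, ?_⟩⟩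
  have h2 : z = y x := IsFun.unique (down_IsFun R _ hR _ (hs.trans hr)) hsz
    (down_meets _ _ (hy x) _ hs)
  show z < b
  rw [h2]
  exact hb _ ⟨x, rfl⟩

end

/-- **A model of GCH in which all families have `lam⁺`-transversals.** -/
theorem positive_all (hGCH : ∀ ν : Cardinal.{0}, ℵ₀ ≤ ν → 2 ^ ν = Order.succ ν)
    {lam : Cardinal.{0}} (hlam : lam.IsRegular) :
    ∃ (P : Type) (_ : Preorder P), Nonempty P ∧ ∀ p : P,
      p ∈ ForcesGCH P ∧ p ∈ StaysRegular P lam ∧ p ∈ AllGood P lam := by
  classical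
  have hl := hlam.aleph0_le
  have hl' : ℵ₀ ≤ Order.succ lam := hl.trans (Order.le_succ _)
  have hcl : DirClosed lam (CL lam (Order.succ lam).ord.ToType) := CL.dirClosed hlam
  have hP : #(CL lam (Order.succ lam).ord.ToType) ≤ Order.succ lam :=
    CL.card_le hGCH hl (mk_ord_toType _).le
  have hcol : ∀ p : CL lam (Order.succ lam).ord.ToType,
      p ∈ CollapsedTo (CL lam (Order.succ lam).ord.ToType) lam (Order.succ (Order.succ lam)) := by
    intro p
    have h1 := CL.collapsed hl p
    rwa [mk_ord_toType] at h1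
  refine ⟨CL lam (Order.succ lam).ord.ToType, inferInstance, ⟨⟨fun _ => none, ?_⟩⟩,
    fun p => ⟨?_, staysRegular_closed hlam hcl p, allGood_of hGCH hl hcl hP hcol p⟩⟩
  · have h1 : {n : lam.ord.ToType | (none : Option (Order.succ lam).ord.ToType) ≠ none} = ∅ := by
      ext n
      simp
    rw [h1, mk_eq_zero]
    exact hlam.pos
  · intro ν hν
    have key : ∀ c : Cardinal.{0}, p ∈ PowOnto (CL lam (Order.succ lam).ord.ToType) ν c →
        p ∈ CollapsedTo (CL lam (Order.succ lam).ord.ToType) ν c → p ∈ fex fun c : Cardinal.{0} =>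
          fand (PowOnto (CL lam (Order.succ lam).ord.ToType) ν c)
            (CollapsedTo (CL lam (Order.succ lam).ord.ToType) ν c) :=
      fun c ha hb => mem_fex_of_mem c (down_fand (down_fex _) (gch_down_coll _ _)) ⟨ha, hb⟩
    rcases lt_or_ge ν lam with c0 | c0
    · refine key (Order.succ ν) (powOnto_of_dirClosed hl hcl c0 (hGCH ν hν).le p) ?_
      exact gch_ground _ _ (fun ρ hρ => Order.lt_succ_iff.1 hρ) p
    · rcases lt_or_ge ν (Order.succ (Order.succ lam)) with c1 | c1
      · exact key _ (powOnto_small hGCH hl' hP (Order.lt_succ_iff.1 c1) p) (gch_mono c0 (hcol p))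
      · exact key _ (powOnto_large hGCH hν hP ((Order.le_succ _).trans c1) p)
          (gch_ground _ _ (fun ρ hρ => Order.lt_succ_iff.1 hρ) p)

end Pool.Agent.H645.N
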