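import Mathlib
import Pool.Agent.H645.TD

set_option autoImplicit false

/-!
# Families without transversals from the principle `Bad`
-/

namespace Pool.Agent.H645.T

open Cardinal Set

universe u

section

variable {lam κ η ι : Cardinal.{u}}

theorem exists_filtration_unif (hη : ℵ₀ ≤ η) :
    ∃ (E : (Order.succ η).ord.ToType → η.ord.cof.ord.ToType → Set (Order.succ η).ord.ToType)
      (ν : η.ord.cof.ord.ToType → Cardinal.{u}),
      IsFiltration η E ∧ (∀ m, ν m < η) ∧ ∀ δ m, #(E δ m) ≤ ν m := by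
  classical
  have hK : IsSuccType η (Order.succ η).ord.ToType := IsSuccType.toType hη
  obtain ⟨s, hs, hs'⟩ := Ordinal.exists_ord_cof_eq η.ord.ToType
  rw [Ordinal.cof_toType, ← Ordinal.type_toType η.ord.cof.ord] at hs'
  obtain ⟨f⟩ := Ordinal.type_eq.1 hs'
  let c : η.ord.cof.ord.ToType → η.ord.ToType := fun m => (f.symm m).1
  have hc1 : ∀ m n, m ≤ n → c m ≤ c n := by
    intro m n hmn
    rcases hmn.eq_or_lt with rfl | h
    · exact le_rfl
    · exact (f.symm.map_rel_iff.2 h).le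
  have hc2 : ∀ b, ∃ m, b ≤ c m := by
    intro b
    obtain ⟨a, ha, hb⟩ := hs b
    refine ⟨f ⟨a, ha⟩, ?_⟩
    show b ≤ (f.symm (f ⟨a, ha⟩)).1
    rw [f.symm_apply_apply]
    exact hb
  have he : ∀ y : (Order.succ η).ord.ToType, ∃ e : Iio y → η.ord.ToType, Function.Injective e := by
    intro y
    have h1 : #(Iio y) ≤ #(η.ord.ToType) := by
      rw [mk_ord_toType]
      exact hK.init y
    obtain ⟨e⟩ := h1
    exact ⟨e, e.injective⟩
  choose e he using he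
  have hc3 : ∀ δ m, #{a | ∃ h : a < δ, e δ ⟨a, h⟩ ≤ c m} ≤ #(Iic (c m)) := by
    intro δ m
    refine mk_le_of_injective (f := fun a : {a | ∃ h : a < δ, e δ ⟨a, h⟩ ≤ c m} =>
      (⟨e δ ⟨a.1, a.2.1⟩, a.2.2⟩ : (Iic (c m) : Set η.ord.ToType))) fun a a' h => ?_
    have h2 := he δ (congrArg (fun z : (Iic (c m) : Set η.ord.ToType) => z.1) h)
    exact Subtype.ext (congrArg (fun z : Iio δ => z.1) h2)
  have hc4 : ∀ m, #(Iic (c m)) < η := by
    intro m
    have : (Iic (c m) : Set η.ord.ToType) = insert (c m) (Iio (c m)) := by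
      ext x; simp [le_iff_eq_or_lt]
    rw [this]
    exact mk_insert_le.trans_lt (add_lt_of_lt hη (card_Iio_toType _) (one_lt_aleph0.trans_le hη))
  refine ⟨fun δ m => {a | ∃ h : a < δ, e δ ⟨a, h⟩ ≤ c m}, fun m => #(Iic (c m)),
    ⟨fun δ m => (hc3 δ m).trans_lt (hc4 m), ?_, ?_⟩, hc4, hc3⟩
  · rintro δ m n hmn a ⟨h, ha⟩
    exact ⟨h, ha.trans (hc1 m n hmn)⟩
  · intro δ a ha
    obtain ⟨m, hm⟩ := hc2 (e δ ⟨a, ha⟩)
    exact ⟨m, ha, hm⟩

theorem exists_filtration (hη : ℵ₀ ≤ η) :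
    ∃ E : (Order.succ η).ord.ToType → η.ord.cof.ord.ToType → Set (Order.succ η).ord.ToType,
      IsFiltration η E := by
  obtain ⟨E, _, h, _⟩ := exists_filtration_unif hη
  exact ⟨E, h⟩

/-- a column of a product -/
def Col (P Q : Type u) (p : P) : Set (P × Q) := {x | x.1 = p}

theorem card_Col {P Q : Type u} (p : P) : #(Col P Q p) = #Q := by
  refine Cardinal.eq.2 ⟨⟨fun x => x.1.2, fun q => ⟨(p, q), rfl⟩, ?_, fun q => rfl⟩⟩
  rintro ⟨⟨a, q⟩, h⟩
  have h' : a = p := h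
  subst h'
  rfl

/-- the family without transversals -/
theorem exists_bad_family (hGCH : ∀ ν : Cardinal.{u}, ℵ₀ ≤ ν → 2 ^ ν = Order.succ ν)
    (hl : ℵ₀ ≤ lam) (hlk : lam < κ) (hlη : lam < η) (hκη : κ ≤ Order.succ η)
    (hcof : η.ord.cof = lam.ord.cof) (hB : Bad η lam) :
    ∃ (J X : Type u) (A : J → Set X), #J ≤ Order.succ η ∧ (∀ j, #(A j) = κ) ∧ AD lam A ∧
      ¬ HasTr lam A := by
  classical
  have hη : ℵ₀ ≤ η := hl.trans hlη.le
  have hκ : ℵ₀ ≤ κ := hl.trans hlk.le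
  have hK : IsSuccType η (Order.succ η).ord.ToType := IsSuccType.toType hη
  obtain ⟨S0, G, hS0, hG1, hG2⟩ := hB
  obtain ⟨S, hSS, hS, hS2⟩ := bad_restrict hGCH hl hlη ((stat_iff hK).2 hS0) hG1 hG2
  obtain ⟨E, hE⟩ := exists_filtration hη
  have hM : #(η.ord.cof.ord.ToType) ≤ lam := by
    rw [mk_ord_toType, hcof]
    exact Ordinal.cof_ord_le lam
  obtain ⟨D, hD⟩ := diamond hK (hGCH η hη) (hM.trans hlη.le) hE hS
    fun δ hδ c hc => hS2 δ hδ _ hM c hc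
  let K := (Order.succ η).ord.ToType
  let Q := κ.ord.ToType
  have hQ : #Q = κ := mk_ord_toType κ
  have hcode : #(K × Q) ≤ #K := by
    rw [mk_prod, lift_id, lift_id, hQ, mk_ord_toType]
    exact (mul_le_mul' le_rfl hκη).trans_eq (mul_eq_self (hη.trans (Order.le_succ η)))
  obtain ⟨cd⟩ := hcode
  let U : K → Set (K × Q) := fun δ => {p | cd p ∈ D δ ∧ cd p < δ}
  let B : K → Set (K × Q) := fun δ => {p | p.1 ∈ G δ ∧ p ∈ U δ ∧ ∀ q < p.2, (p.1, q) ∉ U δ}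
  have hBinj : ∀ δ, ∀ p ∈ B δ, ∀ p' ∈ B δ, p.1 = p'.1 → p = p' := by
    rintro δ ⟨a, q⟩ ⟨_, h1, h2⟩ ⟨a', q'⟩ ⟨_, h1', h2'⟩ h
    obtain rfl : a = a' := h
    rcases lt_trichotomy q q' with h | h | h
    · exact absurd h1 (h2' q h)
    · rw [h]
    · exact absurd h1' (h2 q' h)
  have hBcard : ∀ δ : S, #(B δ.1) ≤ κ := by
    intro δ
    refine le_trans (mk_le_of_injective (f := fun p : B δ.1 => (⟨p.1.1, p.2.1⟩ : G δ.1))
      fun p p' h => Subtype.ext (hBinj δ.1 _ p.2 _ p'.2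
        (congrArg (fun z : G δ.1 => z.1) h))) ?_
    rw [(hG1 δ.1 (hSS δ.2)).2]
    exact Order.succ_le_of_lt hlk
  refine ⟨K ⊕ S, (K × Q) ⊕ (S × Q), Sum.elim (fun a => Sum.inl '' Col K Q a)
    (fun δ => Sum.inl '' B δ.1 ∪ Sum.inr '' Col S Q δ), ?_, ?_, ?_, ?_⟩
  · rw [mk_sum, lift_id, lift_id]
    refine (add_le_add (le_of_eq (mk_ord_toType _)) ((mk_set_le S).trans_eq
      (mk_ord_toType _))).trans_eq (add_eq_self (hη.trans (Order.le_succ η)))
  · rintro (a | δ)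
    · show #(Sum.inl '' Col K Q a : Set ((K × Q) ⊕ (S × Q))) = κ
      rw [mk_image_eq Sum.inl_injective, card_Col, hQ]
    · show #(Sum.inl '' B δ.1 ∪ Sum.inr '' Col S Q δ : Set ((K × Q) ⊕ (S × Q))) = κ
      apply le_antisymm
      · refine (mk_union_le _ _).trans ?_
        rw [mk_image_eq Sum.inl_injective, mk_image_eq Sum.inr_injective, card_Col, hQ]
        exact (add_le_add (hBcard δ) le_rfl).trans_eq (add_eq_self hκ)
      · refine le_trans ?_ (mk_le_mk_of_subset subset_union_right)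
        rw [mk_image_eq Sum.inr_injective, card_Col, hQ]
  · have hlp : 0 < lam := aleph0_pos.trans_le hl
    have hmix : ∀ (a : K) (δ : S), #(Sum.inl '' Col K Q a ∩ (Sum.inl '' B δ.1 ∪
        Sum.inr '' Col S Q δ) : Set ((K × Q) ⊕ (S × Q))) < lam := by
      intro a δ
      refine lt_of_le_of_lt ?_ (one_lt_aleph0.trans_le hl)
      rw [mk_le_one_iff_set_subsingleton]
      rintro _ ⟨⟨p, hp, rfl⟩, h⟩ _ ⟨⟨p', hp', rfl⟩, h'⟩
      have h1 : p ∈ B δ.1 := by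
        rcases h with ⟨q, hq, hqp⟩ | ⟨q, _, hqp⟩
        · rw [← Sum.inl_injective hqp]
          exact hq
        · exact absurd hqp Sum.inr_ne_inl
      have h2 : p' ∈ B δ.1 := by
        rcases h' with ⟨q, hq, hqp⟩ | ⟨q, _, hqp⟩
        · rw [← Sum.inl_injective hqp]
          exact hq
        · exact absurd hqp Sum.inr_ne_inl
      rw [hBinj δ.1 p h1 p' h2 (Eq.trans hp (Eq.symm hp'))]
    rintro (a | δ) (a' | δ') hne
    · show #(Sum.inl '' Col K Q a ∩ Sum.inl '' Col K Q a' :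
        Set ((K × Q) ⊕ (S × Q))) < lam
      have h1 : (Sum.inl '' Col K Q a ∩ Sum.inl '' Col K Q a' :
          Set ((K × Q) ⊕ (S × Q))) = ∅ := by
        rw [← image_inter Sum.inl_injective]
        refine image_eq_empty.2 (eq_empty_of_forall_notMem ?_)
        rintro p ⟨h1, h2⟩
        exact hne (congrArg Sum.inl (Eq.trans (Eq.symm h1) h2))
      rw [h1, mk_eq_zero]
      exact hlp
    · exact hmix a δ'
    · have := hmix a' δ
      rwa [inter_comm] at this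
    · show #((Sum.inl '' B δ.1 ∪ Sum.inr '' Col S Q δ) ∩
        (Sum.inl '' B δ'.1 ∪ Sum.inr '' Col S Q δ') : Set ((K × Q) ⊕ (S × Q))) < lam
      have hne' : δ ≠ δ' := fun h => hne (by rw [h])
      have h1 : ((Sum.inl '' B δ.1 ∪ Sum.inr '' Col S Q δ) ∩
          (Sum.inl '' B δ'.1 ∪ Sum.inr '' Col S Q δ') : Set ((K × Q) ⊕ (S × Q))) ⊆
          Sum.inl '' (B δ.1 ∩ B δ'.1) := by
        rintro _ ⟨⟨p, hp, rfl⟩ | ⟨p, hp, rfl⟩, ⟨p', hp', h⟩ | ⟨p', hp', h⟩⟩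
        · exact ⟨p, ⟨hp, by rw [← Sum.inl_injective h]; exact hp'⟩, rfl⟩
        · exact absurd h Sum.inr_ne_inl
        · exact absurd h Sum.inl_ne_inr
        · rw [Sum.inr_injective h] at hp'
          exact absurd (Eq.trans (Eq.symm hp) hp') hne'
      refine (mk_le_mk_of_subset h1).trans_lt ?_
      rw [mk_image_eq Sum.inl_injective]
      refine lt_of_le_of_lt ?_ (hG2 δ.1 (hSS δ.2) δ'.1 (hSS δ'.2) fun h => hne' (Subtype.ext h))
      exact mk_le_of_injective (f := fun p : (B δ.1 ∩ B δ'.1 : Set (K × Q)) =>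
        (⟨p.1.1, p.2.1.1, p.2.2.1⟩ : (G δ.1 ∩ G δ'.1 : Set K))) fun p p' h =>
          Subtype.ext (hBinj δ.1 _ p.2.1 _ p'.2.1
            (congrArg (fun z : (G δ.1 ∩ G δ'.1 : Set K) => z.1) h))
  · rintro ⟨T, hT⟩
    let T0 : Set (K × Q) := Sum.inl ⁻¹' T
    have h1 : ∀ a : K, ∃ q : Q, (a, q) ∈ T0 ∧ ∀ q' < q, (a, q') ∉ T0 := by
      intro a
      obtain ⟨_, hx, ⟨b, q⟩, hb, rfl⟩ := (hT (Sum.inl a)).1
      obtain rfl : b = a := hb
      obtain ⟨q0, hq0, hmin⟩ := (wellFounded_lt (α := Q)).has_min {q | (b, q) ∈ T0} ⟨q, hx⟩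
      exact ⟨q0, hq0, fun q' hq' h => hmin q' h hq'⟩
    choose γ hγ1 hγ2 using h1
    obtain ⟨δ, ⟨hδS, hδ⟩, _, hcl⟩ := hD (cd '' T0) fun a => cd (a, γ a)
    have hU : ∀ p, p ∈ U δ → p ∈ T0 := by
      rintro p ⟨hp1, hp2⟩
      obtain ⟨p', hp', h⟩ := (hδ _ hp2).1 hp1
      rw [← cd.injective h]
      exact hp'
    have hBT : ∀ a ∈ G δ, (a, γ a) ∈ B δ := by
      intro a ha
      have h2 : cd (a, γ a) < δ := hcl a ((hG1 δ (hSS hδS)).1 ha)
      exact ⟨ha, ⟨(hδ _ h2).2 ⟨_, hγ1 a, rfl⟩, h2⟩, fun q hq h => hγ2 a q hq (hU _ h)⟩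
    have h2 := (hT (Sum.inr ⟨δ, hδS⟩)).2
    have h3 : #(G δ) ≤ lam := by
      refine le_trans ?_ h2
      refine mk_le_of_injective (f := fun a : G δ => (⟨Sum.inl (a.1, γ a.1), hγ1 a.1,
        Or.inl ⟨_, hBT a.1 a.2, rfl⟩⟩ : (T ∩ (Sum.inl '' B δ ∪ Sum.inr '' Col S Q ⟨δ, hδS⟩) :
      Set ((K × Q) ⊕ (S × Q))))) fun a a' h => ?_
      have h4 := Sum.inl_injective (congrArg Subtype.val h)
      exact Subtype.ext (congrArg Prod.fst h4)
    rw [(hG1 δ (hSS hδS)).2] at h3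
    exact absurd h3 (not_le.2 (Order.lt_succ lam))

end

end Pool.Agent.H645.T
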