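import Mathlib
import Pool.Agent.H645.TE

set_option autoImplicit false

/-!
# Determination of the good cardinals
-/

namespace Pool.Agent.H645.T

open Cardinal Set

universe u

/-- the degree of disjunction of a family of sets -/
noncomputable def degree {X : Type u} (𝒜 : Set (Set X)) : Cardinal.{u} :=
  sInf {d | ∀ A ∈ 𝒜, ∀ B ∈ 𝒜, A ≠ B → #(A ∩ B : Set X) < d}

/-- `θ`-transversals -/
def IsTransversal {X : Type u} (θ : Cardinal.{u}) (𝒜 : Set (Set X)) (T : Set X) : Prop :=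
  ∀ A ∈ 𝒜, (T ∩ A).Nonempty ∧ #(T ∩ A : Set X) < θ

/-- `ι` is good for `(κ, lam)` -/
def Good (ι κ lam : Cardinal.{u}) : Prop :=
  ∀ (X : Type u) (𝒜 : Set (Set X)), #𝒜 = ι → (∀ A ∈ 𝒜, #A = κ) → degree 𝒜 = lam →
    ∃ T, IsTransversal (Order.succ lam) 𝒜 T

section

variable {lam κ η ι : Cardinal.{u}}

/-- disjoint sums of families -/
def SumF {J J' X X' : Type u} (A : J → Set X) (B : J' → Set X') : J ⊕ J' → Set (X ⊕ X') :=
  Sum.elim (fun j => Sum.inl '' A j) (fun j => Sum.inr '' B j)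

theorem AD.sum {J J' X X' : Type u} (hl : ℵ₀ ≤ lam) {A : J → Set X} {B : J' → Set X'}
    (hA : AD lam A) (hB : AD lam B) : AD lam (SumF A B) := by
  have hmix : ∀ i j, #(Sum.inl '' A i ∩ Sum.inr '' B j : Set (X ⊕ X')) < lam := by
    intro i j
    have h1 : (Sum.inl '' A i ∩ Sum.inr '' B j : Set (X ⊕ X')) = ∅ := by
      refine eq_empty_of_forall_notMem ?_
      rintro _ ⟨⟨p, _, rfl⟩, q, _, h⟩
      exact Sum.inr_ne_inl h
    rw [h1, mk_eq_zero]
    exact aleph0_pos.trans_le hl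
  rintro (i | i) (j | j) hne
  · show #(Sum.inl '' A i ∩ Sum.inl '' A j : Set (X ⊕ X')) < lam
    rw [← image_inter Sum.inl_injective, mk_image_eq Sum.inl_injective]
    exact hA i j fun h => hne (by rw [h])
  · exact hmix i j
  · have := hmix j i
    rwa [inter_comm] at this
  · show #(Sum.inr '' B i ∩ Sum.inr '' B j : Set (X ⊕ X')) < lam
    rw [← image_inter Sum.inr_injective, mk_image_eq Sum.inr_injective]
    exact hB i j fun h => hne (by rw [h])

theorem HasTr.of_sum {J J' X X' : Type u} {A : J → Set X} {B : J' → Set X'}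
    (h : HasTr lam (SumF A B)) : HasTr lam A := by
  obtain ⟨T, hT⟩ := h
  refine ⟨Sum.inl ⁻¹' T, fun j => ?_⟩
  obtain ⟨⟨_, hx, x, hxA, rfl⟩, h2⟩ := hT (Sum.inl j)
  refine ⟨⟨x, hx, hxA⟩, le_trans ?_ h2⟩
  exact mk_le_of_injective (f := fun x : (Sum.inl ⁻¹' T ∩ A j : Set X) =>
    (⟨Sum.inl x.1, x.2.1, x.1, x.2.2, rfl⟩ : (T ∩ Sum.inl '' A j : Set (X ⊕ X'))))
    fun a b hab => Subtype.ext (Sum.inl_injective (congrArg Subtype.val hab))

/-- pairs of sets with prescribed intersections -/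
def Prs (L Q : Type u) [LT L] (p : L × ULift.{u} Bool) :
    Set ((L × L) ⊕ ((L × ULift.{u} Bool) × Q)) :=
  Sum.inl '' {x | x.1 = p.1 ∧ x.2 < p.1} ∪ Sum.inr '' Col (L × ULift.{u} Bool) Q p

theorem card_seg {L : Type u} [LinearOrder L] (a : L) : #{x : L × L | x.1 = a ∧ x.2 < a} =
    #(Iio a) := by
  refine Cardinal.eq.2 ⟨⟨fun x => ⟨x.1.2, x.2.2⟩, fun q => ⟨(a, q.1), rfl, q.2⟩, ?_, fun q => rfl⟩⟩
  rintro ⟨⟨b, q⟩, h, h2⟩
  have h' : b = a := h
  subst h'
  rfl

theorem Prs_card (hl : ℵ₀ ≤ lam) (hlk : lam < κ) (p : lam.ord.ToType × ULift.{u} Bool) :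
    #(Prs lam.ord.ToType κ.ord.ToType p) = κ := by
  have hκ : ℵ₀ ≤ κ := hl.trans hlk.le
  apply le_antisymm
  · refine (mk_union_le _ _).trans ?_
    rw [mk_image_eq Sum.inl_injective, mk_image_eq Sum.inr_injective, card_Col, mk_ord_toType,
      card_seg]
    exact (add_le_add ((card_Iio_toType _).trans hlk).le le_rfl).trans_eq (add_eq_self hκ)
  · refine le_trans ?_ (mk_le_mk_of_subset subset_union_right)
    rw [mk_image_eq Sum.inr_injective, card_Col, mk_ord_toType]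

theorem Prs_AD : AD lam (Prs lam.ord.ToType κ.ord.ToType) := by
  intro p p' hne
  refine lt_of_le_of_lt ?_ (card_Iio_toType p.1)
  rw [← card_seg, ← mk_image_eq (Sum.inl_injective (β := (lam.ord.ToType × ULift.{u} Bool) ×
    κ.ord.ToType)) (s := {x : lam.ord.ToType × lam.ord.ToType | x.1 = p.1 ∧ x.2 < p.1})]
  refine mk_le_mk_of_subset ?_
  rintro _ ⟨⟨x, hx, rfl⟩ | ⟨x, hx, rfl⟩, ⟨x', hx', h⟩ | ⟨x', hx', h⟩⟩
  · exact ⟨x, hx, rfl⟩
  · exact absurd h Sum.inr_ne_inl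
  · exact absurd h Sum.inl_ne_inr
  · rw [Sum.inr_injective h] at hx'
    exact absurd (Eq.trans (Eq.symm hx) hx') hne

theorem exists_seg {d : Cardinal.{u}} (hd : d < lam) : ∃ a : lam.ord.ToType, #(Iio a) = d := by
  have h1 : d.ord < Ordinal.type ((· < ·) : lam.ord.ToType → lam.ord.ToType → Prop) := by
    rw [Ordinal.type_toType]
    exact ord_lt_ord.2 hd
  refine ⟨Ordinal.enum ((· < ·) : lam.ord.ToType → lam.ord.ToType → Prop) ⟨d.ord, h1⟩, ?_⟩
  have h4 : (Ordinal.typein ((· < ·) : lam.ord.ToType → lam.ord.ToType → Prop)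
      (Ordinal.enum ((· < ·) : lam.ord.ToType → lam.ord.ToType → Prop) ⟨d.ord, h1⟩)).card =
      #(Iio (Ordinal.enum ((· < ·) : lam.ord.ToType → lam.ord.ToType → Prop) ⟨d.ord, h1⟩)) :=
    Ordinal.card_typein _
  rw [Ordinal.typein_enum, card_ord] at h4
  exact h4.symm

/-- a family without transversals yields a family of sets which is not good -/
theorem not_good (hl : ℵ₀ ≤ lam) (hlk : lam < κ) (hκι : κ ≤ ι) {J X : Type u} {A : J → Set X}
    (hJ : #J ≤ ι) (hA : ∀ j, #(A j) = κ) (had : AD lam A) (hT : ¬ HasTr lam A) :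
    ¬ Good ι κ lam := by
  classical
  have hκ : ℵ₀ ≤ κ := hl.trans hlk.le
  have hι : ℵ₀ ≤ ι := hκ.trans hκι
  let L := lam.ord.ToType
  let Q := κ.ord.ToType
  let I := ι.ord.ToType
  let D : I → Set (I × Q) := Col I Q
  have hD : AD lam D := by
    intro i j hij
    have h1 : (D i ∩ D j : Set (I × Q)) = ∅ := by
      refine eq_empty_of_forall_notMem ?_
      rintro x ⟨h1, h2⟩
      exact hij (Eq.trans (Eq.symm h1) h2)
    rw [h1, mk_eq_zero]
    exact aleph0_pos.trans_le hl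
  let B := SumF A (SumF (Prs L Q) D)
  have hB : AD lam B := had.sum hl (AD.sum hl Prs_AD hD)
  have hBc : ∀ j, #(B j) = κ := by
    rintro (j | j | j)
    · show #(Sum.inl '' A j : Set _) = κ
      rw [mk_image_eq Sum.inl_injective, hA]
    · show #(Sum.inr '' (Sum.inl '' Prs L Q j) : Set _) = κ
      rw [mk_image_eq Sum.inr_injective, mk_image_eq Sum.inl_injective, Prs_card hl hlk]
    · show #(Sum.inr '' (Sum.inr '' Col I Q j) : Set _) = κ
      rw [mk_image_eq Sum.inr_injective, mk_image_eq Sum.inr_injective, card_Col, mk_ord_toType]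
  have hinj : Function.Injective B := by
    intro i j hij
    by_contra hne
    have h1 := hB i j hne
    rw [hij, inter_self, hBc] at h1
    exact absurd (hlk.trans h1) (lt_irrefl _)
  intro hG
  suffices h : #(range B) = ι ∧ (∀ A ∈ range B, #A = κ) ∧ degree (range B) = lam by
    obtain ⟨T, hT'⟩ := hG _ (range B) h.1 h.2.1 h.2.2
    refine hT (HasTr.of_sum (B := SumF (Prs L Q) D) ⟨T, fun j => ?_⟩)
    obtain ⟨h1, h2⟩ := hT' (B j) ⟨j, rfl⟩
    exact ⟨h1, Order.lt_succ_iff.1 h2⟩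
  refine ⟨?_, ?_, ?_⟩
  · rw [mk_range_eq _ hinj, mk_sum, lift_id, lift_id, mk_sum, lift_id, lift_id, mk_prod, lift_id,
      lift_id, mk_ord_toType, mk_ord_toType]
    apply le_antisymm
    · refine (add_le_add hJ (add_le_add ((mul_le_mul' (hlk.le.trans hκι) ?_).trans_eq
        (mul_eq_self hι)) le_rfl)).trans_eq (by rw [add_eq_self hι, add_eq_self hι])
      exact (mk_le_aleph0 (α := ULift.{u} Bool)).trans hι
    · exact le_add_left (le_add_left le_rfl)
  · rintro _ ⟨j, rfl⟩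
    exact hBc j
  · apply le_antisymm
    · refine csInf_le' ?_
      rintro _ ⟨i, rfl⟩ _ ⟨j, rfl⟩ hne
      exact hB i j fun h => hne (by rw [h])
    · refine le_csInf ⟨lam, ?_⟩ fun d hd => ?_
      · rintro _ ⟨i, rfl⟩ _ ⟨j, rfl⟩ hne
        exact hB i j fun h => hne (by rw [h])
      · by_contra hcon
        obtain ⟨a, ha⟩ := exists_seg (not_le.1 hcon)
        have h1 := hd (B (Sum.inr (Sum.inl (a, ⟨true⟩)))) ⟨_, rfl⟩
          (B (Sum.inr (Sum.inl (a, ⟨false⟩)))) ⟨_, rfl⟩ fun h => by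
            have h2 := Prod.ext_iff.1 (Sum.inl_injective (Sum.inr_injective (hinj h)))
            exact Bool.noConfusion (congrArg ULift.down h2.2)
        refine absurd h1 (not_lt.2 ?_)
        rw [← ha, ← card_seg]
        refine mk_le_of_injective (f := fun x : {x : L × L | x.1 = a ∧ x.2 < a} =>
          (⟨Sum.inr (Sum.inl (Sum.inl x.1)), ?_, ?_⟩ : (B (Sum.inr (Sum.inl (a, ⟨true⟩))) ∩
            B (Sum.inr (Sum.inl (a, ⟨false⟩))) : Set _))) fun x x' h => ?_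
        · exact ⟨_, ⟨_, Or.inl ⟨x.1, x.2, rfl⟩, rfl⟩, rfl⟩
        · exact ⟨_, ⟨_, Or.inl ⟨x.1, x.2, rfl⟩, rfl⟩, rfl⟩
        · exact Subtype.ext (Sum.inl_injective (Sum.inl_injective (Sum.inr_injective
            (congrArg Subtype.val h))))

/-- in a good family, different sets meet in less than `degree` many points -/
theorem lt_degree {X : Type u} {𝒜 : Set (Set X)} (hA : ∀ A ∈ 𝒜, #A = κ) {A B : Set X}
    (hAm : A ∈ 𝒜) (hBm : B ∈ 𝒜) (hne : A ≠ B) : #(A ∩ B : Set X) < degree 𝒜 := by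
  have h1 : degree 𝒜 ∈ {d | ∀ A ∈ 𝒜, ∀ B ∈ 𝒜, A ≠ B → #(A ∩ B : Set X) < d} := by
    refine csInf_mem ⟨Order.succ κ, fun A hA' B _ _ => ?_⟩
    rw [Order.lt_succ_iff, ← hA A hA']
    exact mk_le_mk_of_subset inter_subset_left
  exact h1 A hAm B hBm hne

/-- **Determination of the good cardinals.** -/
theorem good_iff (hGCH : ∀ ν : Cardinal.{u}, ℵ₀ ≤ ν → 2 ^ ν = Order.succ ν) (hl : ℵ₀ ≤ lam)
    (hlk : lam < κ) (ι : Cardinal.{u}) : Good ι κ lam ↔
      ∀ η : Cardinal.{u}, lam < η → η.ord.cof = lam.ord.cof → κ ≤ Order.succ η →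
        Order.succ η ≤ ι → ¬ Bad η lam := by
  constructor
  · intro hG η h1 h2 h3 h4 hB
    obtain ⟨J, X, A, hJ, hA, had, hT⟩ := exists_bad_family hGCH hl hlk h1 h3 h2 hB
    exact not_good hl hlk (h3.trans h4) (hJ.trans h4) hA had hT hG
  · intro h X 𝒜 h𝒜 hA hd
    obtain ⟨T, hT⟩ := main_pos hGCH hl hlk ι (fun η h1 h2 h3 => by
      by_cases hc : η.ord.cof = lam.ord.cof
      · exact h η h1 hc h2 h3
      · exact not_bad_of_cof_ne hGCH hl h1 hc) 𝒜 X h𝒜 (fun A => A.1) (fun A => hA A.1 A.2)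
      (fun A B hne => by
        rw [← hd]
        exact lt_degree hA A.2 B.2 fun h => hne (Subtype.ext h))
    exact ⟨T, fun A hA' => ⟨(hT ⟨A, hA'⟩).1, Order.lt_succ_iff.2 (hT ⟨A, hA'⟩).2⟩⟩

end

end Pool.Agent.H645.T
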