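import Mathlib
import Pool.Agent.H645.TF
import Pool.Agent.H645.NegG

set_option autoImplicit false

/-!
# Families of `κ` sets of power `κ`
-/

namespace Pool.Agent.H645.T

open Cardinal Set

universe u

/-- every family of `κ` sets of power `κ` whose degree of disjunction is at most `lam` has a
`lam⁺`-transversal -/
def HasTransversals (κ lam : Cardinal.{u}) : Prop :=
  ∀ (X : Type u) (𝒜 : Set (Set X)), #𝒜 = κ → (∀ A ∈ 𝒜, #A = κ) → degree 𝒜 ≤ lam →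
    ∃ T, IsTransversal (Order.succ lam) 𝒜 T

theorem hasTransversals_iff (hGCH : ∀ ν : Cardinal.{u}, ℵ₀ ≤ ν → 2 ^ ν = Order.succ ν)
    {κ lam : Cardinal.{u}} (hκ : ℵ₀ ≤ κ) (hl : ℵ₀ ≤ lam) : HasTransversals κ lam ↔
      ¬ ∃ η : Cardinal.{u}, κ = Order.succ η ∧ lam < η ∧ η.ord.cof = lam.ord.cof ∧ Bad η lam := by
  constructor
  · rintro h ⟨η, rfl, h1, h2, hB⟩
    have hG : Good (Order.succ η) (Order.succ η) lam := fun X 𝒜 h𝒜 hA hd => h X 𝒜 h𝒜 hA hd.le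
    exact (good_iff hGCH hl (h1.trans (Order.lt_succ η)) _).1 hG η h1 h2 le_rfl le_rfl hB
  · intro h X 𝒜 h𝒜 hA hd
    rcases le_or_gt κ lam with hκl | hκl
    · refine ⟨Set.univ, fun A hA' => ?_⟩
      rw [univ_inter, hA A hA', Order.lt_succ_iff]
      refine ⟨?_, hκl⟩
      rw [← Set.nonempty_coe_sort, ← mk_ne_zero_iff, hA A hA']
      exact (aleph0_pos.trans_le hκ).ne'
    · obtain ⟨T, hT⟩ := main_pos hGCH hl hκl κ (fun η h1 h2 h3 hB => by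
        have h4 : κ = Order.succ η := le_antisymm h2 h3
        refine h ⟨η, h4, h1, ?_, hB⟩
        by_contra hc
        exact not_bad_of_cof_ne hGCH hl h1 hc hB) 𝒜 X h𝒜 (fun A => A.1) (fun A => hA A.1 A.2)
        (fun A B hne => (lt_degree hA A.2 B.2 fun h => hne (Subtype.ext h)).trans_le hd)
      exact ⟨T, fun A hA' => ⟨(hT ⟨A, hA'⟩).1, Order.lt_succ_iff.2 (hT ⟨A, hA'⟩).2⟩⟩

end Pool.Agent.H645.T

namespace Pool.Agent.H645.NG

open Cardinal Set Pool.Agent.H645.N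
open Pool.Agent.Helper669.Forcing Pool.Agent.Helper669.K Pool.Agent.Helper669.U
  Pool.Agent.Helper669.V
open Pool.Agent.H645 (IsAlephOmegaSucc lamOf IsNormalMeasure down_staysRegular)

theorem isCard_of_regular {P : Type} [Preorder P] {κ : Cardinal.{0}}
    (h : ∀ p : P, p ∈ StaysRegular P κ) (p : P) : p ∈ IsCard P κ := by
  intro ν hν q _ hq
  obtain ⟨r, hr, R, hR1, hR2⟩ := mem_fex.1 hq q le_rfl
  obtain ⟨s, hs, b, hb⟩ := bounded_of_cover h hν hR1 (id : κ.ord.ToType → κ.ord.ToType)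
  obtain ⟨t, ht, ht'⟩ := mem_fimp.1 (hR2 b) s hs (meets_of_mem trivial)
  obtain ⟨t', ht2, x, hx⟩ := mem_fex.1 ht' t le_rfl
  exact lt_irrefl _ (hb x b t' (ht2.trans ht) hx)

/-- a family of `ℵ_{ω+1}` sets of size `ℵ_{ω+1}` without transversal -/
theorem negative_one (hGCH : ∀ ν : Cardinal.{0}, ℵ₀ ≤ ν → 2 ^ ν = Order.succ ν)
    {κ : Cardinal.{0}} (hκ : ℵ₀ < κ) {W : Ultrafilter (Set (Order.succ (lamOf κ)).ord.ToType)}
    (hW : IsNormalMeasure κ (Order.succ (lamOf κ)).ord.ToType W) :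
    ∃ (P : Type) (_ : Preorder P), Nonempty P ∧ ∃ c : Cardinal.{0}, ∀ p : P,
      p ∈ ForcesGCH P ∧ p ∈ IsAlephOmegaSucc P c ∧ p ∈ NotGood P c c ℵ₀ := by
  obtain ⟨P, _, hne, c, h⟩ := negative_all hGCH hκ hW
  refine ⟨P, _, hne, c, fun p => ⟨(h p).1, (h p).2.1, ?_⟩⟩
  have hreg : ∀ q : P, q ∈ StaysRegular P c := by
    intro q ν hν R
    refine mem_fimp.2 fun r hr hR => ?_
    obtain ⟨s, hs, k, _, _, h1⟩ := mem_fex.1 (h r).2.1 r le_rfl
    obtain ⟨t, ht, ht'⟩ := mem_fimp.1 (h1 ν hν R) s le_rfl (down_IsFun _ _ hR _ hs)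
    exact ⟨t, ht.trans hs, ht'⟩
  have hc : ∀ q : P, ℵ₀ < c := by
    intro q
    obtain ⟨s, _, k, h1, _⟩ := mem_fex.1 (h q).2.1 q le_rfl
    obtain ⟨h2, h3, h4⟩ := h1
    rw [h4, Order.lt_succ_iff, ← h2]
    exact le_ciSup (f := k) bddAbove_of_small 0
  have h5 := (h p).2.2 c ⟨hc p, le_rfl⟩
  refine mem_fex.2 fun q hq => ?_
  obtain ⟨r, hr, hr'⟩ := mem_fimp.1 h5 q hq (isCard_of_regular hreg q)
  obtain ⟨s, hs, A, hA⟩ := mem_fex.1 (hr' c le_rfl) r le_rfl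
  exact ⟨s, hs.trans hr, A, hA⟩

end Pool.Agent.H645.NG
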