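import Mathlib

set_option autoImplicit false

/-!
# Free sets for set mappings on the successor of a singular cardinal: the positive direction
-/

namespace Pool.Agent.H645.SM

open Cardinal Set

universe u

/-- `(κ, η, θ) → ι`, for set mappings of order `κ`. -/
def Arrow (κ η θ ι : Cardinal.{u}) : Prop :=
  ∀ S : Type u, #S = κ → ∀ f : S → Set S, (∀ x, x ∉ f x) → (∀ x, #(f x) < κ) →
    (∀ X : Set S, #X = η → #(⋂ x ∈ X, f x : Set S) < θ) →
    ∃ H : Set S, #H = ι ∧ ∀ x ∈ H, ∀ y ∈ H, x ≠ y → y ∉ f x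

theorem exists_rec {I : Type u} {X : Type u} [LinearOrder I] [WellFoundedLT I]
    (R : (i : I) → ((j : I) → j < i → X) → X → Prop)
    (h : ∀ i (f : (j : I) → j < i → X),
      (∀ j (hj : j < i), R j (fun k hk => f k (hk.trans hj)) (f j hj)) → ∃ x, R i f x) :
    ∃ F : I → X, ∀ i, R i (fun j _ => F j) (F i) := by
  classical
  rcases isEmpty_or_nonempty I with hI | hI
  · exact ⟨fun i => (hI.false i).elim, fun i => (hI.false i).elim⟩
  have hX : Nonempty X := by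
    obtain ⟨b, _, hb⟩ := (wellFounded_lt (α := I)).has_min Set.univ Set.univ_nonempty
    obtain ⟨x, _⟩ := h b (fun j hj => (hb j trivial hj).elim) (fun j hj => (hb j trivial hj).elim)
    exact ⟨x⟩
  let G : (i : I) → ((j : I) → j < i → X) → X := fun i f =>
    if h : ∃ x, R i f x then h.choose else Classical.arbitrary X
  let F : I → X := (wellFounded_lt (α := I)).fix G
  have hF : ∀ i, F i = G i (fun j _ => F j) := fun i => WellFounded.fix_eq _ G i
  refine ⟨F, fun i => ?_⟩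
  induction i using (wellFounded_lt (α := I)).induction with
  | _ i ih =>
    have h1 : ∃ x, R i (fun j _ => F j) x := h i _ (fun j hj => ih j hj)
    have h2 : F i = h1.choose := by
      rw [hF i]
      exact dif_pos h1
    rw [h2]
    exact h1.choose_spec

/-- The setting: `λ` is a strong limit cardinal, `I` is an index set of size less than the regular
cardinal `μ < λ`, `D n` is an ultrafilter on the set `K n` of size less than `λ`, `μ⁺`-complete for
all large `n`; the sizes of the sets in `D n` tend to `λ`; and for every sequence of length `λ⁺` of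
elements of the product of the `D n`, there is a lower bound modulo bounded sets for `λ⁺` of
them. -/
structure Setup (lam mu : Cardinal.{u}) (I : Type u) [LinearOrder I] (K : I → Type u)
    (D : ∀ n, Ultrafilter (K n)) : Prop where
  inf : ℵ₀ ≤ lam
  strong : ∀ ν < lam, (2 : Cardinal.{u}) ^ ν < lam
  ne : Nonempty I
  cardI : #I < mu
  reg : mu.IsRegular
  lt : mu < lam
  cardK : ∀ n, #(K n) < lam
  comp : ∃ m, ∀ n ≥ m, ∀ (J : Type u) (A : J → Set (K n)), #J ≤ mu → (∀ j, A j ∈ D n) →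
    (⋂ j, A j) ∈ D n
  size : ∀ ν < lam, ∃ m, ∀ n ≥ m, ∀ A ∈ D n, ν < #A
  dir : ∀ C : (Order.succ lam).ord.ToType → ∀ n, Set (K n), (∀ y n, C y n ∈ D n) →
    ∃ E : ∀ n, Set (K n), (∀ n, E n ∈ D n) ∧ Order.succ lam ≤ #{y | ∃ m, ∀ n ≥ m, E n ⊆ C y n}

variable {lam mu : Cardinal.{u}} {I : Type u} [LinearOrder I] {K : I → Type u}
  {D : ∀ n, Ultrafilter (K n)}

theorem Setup.cardI_le (h : Setup lam mu I K D) : #I ≤ lam := (h.cardI.trans h.lt).le

theorem Setup.pow_le (h : Setup lam mu I K D) {a b : Cardinal.{u}} (ha : a < lam) (hb : b < lam) :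
    a ^ b < lam := by
  rcases le_or_gt ℵ₀ a with h1 | h1
  · have hm : max a b < lam := max_lt ha hb
    calc a ^ b ≤ (2 ^ a) ^ b := power_le_power_right (cantor a).le
      _ = 2 ^ (a * b) := (power_mul).symm
      _ ≤ 2 ^ (max a b) := power_le_power_left two_ne_zero
          (by
            refine (mul_le_max a b).trans ?_
            exact max_le le_rfl (h1.trans (le_max_left _ _)))
      _ < lam := h.strong _ hm
  · have hm : max ℵ₀ b < lam := max_lt ((h.reg.aleph0_le).trans_lt h.lt) hb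
    calc a ^ b ≤ (2 ^ ℵ₀) ^ b := power_le_power_right (h1.le.trans (cantor _).le)
      _ = 2 ^ (ℵ₀ * b) := (power_mul).symm
      _ ≤ 2 ^ (max ℵ₀ b) := power_le_power_left two_ne_zero
          (by
            refine (mul_le_max ℵ₀ b).trans ?_
            exact max_le le_rfl (le_max_left _ _))
      _ < lam := h.strong _ hm

theorem Setup.regS (h : Setup lam mu I K D) : (Order.succ lam).IsRegular := isRegular_succ h.inf

theorem pigeon {T C : Type u} {θ : Cardinal.{u}} (hθ : θ.IsRegular) (hC : #C < θ) {A : Set T}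
    (hA : θ ≤ #A) (Q : T → C → Prop) (hQ : ∀ y ∈ A, ∃ c, Q y c) :
    ∃ c, θ ≤ #{y | y ∈ A ∧ Q y c} := by
  classical
  choose c hc using fun y : A => hQ y.1 y.2
  obtain ⟨c0, h0⟩ := infinite_pigeonhole_card c θ hA hθ.aleph0_le (by rwa [hθ.cof_ord])
  refine ⟨c0, h0.trans (mk_le_of_injective (f := fun y => ⟨y.1.1, y.1.2, ?_⟩) ?_)⟩
  · have := hc y.1
    have h2 : c y.1 = c0 := y.2
    rwa [h2] at this
  · intro a b hab
    exact Subtype.ext (Subtype.ext (Subtype.mk.inj hab))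

/-- directedness for families indexed by any set of size `λ⁺` -/
theorem Setup.dir' (h : Setup lam mu I K D) {T : Type u} (hT : #T = Order.succ lam) {A : Set T}
    (hA : Order.succ lam ≤ #A) (C : T → ∀ n, Set (K n)) (hC : ∀ y ∈ A, ∀ n, C y n ∈ D n) :
    ∃ E : ∀ n, Set (K n), (∀ n, E n ∈ D n) ∧
      Order.succ lam ≤ #{y | y ∈ A ∧ ∃ m, ∀ n ≥ m, E n ⊆ C y n} := by
  have hA' : #A = Order.succ lam := le_antisymm ((mk_set_le A).trans hT.le) hA
  have hY' : #(Order.succ lam).ord.ToType = #A := by rw [mk_ord_toType, hA']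
  obtain ⟨e⟩ := Cardinal.eq.1 hY'
  obtain ⟨E, hE, hE'⟩ := h.dir (fun y => C (e y)) (fun y n => hC _ (e y).2 _)
  refine ⟨E, hE, hE'.trans ?_⟩
  refine mk_le_of_injective (f := fun y => ⟨(e y.1).1, (e y.1).2, y.2⟩) ?_
  intro a b hab
  exact Subtype.ext (e.injective (Subtype.ext (Subtype.mk.inj hab)))

variable {S : Type u} {f : S → Set S}

/-- Claim 1 -/
theorem claim1 (h : Setup lam mu I K D) (hS : #S = Order.succ lam)
    (hf : ∀ X : Set S, #X = Order.succ lam → #(⋂ x ∈ X, f x : Set S) < lam)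
    {J : Type u} (hJ : #J < mu) (B : J → ∀ n, K n → S) (hB : ∀ j n, Function.Injective (B j n)) :
    #{y | ¬ ∀ m, ∃ n ≥ m, ∀ j, {ζ | B j n ζ ∉ f y} ∈ D n} < Order.succ lam := by
  classical
  by_contra hcon
  rw [not_lt] at hcon
  have hne := h.ne
  set Y : Set S := {y | ¬ ∀ m, ∃ n ≥ m, ∀ j, {ζ | B j n ζ ∉ f y} ∈ D n} with hYdef
  have hY : ∀ y ∈ Y, ∃ c : I × (I → J), ∀ n ≥ c.1, {ζ | B (c.2 n) n ζ ∈ f y} ∈ D n := by
    intro y hy
    simp only [hYdef, Set.mem_ofPred_eq, not_forall, not_exists, not_and] at hy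
    obtain ⟨m, hm⟩ := hy
    have hne : Nonempty J := by
      obtain ⟨j, _⟩ := hm m le_rfl
      exact ⟨j⟩
    have : ∀ n, ∃ j : J, n ≥ m → {ζ | B j n ζ ∈ f y} ∈ D n := by
      intro n
      by_cases hn : n ≥ m
      · obtain ⟨j, hj⟩ := hm n hn
        refine ⟨j, fun _ => ?_⟩
        have := Ultrafilter.compl_mem_iff_notMem.2 hj
        refine Filter.mem_of_superset this fun ζ hζ => ?_
        by_contra h'
        exact hζ h'
      · exact ⟨Classical.arbitrary J, fun h' => absurd h' hn⟩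
    choose j hj using this
    exact ⟨(m, j), hj⟩
  have hsmall : #(I × (I → J)) < Order.succ lam := by
    rw [mk_prod, lift_id, lift_id, ← power_def]
    exact (mul_lt_of_lt h.inf (h.cardI.trans h.lt)
      (h.pow_le (hJ.trans h.lt) (h.cardI.trans h.lt))).trans (Order.lt_succ _)
  obtain ⟨⟨m0, j0⟩, hmj⟩ := pigeon h.regS hsmall hcon _ hY
  obtain ⟨E, hE, hE'⟩ := h.dir' hS hmj (fun y n => if n ≥ m0 then {ζ | B (j0 n) n ζ ∈ f y} else univ)
    (by
      intro y hy n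
      by_cases hn : n ≥ m0
      · simp only [hn, if_true]
        exact hy.2 n hn
      · simp only [hn, if_false]
        exact Filter.univ_mem)
  obtain ⟨m1, h1⟩ := pigeon (C := I) h.regS (h.cardI_le.trans_lt (Order.lt_succ _)) hE'
    (fun y m => ∀ n ≥ m, E n ⊆ if n ≥ m0 then {ζ | B (j0 n) n ζ ∈ f y} else univ)
    (fun y hy => hy.2)
  set X : Set S := {y | y ∈ {y | y ∈ {y | y ∈ Y ∧ ∀ n ≥ (m0, j0).1, {ζ | B ((m0, j0).2 n) n ζ ∈ f y} ∈
    D n} ∧ ∃ m, ∀ n ≥ m, E n ⊆ if n ≥ m0 then {ζ | B (j0 n) n ζ ∈ f y} else univ} ∧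
    ∀ n ≥ m1, E n ⊆ if n ≥ m0 then {ζ | B (j0 n) n ζ ∈ f y} else univ} with hX
  have hXc : #X = Order.succ lam := le_antisymm ((mk_set_le X).trans hS.le) h1
  have h2 := hf X hXc
  obtain ⟨m2, hm2⟩ := h.size _ h2
  set n := max (max m0 m1) m2 with hn
  have hn0 : n ≥ m0 := (le_max_left _ _).trans (le_max_left _ _)
  have hn1 : n ≥ m1 := (le_max_right _ _).trans (le_max_left _ _)
  have hn2 : n ≥ m2 := le_max_right _ _
  refine (hm2 n hn2 (E n) (hE n)).not_ge ?_
  refine mk_le_of_injective (f := fun ζ : E n => ⟨B (j0 n) n ζ.1, ?_⟩) ?_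
  · rw [Set.mem_iInter₂]
    intro y hy
    have := hy.2 n hn1 ζ.2
    simp only [hn0, if_true] at this
    exact this
  · intro a b hab
    exact Subtype.ext (hB _ _ (congrArg Subtype.val hab))

/-- Claim 2 -/
theorem claim2 (h : Setup lam mu I K D) (R : I → Set S) (hR : ∀ n, #(R n) < lam) :
    #{y | ¬ ∀ n, ∀ F ⊆ R n, (∀ x ∈ F, x ∉ f y) →
      Order.succ lam ≤ #{y' | ∀ x ∈ F, x ∉ f y'}} < Order.succ lam := by
  classical
  have hsub : {y | ¬ ∀ n, ∀ F ⊆ R n, (∀ x ∈ F, x ∉ f y) →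
      Order.succ lam ≤ #{y' | ∀ x ∈ F, x ∉ f y'}} ⊆ ⋃ p : Σ n, Set (R n),
        if Order.succ lam ≤ #{y' | ∀ x ∈ p.2, x.1 ∉ f y'} then ∅ else
          {y' | ∀ x ∈ p.2, x.1 ∉ f y'} := by
    intro y hy
    simp only [Set.mem_ofPred_eq, not_forall] at hy
    obtain ⟨n, F, hF, hF', hF''⟩ := hy
    have heq : ∀ y', (∀ x ∈ F, x ∉ f y') ↔ ∀ x ∈ (Subtype.val ⁻¹' F : Set (R n)), x.1 ∉ f y' := by
      intro y'
      constructor
      · intro h1 x hx
        exact h1 x.1 hx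
      · intro h1 x hx
        exact h1 ⟨x, hF hx⟩ hx
    rw [Set.mem_iUnion]
    refine ⟨⟨n, Subtype.val ⁻¹' F⟩, ?_⟩
    simp only [heq] at hF''
    simp only [hF'', if_false]
    exact (heq y).1 hF'
  refine (mk_le_mk_of_subset hsub).trans_lt ?_
  have hcard : #(Σ n, Set (R n)) ≤ lam := by
    rw [mk_sigma]
    refine (sum_le_mk_mul_iSup _).trans ?_
    refine (mul_le_mul' h.cardI_le (ciSup_le' fun n => ?_)).trans (mul_eq_self h.inf).le
    rw [mk_set]
    exact (h.strong _ (hR n)).le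
  refine (mk_iUnion_le _).trans_lt ?_
  refine Order.lt_succ_iff.2 ?_
  refine (mul_le_mul' hcard (ciSup_le' fun p => ?_)).trans (mul_eq_self h.inf).le
  by_cases hp : Order.succ lam ≤ #{y' | ∀ x ∈ p.2, x.1 ∉ f y'}
  · simp only [hp, if_true, mk_eq_zero]
    exact bot_le
  · simp only [hp, if_false]
    exact Order.lt_succ_iff.1 (not_le.1 hp)

theorem union_lt (h : Setup lam mu I K D) {A B : Set S} (hA : #A < Order.succ lam)
    (hB : #B < Order.succ lam) : #(A ∪ B : Set S) < Order.succ lam :=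
  (mk_union_le _ _).trans_lt (add_lt_of_lt (h.inf.trans (Order.le_succ _)) hA hB)

theorem exists_notMem (hS : #S = Order.succ lam) {A : Set S}
    (hA : #A < Order.succ lam) : ∃ y, y ∉ A := by
  by_contra hcon
  push Not at hcon
  have : A = Set.univ := Set.eq_univ_of_forall hcon
  rw [this, mk_univ, hS] at hA
  exact lt_irrefl _ hA

/-- a set of size `λ⁺` minus a small set contains a copy of every small set -/
theorem exists_inj (h : Setup lam mu I K D) {W Z : Set S} (hW : Order.succ lam ≤ #W)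
    (hZ : #Z < Order.succ lam) {T : Type u} (hT : #T < Order.succ lam) :
    ∃ g : T → S, Function.Injective g ∧ ∀ t, g t ∈ W ∧ g t ∉ Z := by
  have h1 : Order.succ lam ≤ #(W \ Z : Set S) := by
    by_contra hcon
    rw [not_le] at hcon
    have h2 := union_lt h hcon hZ
    have h3 : W ⊆ (W \ Z) ∪ Z := fun x hx => by
      by_cases hx' : x ∈ Z
      · exact Or.inr hx'
      · exact Or.inl ⟨hx, hx'⟩
    exact ((mk_le_mk_of_subset h3).trans_lt h2).not_ge hW
  obtain ⟨e⟩ := (Cardinal.le_def _ _).1 (hT.le.trans h1)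
  exact ⟨fun t => (e t).1, fun a b hab => e.injective (Subtype.ext hab), fun t => (e t).2⟩

/-- one step of the construction -/
theorem step (h : Setup lam mu I K D) (hS : #S = Order.succ lam)
    (hord : ∀ x, #(f x) < Order.succ lam)
    (hf : ∀ X : Set S, #X = Order.succ lam → #(⋂ x ∈ X, f x : Set S) < lam)
    {J : Type u} (hJ : #J < mu) (B : J → ∀ n, K n → S) (hB : ∀ j n, Function.Injective (B j n)) :
    ∃ (B' : ∀ n, K n → S) (a : Set I) (H : ∀ n, Set (K n)),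
      (∀ m, ∃ n ≥ m, n ∈ a) ∧ (∀ n ∈ a, H n ∈ D n) ∧
      (∀ n ∈ a, ∀ j, ∀ η ∈ H n, ∀ ζ, B j n η ∉ f (B' n ζ)) ∧
      (∀ n, Function.Injective (B' n)) ∧
      (∀ n ζ j η, B' n ζ ∉ f (B j n η) ∧ B' n ζ ≠ B j n η) := by
  classical
  have hJl : #J < lam := hJ.trans h.lt
  set R : I → Set S := fun n => ⋃ j, Set.range (B j n) with hR
  have hRc : ∀ n, #(R n) < lam := by
    intro n
    refine (mk_iUnion_le _).trans_lt ?_
    refine (mul_le_mul' le_rfl (ciSup_le' fun j => mk_range_le)).trans_lt ?_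
    exact mul_lt_of_lt h.inf hJl (h.cardK n)
  obtain ⟨y, hy⟩ := exists_notMem hS (union_lt h (claim1 h hS hf hJ B hB) (claim2 (f := f) h R hRc))
  simp only [Set.mem_union, not_or, Set.mem_ofPred_eq, not_not] at hy
  obtain ⟨hy1, hy2⟩ := hy
  obtain ⟨mc, hmc⟩ := h.comp
  set a : Set I := {n | n ≥ mc ∧ ∀ j, {ζ | B j n ζ ∉ f y} ∈ D n} with ha
  set H : ∀ n, Set (K n) := fun n => ⋂ j, {ζ | B j n ζ ∉ f y} with hH
  have hHa : ∀ n ∈ a, H n ∈ D n := fun n hn => hmc n hn.1 J _ hJ.le hn.2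
  set F : I → Set S := fun n => {x | ∃ j, ∃ η ∈ H n, x = B j n η} with hF
  have hFR : ∀ n, F n ⊆ R n := by
    rintro n x ⟨j, η, _, rfl⟩
    exact Set.mem_iUnion.2 ⟨j, η, rfl⟩
  have hFy : ∀ n, ∀ x ∈ F n, x ∉ f y := by
    rintro n x ⟨j, η, hη, rfl⟩
    exact (Set.mem_iInter.1 hη j)
  have hW : ∀ n, Order.succ lam ≤ #{y' | ∀ x ∈ F n, x ∉ f y'} := fun n => hy2 n (F n) (hFR n) (hFy n)
  set Z : I → Set S := fun n => ⋃ p : J × K n, insert (B p.1 n p.2) (f (B p.1 n p.2)) with hZ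
  have hZc : ∀ n, #(Z n) < Order.succ lam := by
    intro n
    refine (mk_iUnion_le _).trans_lt ?_
    refine Order.lt_succ_iff.2 ?_
    refine (mul_le_mul' (?_ : _ ≤ lam) (ciSup_le' fun p => ?_)).trans (mul_eq_self h.inf).le
    · rw [mk_prod, lift_id, lift_id]
      exact (mul_lt_of_lt h.inf hJl (h.cardK n)).le
    · refine (mk_insert_le).trans ?_
      exact (add_le_add (Order.lt_succ_iff.1 (hord _)) (one_le_aleph0.trans h.inf)).trans
        (add_eq_self h.inf).le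
  have hinj := fun n => exists_inj h (hW n) (hZc n) ((h.cardK n).trans (Order.lt_succ _))
  choose B' hB'1 hB'2 using hinj
  refine ⟨B', a, H, ?_, hHa, ?_, hB'1, ?_⟩
  · intro m
    obtain ⟨n, hn, hn'⟩ := hy1 (max m mc)
    exact ⟨n, (le_max_left _ _).trans hn, (le_max_right _ _).trans hn, hn'⟩
  · intro n _ j η hη ζ
    exact (hB'2 n ζ).1 _ ⟨j, η, hη, rfl⟩
  · intro n ζ j η
    have h1 := (hB'2 n ζ).2
    constructor
    · intro h2
      exact h1 (Set.mem_iUnion.2 ⟨(j, η), Or.inr h2⟩)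
    · intro h2
      exact h1 (Set.mem_iUnion.2 ⟨(j, η), Or.inl h2⟩)

/-- In the setting of `Setup`, every set mapping as in the relation has a free set of size `μ`. -/
theorem arrow (h : Setup lam mu I K D) : Arrow (Order.succ lam) (Order.succ lam) lam mu := by
  classical
  intro S hS f _ hord hf
  have hne := h.ne
  obtain ⟨mc, hmc⟩ := h.comp
  let M : Type u := mu.ord.ToType
  have hrec := exists_rec (I := M) (X := (∀ n, K n → S) × Set I × (∀ n, Set (K n)))
    (fun i g x => (∀ m, ∃ n ≥ m, n ∈ x.2.1) ∧ (∀ n ∈ x.2.1, x.2.2 n ∈ D n) ∧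
      (∀ n ∈ x.2.1, ∀ j (hj : j < i), ∀ η ∈ x.2.2 n, ∀ ζ, (g j hj).1 n η ∉ f (x.1 n ζ)) ∧
      (∀ n, Function.Injective (x.1 n)) ∧
      (∀ n ζ j (hj : j < i) η, x.1 n ζ ∉ f ((g j hj).1 n η) ∧ x.1 n ζ ≠ (g j hj).1 n η)) (by
    intro i g hg
    obtain ⟨B', a, H, h1, h2, h3, h4, h5⟩ := step h hS hord hf (J := Iio i) (mk_Iio_toType_ord_lt i)
      (fun j => (g j.1 j.2).1) (fun j n => (hg j.1 j.2).2.2.2.1 n)
    exact ⟨(B', a, H), h1, h2, fun n hn j hj η hη ζ => h3 n hn ⟨j, hj⟩ η hη ζ, h4,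
      fun n ζ j hj η => h5 n ζ ⟨j, hj⟩ η⟩)
  obtain ⟨G, hG⟩ := hrec
  have hex : ∀ i ∈ (univ : Set M), ∃ n, n ≥ mc ∧ n ∈ (G i).2.1 := by
    intro i _
    obtain ⟨n, hn', hn⟩ := (hG i).1 mc
    exact ⟨n, hn', hn⟩
  have hM : #M = mu := mk_ord_toType mu
  obtain ⟨n, hn⟩ := pigeon (A := (univ : Set M)) h.reg h.cardI (by rw [mk_univ, hM]) _ hex
  set T : Set M := {y | y ∈ Set.univ ∧ n ≥ mc ∧ n ∈ (G y).2.1} with hT
  have hTc : #T = mu := le_antisymm ((mk_set_le T).trans hM.le) hn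
  have hnm : n ≥ mc := by
    have h1 : #T ≠ 0 := by
      rw [hTc]
      exact h.reg.pos.ne'
    obtain ⟨i⟩ := mk_ne_zero_iff.1 h1
    exact i.2.2.1
  have hHm : (⋂ i : T, (G i.1).2.2 n) ∈ D n :=
    hmc n hnm T _ hTc.le fun i => (hG i.1).2.1 n i.2.2.2
  obtain ⟨ζ, hζ⟩ := Ultrafilter.nonempty_of_mem hHm
  have hζ' : ∀ i ∈ T, ζ ∈ (G i).2.2 n := fun i hi => Set.mem_iInter.1 hζ ⟨i, hi⟩
  have hne' : ∀ i ∈ T, ∀ j ∈ T, j < i → (G i).1 n ζ ≠ (G j).1 n ζ := fun i _ j _ hj =>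
    ((hG i).2.2.2.2 n ζ j hj ζ).2
  refine ⟨(fun i => (G i).1 n ζ) '' T, ?_, ?_⟩
  · rw [mk_image_eq_of_injOn _ _ ?_, hTc]
    intro i hi j hj hij
    rcases lt_trichotomy i j with h1 | h1 | h1
    · exact absurd hij.symm (hne' j hj i hi h1)
    · exact h1
    · exact absurd hij (hne' i hi j hj h1)
  · rintro _ ⟨i, hi, rfl⟩ _ ⟨j, hj, rfl⟩ hij
    rcases lt_trichotomy i j with h1 | h1 | h1
    · exact ((hG j).2.2.2.2 n ζ i h1 ζ).1
    · exact absurd (by rw [h1]) hij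
    · exact (hG i).2.2.1 n hi.2.2 j h1 ζ (hζ' i hi) ζ

end Pool.Agent.H645.SM
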