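import Mathlib
import Pool.Agent.H645.SA

set_option autoImplicit false

/-!
# Limits of measurable cardinals
-/

namespace Pool.Agent.H645.SM

open Cardinal Set Ordinal

universe u

/-- `D` is a `κ`-complete nonprincipal ultrafilter on the uncountable cardinal `κ` -/
structure IsMeasure (κ : Cardinal.{u}) (D : Ultrafilter κ.ord.ToType) : Prop where
  uncountable : ℵ₀ < κ
  complete : ∀ (J : Type u) (A : J → Set κ.ord.ToType), #J < κ → (∀ j, A j ∈ D) → (⋂ j, A j) ∈ D
  nonprincipal : ∀ x, {x}ᶜ ∈ D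

/-- `D` is normal: closed under diagonal intersections -/
def IsNormal (κ : Cardinal.{u}) (D : Ultrafilter κ.ord.ToType) : Prop :=
  ∀ A : κ.ord.ToType → Set κ.ord.ToType, (∀ x, A x ∈ D) → {x | ∀ a < x, x ∈ A a} ∈ D

variable {κ : Cardinal.{u}} {D : Ultrafilter κ.ord.ToType}

theorem IsMeasure.singleton_notMem (h : IsMeasure κ D) (x : κ.ord.ToType) : {x} ∉ D := by
  intro hx
  exact Ultrafilter.compl_notMem_iff.2 hx (h.nonprincipal x)

theorem IsMeasure.notMem_of_lt (h : IsMeasure κ D) {A : Set κ.ord.ToType} (hA : #A < κ) : A ∉ D := by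
  intro hAD
  have h1 : (⋂ x : A, ({x.1}ᶜ : Set κ.ord.ToType)) ∈ D := h.complete A _ hA fun x => h.nonprincipal _
  obtain ⟨x, hx, hx'⟩ := Ultrafilter.nonempty_of_mem (Filter.inter_mem hAD h1)
  exact Set.mem_iInter.1 hx' ⟨x, hx⟩ rfl

theorem IsMeasure.strong (h : IsMeasure κ D) {ν : Cardinal.{u}} (hν : ν < κ) :
    (2 : Cardinal.{u}) ^ ν < κ := by
  classical
  by_contra hcon
  rw [not_lt] at hcon
  have h1 : #κ.ord.ToType ≤ #(Set ν.ord.ToType) := by
    rw [mk_ord_toType, mk_set, mk_ord_toType]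
    exact hcon
  obtain ⟨e⟩ := (Cardinal.le_def _ _).1 h1
  set A : ν.ord.ToType → Set κ.ord.ToType := fun a =>
    if {x | a ∈ e x} ∈ D then {x | a ∈ e x} else {x | a ∉ e x} with hA
  have hAD : ∀ a, A a ∈ D := by
    intro a
    by_cases ha : {x | a ∈ e x} ∈ D
    · simp only [hA, ha, if_true]
    · simp only [hA, ha, if_false]
      exact Ultrafilter.compl_mem_iff_notMem.2 ha
  have h2 := h.complete _ A (by rw [mk_ord_toType]; exact hν) hAD
  obtain ⟨x, hx⟩ := Ultrafilter.nonempty_of_mem h2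
  have h3 : (⋂ j, A j) ⊆ {x} := by
    intro y hy
    refine e.injective (Set.ext fun a => ?_)
    have hx' := Set.mem_iInter.1 hx a
    have hy' := Set.mem_iInter.1 hy a
    by_cases ha : {x | a ∈ e x} ∈ D
    · simp only [hA, ha, if_true, Set.mem_ofPred_eq] at hx' hy'
      exact iff_of_true hy' hx'
    · simp only [hA, ha, if_false, Set.mem_ofPred_eq] at hx' hy'
      exact iff_of_false hy' hx'
  exact h.singleton_notMem x (Filter.mem_of_superset h2 h3)

/-- a normal measure on `κ` with `2 ^ κ = κ⁺` has a base which is a tower of length `κ⁺` -/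
theorem exists_tower (hκ : ℵ₀ ≤ κ) (hn : IsNormal κ D)
    (hg : (2 : Cardinal.{u}) ^ κ = Order.succ κ) :
    ∃ (r : Set κ.ord.ToType → (Order.succ κ).ord.ToType)
      (T : (Order.succ κ).ord.ToType → Set κ.ord.ToType), (∀ ξ, T ξ ∈ D) ∧
      ∀ A ∈ D, ∀ ξ ≥ r A, ∃ b, T ξ ∩ Ioi b ⊆ A := by
  classical
  have h1 : #(Set κ.ord.ToType) = #(Order.succ κ).ord.ToType := by
    rw [mk_set, mk_ord_toType, hg, mk_ord_toType]
  obtain ⟨r⟩ := Cardinal.eq.1 h1
  have h2 : ∀ ξ : (Order.succ κ).ord.ToType, #(Iic ξ) ≤ #κ.ord.ToType := by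
    intro ξ
    rw [mk_ord_toType]
    refine Order.lt_succ_iff.1 ?_
    have h3 : Iic ξ = insert ξ (Iio ξ) := by
      ext x
      simp [le_iff_eq_or_lt]
    rw [h3]
    refine (mk_insert_le).trans_lt ?_
    exact add_lt_of_lt (hκ.trans (Order.le_succ _)) (mk_Iio_toType_ord_lt ξ)
      (one_lt_aleph0.trans_le (hκ.trans (Order.le_succ _)))
  have h3 : ∀ ξ : (Order.succ κ).ord.ToType, ∃ s : Iic ξ → κ.ord.ToType, Function.Injective s := by
    intro ξ
    obtain ⟨e⟩ := (Cardinal.le_def _ _).1 (h2 ξ)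
    exact ⟨e, e.injective⟩
  choose s hs using h3
  refine ⟨r, fun ξ => {x | ∀ a < x, ∀ η : Iic ξ, s ξ η = a → r.symm η.1 ∈ D → x ∈ r.symm η.1},
    fun ξ => ?_, fun A hA ξ hξ => ?_⟩
  · refine hn (fun a => {x | ∀ η : Iic ξ, s ξ η = a → r.symm η.1 ∈ D → x ∈ r.symm η.1}) fun a => ?_
    by_cases ha : ∃ η : Iic ξ, s ξ η = a ∧ r.symm η.1 ∈ D
    · obtain ⟨η, h4, h5⟩ := ha
      refine Filter.mem_of_superset h5 fun x hx η' h6 h7 => ?_
      have : η = η' := hs ξ (h4.trans h6.symm)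
      subst this
      exact hx
    · refine Filter.mem_of_superset Filter.univ_mem fun x _ η h4 h5 => ?_
      exact absurd ⟨η, h4, h5⟩ ha
  · refine ⟨s ξ ⟨r A, hξ⟩, fun x hx => ?_⟩
    have := hx.1 _ hx.2 ⟨r A, hξ⟩ rfl
    simp only [Equiv.symm_apply_apply] at this
    exact this hA

theorem Arrow.mono {κ η θ ι ι' : Cardinal.{u}} (h : Arrow κ η θ ι) (hι : ι' ≤ ι) :
    Arrow κ η θ ι' := by
  intro S hS f h1 h2 h3
  obtain ⟨H, hH, hH'⟩ := h S hS f h1 h2 h3
  rw [← hH, le_mk_iff_exists_subset] at hι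
  obtain ⟨H', hH'1, hH'2⟩ := hι
  exact ⟨H', hH'2, fun x hx y hy => hH' x (hH'1 hx) y (hH'1 hy)⟩

/-- `λ` is singular, the limit of the cardinals `k i < λ` (`i < cf λ`), and `D i` is a measure
on `k i`. -/
structure IsLimitOfMeasurables (lam : Cardinal.{u})
    (k : lam.ord.cof.ord.ToType → Cardinal.{u}) (D : ∀ i, Ultrafilter (k i).ord.ToType) : Prop where
  singular : lam.IsSingular
  lt : ∀ i, k i < lam
  lim : ∀ ν < lam, ∃ m, ∀ n ≥ m, ν < k n
  measure : ∀ i, IsMeasure (k i) (D i)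

variable {lam : Cardinal.{u}} {k : lam.ord.cof.ord.ToType → Cardinal.{u}}
  {D : ∀ i, Ultrafilter (k i).ord.ToType}

theorem IsLimitOfMeasurables.strong (h : IsLimitOfMeasurables lam k D) {ν : Cardinal.{u}}
    (hν : ν < lam) : (2 : Cardinal.{u}) ^ ν < lam := by
  obtain ⟨m, hm⟩ := h.lim ν hν
  exact ((h.measure m).strong (hm m le_rfl)).trans (h.lt m)

/-- Given `λ⁺` elements `C y` of the product of the ultrafilters `D i`, there is an element `E` of
the product such that for `λ⁺` indices `y` we have `E i ⊆ C y i` for all large `i`. -/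
def Directed (lam : Cardinal.{u}) (k : lam.ord.cof.ord.ToType → Cardinal.{u})
    (D : ∀ i, Ultrafilter (k i).ord.ToType) : Prop :=
  ∀ C : (Order.succ lam).ord.ToType → ∀ i, Set (k i).ord.ToType, (∀ y i, C y i ∈ D i) →
    ∃ E : ∀ i, Set (k i).ord.ToType, (∀ i, E i ∈ D i) ∧
      Order.succ lam ≤ #{y | ∃ m, ∀ i ≥ m, E i ⊆ C y i}

theorem arrow_of_directed (h : IsLimitOfMeasurables lam k D) (hd : Directed lam k D)
    {ι : Cardinal.{u}} (hι : ι < lam) : Arrow (Order.succ lam) (Order.succ lam) lam ι := by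
  set mu := Order.succ (max ι lam.ord.cof) with hmu
  have hmax : max ι lam.ord.cof < lam := max_lt hι h.singular.cof_ord_lt
  have hcof : ℵ₀ ≤ lam.ord.cof := aleph0_le_cof_iff.2 (one_lt_cof_iff.2 (isSuccLimit_ord h.singular.aleph0_le))
  have hmul : mu < lam :=
    (Order.succ_le_of_lt (cantor _)).trans_lt (h.strong hmax)
  have hreg : mu.IsRegular := isRegular_succ (hcof.trans (le_max_right _ _))
  have hS : Setup lam mu lam.ord.cof.ord.ToType (fun i => (k i).ord.ToType) D := by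
    refine ⟨h.singular.aleph0_le, fun ν hν => h.strong hν, ?_, ?_, hreg, hmul, ?_, ?_, ?_, hd⟩
    · rw [← mk_ne_zero_iff, mk_ord_toType]
      exact (aleph0_pos.trans_le hcof).ne'
    · rw [mk_ord_toType]
      exact Order.lt_succ_iff.2 (le_max_right _ _)
    · intro n
      rw [mk_ord_toType]
      exact h.lt n
    · obtain ⟨m, hm⟩ := h.lim mu hmul
      exact ⟨m, fun n hn J A hJ hA => (h.measure n).complete J A (hJ.trans_lt (hm n hn)) hA⟩
    · intro ν hν
      obtain ⟨m, hm⟩ := h.lim ν hν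
      refine ⟨m, fun n hn A hA => ?_⟩
      by_contra hcon
      rw [not_lt] at hcon
      exact (h.measure n).notMem_of_lt (hcon.trans_lt (hm n hn)) hA
  exact (arrow hS).mono ((le_max_left _ _).trans (Order.le_succ _))

/-- Any `λ⁺` functions in the product of the cardinals `c i` are bounded by one function, modulo
bounded sets of indices. -/
def Bounded (lam : Cardinal.{u}) (c : lam.ord.cof.ord.ToType → Cardinal.{u}) : Prop :=
  ∀ F : (Order.succ lam).ord.ToType → ∀ i, (c i).ord.ToType, ∃ g : ∀ i, (c i).ord.ToType,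
    ∀ y, ∃ m, ∀ i ≥ m, F y i ≤ g i

theorem directed_of_bounded (h : IsLimitOfMeasurables lam k D) (hn : ∀ i, IsNormal (k i) (D i))
    (hg : ∀ i, (2 : Cardinal.{u}) ^ k i = Order.succ (k i))
    (hb1 : Bounded lam k) (hb2 : Bounded lam fun i => Order.succ (k i)) : Directed lam k D := by
  classical
  have hinf : ∀ i, ℵ₀ ≤ k i := fun i => (h.measure i).uncountable.le
  intro C hC
  choose r T hT hT' using fun i => exists_tower (hinf i) (hn i) (hg i)
  obtain ⟨g, hg'⟩ := hb2 fun y i => r i (C y i)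
  have h1 : ∀ y i, ∃ b, r i (C y i) ≤ g i → T i (g i) ∩ Ioi b ⊆ C y i := by
    intro y i
    by_cases h2 : r i (C y i) ≤ g i
    · obtain ⟨b, hb⟩ := hT' i (C y i) (hC y i) (g i) h2
      exact ⟨b, fun _ => hb⟩
    · obtain ⟨x, _⟩ := Ultrafilter.nonempty_of_mem (hC y i)
      exact ⟨x, fun h' => absurd h' h2⟩
  choose b hb using h1
  obtain ⟨g', hg''⟩ := hb1 b
  refine ⟨fun i => T i (g i) ∩ Ioi (g' i), fun i => ?_, ?_⟩
  · refine Filter.inter_mem (hT i _) ?_
    have h3 : #(Iic (g' i)) < k i := by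
      have h4 : Iic (g' i) = insert (g' i) (Iio (g' i)) := by
        ext x
        simp [le_iff_eq_or_lt]
      rw [h4]
      refine (mk_insert_le).trans_lt ?_
      exact add_lt_of_lt (hinf i) (mk_Iio_toType_ord_lt _) (one_lt_aleph0.trans_le (hinf i))
    have h5 := Ultrafilter.compl_mem_iff_notMem.2 ((h.measure i).notMem_of_lt h3)
    refine Filter.mem_of_superset h5 fun x hx => ?_
    exact not_le.1 fun h' => hx (Set.mem_Iic.2 h')
  · have h6 : {y | ∃ m, ∀ i ≥ m, T i (g i) ∩ Ioi (g' i) ⊆ C y i} = Set.univ := by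
      refine Set.eq_univ_of_forall fun y => ?_
      obtain ⟨m1, hm1⟩ := hg' y
      obtain ⟨m2, hm2⟩ := hg'' y
      refine ⟨max m1 m2, fun i hi x hx => ?_⟩
      refine hb y i (hm1 i ((le_max_left _ _).trans hi)) ⟨hx.1, ?_⟩
      exact (hm2 i ((le_max_right _ _).trans hi)).trans_lt hx.2
    rw [h6, mk_univ, mk_ord_toType]

end Pool.Agent.H645.SM
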