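import Mathlib
import Pool.Agent.H645.TF

set_option autoImplicit false

/-!
# Approachability
-/

namespace Pool.Agent.H645.T

open Cardinal Set

universe u

/-- `δ` is approachable with respect to the sequence `a` -/
def Approachable {K : Type u} [LinearOrder K] [WellFoundedLT K] (a : K → Set K) (δ : K) : Prop :=
  ∃ A : Set K, A ⊆ Iio δ ∧ (∀ β < δ, ∃ x ∈ A, β ≤ x) ∧
    Ordinal.type ((· < ·) : A → A → Prop) = (Order.cof (Iio δ)).ord ∧
    ∀ β < δ, ∃ α < δ, A ∩ Iio β = a α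

/-- The set of the points of cofinality `lam⁺` below `η⁺` belongs to the approachability ideal. -/
def AP (η lam : Cardinal.{u}) : Prop :=
  ∃ (a : (Order.succ η).ord.ToType → Set (Order.succ η).ord.ToType)
    (C : Set (Order.succ η).ord.ToType), IsClub C ∧
      ∀ δ ∈ C, Order.cof (Iio δ) = Order.succ lam → Approachable a δ

section

variable {lam κ η ι : Cardinal.{u}}

theorem club_closed {K : Type u} [LinearOrder K] [WellFoundedLT K] (h : IsSuccType η K) {C : Set K}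
    (hC : IsClub C) : ∃ F : K → K, ∀ δ, (∃ a, a < δ) → Cl F δ → δ ∈ C := by
  have h1 : ∀ a : K, ∃ c ∈ C, a < c := by
    intro a
    obtain ⟨b, hb⟩ := h.exists_gt a
    obtain ⟨c, hc, hbc⟩ := hC.isCofinal b
    exact ⟨c, hc, hb.trans_le hbc⟩
  choose F hF1 hF2 using h1
  refine ⟨F, fun δ ⟨a0, ha0⟩ hδ => hC.isLUB_mem (t := F '' Iio δ) ?_ ⟨F a0, a0, ha0, rfl⟩
    ⟨?_, ?_⟩⟩
  · rintro _ ⟨a, _, rfl⟩
    exact hF1 a
  · rintro _ ⟨a, ha, rfl⟩
    exact (hδ a ha).le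
  · intro b hb
    by_contra hlt
    rw [not_le] at hlt
    exact absurd (hb ⟨b, hlt, rfl⟩) (not_le.2 (hF2 b))

/-- **Approachability refutes the principle `Bad`** -/
theorem AP.not_bad (hGCH : ∀ ν : Cardinal.{u}, ℵ₀ ≤ ν → 2 ^ ν = Order.succ ν)
    (hl : ℵ₀ ≤ lam) (hlη : lam < η) (hAP : AP η lam) : ¬ Bad η lam := by
  classical
  intro hB
  have hcof : η.ord.cof = lam.ord.cof := by
    by_contra hne
    exact not_bad_of_cof_ne hGCH hl hlη hne hB
  have hη : ℵ₀ ≤ η := hl.trans hlη.le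
  have hK : IsSuccType η (Order.succ η).ord.ToType := IsSuccType.toType hη
  obtain ⟨S0, G, hS0, hG1, hG2⟩ := hB
  obtain ⟨S, hSS, hS, hS2⟩ := bad_restrict hGCH hl hlη ((stat_iff hK).2 hS0) hG1 hG2
  obtain ⟨a, C, hC, haC⟩ := hAP
  obtain ⟨F0, hF0⟩ := trace_small hGCH hl hlη hG2
  obtain ⟨F1, hF1⟩ := club_closed hK hC
  obtain ⟨E, ν, hE, hν, hEν⟩ := exists_filtration_unif hη
  let K := (Order.succ η).ord.ToType
  let M := η.ord.cof.ord.ToType
  have hM : #M ≤ lam := by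
    show #(η.ord.cof.ord.ToType) ≤ lam
    rw [mk_ord_toType, hcof]
    exact Ordinal.cof_ord_le lam
  let U : K → M → Set K := fun α n => ⋃ y : a α, E y.1 n
  have hU : ∀ α n, #(a α) ≤ lam → #(U α n) < η := by
    intro α n hα
    have h1 : #(U α n) ≤ #(a α) * ν n := by
      refine mk_iUnion_le_sum_mk.trans ((sum_le_sum _ (fun _ => ν n) fun y : a α => hEν y.1 n).trans ?_)
      rw [sum_const, lift_id, lift_id]
    exact h1.trans_lt (mul_lt_of_lt hη (hα.trans_lt hlη) (hν n))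
  have hF2 : ∀ α, ∃ c, #(a α) ≤ lam → ∀ n, ∀ δ ∈ S, lam ≤ #(G δ ∩ U α n : Set K) → δ < c := by
    intro α
    by_cases hα : #(a α) ≤ lam
    · obtain ⟨c, hc⟩ := hK.bdd (⋃ n, {δ | δ ∈ S ∧ lam ≤ #(G δ ∩ U α n : Set K)})
        (card_iUnion_le hη _ (hM.trans hlη.le) fun n => by
          have hAD : AD lam fun δ : S => G δ.1 := fun i j hij => hG2 i.1 (hSS i.2) j.1 (hSS j.2)
            fun h => hij (Subtype.ext h)
          refine le_trans ?_ ((few_sets hAD (U α n)).trans (pow_small hGCH hl hlη (hU α n hα)))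
          exact mk_le_of_injective (f := fun δ : {δ | δ ∈ S ∧ lam ≤ #(G δ ∩ U α n : Set K)} =>
            (⟨⟨δ.1, δ.2.1⟩, δ.2.2⟩ : {i : S | lam ≤ #(G i.1 ∩ U α n : Set K)}))
            fun x x' h => Subtype.ext (congrArg (fun z : {i : S | lam ≤
              #(G i.1 ∩ U α n : Set K)} => z.1.1) h))
      exact ⟨c, fun _ n δ hδ h => hc δ (mem_iUnion.2 ⟨n, hδ, h⟩)⟩
    · exact ⟨α, fun h => absurd h hα⟩
  choose F2 hF2 using hF2
  obtain ⟨δ, hδ, ⟨a0, ha0⟩, hcl⟩ := hS fun x => max (F0 x) (max (F1 x) (F2 x))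
  have hcl0 : Cl F0 δ := fun x hx => (le_max_left _ _).trans_lt (hcl x hx)
  have hcl1 : Cl F1 δ := fun x hx =>
    ((le_max_left _ _).trans (le_max_right _ _)).trans_lt (hcl x hx)
  have hcl2 : Cl F2 δ := fun x hx =>
    ((le_max_right _ _).trans (le_max_right _ _)).trans_lt (hcl x hx)
  have hGδ := hG1 δ (hSS hδ)
  have htr : ∀ y < δ, #(G δ ∩ Iic y : Set K) ≤ lam := fun y hy =>
    (hF0 δ hcl0 δ (hSS hδ) le_rfl y hy).1
  have hreg : (Order.succ lam).ord.cof = Order.succ lam := (isRegular_succ hl).cof_ord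
  -- the cofinality of `δ`
  have hcofδ : Order.cof (Iio δ) = Order.succ lam := by
    have h1 : Ordinal.type ((· < ·) : G δ → G δ → Prop) = (Order.succ lam).ord := by
      refine type_eq_of_init (fun b => ?_) hGδ.2.ge
      rw [Order.lt_succ_iff]
      refine le_trans ?_ (htr b.1 (hGδ.1 b.2))
      exact mk_le_of_injective (f := fun x : (Iio b : Set (G δ)) => (⟨x.1.1, x.1.2,
        (show x.1 < b from x.2).le⟩ : (G δ ∩ Iic b.1 : Set K))) fun x y hxy =>
        Subtype.ext (Subtype.ext (congrArg (fun z : (G δ ∩ Iic b.1 : Set K) => z.1) hxy))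
    have h2 : Order.cof (G δ) = Order.cof (Iio δ) := by
      refine Order.cof_congr_of_strictMono (f := fun x : G δ => (⟨x.1, hGδ.1 x.2⟩ : Iio δ))
        (fun x y hxy => hxy) ?_
      rintro ⟨b, hb⟩
      by_contra hcon
      push Not at hcon
      have h3 : G δ ⊆ G δ ∩ Iic b := fun x hx => ⟨hx, (hcon ⟨x, hGδ.1 hx⟩ ⟨⟨x, hx⟩, rfl⟩).le⟩
      have h4 := (mk_le_mk_of_subset h3).trans (htr b hb)
      rw [hGδ.2] at h4
      exact absurd h4 (not_le.2 (Order.lt_succ lam))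
    rw [← h2, ← Ordinal.cof_type, h1, hreg]
  obtain ⟨A, hA1, hA2, hA3, hA4⟩ := haC δ (hF1 δ ⟨a0, ha0⟩ hcl1) hcofδ
  rw [hcofδ] at hA3
  have hAc : #A = Order.succ lam := by
    have := congrArg Ordinal.card hA3
    rwa [Ordinal.card_type, card_ord] at this
  have hAβ : ∀ β < δ, #(A ∩ Iio β : Set K) ≤ lam := by
    intro β hβ
    obtain ⟨x, hx, hβx⟩ := hA2 β hβ
    have h1 := mk_Iio_lt (⟨x, hx⟩ : A) (by rw [hA3, hAc])
    rw [hAc, Order.lt_succ_iff] at h1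
    refine le_trans ?_ h1
    exact mk_le_of_injective (f := fun z : (A ∩ Iio β : Set K) => (⟨⟨z.1, z.2.1⟩,
      lt_of_lt_of_le (show z.1 < β from z.2.2) hβx⟩ : (Iio (⟨x, hx⟩ : A) : Set A))) fun z z' h =>
        Subtype.ext (congrArg (fun w : (Iio (⟨x, hx⟩ : A) : Set A) => w.1.1) h)
  have hgt : ∀ x < δ, ∃ y ∈ A, x < y := by
    intro x hx
    obtain ⟨b, hb, hxb⟩ := hS2 δ hδ PUnit (by
      rw [mk_punit]; exact one_le_aleph0.trans hl) (fun _ => x) fun _ => hx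
    obtain ⟨y, hy, hby⟩ := hA2 b hb
    exact ⟨y, hy, (hxb ⟨⟩).trans_le hby⟩
  choose y hy1 hy2 using fun x : G δ => hgt x.1 (hGδ.1 x.2)
  choose n hn using fun x : G δ => hE.cover (y x) x.1 (hy2 x)
  obtain ⟨n0, hn0⟩ : ∃ n0, lam ≤ #{x | n x = n0} := by
    by_contra hcon
    push Not at hcon
    have h1 : (Set.univ : Set (G δ)) = ⋃ m, {x | n x = m} := by
      ext x
      simp
    have h2 : #(Set.univ : Set (G δ)) ≤ lam := by
      rw [h1]
      exact card_iUnion_le hl _ hM fun m => (hcon m).le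
    rw [mk_univ, hGδ.2] at h2
    exact absurd h2 (not_le.2 (Order.lt_succ lam))
  obtain ⟨Y, hY1, hY2⟩ := le_mk_iff_exists_subset.1 hn0
  obtain ⟨β, hβ, hβ2⟩ := hS2 δ hδ Y hY2.le (fun x => y x.1) fun x => hA1 (hy1 x.1)
  obtain ⟨α, hα, hα2⟩ := hA4 β hβ
  have h1 : lam ≤ #(G δ ∩ U α n0 : Set K) := by
    rw [← hY2]
    refine mk_le_of_injective (f := fun x : Y => (⟨x.1.1, x.1.2, mem_iUnion.2 ⟨⟨y x.1, ?_⟩, ?_⟩⟩ :
      (G δ ∩ U α n0 : Set K))) fun x x' h => Subtype.ext (Subtype.ext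
        (congrArg (fun z : (G δ ∩ U α n0 : Set K) => z.1) h))
    · rw [← hα2]
      exact ⟨hy1 x.1, hβ2 x⟩
    · have h3 : n x.1 = n0 := hY1 x.2
      have h4 := hn x.1
      rwa [h3] at h4
  exact absurd ((hF2 α (by rw [← hα2]; exact hAβ β hβ) n0 δ hδ h1).trans (hcl2 α hα))
    (lt_irrefl _)

end

end Pool.Agent.H645.T
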