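import Mathlib
import Pool.Agent.H645.TF

set_option autoImplicit false

/-!
# The good cardinals for a finite degree of disjunction
-/

namespace Pool.Agent.H645.T

open Cardinal Set

universe u

section fin

variable {κ ι : Cardinal.{u}}

theorem one_lt_of_lt (hκ : ℵ₀ ≤ κ) (hκι : κ < ι) : (1 : Cardinal.{u}) < ι :=
  (one_lt_aleph0.trans_le hκ).trans hκι

/-- degree at most one: everything is good -/
theorem good_le_one (hκ : ℵ₀ ≤ κ) (hκι : κ < ι) {lam : Cardinal.{u}} (hl : lam ≤ 1) :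
    Good ι κ lam := by
  intro X 𝒜 h𝒜 hA hd
  have hdis : ∀ A ∈ 𝒜, ∀ B ∈ 𝒜, A ≠ B → #(A ∩ B : Set X) < lam := fun A hA' B hB' hne => by
    rw [← hd]
    exact lt_degree hA hA' hB' hne
  have hemp : ∀ A ∈ 𝒜, ∀ B ∈ 𝒜, A ≠ B → (A ∩ B : Set X) = ∅ := fun A hA' B hB' hne => by
    have h1 : #(A ∩ B : Set X) < 1 := (hdis A hA' B hB' hne).trans_le hl
    rw [Cardinal.lt_one_iff, mk_eq_zero_iff, isEmpty_coe_sort] at h1
    exact h1
  have hpos : 0 < lam := by
    have h1 : 1 < #𝒜 := h𝒜 ▸ one_lt_of_lt hκ hκι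
    obtain ⟨A, B, hne⟩ := (one_lt_iff_nontrivial.1 h1).exists_pair_ne
    exact bot_le.trans_lt (hdis A.1 A.2 B.1 B.2 fun h => hne (Subtype.ext h))
  have hne : ∀ A : 𝒜, (A.1 : Set X).Nonempty := fun A => by
    rw [← nonempty_coe_sort, ← mk_ne_zero_iff, hA A.1 A.2]
    exact (aleph0_pos.trans_le hκ).ne'
  choose f hf using hne
  refine ⟨range f, fun A hA' => ?_⟩
  have h2 : (range f ∩ A : Set X) = {f ⟨A, hA'⟩} := by
    ext x
    constructor
    · rintro ⟨⟨B, rfl⟩, hx⟩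
      by_contra hcon
      have hBA : B.1 ≠ A := by
        rintro h
        exact hcon (by rw [mem_singleton_iff]; exact congrArg f (Subtype.ext h))
      have : f B ∈ (B.1 ∩ A : Set X) := ⟨hf B, hx⟩
      rw [hemp B.1 B.2 A hA' hBA] at this
      exact this
    · rintro rfl
      exact ⟨⟨_, rfl⟩, hf ⟨A, hA'⟩⟩
  rw [h2]
  refine ⟨singleton_nonempty _, ?_⟩
  rw [mk_singleton]
  have h3 : (1 : Cardinal.{u}) ≤ lam := Cardinal.one_le_iff_pos.2 hpos
  exact Order.lt_succ_iff.2 h3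

/-! ### the family -/

/-- guessing sets of size `κ` -/
theorem exists_guess (hκ : ℵ₀ ≤ κ) (h2 : (2 : Cardinal.{u}) ^ κ = Order.succ κ) {B : Type u}
    (hB : #B ≤ Order.succ κ) :
    ∃ e : (Order.succ κ).ord.ToType → Set ((Order.succ κ).ord.ToType × B),
      ∀ H : Set ((Order.succ κ).ord.ToType × B), #H ≤ κ → ∃ α, e α = H ∧ ∀ x ∈ H, x.1 < α := by
  classical
  have hK : IsSuccType κ (Order.succ κ).ord.ToType := IsSuccType.toType hκ
  have hs : ℵ₀ ≤ Order.succ κ := hκ.trans (Order.le_succ κ)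
  have hX : #((Order.succ κ).ord.ToType × B) ≤ Order.succ κ := by
    rw [mk_prod, lift_id, lift_id, mk_ord_toType]
    exact (mul_le_mul' le_rfl hB).trans_eq (mul_eq_self hs)
  have hcard : #({H : Set ((Order.succ κ).ord.ToType × B) // #H ≤ κ} ×
      (Order.succ κ).ord.ToType) ≤ #(Order.succ κ).ord.ToType := by
    rw [mk_prod, lift_id, lift_id, mk_ord_toType]
    refine (mul_le_mul' (?_ : _ ≤ Order.succ κ) le_rfl).trans_eq (mul_eq_self hs)
    refine (mk_bounded_set_le _ κ).trans ?_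
    refine (power_le_power_right (max_le hX hs)).trans ?_
    rw [← h2, ← power_mul, mul_eq_self hκ]
  obtain ⟨g⟩ := hcard
  refine ⟨fun α => if h : ∃ p, g p = α then h.choose.1.1 else ∅, fun H hH => ?_⟩
  have hb : ∃ β0 : (Order.succ κ).ord.ToType, ∀ x ∈ H, x.1 < β0 := by
    obtain ⟨b, hb⟩ := hK.bdd (Prod.fst '' H) (mk_image_le.trans hH)
    exact ⟨b, fun x hx => hb _ ⟨x, hx, rfl⟩⟩
  obtain ⟨β0, hβ0⟩ := hb
  have hex : ∃ β, β0 ≤ g (⟨H, hH⟩, β) := by
    by_contra hcon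
    have h1 : ∀ β, g (⟨H, hH⟩, β) < β0 := fun β => not_le.1 fun h => hcon ⟨β, h⟩
    have h3 : #(Order.succ κ).ord.ToType ≤ #(Iio β0) := mk_le_of_injective
      (f := fun β => (⟨g (⟨H, hH⟩, β), h1 β⟩ : Iio β0)) fun a b hab => by
        have := g.injective (congrArg Subtype.val hab)
        exact (Prod.ext_iff.1 this).2
    exact absurd (hK.lt.trans_le h3) (not_lt.2 (hK.init β0))
  obtain ⟨β, hβ⟩ := hex
  refine ⟨g (⟨H, hH⟩, β), ?_, fun x hx => (hβ0 x hx).trans_le hβ⟩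
  have h4 : ∃ p, g p = g (⟨H, hH⟩, β) := ⟨_, rfl⟩
  show (if h : ∃ p, g p = g (⟨H, hH⟩, β) then h.choose.1.1 else ∅) = H
  rw [dif_pos h4, g.injective h4.choose_spec]

/-- sums of families, for positive degrees -/
theorem AD.sum_pos {lam : Cardinal.{u}} {J J' X X' : Type u} (hl : 0 < lam) {A : J → Set X}
    {B : J' → Set X'} (hA : AD lam A) (hB : AD lam B) : AD lam (SumF A B) := by
  have hmix : ∀ i j, #(Sum.inl '' A i ∩ Sum.inr '' B j : Set (X ⊕ X')) < lam := by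
    intro i j
    have h1 : (Sum.inl '' A i ∩ Sum.inr '' B j : Set (X ⊕ X')) = ∅ := by
      refine eq_empty_of_forall_notMem ?_
      rintro _ ⟨⟨p, _, rfl⟩, q, _, h⟩
      exact Sum.inr_ne_inl h
    rw [h1, mk_eq_zero]
    exact hl
  rintro (i | i) (j | j) hne
  · show #(Sum.inl '' A i ∩ Sum.inl '' A j : Set (X ⊕ X')) < lam
    rw [← image_inter Sum.inl_injective, mk_image_eq Sum.inl_injective]
    exact hA i j fun h => hne (by rw [h])
  · exact hmix i j
  · have := hmix j i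
    rwa [inter_comm] at this
  · show #(Sum.inr '' B i ∩ Sum.inr '' B j : Set (X ⊕ X')) < lam
    rw [← image_inter Sum.inr_injective, mk_image_eq Sum.inr_injective]
    exact hB i j fun h => hne (by rw [h])

/-- two sets which meet in exactly `s` points -/
def Two (s : ℕ) (Q : Type u) (b : ULift.{u} Bool) : Set (ULift.{u} (Fin s) ⊕ (ULift.{u} Bool × Q)) :=
  range Sum.inl ∪ Sum.inr '' Col (ULift.{u} Bool) Q b

theorem Two_inter {s : ℕ} {Q : Type u} {b c : ULift.{u} Bool} (h : b ≠ c) :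
    #(Two s Q b ∩ Two s Q c : Set (ULift.{u} (Fin s) ⊕ (ULift.{u} Bool × Q))) = (s : Cardinal.{u}) := by
  have h1 : (Two s Q b ∩ Two s Q c : Set (ULift.{u} (Fin s) ⊕ (ULift.{u} Bool × Q))) =
      range Sum.inl := by
    apply Subset.antisymm
    · rintro _ ⟨⟨t, rfl⟩ | ⟨x, hx, rfl⟩, ⟨t', h2⟩ | ⟨x', hx', h2⟩⟩
      · exact ⟨_, rfl⟩
      · exact ⟨_, rfl⟩
      · exact absurd h2 Sum.inl_ne_inr
      · rw [Sum.inr_injective h2] at hx'
        exact absurd (Eq.trans (Eq.symm hx) hx') h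
    · exact fun x hx => ⟨Or.inl hx, Or.inl hx⟩
  rw [h1, mk_range_eq _ Sum.inl_injective, mk_uLift, mk_fin, lift_natCast]

theorem Two_card (hκ : ℵ₀ ≤ κ) (s : ℕ) (b : ULift.{u} Bool) : #(Two s κ.ord.ToType b) = κ := by
  apply le_antisymm
  · refine (mk_union_le _ _).trans ?_
    rw [mk_range_eq _ Sum.inl_injective, mk_uLift, mk_fin, lift_natCast,
      mk_image_eq Sum.inr_injective, card_Col, mk_ord_toType]
    exact (add_le_add ((natCast_lt_aleph0 (n := s)).le.trans hκ) le_rfl).trans_eq (add_eq_self hκ)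
  · refine le_trans ?_ (mk_le_mk_of_subset subset_union_right)
    rw [mk_image_eq Sum.inr_injective, card_Col, mk_ord_toType]

/-- the blocks -/
abbrev Blk (Q : Type u) : Type u := Q ⊕ (Q ⊕ ((Q × Q) × Q))

/-- the description of the points of a line in its own block -/
def InBlk {Q : Type u} : (Q × Q) ⊕ ULift.{u} Bool → Blk Q → Prop
  | Sum.inl p, Sum.inl i => i = p.1
  | Sum.inl p, Sum.inr (Sum.inl l) => l = p.2
  | Sum.inl p, Sum.inr (Sum.inr q) => q.1 = p
  | Sum.inr b, Sum.inl _ => b.down = true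
  | Sum.inr b, Sum.inr (Sum.inl _) => b.down = false
  | Sum.inr _, Sum.inr (Sum.inr _) => False

/-- the points of a line in the earlier blocks -/
def ZZ {K Q : Type u} (Z : K → Q × Q → Set (K × Blk Q)) :
    K × ((Q × Q) ⊕ ULift.{u} Bool) → Set (K × Blk Q)
  | (α, Sum.inl p) => Z α p
  | (_, Sum.inr _) => ∅

/-- the members of the family without transversals -/
def Line {K Q : Type u} (Z : K → Q × Q → Set (K × Blk Q)) (j : K × ((Q × Q) ⊕ ULift.{u} Bool)) :
    Set (K × Blk Q) := {x | x.1 = j.1 ∧ InBlk j.2 x.2} ∪ ZZ Z j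

theorem card_blk (hκ : ℵ₀ ≤ κ) : #(Blk κ.ord.ToType) = κ := by
  rw [mk_sum, mk_sum, mk_prod, mk_prod]
  simp only [lift_id, mk_ord_toType]
  rw [mul_eq_self hκ, mul_eq_self hκ, add_eq_self hκ, add_eq_self hκ]

/-- the sets which are put into the lines -/
theorem exists_Z (hκ : ℵ₀ ≤ κ) (s : ℕ) {K : Type u} [LinearOrder K]
    (e : K → Set (K × Blk κ.ord.ToType)) :
    ∃ Z : K → κ.ord.ToType × κ.ord.ToType → Set (K × Blk κ.ord.ToType),
      (∀ α p, ∀ x ∈ Z α p, x.1 < α) ∧ (∀ α p, #(Z α p) ≤ (s : Cardinal.{u})) ∧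
      (∀ α p q x, x ∈ Z α p → x ∈ Z α q → p = q) ∧
      ∀ α, (∀ x ∈ e α, x.1 < α) → κ ≤ #(e α) → ∀ p, Z α p ⊆ e α ∧ #(Z α p) = (s : Cardinal.{u}) := by
  classical
  have h1 : ∀ α, ∃ Z : κ.ord.ToType × κ.ord.ToType → Set (K × Blk κ.ord.ToType),
      (∀ p, ∀ x ∈ Z p, x.1 < α) ∧ (∀ p, #(Z p) ≤ (s : Cardinal.{u})) ∧
      (∀ p q x, x ∈ Z p → x ∈ Z q → p = q) ∧
      ((∀ x ∈ e α, x.1 < α) → κ ≤ #(e α) → ∀ p, Z p ⊆ e α ∧ #(Z p) = (s : Cardinal.{u})) := by
    intro α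
    by_cases h : (∀ x ∈ e α, x.1 < α) ∧ κ ≤ #(e α)
    · have h2 : #((κ.ord.ToType × κ.ord.ToType) × ULift.{u} (Fin s)) ≤ #(e α) := by
        refine le_trans ?_ h.2
        rw [mk_prod, mk_prod]
        simp only [lift_id, mk_ord_toType]
        rw [mul_eq_self hκ, mk_uLift, mk_fin, lift_natCast]
        exact (mul_le_mul' le_rfl ((natCast_lt_aleph0 (n := s)).le.trans hκ)).trans_eq
          (mul_eq_self hκ)
      obtain ⟨g⟩ := h2
      refine ⟨fun p => range fun t => (g (p, t)).1, ?_, ?_, ?_, fun _ _ p => ⟨?_, ?_⟩⟩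
      · rintro p _ ⟨t, rfl⟩
        exact h.1 _ (g (p, t)).2
      · intro p
        refine mk_range_le.trans ?_
        rw [mk_uLift, mk_fin, lift_natCast]
      · rintro p q _ ⟨t, rfl⟩ ⟨t', ht⟩
        exact (congrArg Prod.fst (g.injective (Subtype.ext ht))).symm
      · rintro _ ⟨t, rfl⟩
        exact (g (p, t)).2
      · rw [mk_range_eq, mk_uLift, mk_fin, lift_natCast]
        intro t t' ht
        exact congrArg Prod.snd (g.injective (Subtype.ext ht))
    · refine ⟨fun _ => ∅, fun p x hx => hx.elim, fun p => ?_, fun p q x hx => hx.elim,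
        fun h2 h3 => absurd ⟨h2, h3⟩ h⟩
      rw [mk_eq_zero]
      exact bot_le
  choose Z hZ using h1
  exact ⟨Z, fun α => (hZ α).1, fun α => (hZ α).2.1, fun α => (hZ α).2.2.1,
    fun α => (hZ α).2.2.2⟩

section line

variable {K Q : Type u} [LinearOrder K] {Z : K → Q × Q → Set (K × Blk Q)}
  {j j' : K × ((Q × Q) ⊕ ULift.{u} Bool)}

theorem ZZ_lt (h1 : ∀ α p, ∀ x ∈ Z α p, x.1 < α) {x : K × Blk Q} (hx : x ∈ ZZ Z j) :
    x.1 < j.1 := by
  obtain ⟨α, p | b⟩ := j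
  · exact h1 _ _ _ hx
  · exact hx.elim

omit [LinearOrder K] in
theorem card_ZZ {s : ℕ} (h2 : ∀ α p, #(Z α p) ≤ (s : Cardinal.{u})) :
    #(ZZ Z j) ≤ (s : Cardinal.{u}) := by
  obtain ⟨α, p | b⟩ := j
  · exact h2 α p
  · show #(∅ : Set (K × Blk Q)) ≤ _
    rw [mk_eq_zero]
    exact bot_le

theorem InBlk_unique {t t' : (Q × Q) ⊕ ULift.{u} Bool} (ht : t ≠ t') {y y' : Blk Q}
    (h1 : InBlk t y) (h2 : InBlk t' y) (h3 : InBlk t y') (h4 : InBlk t' y') : y = y' := by
  rcases t with ⟨i, l⟩ | ⟨_ | _⟩ <;> rcases t' with ⟨i', l'⟩ | ⟨_ | _⟩ <;>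
    rcases y with y | y | ⟨⟨y1, y2⟩, y3⟩ <;> rcases y' with z | z | ⟨⟨z1, z2⟩, z3⟩ <;>
    simp_all [InBlk]

/-- two lines meet in at most `s` points -/
theorem Line_inter {s : ℕ} (hs : 1 ≤ s) (h1 : ∀ α p, ∀ x ∈ Z α p, x.1 < α)
    (h2 : ∀ α p, #(Z α p) ≤ (s : Cardinal.{u})) (h3 : ∀ α p q x, x ∈ Z α p → x ∈ Z α q → p = q)
    (hjj : j ≠ j') : #(Line Z j ∩ Line Z j' : Set (K × Blk Q)) ≤ (s : Cardinal.{u}) := by
  wlog hle : j.1 ≤ j'.1 generalizing j j'
  · rw [inter_comm]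
    exact this (Ne.symm hjj) (le_of_not_ge hle)
  rcases hle.eq_or_lt with h | h
  · have h4 : (Line Z j ∩ Line Z j' : Set (K × Blk Q)).Subsingleton := by
      have hne : j.2 ≠ j'.2 := fun h' => hjj (Prod.ext h h')
      have h5 : ∀ x, x ∈ (Line Z j ∩ Line Z j' : Set (K × Blk Q)) → x.1 = j.1 ∧
          InBlk j.2 x.2 ∧ InBlk j'.2 x.2 := by
        rintro x ⟨h5 | h5, h6 | h6⟩
        · exact ⟨h5.1, h5.2, h6.2⟩
        · exact absurd (h5.1.trans h) (ZZ_lt h1 h6).ne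
        · exact absurd (h6.1.trans h.symm) (ZZ_lt h1 h5).ne
        · exfalso
          obtain ⟨α, p | b⟩ := j <;> obtain ⟨β, q | c⟩ := j'
          · have h' : α = β := h
            subst h'
            exact hjj (by rw [h3 α p q x h5 h6])
          · exact h6.elim
          · exact h5.elim
          · exact h5.elim
      intro x hx y hy
      have h6 := h5 x hx
      have h7 := h5 y hy
      exact Prod.ext (h6.1.trans h7.1.symm) (InBlk_unique hne h6.2.1 h6.2.2 h7.2.1 h7.2.2)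
    refine le_trans ?_ (Nat.cast_le.2 hs : ((1 : ℕ) : Cardinal.{u}) ≤ (s : Cardinal.{u}))
    rw [Nat.cast_one]
    exact mk_le_one_iff_set_subsingleton.2 h4
  · refine le_trans (mk_le_mk_of_subset ?_) (card_ZZ (j := j') h2)
    rintro x ⟨h5, h6 | h6⟩
    · exfalso
      have h7 : x.1 ≤ j.1 := by
        rcases h5 with h5 | h5
        · exact h5.1.le
        · exact (ZZ_lt h1 h5).le
      exact absurd (h6.1 ▸ h7) (not_le.2 h)
    · exact h6

omit [LinearOrder K] in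
theorem Line_card (hκ : ℵ₀ ≤ κ) {s : ℕ} {Z : K → κ.ord.ToType × κ.ord.ToType →
    Set (K × Blk κ.ord.ToType)} {j : K × ((κ.ord.ToType × κ.ord.ToType) ⊕ ULift.{u} Bool)}
    (h2 : ∀ α p, #(Z α p) ≤ (s : Cardinal.{u})) : #(Line Z j) = κ := by
  apply le_antisymm
  · refine (mk_union_le _ _).trans ((add_le_add ?_ ((card_ZZ h2).trans
      ((natCast_lt_aleph0 (n := s)).le.trans hκ))).trans_eq (add_eq_self hκ))
    refine le_trans ?_ (card_blk hκ).le
    exact mk_le_of_injective (f := fun x : {x : K × Blk κ.ord.ToType | x.1 = j.1 ∧ InBlk j.2 x.2} =>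
      x.1.2) fun x y hxy => Subtype.ext (Prod.ext (x.2.1.trans y.2.1.symm) hxy)
  · refine le_trans (b := #κ.ord.ToType) (mk_ord_toType κ).ge ?_
    obtain ⟨α, ⟨i, l⟩ | ⟨_ | _⟩⟩ := j
    · exact mk_le_of_injective (f := fun k => (⟨(α, Sum.inr (Sum.inr ((i, l), k))),
        Or.inl ⟨rfl, rfl⟩⟩ : Line Z (α, Sum.inl (i, l)))) fun k k' h => by
          have := congrArg Subtype.val h
          simpa using this
    · exact mk_le_of_injective (f := fun k => (⟨(α, Sum.inr (Sum.inl k)),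
        Or.inl ⟨rfl, rfl⟩⟩ : Line Z (α, Sum.inr ⟨false⟩))) fun k k' h => by
          have := congrArg Subtype.val h
          simpa using this
    · exact mk_le_of_injective (f := fun k => (⟨(α, Sum.inl k),
        Or.inl ⟨rfl, rfl⟩⟩ : Line Z (α, Sum.inr ⟨true⟩))) fun k k' h => by
          have := congrArg Subtype.val h
          simpa using this

end line

/-- finite degree at least two: nothing above `κ` is good -/
theorem not_good_fin (hκ : ℵ₀ ≤ κ) (h2 : (2 : Cardinal.{u}) ^ κ = Order.succ κ) (hκι : κ < ι)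
    {s : ℕ} (hs : 1 ≤ s) : ¬ Good ι κ ((s + 1 : ℕ) : Cardinal.{u}) := by
  classical
  have hι : ℵ₀ ≤ ι := hκ.trans hκι.le
  have hsι : (Order.succ κ) ≤ ι := Order.succ_le_of_lt hκι
  let K := (Order.succ κ).ord.ToType
  let Q := κ.ord.ToType
  let I := ι.ord.ToType
  have hK : IsSuccType κ K := IsSuccType.toType hκ
  obtain ⟨e, he⟩ := exists_guess (B := Blk Q) hκ h2 ((card_blk hκ).le.trans (Order.le_succ κ))
  obtain ⟨Z, hZ1, hZ2, hZ3, hZ4⟩ := exists_Z hκ s e
  have hcast : ((s + 1 : ℕ) : Cardinal.{u}) = (s : Cardinal.{u}) + 1 := by push_cast; rfl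
  have hslt : (s : Cardinal.{u}) < ((s + 1 : ℕ) : Cardinal.{u}) := Nat.cast_lt.2 (Nat.lt_succ_self s)
  have hpos : (0 : Cardinal.{u}) < ((s + 1 : ℕ) : Cardinal.{u}) := bot_le.trans_lt hslt
  have hsκ : ((s + 1 : ℕ) : Cardinal.{u}) < κ := (natCast_lt_aleph0 (n := s + 1)).trans_le hκ
  have hA : AD ((s + 1 : ℕ) : Cardinal.{u}) (Line Z) := fun i j hij =>
    (Line_inter hs hZ1 hZ2 hZ3 hij).trans_lt hslt
  let D : I → Set (I × Q) := Col I Q
  have hD : AD ((s + 1 : ℕ) : Cardinal.{u}) D := by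
    intro i j hij
    have h1 : (D i ∩ D j : Set (I × Q)) = ∅ := by
      refine eq_empty_of_forall_notMem ?_
      rintro x ⟨h1, h2⟩
      exact hij (Eq.trans (Eq.symm h1) h2)
    rw [h1, mk_eq_zero]
    exact hpos
  have hP : AD ((s + 1 : ℕ) : Cardinal.{u}) (Two s Q) := fun i j hij => by
    rw [Two_inter hij]
    exact hslt
  let B := SumF (Line Z) (SumF (Two s Q) D)
  have hB : AD ((s + 1 : ℕ) : Cardinal.{u}) B := hA.sum_pos hpos (AD.sum_pos hpos hP hD)
  have hBc : ∀ j, #(B j) = κ := by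
    rintro (j | j | j)
    · show #(Sum.inl '' Line Z j : Set _) = κ
      rw [mk_image_eq Sum.inl_injective, Line_card hκ hZ2]
    · show #(Sum.inr '' (Sum.inl '' Two s Q j) : Set _) = κ
      rw [mk_image_eq Sum.inr_injective, mk_image_eq Sum.inl_injective, Two_card hκ]
    · show #(Sum.inr '' (Sum.inr '' Col I Q j) : Set _) = κ
      rw [mk_image_eq Sum.inr_injective, mk_image_eq Sum.inr_injective, card_Col, mk_ord_toType]
  have hinj : Function.Injective B := by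
    intro i j hij
    by_contra hne
    have h1 := hB i j hne
    rw [hij, inter_self, hBc] at h1
    exact absurd (hsκ.trans h1) (lt_irrefl _)
  intro hG
  have hfam : #(range B) = ι ∧ (∀ A ∈ range B, #A = κ) ∧
      degree (range B) = ((s + 1 : ℕ) : Cardinal.{u}) := by
    refine ⟨?_, ?_, ?_⟩
    · have hI : #I = ι := mk_ord_toType ι
      rw [mk_range_eq _ hinj, mk_sum, mk_sum, mk_prod, mk_sum, mk_prod]
      simp only [lift_id]
      rw [hI, mk_ord_toType, mk_ord_toType, mul_eq_self hκ]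
      have hb : #(ULift.{u} Bool) ≤ ι := (mk_le_aleph0 (α := ULift.{u} Bool)).trans hι
      apply le_antisymm
      · refine (add_le_add ((mul_le_mul' hsι ((add_le_add hκι.le hb).trans_eq
          (add_eq_self hι))).trans_eq (mul_eq_self hι)) (add_le_add hb le_rfl)).trans_eq ?_
        rw [add_eq_self hι, add_eq_self hι]
      · exact le_add_left (le_add_left le_rfl)
    · rintro _ ⟨j, rfl⟩
      exact hBc j
    · apply le_antisymm
      · refine csInf_le' ?_
        rintro _ ⟨i, rfl⟩ _ ⟨j, rfl⟩ hne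
        exact hB i j fun h => hne (by rw [h])
      · refine le_csInf ⟨((s + 1 : ℕ) : Cardinal.{u}), ?_⟩ fun d hd => ?_
        · rintro _ ⟨i, rfl⟩ _ ⟨j, rfl⟩ hne
          exact hB i j fun h => hne (by rw [h])
        · have hne : (⟨true⟩ : ULift.{u} Bool) ≠ ⟨false⟩ := fun h =>
            Bool.noConfusion (congrArg ULift.down h)
          have h1 := hd (B (Sum.inr (Sum.inl ⟨true⟩))) ⟨_, rfl⟩
            (B (Sum.inr (Sum.inl ⟨false⟩))) ⟨_, rfl⟩ fun h =>
              hne (Sum.inl_injective (Sum.inr_injective (hinj h)))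
          have h3 : (B (Sum.inr (Sum.inl ⟨true⟩)) ∩ B (Sum.inr (Sum.inl ⟨false⟩)) : Set _) =
              Sum.inr '' (Sum.inl '' (Two s Q ⟨true⟩ ∩ Two s Q ⟨false⟩)) := by
            show (Sum.inr '' (Sum.inl '' Two s Q ⟨true⟩) ∩ Sum.inr '' (Sum.inl '' Two s Q ⟨false⟩) :
              Set _) = _
            rw [← image_inter Sum.inr_injective, ← image_inter Sum.inl_injective]
          rw [h3, mk_image_eq Sum.inr_injective, mk_image_eq Sum.inl_injective,
            Two_inter hne] at h1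
          have h4 : ((s + 1 : ℕ) : Cardinal.{u}) = Order.succ (s : Cardinal.{u}) := by
            rw [Cardinal.succ_natCast, hcast]
          rw [h4]
          exact Order.succ_le_of_lt h1
  obtain ⟨T, hT⟩ := hG _ (range B) hfam.1 hfam.2.1 hfam.2.2
  let T' : Set (K × Blk Q) := Sum.inl ⁻¹' T
  have hT1 : ∀ j, (T' ∩ Line Z j).Nonempty := by
    intro j
    obtain ⟨_, hx, x, hxA, rfl⟩ := (hT (B (Sum.inl j)) ⟨_, rfl⟩).1
    exact ⟨x, hx, hxA⟩
  have hT2 : ∀ j, #(T' ∩ Line Z j : Set (K × Blk Q)) ≤ ((s + 1 : ℕ) : Cardinal.{u}) := by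
    intro j
    refine le_trans ?_ (Order.lt_succ_iff.1 (hT (B (Sum.inl j)) ⟨_, rfl⟩).2)
    exact mk_le_of_injective (f := fun x : (T' ∩ Line Z j : Set (K × Blk Q)) =>
      (⟨Sum.inl x.1, x.2.1, x.1, x.2.2, rfl⟩ : (T ∩ B (Sum.inl j) : Set _)))
      fun a b hab => Subtype.ext (Sum.inl_injective (congrArg Subtype.val hab))
  have hx : ∀ α : K, ∃ i : Q, (α, Sum.inl i) ∈ T' := by
    intro α
    obtain ⟨⟨β, y⟩, h3, ⟨h4, h5⟩ | h4⟩ := hT1 (α, Sum.inr ⟨true⟩)
    · have h4' : β = α := h4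
      subst h4'
      rcases y with y | y | y
      · exact ⟨y, h3⟩
      · exact absurd h5 (by simp [InBlk])
      · exact h5.elim
    · exact h4.elim
  have hy : ∀ α : K, ∃ i : Q, (α, Sum.inr (Sum.inl i)) ∈ T' := by
    intro α
    obtain ⟨⟨β, y⟩, h3, ⟨h4, h5⟩ | h4⟩ := hT1 (α, Sum.inr ⟨false⟩)
    · have h4' : β = α := h4
      subst h4'
      rcases y with y | y | y
      · exact absurd h5 (by simp [InBlk])
      · exact ⟨y, h3⟩
      · exact h5.elim
    · exact h4.elim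
  choose i hi using hx
  choose l hl using hy
  have hQK : #Q ≤ #K := by
    rw [mk_ord_toType, mk_ord_toType]
    exact Order.le_succ κ
  obtain ⟨m⟩ := hQK
  let H : Set (K × Blk Q) := range fun q : Q => (m q, Sum.inl (i (m q)))
  have hHc : #H = κ := by
    rw [mk_range_eq, mk_ord_toType]
    intro q q' h
    exact m.injective (congrArg Prod.fst h)
  have hHT : H ⊆ T' := by
    rintro _ ⟨q, rfl⟩
    exact hi (m q)
  obtain ⟨α, hα, hlt⟩ := he H hHc.le
  have h5 := hZ4 α (by rw [hα]; exact hlt) (by rw [hα, hHc]) (i α, l α)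
  have h6 : insert (α, Sum.inl (i α)) (insert (α, Sum.inr (Sum.inl (l α))) (Z α (i α, l α))) ⊆
      (T' ∩ Line Z (α, Sum.inl (i α, l α)) : Set (K × Blk Q)) := by
    rintro x (rfl | rfl | hx)
    · exact ⟨hi α, Or.inl ⟨rfl, rfl⟩⟩
    · exact ⟨hl α, Or.inl ⟨rfl, rfl⟩⟩
    · exact ⟨hHT (hα ▸ h5.1 hx), Or.inr hx⟩
  have h7 := (mk_le_mk_of_subset h6).trans (hT2 _)
  rw [mk_insert, mk_insert, h5.2] at h7
  · have h8 : ((s + 1 + 1 : ℕ) : Cardinal.{u}) ≤ ((s + 1 : ℕ) : Cardinal.{u}) := by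
      push_cast
      push_cast at h7
      exact h7
    have h9 := Nat.cast_le.1 h8
    omega
  · intro h
    exact absurd rfl (hZ1 _ _ _ h).ne
  · rintro (h | h)
    · exact absurd (congrArg Prod.snd h) (by simp)
    · exact absurd rfl (hZ1 _ _ _ h).ne

/-- **The good cardinals for finite degrees.** -/
theorem good_fin_iff (hκ : ℵ₀ ≤ κ) (h2 : (2 : Cardinal.{u}) ^ κ = Order.succ κ) (hκι : κ < ι)
    {lam : Cardinal.{u}} (hl : lam < ℵ₀) : Good ι κ lam ↔ lam ≤ 1 := by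
  refine ⟨fun h => ?_, fun h => good_le_one hκ hκι h⟩
  obtain ⟨n, rfl⟩ := lt_aleph0.1 hl
  by_contra hcon
  have h3 : ¬ n ≤ 1 := fun h => hcon (by exact_mod_cast h)
  obtain ⟨s, rfl⟩ : ∃ s, n = s + 1 := ⟨n - 1, by omega⟩
  exact not_good_fin hκ h2 hκι (by omega) h

end fin

end Pool.Agent.H645.T
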